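import Mathlib

namespace Pool.Agent.H18.Sieve

open Finset

lemma crt_sum (a b : ℕ) (hab : a.Coprime b) (ha : 0 < a) (hb : 0 < b) (f g : ℕ → ℝ)
    (hf : ∀ s, f (s % a) = f s) (hg : ∀ s, g (s % b) = g s) :
    ∑ s ∈ range (a * b), f s * g s = (∑ s ∈ range a, f s) * ∑ s ∈ range b, g s := by
  rw [Finset.sum_mul_sum, ← Finset.sum_product']
  refine Finset.sum_nbij' (fun s => (s % a, s % b))
    (fun x => (Nat.chineseRemainder hab x.1 x.2 : ℕ)) ?_ ?_ ?_ ?_ ?_
  · intro s _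
    simp only [mem_product, mem_range]
    exact ⟨Nat.mod_lt _ ha, Nat.mod_lt _ hb⟩
  · intro x _
    simp only [mem_range]
    exact Nat.chineseRemainder_lt_mul hab x.1 x.2 ha.ne' hb.ne'
  · intro s hs
    simp only [mem_range] at hs
    have h1 := (Nat.chineseRemainder hab (s % a) (s % b)).2.1
    have h2 := (Nat.chineseRemainder hab (s % a) (s % b)).2.2
    have h3 : (Nat.chineseRemainder hab (s % a) (s % b) : ℕ) ≡ s [MOD a * b] := by
      rw [← Nat.modEq_and_modEq_iff_modEq_mul hab]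
      exact ⟨h1.trans (Nat.mod_modEq _ _), h2.trans (Nat.mod_modEq _ _)⟩
    exact Nat.ModEq.eq_of_lt_of_lt h3
      (Nat.chineseRemainder_lt_mul hab _ _ ha.ne' hb.ne') hs
  · intro x hx
    simp only [mem_product, mem_range] at hx
    have h1 := (Nat.chineseRemainder hab x.1 x.2).2.1
    have h2 := (Nat.chineseRemainder hab x.1 x.2).2.2
    ext
    · exact Eq.trans h1 (Nat.mod_eq_of_lt hx.1)
    · exact Eq.trans h2 (Nat.mod_eq_of_lt hx.2)
  · intro s _
    simp only [hf, hg]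

lemma crt_prod (U : Finset ℕ) (hU : ∀ p ∈ U, p.Prime) (φ : ℕ → ℕ → ℝ)
    (hφ : ∀ p ∈ U, ∀ s, φ p (s % p) = φ p s) :
    ∑ s ∈ range (∏ p ∈ U, p), ∏ p ∈ U, φ p s = ∏ p ∈ U, ∑ s ∈ range p, φ p s := by
  induction U using Finset.induction_on with
  | empty => simp
  | insert q U hq ih =>
    have hU' : ∀ p ∈ U, p.Prime := fun p hp => hU p (mem_insert_of_mem hp)
    have hq' : q.Prime := hU q (mem_insert_self _ _)
    have hcop : q.Coprime (∏ p ∈ U, p) := by
      apply Nat.Coprime.prod_right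
      intro p hp
      rw [Nat.coprime_primes hq' (hU' p hp)]
      rintro rfl
      exact hq hp
    simp only [prod_insert hq]
    rw [crt_sum q (∏ p ∈ U, p) hcop hq'.pos (prod_pos fun p hp => (hU' p hp).pos) (φ q)
      (fun s => ∏ p ∈ U, φ p s) (hφ q (mem_insert_self _ _))]
    · rw [ih hU' (fun p hp => hφ p (mem_insert_of_mem hp))]
    · intro s
      apply prod_congr rfl
      intro p hp
      rw [← hφ p (mem_insert_of_mem hp), Nat.mod_mod_of_dvd _ (dvd_prod_of_mem _ hp),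
        hφ p (mem_insert_of_mem hp)]

lemma periodic_sum_le (m N : ℕ) (hm : 0 < m) (φ : ℕ → ℝ) (hφ : ∀ s, φ (s % m) = φ s)
    (μ B : ℝ) (hμ : 0 ≤ μ) (hs : ∑ s ∈ range m, φ s = m * μ) (hB : ∀ s, φ s ≤ B)
    (hB0 : 0 ≤ B) : ∑ s ∈ range N, φ s ≤ N * μ + m * B := by
  induction N using Nat.strong_induction_on with
  | _ N ih =>
    by_cases hN : N < m
    · have h1 : ∑ s ∈ range N, φ s ≤ N * B := by
        have := Finset.sum_le_card_nsmul (range N) φ B (fun s _ => hB s)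
        simpa using this
      have h2 : (N : ℝ) ≤ m := by exact_mod_cast hN.le
      have h3 : (0 : ℝ) ≤ N * μ := by positivity
      nlinarith
    · obtain ⟨t, rfl⟩ : ∃ t, N = m + t := ⟨N - m, by omega⟩
      rw [Finset.sum_range_add, hs]
      have h1 : ∑ x ∈ range t, φ (m + x) = ∑ x ∈ range t, φ x := by
        apply sum_congr rfl
        intro x _
        rw [← hφ (m + x), Nat.add_mod_left, hφ]
      rw [h1]
      have := ih t (by omega)
      push_cast
      linarith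

/-- Sum over the subsets of `A` with product at most `X` of the product of the weights. -/
noncomputable def W (A : Finset ℕ) (X : ℕ) (F : ℕ → ℝ) : ℝ :=
  ∑ T ∈ A.powerset with ∏ p ∈ T, p ≤ X, ∏ p ∈ T, F p

lemma card_small (P : Finset ℕ) (hP : ∀ p ∈ P, p.Prime) (D : ℕ) :
    (P.powerset.filter (fun T => ∏ p ∈ T, p ≤ D)).card ≤ D := by
  have h : (P.powerset.filter (fun T => ∏ p ∈ T, p ≤ D)).card ≤ (Icc 1 D).card := by
    apply Finset.card_le_card_of_injOn (fun T => ∏ p ∈ T, p)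
    · intro T hT
      simp only [coe_filter, mem_powerset, Set.mem_ofPred_eq] at hT
      simp only [coe_Icc, Set.mem_Icc]
      exact ⟨prod_pos fun p hp => (hP p (hT.1 hp)).pos, hT.2⟩
    · intro T hT T' hT' h
      simp only [coe_filter, mem_powerset, Set.mem_ofPred_eq] at hT hT'
      have h1 := Nat.primeFactors_prod (s := T) (fun p hp => hP p (hT.1 hp))
      have h2 := Nat.primeFactors_prod (s := T') (fun p hp => hP p (hT'.1 hp))
      simp only at h
      rw [← h1, ← h2, h]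
  simpa using h

/-- local weight -/
noncomputable def hw (Ω : ℕ → Finset ℕ) (p : ℕ) : ℝ := ((Ω p).card : ℝ) / (p - (Ω p).card)

/-- local orthogonal function -/
noncomputable def gl (Ω : ℕ → Finset ℕ) (p s : ℕ) : ℝ :=
  if s % p ∈ Ω p then -((hw Ω p)⁻¹) else 1

section loc
variable (Ω : ℕ → Finset ℕ) (p : ℕ) (hΩ : Ω p ⊆ range p) (h1 : 0 < (Ω p).card)
  (h2 : 2 * (Ω p).card ≤ p)

include h1 h2 in
lemma hw_pos : 0 < hw Ω p := by
  unfold hw
  have a1 : (0 : ℝ) < (Ω p).card := by exact_mod_cast h1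
  have a2 : (2 : ℝ) * (Ω p).card ≤ p := by exact_mod_cast h2
  apply div_pos a1
  linarith

include h1 h2 in
lemma hw_le : hw Ω p ≤ 1 := by
  unfold hw
  have a1 : (0 : ℝ) < (Ω p).card := by exact_mod_cast h1
  have a2 : (2 : ℝ) * (Ω p).card ≤ p := by exact_mod_cast h2
  rw [div_le_one (by linarith)]
  linarith

include hΩ in
lemma sum_ite_loc (u v : ℝ) :
    ∑ s ∈ range p, (if s % p ∈ Ω p then u else v) = (Ω p).card * u + (p - (Ω p).card) * v := by
  have : ∑ s ∈ range p, (if s % p ∈ Ω p then u else v) =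
      ∑ s ∈ range p, (if s ∈ Ω p then u else v) := by
    apply sum_congr rfl
    intro s hs
    rw [Nat.mod_eq_of_lt (mem_range.1 hs)]
  rw [this, Finset.sum_ite]
  have e1 : (range p).filter (fun s => s ∈ Ω p) = Ω p := by
    ext s
    simp only [mem_filter]
    exact ⟨fun h => h.2, fun h => ⟨hΩ h, h⟩⟩
  have e2 : (range p).filter (fun s => ¬ s ∈ Ω p) = range p \ Ω p := by
    ext s
    simp only [mem_filter, mem_sdiff]
  rw [e1, e2, sum_const, sum_const, card_sdiff_of_subset hΩ, card_range, nsmul_eq_mul,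
    nsmul_eq_mul, Nat.cast_sub]
  simpa using card_le_card hΩ

include hΩ h1 h2 in
lemma sum_gl : ∑ s ∈ range p, gl Ω p s = 0 := by
  unfold gl
  rw [sum_ite_loc Ω p hΩ]
  unfold hw
  have a1 : (0 : ℝ) < (Ω p).card := by exact_mod_cast h1
  have a2 : (2 : ℝ) * (Ω p).card ≤ p := by exact_mod_cast h2
  have a3 : (p : ℝ) - (Ω p).card ≠ 0 := by linarith
  field_simp
  ring

include hΩ h1 h2 in
lemma sum_gl_sq : ∑ s ∈ range p, gl Ω p s * gl Ω p s = p * (hw Ω p)⁻¹ := by
  have : ∀ s, gl Ω p s * gl Ω p s =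
      if s % p ∈ Ω p then (hw Ω p)⁻¹ * (hw Ω p)⁻¹ else 1 := by
    intro s
    unfold gl
    split_ifs <;> ring
  simp only [this]
  rw [sum_ite_loc Ω p hΩ]
  unfold hw
  have a1 : (0 : ℝ) < (Ω p).card := by exact_mod_cast h1
  have a2 : (2 : ℝ) * (Ω p).card ≤ p := by exact_mod_cast h2
  have a3 : (p : ℝ) - (Ω p).card ≠ 0 := by linarith
  field_simp
  ring

include h1 h2 in
lemma abs_gl (s : ℕ) : |hw Ω p * gl Ω p s| ≤ 1 := by
  have a1 := hw_pos Ω p h1 h2
  have a2 := hw_le Ω p h1 h2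
  unfold gl
  split_ifs
  · rw [mul_neg, mul_inv_cancel₀ a1.ne']
    simp
  · rw [mul_one, abs_of_pos a1]
    exact a2

lemma gl_mod (s : ℕ) : gl Ω p (s % p) = gl Ω p s := by
  unfold gl
  rw [Nat.mod_mod]

end loc

lemma pair_bound (P : Finset ℕ) (hP : ∀ p ∈ P, p.Prime) (Ω : ℕ → Finset ℕ)
    (hΩ : ∀ p ∈ P, Ω p ⊆ range p) (h1 : ∀ p ∈ P, 0 < (Ω p).card)
    (h2 : ∀ p ∈ P, 2 * (Ω p).card ≤ p) (N D : ℕ) (T T' : Finset ℕ) (hT : T ⊆ P) (hT' : T' ⊆ P)
    (hD : ∏ p ∈ T, p ≤ D) (hD' : ∏ p ∈ T', p ≤ D) :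
    ∑ s ∈ range N, (∏ p ∈ T, hw Ω p * gl Ω p s) * (∏ p ∈ T', hw Ω p * gl Ω p s) ≤
      N * (if T = T' then ∏ p ∈ T, hw Ω p else 0) + D ^ 2 := by
  classical
  set U := T ∪ T' with hU
  have hUP : U ⊆ P := union_subset hT hT'
  set φ : ℕ → ℕ → ℝ := fun p s => (if p ∈ T then hw Ω p * gl Ω p s else 1) *
    (if p ∈ T' then hw Ω p * gl Ω p s else 1) with hφ
  have e : ∀ s, (∏ p ∈ T, hw Ω p * gl Ω p s) * (∏ p ∈ T', hw Ω p * gl Ω p s) =
      ∏ p ∈ U, φ p s := by
    intro s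
    simp only [hφ]
    rw [prod_mul_distrib (s := U), ← Finset.prod_filter, ← Finset.prod_filter]
    have e1 : U.filter (fun p => p ∈ T) = T := by
      ext p; simp only [hU, mem_filter, mem_union]; tauto
    have e2 : U.filter (fun p => p ∈ T') = T' := by
      ext p; simp only [hU, mem_filter, mem_union]; tauto
    rw [e1, e2]
  simp only [e]
  have hφm : ∀ p ∈ U, ∀ s, φ p (s % p) = φ p s := by
    intro p _ s
    simp only [hφ, gl_mod]
  have hm : 0 < ∏ p ∈ U, p := prod_pos fun p hp => (hP p (hUP hp)).pos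
  have hle : ∏ p ∈ U, p ≤ D ^ 2 := by
    have : (∏ p ∈ U, p) * ∏ p ∈ T ∩ T', p = (∏ p ∈ T, p) * ∏ p ∈ T', p := prod_union_inter
    have h3 : 0 < ∏ p ∈ T ∩ T', p :=
      prod_pos fun p hp => (hP p (hT (mem_inter.1 hp).1)).pos
    calc ∏ p ∈ U, p ≤ (∏ p ∈ U, p) * ∏ p ∈ T ∩ T', p := Nat.le_mul_of_pos_right _ h3
      _ = _ := this
      _ ≤ D * D := Nat.mul_le_mul hD hD'
      _ = D ^ 2 := by ring
  have key := periodic_sum_le (∏ p ∈ U, p) N hm (fun s => ∏ p ∈ U, φ p s) ?_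
    (if T = T' then ∏ p ∈ T, hw Ω p else 0) 1 ?_ ?_ ?_ zero_le_one
  · have : ((∏ p ∈ U, p : ℕ) : ℝ) ≤ (D : ℝ) ^ 2 := by exact_mod_cast hle
    linarith
  · intro s
    apply prod_congr rfl
    intro p hp
    rw [← hφm p hp, Nat.mod_mod_of_dvd _ (dvd_prod_of_mem _ hp), hφm p hp]
  · split_ifs
    · exact prod_nonneg fun p hp => (hw_pos Ω p (h1 p (hT hp)) (h2 p (hT hp))).le
    · exact le_rfl
  · rw [crt_prod U (fun p hp => hP p (hUP hp)) φ hφm]
    split_ifs with hTT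
    · subst hTT
      have : U = T := by simp [hU]
      rw [this, Nat.cast_prod, ← prod_mul_distrib]
      apply prod_congr rfl
      intro p hp
      simp only [hφ, if_pos hp]
      have a1 := hw_pos Ω p (h1 p (hT hp)) (h2 p (hT hp))
      have a2 := sum_gl_sq Ω p (hΩ p (hT hp)) (h1 p (hT hp)) (h2 p (hT hp))
      have : ∑ s ∈ range p, hw Ω p * gl Ω p s * (hw Ω p * gl Ω p s) =
          hw Ω p ^ 2 * ∑ s ∈ range p, gl Ω p s * gl Ω p s := by
        rw [mul_sum]
        apply sum_congr rfl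
        intro s _
        ring
      rw [this, a2]
      field_simp
    · rw [mul_zero]
      have : ∃ p ∈ U, (p ∈ T ∧ p ∉ T') ∨ (p ∉ T ∧ p ∈ T') := by
        by_contra hc
        push Not at hc
        apply hTT
        ext p
        constructor
        · intro hp
          exact ((hc p (mem_union_left _ hp)).1 hp)
        · intro hp
          by_contra hp2
          exact (hc p (mem_union_right _ hp)).2 hp2 hp
      obtain ⟨p, hp, hp2⟩ := this
      apply prod_eq_zero hp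
      have a2 := sum_gl Ω p (hΩ p (hUP hp)) (h1 p (hUP hp)) (h2 p (hUP hp))
      rcases hp2 with ⟨b1, b2⟩ | ⟨b1, b2⟩
      · simp only [hφ, if_pos b1, if_neg b2, mul_one]
        rw [← mul_sum, a2, mul_zero]
      · simp only [hφ, if_neg b1, if_pos b2, one_mul]
        rw [← mul_sum, a2, mul_zero]
  · intro s
    refine (le_abs_self _).trans ?_
    rw [Finset.abs_prod]
    apply prod_le_one (fun p _ => abs_nonneg _)
    intro p hp
    have a := abs_gl Ω p (h1 p (hUP hp)) (h2 p (hUP hp)) s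
    simp only [hφ]
    rw [abs_mul]
    apply mul_le_one₀
    · split_ifs
      · exact a
      · simp
    · exact abs_nonneg _
    · split_ifs
      · exact a
      · simp

/-- Selberg-type upper bound sieve on an initial interval. -/
theorem sieve (P : Finset ℕ) (hP : ∀ p ∈ P, p.Prime) (Ω : ℕ → Finset ℕ)
    (hΩ : ∀ p ∈ P, Ω p ⊆ range p) (h1 : ∀ p ∈ P, 0 < (Ω p).card)
    (h2 : ∀ p ∈ P, 2 * (Ω p).card ≤ p) (N D : ℕ) (S : Finset ℕ) (hS : S ⊆ range N)
    (hav : ∀ s ∈ S, ∀ p ∈ P, s % p ∉ Ω p) :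
    S.card * (W P D (hw Ω)) ^ 2 ≤ N * W P D (hw Ω) + D ^ 4 := by
  classical
  set 𝒯 := P.powerset.filter (fun T => ∏ p ∈ T, p ≤ D) with h𝒯
  set F : ℕ → ℝ := fun s => ∑ T ∈ 𝒯, ∏ p ∈ T, hw Ω p * gl Ω p s with hF
  have hFS : ∀ s ∈ S, F s = W P D (hw Ω) := by
    intro s hs
    simp only [hF, W]
    apply sum_congr rfl
    intro T hT
    apply prod_congr rfl
    intro p hp
    have hpP : p ∈ P := (mem_powerset.1 (mem_filter.1 hT).1) hp
    unfold gl
    rw [if_neg (hav s hs p hpP), mul_one]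
  have a1 : S.card * (W P D (hw Ω)) ^ 2 ≤ ∑ s ∈ range N, F s ^ 2 := by
    calc S.card * (W P D (hw Ω)) ^ 2 = ∑ s ∈ S, F s ^ 2 := by
          rw [sum_congr rfl (fun s hs => by rw [hFS s hs]), sum_const, nsmul_eq_mul]
      _ ≤ _ := sum_le_sum_of_subset_of_nonneg hS (fun s _ _ => sq_nonneg _)
  have a2 : ∑ s ∈ range N, F s ^ 2 = ∑ T ∈ 𝒯, ∑ T' ∈ 𝒯, ∑ s ∈ range N,
      (∏ p ∈ T, hw Ω p * gl Ω p s) * (∏ p ∈ T', hw Ω p * gl Ω p s) := by
    simp only [hF, sq, sum_mul_sum]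
    rw [sum_comm]
    apply sum_congr rfl
    intro T _
    rw [sum_comm]
  have a3 : ∑ T ∈ 𝒯, ∑ T' ∈ 𝒯, ∑ s ∈ range N,
      (∏ p ∈ T, hw Ω p * gl Ω p s) * (∏ p ∈ T', hw Ω p * gl Ω p s) ≤
      ∑ T ∈ 𝒯, ∑ T' ∈ 𝒯, ((N : ℝ) * (if T = T' then ∏ p ∈ T, hw Ω p else 0) + D ^ 2) := by
    apply sum_le_sum
    intro T hT
    apply sum_le_sum
    intro T' hT'
    exact pair_bound P hP Ω hΩ h1 h2 N D T T' (mem_powerset.1 (mem_filter.1 hT).1)
      (mem_powerset.1 (mem_filter.1 hT').1) (mem_filter.1 hT).2 (mem_filter.1 hT').2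
  have a4 : ∑ T ∈ 𝒯, ∑ T' ∈ 𝒯, ((N : ℝ) * (if T = T' then ∏ p ∈ T, hw Ω p else 0) + D ^ 2) =
      N * W P D (hw Ω) + (𝒯.card : ℝ) ^ 2 * D ^ 2 := by
    simp only [sum_add_distrib, sum_const, nsmul_eq_mul, ← mul_sum]
    congr 1
    · congr 1
      unfold W
      apply sum_congr rfl
      intro T hT
      rw [sum_ite_eq, if_pos hT]
    · ring
  have a5 : (𝒯.card : ℝ) ≤ D := by exact_mod_cast card_small P hP D
  have a6 : (𝒯.card : ℝ) ^ 2 * D ^ 2 ≤ (D : ℝ) ^ 4 := by
    have : (𝒯.card : ℝ) ^ 2 ≤ (D : ℝ) ^ 2 := by gcongr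
    calc (𝒯.card : ℝ) ^ 2 * D ^ 2 ≤ (D : ℝ) ^ 2 * D ^ 2 := by gcongr
      _ = _ := by ring
  linarith

lemma W_insert (A : Finset ℕ) (q : ℕ) (hq : q ∉ A) (hq0 : 0 < q) (X : ℕ) (F : ℕ → ℝ) :
    W (insert q A) X F = W A X F + F q * W A (X / q) F := by
  classical
  unfold W
  simp only [sum_filter]
  rw [sum_powerset_insert hq, mul_sum]
  congr 1
  apply sum_congr rfl
  intro T hT
  have hqT : q ∉ T := fun h => hq (mem_powerset.1 hT h)
  rw [prod_insert hqT, prod_insert hqT]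
  have : q * ∏ p ∈ T, p ≤ X ↔ ∏ p ∈ T, p ≤ X / q := by
    rw [Nat.le_div_iff_mul_le hq0, mul_comm]
  simp only [this]
  split_ifs <;> simp

lemma W_mono (A : Finset ℕ) (X Y : ℕ) (h : X ≤ Y) (F : ℕ → ℝ) (hF : ∀ p ∈ A, 0 ≤ F p) :
    W A X F ≤ W A Y F := by
  unfold W
  apply sum_le_sum_of_subset_of_nonneg
  · intro T hT
    simp only [mem_filter] at hT ⊢
    exact ⟨hT.1, hT.2.trans h⟩
  · intro T hT _
    exact prod_nonneg fun p hp => hF p (mem_powerset.1 (mem_filter.1 hT).1 hp)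

lemma W_nonneg (A : Finset ℕ) (X : ℕ) (F : ℕ → ℝ) (hF : ∀ p ∈ A, 0 ≤ F p) : 0 ≤ W A X F := by
  unfold W
  apply sum_nonneg
  intro T hT
  exact prod_nonneg fun p hp => hF p (mem_powerset.1 (mem_filter.1 hT).1 hp)

lemma W_le_W (A : Finset ℕ) (X : ℕ) (F G : ℕ → ℝ) (hF : ∀ p ∈ A, 0 ≤ F p)
    (hFG : ∀ p ∈ A, F p ≤ G p) : W A X F ≤ W A X G := by
  unfold W
  apply sum_le_sum
  intro T hT
  have hT' := mem_powerset.1 (mem_filter.1 hT).1
  exact prod_le_prod (fun p hp => hF p (hT' hp)) (fun p hp => hFG p (hT' hp))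

lemma W_union_le (A B : Finset ℕ) (hAB : Disjoint A B) (hB : ∀ p ∈ B, 0 < p) (X : ℕ)
    (F : ℕ → ℝ) (hF : ∀ p ∈ A ∪ B, 0 ≤ F p) :
    W (A ∪ B) X F ≤ W A X F * ∏ p ∈ B, (1 + F p) := by
  classical
  induction B using Finset.induction_on with
  | empty => simp
  | insert q B hq ih =>
    have hqA : q ∉ A := fun h => (disjoint_left.1 hAB h) (mem_insert_self _ _)
    have hqAB : q ∉ A ∪ B := by simp [hqA, hq]
    have hF' : ∀ p ∈ A ∪ B, 0 ≤ F p := fun p hp => hF p (by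
      rw [union_insert]; exact mem_insert_of_mem hp)
    have hFq : 0 ≤ F q := hF q (by simp)
    rw [union_insert, W_insert _ q hqAB (hB q (mem_insert_self _ _)), prod_insert hq]
    have ih' := ih (hAB.mono_right (subset_insert _ _))
      (fun p hp => hB p (mem_insert_of_mem hp)) hF'
    have m := W_mono (A ∪ B) (X / q) X (Nat.div_le_self _ _) F hF'
    calc W (A ∪ B) X F + F q * W (A ∪ B) (X / q) F ≤ (1 + F q) * W (A ∪ B) X F := by
          nlinarith
      _ ≤ (1 + F q) * (W A X F * ∏ p ∈ B, (1 + F p)) := by gcongr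
      _ = _ := by ring

lemma le_W_union (A B : Finset ℕ) (hAB : Disjoint A B) (hB : ∀ p ∈ B, 0 < p) (X : ℕ)
    (F : ℕ → ℝ) (hF : ∀ p ∈ A ∪ B, 0 ≤ F p) :
    W A X F * ∏ p ∈ B, (1 + F p) ≤ W (A ∪ B) (X * ∏ p ∈ B, p) F := by
  classical
  induction B using Finset.induction_on with
  | empty => simp
  | insert q B hq ih =>
    have hqA : q ∉ A := fun h => (disjoint_left.1 hAB h) (mem_insert_self _ _)
    have hqAB : q ∉ A ∪ B := by simp [hqA, hq]
    have hF' : ∀ p ∈ A ∪ B, 0 ≤ F p := fun p hp => hF p (by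
      rw [union_insert]; exact mem_insert_of_mem hp)
    have hFq : 0 ≤ F q := hF q (by simp)
    have hq0 := hB q (mem_insert_self _ _)
    rw [union_insert, W_insert _ q hqAB hq0, prod_insert hq, prod_insert hq]
    have ih' := ih (hAB.mono_right (subset_insert _ _))
      (fun p hp => hB p (mem_insert_of_mem hp)) hF'
    have e : X * (q * ∏ p ∈ B, p) / q = X * ∏ p ∈ B, p := by
      rw [mul_left_comm, Nat.mul_div_cancel_left _ hq0]
    rw [e]
    have m := W_mono (A ∪ B) (X * ∏ p ∈ B, p) (X * (q * ∏ p ∈ B, p))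
      (Nat.mul_le_mul_left _ (Nat.le_mul_of_pos_left _ hq0)) F hF'
    calc W A X F * ((1 + F q) * ∏ p ∈ B, (1 + F p))
        = (1 + F q) * (W A X F * ∏ p ∈ B, (1 + F p)) := by ring
      _ ≤ (1 + F q) * W (A ∪ B) (X * ∏ p ∈ B, p) F := by gcongr
      _ ≤ _ := by nlinarith

lemma W_le_prod (B : Finset ℕ) (hB : ∀ p ∈ B, 0 < p) (X : ℕ)
    (F : ℕ → ℝ) (hF : ∀ p ∈ B, 0 ≤ F p) : W B X F ≤ ∏ p ∈ B, (1 + F p) := by
  have h := W_union_le ∅ B (disjoint_empty_left _) hB X F (by simpa using hF)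
  have h0 : W ∅ X F ≤ 1 := by
    unfold W
    simp only [powerset_empty, sum_filter, sum_singleton, prod_empty]
    split_ifs <;> simp
  have h1 : 0 ≤ ∏ p ∈ B, (1 + F p) := prod_nonneg fun p hp => by linarith [hF p hp]
  rw [empty_union] at h
  nlinarith

/-- Grouping by radical. -/
lemma fiber_le (f : ArithmeticFunction ℝ) (hf : f.IsMultiplicative) (hf0 : ∀ n, 0 ≤ f n)
    (F : ℕ → ℝ) (X : ℕ) (hF : ∀ p, p.Prime → ∑ k ∈ Icc 1 X, f (p ^ k) ≤ F p)
    (U : Finset ℕ) (hU : ∀ p ∈ U, p.Prime) :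
    ∑ n ∈ (Icc 1 X).filter (fun n => n.primeFactors = U), f n ≤ ∏ p ∈ U, F p := by
  classical
  induction U using Finset.induction_on with
  | empty =>
    rw [prod_empty]
    have : (Icc 1 X).filter (fun n => n.primeFactors = ∅) ⊆ {1} := by
      intro n hn
      simp only [mem_filter, mem_Icc, Nat.primeFactors_eq_empty] at hn
      simp only [mem_singleton]
      omega
    calc _ ≤ ∑ n ∈ {1}, f n := sum_le_sum_of_subset_of_nonneg this (fun n _ _ => hf0 n)
      _ = 1 := by simp [hf.map_one]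
  | insert q U hq ih =>
    have hU' : ∀ p ∈ U, p.Prime := fun p hp => hU p (mem_insert_of_mem hp)
    have hq' : q.Prime := hU q (mem_insert_self _ _)
    have ih' := ih hU'
    set S := (Icc 1 X).filter (fun n => n.primeFactors = U) with hS
    have sub : (Icc 1 X).filter (fun n => n.primeFactors = insert q U) ⊆
        ((Icc 1 X) ×ˢ S).image (fun x => q ^ x.1 * x.2) := by
      intro n hn
      simp only [mem_filter, mem_Icc] at hn
      obtain ⟨⟨hn1, hnX⟩, hn⟩ := hn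
      have hn0 : n ≠ 0 := by omega
      have hqn : q ∈ n.primeFactors := by rw [hn]; exact mem_insert_self _ _
      have hqd : q ∣ n := Nat.dvd_of_mem_primeFactors hqn
      simp only [mem_image, mem_product, mem_Icc, hS, mem_filter, Prod.exists]
      refine ⟨n.factorization q, n / q ^ n.factorization q, ⟨⟨?_, ?_⟩, ⟨?_, ?_⟩, ?_⟩, ?_⟩
      · exact hq'.factorization_pos_of_dvd hn0 hqd
      · exact (Nat.factorization_lt q hn0).le.trans hnX
      · exact Nat.ordCompl_pos q hn0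
      · exact (Nat.div_le_self _ _).trans hnX
      · have : (n / q ^ n.factorization q).primeFactors = n.primeFactors.erase q := by
          rw [← Nat.support_factorization, Nat.factorization_ordCompl, Finsupp.support_erase,
            Nat.support_factorization]
        rw [this, hn, erase_insert hq]
      · exact Nat.ordProj_mul_ordCompl_eq_self n q
    have hFq : ∑ k ∈ Icc 1 X, f (q ^ k) ≤ F q := hF q hq'
    calc _ ≤ ∑ n ∈ ((Icc 1 X) ×ˢ S).image (fun x => q ^ x.1 * x.2), f n :=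
          sum_le_sum_of_subset_of_nonneg sub (fun n _ _ => hf0 n)
      _ ≤ ∑ x ∈ (Icc 1 X) ×ˢ S, f (q ^ x.1 * x.2) :=
          sum_image_le_of_nonneg (fun n _ => hf0 _)
      _ = ∑ x ∈ (Icc 1 X) ×ˢ S, f (q ^ x.1) * f x.2 := by
          apply sum_congr rfl
          intro x hx
          simp only [mem_product, hS, mem_filter, mem_Icc] at hx
          apply hf.map_mul_of_coprime
          apply Nat.Coprime.pow_left
          rw [Nat.Prime.coprime_iff_not_dvd hq']
          intro hd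
          apply hq
          rw [← hx.2.2]
          exact Nat.mem_primeFactors.2 ⟨hq', hd, by omega⟩
      _ = (∑ k ∈ Icc 1 X, f (q ^ k)) * ∑ n ∈ S, f n := by
          rw [sum_mul_sum, sum_product]
      _ ≤ F q * ∏ p ∈ U, F p := by
          apply mul_le_mul hFq ih' (sum_nonneg fun n _ => hf0 n)
          exact (sum_nonneg fun n _ => hf0 _).trans hFq
      _ = _ := by rw [prod_insert hq]

lemma sum_le_W (f : ArithmeticFunction ℝ) (hf : f.IsMultiplicative) (hf0 : ∀ n, 0 ≤ f n)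
    (F : ℕ → ℝ) (X : ℕ) (hF : ∀ p, p.Prime → ∑ k ∈ Icc 1 X, f (p ^ k) ≤ F p) :
    ∑ n ∈ Icc 1 X, f n ≤ W ((Icc 1 X).filter Nat.Prime) X F := by
  classical
  unfold W
  rw [← sum_fiberwise_of_maps_to (s := Icc 1 X)
    (t := (((Icc 1 X).filter Nat.Prime).powerset).filter (fun T => ∏ p ∈ T, p ≤ X))
    (g := fun n => n.primeFactors)]
  · apply sum_le_sum
    intro T hT
    apply fiber_le f hf hf0 F X hF T
    intro p hp
    exact (mem_filter.1 (mem_powerset.1 (mem_filter.1 hT).1 hp)).2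
  · intro n hn
    simp only [mem_Icc] at hn
    simp only [mem_filter, mem_powerset]
    constructor
    · intro p hp
      have hp' := Nat.prime_of_mem_primeFactors hp
      simp only [mem_filter, mem_Icc]
      exact ⟨⟨hp'.one_le, (Nat.le_of_mem_primeFactors hp).trans hn.2⟩, hp'⟩
    · exact (Nat.le_of_dvd (by omega) (Nat.prod_primeFactors_dvd n)).trans hn.2

lemma nonneg_of_prime_pow (f : ArithmeticFunction ℝ) (hf : f.IsMultiplicative)
    (h : ∀ p k, p.Prime → 0 ≤ f (p ^ k)) (n : ℕ) : 0 ≤ f n := by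
  rcases eq_or_ne n 0 with rfl | hn
  · simp
  · rw [hf.multiplicative_factorization f hn]
    apply prod_nonneg
    intro p hp
    exact h p _ (Nat.prime_of_mem_primeFactors (by simpa using hp))

end Pool.Agent.H18.Sieve
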