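import Mathlib

set_option autoImplicit false

namespace Pool.Agent.H18.Abund

open Finset

lemma cs_fiber {α β : Type*} [DecidableEq β] (P : Finset α) (Cl : Finset β) (g : α → β)
    (hg : ∀ p ∈ P, g p ∈ Cl) (ρ : α → ℕ) (F : ℕ)
    (h : ∀ p ∈ P, (P.filter (fun p' => g p' = g p)).card ≤ F * ρ p) :
    P.card ^ 2 ≤ Cl.card * (F * ∑ p ∈ P, ρ p) := by
  have h1 : P.card = ∑ c ∈ Cl, (P.filter (fun p => g p = c)).card :=
    card_eq_sum_card_fiberwise hg
  have h2 : ∑ c ∈ Cl, (P.filter (fun p => g p = c)).card ^ 2 =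
      ∑ p ∈ P, (P.filter (fun p' => g p' = g p)).card := by
    rw [← sum_fiberwise_of_maps_to hg]
    apply sum_congr rfl
    intro c _
    rw [sq, ← smul_eq_mul, ← sum_const]
    apply sum_congr rfl
    intro p hp
    rw [(mem_filter.1 hp).2]
  calc P.card ^ 2 = (∑ c ∈ Cl, (P.filter (fun p => g p = c)).card) ^ 2 := by rw [← h1]
    _ ≤ Cl.card * ∑ c ∈ Cl, (P.filter (fun p => g p = c)).card ^ 2 := sq_sum_le_card_mul_sum_sq
    _ ≤ _ := by
      rw [h2, mul_sum P ρ F]
      exact Nat.mul_le_mul_left _ (sum_le_sum h)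

section Amp

variable {ι : Type} [Fintype ι] [DecidableEq ι]

/-- direction attached to the edge from `m` to `π m` -/
def dir (c : ι → ℤ) (π : ι → ι) (m i : ι) : ℤ :=
  (if i = m then c (π m) else 0) - (if i = π m then c m else 0)

/-- the point attached to parameters -/
def Y (c : ι → ℤ) (π : ι → ι) (j : ι → ℤ) (p : ℤ × ℤ × (ι → ℤ)) (i : ι) : ℤ :=
  p.1 + p.2.1 * j i + ∑ m, p.2.2 m * dir c π m i

/-- box of parameters -/
noncomputable def box (N : ℕ) (s : Finset ι) : Finset (ι → ℤ) :=
  Fintype.piFinset (fun m => if m ∈ s then Icc (-(N : ℤ)) N else {0})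

/-- good parameters -/
noncomputable def PP (c : ι → ℤ) (π : ι → ι) (j : ι → ℤ) (N : ℕ) (A : Finset ℤ) (s : Finset ι) :
    Finset (ℤ × ℤ × (ι → ℤ)) :=
  (Icc (-(N : ℤ)) N ×ˢ Icc (0 : ℤ) N ×ˢ box N s).filter (fun p => ∀ i, Y c π j p i ∈ A)

lemma box_card (N : ℕ) (hN : 1 ≤ N) (s : Finset ι) : (box N s).card ≤ (3 * N) ^ s.card := by
  unfold box
  rw [Fintype.card_piFinset]
  have : ∀ m : ι, (if m ∈ s then Icc (-(N : ℤ)) N else {0}).card =
      if m ∈ s then 2 * N + 1 else 1 := by
    intro m
    split_ifs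
    · rw [Int.card_Icc]; omega
    · simp
  simp only [this]
  rw [prod_ite_mem, univ_inter, prod_const]
  exact Nat.pow_le_pow_left (by omega) _

lemma Y_update (c : ι → ℤ) (π : ι → ι) (j : ι → ℤ) (x d : ℤ) (t : ι → ℤ) (m : ι) (τ : ℤ)
    (ht : t m = 0) (i : ι) :
    Y c π j (x, d, Function.update t m τ) i = Y c π j (x, d, t) i + τ * dir c π m i := by
  unfold Y
  simp only
  rw [← sum_erase_add _ _ (mem_univ m), ← sum_erase_add univ _ (mem_univ m), ht,
    Function.update_self]
  have : ∑ k ∈ univ.erase m, Function.update t m τ k * dir c π k i =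
      ∑ k ∈ univ.erase m, t k * dir c π k i := by
    apply sum_congr rfl
    intro k hk
    rw [Function.update_of_ne (ne_of_mem_erase hk)]
  rw [this]
  ring

lemma amp_step (c : ι → ℤ) (hc : ∀ i, c i ≠ 0) (K : ℕ) (hK : ∀ i, |c i| ≤ K)
    (π : ι → ι) (j : ι → ℤ) (N : ℕ) (hN : 1 ≤ N) (A : Finset ℤ) (hA : A ⊆ Icc (1 : ℤ) N)
    (s : Finset ι) (m : ι) (hm : m ∉ s) (hj : j m ≠ j (π m)) :
    (PP c π j N A s).card ^ 2 ≤
      (5 * K * K * N) * ((3 * N) ^ s.card * (PP c π j N A (insert m s)).card) := by
  have hmπ : m ≠ π m := fun h => hj (by rw [← h])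
  have d1 : dir c π m m = c (π m) := by simp [dir, hmπ]
  have d2 : dir c π m (π m) = - c m := by simp [dir, hmπ.symm]
  have d3 : ∀ i, i ≠ m → i ≠ π m → dir c π m i = 0 := by
    intro i h1 h2; simp [dir, h1, h2]
  have hK1 : 1 ≤ K := by
    have h1 := hK m
    have h2 := abs_pos.2 (hc m)
    omega
  let T : ℤ × ℤ × (ι → ℤ) → Finset ℤ := fun p => (Icc (-(N : ℤ)) N).filter
    (fun τ => Y c π j p m + τ * c (π m) ∈ A ∧ Y c π j p (π m) - τ * c m ∈ A)
  let g : ℤ × ℤ × (ι → ℤ) → ℤ × ℤ := fun p =>
    (c m * Y c π j p m + c (π m) * Y c π j p (π m), Y c π j p m % c (π m))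
  let Cl : Finset (ℤ × ℤ) := Icc (-(2 * K * N : ℤ)) (2 * K * N) ×ˢ Ico (0 : ℤ) K
  have hCl : Cl.card ≤ 5 * K * K * N := by
    simp only [Cl, card_product, Int.card_Icc, Int.card_Ico]
    have e1 : (2 * (K : ℤ) * N + 1 - -(2 * K * N)).toNat = 4 * (K * N) + 1 := by
      have : (2 * (K : ℤ) * N + 1 - -(2 * K * N)) = ((4 * (K * N) + 1 : ℕ) : ℤ) := by
        push_cast; ring
      rw [this, Int.toNat_natCast]
    have e2 : ((K : ℤ) - 0).toNat = K := by simp
    rw [e1, e2]
    have : 1 ≤ K * N := Nat.mul_pos hK1 hN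
    nlinarith
  have hmemA : ∀ p ∈ PP c π j N A s, ∀ i, 1 ≤ Y c π j p i ∧ Y c π j p i ≤ N := by
    intro p hp i
    exact mem_Icc.1 (hA ((mem_filter.1 hp).2 i))
  have hg : ∀ p ∈ PP c π j N A s, g p ∈ Cl := by
    intro p hp
    have h1 := hmemA p hp m
    have h2 := hmemA p hp (π m)
    have h3 := abs_le.1 (hK m)
    have h4 := abs_le.1 (hK (π m))
    simp only [g, Cl, mem_product, mem_Icc, mem_Ico]
    refine ⟨⟨by nlinarith, by nlinarith⟩, Int.emod_nonneg _ (hc _), ?_⟩
    exact lt_of_lt_of_le (Int.emod_lt_abs _ (hc _)) (hK _)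
  have hfib : ∀ p ∈ PP c π j N A s, ((PP c π j N A s).filter (fun p' => g p' = g p)).card ≤
      (3 * N) ^ s.card * (T p).card := by
    intro p hp
    calc ((PP c π j N A s).filter (fun p' => g p' = g p)).card ≤ (box N s ×ˢ T p).card := by
          have key : ∀ p' ∈ (PP c π j N A s).filter (fun p' => g p' = g p),
              Y c π j p' m = Y c π j p m + ((Y c π j p' m - Y c π j p m) / c (π m)) * c (π m) ∧
              Y c π j p' (π m) = Y c π j p (π m) -
                ((Y c π j p' m - Y c π j p m) / c (π m)) * c m := by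
            intro p' hp'
            have h1 := (mem_filter.1 hp').2
            simp only [g, Prod.mk.injEq] at h1
            have h2 : c (π m) ∣ Y c π j p' m - Y c π j p m :=
              Int.dvd_of_emod_eq_zero (Int.emod_eq_emod_iff_emod_sub_eq_zero.1 h1.2)
            obtain ⟨τ, hτ⟩ := h2
            rw [hτ, Int.mul_ediv_cancel_left _ (hc _)]
            refine ⟨by linarith, ?_⟩
            apply mul_left_cancel₀ (hc (π m))
            linear_combination h1.1 - c m * hτ
          apply card_le_card_of_injOn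
            (fun p' => (p'.2.2, (Y c π j p' m - Y c π j p m) / c (π m)))
          · intro p' hp'
            have hp'' := mem_coe.1 hp'
            have h1 := key p' hp''
            have h2 := (mem_filter.1 hp'').1
            have h3 := mem_filter.1 h2
            simp only [mem_product] at h3
            simp only [coe_product, Set.mem_prod, mem_coe, T, mem_filter, mem_Icc]
            refine ⟨h3.1.2.2, ?_, by rw [← h1.1]; exact h3.2 m, by rw [← h1.2]; exact h3.2 _⟩
            have h4 := hmemA p' h2 m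
            have h5 := hmemA p hp m
            have h6 : |Y c π j p' m - Y c π j p m| ≤ N := by
              rw [abs_le]; constructor <;> linarith [h4.1, h4.2, h5.1, h5.2]
            exact abs_le.1 ((Int.abs_ediv_le_abs _ _).trans h6)
          · rintro ⟨x, d, t⟩ h1 ⟨x', d', t'⟩ h2 h
            simp only [Prod.mk.injEq] at h
            have k1 := key _ (mem_coe.1 h1)
            have k2 := key _ (mem_coe.1 h2)
            obtain ⟨ht, hτ⟩ := h
            subst ht
            rw [hτ] at k1
            have e1 : Y c π j (x, d, t) m = Y c π j (x', d', t) m := k1.1.trans k2.1.symm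
            have e2 : Y c π j (x, d, t) (π m) = Y c π j (x', d', t) (π m) := k1.2.trans k2.2.symm
            simp only [Y] at e1 e2
            have e3 : d = d' := by
              apply mul_right_cancel₀ (sub_ne_zero.2 hj)
              linear_combination e1 - e2
            subst e3
            have e4 : x = x' := by linarith
            rw [e4]
      _ ≤ _ := by
          rw [card_product]
          exact Nat.mul_le_mul_right _ (box_card N hN s)
  have h1 := cs_fiber (PP c π j N A s) Cl g hg (fun p => (T p).card) _ hfib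
  have h2 : ∑ p ∈ PP c π j N A s, (T p).card ≤ (PP c π j N A (insert m s)).card := by
    rw [← card_sigma]
    have hz : ∀ p ∈ PP c π j N A s, p.2.2 m = 0 := by
      intro p hp
      have h3 := (mem_filter.1 hp).1
      simp only [mem_product, box, Fintype.mem_piFinset] at h3
      have := h3.2.2 m
      simpa [hm] using this
    apply card_le_card_of_injOn
      (fun q => (q.1.1, q.1.2.1, Function.update q.1.2.2 m q.2))
    · rintro ⟨⟨x, d, t⟩, τ⟩ hq
      have hq' := mem_sigma.1 (mem_coe.1 hq)
      have h3 := mem_filter.1 hq'.1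
      have h4 := mem_filter.1 hq'.2
      have h5 := hz _ hq'.1
      simp only [mem_product, box, Fintype.mem_piFinset] at h3
      simp only [PP, mem_coe, mem_filter, mem_product, box, Fintype.mem_piFinset]
      refine ⟨⟨h3.1.1, h3.1.2.1, ?_⟩, ?_⟩
      · intro k
        by_cases hk : k = m
        · subst hk
          simp only [Function.update_self, mem_insert_self, if_true]
          exact h4.1
        · rw [Function.update_of_ne hk]
          simp only [mem_insert, hk, false_or]
          exact h3.1.2.2 k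
      · intro i
        rw [Y_update c π j x d t m τ h5 i]
        by_cases h6 : i = m
        · rw [h6, d1]; exact h4.2.1
        · by_cases h7 : i = π m
          · rw [h7, d2, mul_neg, ← sub_eq_add_neg]; exact h4.2.2
          · rw [d3 i h6 h7, mul_zero, add_zero]; exact h3.2 i
    · rintro ⟨⟨x, d, t⟩, τ⟩ hq ⟨⟨x', d', t'⟩, τ'⟩ hq' h
      simp only [Prod.mk.injEq] at h
      have z1 := hz _ (mem_sigma.1 (mem_coe.1 hq)).1
      have z2 := hz _ (mem_sigma.1 (mem_coe.1 hq')).1
      simp only at z1 z2
      obtain ⟨rfl, rfl, h⟩ := h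
      have e1 : τ = τ' := by
        have := congrFun h m
        simpa using this
      have e2 : t = t' := by
        funext k
        by_cases hk : k = m
        · rw [hk, z1, z2]
        · have := congrFun h k
          rwa [Function.update_of_ne hk, Function.update_of_ne hk] at this
      subst e1 e2
      rfl
  calc (PP c π j N A s).card ^ 2 ≤ _ := h1
    _ ≤ _ := by gcongr

lemma amp (c : ι → ℤ) (hc : ∀ i, c i ≠ 0) (K : ℕ) (hK : ∀ i, |c i| ≤ K) (hK1 : 1 ≤ K)
    (π : ι → ι) (j : ι → ℤ) (N : ℕ) (hN : 1 ≤ N) (A : Finset ℤ) (hA : A ⊆ Icc (1 : ℤ) N)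
    (κ : ℝ) (hκ : 0 ≤ κ) (h0 : κ * (N : ℝ) ^ 2 ≤ (PP c π j N A ∅).card)
    (s : Finset ι) (hs : ∀ m ∈ s, j m ≠ j (π m)) :
    (3 ^ Fintype.card ι * (5 * K * K) : ℝ) * (κ / (3 ^ Fintype.card ι * (5 * K * K))) ^ (2 ^ s.card) *
      (N : ℝ) ^ (s.card + 2) ≤ (PP c π j N A s).card := by
  have hK' : (0 : ℝ) < K := by exact_mod_cast hK1
  have hN' : (0 : ℝ) < N := by exact_mod_cast hN
  set K2 : ℝ := 3 ^ Fintype.card ι * (5 * K * K) with hK2
  have hK2' : 0 < K2 := by positivity
  induction s using Finset.induction_on with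
  | empty =>
    simp only [card_empty, pow_zero, pow_one, zero_add]
    rw [mul_div_cancel₀ _ hK2'.ne']
    exact h0
  | insert m s hm ih =>
    have h1 := ih (fun k hk => hs k (mem_insert_of_mem hk))
    have h2 := amp_step c hc K hK π j N hN A hA s m hm (hs m (mem_insert_self _ _))
    have h3 : ((PP c π j N A s).card : ℝ) ^ 2 ≤
      (5 * K * K * N) * ((3 * N) ^ s.card * (PP c π j N A (insert m s)).card) := by
      exact_mod_cast h2
    rw [card_insert_of_notMem hm]
    have h4 : (3 : ℝ) ^ s.card ≤ 3 ^ Fintype.card ι :=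
      pow_le_pow_right₀ (by norm_num) (card_le_univ s)
    have h5 : (K2 * (κ / K2) ^ (2 ^ s.card) * (N : ℝ) ^ (s.card + 2)) ^ 2 ≤
        (K2 * (N : ℝ) ^ (s.card + 1)) * (PP c π j N A (insert m s)).card := by
      calc (K2 * (κ / K2) ^ (2 ^ s.card) * (N : ℝ) ^ (s.card + 2)) ^ 2
          ≤ ((PP c π j N A s).card : ℝ) ^ 2 := by gcongr
        _ ≤ _ := h3
        _ = (3 ^ s.card * (5 * K * K) * (N : ℝ) ^ (s.card + 1)) *
            (PP c π j N A (insert m s)).card := by ring
        _ ≤ _ := by rw [hK2]; gcongr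
    have h6 : 0 < K2 * (N : ℝ) ^ (s.card + 1) := by positivity
    apply le_of_mul_le_mul_left _ h6
    calc K2 * (N : ℝ) ^ (s.card + 1) *
          (K2 * (κ / K2) ^ (2 ^ (s.card + 1)) * (N : ℝ) ^ (s.card + 1 + 2))
        = (K2 * (κ / K2) ^ (2 ^ s.card) * (N : ℝ) ^ (s.card + 2)) ^ 2 := by
          rw [pow_succ 2 s.card, pow_mul]; ring
      _ ≤ _ := h5

lemma final (c : ι → ℤ) (hc : ∀ i, c i ≠ 0) (hsum : ∑ i, c i = 0)
    (π : ι → ι) (j : ι → ℤ) (hj : ∑ i, c i * j i = 0) (a b : ι) (hab : a ≠ b) (hb : π b = a)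
    (hπ : ∀ m, π m = a ∨ π m = b) (hπ' : ∀ m, m ≠ a → π m ≠ m)
    (N : ℕ) (hN : 1 ≤ N) (A : Finset ℤ) :
    (PP c π j N A (univ.erase a)).card ≤ 6 * N ^ 2 *
      ((Fintype.piFinset (fun _ : ι => A)).filter (fun x => ∑ i, c i * x i = 0)).card := by
  calc (PP c π j N A (univ.erase a)).card ≤ (Icc (-(N : ℤ)) N ×ˢ Icc (0 : ℤ) N ×ˢ
      ((Fintype.piFinset (fun _ : ι => A)).filter (fun x => ∑ i, c i * x i = 0))).card := by
        apply card_le_card_of_injOn (fun p => (p.1, p.2.1, Y c π j p))
        · intro p hp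
          have h1 := mem_filter.1 (mem_coe.1 hp)
          simp only [mem_product] at h1
          simp only [coe_product, Set.mem_prod, mem_coe, mem_filter, Fintype.mem_piFinset]
          refine ⟨h1.1.1, h1.1.2.1, h1.2, ?_⟩
          have h2 : ∀ m, ∑ i, c i * dir c π m i = 0 := by
            intro m
            simp only [dir, mul_sub, sum_sub_distrib, mul_ite, mul_zero, sum_ite_eq', mem_univ,
              if_true]
            ring
          have h3 : ∑ i, c i * ∑ m, p.2.2 m * dir c π m i = 0 := by
            simp only [mul_sum]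
            rw [sum_comm]
            apply sum_eq_zero
            intro m _
            have : ∑ i, c i * (p.2.2 m * dir c π m i) = p.2.2 m * ∑ i, c i * dir c π m i := by
              rw [mul_sum]; apply sum_congr rfl; intro i _; ring
            rw [this, h2, mul_zero]
          have h4 : ∑ i, c i * Y c π j p i = p.1 * ∑ i, c i + p.2.1 * ∑ i, c i * j i +
              ∑ i, c i * ∑ m, p.2.2 m * dir c π m i := by
            rw [mul_sum, mul_sum, ← sum_add_distrib, ← sum_add_distrib]
            apply sum_congr rfl; intro i _; unfold Y; ring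
          rw [h4, hsum, hj, h3]; ring
        · rintro ⟨x, d, t⟩ h1 ⟨x', d', t'⟩ h2 h
          simp only [Prod.mk.injEq] at h
          obtain ⟨rfl, rfl, h⟩ := h
          have z : ∀ p ∈ PP c π j N A (univ.erase a), p.2.2 a = 0 := by
            intro p hp
            have h3 := (mem_filter.1 hp).1
            simp only [mem_product, box, Fintype.mem_piFinset] at h3
            simpa using h3.2.2 a
          have z1 := z _ (mem_coe.1 h1)
          have z2 := z _ (mem_coe.1 h2)
          simp only at z1 z2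
          have hd : ∀ i, ∑ m, (t m - t' m) * dir c π m i = 0 := by
            intro i
            have := congrFun h i
            simp only [Y] at this
            simp only [sub_mul, sum_sub_distrib]
            linarith
          have e1 : ∀ k, k ≠ a → k ≠ b → t k = t' k := by
            intro k hka hkb
            have h3 := hd k
            rw [sum_eq_single k] at h3
            · have : dir c π k k = c (π k) := by simp [dir, (hπ' k hka).symm]
              rw [this] at h3
              have := (mul_eq_zero.1 h3).resolve_right (hc _)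
              linarith
            · intro m _ hmk
              have : dir c π m k = 0 := by
                have : k ≠ π m := by rcases hπ m with h | h <;> rw [h] <;> assumption
                simp [dir, hmk.symm, this]
              rw [this, mul_zero]
            · simp
          have e2 : t b = t' b := by
            have h3 := hd b
            rw [sum_eq_single b] at h3
            · have : dir c π b b = c a := by simp [dir, hb, hab.symm]
              rw [this] at h3
              have := (mul_eq_zero.1 h3).resolve_right (hc _)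
              linarith
            · intro m _ hmb
              by_cases hma : m = a
              · rw [hma, z1, z2]; simp
              · rw [e1 m hma hmb]; simp
            · simp
          have : t = t' := by
            funext k
            by_cases hka : k = a
            · rw [hka, z1, z2]
            · by_cases hkb : k = b
              · rw [hkb, e2]
              · exact e1 k hka hkb
          rw [this]
    _ ≤ _ := by
        rw [card_product, card_product, Int.card_Icc, Int.card_Icc, ← mul_assoc]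
        apply Nat.mul_le_mul_right
        have e1 : ((N : ℤ) + 1 - -N).toNat = 2 * N + 1 := by omega
        have e2 : ((N : ℤ) + 1 - 0).toNat = N + 1 := by omega
        rw [e1, e2]
        nlinarith

lemma varn (c : ι → ℤ) (M t : ℕ) (hM : 1 ≤ M)
    (H : ∀ B : Finset ℤ, B ⊆ Icc (1 : ℤ) M → M ≤ t * B.card →
      ∃ j : ι → ℤ, (∀ i, j i ∈ B) ∧ ∑ i, c i * j i = 0 ∧ ∃ a b, j a ≠ j b)
    (N : ℕ) (hN : 1 ≤ N) (A : Finset ℤ) (hA : A ⊆ Icc (1 : ℤ) N) (hA0 : 0 < A.card)
    (ht : 6 * N ≤ t * A.card) :
    ∃ j : ι → ℤ, ∑ i, c i * j i = 0 ∧ (∃ a b, j a ≠ j b) ∧ ∀ π : ι → ι,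
      A.card * N ≤ 2 * M ^ (Fintype.card ι + 1) * (PP c π j N A ∅).card := by
  let B : ℤ × ℤ → Finset ℤ := fun q => (Icc (1 : ℤ) M).filter (fun k => q.1 + q.2 * k ∈ A)
  let X : Finset ℤ := Icc (-(N : ℤ)) N
  let Dd : Finset ℤ := Icc (0 : ℤ) (N / M : ℕ)
  have hX : X.card ≤ 3 * N := by simp only [X, Int.card_Icc]; omega
  have ht1 : 0 < t := by
    rcases Nat.eq_zero_or_pos t with h | h
    · rw [h] at ht; omega
    · exact h
  have hgood : ∀ d ∈ Dd, A.card ≤ 2 * (X.filter (fun x => M ≤ t * (B (x, d)).card)).card := by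
    intro d hd
    have hd' := mem_Icc.1 hd
    have hdM : d * M ≤ N := by
      have h1 : ((N / M : ℕ) : ℤ) * M ≤ N := by exact_mod_cast Nat.div_mul_le_self N M
      nlinarith [hd'.2]
    have h1 : M * A.card ≤ ∑ x ∈ X, (B (x, d)).card := by
      rw [← card_sigma]
      have : M * A.card = (Icc (1 : ℤ) M ×ˢ A).card := by
        rw [card_product, Int.card_Icc]; simp
      rw [this]
      apply card_le_card_of_injOn (fun q => ⟨q.2 - d * q.1, q.1⟩)
      · rintro ⟨k, y⟩ hq
        simp only [coe_product, Set.mem_prod, mem_coe, mem_Icc] at hq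
        have h2 := mem_Icc.1 (hA hq.2)
        simp only [mem_coe, mem_sigma, X, B, mem_filter, mem_Icc]
        refine ⟨⟨by nlinarith, by nlinarith⟩, hq.1, by simpa using hq.2⟩
      · rintro ⟨k, y⟩ _ ⟨k', y'⟩ _ h
        simp only [Sigma.mk.injEq, heq_eq_eq] at h
        obtain ⟨h1, rfl⟩ := h
        have : y = y' := by linarith
        rw [this]
    have h2 : ∑ x ∈ X, t * (B (x, d)).card ≤
        ∑ x ∈ X, ((if M ≤ t * (B (x, d)).card then t * M else 0) + M) := by
      apply sum_le_sum
      intro x _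
      split_ifs with h
      · have : (B (x, d)).card ≤ M := by
          calc (B (x, d)).card ≤ (Icc (1 : ℤ) M).card := card_filter_le _ _
            _ = M := by simp
        nlinarith
      · omega
    rw [← mul_sum, sum_add_distrib, ← sum_filter, sum_const, sum_const, smul_eq_mul,
      smul_eq_mul] at h2
    have h3 : t * (M * A.card) ≤
        (X.filter (fun x => M ≤ t * (B (x, d)).card)).card * (t * M) + 3 * N * M := by
      calc t * (M * A.card) ≤ t * ∑ x ∈ X, (B (x, d)).card := Nat.mul_le_mul_left _ h1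
        _ ≤ _ := h2
        _ ≤ _ := by gcongr
    have h4 : (t * M) * A.card ≤
        (t * M) * (2 * (X.filter (fun x => M ≤ t * (B (x, d)).card)).card) := by
      nlinarith
    exact Nat.le_of_mul_le_mul_left h4 (Nat.mul_pos ht1 hM)
  let G : Finset (Σ _ : ℤ, ℤ) := Dd.sigma (fun d => X.filter (fun x => M ≤ t * (B (x, d)).card))
  have hG : A.card * N ≤ 2 * M * G.card := by
    have h1 : Dd.card * A.card ≤ 2 * G.card := by
      simp only [G]
      rw [card_sigma, mul_sum, ← smul_eq_mul, ← sum_const]
      exact sum_le_sum hgood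
    have h2 : N ≤ M * Dd.card := by
      simp only [Dd, Int.card_Icc]
      have : (((N / M : ℕ) : ℤ) + 1 - 0).toNat = N / M + 1 := by
        generalize N / M = z
        omega
      rw [this]
      exact (Nat.lt_mul_div_succ N hM).le
    nlinarith
  have hch : ∀ q : (Σ _ : ℤ, ℤ), ∃ j : ι → ℤ, q ∈ G →
      (∀ i, j i ∈ B (q.2, q.1)) ∧ ∑ i, c i * j i = 0 ∧ ∃ a b, j a ≠ j b := by
    intro q
    by_cases hq : q ∈ G
    · obtain ⟨j, hj⟩ := H (B (q.2, q.1)) (filter_subset _ _) (mem_filter.1 (mem_sigma.1 hq).2).2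
      exact ⟨j, fun _ => hj⟩
    · exact ⟨0, fun h => absurd h hq⟩
  choose J hJ using hch
  let S : Finset (ι → ℤ) := Fintype.piFinset (fun _ : ι => Icc (1 : ℤ) M)
  have hS : S.card = M ^ Fintype.card ι := by
    simp [S, Fintype.card_piFinset]
  have hmap : ∀ q ∈ G, J q ∈ S := by
    intro q hq
    simp only [S, Fintype.mem_piFinset]
    intro i
    exact (mem_filter.1 ((hJ q hq).1 i)).1
  have hGpos : 0 < G.card := by
    rcases Nat.eq_zero_or_pos G.card with h | h
    · rw [h] at hG
      have := Nat.mul_pos hA0 hN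
      omega
    · exact h
  have hSne : S.Nonempty := by
    obtain ⟨q, hq⟩ := card_pos.1 hGpos
    exact ⟨_, hmap q hq⟩
  obtain ⟨j, _, hj⟩ := exists_max_image S (fun j => (G.filter (fun q => J q = j)).card) hSne
  have hGle : G.card ≤ M ^ Fintype.card ι * (G.filter (fun q => J q = j)).card := by
    rw [card_eq_sum_card_fiberwise hmap, ← hS, ← smul_eq_mul, ← sum_const]
    exact sum_le_sum hj
  have hFpos : 0 < (G.filter (fun q => J q = j)).card := by
    rcases Nat.eq_zero_or_pos (G.filter (fun q => J q = j)).card with h | h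
    · rw [h] at hGle; omega
    · exact h
  obtain ⟨q0, hq0⟩ := card_pos.1 hFpos
  have hq0' := mem_filter.1 hq0
  have hj0 := hJ q0 hq0'.1
  rw [hq0'.2] at hj0
  refine ⟨j, hj0.2.1, hj0.2.2, fun π => ?_⟩
  have hF : (G.filter (fun q => J q = j)).card ≤ (PP c π j N A ∅).card := by
    apply card_le_card_of_injOn (fun q => (q.2, q.1, 0))
    · rintro ⟨d, x⟩ hq
      have h1 := mem_filter.1 (mem_coe.1 hq)
      have h2 := hJ _ h1.1
      rw [h1.2] at h2
      have h3 := mem_sigma.1 h1.1
      have h4 := mem_Icc.1 h3.1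
      have h5 : ((N / M : ℕ) : ℤ) ≤ N := by exact_mod_cast Nat.div_le_self N M
      simp only [PP, mem_coe, mem_filter, mem_product, box, Fintype.mem_piFinset]
      refine ⟨⟨(mem_filter.1 h3.2).1, mem_Icc.2 ⟨h4.1, h4.2.trans h5⟩, by simp⟩, ?_⟩
      intro i
      have := (mem_filter.1 (h2.1 i)).2
      simpa [Y] using this
    · rintro ⟨d, x⟩ _ ⟨d', x'⟩ _ h
      simp only [Prod.mk.injEq] at h
      obtain ⟨rfl, rfl, _⟩ := h
      rfl
  calc A.card * N ≤ 2 * M * G.card := hG
    _ ≤ 2 * M * (M ^ Fintype.card ι * (PP c π j N A ∅).card) := by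
        gcongr
        exact hGle.trans (Nat.mul_le_mul_left _ hF)
    _ = _ := by ring

end Amp

end Pool.Agent.H18.Abund
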