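import Mathlib

namespace Pool.Agent.H18.Affine8

open Polynomial

lemma chain {K : Type*} [Field K] [CharP K 2] (D : K →+ K) (α u0 u1 u2 u3 : K)
    (h0 : u0 ^ 8 + α * u0 = 0) (h1 : u1 ^ 8 + α * u1 = 0) (h2 : u2 ^ 8 + α * u2 = 0)
    (h3 : u3 ^ 8 + α * u3 = 0) (d0 : D u0 = 0) (d1 : D u1 = u0) (d2 : D u2 = u1)
    (d3 : D u3 = u2) (hne : u0 ≠ 0) : False := by
  classical
  have hadd : ∀ x y : K, x ^ 8 + α * x = 0 → y ^ 8 + α * y = 0 →
      (x + y) ^ 8 + α * (x + y) = 0 := by
    intro x y hx hy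
    have e : (x + y) ^ 8 = x ^ 8 + y ^ 8 := add_pow_char_pow x y 2 3
    rw [e]
    linear_combination hx + hy
  have hs : ∀ (c : Fin 2) (x : K), x ^ 8 + α * x = 0 →
      ((c : ℕ) • x) ^ 8 + α * ((c : ℕ) • x) = 0 := by
    intro c x hx
    fin_cases c
    · simp
    · simpa using hx
  have hc : ∀ s t : Fin 2, (s : ℕ) • u0 = (t : ℕ) • u0 → s = t := by
    intro s t h
    fin_cases s <;> fin_cases t
    · rfl
    · simp at h; exact absurd h.symm hne
    · simp at h; exact absurd h hne
    · rfl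
  let p : K[X] := X ^ 8 + C α * X
  have hdeg : p.natDegree = 8 := by
    unfold p
    compute_degree!
  have hp0 : p ≠ 0 := by
    intro h
    rw [h] at hdeg
    simp at hdeg
  let g : Fin 2 × Fin 2 × Fin 2 × Fin 2 → K := fun c =>
    (c.1 : ℕ) • u0 + (c.2.1 : ℕ) • u1 + (c.2.2.1 : ℕ) • u2 + (c.2.2.2 : ℕ) • u3
  have hg : Function.Injective g := by
    rintro ⟨a, b, c, d⟩ ⟨a', b', c', d'⟩ h
    simp only [g] at h
    have k1 := congrArg D h
    simp only [map_add, map_nsmul, d0, d1, d2, d3, smul_zero, zero_add] at k1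
    have k2 := congrArg D k1
    simp only [map_add, map_nsmul, d0, d1, d2, smul_zero, zero_add] at k2
    have k3 := congrArg D k2
    simp only [map_add, map_nsmul, d0, d1, smul_zero, zero_add] at k3
    have e3 := hc _ _ k3
    subst e3
    have e2 := hc _ _ (add_right_cancel k2)
    subst e2
    have e1 := hc _ _ (add_right_cancel (add_right_cancel k1))
    subst e1
    have e0 := hc _ _ (add_right_cancel (add_right_cancel (add_right_cancel h)))
    subst e0
    rfl
  have hsub : (Finset.univ.image g).val ⊆ p.roots := by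
    intro x hx
    rw [Finset.mem_val, Finset.mem_image] at hx
    obtain ⟨c, _, rfl⟩ := hx
    rw [mem_roots hp0, IsRoot.def]
    simp only [p, eval_add, eval_pow, eval_X, eval_mul, eval_C]
    exact hadd _ _ (hadd _ _ (hadd _ _ (hs _ _ h0) (hs _ _ h1)) (hs _ _ h2)) (hs _ _ h3)
  have := card_le_degree_of_subset_roots hsub
  rw [Finset.card_image_of_injective _ hg, hdeg] at this
  simp at this

lemma fix4 {K : Type*} [Field K] [CharP K 2] (φ : K →+* K) (α β θ : K) (hα : φ α = α)
    (hβ : φ β = β) (hθ : θ ^ 8 + α * θ + β = 0)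
    (h8 : φ (φ (φ (φ (φ (φ (φ (φ θ))))))) = θ) : φ (φ (φ (φ θ))) = θ := by
  have two : (2 : K) = 0 := CharTwo.two_eq_zero
  let D : K →+ K := φ.toAddMonoidHom + AddMonoidHom.id K
  have hD : ∀ x, D x = φ x + x := fun x => rfl
  have hadd : ∀ x y : K, (x + y) ^ 8 = x ^ 8 + y ^ 8 := fun x y => add_pow_char_pow x y 2 3
  have hV : ∀ x, x ^ 8 + α * x = 0 → (D x) ^ 8 + α * D x = 0 := by
    intro x hx
    have := congrArg φ hx
    rw [map_add, map_pow, map_mul, hα, map_zero] at this
    rw [hD, hadd]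
    linear_combination hx + this
  have w1 : (D θ) ^ 8 + α * D θ = 0 := by
    have := congrArg φ hθ
    rw [map_add, map_add, map_pow, map_mul, hα, hβ, map_zero] at this
    rw [hD, hadd]
    linear_combination hθ + this - β * two
  have D2 : ∀ x, D (D x) = φ (φ x) + x := by
    intro x
    simp only [hD, map_add]
    linear_combination φ x * two
  have D4 : ∀ x, D (D (D (D x))) = φ (φ (φ (φ x))) + x := by
    intro x
    rw [D2, D2]
    simp only [map_add]
    linear_combination φ (φ x) * two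
  have D8 : D (D (D (D (D (D (D (D θ))))))) = 0 := by
    rw [D4, D4]
    simp only [map_add, h8]
    linear_combination (φ (φ (φ (φ θ))) + θ) * two
  have w2 := hV _ w1
  have w3 := hV _ w2
  have w4 := hV _ w3
  have w5 := hV _ w4
  have w6 := hV _ w5
  have w7 := hV _ w6
  have z4 : D (D (D (D θ))) = 0 := by
    by_contra n4
    by_cases n5 : D (D (D (D (D θ)))) = 0
    · exact chain D α _ _ _ _ w4 w3 w2 w1 n5 rfl rfl rfl n4
    by_cases n6 : D (D (D (D (D (D θ))))) = 0
    · exact chain D α _ _ _ _ w5 w4 w3 w2 n6 rfl rfl rfl n5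
    by_cases n7 : D (D (D (D (D (D (D θ)))))) = 0
    · exact chain D α _ _ _ _ w6 w5 w4 w3 n7 rfl rfl rfl n6
    exact chain D α _ _ _ _ w7 w6 w5 w4 D8 rfl rfl rfl n7
  rw [D4] at z4
  linear_combination z4 - θ * two

theorem not_irreducible {F : Type*} [Field F] [Fintype F] [CharP F 2] (a b : F) :
    ¬ Irreducible (C a * X + C b + X ^ 8 : F[X]) := by
  intro hirr
  obtain ⟨g, hg⟩ : ∃ g : F[X], g = C a * X + C b + X ^ 8 := ⟨_, rfl⟩
  have hdeg : g.natDegree = 8 := by
    rw [hg]
    compute_degree!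
  rw [← hg] at hirr
  have : Fact (Irreducible g) := ⟨hirr⟩
  have hg0 : g ≠ 0 := hirr.ne_zero
  have : CharP (AdjoinRoot g) 2 := charP_of_injective_algebraMap (algebraMap F _).injective 2
  have : Module.Finite F (AdjoinRoot g) := (AdjoinRoot.powerBasis hg0).finite
  have : Finite (AdjoinRoot g) := Module.finite_of_finite F
  have hfr : Module.finrank F (AdjoinRoot g) = 8 := by
    rw [(AdjoinRoot.powerBasis hg0).finrank, AdjoinRoot.powerBasis_dim, hdeg]
  have hord := FiniteField.orderOf_frobeniusAlgHom F (AdjoinRoot g)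
  rw [hfr] at hord
  obtain ⟨φ, hφ⟩ : ∃ φ, φ = FiniteField.frobeniusAlgHom F (AdjoinRoot g) := ⟨_, rfl⟩
  rw [← hφ] at hord
  have h8 : φ ^ 8 = 1 := by rw [← hord]; exact pow_orderOf_eq_one φ
  have hθ : AdjoinRoot.root g ^ 8 + algebraMap F _ a * AdjoinRoot.root g + algebraMap F _ b = 0 := by
    have h := AdjoinRoot.aeval_eq (f := g) g
    rw [AdjoinRoot.mk_self] at h
    have h' : aeval (AdjoinRoot.root g) (C a * X + C b + X ^ 8 : F[X]) = 0 := by
      rw [← hg]; exact h
    simp only [map_add, map_mul, aeval_C, aeval_X, map_pow] at h'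
    linear_combination h'
  have h8' : φ (φ (φ (φ (φ (φ (φ (φ (AdjoinRoot.root g)))))))) = AdjoinRoot.root g := by
    have := DFunLike.congr_fun h8 (AdjoinRoot.root g)
    simpa [pow_succ] using this
  have h4 := fix4 (φ : AdjoinRoot g →+* AdjoinRoot g) _ _ _ (φ.commutes a) (φ.commutes b) hθ h8'
  have h4' : φ ^ 4 = 1 := by
    apply AdjoinRoot.algHom_ext
    simpa [pow_succ] using h4
  have := orderOf_dvd_of_pow_eq_one h4'
  rw [hord] at this
  omega

end Pool.Agent.H18.Affine8
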