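import Mathlib

set_option autoImplicit false

namespace Pool.Agent.H18.Amen

open Filter Topology

variable {Γ : Type} [Group Γ]

/-- Fixed point property for a subgroup acting on compact convex sets. -/
def FP (S : Subgroup Γ) : Prop :=
  ∀ (ι : Type) (ρ : Γ →* ((ι → ℝ) →L[ℝ] (ι → ℝ))) (K : Set (ι → ℝ)),
    K.Nonempty → IsCompact K → Convex ℝ K → (∀ s ∈ S, ∀ w ∈ K, ρ s w ∈ K) →
    ∃ w ∈ K, ∀ s ∈ S, ρ s w = w

lemma mk_one {ι : Type} (T : (ι → ℝ) →L[ℝ] (ι → ℝ)) (K : Set (ι → ℝ)) (hne : K.Nonempty)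
    (hc : IsCompact K) (hv : Convex ℝ K) (hT : ∀ w ∈ K, T w ∈ K) : ∃ w ∈ K, T w = w := by
  obtain ⟨w, hw⟩ := hne
  have hit : ∀ k : ℕ, (T ^ k) w ∈ K := by
    intro k
    induction k with
    | zero => simpa using hw
    | succ k ih => rw [pow_succ']; exact hT _ ih
  let a : ℕ → (ι → ℝ) := fun n => ∑ k ∈ Finset.range (n + 1), (1 / ((n : ℝ) + 1)) • (T ^ k) w
  have ha : ∀ n, a n ∈ K := by
    intro n
    apply hv.sum_mem
    · intro i _; positivity
    · simp; field_simp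
    · intro i _; exact hit i
  have hd : ∀ n, T (a n) - a n = (1 / ((n : ℝ) + 1)) • ((T ^ (n + 1)) w - w) := by
    intro n
    simp only [a, ← Finset.smul_sum, map_smul, map_sum, ← smul_sub]
    congr 1
    have : ∀ k, T ((T ^ k) w) = (T ^ (k + 1)) w := fun k => by rw [pow_succ']; rfl
    simp only [this]
    rw [← Finset.sum_sub_distrib, Finset.sum_range_sub (fun k => (T ^ k) w)]
    simp
  have hD : IsCompact ((fun v => T v - v) '' K) := hc.image (by fun_prop)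
  have hlim : Tendsto (fun n => T (a n) - a n) atTop (𝓝 0) := by
    rw [tendsto_pi_nhds]
    intro i
    obtain ⟨C, hC⟩ := (hc.image (continuous_apply i)).isBounded.exists_norm_le
    have hb : ∀ n, ‖((T ^ (n + 1)) w - w) i‖ ≤ C + C := by
      intro n
      have h1 := hC _ ⟨_, hit (n + 1), rfl⟩
      have h2 := hC _ ⟨_, hw, rfl⟩
      exact (norm_sub_le _ _).trans (add_le_add h1 h2)
    simp only [hd, Pi.smul_apply, Pi.zero_apply]
    apply squeeze_zero_norm (a := fun n : ℕ => (1 / ((n : ℝ) + 1)) * (C + C))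
    · intro n
      rw [norm_smul, Real.norm_of_nonneg (by positivity)]
      exact mul_le_mul_of_nonneg_left (hb n) (by positivity)
    · simpa using tendsto_one_div_add_atTop_nhds_zero_nat.mul_const (C + C)
  have h0 : (0 : ι → ℝ) ∈ (fun v => T v - v) '' K :=
    hD.isClosed.mem_of_tendsto hlim (Eventually.of_forall fun n => ⟨a n, ha n, rfl⟩)
  obtain ⟨v, hv, h⟩ := h0
  exact ⟨v, hv, sub_eq_zero.mp h⟩

section fix
variable {ι : Type} (ρ : Γ →* ((ι → ℝ) →L[ℝ] (ι → ℝ)))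

def fixSet (A : Set Γ) (K : Set (ι → ℝ)) : Set (ι → ℝ) := {w | w ∈ K ∧ ∀ s ∈ A, ρ s w = w}

lemma fix_closed (A : Set Γ) : IsClosed {w | ∀ s ∈ A, ρ s w = w} := by
  have : {w | ∀ s ∈ A, ρ s w = w} = ⋂ s ∈ A, {w | ρ s w = w} := by ext; simp
  rw [this]
  exact isClosed_biInter fun s _ => isClosed_eq (ρ s).continuous continuous_id

lemma fix_compact (A : Set Γ) {K : Set (ι → ℝ)} (hc : IsCompact K) : IsCompact (fixSet ρ A K) :=
  hc.inter_right (fix_closed ρ A)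

lemma fix_convex (A : Set Γ) {K : Set (ι → ℝ)} (hv : Convex ℝ K) : Convex ℝ (fixSet ρ A K) := by
  rintro x ⟨hx, hx'⟩ y ⟨hy, hy'⟩ a b ha hb hab
  refine ⟨hv hx hy ha hb hab, fun s hs => ?_⟩
  rw [map_add, map_smul, map_smul, hx' s hs, hy' s hs]

lemma rho_mul (s t : Γ) (w : ι → ℝ) : ρ (s * t) w = ρ s (ρ t w) := by
  rw [map_mul]; rfl

lemma fix_inv (N : Subgroup Γ) {K : Set (ι → ℝ)} (t : Γ) (ht : ∀ w ∈ K, ρ t w ∈ K)
    (hn : ∀ n ∈ N, t⁻¹ * n * t ∈ N) : ∀ w ∈ fixSet ρ N K, ρ t w ∈ fixSet ρ N K := by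
  rintro w ⟨hw, hw'⟩
  refine ⟨ht w hw, fun n hn' => ?_⟩
  have : n * t = t * (t⁻¹ * n * t) := by group
  rw [← rho_mul, this, rho_mul, hw' _ (hn n hn')]

def stab (w : ι → ℝ) : Subgroup Γ where
  carrier := {s | ρ s w = w}
  mul_mem' := by
    intro a b ha hb
    show ρ (a * b) w = w
    rw [rho_mul, show ρ b w = w from hb, show ρ a w = w from ha]
  one_mem' := by
    show ρ 1 w = w
    rw [map_one]; rfl
  inv_mem' := by
    intro a ha
    show ρ a⁻¹ w = w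
    conv_lhs => rw [← show ρ a w = w from ha]
    rw [← rho_mul, inv_mul_cancel, map_one]; rfl

lemma fip (A : Set Γ) {K : Set (ι → ℝ)} (hc : IsCompact K)
    (h : ∀ F : Finset Γ, (F : Set Γ) ⊆ A → ∃ w ∈ K, ∀ s ∈ F, ρ s w = w) :
    ∃ w ∈ K, ∀ s ∈ A, ρ s w = w := by
  classical
  have := hc.inter_iInter_nonempty (fun s : A => {w | ρ s w = w})
    (fun s => isClosed_eq (ρ s).continuous continuous_id) (by
      intro u
      obtain ⟨w, hw, hw'⟩ := h (u.image Subtype.val) (by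
        intro x hx
        simp only [Finset.coe_image, Set.mem_image] at hx
        obtain ⟨y, _, rfl⟩ := hx
        exact y.2)
      refine ⟨w, hw, ?_⟩
      simp only [Set.mem_iInter]
      intro s hs
      exact hw' _ (Finset.mem_image_of_mem _ hs))
  obtain ⟨w, hw, hw'⟩ := this
  simp only [Set.mem_iInter] at hw'
  exact ⟨w, hw, fun s hs => hw' ⟨s, hs⟩⟩

end fix

lemma FP_bot : FP (⊥ : Subgroup Γ) := by
  intro ι ρ K ⟨w, hw⟩ _ _ _
  refine ⟨w, hw, fun s hs => ?_⟩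
  rw [Subgroup.mem_bot.mp hs, map_one]; rfl

lemma FP_map {Γ' : Type} [Group Γ'] (φ : Γ →* Γ') {S : Subgroup Γ} (h : FP S) : FP (S.map φ) := by
  intro ι ρ K hne hc hv hK
  obtain ⟨w, hw, hw'⟩ := h ι (ρ.comp φ) K hne hc hv
    (fun s hs w hw => hK _ (Subgroup.mem_map_of_mem φ hs) w hw)
  refine ⟨w, hw, ?_⟩
  rintro _ ⟨s, hs, rfl⟩
  exact hw' s hs

lemma FP_sup {N T : Subgroup Γ} (hN : FP N) (hT : FP T)
    (hn : ∀ t ∈ T, ∀ n ∈ N, t⁻¹ * n * t ∈ N) : FP (N ⊔ T) := by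
  intro ι ρ K hne hc hv hK
  obtain ⟨w0, hw0, hw0'⟩ := hN ι ρ K hne hc hv (fun s hs => hK s (Subgroup.mem_sup_left hs))
  obtain ⟨w, ⟨hw, hw1⟩, hw2⟩ := hT ι ρ (fixSet ρ N K) ⟨w0, hw0, hw0'⟩ (fix_compact ρ _ hc)
    (fix_convex ρ _ hv)
    (fun t ht => fix_inv ρ N t (hK t (Subgroup.mem_sup_right ht)) (hn t ht))
  have : N ⊔ T ≤ stab ρ w := sup_le (fun s hs => hw1 s hs) (fun s hs => hw2 s hs)
  exact ⟨w, hw, fun s hs => this hs⟩

lemma FP_ext {N S : Subgroup Γ} (hN : FP N) (hle : N ≤ S)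
    (hn : ∀ t ∈ S, ∀ n ∈ N, t⁻¹ * n * t ∈ N)
    (hcomm : ∀ s ∈ S, ∀ t ∈ S, (t * s)⁻¹ * (s * t) ∈ N) : FP S := by
  classical
  intro ι ρ K hne hc hv hK
  obtain ⟨w0, hw0, hw0'⟩ := hN ι ρ K hne hc hv (fun s hs => hK s (hle hs))
  have hinv : ∀ t ∈ S, ∀ w ∈ fixSet ρ N K, ρ t w ∈ fixSet ρ N K :=
    fun t ht => fix_inv ρ N t (hK t ht) (hn t ht)
  have key : ∀ F : Finset Γ, (F : Set Γ) ⊆ S → ∃ w ∈ fixSet ρ N K, ∀ s ∈ F, ρ s w = w := by
    intro F
    induction F using Finset.induction_on with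
    | empty => intro _; exact ⟨w0, ⟨hw0, hw0'⟩, by simp⟩
    | insert t F _ ih =>
      intro hF
      have htS : t ∈ S := hF (by simp)
      have hF' : (F : Set Γ) ⊆ S := fun x hx => hF (by simp [hx])
      obtain ⟨w1, hw1, hw1'⟩ := ih hF'
      obtain ⟨w, ⟨hw, hw'⟩, hwt⟩ := mk_one (ρ t) (fixSet ρ F (fixSet ρ N K)) ⟨w1, hw1, hw1'⟩
        (fix_compact ρ _ (fix_compact ρ _ hc)) (fix_convex ρ _ (fix_convex ρ _ hv)) (by
          rintro w ⟨hw, hw'⟩
          refine ⟨hinv t htS w hw, fun s hs => ?_⟩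
          have : s * t = (t * s) * ((t * s)⁻¹ * (s * t)) := by group
          rw [← rho_mul, this, rho_mul, hw.2 _ (hcomm s (hF' hs) t htS), rho_mul, hw' s hs])
      refine ⟨w, hw, fun s hs => ?_⟩
      rcases Finset.mem_insert.mp hs with rfl | hs
      · exact hwt
      · exact hw' s hs
  obtain ⟨w, hw, hw'⟩ := fip ρ S (fix_compact ρ N hc) key
  exact ⟨w, hw.1, hw'⟩

lemma FP_local {S : Subgroup Γ}
    (h : ∀ F : Finset Γ, (F : Set Γ) ⊆ S → ∃ T : Subgroup Γ, T ≤ S ∧ (F : Set Γ) ⊆ T ∧ FP T) :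
    FP S := by
  intro ι ρ K hne hc hv hK
  apply fip ρ S hc
  intro F hF
  obtain ⟨T, hT, hFT, hfp⟩ := h F hF
  obtain ⟨w, hw, hw'⟩ := hfp ι ρ K hne hc hv (fun s hs => hK s (hT hs))
  exact ⟨w, hw, fun s hs => hw' s (hFT hs)⟩

lemma FP_iSup {κ : Type} [Nonempty κ] (T : κ → Subgroup Γ) (hd : Directed (· ≤ ·) T)
    (h : ∀ k, FP (T k)) : FP (⨆ k, T k) := by
  classical
  apply FP_local
  intro F
  have : (F : Set Γ) ⊆ ((⨆ k, T k : Subgroup Γ) : Set Γ) → ∃ k, (F : Set Γ) ⊆ T k := by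
    induction F using Finset.induction_on with
    | empty => intro _; exact ⟨Classical.arbitrary κ, by simp⟩
    | insert t F _ ih =>
      intro hF
      obtain ⟨k, hk⟩ := ih (fun x hx => hF (by simp [hx]))
      obtain ⟨l, hl⟩ := (Subgroup.mem_iSup_of_directed hd).mp (hF (show t ∈ _ by simp))
      obtain ⟨m, h1, h2⟩ := hd k l
      refine ⟨m, ?_⟩
      intro x hx
      simp only [Finset.coe_insert, Set.mem_insert_iff] at hx
      rcases hx with rfl | hx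
      · exact h2 hl
      · exact h1 (hk hx)
  intro hF
  obtain ⟨k, hk⟩ := this hF
  exact ⟨T k, le_iSup T k, hk, h k⟩

noncomputable def reg (Γ : Type) [Group Γ] : Γ →* ((Set Γ → ℝ) →L[ℝ] (Set Γ → ℝ)) where
  toFun g := ContinuousLinearMap.pi (fun A => ContinuousLinearMap.proj ((fun x => g * x) ⁻¹' A))
  map_one' := by
    ext μ A
    simp
  map_mul' g h := by
    ext μ A
    show μ ((fun x => g * h * x) ⁻¹' A) = μ ((fun x => h * x) ⁻¹' ((fun x => g * x) ⁻¹' A))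
    congr 1
    ext x
    simp [mul_assoc]

lemma reg_apply (g : Γ) (μ : Set Γ → ℝ) (A : Set Γ) :
    reg Γ g μ A = μ ((fun x => g * x) ⁻¹' A) := rfl

theorem mean_of_FP {S : Subgroup Γ} (h : FP S) :
    ∃ m : Set S → ℝ, (∀ A, 0 ≤ m A) ∧ m Set.univ = 1 ∧
      (∀ A B : Set S, Disjoint A B → m (A ∪ B) = m A + m B) ∧
      (∀ (g : S) (A : Set S), m ((fun h => g * h) '' A) = m A) := by
  classical
  let K : Set (Set Γ → ℝ) := {μ | (∀ A, μ A ∈ Set.Icc (0 : ℝ) 1) ∧ μ S = 1 ∧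
    ∀ A B : Set Γ, Disjoint A B → μ (A ∪ B) = μ A + μ B}
  have hne : K.Nonempty := by
    refine ⟨fun A => if (1 : Γ) ∈ A then 1 else 0, fun A => ?_, ?_, fun A B hAB => ?_⟩
    · by_cases h1 : (1 : Γ) ∈ A <;> simp [h1]
    · simp
    · by_cases h1 : (1 : Γ) ∈ A <;> by_cases h2 : (1 : Γ) ∈ B
      · exact absurd h2 (Set.disjoint_left.mp hAB h1)
      · simp [h1, h2]
      · simp [h1, h2]
      · simp [h1, h2]
  have hc : IsCompact K := by
    have h1 : IsCompact (Set.univ.pi fun _ : Set Γ => Set.Icc (0 : ℝ) 1) :=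
      isCompact_univ_pi fun _ => isCompact_Icc
    have h2 : IsClosed {μ : Set Γ → ℝ | μ S = 1 ∧
        ∀ A B : Set Γ, Disjoint A B → μ (A ∪ B) = μ A + μ B} := by
      apply IsClosed.inter (isClosed_eq (continuous_apply _) continuous_const)
      have : {μ : Set Γ → ℝ | ∀ A B : Set Γ, Disjoint A B → μ (A ∪ B) = μ A + μ B} =
          ⋂ A : Set Γ, ⋂ B : Set Γ, ⋂ _ : Disjoint A B, {μ | μ (A ∪ B) = μ A + μ B} := by
        ext; simp
      show IsClosed {μ : Set Γ → ℝ | ∀ A B : Set Γ, Disjoint A B → μ (A ∪ B) = μ A + μ B}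
      rw [this]
      exact isClosed_iInter fun A => isClosed_iInter fun B => isClosed_iInter fun _ =>
        isClosed_eq (continuous_apply _) (by fun_prop)
    convert h1.inter_right h2 using 1
    ext μ
    simp only [K, Set.mem_ofPred_eq, Set.mem_inter_iff, Set.mem_pi, Set.mem_univ, true_imp_iff]
  have hv : Convex ℝ K := by
    rintro x ⟨hx1, hx2, hx3⟩ y ⟨hy1, hy2, hy3⟩ a b ha hb hab
    refine ⟨fun A => ?_, ?_, fun A B hAB => ?_⟩
    · exact convex_Icc (0 : ℝ) 1 (hx1 A) (hy1 A) ha hb hab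
    · simp [hx2, hy2, hab]
    · simp [hx3 A B hAB, hy3 A B hAB]; ring
  obtain ⟨μ, ⟨h1, h2, h3⟩, h4⟩ := h (Set Γ) (reg Γ) K hne hc hv (by
    rintro s hs μ ⟨h1, h2, h3⟩
    refine ⟨fun A => h1 _, ?_, fun A B hAB => ?_⟩
    · rw [reg_apply]
      have : (fun x => s * x) ⁻¹' (S : Set Γ) = S := by
        ext x; simp [S.mul_mem_cancel_left hs]
      rw [this, h2]
    · rw [reg_apply, reg_apply, reg_apply, Set.preimage_union, h3 _ _ (hAB.preimage _)])
  refine ⟨fun A => μ (Subtype.val '' A), fun A => (h1 _).1, ?_, fun A B hAB => ?_, fun g A => ?_⟩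
  · simp [h2]
  · show μ (Subtype.val '' (A ∪ B)) = _
    rw [Set.image_union, h3 _ _ ((Set.disjoint_image_iff Subtype.val_injective).mpr hAB)]
  · show μ (Subtype.val '' ((fun h => g * h) '' A)) = μ (Subtype.val '' A)
    have h5 := congrFun (h4 g g.2) (Subtype.val '' ((fun h => g * h) '' A))
    rw [reg_apply] at h5
    rw [← h5]
    congr 1
    ext x
    simp only [Set.mem_preimage, Set.mem_image]
    constructor
    · rintro ⟨_, ⟨a, ha, rfl⟩, hx⟩
      exact ⟨a, ha, mul_left_cancel hx⟩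
    · rintro ⟨a, ha, rfl⟩
      exact ⟨g * a, ⟨a, ha, rfl⟩, rfl⟩

end Pool.Agent.H18.Amen
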