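import Mathlib

set_option autoImplicit false

namespace Pool.Agent.H18.Arbor
open Polynomial IntermediateField

lemma irr_kummer (C' : Type) [Field C'] (N : ℕ) (hN : 0 < N) :
    Irreducible (X ^ N - C ((RatFunc.X : RatFunc C') - 1)) := by
  have hm : (X ^ N - C ((X : C'[X]) - C 1)).Monic := monic_X_pow_sub_C _ hN.ne'
  have hp : Prime ((X : C'[X]) - C 1) := prime_X_sub_C 1
  have h1 : Irreducible (X ^ N - C ((X : C'[X]) - C 1)) := by
    apply irreducible_of_eisenstein_criterion (P := Ideal.span {(X : C'[X]) - C 1})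
      ((Ideal.span_singleton_prime hp.ne_zero).mpr hp)
    · rw [hm.leadingCoeff, Ideal.mem_span_singleton]
      intro h; exact hp.not_isUnit (isUnit_of_dvd_one h)
    · intro n hn
      rw [degree_X_pow_sub_C hN] at hn
      have hn' : n < N := by exact_mod_cast hn
      rw [coeff_sub, coeff_X_pow, if_neg hn'.ne, zero_sub, coeff_C, Ideal.mem_span_singleton]
      split_ifs
      · exact (dvd_refl _).neg_right
      · simp
    · rw [degree_X_pow_sub_C hN]; exact_mod_cast hN
    · rw [coeff_sub, coeff_X_pow, if_neg hN.ne, zero_sub, coeff_C_zero, Ideal.span_singleton_pow,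
        Ideal.mem_span_singleton, dvd_neg]
      intro h
      have := natDegree_le_of_dvd h hp.ne_zero
      rw [natDegree_pow, natDegree_X_sub_C] at this
      omega
    · exact hm.isPrimitive
  have h2 := (hm.irreducible_iff_irreducible_map_fraction_map (K := RatFunc C')).mp h1
  simpa [Polynomial.map_sub] using h2

attribute [local instance] Polynomial.algebra in
open scoped RatFunc in
lemma lower (L : Type) [Field L] [CharZero L] [Algebra (RatFunc ℚ) L]
    [FiniteDimensional (RatFunc ℚ) L] (N : ℕ) (hN : 0 < N) (a ζ : L)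
    (ha : a ^ N = algebraMap (RatFunc ℚ) L RatFunc.X - 1) (hζ : IsPrimitiveRoot ζ N) :
    N.totient * N ≤ Module.finrank (RatFunc ℚ) L := by
  set τ := algebraMap (RatFunc ℚ) L RatFunc.X with hτ
  have e1 : (aeval τ : ℚ[X] →ₐ[ℚ] L).toRingHom =
      (algebraMap (RatFunc ℚ) L).comp (algebraMap ℚ[X] (RatFunc ℚ)) := by
    apply Polynomial.ringHom_ext'
    · exact Subsingleton.elim _ _
    · simp [hτ]
  have tr : Transcendental ℚ τ := by
    rw [transcendental_iff_injective]
    have : Function.Injective (aeval τ : ℚ[X] →ₐ[ℚ] L).toRingHom := by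
      rw [e1]
      exact (algebraMap (RatFunc ℚ) L).injective.comp (RatFunc.algebraMap_injective ℚ)
    exact this
  have hint : IsIntegral ℚ ζ := (hζ.isIntegral hN).tower_top
  let K := ℚ⟮ζ⟯
  have fK : FiniteDimensional ℚ K := adjoin.finiteDimensional hint
  have dK : Module.finrank ℚ K = N.totient := by
    rw [adjoin.finrank hint, ← cyclotomic_eq_minpoly_rat hζ hN, natDegree_cyclotomic]
  have tr' : Transcendental K τ := tr.extendScalars K
  have inj : Function.Injective (aeval τ : K[X] →ₐ[K] L).toRingHom :=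
    transcendental_iff_injective.mp tr'
  let ψ : RatFunc K →+* L := RatFunc.liftRingHom (aeval τ : K[X] →ₐ[K] L).toRingHom
    (nonZeroDivisors_le_comap_nonZeroDivisors_of_injective _ inj)
  have ψX : ψ RatFunc.X = τ := by
    simp [ψ, RatFunc.liftRingHom_X]
  let _ : Algebra (RatFunc K) L := ψ.toAlgebra
  have tower := IsScalarTower.of_algebraMap_eq' (R := RatFunc ℚ) (S := RatFunc K) (A := L) <| by
    apply IsLocalization.ringHom_ext (nonZeroDivisors ℚ[X])
    apply Polynomial.ringHom_ext'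
    · exact Subsingleton.elim _ _
    · simp only [RingHom.comp_apply, RatFunc.algebraMap_X]
      have : algebraMap (RatFunc ℚ) (RatFunc K) RatFunc.X = RatFunc.X := by
        rw [← RatFunc.algebraMap_X, ← IsScalarTower.algebraMap_apply,
          IsScalarTower.algebraMap_apply ℚ[X] K[X] (RatFunc K)]
        simp [Polynomial.algebraMap_def]
      rw [this]
      exact ψX.symm
  have d1 : Module.finrank (RatFunc ℚ) (RatFunc K) = N.totient := by
    rw [RatFunc.finrank_ratFunc_ratFunc, dK]
  have f2 : FiniteDimensional (RatFunc K) L := 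
    Module.Finite.right (RatFunc ℚ) (RatFunc K) L
  have d2 : N ≤ Module.finrank (RatFunc K) L := by
    have hm : minpoly (RatFunc K) a = X ^ N - C ((RatFunc.X : RatFunc K) - 1) := by
      symm
      apply minpoly.eq_of_irreducible_of_monic (irr_kummer K N hN) _ (monic_X_pow_sub_C _ hN.ne')
      rw [map_sub, map_pow, aeval_X, aeval_C, map_sub, map_one, ha]
      change _ - (ψ RatFunc.X - 1) = 0
      rw [ψX, sub_self]
    have := minpoly.natDegree_le (A := RatFunc K) a
    rwa [hm, natDegree_X_pow_sub_C] at this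
  rw [← Module.finrank_mul_finrank (RatFunc ℚ) (RatFunc K) L, d1]
  exact Nat.mul_le_mul_left _ d2

noncomputable def ff : ℚ[X] := (X - C 1) ^ 2 + C 1

lemma iter_eq (n : ℕ) : (ff.comp)^[n] X = (X - C 1) ^ (2 ^ n) + C 1 := by
  induction n with
  | zero => simp
  | succ n ih =>
    rw [Function.iterate_succ_apply', ih]
    simp only [ff, add_comp, pow_comp, sub_comp, X_comp, C_comp, add_sub_cancel_right]
    rw [← pow_mul, pow_succ]

lemma upper (n : ℕ) :
    Module.finrank ℚ (SplittingField ((ff.comp)^[n] X)) ≤ 2 ^ n := by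
  rw [iter_eq]
  let E := CyclotomicField (2 ^ (n + 1)) ℚ
  have : IsCyclotomicExtension {2 ^ (n + 1)} ℚ E := CyclotomicField.isCyclotomicExtension _ _
  obtain ⟨ζ, hζ⟩ : ∃ ζ : E, IsPrimitiveRoot ζ (2 ^ (n + 1)) :=
    ⟨_, IsCyclotomicExtension.zeta_spec (2 ^ (n + 1)) ℚ E⟩
  have dE : Module.finrank ℚ E = 2 ^ n := by
    rw [IsCyclotomicExtension.finrank (n := 2 ^ (n + 1)) E
      (cyclotomic.irreducible_rat (by positivity)), Nat.totient_prime_pow_succ Nat.prime_two]
    simp
  have fE : FiniteDimensional ℚ E := IsCyclotomicExtension.finiteDimensional {2 ^ (n + 1)} ℚ E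
  have h1 : IsPrimitiveRoot (ζ ^ 2) (2 ^ n) := hζ.pow (by positivity) (by ring)
  have h2 : ζ ^ (2 ^ n) = -1 :=
    (hζ.pow (by positivity) (pow_succ 2 n)).eq_neg_one_of_two_right
  have h3 := (X_pow_sub_C_splits_of_isPrimitiveRoot h1 h2).comp_X_sub_C 1
  have h4 : (((X - C 1) ^ (2 ^ n) + C 1 : ℚ[X]).map (algebraMap ℚ E)).Splits := by
    have e : (((X - C 1) ^ (2 ^ n) + C 1 : ℚ[X]).map (algebraMap ℚ E)) =
        (X ^ 2 ^ n - C (-1 : E)).comp (X - C 1) := by
      simp
    rw [e]; exact h3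
  exact (LinearMap.finrank_le_finrank_of_injective
    (f := (SplittingField.lift _ h4).toLinearMap)
    (SplittingField.lift _ h4).toRingHom.injective).trans dE.le

lemma lower2 (ι : ℚ →+* RatFunc ℚ) (n : ℕ) : 2 ^ n * 2 ^ (n + 1) ≤ Module.finrank (RatFunc ℚ)
    (SplittingField (Polynomial.map ι ((ff.comp)^[n + 1] X)
      - C (RatFunc.X : RatFunc ℚ))) := by
  rw [iter_eq]
  set G := Polynomial.map ι ((X - C 1) ^ (2 ^ (n + 1)) + C 1)
      - C (RatFunc.X : RatFunc ℚ) with hG
  let L := SplittingField G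
  have cz : CharZero L := charZero_of_injective_algebraMap (algebraMap (RatFunc ℚ) L).injective
  set τ := algebraMap (RatFunc ℚ) L RatFunc.X with hτ
  have hs : (X ^ (2 ^ (n + 1)) - C (τ - 1) : L[X]).Splits := by
    have := (SplittingField.splits G).comp_X_add_C 1
    have e : (X ^ (2 ^ (n + 1)) - C (τ - 1) : L[X]) =
        (G.map (algebraMap (RatFunc ℚ) L)).comp (X + C 1) := by
      simp [hG, hτ]
      ring
    rw [e]; exact this
  have hN : 0 < 2 ^ (n + 1) := by positivity
  have hτ1 : τ - 1 ≠ 0 := by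
    rw [hτ, ← map_one (algebraMap (RatFunc ℚ) L), ← map_sub]
    apply (_root_.map_ne_zero _).mpr
    have : (RatFunc.X : RatFunc ℚ) - 1 = algebraMap ℚ[X] (RatFunc ℚ) (X - C 1) := by simp
    rw [this]
    exact (map_ne_zero_iff _ (RatFunc.algebraMap_injective ℚ)).mpr (X_sub_C_ne_zero 1)
  obtain ⟨a, ha⟩ := hs.exists_eval_eq_zero (by rw [degree_X_pow_sub_C hN]; exact_mod_cast hN.ne')
  rw [eval_sub, eval_pow, eval_X, eval_C, sub_eq_zero] at ha
  have a0 : a ≠ 0 := by
    rintro rfl
    rw [zero_pow hN.ne'] at ha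
    exact hτ1 ha.symm
  let Ω := AlgebraicClosure L
  obtain ⟨w, hw⟩ := HasEnoughRootsOfUnity.exists_primitiveRoot Ω (2 ^ (n + 1))
  obtain ⟨b, hb⟩ : algebraMap L Ω a * w ∈ (algebraMap L Ω).range := by
    apply hs.mem_range_of_isRoot (monic_X_pow_sub_C _ hN.ne').ne_zero
    simp only [IsRoot.def, Polynomial.map_sub, Polynomial.map_pow, map_X, map_C, eval_sub, eval_pow,
      eval_X, eval_C]
    rw [mul_pow, hw.pow_eq_one, mul_one, ← map_pow, ha, sub_self]
  have hz : IsPrimitiveRoot (b / a) (2 ^ (n + 1)) := by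
    apply IsPrimitiveRoot.of_map_of_injective (f := algebraMap L Ω) _ (algebraMap L Ω).injective
    rw [map_div₀, hb, mul_div_cancel_left₀ _ ((_root_.map_ne_zero _).mpr a0)]
    exact hw
  have := lower L (2 ^ (n + 1)) hN a (b / a) ha hz
  rwa [Nat.totient_prime_pow_succ Nat.prime_two, Nat.add_one_sub_one, mul_one] at this

lemma unbounded (ι : ℚ →+* RatFunc ℚ) (M : ℕ) : ∃ n : ℕ, 1 ≤ n ∧
    M * Module.finrank ℚ (SplittingField ((ff.comp)^[n] X)) <
      Module.finrank (RatFunc ℚ)
        (SplittingField (Polynomial.map ι ((ff.comp)^[n] X)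
          - C (RatFunc.X : RatFunc ℚ))) := by
  refine ⟨M + 1, by omega, lt_of_lt_of_le ?_ (lower2 ι M)⟩
  have h1 : M < 2 ^ M := Nat.lt_two_pow_self
  calc _ ≤ M * 2 ^ (M + 1) := Nat.mul_le_mul_left _ (upper _)
    _ < _ := Nat.mul_lt_mul_of_pos_right h1 (by positivity)

lemma ff_deg : ff.natDegree = 2 := by
  unfold ff
  compute_degree!

lemma not_per (m : ℕ) (hm : 1 ≤ m) : (fun x => eval x ff)^[m] 0 ≠ 0 := by
  have : ∀ k : ℕ, (fun x => eval x ff)^[k + 1] 0 = 2 := by
    intro k
    induction k with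
    | zero => simp [ff]; norm_num
    | succ k ih => rw [Function.iterate_succ_apply', ih]; simp [ff]; norm_num
  obtain ⟨k, rfl⟩ : ∃ k, m = k + 1 := ⟨m - 1, by omega⟩
  rw [this]; norm_num

end Pool.Agent.H18.Arbor
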