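import Mathlib

set_option autoImplicit false

namespace Pool.Agent.H18.Beurling

lemma exists_theta : ∃ t : ℝ, t ^ 3 = t ^ 2 - t + 2 ∧ 1.35320 < t ∧ t < 1.35322 := by
  have hc : ContinuousOn (fun t : ℝ => t ^ 3 - t ^ 2 + t - 2) (Set.Icc 1.35320 1.35322) := by
    fun_prop
  have h := intermediate_value_Ioo (by norm_num : (1.35320 : ℝ) ≤ 1.35322) hc
  have h0 : (0 : ℝ) ∈ Set.Ioo ((fun t : ℝ => t ^ 3 - t ^ 2 + t - 2) 1.35320)
      ((fun t : ℝ => t ^ 3 - t ^ 2 + t - 2) 1.35322) := by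
    constructor <;> norm_num
  obtain ⟨t, ht, he⟩ := h h0
  exact ⟨t, by simp only at he; linarith, ht.1, ht.2⟩

noncomputable def th : ℝ := exists_theta.choose

lemma th_eq : th ^ 3 = th ^ 2 - th + 2 := exists_theta.choose_spec.1
lemma th_lo : 1.35320 < th := exists_theta.choose_spec.2.1
lemma th_hi : th < 1.35322 := exists_theta.choose_spec.2.2
lemma th2_lo : 1.83115 < th ^ 2 := by nlinarith [th_lo]
lemma th2_hi : th ^ 2 < 1.83121 := by nlinarith [th_lo, th_hi]

noncomputable def be : ℝ := Real.sqrt (th ^ 2 - th + 1 - ((1 - th) / 2) ^ 2)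

lemma be_sq : be ^ 2 = th ^ 2 - th + 1 - ((1 - th) / 2) ^ 2 := by
  unfold be
  rw [Real.sq_sqrt]
  nlinarith [th_lo, th2_lo, th_hi]

lemma be_lo : 1.2027 < be := by
  unfold be
  apply Real.lt_sqrt_of_sq_lt
  nlinarith [th_lo, th2_lo, th_hi]

lemma be_hi : be < 1.2030 := by
  have h := be_sq
  have h1 := be_lo
  nlinarith [th_lo, th2_hi, th_hi]

noncomputable def om : ℂ := ⟨(1 - th) / 2, be⟩

lemma om_sq : om ^ 2 = (1 - (th : ℂ)) * om - ((th : ℂ) ^ 2 - th + 1) := by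
  apply Complex.ext
  · simp [om, pow_two]
    have h := be_sq
    nlinarith
  · simp [om, pow_two]
    ring

lemma om_eq : om ^ 3 = om ^ 2 - om + 2 := by
  have h : (th : ℂ) ^ 3 = (th : ℂ) ^ 2 - th + 2 := by exact_mod_cast congrArg (fun x : ℝ => (x : ℂ)) th_eq
  linear_combination (om - th) * om_sq + h

abbrev V := ℝ × ℂ × ZMod 2

noncomputable def tau : V := (th, om, 0)

lemma tau_eq : tau ^ 3 = tau ^ 2 - tau + 2 := by
  refine Prod.ext ?_ (Prod.ext ?_ ?_)
  · simpa [tau] using th_eq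
  · simpa [tau] using om_eq
  · simp [tau]
    rfl

noncomputable def S : Subring V where
  carrier := {v | ∃ x y z : ℤ, v = x + y * tau + z * tau ^ 2}
  mul_mem' := by
    rintro _ _ ⟨x, y, z, rfl⟩ ⟨x', y', z', rfl⟩
    refine ⟨x * x' + 2 * (y * z' + z * y') + 2 * z * z', x * y' + y * x' - (y * z' + z * y') + z * z',
      x * z' + y * y' + z * x' + (y * z' + z * y'), ?_⟩
    push_cast
    linear_combination (((y : V) * z' + z * y') + z * z' * (tau + 1)) * tau_eq
  one_mem' := ⟨1, 0, 0, by simp⟩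
  add_mem' := by
    rintro _ _ ⟨x, y, z, rfl⟩ ⟨x', y', z', rfl⟩
    exact ⟨x + x', y + y', z + z', by push_cast; ring⟩
  zero_mem' := ⟨0, 0, 0, by simp⟩
  neg_mem' := by
    rintro _ ⟨x, y, z, rfl⟩
    exact ⟨-x, -y, -z, by push_cast; ring⟩

lemma normSq_eq (x y z : ℝ) : Complex.normSq ((x : ℂ) + y * om + z * om ^ 2) =
    x ^ 2 + x * y * (1 - th) - x * z * (th ^ 2 + 1) + y ^ 2 * (th ^ 2 - th + 1)
      + y * z * (th ^ 2 - th - 1) + z ^ 2 * (th ^ 2 + th - 1) := by
  rw [om_sq, Complex.normSq_apply]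
  simp [om, pow_two]
  have h := be_sq
  have h3 := th_eq
  linear_combination (y + z * (1 - th)) ^ 2 * h + (-y * z + z ^ 2 * (th - 1)) * h3

lemma fst_eq (x y z : ℤ) : ((x : V) + y * tau + z * tau ^ 2).1 = x + y * th + z * th ^ 2 := by
  simp [tau]

lemma snd_eq (x y z : ℤ) : ((x : V) + y * tau + z * tau ^ 2).2.1
    = ((x : ℝ) : ℂ) + ((y : ℝ) : ℂ) * om + ((z : ℝ) : ℂ) * om ^ 2 := by
  simp [tau]

lemma key_int (x y z : ℤ) (h1 : |(x : ℝ) + y * th + z * th ^ 2| < 1)
    (h2 : ‖((x : ℝ) : ℂ) + ((y : ℝ) : ℂ) * om + ((z : ℝ) : ℂ) * om ^ 2‖ < 1.68) :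
    x = 0 ∧ y = 0 ∧ z = 0 := by
  have hn : Complex.normSq (((x : ℝ) : ℂ) + ((y : ℝ) : ℂ) * om + ((z : ℝ) : ℂ) * om ^ 2) < 2.8224 := by
    rw [Complex.normSq_eq_norm_sq]
    nlinarith [norm_nonneg (((x : ℝ) : ℂ) + ((y : ℝ) : ℂ) * om + ((z : ℝ) : ℂ) * om ^ 2)]
  have hre := (Complex.abs_re_le_norm _).trans_lt h2
  have him := (Complex.abs_im_le_norm _).trans_lt h2
  rw [normSq_eq] at hn
  rw [om_sq] at hre him
  simp [om, pow_two] at hre him
  have t1 := th_lo
  have t2 := th_hi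
  have t3 := th2_lo
  have t4 := th2_hi
  have b1 := be_lo
  have b2 := be_hi
  rw [abs_lt] at h1 hre him
  -- w = y + z (1 - th)
  have hw1 : (y : ℝ) + z * (1 - th) < 1.4 := by
    by_contra hh
    push Not at hh
    nlinarith [him.2]
  have hw2 : -1.4 < (y : ℝ) + z * (1 - th) := by
    by_contra hh
    push Not at hh
    nlinarith [him.1]
  have hz1 : (z : ℝ) < 2 := by
    by_contra hh
    push Not at hh
    nlinarith [h1.2, hre.1]
  have hz2 : (-2 : ℝ) < z := by
    by_contra hh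
    push Not at hh
    nlinarith [h1.1, hre.2]
  have hz1' : z < 2 := by exact_mod_cast hz1
  have hz2' : -2 < z := by exact_mod_cast hz2
  have hy1 : y < 2 := by
    have : (y : ℝ) < 2 := by
      interval_cases z <;> push_cast at hw1 <;> linarith
    exact_mod_cast this
  have hy2 : -2 < y := by
    have : (-2 : ℝ) < y := by
      interval_cases z <;> push_cast at hw2 <;> linarith
    exact_mod_cast this
  have hx1 : x < 5 := by
    have : (x : ℝ) < 5 := by
      interval_cases z <;> interval_cases y <;> push_cast at h1 <;> linarith [h1.2]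
    exact_mod_cast this
  have hx2 : -5 < x := by
    have : (-5 : ℝ) < x := by
      interval_cases z <;> interval_cases y <;> push_cast at h1 <;> linarith [h1.1]
    exact_mod_cast this
  obtain ⟨h1a, h1b⟩ := h1
  clear hre him h2 hw1 hw2 hz1 hz2
  interval_cases z <;> interval_cases y <;> interval_cases x <;> push_cast at h1a h1b hn <;>
    first
    | exact ⟨rfl, rfl, rfl⟩
    | (exfalso; linarith)

lemma key (v : V) (hv : v ∈ S) (h1 : |v.1| < 1) (h2 : ‖v.2.1‖ < 1.68) : v = 0 := by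
  obtain ⟨x, y, z, rfl⟩ := hv
  rw [fst_eq] at h1
  rw [snd_eq] at h2
  obtain ⟨rfl, rfl, rfl⟩ := key_int x y z h1 h2
  simp

end Pool.Agent.H18.Beurling
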