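import Pool.Agent.H18.Beurling

set_option autoImplicit false

namespace Pool.Agent.H18.Beurling

noncomputable def pr (i : ℕ) : ℕ := Nat.nth Nat.Prime (i + 3)

lemma pr_prime (i : ℕ) : (pr i).Prime := Nat.prime_nth_prime _

lemma pr_mono : StrictMono pr := fun _ _ h =>
  Nat.nth_strictMono Nat.infinite_setOfPred_prime (by omega)

lemma pr_ge (i : ℕ) : 7 ≤ pr i := by
  have h : pr 0 = 7 := Nat.nth_prime_three_eq_seven
  rw [← h]
  exact pr_mono.monotone (Nat.zero_le _)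

noncomputable def g : ℕ → V
  | 0 => 1 + tau ^ 2
  | 1 => 1 + tau + tau ^ 2
  | 2 => 2 + tau + tau ^ 2
  | 3 => 3 + 2 * tau ^ 2
  | (i + 4) => (pr i : V) * (1 + tau ^ 2) ^ (pr i)

noncomputable def Nn : ℕ → ℕ
  | 0 => 1
  | 1 => 4
  | 2 => 4
  | 3 => 5
  | (i + 4) => pr i ^ 3

lemma tau_mem : tau ∈ S := ⟨0, 1, 0, by simp⟩

lemma g_mem (i : ℕ) : g i ∈ S := by
  have h := tau_mem
  match i with
  | 0 => exact S.add_mem S.one_mem (S.pow_mem h 2)
  | 1 => exact S.add_mem (S.add_mem S.one_mem h) (S.pow_mem h 2)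
  | 2 => exact ⟨2, 1, 1, by simp [g]⟩
  | 3 => exact ⟨3, 0, 2, by simp [g]⟩
  | (i + 4) => exact S.mul_mem (natCast_mem S _) (S.pow_mem (S.add_mem S.one_mem (S.pow_mem h 2)) _)

noncomputable def a (i : ℕ) : ℝ := (g i).1
noncomputable def c (i : ℕ) : ℂ := (g i).2.1

lemma a0 : a 0 = 1 + th ^ 2 := by simp [a, g, tau]
lemma a1 : a 1 = 1 + th + th ^ 2 := by simp [a, g, tau]
lemma a2 : a 2 = 2 + th + th ^ 2 := by simp [a, g, tau]
lemma a3 : a 3 = 3 + 2 * th ^ 2 := by simp [a, g, tau]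
lemma a4 (i : ℕ) : a (i + 4) = pr i * a 0 ^ pr i := by simp [a, g, tau]
lemma c4 (i : ℕ) : c (i + 4) = pr i * c 0 ^ pr i := by simp [c, g, tau]

lemma n0 : Complex.normSq (c 0) = th - 1 := by
  have h := normSq_eq 1 0 1
  have : c 0 = ((1 : ℝ) : ℂ) + ((0 : ℝ) : ℂ) * om + ((1 : ℝ) : ℂ) * om ^ 2 := by simp [c, g, tau]
  rw [this, h]; ring
lemma n1 : Complex.normSq (c 1) = 2 * th ^ 2 - 2 * th := by
  have h := normSq_eq 1 1 1
  have : c 1 = ((1 : ℝ) : ℂ) + ((1 : ℝ) : ℂ) * om + ((1 : ℝ) : ℂ) * om ^ 2 := by simp [c, g, tau]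
  rw [this, h]; ring
lemma n2 : Complex.normSq (c 2) = th ^ 2 - 3 * th + 3 := by
  have h := normSq_eq 2 1 1
  have : c 2 = ((2 : ℝ) : ℂ) + ((1 : ℝ) : ℂ) * om + ((1 : ℝ) : ℂ) * om ^ 2 := by simp [c, g, tau]
  rw [this, h]; ring
lemma n3 : Complex.normSq (c 3) = -2 * th ^ 2 + 4 * th - 1 := by
  have h := normSq_eq 3 0 2
  have : c 3 = ((3 : ℝ) : ℂ) + ((0 : ℝ) : ℂ) * om + ((2 : ℝ) : ℂ) * om ^ 2 := by simp [c, g, tau]
  rw [this, h]; ring

lemma norm_le_of (z : ℂ) (b : ℝ) (hb : 0 ≤ b) (h : Complex.normSq z ≤ b ^ 2) : ‖z‖ ≤ b := by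
  rw [Complex.normSq_eq_norm_sq] at h
  exact (pow_le_pow_iff_left₀ (norm_nonneg _) hb two_ne_zero).1 h

lemma c0_le : ‖c 0‖ ≤ 0.6 := norm_le_of _ _ (by norm_num) (by rw [n0]; linarith [th_hi])
lemma c1_le : ‖c 1‖ ≤ 1 := norm_le_of _ _ (by norm_num) (by rw [n1]; linarith [th_lo, th2_hi])
lemma c2_le : ‖c 2‖ ≤ 0.8785 := norm_le_of _ _ (by norm_num) (by rw [n2]; linarith [th_lo, th2_hi])
lemma c3_le : ‖c 3‖ ≤ 0.8785 := norm_le_of _ _ (by norm_num) (by rw [n3]; linarith [th_hi, th2_lo])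

lemma geo (n : ℕ) (hn : 7 ≤ n) : (n : ℝ) * 0.6 ^ n ≤ 0.6 := by
  induction n, hn using Nat.le_induction with
  | base => norm_num
  | succ n hn ih =>
    have : (7 : ℝ) ≤ n := by exact_mod_cast hn
    have h2 : (0 : ℝ) < 0.6 ^ n := by positivity
    push_cast
    rw [pow_succ]
    nlinarith

lemma c4_le (i : ℕ) : ‖c (i + 4)‖ ≤ 0.6 := by
  rw [c4, norm_mul, norm_pow, Complex.norm_natCast]
  refine le_trans ?_ (geo _ (pr_ge i))
  gcongr
  exact c0_le

lemma c_le (i : ℕ) : ‖c i‖ ≤ 1 := by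
  match i with
  | 0 => linarith [c0_le]
  | 1 => exact c1_le
  | 2 => linarith [c2_le]
  | 3 => linarith [c3_le]
  | (i + 4) => linarith [c4_le i]

lemma nn_eq (i : ℕ) : a i * Complex.normSq (c i) = Nn i := by
  have h := th_eq
  have h0 : a 0 * Complex.normSq (c 0) = 1 := by rw [a0, n0]; linear_combination h
  match i with
  | 0 => simpa [Nn] using h0
  | 1 => rw [a1, n1]; simp only [Nn]; push_cast; linear_combination (2 * th + 2) * h
  | 2 => rw [a2, n2]; simp only [Nn]; push_cast; linear_combination (th - 1) * h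
  | 3 => rw [a3, n3]; simp only [Nn]; push_cast; linear_combination (-4 * th + 4) * h
  | (i + 4) =>
    rw [a4, c4, map_mul, map_pow, Complex.normSq_natCast]
    simp only [Nn]; push_cast
    have : (a 0 * Complex.normSq (c 0)) ^ pr i = 1 := by rw [h0, one_pow]
    rw [mul_pow] at this
    linear_combination (pr i : ℝ) ^ 3 * this

lemma a0_lo : 2.83 < a 0 := by rw [a0]; linarith [th2_lo]

lemma a_mono : StrictMono a := by
  apply strictMono_nat_of_lt_succ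
  intro n
  have t1 := th_lo
  have t2 := th_hi
  have t3 := th2_lo
  have t4 := th2_hi
  have h0 := a0_lo
  match n with
  | 0 => rw [a0, a1]; linarith
  | 1 => rw [a1, a2]; linarith
  | 2 => rw [a2, a3]; linarith
  | 3 =>
    rw [a3, a4 0]
    have h7 : (7 : ℝ) ≤ pr 0 := by exact_mod_cast pr_ge 0
    have : 1 ≤ a 0 ^ pr 0 := one_le_pow₀ (by linarith)
    nlinarith
  | (i + 4) =>
    rw [a4, show i + 4 + 1 = (i + 1) + 4 by ring, a4]
    have h1 : pr i < pr (i + 1) := pr_mono (Nat.lt_succ_self i)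
    have h2 : (pr i : ℝ) < pr (i + 1) := by exact_mod_cast h1
    have h3 : a 0 ^ pr i ≤ a 0 ^ pr (i + 1) := pow_le_pow_right₀ (by linarith) h1.le
    have h4 : 0 < a 0 ^ pr i := by positivity
    have h5 : (0 : ℝ) ≤ pr i := Nat.cast_nonneg _
    nlinarith

lemma a_ge (i : ℕ) : 1 ≤ a i := by
  have := a_mono.monotone (Nat.zero_le i)
  linarith [a0_lo]

lemma e_eq (i : ℕ) (hi : i ≠ 2) : (g i).2.2 = 1 := by
  match i with
  | 0 => simp [g, tau]
  | 1 => simp [g, tau]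
  | 2 => exact absurd rfl hi
  | 3 => simp [g, tau]; rfl
  | (i + 4) =>
    have h : Odd (pr i) := (pr_prime i).odd_of_ne_two (by have := pr_ge i; omega)
    have h2 : ((pr i : ℕ) : ZMod 2) = 1 := (ZMod.natCast_eq_one_iff_odd).2 h
    simp [g, tau, h2]

lemma e_two : (g 2).2.2 = 0 := by simp [g, tau]; rfl

noncomputable def G (k : ℕ →₀ ℕ) : V := k.prod (fun i e => g i ^ e)
noncomputable def P (k : ℕ →₀ ℕ) : ℝ := k.prod (fun i e => a i ^ e)

lemma G_mem (k : ℕ →₀ ℕ) : G k ∈ S := S.prod_mem (fun i _ => S.pow_mem (g_mem i) _)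

lemma G_fst (k : ℕ →₀ ℕ) : (G k).1 = P k := by
  simp [G, P, Finsupp.prod, Prod.fst_prod, a]

lemma G_c (k : ℕ →₀ ℕ) : (G k).2.1 = ∏ i ∈ k.support, c i ^ k i := by
  simp [G, Finsupp.prod, Prod.fst_prod, Prod.snd_prod, c]

lemma G_e (k : ℕ →₀ ℕ) : (G k).2.2 = ∏ i ∈ k.support, (g i).2.2 ^ k i := by
  simp [G, Finsupp.prod, Prod.snd_prod]

lemma G_nn (k : ℕ →₀ ℕ) : (G k).1 * Complex.normSq (G k).2.1
    = ((∏ i ∈ k.support, Nn i ^ k i : ℕ) : ℝ) := by
  rw [G_fst, G_c, P, Finsupp.prod, map_prod, ← Finset.prod_mul_distrib]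
  push_cast
  refine Finset.prod_congr rfl fun i _ => ?_
  rw [map_pow, ← mul_pow, nn_eq]

lemma two_zero (k l : ℕ →₀ ℕ) (hd : ∀ i, k i = 0 ∨ l i = 0) (h : G k = G l) : k 2 = 0 := by
  by_contra hk
  have hl : l 2 = 0 := (hd 2).resolve_left hk
  have h1 : (G k).2.2 = 0 := by
    rw [G_e]
    exact Finset.prod_eq_zero (Finsupp.mem_support_iff.2 hk) (by rw [e_two, zero_pow hk])
  have h2 : (G l).2.2 = 1 := by
    rw [G_e]
    refine Finset.prod_eq_one fun i hi => ?_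
    rw [e_eq i, one_pow]
    rintro rfl
    exact Finsupp.mem_support_iff.1 hi hl
  rw [h, h2] at h1
  exact one_ne_zero h1

lemma dvd_N (k l : ℕ →₀ ℕ) (h : G k = G l) (j q : ℕ) (hq : q.Prime) (hj : k j ≠ 0)
    (hqj : q ∣ Nn j) : ∃ i, l i ≠ 0 ∧ q ∣ Nn i := by
  have h1 : (∏ i ∈ k.support, Nn i ^ k i : ℕ) = ∏ i ∈ l.support, Nn i ^ l i := by
    have := G_nn k
    rw [h, G_nn] at this
    exact_mod_cast this.symm
  have h2 : q ∣ ∏ i ∈ k.support, Nn i ^ k i :=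
    (hqj.trans (dvd_pow_self _ hj)).trans
      (Finset.dvd_prod_of_mem (fun i => Nn i ^ k i) (Finsupp.mem_support_iff.2 hj))
  rw [h1] at h2
  obtain ⟨i, hi, hqi⟩ := (Prime.dvd_finsetProd_iff hq.prime _).1 h2
  exact ⟨i, Finsupp.mem_support_iff.1 hi, hq.dvd_of_dvd_pow hqi⟩

lemma dvd_pr (q i : ℕ) (hq : q.Prime) (h : q ∣ Nn (i + 4)) : q = pr i :=
  (Nat.prime_dvd_prime_iff_eq hq (pr_prime i)).1 (hq.dvd_of_dvd_pow h)

lemma supp_zero (k l : ℕ →₀ ℕ) (hd : ∀ i, k i = 0 ∨ l i = 0) (h : G k = G l) (j : ℕ)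
    (hj : j ≠ 0) : k j = 0 := by
  have hk2 := two_zero k l hd h
  have hl2 := two_zero l k (fun i => (hd i).symm) h.symm
  by_contra hk
  have hl : l j = 0 := (hd j).resolve_left hk
  match j with
  | 0 => exact hj rfl
  | 1 =>
    obtain ⟨i, hi, hq⟩ := dvd_N k l h 1 2 Nat.prime_two hk (by simp [Nn])
    match i with
    | 0 => simp [Nn] at hq
    | 1 => exact hi hl
    | 2 => exact hi hl2
    | 3 => simp [Nn] at hq
    | (i + 4) => have := dvd_pr 2 i Nat.prime_two hq; have := pr_ge i; omega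
  | 2 => exact hk hk2
  | 3 =>
    obtain ⟨i, hi, hq⟩ := dvd_N k l h 3 5 Nat.prime_five hk (by simp [Nn])
    match i with
    | 0 => simp [Nn] at hq
    | 1 => simp [Nn] at hq
    | 2 => simp [Nn] at hq
    | 3 => exact hi hl
    | (i + 4) => have := dvd_pr 5 i Nat.prime_five hq; have := pr_ge i; omega
  | (j + 4) =>
    obtain ⟨i, hi, hq⟩ := dvd_N k l h (j + 4) (pr j) (pr_prime j) hk
      (by simp only [Nn]; exact dvd_pow_self _ (by norm_num))
    have h7 := pr_ge j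
    match i with
    | 0 => have := Nat.le_of_dvd (by simp [Nn]) hq; simp only [Nn] at this; omega
    | 1 => have := Nat.le_of_dvd (by simp [Nn]) hq; simp only [Nn] at this; omega
    | 2 => have := Nat.le_of_dvd (by simp [Nn]) hq; simp only [Nn] at this; omega
    | 3 => have := Nat.le_of_dvd (by simp [Nn]) hq; simp only [Nn] at this; omega
    | (i + 4) =>
      have h1 := dvd_pr _ i (pr_prime j) hq
      have h2 : j = i := pr_mono.injective h1
      subst h2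
      exact hi hl

lemma indep (k l : ℕ →₀ ℕ) (hd : ∀ i, k i = 0 ∨ l i = 0) (h : G k = G l) : k = l := by
  have hk := supp_zero k l hd h
  have hl := supp_zero l k (fun i => (hd i).symm) h.symm
  have hP : ∀ m : ℕ →₀ ℕ, (∀ j, j ≠ 0 → m j = 0) → P m = a 0 ^ m 0 := by
    intro m hm
    unfold P
    rw [Finsupp.prod_of_support_subset m (s := {0}) ?_ _ (by simp)]
    · simp
    · intro j hj
      by_contra h0
      exact Finsupp.mem_support_iff.1 hj (hm j (by simpa using h0))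
  have h1 : a 0 ^ k 0 = a 0 ^ l 0 := by
    rw [← hP k hk, ← hP l hl, ← G_fst, ← G_fst, h]
  have h2 : k 0 = l 0 := pow_right_injective₀ (by linarith [a0_lo]) (by linarith [a0_lo]) h1
  ext j
  by_cases hj : j = 0
  · rw [hj, h2]
  · rw [hk j hj, hl j hj]

lemma Gc_le (k : ℕ →₀ ℕ) : ‖(G k).2.1‖ ≤ 1 := by
  rw [G_c, norm_prod]
  exact Finset.prod_le_one (fun _ _ => norm_nonneg _)
    (fun i _ => by rw [norm_pow]; exact pow_le_one₀ (norm_nonneg _) (c_le i))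

lemma big (k : ℕ →₀ ℕ) (h : 0.68 ≤ ‖(G k).2.1‖) :
    P k = a 1 ^ k 1 * a 2 ^ k 2 * a 3 ^ k 3 ∧ k 2 + k 3 ≤ 2 ∧ ∀ j, j ∉ ({1, 2, 3} : Finset ℕ) → k j = 0 := by
  have hs : ∀ j, j ∉ ({1, 2, 3} : Finset ℕ) → k j = 0 := by
    intro j hj
    by_contra hk
    have hc : ‖c j‖ ≤ 0.6 := by
      match j with
      | 0 => exact c0_le
      | 1 => simp at hj
      | 2 => simp at hj
      | 3 => simp at hj
      | (i + 4) => exact c4_le i
    rw [G_c, norm_prod, ← Finset.mul_prod_erase _ _ (Finsupp.mem_support_iff.2 hk)] at h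
    have h1 : ∏ i ∈ k.support.erase j, ‖c i ^ k i‖ ≤ 1 :=
      Finset.prod_le_one (fun _ _ => norm_nonneg _)
        (fun i _ => by rw [norm_pow]; exact pow_le_one₀ (norm_nonneg _) (c_le i))
    have h2 : ‖c j ^ k j‖ ≤ 0.6 := by
      rw [norm_pow]
      exact (pow_le_of_le_one (norm_nonneg _) (c_le j) hk).trans hc
    have h3 := mul_le_mul h2 h1 (Finset.prod_nonneg fun _ _ => norm_nonneg _) (by norm_num)
    linarith
  have hsub : k.support ⊆ {1, 2, 3} := by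
    intro j hj
    by_contra h0
    exact Finsupp.mem_support_iff.1 hj (hs j h0)
  refine ⟨?_, ?_, hs⟩
  · unfold P
    rw [Finsupp.prod_of_support_subset k hsub _ (by simp)]
    simp [mul_assoc]
  · by_contra hh
    push Not at hh
    have h1 : (G k).2.1 = c 1 ^ k 1 * c 2 ^ k 2 * c 3 ^ k 3 := by
      rw [G_c, Finset.prod_subset hsub (fun j _ hj => by
        rw [Finsupp.notMem_support_iff.1 hj, pow_zero])]
      simp [mul_assoc]
    rw [h1, norm_mul, norm_mul, norm_pow, norm_pow, norm_pow] at h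
    have h2 : ‖c 1‖ ^ k 1 * ‖c 2‖ ^ k 2 * ‖c 3‖ ^ k 3 ≤ 1 ^ k 1 * 0.8785 ^ k 2 * 0.8785 ^ k 3 := by
      gcongr
      · exact c1_le
      · exact c2_le
      · exact c3_le
    rw [one_pow, one_mul, ← pow_add] at h2
    have h3 : (0.8785 : ℝ) ^ (k 2 + k 3) ≤ 0.8785 ^ 3 :=
      pow_le_pow_of_le_one (by norm_num) (by norm_num) hh
    have h4 : (0.8785 : ℝ) ^ 3 < 0.68 := by norm_num
    linarith

lemma numeric (i j k j' k' : ℕ) (h1 : j + k ≤ 2) (h2 : j' + k' ≤ 2)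
    (hne : ¬ (i = 0 ∧ j = j' ∧ k = k')) :
    1 ≤ |a 1 ^ i * a 2 ^ j * a 3 ^ k - a 2 ^ j' * a 3 ^ k'| := by
  have t1 := th_lo
  have t2 := th_hi
  have t3 := th2_lo
  have t4 := th2_hi
  have A1 : 4.184 ≤ a 1 := by rw [a1]; linarith
  have A2 : a 1 ≤ 4.185 := by rw [a1]; linarith
  have B1 : 5.184 ≤ a 2 := by rw [a2]; linarith
  have B2 : a 2 ≤ 5.185 := by rw [a2]; linarith
  have C1 : 6.662 ≤ a 3 := by rw [a3]; linarith
  have C2 : a 3 ≤ 6.663 := by rw [a3]; linarith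
  have AB : a 2 = a 1 + 1 := by rw [a1, a2]; ring
  have l1 : (4.184 : ℝ) ^ i * 5.184 ^ j * 6.662 ^ k ≤ a 1 ^ i * a 2 ^ j * a 3 ^ k := by gcongr
  have u1 : a 1 ^ i * a 2 ^ j * a 3 ^ k ≤ (4.185 : ℝ) ^ i * 5.185 ^ j * 6.663 ^ k := by gcongr
  have l2 : (5.184 : ℝ) ^ j' * 6.662 ^ k' ≤ a 2 ^ j' * a 3 ^ k' := by gcongr
  have u2 : a 2 ^ j' * a 3 ^ k' ≤ (5.185 : ℝ) ^ j' * 6.663 ^ k' := by gcongr
  rw [le_abs]
  have hj : j ≤ 2 := by omega
  have hk : k ≤ 2 := by omega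
  have hj' : j' ≤ 2 := by omega
  have hk' : k' ≤ 2 := by omega
  by_cases hi : 3 ≤ i
  · left
    have l3 : (4.184 : ℝ) ^ 3 * 1 * 1 ≤ (4.184 : ℝ) ^ i * 5.184 ^ j * 6.662 ^ k := by
      gcongr
      · norm_num
      · exact one_le_pow₀ (by norm_num)
      · exact one_le_pow₀ (by norm_num)
    have u3 : (5.185 : ℝ) ^ j' * 6.663 ^ k' ≤ 45 := by
      interval_cases j' <;> interval_cases k' <;> first | omega | norm_num
    norm_num at l3
    linarith
  · push Not at hi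
    by_cases hs : i = 1 ∧ j = 0 ∧ k = 0 ∧ j' = 1 ∧ k' = 0
    · obtain ⟨rfl, rfl, rfl, rfl, rfl⟩ := hs
      right
      simp [AB]
    by_cases hs' : i = 1 ∧ j = 0 ∧ k = 1 ∧ j' = 2 ∧ k' = 0
    · obtain ⟨rfl, rfl, rfl, rfl, rfl⟩ := hs'
      left
      have : a 1 ^ 1 * a 2 ^ 0 * a 3 ^ 1 - a 2 ^ 2 * a 3 ^ 0 = 1 := by
        rw [a1, a2, a3]; linear_combination (th + 1) * th_eq
      rw [this]
    · generalize a 1 ^ i * a 2 ^ j * a 3 ^ k = X at l1 u1 ⊢
      generalize a 2 ^ j' * a 3 ^ k' = Y at l2 u2 ⊢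
      interval_cases i <;> interval_cases j <;> interval_cases k <;> interval_cases j' <;>
        interval_cases k' <;>
        first
        | omega
        | (norm_num at l1 u1 l2 u2; first | (left; linarith) | (right; linarith))

lemma sep_disj (k l : ℕ →₀ ℕ) (hd : ∀ i, k i = 0 ∨ l i = 0) (hne : k ≠ l) : 1 ≤ |P k - P l| := by
  by_cases hc : ‖(G k - G l).2.1‖ < 1.68
  · by_contra h
    push Not at h
    have h0 := key (G k - G l) (S.sub_mem (G_mem k) (G_mem l))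
      (by rw [Prod.fst_sub, G_fst, G_fst]; exact h) hc
    exact hne (indep k l hd (sub_eq_zero.1 h0))
  · push Not at hc
    have h1 : ‖(G k - G l).2.1‖ ≤ ‖(G k).2.1‖ + ‖(G l).2.1‖ := norm_sub_le _ _
    obtain ⟨hk1, hk2, hk3⟩ := big k (by linarith [Gc_le l])
    obtain ⟨hl1, hl2, hl3⟩ := big l (by linarith [Gc_le k])
    have hne' : ¬ (k 1 = l 1 ∧ k 2 = l 2 ∧ k 3 = l 3) := by
      rintro ⟨e1, e2, e3⟩
      apply hne
      ext j
      by_cases hj : j ∈ ({1, 2, 3} : Finset ℕ)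
      · simp only [Finset.mem_insert, Finset.mem_singleton] at hj
        rcases hj with rfl | rfl | rfl <;> assumption
      · rw [hk3 j hj, hl3 j hj]
    rw [hk1, hl1]
    rcases hd 1 with h | h
    · rw [abs_sub_comm, h, pow_zero, one_mul]
      exact numeric _ _ _ _ _ hl2 hk2 (fun hh => hne' ⟨by omega, hh.2.1.symm, hh.2.2.symm⟩)
    · rw [h, pow_zero, one_mul]
      exact numeric _ _ _ _ _ hk2 hl2 (fun hh => hne' ⟨by omega, hh.2.1, hh.2.2⟩)

lemma P_add (k l : ℕ →₀ ℕ) : P (k + l) = P k * P l :=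
  Finsupp.prod_add_index' (fun _ => pow_zero _) (fun _ _ _ => pow_add _ _ _)

lemma P_ge (k : ℕ →₀ ℕ) : 1 ≤ P k := by
  unfold P Finsupp.prod
  exact Finset.prod_induction _ (fun x : ℝ => 1 ≤ x) (fun x y hx hy => one_le_mul_of_one_le_of_one_le hx hy)
    le_rfl (fun i _ => one_le_pow₀ (a_ge i))

lemma sep (k l : ℕ →₀ ℕ) (hne : k ≠ l) : 1 ≤ |P k - P l| := by
  have hk : k = (k ⊓ l) + (k - l) := by
    ext i; simp only [Finsupp.add_apply, Finsupp.inf_apply, Finsupp.tsub_apply]; omega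
  have hl : l = (k ⊓ l) + (l - k) := by
    ext i; simp only [Finsupp.add_apply, Finsupp.inf_apply, Finsupp.tsub_apply]; omega
  have h1 := sep_disj (k - l) (l - k)
    (fun i => by simp only [Finsupp.tsub_apply]; omega)
    (fun h => hne (by rw [hk, h, ← hl]))
  have h2 : P k - P l = P (k ⊓ l) * (P (k - l) - P (l - k)) := by
    conv_lhs => rw [hk, P_add]
    rw [show P l = P (k ⊓ l) * P (l - k) by rw [← P_add, ← hl]]
    ring
  rw [h2, abs_mul]
  have h3 := P_ge (k ⊓ l)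
  rw [abs_of_nonneg (by linarith : 0 ≤ P (k ⊓ l))]
  nlinarith

lemma count : {i : ℕ | a i ≤ 6.9} = ({0, 1, 2, 3} : Finset ℕ) := by
  have h3 : a 3 ≤ 6.9 := by rw [a3]; linarith [th2_hi]
  have h4 : 6.9 < a 4 := by
    rw [a4 0]
    have h7 : (7 : ℝ) ≤ pr 0 := by exact_mod_cast pr_ge 0
    have : 1 ≤ a 0 ^ pr 0 := one_le_pow₀ (a_ge 0)
    nlinarith
  ext i
  simp only [Set.mem_ofPred_eq, Finset.coe_insert, Finset.coe_singleton, Set.mem_insert_iff,
    Set.mem_singleton_iff]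
  constructor
  · intro h
    have : i < 4 := a_mono.lt_iff_lt.1 (h.trans_lt h4)
    omega
  · intro h
    exact (a_mono.monotone (by omega : i ≤ 3)).trans h3

end Pool.Agent.H18.Beurling
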