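import Mathlib

set_option autoImplicit false

namespace Pool.Agent.H18.Bonf

open Finset

variable (B : ℕ → ℕ → Prop) [∀ q x, Decidable (B q x)]

def g (q : ℕ) : ℕ := ((range q).filter (fun x => B q x)).card

noncomputable def rho (q : ℕ) : ℝ := (g B q : ℝ) / q

def S (L : Finset ℕ) (a m J : ℕ) : ℕ :=
  ((range J).filter (fun j => ∀ q ∈ L, ¬ B q (a + m * j))).card

lemma rho_nonneg (q : ℕ) : 0 ≤ rho B q := by unfold rho; positivity

lemma rho_le (q : ℕ) : rho B q ≤ 1 := by
  unfold rho
  apply div_le_one_of_le₀ _ (by positivity)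
  have : g B q ≤ q := by
    unfold g
    exact (card_filter_le _ _).trans (by simp)
  exact_mod_cast this

lemma card_aff (hB : ∀ q x, B q x ↔ B q (x % q)) {q : ℕ} (hq : 0 < q) (a m : ℕ)
    (hm : m.Coprime q) : ((range q).filter (fun x => B q (a + m * x))).card = g B q := by
  have hinj : Set.InjOn (fun x => (a + m * x) % q) (range q : Set ℕ) := by
    intro x hx y hy h
    have h1 : a + m * x ≡ a + m * y [MOD q] := h
    have h2 : x ≡ y [MOD q] :=
      Nat.ModEq.cancel_left_of_coprime hm.symm (Nat.ModEq.add_left_cancel' a h1)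
    exact Nat.ModEq.eq_of_lt_of_lt h2 (mem_range.1 (mem_coe.1 hx)) (mem_range.1 (mem_coe.1 hy))
  have himg : (range q).image (fun x => (a + m * x) % q) = range q := by
    apply eq_of_subset_of_card_le
    · intro y hy
      obtain ⟨x, -, rfl⟩ := mem_image.1 hy
      exact mem_range.2 (Nat.mod_lt _ hq)
    · rw [card_image_of_injOn hinj]
  unfold g
  conv_rhs => rw [← himg, filter_image]
  rw [card_image_of_injOn (hinj.mono (coe_subset.2 (filter_subset _ _)))]
  congr 1
  apply filter_congr
  intro x _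
  exact hB q _

def Jr (J q r : ℕ) : ℕ := (J + q - 1 - r) / q

lemma lt_Jr {J q r : ℕ} (hr : r < q) (j : ℕ) : j < Jr J q r ↔ r + q * j < J := by
  unfold Jr
  rw [Nat.lt_iff_add_one_le, Nat.le_div_iff_mul_le (by omega), add_mul, mul_comm j q]
  omega

lemma Jr_bd {J q r : ℕ} (hr : r < q) : |(Jr J q r : ℝ) - (J : ℝ) / q| ≤ 1 := by
  have hq : (0 : ℝ) < q := by exact_mod_cast (show 0 < q by omega)
  have h1 : J ≤ r + q * Jr J q r := by
    have := (lt_Jr (J := J) hr (Jr J q r)).not.1 (lt_irrefl _)
    omega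
  have h2 : q * Jr J q r ≤ J + q := by
    have : q * Jr J q r ≤ J + q - 1 - r := Nat.mul_div_le _ _
    omega
  have h1' : (J : ℝ) ≤ r + q * Jr J q r := by exact_mod_cast h1
  have h2' : (q : ℝ) * Jr J q r ≤ J + q := by exact_mod_cast h2
  have hr' : (r : ℝ) < q := by exact_mod_cast hr
  have e : (Jr J q r : ℝ) - (J : ℝ) / q = (q * Jr J q r - J) / q := by field_simp
  rw [e, abs_div, abs_of_pos hq, div_le_one hq, abs_le]
  constructor <;> linarith

lemma S_insert (hB : ∀ q x, B q x ↔ B q (x % q)) (L : Finset ℕ) {q : ℕ} (hq : 0 < q)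
    (a m J : ℕ) :
    S B (insert q L) a m J + ∑ r ∈ (range q).filter (fun x => B q (a + m * x)),
      S B L (a + m * r) (m * q) (Jr J q r) = S B L a m J := by
  have hmod : ∀ j, B q (a + m * j) ↔ B q (a + m * (j % q)) := by
    intro j
    rw [hB q (a + m * j), hB q (a + m * (j % q))]
    have : (a + m * j) % q = (a + m * (j % q)) % q := by
      simp [Nat.add_mod, Nat.mul_mod]
    rw [this]
  set T := (range J).filter (fun j => ∀ p ∈ L, ¬ B p (a + m * j)) with hT
  have h1 : S B (insert q L) a m J = (T.filter (fun j => ¬ B q (a + m * j))).card := by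
    unfold S
    rw [hT, filter_filter]
    congr 1
    apply filter_congr
    intro j _
    simp only [mem_insert, forall_eq_or_imp]
    tauto
  have h2 : (T.filter (fun j => B q (a + m * j))).card
      = ∑ r ∈ (range q).filter (fun x => B q (a + m * x)),
        S B L (a + m * r) (m * q) (Jr J q r) := by
    rw [card_eq_sum_card_fiberwise (f := fun j => j % q)
      (t := (range q).filter (fun x => B q (a + m * x)))]
    · apply sum_congr rfl
      intro r hr
      obtain ⟨hr1, hr2⟩ := mem_filter.1 hr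
      have hr3 := mem_range.1 hr1
      unfold S
      symm
      apply card_bij (fun j _ => r + q * j)
      · intro j hj
        obtain ⟨hj1, hj2⟩ := mem_filter.1 hj
        have e : (r + q * j) % q = r := by
          rw [Nat.add_mul_mod_self_left, Nat.mod_eq_of_lt hr3]
        refine mem_filter.2 ⟨mem_filter.2 ⟨mem_filter.2 ⟨mem_range.2 ?_, ?_⟩, ?_⟩, e⟩
        · exact (lt_Jr hr3 j).1 (mem_range.1 hj1)
        · intro p hp
          rw [show a + m * (r + q * j) = a + m * r + m * q * j by ring]
          exact hj2 p hp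
        · rw [hmod, e]; exact hr2
      · intro j _ j' _ h
        exact Nat.eq_of_mul_eq_mul_left hq (by omega)
      · intro j hj
        obtain ⟨hj1, hj2⟩ := mem_filter.1 hj
        obtain ⟨hj3, -⟩ := mem_filter.1 hj1
        obtain ⟨hj4, hj5⟩ := mem_filter.1 hj3
        have e : r + q * (j / q) = j := by rw [← hj2]; exact Nat.mod_add_div j q
        refine ⟨j / q, mem_filter.2 ⟨mem_range.2 ?_, ?_⟩, e⟩
        · rw [lt_Jr hr3, e]; exact mem_range.1 hj4
        · intro p hp
          rw [show a + m * r + m * q * (j / q) = a + m * (r + q * (j / q)) by ring, e]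
          exact hj5 p hp
    · intro j hj
      obtain ⟨-, hj2⟩ := mem_filter.1 (mem_coe.1 hj)
      exact mem_coe.2 (mem_filter.2 ⟨mem_range.2 (Nat.mod_lt _ hq), (hmod j).1 hj2⟩)
  rw [h1, ← h2, add_comm]
  exact card_filter_add_card_filter_not _

lemma prod_mem (L : Finset ℕ) :
    0 ≤ ∏ q ∈ L, (1 - rho B q) ∧ ∏ q ∈ L, (1 - rho B q) ≤ 1 :=
  ⟨prod_nonneg (fun q _ => by linarith [rho_le B q]),
   prod_le_one (fun q _ => by linarith [rho_le B q]) (fun q _ => by linarith [rho_nonneg B q])⟩

theorem sieve (hB : ∀ q x, B q x ↔ B q (x % q)) (n : ℕ) (hn : 1 ≤ n) (L : Finset ℕ) :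
    (∀ q ∈ L, q.Prime ∧ g B q ≤ n) → L.card ≤ n → ∀ r a m J : ℕ, (∀ q ∈ L, m.Coprime q) →
      |(S B L a m J : ℝ) - J * ∏ q ∈ L, (1 - rho B q)|
        ≤ J * ((∑ q ∈ L, rho B q) ^ r / r.factorial) + L.card * (3 * (n : ℝ) ^ 2) ^ r := by
  induction L using Finset.induction_on with
  | empty =>
    intro _ _ r a m J _
    simp only [S, notMem_empty, IsEmpty.forall_iff, implies_true, filter_true, card_range,
      prod_empty, mul_one, sub_self, abs_zero, sum_empty, card_empty, Nat.cast_zero, zero_mul,
      add_zero]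
    positivity
  | insert q L hqL ih =>
    intro hL hc r a m J hm
    have hn' : (1 : ℝ) ≤ n := by exact_mod_cast hn
    rcases r with _ | r
    · have h1 : (S B (insert q L) a m J : ℝ) ≤ J := by
        have : S B (insert q L) a m J ≤ J := (card_filter_le _ _).trans (by simp)
        exact_mod_cast this
      obtain ⟨h2, h3⟩ := prod_mem B (insert q L)
      have h4 : (0 : ℝ) ≤ J := by positivity
      have h5 : (0 : ℝ) ≤ S B (insert q L) a m J := by positivity
      have h6 : (0 : ℝ) ≤ (insert q L).card := by positivity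
      simp only [pow_zero, Nat.factorial_zero, Nat.cast_one, div_one, mul_one]
      rw [abs_le]
      constructor <;> nlinarith
    rw [card_insert_of_notMem hqL] at hc
    obtain ⟨hq, hg⟩ := hL q (mem_insert_self _ _)
    have ih' := ih (fun p hp => hL p (mem_insert_of_mem hp)) (by omega)
    have hq0 : (0 : ℝ) < q := by exact_mod_cast hq.pos
    set R := (range q).filter (fun x => B q (a + m * x)) with hR
    have hRc : R.card = g B q := card_aff B hB hq.pos a m (hm q (mem_insert_self _ _))
    have e1 : (S B (insert q L) a m J : ℝ) + ∑ x ∈ R, (S B L (a + m * x) (m * q) (Jr J q x) : ℝ)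
        = S B L a m J := by exact_mod_cast S_insert B hB L hq.pos a m J
    set P := ∏ p ∈ L, (1 - rho B p) with hP
    set l := ∑ p ∈ L, rho B p with hl
    set V := 3 * (n : ℝ) ^ 2 with hV
    obtain ⟨hP0, hP1⟩ := prod_mem B L
    have hl0 : 0 ≤ l := sum_nonneg (fun p _ => rho_nonneg B p)
    have hcn : (L.card : ℝ) + 1 ≤ n := by exact_mod_cast hc
    have hln : l ≤ n := by
      have : l ≤ L.card := by
        simpa using sum_le_card_nsmul L (rho B) 1 (fun p _ => rho_le B p)
      linarith
    have hV1 : (n : ℝ) ≤ V := by nlinarith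
    have hVr : (1 : ℝ) ≤ V ^ r := one_le_pow₀ (by linarith)
    have hE : l ^ r / r.factorial ≤ V ^ r := by
      have h1 : l ^ r ≤ V ^ r := pow_le_pow_left₀ hl0 (by linarith) r
      have h2 : (1 : ℝ) ≤ r.factorial := by exact_mod_cast r.factorial_pos
      exact (div_le_self (by positivity) h2).trans h1
    have hE0 : 0 ≤ l ^ r / r.factorial := by positivity
    set E := l ^ r / r.factorial with hEd
    have a0 := ih' (r + 1) a m J (fun p hp => hm p (mem_insert_of_mem hp))
    have a1 : ∀ x ∈ R, |(S B L (a + m * x) (m * q) (Jr J q x) : ℝ) - (J : ℝ) / q * P|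
        ≤ (J : ℝ) / q * E + (n + 1) * V ^ r := by
      intro x hx
      have hx1 : x < q := mem_range.1 (mem_filter.1 hx).1
      have b1 := ih' r (a + m * x) (m * q) (Jr J q x) (fun p hp => by
        apply Nat.Coprime.mul_left (hm p (mem_insert_of_mem hp))
        rw [Nat.coprime_primes hq (hL p (mem_insert_of_mem hp)).1]
        rintro rfl
        exact hqL hp)
      have b2 := Jr_bd (J := J) hx1
      rw [abs_le] at b1 b2 ⊢
      have b3 : (Jr J q x : ℝ) * E ≤ ((J : ℝ) / q + 1) * E :=
        mul_le_mul_of_nonneg_right (by linarith [b2.2]) hE0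
      have b4 : (L.card : ℝ) * V ^ r ≤ (n - 1) * V ^ r :=
        mul_le_mul_of_nonneg_right (by linarith) (by linarith)
      have b5 : ((Jr J q x : ℝ) - (J : ℝ) / q) * P ≤ 1 := by nlinarith [b2.1, b2.2]
      have b6 : -1 ≤ ((Jr J q x : ℝ) - (J : ℝ) / q) * P := by nlinarith [b2.1, b2.2]
      constructor <;> nlinarith [b1.1, b1.2]
    have a2 : |∑ x ∈ R, (S B L (a + m * x) (m * q) (Jr J q x) : ℝ) - J * rho B q * P|
        ≤ J * rho B q * E + g B q * ((n + 1) * V ^ r) := by
      have e2 : ∑ x ∈ R, (S B L (a + m * x) (m * q) (Jr J q x) : ℝ) - J * rho B q * P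
          = ∑ x ∈ R, ((S B L (a + m * x) (m * q) (Jr J q x) : ℝ) - (J : ℝ) / q * P) := by
        rw [sum_sub_distrib, sum_const, hRc, nsmul_eq_mul, rho]; ring
      rw [e2]
      refine (abs_sum_le_sum_abs _ _).trans ((sum_le_card_nsmul _ _ _ a1).trans (le_of_eq ?_))
      rw [hRc, nsmul_eq_mul, rho]; ring
    have a3 : (g B q : ℝ) * ((n + 1) * V ^ r) ≤ V ^ (r + 1) := by
      have : (g B q : ℝ) ≤ n := by exact_mod_cast hg
      have h2 : (g B q : ℝ) * (n + 1) ≤ V := by
        have : (g B q : ℝ) * (n + 1) ≤ n * (n + 1) := by gcongr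
        nlinarith
      rw [pow_succ, ← mul_assoc, mul_comm (V ^ r)]
      exact mul_le_mul_of_nonneg_right h2 (by linarith)
    have a4 : l ^ (r + 1) / (r + 1).factorial + rho B q * E
        ≤ (rho B q + l) ^ (r + 1) / (r + 1).factorial := by
      have h0 := rho_nonneg B q
      have h2 : l ^ (r + 1) + (r + 1) * l ^ r * rho B q ≤ (l + rho B q) ^ (r + 1) := by
        have := pow_add_mul_le_add_pow (a := l) (b := rho B q) hl0 (by linarith) (r + 1)
        simpa using this
      have hf : (0 : ℝ) < r.factorial := by exact_mod_cast r.factorial_pos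
      rw [hEd, Nat.factorial_succ, add_comm (rho B q) l, le_div_iff₀ (by positivity)]
      refine le_trans (le_of_eq ?_) h2
      push_cast
      field_simp
    rw [prod_insert hqL, sum_insert hqL, card_insert_of_notMem hqL, ← hP, ← hl]
    have hJ : (0 : ℝ) ≤ J := by positivity
    have a5 := mul_le_mul_of_nonneg_left a4 hJ
    rw [abs_le] at a0 a2 ⊢
    push_cast at a0 a5 ⊢
    constructor <;> nlinarith [a0.1, a0.2, a2.1, a2.2]

end Pool.Agent.H18.Bonf
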