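import Mathlib

open Filter Topology Finset

namespace Pool.Agent.H18.CMOa

/-- completely multiplicative extension of values on primes -/
noncomputable def cm (a : ℕ → ℝ) (n : ℕ) : ℝ := (n.primeFactorsList.map a).prod

lemma cm_one (a : ℕ → ℝ) : cm a 1 = 1 := by simp [cm]

lemma cm_prime (a : ℕ → ℝ) {p : ℕ} (hp : p.Prime) : cm a p = a p := by
  simp [cm, Nat.primeFactorsList_prime hp]

lemma cm_mul (a : ℕ → ℝ) {m n : ℕ} (hm : m ≠ 0) (hn : n ≠ 0) :
    cm a (m * n) = cm a m * cm a n := by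
  unfold cm
  rw [((Nat.perm_primeFactorsList_mul hm hn).map a).prod_eq, List.map_append, List.prod_append]

lemma cm_congr {a b : ℕ → ℝ} {n : ℕ} (h : ∀ p ≤ n, a p = b p) : cm a n = cm b n := by
  unfold cm
  congr 1
  exact List.map_congr_left fun p hp => h p (Nat.le_of_mem_primeFactorsList hp)

lemma cm_abs_le {a b : ℕ → ℝ} (h : ∀ p, p.Prime → |a p| ≤ b p) (n : ℕ) (hn : n ≠ 0) :
    |cm a n| ≤ cm b n := by
  induction n using Nat.recOnMul with
  | zero => exact absurd rfl hn
  | one => simp [cm_one]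
  | prime p hp => rw [cm_prime a hp, cm_prime b hp]; exact h p hp
  | mul m n ihm ihn =>
    have hm : m ≠ 0 := left_ne_zero_of_mul hn
    have hn' : n ≠ 0 := right_ne_zero_of_mul hn
    rw [cm_mul a hm hn', cm_mul b hm hn', abs_mul]
    exact mul_le_mul (ihm hm) (ihn hn') (abs_nonneg _) ((abs_nonneg _).trans (ihm hm))

lemma cm_nonneg {b : ℕ → ℝ} (h : ∀ p, 0 ≤ b p) (n : ℕ) : 0 ≤ cm b n := by
  unfold cm
  refine List.prod_nonneg fun x hx => ?_
  obtain ⟨p, -, rfl⟩ := List.mem_map.mp hx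
  exact h p

lemma cm_rpow (b : ℕ → ℝ) (β : ℝ) (n : ℕ) (hn : n ≠ 0) :
    cm (fun p => (p : ℝ) ^ β * b p) n = (n : ℝ) ^ β * cm b n := by
  induction n using Nat.recOnMul with
  | zero => exact absurd rfl hn
  | one => simp [cm_one]
  | prime p hp => rw [cm_prime _ hp, cm_prime b hp]
  | mul m n ihm ihn =>
    have hm : m ≠ 0 := left_ne_zero_of_mul hn
    have hn' : n ≠ 0 := right_ne_zero_of_mul hn
    rw [cm_mul _ hm hn', cm_mul b hm hn', ihm hm, ihn hn', Nat.cast_mul,
      Real.mul_rpow (Nat.cast_nonneg m) (Nat.cast_nonneg n)]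
    ring

/-- queue recursion -/
lemma queue1 (q u : ℕ → ℝ) (t : ℕ) (h : ∀ n ≥ t, q (n + 1) ≤ max 0 (q n + u (n + 1)))
    (x : ℕ) (hx : t ≤ x) :
    q x ≤ q t + ∑ n ∈ Ioc t x, u n ∨ ∃ s, t ≤ s ∧ s ≤ x ∧ q x ≤ ∑ n ∈ Ioc s x, u n := by
  induction x, hx using Nat.le_induction with
  | base => left; simp
  | succ x hx ih =>
    rcases le_max_iff.mp (h x hx) with h0 | h1
    · right; exact ⟨x + 1, by omega, le_rfl, by simpa using h0⟩
    · rcases ih with ih | ⟨s, hs1, hs2, ih⟩
      · left; rw [Finset.sum_Ioc_succ_top hx]; linarith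
      · right; refine ⟨s, hs1, by omega, ?_⟩
        rw [Finset.sum_Ioc_succ_top hs2]; linarith

lemma queue (q u B : ℕ → ℝ) (h : ℕ → ℕ) (y : ℕ) (A : ℝ) (hA0 : 0 ≤ A) (hA : q y ≤ A)
    (hq : ∀ n ≥ y, q (n + 1) ≤ max 0 (q n + u (n + 1)))
    (hB : Monotone B) (hh : ∀ x > y, 1 ≤ h x)
    (h1 : ∀ x ≥ y, ∀ s ≥ y, x ≤ s + h x → s ≤ x → ∑ n ∈ Ioc s x, u n ≤ B x)
    (h2 : ∀ x, y + h x ≤ x → ∑ n ∈ Ioc (x - h x) x, u n ≤ 0) (x : ℕ) (hx : y ≤ x) :
    q x ≤ A + B x := by
  induction x using Nat.strong_induction_on with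
  | _ x ih =>
    by_cases hc : y + h x ≤ x ∧ y < x
    · obtain ⟨hc, hc'⟩ := hc
      have := hh x hc'
      rcases queue1 q u (x - h x) (fun n hn => hq n (by omega)) x (by omega) with
        h3 | ⟨s, hs1, hs2, h3⟩
      · have h4 := ih (x - h x) (by omega) (by omega)
        have h5 := hB (show x - h x ≤ x by omega)
        have h6 := h2 x hc
        linarith
      · have := h1 x hx s (by omega) (by omega) hs2
        linarith
    · rcases queue1 q u y hq x hx with h3 | ⟨s, hs1, hs2, h3⟩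
      · have := h1 x hx y le_rfl (by omega) hx
        linarith
      · have := h1 x hx s hs1 (by omega) hs2
        linarith

lemma dichotomy {n Z : ℕ} (hZ : 1 ≤ Z) (hn : Z ^ 3 < n) :
    (∃ a b, Z < a ∧ Z < b ∧ n = a * b) ∨ ∃ m q, q.Prime ∧ m ≤ Z ∧ n = m * q := by
  classical
  set m := Nat.findGreatest (· ∣ n) Z with hm
  have hmn : m ∣ n := Nat.findGreatest_spec (P := (· ∣ n)) hZ (one_dvd n)
  have hmZ : m ≤ Z := Nat.findGreatest_le Z
  obtain ⟨b, hb⟩ := hmn
  have hZ3 : Z ≤ Z ^ 3 := Nat.le_self_pow (by norm_num) Z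
  have hb1 : b ≠ 1 := by rintro rfl; omega
  have hm0 : 0 < m := Nat.pos_of_ne_zero (by rintro h; rw [h] at hb; omega)
  obtain ⟨c, hc⟩ := Nat.minFac_dvd b
  have hq := Nat.minFac_prime hb1
  set q := b.minFac
  have hmq : Z < m * q := by
    by_contra hcon
    refine Nat.findGreatest_is_greatest (P := (· ∣ n)) (k := m * q) ?_ (not_lt.mp hcon) ?_
    · rw [← hm]; nlinarith [hq.two_le]
    · exact ⟨c, by rw [hb, hc]; ring⟩
  by_cases h1 : Z < c
  · left; exact ⟨m * q, c, hmq, h1, by rw [hb, hc]; ring⟩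
  by_cases h2 : Z < m * c
  · left
    refine ⟨m * c, q, h2, ?_, by rw [hb, hc]; ring⟩
    by_contra h3
    have h4 : n = m * c * q := by rw [hb, hc]; ring
    have : m * c * q ≤ Z * Z * Z :=
      Nat.mul_le_mul (Nat.mul_le_mul hmZ (not_lt.mp h1)) (not_lt.mp h3)
    nlinarith
  · right; exact ⟨m * c, q, hq, not_lt.mp h2, by rw [hb, hc]; ring⟩

/-- capacity -/
noncomputable def cap (L : ℝ) (n : ℕ) : ℝ := if n.Prime then L * Real.log n else 0

/-- deficit -/
noncomputable def D (L : ℝ) (y : ℕ) : ℕ → ℝ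
  | 0 => 0
  | n + 1 => if n + 1 ≤ y then 0 else max 0 (D L y n + (1 - cap L (n + 1)))

/-- weights on primes -/
noncomputable def om (L : ℝ) (y : ℕ) (n : ℕ) : ℝ :=
  if n ≤ y then 0 else D L y (n - 1) + 1 - D L y n

lemma D_nonneg (L : ℝ) (y n : ℕ) : 0 ≤ D L y n := by
  cases n with
  | zero => simp [D]
  | succ n => unfold D; split_ifs; exacts [le_rfl, le_max_left _ _]

lemma D_small (L : ℝ) {y n : ℕ} (h : n ≤ y) : D L y n = 0 := by
  cases n with
  | zero => simp [D]
  | succ n => unfold D; rw [if_pos h]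

lemma cap_nonneg {L : ℝ} (hL : 0 ≤ L) (n : ℕ) : 0 ≤ cap L n := by
  unfold cap; split_ifs
  · exact mul_nonneg hL (Real.log_natCast_nonneg n)
  · exact le_rfl

lemma om_bounds {L : ℝ} (hL : 0 ≤ L) (y n : ℕ) : 0 ≤ om L y n ∧ om L y n ≤ cap L n := by
  have hc := cap_nonneg hL n
  unfold om
  split_ifs with h
  · exact ⟨le_rfl, hc⟩
  · obtain ⟨k, rfl⟩ : ∃ k, n = k + 1 := ⟨n - 1, by omega⟩
    have h0 := D_nonneg L y k
    have : D L y (k + 1) = max 0 (D L y k + (1 - cap L (k + 1))) := by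
      conv_lhs => unfold D
      rw [if_neg h]
    rw [this, Nat.add_sub_cancel]
    constructor
    · have : max 0 (D L y k + (1 - cap L (k + 1))) ≤ D L y k + 1 := max_le (by linarith) (by linarith)
      linarith
    · have := le_max_right 0 (D L y k + (1 - cap L (k + 1)))
      linarith

lemma om_sum_le (L : ℝ) (y a b : ℕ) (hab : a ≤ b) :
    ∑ n ∈ Ioc a b, om L y n ≤ (b : ℝ) - a + D L y a - D L y b := by
  induction b, hab using Nat.le_induction with
  | base => simp
  | succ b hb ih =>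
    rw [Finset.sum_Ioc_succ_top hb]
    have : om L y (b + 1) ≤ D L y b + 1 - D L y (b + 1) := by
      unfold om
      split_ifs with h
      · rw [D_small L h, D_small L (show b ≤ y by omega)]; norm_num
      · simp
    push_cast
    linarith

lemma om_sum_eq (L : ℝ) (y a b : ℕ) (ha : y ≤ a) (hab : a ≤ b) :
    ∑ n ∈ Ioc a b, om L y n = (b : ℝ) - a + D L y a - D L y b := by
  induction b, hab using Nat.le_induction with
  | base => simp
  | succ b hb ih =>
    rw [Finset.sum_Ioc_succ_top hb, ih]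
    unfold om
    rw [if_neg (by omega), Nat.add_sub_cancel]
    push_cast
    ring

lemma D_le {L : ℝ} (hL : 0 ≤ L) (y : ℕ) (l : ℕ → ℕ) (hl : Monotone l) (hl1 : ∀ x > y, 1 ≤ l x)
    (H : ∀ x, y + l x ≤ x → (l x : ℝ) ≤ ∑ n ∈ Ioc (x - l x) x, cap L n) (x : ℕ) :
    D L y x ≤ l x := by
  by_cases hx : x ≤ y
  · rw [D_small L hx]; positivity
  have := queue (D L y) (fun n => 1 - cap L n) (fun x => (l x : ℝ)) l y 0 le_rfl
    (D_small L le_rfl).le ?_ (fun a b hab => Nat.cast_le.mpr (hl hab)) hl1 ?_ ?_ x (by omega)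
  · simpa using this
  · intro n hn
    conv_lhs => unfold D
    rw [if_neg (by omega)]
  · intro x _ s _ h1 h2
    calc ∑ n ∈ Ioc s x, (1 - cap L n) ≤ ∑ n ∈ Ioc s x, (1 : ℝ) :=
          Finset.sum_le_sum fun n _ => by linarith [cap_nonneg hL n]
      _ = ((x - s : ℕ) : ℝ) := by simp
      _ ≤ l x := by exact_mod_cast (by omega)
  · intro x hx
    rw [Finset.sum_sub_distrib]
    have := H x hx
    have h2 : ∑ n ∈ Ioc (x - l x) x, (1 : ℝ) = l x := by
      simp only [Finset.sum_const, Nat.card_Ioc, nsmul_eq_mul, mul_one]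
      congr 1; omega
    linarith

/-- the values of `W` on primes -/
noncomputable def Wp (L : ℝ) (y p : ℕ) : ℝ := om L y p / Real.log p ^ 3

lemma Wp_nonneg {L : ℝ} (hL : 0 ≤ L) (y p : ℕ) : 0 ≤ Wp L y p :=
  div_nonneg (om_bounds hL y p).1 (pow_nonneg (Real.log_natCast_nonneg p) _)

lemma W_bound {L : ℝ} (hL : 0 ≤ L) {y : ℕ} (hy : 2 ≤ y) (hLy : 4 * L ≤ Real.log y ^ 2)
    (n : ℕ) (hn : 2 ≤ n) :
    cm (Wp L y) n ≤ L / Real.log n ^ 2 ∧ (n ≤ y → cm (Wp L y) n = 0) := by
  induction n using Nat.recOnMul with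
  | zero => omega
  | one => omega
  | prime p hp =>
    rw [cm_prime _ hp]
    have hlp : 0 < Real.log p := Real.log_pos (by exact_mod_cast hp.one_lt)
    constructor
    · have := (om_bounds hL y p).2
      rw [cap, if_pos hp] at this
      unfold Wp
      rw [div_le_div_iff₀ (by positivity) (by positivity)]
      calc om L y p * Real.log p ^ 2 ≤ L * Real.log p * Real.log p ^ 2 :=
            mul_le_mul_of_nonneg_right this (by positivity)
        _ = _ := by ring
    · intro h; simp [Wp, om, h]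
  | mul a b iha ihb =>
    have ha0 : a ≠ 0 := by rintro rfl; omega
    have hb0 : b ≠ 0 := by rintro rfl; omega
    by_cases ha1 : a = 1
    · subst ha1; rw [one_mul] at hn ⊢; exact ihb hn
    by_cases hb1 : b = 1
    · subst hb1; rw [mul_one] at hn ⊢; exact iha hn
    obtain ⟨a1, a2⟩ := iha (by omega)
    obtain ⟨b1, b2⟩ := ihb (by omega)
    rw [cm_mul _ ha0 hb0]
    by_cases hay : a ≤ y
    · rw [a2 hay, zero_mul]; exact ⟨by positivity, fun _ => rfl⟩
    by_cases hby : b ≤ y
    · rw [b2 hby, mul_zero]; exact ⟨by positivity, fun _ => rfl⟩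
    refine ⟨?_, fun h => absurd (le_trans (Nat.le_mul_of_pos_right a (by omega)) h) hay⟩
    have hy0 : (0 : ℝ) < y := by exact_mod_cast (show 0 < y by omega)
    have hly : 0 < Real.log y := Real.log_pos (by exact_mod_cast hy)
    have hla : Real.log y ≤ Real.log a :=
      Real.log_le_log hy0 (by exact_mod_cast (not_le.mp hay).le)
    have hlb : Real.log y ≤ Real.log b :=
      Real.log_le_log hy0 (by exact_mod_cast (not_le.mp hby).le)
    rw [Nat.cast_mul, Real.log_mul (by exact_mod_cast ha0) (by exact_mod_cast hb0)]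
    set s := Real.log a
    set t := Real.log b
    set r := Real.log y
    have hs : 0 < s := by linarith
    have ht : 0 < t := by linarith
    refine (mul_le_mul a1 b1 (cm_nonneg (Wp_nonneg hL y) b) (by positivity)).trans ?_
    rw [div_mul_div_comm, div_le_div_iff₀ (by positivity) (by positivity)]
    have e1 : r * (s + t) ≤ 2 * (s * t) := by nlinarith
    have e2 : (r * (s + t)) ^ 2 ≤ (2 * (s * t)) ^ 2 := pow_le_pow_left₀ (by positivity) e1 2
    have e3 : 4 * L * (s + t) ^ 2 ≤ r ^ 2 * (s + t) ^ 2 :=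
      mul_le_mul_of_nonneg_right hLy (by positivity)
    have e4 : L * (s + t) ^ 2 ≤ s ^ 2 * t ^ 2 := by nlinarith
    calc L * L * (s + t) ^ 2 = L * (L * (s + t) ^ 2) := by ring
      _ ≤ _ := mul_le_mul_of_nonneg_left e4 hL

lemma W_le_one {L : ℝ} (hL : 0 ≤ L) {y : ℕ} (hy : 2 ≤ y) (hLy : 4 * L ≤ Real.log y ^ 2)
    (n : ℕ) (hn : 1 ≤ n) : cm (Wp L y) n ≤ 1 := by
  by_cases h1 : n = 1
  · rw [h1, cm_one]
  obtain ⟨a1, a2⟩ := W_bound hL hy hLy n (by omega)
  by_cases hny : n ≤ y
  · rw [a2 hny]; exact zero_le_one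
  have hy0 : (0 : ℝ) < y := by exact_mod_cast (show 0 < y by omega)
  have hly : 0 < Real.log y := Real.log_pos (by exact_mod_cast hy)
  have hla : Real.log y ≤ Real.log n :=
    Real.log_le_log hy0 (by exact_mod_cast (not_le.mp hny).le)
  refine a1.trans ?_
  rw [div_le_one (by have : 0 < Real.log n := by linarith
                     positivity)]
  nlinarith

lemma W_sum {L : ℝ} (hL : 0 ≤ L) {y : ℕ} (hy : 2 ≤ y) (hLy : 4 * L ≤ Real.log y ^ 2) (Z : ℕ) :
    ∑ m ∈ Icc 2 Z, cm (Wp L y) m / m ≤ L / Real.log y := by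
  have hly : 0 < Real.log y := Real.log_pos (by exact_mod_cast hy)
  have key : ∀ Z, ∑ m ∈ Icc 2 Z, cm (Wp L y) m / m ≤
      L / Real.log y - L / Real.log (max y Z : ℕ) := by
    intro Z
    induction Z with
    | zero => simp
    | succ Z ih =>
      by_cases hZ : Z + 1 ≤ y
      · rw [max_eq_left hZ, sub_self]
        refine le_of_eq (Finset.sum_eq_zero fun m hm => ?_)
        rw [Finset.mem_Icc] at hm
        rw [(W_bound hL hy hLy m hm.1).2 (by omega), zero_div]
      · rw [Finset.sum_Icc_succ_top (by omega), max_eq_right (by omega)]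
        rw [max_eq_right (by omega)] at ih
        have a1 := (W_bound hL hy hLy (Z + 1) (by omega)).1
        have hZ2 : (2 : ℝ) ≤ Z := by exact_mod_cast (show 2 ≤ Z by omega)
        push_cast at a1 ⊢
        have hs : 0 < Real.log Z := Real.log_pos (by linarith)
        have hst : Real.log Z ≤ Real.log (Z + 1) := Real.log_le_log (by linarith) (by linarith)
        have hd : 1 / ((Z : ℝ) + 1) ≤ Real.log (Z + 1) - Real.log Z := by
          have h3 := Real.log_le_sub_one_of_pos (show (0 : ℝ) < Z / (Z + 1) by positivity)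
          rw [Real.log_div (by positivity) (by positivity)] at h3
          have : (Z : ℝ) / (Z + 1) - 1 = -(1 / (Z + 1)) := by field_simp; ring
          linarith
        set s := Real.log Z
        set t := Real.log ((Z : ℝ) + 1)
        have ht : 0 < t := by linarith
        have h5 : cm (Wp L y) (Z + 1) / ((Z : ℝ) + 1) ≤ L / s - L / t := by
          calc cm (Wp L y) (Z + 1) / ((Z : ℝ) + 1) = cm (Wp L y) (Z + 1) * (1 / (Z + 1)) := by ring
            _ ≤ L / t ^ 2 * (t - s) := mul_le_mul a1 hd (by positivity) (by positivity)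
            _ ≤ L / (s * t) * (t - s) := by
              refine mul_le_mul_of_nonneg_right ?_ (by linarith)
              exact div_le_div_of_nonneg_left hL (by positivity) (by nlinarith)
            _ = _ := by field_simp
        linarith
  have h2 : 0 ≤ L / Real.log (max y Z : ℕ) := div_nonneg hL (Real.log_natCast_nonneg _)
  linarith [key Z]

lemma om_not_prime {L : ℝ} (hL : 0 ≤ L) (y : ℕ) {n : ℕ} (hn : ¬ n.Prime) : om L y n = 0 := by
  have := om_bounds hL y n
  rw [cap, if_neg hn] at this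
  linarith [this.1, this.2]

lemma sum_multiples (F : ℕ → ℝ) (a b m : ℕ) (hm : 0 < m) :
    ∑ n ∈ Ioc a b, (if m ∣ n then F (n / m) else 0) = ∑ q ∈ Ioc (a / m) (b / m), F q := by
  rw [← Finset.sum_filter]
  refine Finset.sum_nbij' (fun n => n / m) (fun q => m * q) ?_ ?_ ?_ ?_ ?_
  · intro n hn
    simp only [Finset.mem_filter, Finset.mem_Ioc] at hn ⊢
    obtain ⟨⟨h1, h2⟩, c, rfl⟩ := hn
    refine ⟨?_, Nat.div_le_div_right h2⟩
    rw [Nat.mul_div_cancel_left _ hm, Nat.div_lt_iff_lt_mul hm, mul_comm]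
    exact h1
  · intro q hq
    simp only [Finset.mem_filter, Finset.mem_Ioc] at hq ⊢
    refine ⟨⟨?_, ?_⟩, dvd_mul_right _ _⟩
    · rw [mul_comm]; exact (Nat.div_lt_iff_lt_mul hm).mp hq.1
    · rw [mul_comm]; exact (Nat.le_div_iff_mul_le hm).mp hq.2
  · intro n hn
    simp only [Finset.mem_filter] at hn
    exact Nat.mul_div_cancel' hn.2
  · intro q _
    exact Nat.mul_div_cancel_left _ hm
  · intro n _; rfl

lemma window {L : ℝ} (hL : 0 ≤ L) {y : ℕ} (hy : 2 ≤ y) (hLy : 4 * L ≤ Real.log y ^ 2)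
    (hLy2 : 192 * L ≤ Real.log y) (l : ℕ → ℕ) (hl : Monotone l) (hD : ∀ x, D L y x ≤ l x)
    {β : ℝ} (hβ0 : 0 ≤ β) (hβ1 : β ≤ 1) (x h Z : ℕ)
    (c1 : y + h ≤ x) (c2 : 2 * h ≤ x) (c3 : 2 * l x ≤ h) (c4 : Z * (1 + l x) ≤ 2 * h)
    (c5 : 2 * Z ^ 3 ≤ x) (hZ : 2 ≤ Z)
    (c6 : 8 * L ^ 2 * Real.log x ^ 3 ≤ Real.log (Z + 1) ^ 4) :
    ∑ n ∈ Ioc (x - h) x, (if n.Prime then -((n : ℝ) ^ β * cm (Wp L y) n)
      else (n : ℝ) ^ β * cm (Wp L y) n) ≤ 0 := by
  set W := cm (Wp L y) with hW
  have hW0 : ∀ n, 0 ≤ W n := cm_nonneg (Wp_nonneg hL y)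
  have hx2 : (2 : ℝ) ≤ x := by exact_mod_cast (show 2 ≤ x by omega)
  have hlx : 0 < Real.log x := Real.log_pos (by linarith)
  have hly : 0 < Real.log y := Real.log_pos (by exact_mod_cast hy)
  set w : ℝ := 1 / Real.log x ^ 3 with hw
  have hw0 : 0 < w := by positivity
  have hxβ : 0 < (x : ℝ) ^ β := by positivity
  have pt : ∀ n ∈ Ioc (x - h) x, (if n.Prime then -((n : ℝ) ^ β * W n) else (n : ℝ) ^ β * W n)
      ≤ (x : ℝ) ^ β * w * (-(om L y n / 2) + 1 / 8 +
        8 * ∑ m ∈ Icc 2 Z, W m * (if m ∣ n then om L y (n / m) else 0)) := by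
    intro n hn
    rw [Finset.mem_Ioc] at hn
    have hn2 : x < 2 * n := by omega
    have hnr : (x : ℝ) / 2 ≤ n := by
      have : (x : ℝ) ≤ 2 * n := by exact_mod_cast hn2.le
      linarith
    have hnx : (n : ℝ) ≤ x := by exact_mod_cast hn.2
    have hS : 0 ≤ ∑ m ∈ Icc 2 Z, W m * (if m ∣ n then om L y (n / m) else 0) :=
      Finset.sum_nonneg fun m _ => mul_nonneg (hW0 m) (by
        split_ifs; exacts [(om_bounds hL y _).1, le_rfl])
    have ho := (om_bounds hL y n).1
    split_ifs with hp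
    · have e1 : (x : ℝ) ^ β / 2 ≤ (n : ℝ) ^ β := by
        have a1 : ((x : ℝ) / 2) ^ β ≤ (n : ℝ) ^ β := Real.rpow_le_rpow (by positivity) hnr hβ0
        rw [Real.div_rpow (by positivity) (by norm_num)] at a1
        refine le_trans (div_le_div_of_nonneg_left hxβ.le (by positivity) ?_) a1
        calc (2 : ℝ) ^ β ≤ 2 ^ (1 : ℝ) := Real.rpow_le_rpow_of_exponent_le (by norm_num) hβ1
          _ = 2 := Real.rpow_one 2
      have hln : 0 < Real.log n := Real.log_pos (by exact_mod_cast hp.one_lt)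
      have e2 : w * om L y n ≤ W n := by
        rw [hW, cm_prime _ hp, Wp, hw, one_div_mul_eq_div]
        exact div_le_div_of_nonneg_left ho (by positivity)
          (pow_le_pow_left₀ hln.le (Real.log_le_log (by linarith) hnx) 3)
      have e3 : (x : ℝ) ^ β / 2 * (w * om L y n) ≤ (n : ℝ) ^ β * W n :=
        mul_le_mul e1 e2 (by positivity) (by positivity)
      have e4 : 0 ≤ (x : ℝ) ^ β * w * (1 / 8 +
        8 * ∑ m ∈ Icc 2 Z, W m * (if m ∣ n then om L y (n / m) else 0)) := by positivity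
      nlinarith
    · rw [om_not_prime hL y hp, mul_assoc]
      refine mul_le_mul (Real.rpow_le_rpow (by positivity) hnx hβ0) ?_ (hW0 n) hxβ.le
      rcases dichotomy (n := n) (Z := Z) (by omega) (by omega) with
        ⟨a, b, ha, hb, rfl⟩ | ⟨m, q, hq, hm, rfl⟩
      · have hZr : (2 : ℝ) ≤ Z := by exact_mod_cast hZ
        have hlZ : 0 < Real.log (Z + 1) := Real.log_pos (by linarith)
        have b1 : ∀ a : ℕ, Z < a → W a ≤ L / Real.log (Z + 1) ^ 2 := by
          intro a ha
          refine (W_bound hL hy hLy a (by omega)).1.trans ?_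
          refine div_le_div_of_nonneg_left hL (by positivity) (pow_le_pow_left₀ hlZ.le ?_ 2)
          exact Real.log_le_log (by linarith) (by exact_mod_cast ha)
        have b2 : W (a * b) ≤ w * (1 / 8) := by
          rw [hW, cm_mul _ (by omega) (by omega)]
          refine (mul_le_mul (b1 a ha) (b1 b hb) (hW0 b) (by positivity)).trans ?_
          rw [hw, div_mul_div_comm, div_mul_div_comm, div_le_div_iff₀ (by positivity)
            (by positivity)]
          nlinarith
        have : 0 ≤ w * (8 * ∑ m ∈ Icc 2 Z, W m * (if m ∣ a * b then om L y (a * b / m) else 0)) :=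
          by positivity
        nlinarith
      · have hm0 : m ≠ 0 := by rintro rfl; omega
        have hm1 : m ≠ 1 := by rintro rfl; rw [one_mul] at hp; exact hp hq
        have hlq : 0 < Real.log q := Real.log_pos (by exact_mod_cast hq.one_lt)
        have b0 : x ≤ q ^ 2 := by
          have a1 : x ≤ 2 * Z * q := by nlinarith
          have a2 : 4 * Z ^ 2 ≤ x := by nlinarith
          by_contra hc
          have a3 : x * x ≤ (2 * Z * q) * (2 * Z * q) := Nat.mul_le_mul a1 a1
          have a4 : 4 * Z ^ 2 * q ^ 2 ≤ x * q ^ 2 := Nat.mul_le_mul_right _ a2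
          have a5 : x * q ^ 2 < x * x := Nat.mul_lt_mul_of_pos_left (not_le.mp hc) (by omega)
          nlinarith
        have b1 : Real.log x ≤ 2 * Real.log q := by
          have := Real.log_le_log (by linarith) (show (x : ℝ) ≤ (q : ℝ) ^ 2 by exact_mod_cast b0)
          rwa [Real.log_pow, Nat.cast_ofNat] at this
        have hoq := (om_bounds hL y q).1
        have b2 : W q ≤ 8 * w * om L y q := by
          rw [hW, cm_prime _ hq, Wp, hw, div_le_iff₀ (by positivity)]
          have a1 : Real.log x ^ 3 ≤ (2 * Real.log q) ^ 3 := pow_le_pow_left₀ hlx.le b1 3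
          have a2 : 1 ≤ 8 * (1 / Real.log x ^ 3) * Real.log q ^ 3 := by
            rw [mul_one_div, div_mul_eq_mul_div, le_div_iff₀ (by positivity)]
            nlinarith
          nlinarith
        have b3 : W m * om L y q ≤
            ∑ k ∈ Icc 2 Z, W k * (if k ∣ m * q then om L y (m * q / k) else 0) := by
          have := Finset.single_le_sum
            (f := fun k => W k * (if k ∣ m * q then om L y (m * q / k) else 0))
            (s := Icc 2 Z) (fun k _ => mul_nonneg (hW0 k) (by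
              split_ifs; exacts [(om_bounds hL y _).1, le_rfl]))
            (show m ∈ Icc 2 Z from Finset.mem_Icc.mpr ⟨by omega, hm⟩)
          simpa [Nat.mul_div_cancel_left q (Nat.pos_of_ne_zero hm0)] using this
        rw [hW, cm_mul _ hm0 hq.ne_zero, ← hW]
        have b4 : W m * W q ≤ W m * (8 * w * om L y q) := mul_le_mul_of_nonneg_left b2 (hW0 m)
        have b5 := mul_le_mul_of_nonneg_left b3 (show 0 ≤ 8 * w by positivity)
        nlinarith
  refine (Finset.sum_le_sum pt).trans ?_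
  rw [← Finset.mul_sum]
  refine mul_nonpos_of_nonneg_of_nonpos (by positivity) ?_
  rw [Finset.sum_add_distrib, Finset.sum_add_distrib, ← Finset.mul_sum, Finset.sum_comm,
    Finset.sum_neg_distrib, ← Finset.sum_div, om_sum_eq L y _ _ (by omega) (by omega)]
  have s1 : ∑ n ∈ Ioc (x - h) x, (1 / 8 : ℝ) = h / 8 := by
    simp only [Finset.sum_const, Nat.card_Ioc, nsmul_eq_mul]
    rw [show x - (x - h) = h by omega]; ring
  have s2 : ∑ m ∈ Icc 2 Z, ∑ n ∈ Ioc (x - h) x, W m * (if m ∣ n then om L y (n / m) else 0)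
      ≤ ∑ m ∈ Icc 2 Z, 3 * h * (W m / m) := by
    refine Finset.sum_le_sum fun m hm => ?_
    rw [Finset.mem_Icc] at hm
    have hm0 : (0 : ℝ) < m := by exact_mod_cast (show 0 < m by omega)
    rw [← Finset.mul_sum, sum_multiples (om L y) _ _ m (by omega)]
    have a1 := om_sum_le L y ((x - h) / m) (x / m) (Nat.div_le_div_right (by omega))
    have a2 := D_nonneg L y (x / m)
    have a3 : D L y ((x - h) / m) ≤ l x := (hD _).trans (Nat.cast_le.mpr
      (hl ((Nat.div_le_self _ _).trans (by omega))))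
    have a4 : ((x / m : ℕ) : ℝ) ≤ x / m := Nat.cast_div_le
    have a5 : ((x : ℝ) - h) / m ≤ (((x - h) / m : ℕ) : ℝ) + 1 := by
      rw [div_le_iff₀ hm0, ← Nat.cast_sub (by omega)]
      have := Nat.lt_div_mul_add (a := x - h) (show 0 < m by omega)
      have h7 : ((x - h : ℕ) : ℝ) ≤ (((x - h) / m * m + m : ℕ) : ℝ) := by exact_mod_cast this.le
      push_cast at h7
      linarith
    have a6 : (1 : ℝ) + l x ≤ 2 * h / m := by
      rw [le_div_iff₀ hm0]
      have : (1 + l x) * m ≤ 2 * h := by nlinarith [hm.2]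
      exact_mod_cast this
    have a7 : ∑ q ∈ Ioc ((x - h) / m) (x / m), om L y q ≤ 3 * h / m := by
      have e1 : ((x : ℝ) - h) / m = x / m - h / m := by ring
      have e2 : (3 : ℝ) * h / m = h / m + 2 * h / m := by ring
      linarith
    calc W m * ∑ q ∈ Ioc ((x - h) / m) (x / m), om L y q ≤ W m * (3 * h / m) :=
          mul_le_mul_of_nonneg_left a7 (hW0 m)
      _ = _ := by ring
  rw [← Finset.mul_sum] at s2
  have s3 := W_sum hL hy hLy Z
  have s4 : L / Real.log y ≤ 1 / 192 := by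
    rw [div_le_div_iff₀ hly (by norm_num)]; linarith
  have s5 : (3 : ℝ) * h * ∑ m ∈ Icc 2 Z, W m / m ≤ 3 * h * (1 / 192) :=
    mul_le_mul_of_nonneg_left (s3.trans s4) (by positivity)
  have s6 := hD x
  have s7 := D_nonneg L y (x - h)
  have s8 : (2 : ℝ) * l x ≤ h := by exact_mod_cast c3
  rw [s1, Nat.cast_sub (by omega)]
  linarith

end Pool.Agent.H18.CMOa
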