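import Mathlib

open Filter Topology Finset

namespace Pool.Agent.H18.MOsum

/-- weight `n^{-σ}` -/
noncomputable def w (σ : ℝ) (n : ℕ) : ℝ := (n : ℝ) ^ (-σ)

lemma w_nonneg (σ : ℝ) (n : ℕ) : 0 ≤ w σ n := Real.rpow_nonneg (Nat.cast_nonneg n) _

lemma w_one (σ : ℝ) : w σ 1 = 1 := by simp [w]

lemma w_mul (σ : ℝ) (m n : ℕ) : w σ (m * n) = w σ m * w σ n := by
  unfold w
  rw [Nat.cast_mul, Real.mul_rpow (Nat.cast_nonneg m) (Nat.cast_nonneg n)]

lemma w_pow (σ : ℝ) (p e : ℕ) : w σ (p ^ e) = w σ p ^ e := by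
  induction e with
  | zero => simp [w_one]
  | succ e ih => rw [pow_succ, w_mul, ih, pow_succ]

lemma w_le_one {σ : ℝ} (hσ : 0 ≤ σ) {n : ℕ} (hn : 1 ≤ n) : w σ n ≤ 1 :=
  Real.rpow_le_one_of_one_le_of_nonpos (by exact_mod_cast hn) (by linarith)

lemma w_succ (σ : ℝ) {n : ℕ} (hn : 1 ≤ n) : w (1 + σ) n = w σ n / n := by
  have h : (0 : ℝ) < n := by exact_mod_cast hn
  unfold w
  rw [show -(1 + σ) = -σ - 1 by ring, Real.rpow_sub h, Real.rpow_one]

lemma w_diff {σ : ℝ} (hσ : 0 ≤ σ) {n : ℕ} (hn : 1 ≤ n) :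
    |w σ n - w σ (n + 1)| ≤ σ / n := by
  have h : (0 : ℝ) < n := by exact_mod_cast hn
  have h1 : (1 : ℝ) ≤ n := by exact_mod_cast hn
  have hq : (0 : ℝ) < 1 + 1 / n := by positivity
  have e1 : w σ (n + 1) = w σ n * (1 + 1 / (n : ℝ)) ^ (-σ) := by
    unfold w
    rw [← Real.mul_rpow h.le hq.le]
    congr 1
    push_cast
    field_simp
  have hl : Real.log (1 + 1 / (n : ℝ)) ≤ 1 / n := by
    have := Real.log_le_sub_one_of_pos hq
    linarith
  have hl0 : 0 ≤ Real.log (1 + 1 / (n : ℝ)) := Real.log_nonneg (by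
    have : (0 : ℝ) ≤ 1 / n := by positivity
    linarith)
  have e2 : 1 - σ / n ≤ (1 + 1 / (n : ℝ)) ^ (-σ) := by
    rw [Real.rpow_def_of_pos hq]
    have := Real.add_one_le_exp (Real.log (1 + 1 / (n : ℝ)) * -σ)
    have h3 : Real.log (1 + 1 / (n : ℝ)) * σ ≤ 1 / n * σ := mul_le_mul_of_nonneg_right hl hσ
    have h4 : σ / n = 1 / n * σ := by ring
    linarith
  have e3 : (1 + 1 / (n : ℝ)) ^ (-σ) ≤ 1 :=
    Real.rpow_le_one_of_one_le_of_nonpos (by
      have : (0 : ℝ) ≤ 1 / n := by positivity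
      linarith) (by linarith)
  have w0 := w_nonneg σ n
  have w1 := w_le_one hσ hn
  rw [e1, abs_le]
  have hσn : 0 ≤ σ / n := by positivity
  constructor
  · nlinarith
  · nlinarith

/-- Abel summation bound. -/
lemma abel (f : ℕ → ℂ) (h0 : f 0 = 0) {σ : ℝ} (hσ : 0 ≤ σ) (C : ℝ)
    (hS : ∀ N ≥ 1, ‖∑ n ∈ range (N + 1), f n‖ ≤ C / N) (N : ℕ) (hN : 1 ≤ N) :
    ‖∑ n ∈ range (N + 1), f n * (w σ n : ℂ) - (w σ N : ℂ) * ∑ n ∈ range (N + 1), f n‖
      ≤ C * σ * (2 - 2 / N) := by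
  induction N, hN using Nat.le_induction with
  | base => simp [Finset.sum_range_succ, h0, w_one]
  | succ N hN ih =>
    have hNr : (1 : ℝ) ≤ N := by exact_mod_cast hN
    have hC : 0 ≤ C := by
      have := (norm_nonneg _).trans (hS 1 le_rfl)
      simpa using this
    have e : ∑ n ∈ range (N + 1 + 1), f n * (w σ n : ℂ)
        - (w σ (N + 1) : ℂ) * ∑ n ∈ range (N + 1 + 1), f n
        = (∑ n ∈ range (N + 1), f n * (w σ n : ℂ) - (w σ N : ℂ) * ∑ n ∈ range (N + 1), f n)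
          + ((w σ N - w σ (N + 1) : ℝ) : ℂ) * ∑ n ∈ range (N + 1), f n := by
      rw [Finset.sum_range_succ _ (N + 1), Finset.sum_range_succ f (N + 1)]
      push_cast
      ring
    rw [e]
    refine (norm_add_le _ _).trans ?_
    have h2 : ‖((w σ N - w σ (N + 1) : ℝ) : ℂ) * ∑ n ∈ range (N + 1), f n‖ ≤ σ / N * (C / N) := by
      rw [norm_mul, Complex.norm_real, Real.norm_eq_abs]
      exact mul_le_mul (w_diff hσ hN) (hS N hN) (norm_nonneg _) (by positivity)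
    have h3 : σ / N * (C / N) ≤ C * σ * (2 / N - 2 / (N + 1)) := by
      have : (1 : ℝ) / N * (1 / N) ≤ 2 / N - 2 / (N + 1) := by
        rw [div_sub_div _ _ (by positivity) (by positivity), div_mul_div_comm,
          div_le_div_iff₀ (by positivity) (by positivity)]
        nlinarith
      calc σ / N * (C / N) = C * σ * (1 / N * (1 / N)) := by ring
        _ ≤ _ := mul_le_mul_of_nonneg_left this (by positivity)
    rw [Nat.cast_add_one]
    nlinarith

lemma summable_w {s : ℝ} (hs : 1 < s) : Summable (w s) := by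
  unfold w
  exact Real.summable_nat_rpow.mpr (by linarith)

lemma norm_term (f : ℕ → ℂ) (σ : ℝ) (n : ℕ) : ‖f n * (w σ n : ℂ)‖ = ‖f n‖ * w σ n := by
  rw [norm_mul, Complex.norm_real, Real.norm_eq_abs, abs_of_nonneg (w_nonneg σ n)]

lemma summable_norm (f : ℕ → ℂ) {σ : ℝ} (hσ : 0 < σ) (δ : ℝ) (N0 : ℕ)
    (hf : ∀ n ≥ N0, ‖f n‖ ≤ δ / n) : Summable fun n => ‖f n * (w σ n : ℂ)‖ := by
  refine Summable.of_norm_bounded_eventually_nat
    ((summable_w (s := 1 + σ) (by linarith)).mul_left δ) ?_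
  filter_upwards [eventually_ge_atTop N0, eventually_ge_atTop 1] with n hn hn1
  rw [norm_norm, norm_term, w_succ σ hn1]
  calc ‖f n‖ * w σ n ≤ δ / n * w σ n := mul_le_mul_of_nonneg_right (hf n hn) (w_nonneg σ n)
    _ = _ := by ring

lemma upper (f : ℕ → ℂ) (h0 : f 0 = 0) {σ : ℝ} (hσ : 0 < σ) (δ : ℝ) (N0 : ℕ)
    (hf : ∀ n ≥ N0, ‖f n‖ ≤ δ / n) (C : ℝ)
    (hS : ∀ N ≥ 1, ‖∑ n ∈ range (N + 1), f n‖ ≤ C / N) :
    ‖∑' n, f n * (w σ n : ℂ)‖ ≤ 2 * C * σ := by
  have hC : 0 ≤ C := by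
    have := (norm_nonneg _).trans (hS 1 le_rfl)
    simpa using this
  have hs := (summable_norm f hσ δ N0 hf).of_norm.hasSum.tendsto_sum_nat
  have hs' := (hs.comp (tendsto_add_atTop_nat 1)).norm
  have h2 : Tendsto (fun N : ℕ => 2 * C * σ + C / N) atTop (𝓝 (2 * C * σ + 0)) :=
    tendsto_const_nhds.add (tendsto_const_div_atTop_nhds_zero_nat C)
  rw [add_zero] at h2
  refine le_of_tendsto_of_tendsto hs' h2 ?_
  filter_upwards [eventually_ge_atTop 1] with N hN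
  have hNr : (1 : ℝ) ≤ N := by exact_mod_cast hN
  have a1 := abel f h0 hσ.le C hS N hN
  have a2 : ‖(w σ N : ℂ) * ∑ n ∈ range (N + 1), f n‖ ≤ C / N := by
    rw [norm_mul, Complex.norm_real, Real.norm_eq_abs, abs_of_nonneg (w_nonneg σ N)]
    calc w σ N * ‖∑ n ∈ range (N + 1), f n‖ ≤ 1 * (C / N) :=
          mul_le_mul (w_le_one hσ.le hN) (hS N hN) (norm_nonneg _) zero_le_one
      _ = _ := one_mul _
  have a3 := norm_add_le
    (∑ n ∈ range (N + 1), f n * (w σ n : ℂ) - (w σ N : ℂ) * ∑ n ∈ range (N + 1), f n)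
    ((w σ N : ℂ) * ∑ n ∈ range (N + 1), f n)
  rw [sub_add_cancel] at a3
  have a4 : 0 ≤ C * σ * (2 / N) := by positivity
  simp only [Function.comp]
  nlinarith

/-- partial Euler products of zeta -/
lemma zeta_prod {s : ℝ} (hs : 1 < s) (N : ℕ) :
    1 ≤ (∏ p ∈ N.primesBelow, (1 - w s p)) * ∑' n, w s n := by
  let W : ℕ →* ℝ := { toFun := w s, map_one' := w_one s, map_mul' := w_mul s }
  have hW : Summable W := summable_w hs
  have h1 := EulerProduct.prod_primesBelow_geometric_eq_tsum_smoothNumbers hW N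
  have h2 : ∑' m : N.smoothNumbers, W m ≤ ∑' n, w s n :=
    Summable.tsum_subtype_le (w s) _ (w_nonneg s) (summable_w hs)
  have hpos : ∀ p ∈ N.primesBelow, 0 < 1 - w s p := by
    intro p hp
    have hp2 : (2 : ℝ) ≤ p := by exact_mod_cast (Nat.prime_of_mem_primesBelow hp).two_le
    have : w s p < 1 := Real.rpow_lt_one_of_one_lt_of_neg (by linarith) (by linarith)
    linarith
  have hP : 0 < ∏ p ∈ N.primesBelow, (1 - w s p) := Finset.prod_pos hpos
  rw [← h1, Finset.prod_inv_distrib] at h2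
  calc (1 : ℝ) = (∏ p ∈ N.primesBelow, (1 - w s p)) * (∏ p ∈ N.primesBelow, (1 - w s p))⁻¹ :=
        (mul_inv_cancel₀ hP.ne').symm
    _ ≤ _ := mul_le_mul_of_nonneg_left h2 hP.le

/-- local factor at a large prime -/
lemma local_large (f : ℕ → ℂ) (h1 : f 1 = 1) {σ : ℝ} (hσ : 0 < σ) {δ γ : ℝ} (_hδ : 0 ≤ δ)
    (hγ0 : 0 ≤ γ) (hγ : γ ≤ 1) (N0 : ℕ)
    (hf : ∀ n ≥ N0, ‖f n‖ ≤ δ / n) {p : ℕ} (hp : 2 ≤ p) (hpN : N0 ≤ p)
    (hpγ : δ ≤ γ * (1 - 1 / p)) :
    (1 - w (1 + σ) p) ^ γ ≤ ‖∑' e, f (p ^ e) * (w σ (p ^ e) : ℂ)‖ := by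
  set t := w (1 + σ) p with ht
  have hp1 : 1 ≤ p := by omega
  have hpr : (2 : ℝ) ≤ p := by exact_mod_cast hp
  have t0 : 0 ≤ t := w_nonneg _ _
  have tp : t ≤ 1 / p := by
    rw [ht, w_succ σ hp1]
    exact div_le_div_of_nonneg_right (w_le_one hσ.le hp1) (by positivity)
  have hp2 : (1 : ℝ) / p ≤ 1 / 2 := one_div_le_one_div_of_le (by norm_num) hpr
  have t1 : t < 1 := by linarith
  have hinj : Function.Injective (fun e : ℕ => p ^ e) := Nat.pow_right_injective hp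
  have hsum : Summable fun e : ℕ => ‖f (p ^ e) * (w σ (p ^ e) : ℂ)‖ :=
    (summable_norm f hσ δ N0 hf).comp_injective hinj
  have hb : ∀ e : ℕ, ‖f (p ^ (e + 1)) * (w σ (p ^ (e + 1)) : ℂ)‖ ≤ δ * t * t ^ e := by
    intro e
    have hge : p ≤ p ^ (e + 1) := Nat.le_self_pow (by omega) p
    have h3 : w (1 + σ) (p ^ (e + 1)) = t * t ^ e := by rw [w_pow, pow_succ']
    rw [norm_term, mul_assoc, ← h3, w_succ σ (hp1.trans hge)]
    calc ‖f (p ^ (e + 1))‖ * w σ (p ^ (e + 1))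
        ≤ δ / ((p ^ (e + 1) : ℕ) : ℝ) * w σ (p ^ (e + 1)) :=
          mul_le_mul_of_nonneg_right (hf _ (hpN.trans hge)) (w_nonneg _ _)
      _ = _ := by ring
  have hg : HasSum (fun e : ℕ => δ * t * t ^ e) (δ * t * (1 - t)⁻¹) :=
    (hasSum_geometric_of_lt_one t0 t1).mul_left _
  have htail : ‖∑' e, f (p ^ (e + 1)) * (w σ (p ^ (e + 1)) : ℂ)‖ ≤ δ * t * (1 - t)⁻¹ :=
    tsum_of_norm_bounded hg hb
  have hγt : δ * t * (1 - t)⁻¹ ≤ γ * t := by
    have h5 : δ ≤ γ * (1 - t) := hpγ.trans (mul_le_mul_of_nonneg_left (by linarith) hγ0)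
    rw [← div_eq_mul_inv, div_le_iff₀ (by linarith)]
    nlinarith
  rw [hsum.of_norm.tsum_eq_zero_add]
  simp only [pow_zero, h1, w_one, Complex.ofReal_one, mul_one]
  have hB := rpow_one_add_le_one_add_mul_self (s := -t) (by linarith) hγ0 hγ
  have h6 := norm_sub_norm_le (1 : ℂ) (-(∑' e, f (p ^ (e + 1)) * (w σ (p ^ (e + 1)) : ℂ)))
  rw [norm_neg, sub_neg_eq_add, norm_one] at h6
  rw [sub_eq_add_neg]
  linarith

/-- local factor tends to its value at `σ = 0` -/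
lemma local_tendsto (f : ℕ → ℂ) (δ : ℝ) (N0 : ℕ)
    (hf : ∀ n ≥ N0, ‖f n‖ ≤ δ / n) {p : ℕ} (hp : 2 ≤ p) {c : ℂ}
    (hc : Tendsto (fun K => ∑ k ∈ range K, f (p ^ k)) atTop (𝓝 c)) :
    Tendsto (fun σ : ℝ => ∑' e, f (p ^ e) * (w σ (p ^ e) : ℂ)) (𝓝[>] 0) (𝓝 c) := by
  have hpr : (2 : ℝ) ≤ p := by exact_mod_cast hp
  have hs : Summable fun e : ℕ => ‖f (p ^ e)‖ := by
    have hg : Summable fun e : ℕ => δ * ((p : ℝ)⁻¹) ^ e :=
      (summable_geometric_of_lt_one (by positivity)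
        (inv_lt_one_of_one_lt₀ (by linarith))).mul_left δ
    refine Summable.of_norm_bounded_eventually_nat hg ?_
    filter_upwards [eventually_ge_atTop N0] with e he
    rw [norm_norm]
    have := hf (p ^ e) (he.trans (Nat.lt_pow_self (by omega)).le)
    rw [inv_pow, ← div_eq_mul_inv]
    exact_mod_cast this
  have hc' : c = ∑' e, f (p ^ e) := tendsto_nhds_unique hc hs.of_norm.hasSum.tendsto_sum_nat
  rw [hc']
  refine tendsto_tsum_of_dominated_convergence hs ?_ ?_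
  · intro e
    have hpe : (0 : ℝ) < ((p ^ e : ℕ) : ℝ) := by positivity
    have hcont : Continuous fun σ : ℝ => f (p ^ e) * (w σ (p ^ e) : ℂ) := by
      unfold w
      have : Continuous fun σ : ℝ => ((p ^ e : ℕ) : ℝ) ^ (-σ) :=
        (Real.continuous_const_rpow hpe.ne').comp continuous_neg
      fun_prop
    have := (hcont.tendsto 0).mono_left (nhdsWithin_le_nhds (s := Set.Ioi 0))
    simpa [w] using this
  · filter_upwards [self_mem_nhdsWithin] with σ hσ e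
    rw [norm_term]
    exact mul_le_of_le_one_right (norm_nonneg _)
      (w_le_one (le_of_lt hσ) (Nat.one_le_pow _ _ (by omega)))

theorem core (f : ℕ → ℂ) (h0 : f 0 = 0) (h1 : f 1 = 1)
    (hmul : ∀ {m n : ℕ}, Nat.Coprime m n → f (m * n) = f m * f n)
    (hloc : ∀ p : ℕ, p.Prime → ∃ c : ℂ, c ≠ 0 ∧
      Tendsto (fun K => ∑ k ∈ range K, f (p ^ k)) atTop (𝓝 c))
    {δ : ℝ} (hδ0 : 0 ≤ δ) (hδ : δ < 1) (N0 : ℕ) (hf : ∀ n ≥ N0, ‖f n‖ ≤ δ / n)
    (C : ℝ) (hS : ∀ N ≥ 1, ‖∑ n ∈ range (N + 1), f n‖ ≤ C / N) : False := by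
  classical
  set γ : ℝ := (1 + δ) / 2 with hγ
  have hγ0 : 0 < γ := by linarith
  have hγ1 : γ < 1 := by linarith
  obtain ⟨P, hP⟩ : ∃ P : ℕ, ∀ p ≥ P, N0 ≤ p ∧ δ ≤ γ * (1 - 1 / (p : ℝ)) := by
    have h2 : Tendsto (fun p : ℕ => γ * (1 - 1 / (p : ℝ))) atTop (𝓝 (γ * (1 - 0))) :=
      (tendsto_const_nhds.sub (tendsto_const_div_atTop_nhds_zero_nat 1)).const_mul γ
    have h3 := h2.eventually (eventually_ge_nhds (show δ < γ * (1 - 0) by linarith))
    exact eventually_atTop.mp ((eventually_ge_atTop N0).and h3)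
  choose! c hc0 hc using hloc
  let Fp : ℝ → ℕ → ℂ := fun σ p => ∑' e, f (p ^ e) * (w σ (p ^ e) : ℂ)
  let A : ℝ → ℝ := fun σ => ∏ p ∈ P.primesBelow, ‖Fp σ p‖
  have hA : Tendsto A (𝓝[>] 0) (𝓝 (∏ p ∈ P.primesBelow, ‖c p‖)) := by
    refine tendsto_finsetProd _ fun p hp => ?_
    have hpp := Nat.prime_of_mem_primesBelow hp
    exact (local_tendsto f δ N0 hf hpp.two_le (hc p hpp)).norm
  have hA0 : 0 < ∏ p ∈ P.primesBelow, ‖c p‖ :=
    Finset.prod_pos fun p hp => norm_pos_iff.mpr (hc0 p (Nat.prime_of_mem_primesBelow hp))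
  let Z : ℝ → ℝ := fun σ => ∑' n, w (1 + σ) n
  have key : ∀ σ : ℝ, 0 < σ → A σ ≤ 2 * C * σ * Z σ ^ γ := by
    intro σ hσ
    have hs := summable_norm f hσ δ N0 hf
    have hE := (EulerProduct.eulerProduct (f := fun n => f n * (w σ n : ℂ))
      (by simp [h1, w_one]) (fun {m n} hmn => by
        simp only [hmul hmn, w_mul]; push_cast; ring) hs (by simp [h0])).norm
    have hZ0 : 0 ≤ Z σ := tsum_nonneg (w_nonneg _)
    have hZγ : 0 ≤ Z σ ^ γ := Real.rpow_nonneg hZ0 _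
    have hlow : A σ ≤ ‖∑' n, f n * (w σ n : ℂ)‖ * Z σ ^ γ := by
      refine ge_of_tendsto (hE.mul_const (Z σ ^ γ)) ?_
      filter_upwards [eventually_ge_atTop P] with N hN
      rw [norm_prod]
      have hpos : ∀ p ∈ N.primesBelow, 0 ≤ 1 - w (1 + σ) p := fun p hp =>
        sub_nonneg.mpr (w_le_one (by linarith) (Nat.prime_of_mem_primesBelow hp).one_le)
      have hz := zeta_prod (s := 1 + σ) (by linarith) N
      have hz' : 1 ≤ (∏ p ∈ N.primesBelow, (1 - w (1 + σ) p) ^ γ) * Z σ ^ γ := by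
        rw [Real.finsetProd_rpow _ _ hpos, ← Real.mul_rpow (Finset.prod_nonneg hpos) hZ0]
        exact Real.one_le_rpow hz hγ0.le
      have hA' : A σ = ∏ p ∈ N.primesBelow, (if p < P then ‖Fp σ p‖ else 1) := by
        rw [← Finset.prod_filter]
        refine Finset.prod_congr ?_ fun _ _ => rfl
        ext p
        simp only [Nat.mem_primesBelow, Finset.mem_filter]
        constructor
        · rintro ⟨a, b⟩; exact ⟨⟨by omega, b⟩, a⟩
        · rintro ⟨⟨_, b⟩, a⟩; exact ⟨a, b⟩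
      have hA0' : 0 ≤ A σ := Finset.prod_nonneg fun _ _ => norm_nonneg _
      have hle : A σ * ∏ p ∈ N.primesBelow, (1 - w (1 + σ) p) ^ γ
          ≤ ∏ p ∈ N.primesBelow, ‖Fp σ p‖ := by
        rw [hA', ← Finset.prod_mul_distrib]
        refine Finset.prod_le_prod ?_ ?_
        · intro p hp
          refine mul_nonneg ?_ (Real.rpow_nonneg (hpos p hp) _)
          split_ifs
          · exact norm_nonneg _
          · exact zero_le_one
        · intro p hp
          have hpp := Nat.prime_of_mem_primesBelow hp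
          split_ifs with h
          · refine mul_le_of_le_one_right (norm_nonneg _) ?_
            exact Real.rpow_le_one (hpos p hp) (by linarith [w_nonneg (1 + σ) p]) hγ0.le
          · rw [one_mul]
            obtain ⟨a, b⟩ := hP p (by omega)
            exact local_large f h1 hσ hδ0 hγ0.le hγ1.le N0 hf hpp.two_le a b
      calc A σ = A σ * 1 := (mul_one _).symm
        _ ≤ A σ * ((∏ p ∈ N.primesBelow, (1 - w (1 + σ) p) ^ γ) * Z σ ^ γ) :=
          mul_le_mul_of_nonneg_left hz' hA0'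
        _ = (A σ * ∏ p ∈ N.primesBelow, (1 - w (1 + σ) p) ^ γ) * Z σ ^ γ := by ring
        _ ≤ _ := mul_le_mul_of_nonneg_right hle hZγ
    exact hlow.trans (mul_le_mul_of_nonneg_right (upper f h0 hσ δ N0 hf C hS) hZγ)
  have hZ : Tendsto (fun σ : ℝ => σ * Z σ) (𝓝[>] 0) (𝓝 1) := by
    have h2 : Tendsto (fun σ : ℝ => 1 + σ) (𝓝[>] 0) (𝓝[>] 1) := by
      refine tendsto_nhdsWithin_iff.mpr ⟨?_, ?_⟩
      · have : Tendsto (fun σ : ℝ => 1 + σ) (𝓝 0) (𝓝 (1 + 0)) :=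
          tendsto_const_nhds.add tendsto_id
        rw [add_zero] at this
        exact this.mono_left nhdsWithin_le_nhds
      · filter_upwards [self_mem_nhdsWithin] with σ hσ
        simpa using hσ
    have h3 := tendsto_sub_mul_tsum_nat_rpow.comp h2
    refine h3.congr fun σ => ?_
    simp only [Function.comp, Z, w, add_sub_cancel_left]
    congr 2
    ext n
    rw [Real.rpow_neg (Nat.cast_nonneg n), one_div]
  have hlim : Tendsto (fun σ : ℝ => 2 * C * (σ ^ (1 - γ) * (σ * Z σ) ^ γ)) (𝓝[>] 0)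
      (𝓝 (2 * C * (0 * 1 ^ γ))) := by
    refine Tendsto.const_mul _ (Tendsto.mul ?_ (hZ.rpow_const (Or.inl one_ne_zero)))
    have : Tendsto (fun σ : ℝ => σ ^ (1 - γ)) (𝓝 0) (𝓝 (0 ^ (1 - γ))) :=
      tendsto_id.rpow_const (Or.inr (by linarith))
    rw [Real.zero_rpow (by linarith)] at this
    exact this.mono_left nhdsWithin_le_nhds
  rw [zero_mul, mul_zero] at hlim
  have : ∏ p ∈ P.primesBelow, ‖c p‖ ≤ 0 := by
    refine le_of_tendsto_of_tendsto hA hlim ?_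
    filter_upwards [self_mem_nhdsWithin] with σ hσ
    have hσ' : 0 < σ := hσ
    have hZ0 : 0 ≤ Z σ := tsum_nonneg (w_nonneg _)
    have e : σ ^ (1 - γ) * (σ * Z σ) ^ γ = σ * Z σ ^ γ := by
      rw [Real.mul_rpow hσ'.le hZ0, ← mul_assoc, ← Real.rpow_add hσ']
      simp
    rw [e, ← mul_assoc]
    exact key σ hσ'
  linarith

/-- lower bound for the partial sums, along the integers -/
theorem main (f : ℕ → ℂ) (h1 : f 1 = 1)
    (hmul : ∀ m n : ℕ, 0 < m → 0 < n → Nat.Coprime m n → f (m * n) = f m * f n)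
    (hloc : ∀ p : ℕ, p.Prime → ∃ c : ℂ, c ≠ 0 ∧
      Tendsto (fun K => ∑ k ∈ range K, f (p ^ k)) atTop (𝓝 c))
    {L : ℝ} (hL : L < 1 / 2) :
    ∃ᶠ N : ℕ in atTop, L < N * ‖∑ n ∈ Icc 1 N, f n‖ := by
  classical
  by_contra hcon
  rw [Filter.not_frequently] at hcon
  obtain ⟨N1, hN1⟩ := eventually_atTop.mp hcon
  simp only [not_lt] at hN1
  have hL0 : 0 ≤ L := le_trans (by positivity) (hN1 N1 le_rfl)
  let g : ℕ → ℂ := fun n => if n = 0 then 0 else f n
  have hg : ∀ N : ℕ, ∑ n ∈ range (N + 1), g n = ∑ n ∈ Icc 1 N, f n := by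
    intro N
    induction N with
    | zero => simp [g]
    | succ N ih => rw [Finset.sum_range_succ, ih, Finset.sum_Icc_succ_top (by omega)]; simp [g]
  have hb : ∀ N ≥ N1, 1 ≤ N → ‖∑ n ∈ range (N + 1), g n‖ ≤ L / N := by
    intro N hN hN'
    have : (0 : ℝ) < N := by exact_mod_cast hN'
    rw [hg, le_div_iff₀ this, mul_comm]
    exact hN1 N hN
  obtain ⟨C, hC⟩ : ∃ C : ℝ, ∀ N ≥ 1, ‖∑ n ∈ range (N + 1), g n‖ ≤ C / N := by
    refine ⟨L + ∑ M ∈ range N1, M * ‖∑ n ∈ range (M + 1), g n‖, fun N hN => ?_⟩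
    have hN' : (0 : ℝ) < N := by exact_mod_cast hN
    have h0 : 0 ≤ ∑ M ∈ range N1, (M : ℝ) * ‖∑ n ∈ range (M + 1), g n‖ :=
      Finset.sum_nonneg fun _ _ => by positivity
    by_cases h : N1 ≤ N
    · refine (hb N h hN).trans (div_le_div_of_nonneg_right (by linarith) hN'.le)
    · rw [le_div_iff₀ hN', mul_comm]
      have := Finset.single_le_sum (f := fun M : ℕ => (M : ℝ) * ‖∑ n ∈ range (M + 1), g n‖)
        (fun _ _ => by positivity) (Finset.mem_range.mpr (not_le.mp h))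
      linarith
  obtain ⟨N2, hN2⟩ : ∃ N2 : ℕ, ∀ n ≥ N2, L * (2 + 1 / (n : ℝ)) ≤ L + 1 / 2 := by
    have h2 : Tendsto (fun n : ℕ => L * (2 + 1 / (n : ℝ))) atTop (𝓝 (L * (2 + 0))) :=
      (tendsto_const_nhds.add (tendsto_const_div_atTop_nhds_zero_nat 1)).const_mul L
    exact eventually_atTop.mp
      (h2.eventually (eventually_le_nhds (show L * (2 + 0) < L + 1 / 2 by linarith)))
  refine core g (by simp [g]) (by simp [g, h1]) ?_ ?_ (δ := L + 1 / 2) (by linarith)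
    (by linarith) (N1 + N2 + 2) ?_ C hC
  · intro m n hmn
    rcases Nat.eq_zero_or_pos m with rfl | hm
    · simp [g]
    rcases Nat.eq_zero_or_pos n with rfl | hn
    · simp [g]
    simp only [g, hm.ne', hn.ne', mul_eq_zero, or_self, if_false]
    exact hmul m n hm hn hmn
  · intro p hp
    obtain ⟨c, hc0, hc⟩ := hloc p hp
    refine ⟨c, hc0, hc.congr fun K => Finset.sum_congr rfl fun k _ => ?_⟩
    simp [g, hp.ne_zero]
  · intro n hn
    obtain ⟨k, rfl⟩ : ∃ k, n = k + 1 := ⟨n - 1, by omega⟩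
    have hk : (1 : ℝ) ≤ k := by exact_mod_cast (show 1 ≤ k by omega)
    have a1 := hb (k + 1) (by omega) (by omega)
    have a2 := hb k (by omega) (by omega)
    have a3 : g (k + 1) = ∑ n ∈ range (k + 1 + 1), g n - ∑ n ∈ range (k + 1), g n := by
      rw [Finset.sum_range_succ g (k + 1)]; ring
    have a4 := hN2 k (by omega)
    rw [a3]
    refine (norm_sub_le _ _).trans ((add_le_add a1 a2).trans ?_)
    push_cast
    have e : L / (k + 1) + L / k = L * (2 + 1 / (k : ℝ)) / (k + 1) := by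
      field_simp
      ring
    rw [e]
    exact div_le_div_of_nonneg_right a4 (by positivity)

end Pool.Agent.H18.MOsum
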