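import Mathlib
import Pool.Agent.H18.CMOa
import Pool.Agent.H18.MOsum

open Filter Topology Finset

namespace Pool.Agent.H18.CMOb

open Pool.Agent.H18.CMOa Pool.Agent.H18.MOsum

noncomputable def clamp (t u : ℝ) : ℝ := max (-u) (min t u)

lemma abs_clamp_le (t : ℝ) {u : ℝ} (hu : 0 ≤ u) : |clamp t u| ≤ u := by
  unfold clamp
  rw [abs_le]
  exact ⟨le_max_left _ _, max_le (by linarith) (min_le_right _ _)⟩

lemma abs_sub_clamp (t : ℝ) {u : ℝ} (hu : 0 ≤ u) : |t - clamp t u| ≤ max 0 (|t| - u) := by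
  unfold clamp
  rcases le_total t u with h | h
  · rw [min_eq_left h]
    rcases le_total (-u) t with h2 | h2
    · rw [max_eq_right h2]; simp
    · rw [max_eq_left h2, abs_of_nonpos (by linarith), abs_of_nonpos (by linarith)]
      exact le_max_of_le_right (by linarith)
  · rw [min_eq_right h, max_eq_right (by linarith), abs_of_nonneg (by linarith),
      abs_of_nonneg (by linarith)]
    exact le_max_right _ _

/-- values on primes -/
noncomputable def av (y : ℕ) (U : ℕ → ℝ) (p : ℕ) : ℝ :=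
  if p ≤ 2 * y then -U p else if p ≤ 8 * y then 0 else
    -clamp (∑ n ∈ Icc 1 (p - 1), cm (fun m => if _h : m < p then av y U m else 0) n) (U p)
termination_by p

lemma av_eq (y : ℕ) (U : ℕ → ℝ) (p : ℕ) (hp : 8 * y < p) :
    av y U p = -clamp (∑ n ∈ Icc 1 (p - 1), cm (av y U) n) (U p) := by
  rw [av, if_neg (by omega), if_neg (by omega)]
  congr 2
  refine Finset.sum_congr rfl fun n hn => cm_congr fun q hq => ?_
  rw [Finset.mem_Icc] at hn
  rw [dif_pos (by omega)]

lemma av_abs (y : ℕ) (U : ℕ → ℝ) (hU : ∀ p, 0 ≤ U p) (p : ℕ) : |av y U p| ≤ U p := by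
  rw [av]
  split_ifs
  · rw [abs_neg, abs_of_nonneg (hU p)]
  · simpa using hU p
  · rw [abs_neg]; exact abs_clamp_le _ (hU p)

lemma w_diff' {σ : ℝ} (hσ : 1 ≤ σ) (hσ2 : σ ≤ 2) {n : ℕ} (hn : 1 ≤ n) :
    |w σ n - w σ (n + 1)| ≤ 2 * w 2 n := by
  have h : (0 : ℝ) < n := by exact_mod_cast hn
  have h1 : (1 : ℝ) ≤ n := by exact_mod_cast hn
  have hq : (0 : ℝ) < 1 + 1 / n := by positivity
  have e1 : w σ (n + 1) = w σ n * (1 + 1 / (n : ℝ)) ^ (-σ) := by
    unfold w
    rw [← Real.mul_rpow h.le hq.le]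
    congr 1
    push_cast
    field_simp
  have hl : Real.log (1 + 1 / (n : ℝ)) ≤ 1 / n := by
    have := Real.log_le_sub_one_of_pos hq
    linarith
  have e2 : 1 - σ / n ≤ (1 + 1 / (n : ℝ)) ^ (-σ) := by
    rw [Real.rpow_def_of_pos hq]
    have := Real.add_one_le_exp (Real.log (1 + 1 / (n : ℝ)) * -σ)
    have h3 : Real.log (1 + 1 / (n : ℝ)) * σ ≤ 1 / n * σ :=
      mul_le_mul_of_nonneg_right hl (by linarith)
    have h4 : σ / n = 1 / n * σ := by ring
    linarith
  have e3 : (1 + 1 / (n : ℝ)) ^ (-σ) ≤ 1 :=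
    Real.rpow_le_one_of_one_le_of_nonpos (by
      have : (0 : ℝ) ≤ 1 / n := by positivity
      linarith) (by linarith)
  have w0 := w_nonneg σ n
  have w1 : w σ n ≤ w 1 n := Real.rpow_le_rpow_of_exponent_le h1 (by linarith)
  have w2 : w 2 n = w 1 n / n := by rw [← w_succ 1 hn]; norm_num
  have e4 : |w σ n - w σ (n + 1)| = w σ n * (1 - (1 + 1 / (n : ℝ)) ^ (-σ)) := by
    rw [e1, abs_of_nonneg (by nlinarith)]; ring
  rw [e4, w2]
  have e5 : σ / n ≤ 2 / n := div_le_div_of_nonneg_right hσ2 h.le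
  calc w σ n * (1 - (1 + 1 / (n : ℝ)) ^ (-σ)) ≤ w 1 n * (2 / n) :=
        mul_le_mul w1 (by linarith) (by linarith) (w_nonneg _ _)
    _ = _ := by ring

lemma w_add (a b : ℝ) {n : ℕ} (hn : 1 ≤ n) : w (a + b) n = w a n * w b n := by
  have h : (0 : ℝ) < n := by exact_mod_cast hn
  unfold w
  rw [neg_add, Real.rpow_add h]

lemma abel_id (g : ℕ → ℝ) (σ : ℝ) (N : ℕ) :
    ∑ n ∈ Icc 1 N, g n * w σ n = ∑ k ∈ range N, (∑ n ∈ Icc 1 k, g n) * (w σ k - w σ (k + 1))
      + (∑ n ∈ Icc 1 N, g n) * w σ N := by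
  induction N with
  | zero => simp
  | succ N ih =>
    rw [Finset.sum_Icc_succ_top (by omega), ih, Finset.sum_range_succ,
      Finset.sum_Icc_succ_top (by omega : 1 ≤ N + 1)]
    ring

/-- from small partial sums and a sign change to a zero with a rate -/
lemma analysis (g : ℕ → ℝ) {θ κ C : ℝ} (hκ : 0 < κ) (hθ : θ + κ < 1)
    (hM : ∀ N ≥ 1, |∑ n ∈ Icc 1 N, g n| ≤ C * w (-θ) N)
    (hneg : ∀ᶠ N in atTop,
      ∑ k ∈ range N, (∑ n ∈ Icc 1 k, g n) * (w 1 k - w 1 (k + 1)) ≤ 0)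
    (hpos : ∀ N ≥ 1, 0 ≤ ∑ n ∈ Icc 1 N, g n * w 2 n) :
    ∃ α C' : ℝ, ∀ N ≥ 1, |∑ n ∈ Icc 1 N, g n * w α n| ≤ C' * w κ N := by
  set M : ℕ → ℝ := fun N => ∑ n ∈ Icc 1 N, g n with hMdef
  have hC : 0 ≤ C := by
    have := (abs_nonneg _).trans (hM 1 le_rfl)
    simpa [w_one] using this
  let T : ℕ → ℝ → ℝ := fun k σ => M k * (w σ k - w σ (k + 1))
  have hT : ∀ k, ∀ σ ∈ Set.Icc (1 : ℝ) 2, ‖T k σ‖ ≤ 2 * C * w (2 - θ) k := by
    intro k σ hσ
    rcases Nat.eq_zero_or_pos k with rfl | hk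
    · have : T 0 σ = 0 := by simp [T, M]
      rw [this, norm_zero]
      exact mul_nonneg (by positivity) (w_nonneg _ _)
    · rw [Real.norm_eq_abs, abs_mul, show 2 - θ = -θ + 2 by ring, w_add _ _ hk]
      calc |M k| * |w σ k - w σ (k + 1)| ≤ C * w (-θ) k * (2 * w 2 k) :=
            mul_le_mul (hM k hk) (w_diff' hσ.1 hσ.2 hk) (abs_nonneg _)
              (mul_nonneg hC (w_nonneg _ _))
        _ = _ := by ring
  have hsum : Summable fun k => 2 * C * w (2 - θ) k := (summable_w (by linarith)).mul_left _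
  have hcont : ContinuousOn (fun σ => ∑' k, T k σ) (Set.Icc 1 2) := by
    refine continuousOn_tsum (fun k => ?_) hsum hT
    rcases Nat.eq_zero_or_pos k with rfl | hk
    · have : T 0 = fun _ => 0 := by ext σ; simp [T, M]
      rw [this]; exact continuousOn_const
    · have c1 : ∀ n : ℕ, 1 ≤ n → Continuous fun σ : ℝ => w σ n := fun n hn =>
        (Real.continuous_const_rpow (by positivity)).comp continuous_neg
      exact (continuous_const.mul ((c1 k hk).sub (c1 (k + 1) (by omega)))).continuousOn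
  have hs : ∀ σ ∈ Set.Icc (1 : ℝ) 2, Summable fun k => T k σ := fun σ hσ =>
    Summable.of_norm_bounded hsum fun k => hT k σ hσ
  have hsum2 : Summable fun k => 2 * C * w (2 - θ - κ) k :=
    (summable_w (by linarith)).mul_left _
  set K := ∑' k, 2 * C * w (2 - θ - κ) k with hK
  have tail : ∀ σ ∈ Set.Icc (1 : ℝ) 2, ∀ N ≥ 1,
      |∑ n ∈ Icc 1 N, g n * w σ n - ∑' k, T k σ| ≤ (K + C) * w κ N := by
    intro σ hσ N hN
    have hN1 : (1 : ℝ) ≤ N := by exact_mod_cast hN
    rw [abel_id, ← (hs σ hσ).sum_add_tsum_nat_add N]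
    have a1 : |M N * w σ N| ≤ C * w κ N := by
      rw [abs_mul, abs_of_nonneg (w_nonneg σ N)]
      calc |M N| * w σ N ≤ C * w (-θ) N * w σ N :=
            mul_le_mul_of_nonneg_right (hM N hN) (w_nonneg _ _)
        _ = C * w (-θ + σ) N := by rw [w_add _ _ hN]; ring
        _ ≤ C * w κ N := mul_le_mul_of_nonneg_left
            (Real.rpow_le_rpow_of_exponent_le hN1 (by linarith [hσ.1])) hC
    have a2 : ‖∑' k, T (k + N) σ‖ ≤ ∑' k, 2 * C * w (2 - θ - κ) (k + N) * w κ N := by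
      refine tsum_of_norm_bounded
        (((summable_nat_add_iff N).mpr hsum2).mul_right (w κ N)).hasSum fun k => ?_
      refine (hT _ σ hσ).trans ?_
      rw [show 2 - θ = 2 - θ - κ + κ by ring, w_add _ _ (by omega), ← mul_assoc,
        add_sub_cancel_right]
      refine mul_le_mul_of_nonneg_left ?_ (mul_nonneg (by positivity) (w_nonneg _ _))
      exact Real.rpow_le_rpow_of_nonpos (by linarith) (by push_cast; linarith [Nat.cast_nonneg (α := ℝ) k])
        (by linarith)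
    have a3 : ∑' k, 2 * C * w (2 - θ - κ) (k + N) ≤ K := by
      rw [hK, ← hsum2.sum_add_tsum_nat_add N]
      have : 0 ≤ ∑ k ∈ range N, 2 * C * w (2 - θ - κ) k :=
        Finset.sum_nonneg fun k _ => mul_nonneg (by positivity) (w_nonneg _ _)
      linarith
    rw [tsum_mul_right, Real.norm_eq_abs] at a2
    have a4 := mul_le_mul_of_nonneg_right a3 (w_nonneg κ N)
    have e : ∑ k ∈ range N, (∑ n ∈ Icc 1 k, g n) * (w σ k - w σ (k + 1))
        + (∑ n ∈ Icc 1 N, g n) * w σ N - (∑ i ∈ range N, T i σ + ∑' i, T (i + N) σ)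
        = M N * w σ N - ∑' i, T (i + N) σ := by
      simp only [T, M]; ring
    rw [e]
    refine (abs_sub _ _).trans ?_
    linarith
  have h1 : ∑' k, T k 1 ≤ 0 :=
    le_of_tendsto (hs 1 ⟨le_rfl, by norm_num⟩).hasSum.tendsto_sum_nat hneg
  have h2 : 0 ≤ ∑' k, T k 2 := by
    have t1 : Tendsto (fun N : ℕ => ∑' k, T k 2 + (K + C) * w κ N) atTop
        (𝓝 (∑' k, T k 2 + (K + C) * 0)) :=
      tendsto_const_nhds.add (((tendsto_rpow_neg_atTop hκ).comp
        tendsto_natCast_atTop_atTop).const_mul _)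
    rw [mul_zero, add_zero] at t1
    refine ge_of_tendsto t1 ?_
    filter_upwards [eventually_ge_atTop 1] with N hN
    have := (abs_le.mp (tail 2 ⟨by norm_num, le_rfl⟩ N hN)).2
    linarith [hpos N hN]
  obtain ⟨α, hα, h0⟩ := intermediate_value_Icc (show (1 : ℝ) ≤ 2 by norm_num) hcont ⟨h1, h2⟩
  refine ⟨α, K + C, fun N hN => ?_⟩
  have := tail α hα N hN
  simp only at h0
  rwa [h0, sub_zero] at this

lemma tele (a b : ℕ) (hab : a ≤ b) :
    ∑ k ∈ Ico a b, (w 1 k - w 1 (k + 1)) = w 1 a - w 1 b := by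
  induction b, hab using Nat.le_induction with
  | base => simp
  | succ b hb ih => rw [Finset.sum_Ico_succ_top hb, ih]; ring

lemma w_one_eq (n : ℕ) : w 1 n = 1 / n := by
  unfold w; rw [Real.rpow_neg (Nat.cast_nonneg n), Real.rpow_one, one_div]

lemma construct {L : ℝ} (hL : 0 ≤ L) {y : ℕ} (hy : 8 ≤ y) (hLy : 4 * L ≤ Real.log y ^ 2)
    (hLy2 : 192 * L ≤ Real.log y) (l h Z : ℕ → ℕ) (hl : Monotone l) (hh : Monotone h)
    (hl1 : ∀ x > y, 1 ≤ l x)
    (H : ∀ x, y + l x ≤ x → (l x : ℝ) ≤ ∑ n ∈ Ioc (x - l x) x, cap L n)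
    (c : ∀ x ≥ y, 2 * h x ≤ x ∧ 2 * l x ≤ h x ∧ Z x * (1 + l x) ≤ 2 * h x ∧ 2 * Z x ^ 3 ≤ x ∧
      2 ≤ Z x ∧ 8 * L ^ 2 * Real.log x ^ 3 ≤ Real.log (Z x + 1) ^ 4)
    {β θ κ : ℝ} (hβ0 : 0 ≤ β) (hβ1 : β ≤ 1) (hθ0 : 0 ≤ θ) (hκ : 0 < κ) (hθ : θ + κ < 1)
    (hB : ∀ x ≥ 1, (h x : ℝ) * (x : ℝ) ^ β ≤ 2 * w (-θ) x)
    (hbig : 8 * (∑' k, 6 * w (2 - θ) k + 1) * Real.log (2 * y : ℕ) ^ 3 ≤ (y : ℝ) ^ β) :
    ∃ (a : ℕ → ℝ) (α C' : ℝ), ∀ N ≥ 1, |∑ n ∈ Icc 1 N, cm a n * w α n| ≤ C' * w κ N := by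
  have hy2 : 2 ≤ y := by omega
  have hD := D_le hL y l hl hl1 H
  set W := cm (Wp L y) with hW
  have hW0 : ∀ n, 0 ≤ W n := cm_nonneg (Wp_nonneg hL y)
  let U : ℕ → ℝ := fun p => (p : ℝ) ^ β * Wp L y p
  have hU0 : ∀ p, 0 ≤ U p := fun p => mul_nonneg (by positivity) (Wp_nonneg hL y p)
  have hUp : ∀ p, p.Prime → U p = (p : ℝ) ^ β * W p := fun p hp => by rw [hW, cm_prime _ hp]
  set g := cm (av y U) with hg
  have hgU : ∀ n, n ≠ 0 → |g n| ≤ (n : ℝ) ^ β * W n := fun n hn => by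
    rw [hW, ← cm_rpow _ β n hn]
    exact cm_abs_le (fun p _ => av_abs y U hU0 p) n hn
  have hWc : ∀ n, 2 ≤ n → n ≤ 8 * y → ¬ n.Prime → W n = 0 := by
    intro n h2 h8 hp
    have a1 := Nat.minFac_sq_le_self (show 0 < n by omega) hp
    have a2 : n.minFac ≤ y := by
      by_contra hc
      nlinarith [not_le.mp hc]
    obtain ⟨k, hk⟩ := Nat.minFac_dvd n
    have a3 := Nat.minFac_prime (show n ≠ 1 by omega)
    have hk0 : k ≠ 0 := by rintro rfl; omega
    rw [hk, hW, cm_mul _ a3.ne_zero hk0, (W_bound hL hy2 hLy _ a3.two_le).2 a2, zero_mul]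
  have hgc : ∀ n, 2 ≤ n → n ≤ 8 * y → ¬ n.Prime → g n = 0 := by
    intro n h2 h8 hp
    have := hgU n (by omega)
    rw [hWc n h2 h8 hp, mul_zero] at this
    exact abs_nonpos_iff.mp this
  set M : ℕ → ℝ := fun N => ∑ n ∈ Icc 1 N, g n with hM
  have hMs : ∀ N, M (N + 1) = M N + g (N + 1) := fun N => Finset.sum_Icc_succ_top (by omega) _
  have hM1 : ∀ N, 1 ≤ N → N ≤ 2 * y → M N = 1 - ∑ n ∈ Ioc 1 N, (n : ℝ) ^ β * W n := by
    intro N h1 h2
    induction N, h1 using Nat.le_induction with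
    | base => simp [hM, hg, cm_one]
    | succ N hN ih =>
      rw [hMs, ih (by omega), Finset.sum_Ioc_succ_top hN]
      have : g (N + 1) = -(((N + 1 : ℕ) : ℝ) ^ β * W (N + 1)) := by
        by_cases hp : (N + 1).Prime
        · rw [hg, cm_prime _ hp, av, if_pos h2, hUp _ hp]
        · rw [hgc _ (by omega) (by omega) hp, hWc _ (by omega) (by omega) hp]; simp
      rw [this]; ring
  have hM2 : ∀ N, 2 * y ≤ N → N ≤ 8 * y → M N = M (2 * y) := by
    intro N h1 h2
    induction N, h1 using Nat.le_induction with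
    | base => rfl
    | succ N hN ih =>
      rw [hMs, ih (by omega)]
      have : g (N + 1) = 0 := by
        by_cases hp : (N + 1).Prime
        · rw [hg, cm_prime _ hp, av, if_neg (by omega), if_pos h2]
        · exact hgc _ (by omega) h2 hp
      rw [this, add_zero]
  set C1 := ∑' k, 6 * w (2 - θ) k with hC1
  have hC10 : 0 ≤ C1 := tsum_nonneg fun k => mul_nonneg (by norm_num) (w_nonneg _ _)
  set A := -M (2 * y) with hA
  have hyr : (8 : ℝ) ≤ y := by exact_mod_cast hy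
  have hAbig : 4 * C1 * y ≤ A := by
    have hl2 : 0 < Real.log (2 * y : ℕ) := Real.log_pos (by push_cast; linarith)
    have a1 : ∑ n ∈ Ioc y (2 * y), (n : ℝ) ^ β * W n ≤ ∑ n ∈ Ioc 1 (2 * y), (n : ℝ) ^ β * W n :=
      Finset.sum_le_sum_of_subset_of_nonneg (Finset.Ioc_subset_Ioc_left (by omega))
        fun n _ _ => mul_nonneg (by positivity) (hW0 n)
    have a2 : ∑ n ∈ Ioc y (2 * y), 8 * (C1 + 1) * om L y n
        ≤ ∑ n ∈ Ioc y (2 * y), (n : ℝ) ^ β * W n := by
      refine Finset.sum_le_sum fun n hn => ?_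
      rw [Finset.mem_Ioc] at hn
      by_cases hp : n.Prime
      · have hln : 0 < Real.log n := Real.log_pos (by exact_mod_cast hp.one_lt)
        rw [hW, cm_prime _ hp, Wp, ← mul_div_assoc, le_div_iff₀ (by positivity)]
        have b1 : Real.log n ^ 3 ≤ Real.log (2 * y : ℕ) ^ 3 :=
          pow_le_pow_left₀ hln.le (Real.log_le_log (by exact_mod_cast hp.pos)
            (by exact_mod_cast hn.2)) 3
        have b2 : (y : ℝ) ^ β ≤ (n : ℝ) ^ β :=
          Real.rpow_le_rpow (by positivity) (by exact_mod_cast hn.1.le) hβ0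
        have b3 : 8 * (C1 + 1) * Real.log n ^ 3 ≤ (n : ℝ) ^ β :=
          (mul_le_mul_of_nonneg_left b1 (by positivity)).trans (hbig.trans b2)
        have := mul_le_mul_of_nonneg_right b3 (om_bounds hL y n).1
        linarith
      · rw [om_not_prime hL y hp, mul_zero]
        exact mul_nonneg (by positivity) (hW0 n)
    rw [← Finset.mul_sum, om_sum_eq L y y (2 * y) le_rfl (by omega), D_small L le_rfl] at a2
    have a3 := hD (2 * y)
    obtain ⟨c1, c2, -⟩ := c (2 * y) (by omega)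
    have a4 : (l (2 * y) : ℝ) * 2 ≤ y := by exact_mod_cast (show l (2 * y) * 2 ≤ y by omega)
    have a5 : 8 * (C1 + 1) * (y / 2) ≤
        8 * (C1 + 1) * (((2 * y : ℕ) : ℝ) - y + 0 - D L y (2 * y)) :=
      mul_le_mul_of_nonneg_left (by push_cast; linarith) (by positivity)
    rw [hA, hM1 _ (by omega) le_rfl]
    linarith
  have hA0 : 0 ≤ A := le_trans (by positivity) hAbig
  have hM3 : ∀ N ≥ 8 * y, |M N| ≤ A + (h N : ℝ) * (N : ℝ) ^ β := by
    intro N hN
    refine queue (fun N => |M N|) (fun n => if n.Prime then -((n : ℝ) ^ β * W n)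
      else (n : ℝ) ^ β * W n) (fun x => (h x : ℝ) * (x : ℝ) ^ β) h (8 * y) A hA0 ?_ ?_ ?_ ?_ ?_ ?_
      N hN
    · show |M (8 * y)| ≤ A
      rw [hM2 _ (by omega) le_rfl, ← abs_neg, ← hA, abs_of_nonneg hA0]
    · intro n hn
      show |M (n + 1)| ≤ max 0 (|M n| + _)
      rw [hMs]
      split_ifs with hp
      · rw [hg, cm_prime _ hp, av_eq y U _ (by omega), Nat.add_sub_cancel, ← hUp _ hp]
        exact abs_sub_clamp _ (hU0 _)
      · exact le_max_of_le_right ((abs_add_le _ _).trans (by linarith [hgU (n + 1) (by omega)]))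
    · intro a b hab
      exact mul_le_mul (Nat.cast_le.mpr (hh hab))
        (Real.rpow_le_rpow (by positivity) (Nat.cast_le.mpr hab) hβ0) (by positivity)
        (by positivity)
    · intro x hx
      have := (c x (by omega)).2.1
      have := hl1 x (by omega)
      omega
    · intro x _ s hs h1 h2
      calc _ ≤ ∑ n ∈ Ioc s x, (x : ℝ) ^ β := by
            refine Finset.sum_le_sum fun n hn => ?_
            rw [Finset.mem_Ioc] at hn
            have b0 : 0 ≤ (n : ℝ) ^ β * W n := mul_nonneg (by positivity) (hW0 n)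
            have b1 : (n : ℝ) ^ β * W n ≤ (x : ℝ) ^ β :=
              (mul_le_of_le_one_right (by positivity) (W_le_one hL hy2 hLy n (by omega))).trans
                (Real.rpow_le_rpow (by positivity) (Nat.cast_le.mpr hn.2) hβ0)
            split_ifs <;> linarith
        _ = ((x - s : ℕ) : ℝ) * (x : ℝ) ^ β := by simp
        _ ≤ _ := mul_le_mul_of_nonneg_right (Nat.cast_le.mpr (by omega)) (by positivity)
    · intro x hx
      obtain ⟨c2, c3, c4, c5, c6, c7⟩ := c x (by omega)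
      exact window hL hy2 hLy hLy2 l hl hD hβ0 hβ1 x (h x) (Z x) (by omega) c2 c3 c4 c5 c6 c7
  have hw1 : ∀ N ≥ 1, 1 ≤ w (-θ) N := fun N hN =>
    Real.one_le_rpow (by exact_mod_cast hN) (by linarith)
  have hMle : ∀ N, 1 ≤ N → N ≤ 2 * y → -A ≤ M N ∧ M N ≤ 1 := by
    intro N h1 h2
    rw [hA, neg_neg, hM1 N h1 h2, hM1 _ (by omega) le_rfl]
    constructor
    · have : ∑ n ∈ Ioc 1 N, (n : ℝ) ^ β * W n ≤ ∑ n ∈ Ioc 1 (2 * y), (n : ℝ) ^ β * W n :=
        Finset.sum_le_sum_of_subset_of_nonneg (Finset.Ioc_subset_Ioc_right h2)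
          fun n _ _ => mul_nonneg (by positivity) (hW0 n)
      linarith
    · have : 0 ≤ ∑ n ∈ Ioc 1 N, (n : ℝ) ^ β * W n :=
        Finset.sum_nonneg fun n _ => mul_nonneg (by positivity) (hW0 n)
      linarith
  refine ⟨av y U, analysis g (θ := θ) (C := A + 2) hκ hθ ?_ ?_ ?_⟩
  · intro N hN
    have b1 := hw1 N hN
    have b2 : A ≤ A * w (-θ) N := le_mul_of_one_le_right hA0 b1
    show |M N| ≤ _
    by_cases h1 : N ≤ 2 * y
    · obtain ⟨b3, b4⟩ := hMle N hN h1
      rw [abs_le]; constructor <;> nlinarith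
    by_cases h2 : N ≤ 8 * y
    · rw [hM2 N (by omega) h2, ← abs_neg, ← hA, abs_of_nonneg hA0]; nlinarith
    · have := hM3 N (by omega)
      have := hB N hN
      nlinarith
  · filter_upwards [eventually_ge_atTop (8 * y)] with N hN
    let s : ℕ → ℝ := fun k => if k < 2 * y then 0 else if k < 8 * y then -1 else 1
    have pt : ∀ k ∈ range N, M k * (w 1 k - w 1 (k + 1)) ≤
        6 * w (2 - θ) k + A * (s k * (w 1 k - w 1 (k + 1))) := by
      intro k _
      rcases Nat.eq_zero_or_pos k with rfl | hk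
      · have : s 0 = 0 := if_pos (by omega)
        rw [this]
        simp only [hM]
        simpa using w_nonneg _ _
      have d0 : 0 ≤ w 1 k - w 1 (k + 1) := by
        rw [w_one_eq, w_one_eq, sub_nonneg]
        exact one_div_le_one_div_of_le (by exact_mod_cast hk) (by push_cast; linarith)
      have d1 := (le_abs_self _).trans (w_diff' (σ := 1) le_rfl (by norm_num) hk)
      have b1 := hw1 k hk
      have b2 : M k ≤ 3 * w (-θ) k + A * s k := by
        simp only [s]
        split_ifs with h1 h2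
        · linarith [(hMle k hk h1.le).2]
        · rw [hM2 k (by omega) h2.le]; linarith
        · have := (le_abs_self _).trans (hM3 k (by omega))
          have := hB k hk
          linarith
      rw [show 2 - θ = -θ + 2 by ring, w_add _ _ hk]
      have b3 := mul_le_mul_of_nonneg_right b2 d0
      have b4 := mul_le_mul_of_nonneg_left d1 (show 0 ≤ 3 * w (-θ) k by linarith)
      linarith
    refine (Finset.sum_le_sum pt).trans ?_
    rw [Finset.sum_add_distrib, ← Finset.mul_sum _ _ A]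
    have e1 : ∑ k ∈ range N, 6 * w (2 - θ) k ≤ C1 :=
      ((summable_w (by linarith)).mul_left 6).sum_le_tsum _
        fun k _ => mul_nonneg (by norm_num) (w_nonneg _ _)
    have e2 : ∑ k ∈ range N, s k * (w 1 k - w 1 (k + 1)) ≤ -(1 / (4 * y)) := by
      rw [Finset.range_eq_Ico, ← Finset.sum_Ico_consecutive _ (Nat.zero_le (8 * y)) hN,
        ← Finset.sum_Ico_consecutive _ (Nat.zero_le (2 * y)) (show 2 * y ≤ 8 * y by omega)]
      have f1 : ∑ k ∈ Ico 0 (2 * y), s k * (w 1 k - w 1 (k + 1)) = 0 :=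
        Finset.sum_eq_zero fun k hk => by
          rw [Finset.mem_Ico] at hk
          simp only [s]; rw [if_pos hk.2, zero_mul]
      have f2 : ∑ k ∈ Ico (2 * y) (8 * y), s k * (w 1 k - w 1 (k + 1))
          = -(w 1 (2 * y) - w 1 (8 * y)) := by
        rw [← tele _ _ (by omega), ← Finset.sum_neg_distrib]
        refine Finset.sum_congr rfl fun k hk => ?_
        rw [Finset.mem_Ico] at hk
        simp only [s]; rw [if_neg (by omega), if_pos hk.2]; ring
      have f3 : ∑ k ∈ Ico (8 * y) N, s k * (w 1 k - w 1 (k + 1)) = w 1 (8 * y) - w 1 N := by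
        rw [← tele _ _ hN]
        refine Finset.sum_congr rfl fun k hk => ?_
        rw [Finset.mem_Ico] at hk
        simp only [s]; rw [if_neg (by omega), if_neg (by omega), one_mul]
      rw [f1, f2, f3, w_one_eq (2 * y), w_one_eq (8 * y)]
      have f4 := w_nonneg 1 N
      have f5 : (1 : ℝ) / (2 * y : ℕ) = 2 * (1 / (4 * y)) := by push_cast; field_simp; norm_num
      have f6 : (1 : ℝ) / (8 * y : ℕ) = 1 / 2 * (1 / (4 * y)) := by
        push_cast; field_simp; norm_num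
      rw [f5, f6]
      linarith
    have e3 := mul_le_mul_of_nonneg_left e2 hA0
    have e4 : C1 ≤ A * (1 / (4 * y)) := by
      rw [mul_one_div, le_div_iff₀ (by positivity)]; linarith
    linarith
  · intro N hN
    have e1 : ∑ n ∈ Icc 1 N, g n * w 2 n = 1 + ∑ n ∈ Icc 2 N, g n * w 2 n := by
      rw [← Finset.insert_Icc_succ_left_eq_Icc hN, Finset.sum_insert (by simp)]
      simp [hg, cm_one, w_one]
    have e2 : ∑ n ∈ Icc 2 N, -(W n / n) ≤ ∑ n ∈ Icc 2 N, g n * w 2 n := by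
      refine Finset.sum_le_sum fun n hn => ?_
      rw [Finset.mem_Icc] at hn
      have hn1 : (1 : ℝ) ≤ n := by exact_mod_cast (show 1 ≤ n by omega)
      have b1 : (n : ℝ) ^ β ≤ n := by
        calc (n : ℝ) ^ β ≤ (n : ℝ) ^ (1 : ℝ) := Real.rpow_le_rpow_of_exponent_le hn1 hβ1
          _ = n := Real.rpow_one _
      have b2 : -(n * W n) ≤ g n := by
        have := (abs_le.mp (hgU n (by omega))).1
        have := mul_le_mul_of_nonneg_right b1 (hW0 n)
        linarith
      have b3 : w 2 n = 1 / n / n := by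
        rw [← w_one_eq, ← w_succ 1 (by omega)]; norm_num
      have b4 := mul_le_mul_of_nonneg_right b2 (w_nonneg 2 n)
      have b5 : -(n * W n) * w 2 n = -(W n / n) := by rw [b3]; field_simp
      linarith
    rw [Finset.sum_neg_distrib] at e2
    have e3 := W_sum hL hy2 hLy N
    have hly : 0 < Real.log y := Real.log_pos (by linarith)
    have e4 : L / Real.log y ≤ 1 := by rw [div_le_one hly]; linarith
    linarith

end Pool.Agent.H18.CMOb
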