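import Mathlib
import Pool.Agent.H18.CMOb

open Filter Topology Finset

namespace Pool.Agent.H18.CMOc

open Pool.Agent.H18.CMOa Pool.Agent.H18.CMOb Pool.Agent.H18.MOsum

lemma ev_rpow {a b : ℝ} (hab : a < b) (K : ℝ) :
    ∀ᶠ x : ℕ in atTop, K * (x : ℝ) ^ a ≤ (x : ℝ) ^ b := by
  have h1 := ((tendsto_rpow_atTop (show 0 < b - a by linarith)).comp
    tendsto_natCast_atTop_atTop).eventually_ge_atTop K
  filter_upwards [h1, eventually_ge_atTop 1] with x hx hx1
  have h0 : (0 : ℝ) < x := by exact_mod_cast hx1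
  have : (x : ℝ) ^ b = (x : ℝ) ^ (b - a) * (x : ℝ) ^ a := by rw [← Real.rpow_add h0]; simp
  rw [this]
  exact mul_le_mul_of_nonneg_right hx (by positivity)

lemma ceil_le {a : ℝ} (ha : 0 ≤ a) {x : ℕ} (hx : 1 ≤ x) :
    (⌈(x : ℝ) ^ a⌉₊ : ℝ) ≤ 2 * (x : ℝ) ^ a := by
  have h1 : (1 : ℝ) ≤ (x : ℝ) ^ a := Real.one_le_rpow (by exact_mod_cast hx) ha
  have h2 := Nat.ceil_lt_add_one (show 0 ≤ (x : ℝ) ^ a by positivity)
  linarith

lemma count_primes (t x : ℕ) (h : t ≤ x) :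
    ∑ n ∈ Ioc t x, (if n.Prime then (1 : ℝ) else 0)
      = (Nat.primeCounting x : ℝ) - Nat.primeCounting t := by
  induction x, h using Nat.le_induction with
  | base => simp
  | succ x hx ih =>
    rw [Finset.sum_Ioc_succ_top hx, ih]
    have : Nat.primeCounting (x + 1) =
        Nat.primeCounting x + if (x + 1).Prime then 1 else 0 := by
      simp only [Nat.primeCounting, Nat.primeCounting']
      rw [Nat.count_succ]
    rw [this]
    split_ifs <;> push_cast <;> ring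

theorem main {η κ c : ℝ} (hη : 0 < η) (hκ : 0 < κ) (hηκ : η + κ < 1) (hc : 0 < c)
    (H : ∀ᶠ x : ℝ in atTop, c * x ^ η / Real.log x ≤
      (Nat.primeCounting ⌊x + x ^ η⌋₊ : ℝ) - Nat.primeCounting ⌊x⌋₊) :
    ∃ f : ℕ → ℝ, f 1 = 1 ∧ (∀ m n : ℕ, 0 < m → 0 < n → f (m * n) = f m * f n) ∧
      ∃ C : ℝ, ∀ N : ℕ, 1 ≤ N → |∑ n ∈ Icc 1 N, f n| ≤ C * (N : ℝ) ^ (-κ) := by
  set ε : ℝ := (1 - η - κ) / 4 with hε
  have hε0 : 0 < ε := by linarith
  have hε1 : ε < 1 / 4 := by linarith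
  set L : ℝ := 4 / c with hL
  have hL0 : 0 ≤ L := by positivity
  let l : ℕ → ℕ := fun x => ⌈(x : ℝ) ^ η⌉₊
  let h : ℕ → ℕ := fun x => ⌈(x : ℝ) ^ (η + 2 * ε)⌉₊
  let Z : ℕ → ℕ := fun x => ⌊(x : ℝ) ^ ε⌋₊
  have mono : ∀ a : ℝ, 0 ≤ a → Monotone fun x : ℕ => ⌈(x : ℝ) ^ a⌉₊ := fun a ha x y hxy =>
    Nat.ceil_mono (Real.rpow_le_rpow (by positivity) (Nat.cast_le.mpr hxy) ha)
  have hlog : Tendsto (fun x : ℕ => Real.log x) atTop atTop :=
    Real.tendsto_log_atTop.comp tendsto_natCast_atTop_atTop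
  set K : ℝ := 8 * (∑' k, 6 * w (2 - (η + 3 * ε)) k + 1) with hK
  have hK0 : 0 ≤ K := by
    have : 0 ≤ ∑' k, 6 * w (2 - (η + 3 * ε)) k :=
      tsum_nonneg fun k => mul_nonneg (by norm_num) (w_nonneg _ _)
    positivity
  have E : ∀ᶠ x : ℕ in atTop, (8 ≤ x ∧ 4 * L ≤ Real.log x ^ 2 ∧ 192 * L ≤ Real.log x ∧
      K * Real.log (2 * x : ℕ) ^ 3 ≤ (x : ℝ) ^ ε ∧
      c * (x : ℝ) ^ η / Real.log x ≤
        (Nat.primeCounting ⌊(x : ℝ) + (x : ℝ) ^ η⌋₊ : ℝ) - Nat.primeCounting x) ∧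
      (2 * h x ≤ x ∧ 2 * l x ≤ h x ∧ Z x * (1 + l x) ≤ 2 * h x ∧ 2 * Z x ^ 3 ≤ x ∧
      2 ≤ Z x ∧ 8 * L ^ 2 * Real.log x ^ 3 ≤ Real.log (Z x + 1) ^ 4) := by
    filter_upwards [eventually_ge_atTop 8, hlog.eventually_ge_atTop 1,
      hlog.eventually_ge_atTop (192 * L), hlog.eventually_ge_atTop (8 * L ^ 2 / ε ^ 4),
      (tendsto_natCast_atTop_atTop (R := ℝ)).eventually H,
      ev_rpow (show η + 2 * ε < 1 by linarith) 4, ev_rpow (show η < η + 2 * ε by linarith) 4,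
      ev_rpow (show ε + η < η + 2 * ε by linarith) 3, ev_rpow (show ε * 3 < 1 by linarith) 2,
      ev_rpow hε0 2, ev_rpow (show ε / 4 * 3 < ε by linarith) (K * 8 / (ε / 4) ^ 3)]
      with x e0 e1 e2 e3 e4 e5 e6 e7 e8 e9 e10
    have hx8 : (8 : ℝ) ≤ x := by exact_mod_cast e0
    have hx0 : (0 : ℝ) < x := by linarith
    have b1 := ceil_le hη.le (show 1 ≤ x by omega)
    have b2 := ceil_le (show 0 ≤ η + 2 * ε by linarith) (show 1 ≤ x by omega)
    have b3 := Nat.le_ceil ((x : ℝ) ^ (η + 2 * ε))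
    have b4 : (Z x : ℝ) ≤ (x : ℝ) ^ ε := Nat.floor_le (by positivity)
    have b5 : (1 : ℝ) ≤ (x : ℝ) ^ η := Real.one_le_rpow (by linarith) hη.le
    rw [Real.rpow_one] at e5 e8
    refine ⟨⟨e0, by nlinarith, e2, ?_, by simpa using e4⟩, ?_, ?_, ?_, ?_, ?_, ?_⟩
    · have a1 : Real.log (2 * x : ℕ) ≤ 2 * Real.log x := by
        have := Real.log_le_log (by positivity)
          (show ((2 * x : ℕ) : ℝ) ≤ (x : ℝ) ^ 2 by push_cast; nlinarith)
        rwa [Real.log_pow, Nat.cast_ofNat] at this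
      have a2 := Real.log_le_rpow_div hx0.le (show 0 < ε / 4 by positivity)
      have a3 : Real.log (2 * x : ℕ) ^ 3 ≤ (2 * ((x : ℝ) ^ (ε / 4) / (ε / 4))) ^ 3 :=
        pow_le_pow_left₀ (Real.log_natCast_nonneg _) (by linarith) 3
      refine (mul_le_mul_of_nonneg_left a3 hK0).trans (le_trans (le_of_eq ?_) e10)
      rw [Real.rpow_mul hx0.le, Real.rpow_ofNat]
      ring
    · have : (2 : ℝ) * h x ≤ x := by simp only [h]; linarith
      exact_mod_cast this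
    · have : (2 : ℝ) * l x ≤ h x := by simp only [h, l]; linarith
      exact_mod_cast this
    · have a1 : (Z x : ℝ) * (1 + l x) ≤ (x : ℝ) ^ ε * (3 * (x : ℝ) ^ η) :=
        mul_le_mul b4 (by simp only [l]; linarith) (by positivity) (by positivity)
      rw [Real.rpow_add hx0] at e7
      have a2 : (0 : ℝ) ≤ h x := by positivity
      have : (Z x : ℝ) * (1 + l x) ≤ 2 * h x := by simp only [h] at a2 ⊢; linarith
      exact_mod_cast this
    · rw [Real.rpow_mul hx0.le, Real.rpow_ofNat] at e8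
      have a1 : (Z x : ℝ) ^ 3 ≤ ((x : ℝ) ^ ε) ^ 3 := pow_le_pow_left₀ (by positivity) b4 3
      have : (2 : ℝ) * (Z x : ℝ) ^ 3 ≤ x := by linarith
      exact_mod_cast this
    · rw [Real.rpow_zero, mul_one] at e9
      exact Nat.le_floor (by exact_mod_cast e9)
    · have a1 : ε * Real.log x ≤ Real.log (Z x + 1) := by
        rw [← Real.log_rpow hx0]
        exact Real.log_le_log (by positivity) (Nat.lt_floor_add_one _).le
      have a2 := pow_le_pow_left₀ (by positivity) a1 4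
      rw [div_le_iff₀ (by positivity)] at e3
      have a3 := mul_le_mul_of_nonneg_right e3 (show 0 ≤ Real.log x ^ 3 by positivity)
      refine a3.trans (le_trans (le_of_eq ?_) a2)
      ring
  obtain ⟨y, hy⟩ := eventually_atTop.mp E
  obtain ⟨⟨y1, y2, y3, y4, -⟩, -⟩ := hy y le_rfl
  have H1 : ∀ x, y + l x ≤ x → (l x : ℝ) ≤ ∑ n ∈ Ioc (x - l x) x, cap L n := by
    intro x hx
    obtain ⟨-, c1, c2, -⟩ := hy x (by omega)
    obtain ⟨⟨t1, -, -, -, t2⟩, -⟩ := hy (x - l x) (by omega)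
    set t := x - l x with ht
    have ht8 : (8 : ℝ) ≤ t := by exact_mod_cast t1
    have hlt : 0 < Real.log t := Real.log_pos (by linarith)
    have htx : (t : ℝ) ≤ x := by exact_mod_cast (show t ≤ x by omega)
    have a1 : ⌊(t : ℝ) + (t : ℝ) ^ η⌋₊ ≤ x := by
      refine Nat.floor_le_of_le ?_
      have b1 : (t : ℝ) ^ η ≤ (x : ℝ) ^ η := Real.rpow_le_rpow (by positivity) htx hη.le
      have b2 : (x : ℝ) ^ η ≤ l x := Nat.le_ceil _
      have b3 : (x : ℝ) = t + l x := by exact_mod_cast (show x = t + l x by omega)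
      linarith
    have a2 : (Nat.primeCounting ⌊(t : ℝ) + (t : ℝ) ^ η⌋₊ : ℝ) ≤ Nat.primeCounting x :=
      Nat.cast_le.mpr (Nat.monotone_primeCounting a1)
    have a3 : L * Real.log t * ((Nat.primeCounting x : ℝ) - Nat.primeCounting t)
        ≤ ∑ n ∈ Ioc t x, cap L n := by
      rw [← count_primes t x (by omega), Finset.mul_sum]
      refine Finset.sum_le_sum fun n hn => ?_
      rw [Finset.mem_Ioc] at hn
      unfold cap
      split_ifs
      · rw [mul_one]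
        exact mul_le_mul_of_nonneg_left
          (Real.log_le_log (by linarith) (by exact_mod_cast hn.1.le)) hL0
      · simp
    have a4 : L * Real.log t * (c * (t : ℝ) ^ η / Real.log t) = 4 * (t : ℝ) ^ η := by
      rw [hL]; field_simp
    have a5 := mul_le_mul_of_nonneg_left (t2.trans (sub_le_sub_right a2 _))
      (show 0 ≤ L * Real.log t by positivity)
    have a6 := ceil_le hη.le (show 1 ≤ x by omega)
    have a7 : (x : ℝ) ^ η ≤ 2 * (t : ℝ) ^ η := by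
      have b1 : (x : ℝ) ≤ 2 * t := by exact_mod_cast (show x ≤ 2 * t by omega)
      refine (Real.rpow_le_rpow (by positivity) b1 hη.le).trans ?_
      rw [Real.mul_rpow (by norm_num) (by positivity)]
      refine mul_le_mul_of_nonneg_right ?_ (by positivity)
      calc (2 : ℝ) ^ η ≤ 2 ^ (1 : ℝ) :=
            Real.rpow_le_rpow_of_exponent_le (by norm_num) (by linarith)
        _ = 2 := Real.rpow_one 2
    simp only [l] at a6 ⊢
    linarith
  have H2 : ∀ x ≥ 1, (h x : ℝ) * (x : ℝ) ^ ε ≤ 2 * w (-(η + 3 * ε)) x := by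
    intro x hx
    have hx0 : (0 : ℝ) < x := by exact_mod_cast hx
    have a1 := ceil_le (show 0 ≤ η + 2 * ε by linarith) hx
    have a2 : w (-(η + 3 * ε)) x = (x : ℝ) ^ (η + 2 * ε) * (x : ℝ) ^ ε := by
      rw [← Real.rpow_add hx0, w]; congr 1; ring
    rw [a2, ← mul_assoc]
    exact mul_le_mul_of_nonneg_right a1 (by positivity)
  obtain ⟨a, α, C, hC⟩ := construct hL0 y1 y2 y3 l h Z (mono η hη.le) (mono _ (by linarith))
    (fun x hx => Nat.ceil_pos.mpr (Real.rpow_pos_of_pos (by exact_mod_cast (by omega)) _))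
    H1 (fun x hx => (hy x hx).2) (β := ε) (θ := η + 3 * ε) (κ := κ) hε0.le (by linarith)
    (by linarith) hκ (by linarith) H2 y4
  refine ⟨fun n => cm a n * w α n, by simp [cm_one, w_one], fun m n hm hn => ?_, C, hC⟩
  simp only [cm_mul a hm.ne' hn.ne', w_mul]
  ring

/-- complex-valued form, with a real variable -/
theorem main' {η κ c : ℝ} (hη : 0 < η) (hκ : 0 < κ) (hηκ : η + κ < 1) (hc : 0 < c)
    (H : ∀ᶠ x : ℝ in atTop, c * x ^ η / Real.log x ≤
      (Nat.primeCounting ⌊x + x ^ η⌋₊ : ℝ) - Nat.primeCounting ⌊x⌋₊) :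
    ∃ f : ℕ → ℂ, f 1 = 1 ∧ (∀ m n : ℕ, 0 < m → 0 < n → f (m * n) = f m * f n) ∧
      Tendsto (fun N : ℕ => ∑ n ∈ Icc 1 N, f n) atTop (𝓝 0) ∧
      ∃ C : ℝ, ∀ x : ℝ, 1 ≤ x → ‖∑ n ∈ Icc 1 ⌊x⌋₊, f n‖ ≤ C * x ^ (-κ) := by
  obtain ⟨f, h1, hm, C, hC⟩ := main hη hκ hηκ hc H
  have hC0 : 0 ≤ C := by
    have := (abs_nonneg _).trans (hC 1 le_rfl)
    simpa using this
  have hn : ∀ N : ℕ, ‖∑ n ∈ Icc 1 N, (f n : ℂ)‖ = |∑ n ∈ Icc 1 N, f n| := fun N => by
    rw [← Complex.ofReal_sum, Complex.norm_real, Real.norm_eq_abs]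
  refine ⟨fun n => f n, by simp [h1], fun m n a b => by simp [hm m n a b], ?_,
    C * (1 / 2) ^ (-κ), fun x hx => ?_⟩
  · refine squeeze_zero_norm' (a := fun N : ℕ => C * (N : ℝ) ^ (-κ)) ?_ ?_
    · filter_upwards [eventually_ge_atTop 1] with N hN
      rw [hn]; exact hC N hN
    · have := ((tendsto_rpow_neg_atTop hκ).comp tendsto_natCast_atTop_atTop).const_mul C
      simpa using this
  · have h2 : 1 ≤ ⌊x⌋₊ := Nat.le_floor (by simpa using hx)
    rw [hn, mul_assoc, ← Real.mul_rpow (by norm_num) (by linarith)]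
    refine (hC _ h2).trans (mul_le_mul_of_nonneg_left ?_ hC0)
    have h3 : (1 : ℝ) ≤ ⌊x⌋₊ := by exact_mod_cast h2
    have h4 := Nat.lt_floor_add_one x
    exact Real.rpow_le_rpow_of_nonpos (by linarith) (by linarith) (by linarith)

/-- local factors of a completely multiplicative function with convergent sum -/
theorem loc (f : ℕ → ℂ) (h1 : f 1 = 1) (hm : ∀ m n : ℕ, 0 < m → 0 < n → f (m * n) = f m * f n)
    (hs : Tendsto (fun N : ℕ => ∑ n ∈ Icc 1 N, f n) atTop (𝓝 0)) (p : ℕ) (hp : p.Prime) :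
    ∃ c : ℂ, c ≠ 0 ∧ Tendsto (fun K : ℕ => ∑ k ∈ range K, f (p ^ k)) atTop (𝓝 c) := by
  have hpow : ∀ k, f (p ^ k) = f p ^ k := by
    intro k
    induction k with
    | zero => simp [h1]
    | succ k ih => rw [pow_succ, hm _ _ (pow_pos hp.pos k) hp.pos, ih, pow_succ]
  have h0 : Tendsto f atTop (𝓝 0) := by
    rw [← tendsto_add_atTop_iff_nat 1]
    have := (hs.comp (tendsto_add_atTop_nat 1)).sub hs
    rw [sub_zero] at this
    refine this.congr fun N => ?_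
    simp only [Function.comp]
    rw [Finset.sum_Icc_succ_top (by omega)]; ring
  have h2 : Tendsto (fun k => f p ^ k) atTop (𝓝 0) :=
    (h0.comp (tendsto_pow_atTop_atTop_of_one_lt hp.one_lt)).congr hpow
  have h3 : ‖f p‖ < 1 := tendsto_pow_atTop_nhds_zero_iff_norm_lt_one.mp h2
  refine ⟨(1 - f p)⁻¹, inv_ne_zero fun h => ?_, ?_⟩
  · rw [sub_eq_zero] at h
    rw [← h] at h3; simp at h3
  · simp only [hpow]
    exact (hasSum_geometric_of_norm_lt_one h3).tendsto_sum_nat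

theorem sqrt_decay (S : ℝ → ℝ) (h0 : ∀ x, 0 ≤ S x) {κ C : ℝ} (hκ : 1 / 2 < κ)
    (h : ∀ x : ℝ, 1 ≤ x → S x ≤ C * x ^ (-κ)) :
    Tendsto (fun x : ℝ => √x * S x) atTop (𝓝 0) := by
  have h1 := (tendsto_rpow_neg_atTop (show 0 < κ - 1 / 2 by linarith)).const_mul C
  rw [mul_zero] at h1
  refine squeeze_zero' (Eventually.of_forall fun x => mul_nonneg (Real.sqrt_nonneg x) (h0 x))
    ?_ h1
  filter_upwards [eventually_ge_atTop 1] with x hx
  refine (mul_le_mul_of_nonneg_left (h x hx) (Real.sqrt_nonneg x)).trans (le_of_eq ?_)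
  rw [Real.sqrt_eq_rpow, show -(κ - 1 / 2) = 1 / 2 + -κ by ring, Real.rpow_add (by linarith)]
  ring

end Pool.Agent.H18.CMOc
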