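import Mathlib

set_option autoImplicit false

namespace Pool.Agent.H18.CanHt
open WithZero Polynomial

section Gen
variable {K : Type} [Field K]

def st (s t : K) (z : Fin 3 → K) : Fin 3 → K :=
  ![s * z 0 * (z 0 + z 1 - z 2 + t ^ 3 * z 0), (1 + s) * z 1 * (z 0 + z 1 - z 2 + t ^ 3 * z 1),
    z 2 * (z 0 + z 1 - z 2) + t ^ 3 * (z 0 ^ 2 + z 1 ^ 2)]

def p0 (t : K) : Fin 3 → K := ![1 + t ^ 2, 1, 1 + t]

variable (v : Valuation K (WithZero (Multiplicative ℤ)))

lemma sInf_eq (z : Fin 3 → K) (M : ℤ) (h1 : ∀ i, v (z i) ≤ exp M) (h2 : ∃ i, v (z i) = exp M) :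
    sInf {m : ℤ | ∀ i, v (z i) ≤ WithZero.coe (Multiplicative.ofAdd m)} = M := by
  have : {m : ℤ | ∀ i, v (z i) ≤ WithZero.coe (Multiplicative.ofAdd m)} = Set.Ici M := by
    ext m
    simp only [Set.mem_ofPred_eq, Set.mem_Ici, ← exp_eq_coe_ofAdd]
    constructor
    · intro h
      obtain ⟨i, hi⟩ := h2
      have := h i
      rwa [hi, exp_le_exp] at this
    · intro h i
      exact (h1 i).trans (exp_le_exp.mpr h)
  rw [this, csInf_Ici]

lemma good_step {s t : K} (hs : v s = 1) (hs1 : v (1 + s) = 1) (ht : v t = 1) (z : Fin 3 → K)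
    (h1 : ∀ i, v (z i) ≤ 1) (h2 : ∃ i, v (z i) = 1) :
    (∀ i, v (st s t z i) ≤ 1) ∧ ∃ i, v (st s t z i) = 1 := by
  have m0 : z 0 ∈ v.integer := h1 0
  have m1 : z 1 ∈ v.integer := h1 1
  have m2 : z 2 ∈ v.integer := h1 2
  have ms : s ∈ v.integer := hs.le
  have mt : t ∈ v.integer := ht.le
  have mH : z 0 + z 1 - z 2 ∈ v.integer := sub_mem (add_mem m0 m1) m2
  have hle : ∀ i, v (st s t z i) ≤ 1 := by
    intro i
    change st s t z i ∈ v.integer
    fin_cases i
    · exact mul_mem (mul_mem ms m0) (add_mem mH (mul_mem (pow_mem mt 3) m0))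
    · exact mul_mem (mul_mem (add_mem (one_mem _) ms) m1) (add_mem mH (mul_mem (pow_mem mt 3) m1))
    · exact add_mem (mul_mem m2 mH) (mul_mem (pow_mem mt 3) (add_mem (pow_mem m0 2) (pow_mem m1 2)))
  refine ⟨hle, ?_⟩
  by_contra hc
  push Not at hc
  have l : ∀ i, v (st s t z i) < 1 := fun i => lt_of_le_of_ne (hle i) (hc i)
  have l0 : v (z 0 * (z 0 + z 1 - z 2 + t ^ 3 * z 0)) < 1 := by
    have := l 0
    simp only [st, Matrix.cons_val_zero] at this
    rwa [mul_assoc, map_mul, hs, one_mul] at this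
  have l1 : v (z 1 * (z 0 + z 1 - z 2 + t ^ 3 * z 1)) < 1 := by
    have := l 1
    simp only [st, Matrix.cons_val_one, Matrix.cons_val_zero] at this
    rwa [mul_assoc, map_mul, hs1, one_mul] at this
  have l2 : v (z 2 * (z 0 + z 1 - z 2) + t ^ 3 * (z 0 ^ 2 + z 1 ^ 2)) < 1 := l 2
  have lH : v (z 0 + z 1 - z 2) < 1 := by
    have := v.map_sub_lt (v.map_add_lt l0 l1) l2
    have e : z 0 * (z 0 + z 1 - z 2 + t ^ 3 * z 0) + z 1 * (z 0 + z 1 - z 2 + t ^ 3 * z 1) -
        (z 2 * (z 0 + z 1 - z 2) + t ^ 3 * (z 0 ^ 2 + z 1 ^ 2)) = (z 0 + z 1 - z 2) ^ 2 := by ring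
    rw [e, map_pow] at this
    exact (pow_lt_one_iff two_ne_zero).mp this
  have key : ∀ w : K, v w ≤ 1 → v (w * (z 0 + z 1 - z 2 + t ^ 3 * w)) < 1 → v w < 1 := by
    intro w hw h
    have a1 : v (w * (z 0 + z 1 - z 2)) < 1 := by
      rw [map_mul]; exact lt_of_le_of_lt (mul_le_of_le_one_left' hw) lH
    have := v.map_sub_lt h a1
    have e : w * (z 0 + z 1 - z 2 + t ^ 3 * w) - w * (z 0 + z 1 - z 2) = t ^ 3 * w ^ 2 := by ring
    rw [e, map_mul, map_pow, ht, one_pow, one_mul, map_pow] at this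
    exact (pow_lt_one_iff two_ne_zero).mp this
  have k0 := key _ (h1 0) l0
  have k1 := key _ (h1 1) l1
  have k2 : v (z 2) < 1 := by
    have := v.map_sub_lt (v.map_add_lt k0 k1) lH
    have e : z 0 + z 1 - (z 0 + z 1 - z 2) = z 2 := by ring
    rwa [e] at this
  obtain ⟨i, hi⟩ := h2
  fin_cases i
  · exact k0.ne hi
  · exact k1.ne hi
  · exact k2.ne hi

lemma good_all {s t : K} (hs : v s = 1) (hs1 : v (1 + s) = 1) (ht : v t = 1) (n : ℕ) :
    (∀ i, v ((st s t)^[n] (p0 t) i) ≤ exp 0) ∧ ∃ i, v ((st s t)^[n] (p0 t) i) = exp 0 := by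
  rw [exp_zero]
  induction n with
  | zero =>
    have mt : t ∈ v.integer := ht.le
    refine ⟨fun i => ?_, 1, by simp [p0]⟩
    change p0 t i ∈ v.integer
    fin_cases i
    · exact add_mem (one_mem _) (pow_mem mt 2)
    · exact one_mem _
    · exact add_mem (one_mem _) mt
  | succ n ih =>
    rw [Function.iterate_succ_apply']
    exact good_step v hs hs1 ht _ ih.1 ih.2

lemma inf_all {s t : K} (hs : v s = 1) (hs1 : v (1 + s) = 1) (ht : v t = exp 1) (n : ℕ) :
    (∀ i, v ((st s t)^[n] (p0 t) i) ≤ exp (5 * 2 ^ n - 3 : ℤ)) ∧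
      v ((st s t)^[n] (p0 t) 0) = exp (5 * 2 ^ n - 3 : ℤ) := by
  have ht3 : v (t ^ 3) = exp 3 := by rw [map_pow, ht, ← exp_nsmul]; rfl
  induction n with
  | zero =>
    have ht2 : v (t ^ 2) = exp 2 := by rw [map_pow, ht, ← exp_nsmul]; rfl
    have a0 : v (1 + t ^ 2) = exp 2 := by
      rw [v.map_add_eq_of_lt_right, ht2]
      rw [ht2, map_one, ← exp_zero, exp_lt_exp]; norm_num
    have a1 : v (1 : K) ≤ exp 2 := by rw [map_one, ← exp_zero, exp_le_exp]; norm_num
    refine ⟨fun i => ?_, a0⟩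
    fin_cases i
    · exact a0.le
    · exact a1
    · exact v.map_add_le a1 (by rw [ht, exp_le_exp]; norm_num)
  | succ n ih =>
    rw [Function.iterate_succ_apply']
    set z := (st s t)^[n] (p0 t)
    set D : ℤ := 5 * 2 ^ n - 3 with hD
    have e : (5 * 2 ^ (n + 1) - 3 : ℤ) = D + (3 + D) := by rw [hD]; ring
    rw [e]
    obtain ⟨h1, h2⟩ := ih
    have hH : v (z 0 + z 1 - z 2) ≤ exp D := v.map_sub_le (v.map_add_le (h1 0) (h1 1)) (h1 2)
    have hlt : exp D < exp (3 + D) := by rw [exp_lt_exp]; omega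
    have a0 : v (st s t z 0) = exp (D + (3 + D)) := by
      change v (s * z 0 * (z 0 + z 1 - z 2 + t ^ 3 * z 0)) = _
      rw [map_mul, map_mul, hs, one_mul, v.map_add_eq_of_lt_right, map_mul, ht3, h2, ← exp_add,
        ← exp_add]
      rw [map_mul, ht3, h2, ← exp_add]
      exact lt_of_le_of_lt hH hlt
    refine ⟨fun i => ?_, a0⟩
    fin_cases i
    · exact a0.le
    · change v ((1 + s) * z 1 * (z 0 + z 1 - z 2 + t ^ 3 * z 1)) ≤ _
      rw [map_mul, map_mul, hs1, one_mul, exp_add]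
      apply mul_le_mul' (h1 1)
      apply v.map_add_le (hH.trans hlt.le)
      rw [map_mul, ht3, exp_add]
      exact mul_le_mul' le_rfl (h1 1)
    · change v (z 2 * (z 0 + z 1 - z 2) + t ^ 3 * (z 0 ^ 2 + z 1 ^ 2)) ≤ _
      apply v.map_add_le
      · rw [map_mul, exp_add]
        exact mul_le_mul' (h1 2) (hH.trans hlt.le)
      · have e2 : D + (3 + D) = 3 + (D + D) := by ring
        rw [map_mul, ht3, e2, exp_add]
        apply mul_le_mul' le_rfl
        apply v.map_add_le <;> rw [sq, map_mul, exp_add]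
        · exact mul_le_mul' (h1 0) (h1 0)
        · exact mul_le_mul' (h1 1) (h1 1)

open Classical in
noncomputable def ee (s : K) : ℕ → ℕ
  | 0 => 0
  | n + 1 => 2 * ee s n + (if s ^ n + (1 + s) ^ n - 1 = 0 then 1 else 0)

lemma zero_all {s t : K} (hs : v s = 1) (hs1 : v (1 + s) = 1) (ht : v t = exp (-1))
    (hη : ∀ n : ℕ, s ^ n + (1 + s) ^ n - 1 ≠ 0 → v (s ^ n + (1 + s) ^ n - 1) = 1) (n : ℕ) :
    ∃ l a b c : K, v l = exp (-(ee s n : ℤ)) ∧ a ∈ v.integer ∧ b ∈ v.integer ∧ c ∈ v.integer ∧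
      (st s t)^[n] (p0 t) 0 = l * (s ^ n + t ^ 2 * a) ∧
      (st s t)^[n] (p0 t) 1 = l * ((1 + s) ^ n + t ^ 2 * b) ∧
      (st s t)^[n] (p0 t) 2 = l * (1 + t + t ^ 2 * c) := by
  have ht1 : v t < 1 := by rw [ht, ← exp_zero, exp_lt_exp]; norm_num
  have ms : s ∈ v.integer := hs.le
  have ms1 : 1 + s ∈ v.integer := hs1.le
  have mt : t ∈ v.integer := ht1.le
  induction n with
  | zero =>
    exact ⟨1, 1, 0, 0, by simp [ee], one_mem _, zero_mem _, zero_mem _, by simp [p0], by simp [p0],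
      by simp [p0]⟩
  | succ n ih =>
    obtain ⟨l, a, b, c, hl, ma, mb, mc, e0, e1, e2⟩ := ih
    rw [Function.iterate_succ_apply']
    set z := (st s t)^[n] (p0 t)
    set H := s ^ n + (1 + s) ^ n - 1 + t * (-1 + t * (a + b - c)) with hH
    have u1 : v (-1 + t * (a + b - c)) = 1 := by
      rw [v.map_add_eq_of_lt_left, Valuation.map_neg, map_one]
      rw [Valuation.map_neg, map_one, map_mul]
      exact lt_of_le_of_lt (mul_le_of_le_one_right' (sub_mem (add_mem ma mb) mc)) ht1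
    have u2 : v (t * (-1 + t * (a + b - c))) = exp (-1) := by rw [map_mul, u1, mul_one, ht]
    have hv : v (l ^ 2 * H) = exp (-(ee s (n + 1) : ℤ)) ∧ exp (-1) ≤ v H := by
      by_cases hc : s ^ n + (1 + s) ^ n - 1 = 0
      · have : v H = exp (-1) := by rw [hH, hc, zero_add, u2]
        refine ⟨?_, this.ge⟩
        rw [map_mul, map_pow, hl, this, ← exp_nsmul, ← exp_add, ee, if_pos hc]
        congr 1
        push_cast; ring
      · have : v H = 1 := by
          rw [hH, v.map_add_eq_of_lt_left, hη n hc]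
          rw [hη n hc, u2, ← ht]; exact ht1
        refine ⟨?_, by rw [this, ← ht]; exact ht1.le⟩
        rw [map_mul, map_pow, hl, this, ← exp_nsmul, mul_one, ee, if_neg hc]
        congr 1
        push_cast; ring
    have H0 : H ≠ 0 := by
      intro h
      have := hv.2
      rw [h, map_zero] at this
      exact absurd this (not_le.mpr exp_pos)
    have mq : t / H ∈ v.integer := by
      change v (t / H) ≤ 1
      rw [map_div₀, ht]
      exact div_le_one_of_le₀ hv.2 zero_le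
    have mA : s ^ n + t ^ 2 * a ∈ v.integer := add_mem (pow_mem ms n) (mul_mem (pow_mem mt 2) ma)
    have mB : (1 + s) ^ n + t ^ 2 * b ∈ v.integer :=
      add_mem (pow_mem ms1 n) (mul_mem (pow_mem mt 2) mb)
    have eH : z 0 + z 1 - z 2 = l * H := by rw [e0, e1, e2, hH]; ring
    refine ⟨l ^ 2 * H, s * a + s * (t / H) * (s ^ n + t ^ 2 * a) ^ 2,
      (1 + s) * b + (1 + s) * (t / H) * ((1 + s) ^ n + t ^ 2 * b) ^ 2,
      c + (t / H) * ((s ^ n + t ^ 2 * a) ^ 2 + ((1 + s) ^ n + t ^ 2 * b) ^ 2), hv.1,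
      add_mem (mul_mem ms ma) (mul_mem (mul_mem ms mq) (pow_mem mA 2)),
      add_mem (mul_mem ms1 mb) (mul_mem (mul_mem ms1 mq) (pow_mem mB 2)),
      add_mem mc (mul_mem mq (add_mem (pow_mem mA 2) (pow_mem mB 2))), ?_, ?_, ?_⟩
    · change s * z 0 * (z 0 + z 1 - z 2 + t ^ 3 * z 0) = _
      rw [eH, e0]; field_simp; ring
    · change (1 + s) * z 1 * (z 0 + z 1 - z 2 + t ^ 3 * z 1) = _
      rw [eH, e1]; field_simp; ring
    · change z 2 * (z 0 + z 1 - z 2) + t ^ 3 * (z 0 ^ 2 + z 1 ^ 2) = _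
      rw [eH, e0, e1, e2]; field_simp; ring

lemma zero_val {s t : K} (hs : v s = 1) (hs1 : v (1 + s) = 1) (ht : v t = exp (-1))
    (hη : ∀ n : ℕ, s ^ n + (1 + s) ^ n - 1 ≠ 0 → v (s ^ n + (1 + s) ^ n - 1) = 1) (n : ℕ) :
    (∀ i, v ((st s t)^[n] (p0 t) i) ≤ exp (-(ee s n : ℤ))) ∧
      ∃ i, v ((st s t)^[n] (p0 t) i) = exp (-(ee s n : ℤ)) := by
  obtain ⟨l, a, b, c, hl, ma, mb, mc, e0, e1, e2⟩ := zero_all v hs hs1 ht hη n
  have ht1 : v t < 1 := by rw [ht, ← exp_zero, exp_lt_exp]; norm_num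
  have ms : s ∈ v.integer := hs.le
  have ms1 : 1 + s ∈ v.integer := hs1.le
  have mt : t ∈ v.integer := ht1.le
  have mA : s ^ n + t ^ 2 * a ∈ v.integer := add_mem (pow_mem ms n) (mul_mem (pow_mem mt 2) ma)
  have mB : (1 + s) ^ n + t ^ 2 * b ∈ v.integer :=
    add_mem (pow_mem ms1 n) (mul_mem (pow_mem mt 2) mb)
  have a2 : v ((st s t)^[n] (p0 t) 2) = exp (-(ee s n : ℤ)) := by
    have e : 1 + t + t ^ 2 * c = 1 + t * (1 + t * c) := by ring
    rw [e2, map_mul, hl, e, v.map_one_add_of_lt, mul_one]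
    rw [map_mul]
    exact lt_of_le_of_lt (mul_le_of_le_one_right' (add_mem (one_mem _) (mul_mem mt mc))) ht1
  refine ⟨fun i => ?_, 2, a2⟩
  fin_cases i
  · change v ((st s t)^[n] (p0 t) 0) ≤ _
    rw [e0, map_mul, hl]
    exact mul_le_of_le_one_right' mA
  · change v ((st s t)^[n] (p0 t) 1) ≤ _
    rw [e1, map_mul, hl]
    exact mul_le_of_le_one_right' mB
  · exact a2.le

end Gen

section Val
variable {k : Type} [Field k] (v : Valuation (RatFunc k) (WithZero (Multiplicative ℤ)))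

lemma exp_one_of (hs : Function.Surjective v) (ε : ℤ) (x : WithZero (Multiplicative ℤ))
    (hx : x ≠ 0) (h : ∀ f : RatFunc k, f ≠ 0 → ∃ j : ℤ, v f = x ^ j) :
    x = exp 1 ∨ x = exp (-1) := by
  obtain ⟨f, hf⟩ := hs (exp 1)
  have f0 : f ≠ 0 := by
    rintro rfl
    rw [map_zero] at hf
    exact exp_ne_zero hf.symm
  obtain ⟨j, hj⟩ := h f f0
  rw [← exp_log hx, hf, ← exp_zsmul, exp_inj, smul_eq_mul] at hj
  have := Int.eq_one_or_neg_one_of_mul_eq_one' (show j * log x = 1 from hj.symm)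
  have _ := ε
  rcases this with h | h
  · left; rw [← exp_log hx, h.2]
  · right; rw [← exp_log hx, h.2]

lemma inf_val (hs : Function.Surjective v) (hc : ∀ c : k, c ≠ 0 → v (RatFunc.C c) = 1)
    (h : 1 < v RatFunc.X) : v RatFunc.X = exp 1 ∧ ∀ f : RatFunc k, f ≠ 0 → v f = exp f.intDegree := by
  haveI : v.IsTrivialOn k := ⟨fun a ha => hc a ha⟩
  have h1 : ∀ f : RatFunc k, f ≠ 0 → v f = v RatFunc.X ^ f.intDegree := fun f hf =>
    RatFunc.valuation_eq_valuation_X_zpow_intDegree_of_one_lt_valuation_X h hf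
  have h2 : v RatFunc.X = exp 1 := by
    rcases exp_one_of v hs 0 _ (ne_zero_of_lt h) (fun f hf => ⟨_, h1 f hf⟩) with g | g
    · exact g
    · rw [g, ← exp_zero, exp_lt_exp] at h; omega
  refine ⟨h2, fun f hf => ?_⟩
  rw [h1 f hf, h2, ← exp_zsmul]; simp

lemma poly_le (hc : ∀ c : k, c ≠ 0 → v (RatFunc.C c) = 1) (h : v RatFunc.X ≤ 1) (p : k[X]) :
    v (algebraMap k[X] (RatFunc k) p) ≤ 1 := by
  induction p using Polynomial.induction_on' with
  | add p q hp hq => rw [map_add]; exact v.map_add_le hp hq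
  | monomial n a =>
    rw [← C_mul_X_pow_eq_monomial, map_mul, map_pow, RatFunc.algebraMap_C, RatFunc.algebraMap_X,
      map_mul, map_pow]
    apply mul_le_one' _ (pow_le_one' h n)
    by_cases ha : a = 0
    · rw [ha]; simp
    · exact (hc a ha).le

lemma poly_val (hc : ∀ c : k, c ≠ 0 → v (RatFunc.C c) = 1) (h : v RatFunc.X < 1) (p : k[X])
    (hp : p ≠ 0) : v (algebraMap k[X] (RatFunc k) p) = v RatFunc.X ^ (p.rootMultiplicity 0) := by
  obtain ⟨q, h1, h2⟩ := exists_eq_pow_rootMultiplicity_mul_and_not_dvd p hp 0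
  rw [map_zero, sub_zero] at h1 h2
  have h3 : v (algebraMap k[X] (RatFunc k) q) = 1 := by
    have h0 : q.coeff 0 ≠ 0 := fun g => h2 (X_dvd_iff.mpr g)
    rw [← X_mul_divX_add q, map_add, map_mul, RatFunc.algebraMap_C, RatFunc.algebraMap_X,
      v.map_add_eq_of_lt_right, hc _ h0]
    rw [hc _ h0, map_mul]
    exact lt_of_le_of_lt (mul_le_of_le_one_right' (poly_le v hc h.le _)) h
  conv_lhs => rw [h1]
  rw [map_mul, map_pow, RatFunc.algebraMap_X, map_mul, map_pow, h3, mul_one]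

lemma zero_val' (hs : Function.Surjective v) (hc : ∀ c : k, c ≠ 0 → v (RatFunc.C c) = 1)
    (h : v RatFunc.X < 1) : v RatFunc.X = exp (-1) ∧ ∀ f : RatFunc k, f ≠ 0 →
      v f = exp (-((f.num.rootMultiplicity 0 : ℤ) - f.denom.rootMultiplicity 0)) := by
  have hx : v RatFunc.X ≠ 0 := (v.ne_zero_iff).mpr RatFunc.X_ne_zero
  have h1 : ∀ f : RatFunc k, f ≠ 0 →
      v f = v RatFunc.X ^ ((f.num.rootMultiplicity 0 : ℤ) - f.denom.rootMultiplicity 0) := by
    intro f hf
    conv_lhs => rw [← RatFunc.num_div_denom f]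
    rw [map_div₀, poly_val v hc h _ (RatFunc.num_ne_zero hf), poly_val v hc h _ f.denom_ne_zero,
      zpow_sub₀ hx, zpow_natCast, zpow_natCast]
  have h2 : v RatFunc.X = exp (-1) := by
    rcases exp_one_of v hs 0 _ hx (fun f hf => ⟨_, h1 f hf⟩) with g | g
    · rw [g, ← exp_zero, exp_lt_exp] at h; omega
    · exact g
  refine ⟨h2, fun f hf => ?_⟩
  rw [h1 f hf, h2, ← exp_zsmul]; simp

lemma surj_of (h : v RatFunc.X = exp 1 ∨ v RatFunc.X = exp (-1)) : Function.Surjective v := by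
  intro x
  by_cases hx : x = 0
  · exact ⟨0, by rw [hx, map_zero]⟩
  rcases h with h | h
  · refine ⟨RatFunc.X ^ (log x), ?_⟩
    rw [map_zpow₀, h, ← exp_zsmul]; simp [exp_log hx]
  · refine ⟨RatFunc.X ^ (-log x), ?_⟩
    rw [map_zpow₀, h, ← exp_zsmul]; simp [exp_log hx]

end Val

abbrev VV (k : Type) [Field k] :=
  {v : Valuation (RatFunc k) (WithZero (Multiplicative ℤ)) //
    Function.Surjective v ∧ ∀ c : k, c ≠ 0 → v (RatFunc.C c) = 1}

open Classical in
noncomputable def vinf (k : Type) [Field k] : VV k :=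
  ⟨RatFunc.inftyValuation k, surj_of _ (Or.inl (RatFunc.inftyValuation.X k)),
    fun _ hc => RatFunc.inftyValuation.C k hc⟩

noncomputable def vzero (k : Type) [Field k] : VV k :=
  ⟨(Polynomial.idealX k).valuation (RatFunc k), surj_of _ (Or.inr (valuation_X_eq_neg_one k)),
    fun c hc => by
      have h1 : ∀ d : k, (Polynomial.idealX k).valuation (RatFunc k) (RatFunc.C d) ≤ 1 := by
        intro d
        rw [← RatFunc.algebraMap_C]
        exact IsDedekindDomain.HeightOneSpectrum.valuation_le_one _ _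
      apply le_antisymm (h1 c)
      have h2 := h1 c⁻¹
      rw [map_inv₀, map_inv₀] at h2
      exact (inv_le_one₀ (zero_lt_iff.mpr ((Valuation.ne_zero_iff _).mpr
        ((_root_.map_ne_zero _).mpr hc)))).mp h2⟩

lemma vinf_X (k : Type) [Field k] : (vinf k).1 RatFunc.X = exp 1 := by
  classical
  exact RatFunc.inftyValuation.X k

lemma vzero_X (k : Type) [Field k] : (vzero k).1 RatFunc.X = exp (-1) := valuation_X_eq_neg_one k

lemma height_eq {k : Type} [Field k] (s : k) (hs : s ≠ 0) (hs1 : 1 + s ≠ 0) (n : ℕ) :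
    (∑ᶠ v : VV k, ((sInf {m : ℤ | ∀ i,
        v.1 ((st (RatFunc.C s) RatFunc.X)^[n] (p0 RatFunc.X) i)
          ≤ WithZero.coe (Multiplicative.ofAdd m)} : ℤ) : ℝ)) =
      5 * 2 ^ n - 3 - ee (RatFunc.C s) n := by
  classical
  have a1 : ∀ v : VV k, v.1 (RatFunc.C s) = 1 := fun v => v.2.2 s hs
  have a2 : ∀ v : VV k, v.1 (1 + RatFunc.C s) = 1 := fun v => by
    have := v.2.2 _ hs1
    rwa [map_add, map_one] at this
  have a3 : ∀ v : VV k, ∀ n : ℕ, (RatFunc.C s) ^ n + (1 + RatFunc.C s) ^ n - 1 ≠ 0 →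
      v.1 ((RatFunc.C s) ^ n + (1 + RatFunc.C s) ^ n - 1) = 1 := by
    intro v n h
    have e : (RatFunc.C s) ^ n + (1 + RatFunc.C s) ^ n - 1 =
        RatFunc.C (s ^ n + (1 + s) ^ n - 1) := by simp
    rw [e] at h ⊢
    exact v.2.2 _ ((_root_.map_ne_zero _).mp h)
  have hne : vinf k ≠ vzero k := by
    intro h
    have := vinf_X k
    rw [h, vzero_X, exp_inj] at this
    omega
  rw [finsum_eq_sum_of_support_subset (s := {vinf k, vzero k}), Finset.sum_pair hne]
  · have b1 := inf_all _ (a1 (vinf k)) (a2 _) (vinf_X k) n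
    have b2 := zero_val _ (a1 (vzero k)) (a2 _) (vzero_X k) (a3 _) n
    rw [sInf_eq _ _ _ b1.1 ⟨0, b1.2⟩, sInf_eq _ _ _ b2.1 b2.2]
    push_cast; ring
  · intro v hv
    rw [Function.mem_support] at hv
    simp only [Finset.coe_insert, Finset.coe_singleton, Set.mem_insert_iff, Set.mem_singleton_iff]
    rcases lt_trichotomy (v.1 RatFunc.X) 1 with h | h | h
    · right
      apply Subtype.ext
      ext f
      by_cases hf : f = 0
      · rw [hf, map_zero, map_zero]
      · rw [(zero_val' v.1 v.2.1 v.2.2 h).2 f hf, (zero_val' _ (vzero k).2.1 (vzero k).2.2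
          (by rw [vzero_X, ← exp_zero, exp_lt_exp]; norm_num)).2 f hf]
    · exfalso
      apply hv
      have b := good_all _ (a1 v) (a2 v) h n
      rw [sInf_eq _ _ _ b.1 b.2]; simp
    · left
      apply Subtype.ext
      ext f
      by_cases hf : f = 0
      · rw [hf, map_zero, map_zero]
      · rw [(inf_val v.1 v.2.1 v.2.2 h).2 f hf, (inf_val _ (vinf k).2.1 (vinf k).2.2
          (by rw [vinf_X, ← exp_zero, exp_lt_exp]; norm_num)).2 f hf]

lemma hit_poly (j : ℕ) : (X : (ZMod 2)[X]) ^ (2 ^ j) + (1 + X) ^ (2 ^ j) - 1 = 0 := by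
  rw [add_pow_char_pow, one_pow]
  have : (X : (ZMod 2)[X]) ^ (2 ^ j) + X ^ (2 ^ j) = 0 := CharTwo.add_self_eq_zero _
  linear_combination this

lemma miss_poly (j r : ℕ) (h0 : 0 < r) (h1 : r < 2 ^ j) :
    (X : (ZMod 2)[X]) ^ (2 ^ j + r) + (1 + X) ^ (2 ^ j + r) - 1 ≠ 0 := by
  intro h
  have h2 := congrArg (fun p => coeff p r) h
  simp only [coeff_sub, coeff_add, coeff_zero] at h2
  rw [pow_add (1 + X), add_pow_char_pow, one_pow, add_mul, one_mul, coeff_add, coeff_X_pow,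
    if_neg (by omega), coeff_X_pow_mul', if_neg (by omega), coeff_one_add_X_pow, coeff_one,
    if_neg (by omega)] at h2
  simp at h2

open Filter Topology in
lemma irr (e : ℕ → ℕ) (h1 : ∀ n, e (n + 1) = 2 * e n ∨ e (n + 1) = 2 * e n + 1)
    (h2 : ∀ j, e (2 ^ j + 1) = 2 * e (2 ^ j) + 1)
    (h3 : ∀ j r, 0 < r → r < 2 ^ j → e (2 ^ j + r + 1) = 2 * e (2 ^ j + r)) (q : ℚ) :
    ¬ Tendsto (fun n : ℕ => (e n : ℝ) / 2 ^ n) atTop (𝓝 (q : ℝ)) := by
  intro ht
  have lo : ∀ n m, 2 ^ m * e n ≤ e (n + m) := by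
    intro n m
    induction m with
    | zero => simp
    | succ m ih =>
      rw [← add_assoc, pow_succ]
      rcases h1 (n + m) with h | h <;> rw [h] <;> nlinarith
  have hi : ∀ n m, e (n + m) + 1 ≤ 2 ^ m * (e n + 1) := by
    intro n m
    induction m with
    | zero => simp
    | succ m ih =>
      rw [← add_assoc, pow_succ]
      rcases h1 (n + m) with h | h <;> rw [h] <;> nlinarith
  have lo' : ∀ n, (e n : ℝ) / 2 ^ n ≤ q := by
    intro n
    apply ge_of_tendsto ht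
    filter_upwards [eventually_ge_atTop n] with m hm
    obtain ⟨d, rfl⟩ := Nat.exists_eq_add_of_le hm
    have : (2 : ℝ) ^ d * e n ≤ e (n + d) := by exact_mod_cast lo n d
    rw [div_le_div_iff₀ (by positivity) (by positivity), pow_add]
    have hp : (0 : ℝ) < 2 ^ n := by positivity
    nlinarith
  have hi' : ∀ n, (q : ℝ) ≤ ((e n : ℝ) + 1) / 2 ^ n := by
    intro n
    apply le_of_tendsto ht
    filter_upwards [eventually_ge_atTop n] with m hm
    obtain ⟨d, rfl⟩ := Nat.exists_eq_add_of_le hm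
    have : (e (n + d) : ℝ) + 1 ≤ 2 ^ d * (e n + 1) := by exact_mod_cast hi n d
    rw [div_le_div_iff₀ (by positivity) (by positivity), pow_add]
    have hp : (0 : ℝ) < 2 ^ n := by positivity
    nlinarith
  have flat : ∀ j r, r + 1 ≤ 2 ^ j → e (2 ^ j + 1 + r) = 2 ^ r * e (2 ^ j + 1) := by
    intro j r
    induction r with
    | zero => simp
    | succ r ih =>
      intro hr
      have := h3 j (1 + r) (by omega) (by omega)
      rw [← add_assoc] at this
      rw [← add_assoc, this, ih (by omega), pow_succ]; ring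
  set j := q.den + 1 with hj
  obtain ⟨r, hr⟩ : ∃ r, r + 1 = 2 ^ j := ⟨2 ^ j - 1, by have := Nat.one_le_two_pow (n := j); omega⟩
  have hjr : q.den < 2 ^ r := by
    have a1 : j < 2 ^ j := Nat.lt_two_pow_self
    have a2 : r < 2 ^ r := Nat.lt_two_pow_self
    omega
  set n := 2 ^ j + 1 with hn
  have f1 := flat j r hr.le
  have e1 : n + r = 2 ^ (j + 1) := by rw [pow_succ]; omega
  have f2 := h2 (j + 1)
  rw [← e1, f1] at f2
  have g1 := lo' (n + r + 1)
  have g2 := hi' (n + r)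
  rw [f2] at g1
  rw [f1] at g2
  have hq : (q : ℝ) = q.num / q.den := by exact_mod_cast (Rat.num_div_den q).symm
  have hd : (0 : ℝ) < q.den := by exact_mod_cast q.den_pos
  rw [hq, div_le_div_iff₀ (by positivity) hd] at g1
  rw [hq, div_le_div_iff₀ hd (by positivity)] at g2
  have g1' : (2 * (2 ^ r * (e n : ℤ)) + 1) * q.den ≤ q.num * 2 ^ (n + r + 1) := by
    exact_mod_cast g1
  have g2' : q.num * 2 ^ (n + r) ≤ (2 ^ r * (e n : ℤ) + 1) * q.den := by exact_mod_cast g2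
  have hd' : (0 : ℤ) < q.den := by exact_mod_cast q.den_pos
  have hjr' : (q.den : ℤ) < 2 ^ r := by exact_mod_cast hjr
  rw [pow_succ, pow_add] at g1'
  rw [pow_add] at g2'
  have hp : (0 : ℤ) < 2 ^ r := by positivity
  set w : ℤ := q.num * 2 ^ n - e n * q.den with hw
  have k1 : 0 < 2 ^ r * w := by rw [hw]; nlinarith
  have k2 : 2 ^ r * w < 2 ^ r * 1 := by rw [hw]; nlinarith
  have k3 : 0 < w := (pos_iff_pos_of_mul_pos k1).mp hp
  have k4 : w < 1 := lt_of_mul_lt_mul_left k2 hp.le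
  omega

end Pool.Agent.H18.CanHt
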