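import Mathlib

namespace Pool.Agent.H18.Carry

open Finset

/-- adding `a` and `b` in base `p` produces no carry -/
def NC (p a b : ℕ) : Prop := ∀ t, a % p ^ t + b % p ^ t < p ^ t

lemma not_dvd_iff {p : ℕ} (hp : p.Prime) (a b : ℕ) : ¬ p ∣ (b + a).choose a ↔ NC p a b := by
  have hne : (b + a).choose a ≠ 0 := Nat.choose_ne_zero (Nat.le_add_left a b)
  rw [hp.dvd_iff_one_le_factorization hne]
  constructor
  · intro h t
    by_contra hc
    apply h
    have hb : Nat.log p (b + a) < Nat.log p (b + a) + t + 1 := by omega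
    rw [Nat.factorization_choose' hp hb]
    apply Finset.card_pos.mpr
    refine ⟨t, ?_⟩
    simp only [mem_filter, mem_Ico]
    refine ⟨⟨?_, by omega⟩, by omega⟩
    rcases Nat.eq_zero_or_pos t with rfl | h0
    · simp [Nat.mod_one] at hc
    · exact h0
  · intro h
    rw [Nat.factorization_choose' hp (Nat.lt_succ_self _)]
    have : #{i ∈ Finset.Ico 1 (Nat.log p (b + a)).succ | p ^ i ≤ a % p ^ i + b % p ^ i} = 0 := by
      rw [Finset.card_eq_zero, Finset.filter_eq_empty_iff]
      intro i _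
      have := h i
      omega
    omega

lemma nc_step {p a b : ℕ} (h0 : a % p + b % p < p) (h : NC p (a / p) (b / p)) : NC p a b := by
  intro t
  cases t with
  | zero => simp [Nat.mod_one]
  | succ t =>
    rw [pow_succ', Nat.mod_mul, Nat.mod_mul]
    have h1 := h t
    have : p * (a / p % p ^ t + b / p % p ^ t + 1) ≤ p * p ^ t := Nat.mul_le_mul_left _ h1
    nlinarith

lemma nc_zero {p : ℕ} (hp : 0 < p) (a : ℕ) : NC p a 0 := by
  intro t
  simpa using Nat.mod_lt _ (pow_pos hp t)

lemma nc_shift {p : ℕ} (hp : 0 < p) (j : ℕ) : ∀ a b, NC p (a / p ^ j) b → NC p a (p ^ j * b) := by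
  induction j with
  | zero => intro a b h; simpa using h
  | succ j ih =>
    intro a b h
    apply nc_step
    · rw [pow_succ', mul_assoc, Nat.mul_mod_right]
      simpa using Nat.mod_lt _ hp
    · rw [pow_succ', mul_assoc, Nat.mul_div_cancel_left _ hp]
      apply ih
      rwa [Nat.div_div_eq_div_mul, ← pow_succ']

lemma nc_congr {p a b b' L : ℕ} (hp : 0 < p) (ha : a < p ^ L) (hb : b ≡ b' [MOD p ^ L])
    (h : NC p a b) : NC p a b' := by
  intro t
  rcases le_total t L with htL | htL
  · have : b % p ^ t = b' % p ^ t := hb.of_dvd (pow_dvd_pow p htL)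
    rw [← this]; exact h t
  · obtain ⟨d, rfl⟩ := Nat.exists_eq_add_of_le htL
    have h1 := h L
    rw [Nat.mod_eq_of_lt ha, show b % p ^ L = b' % p ^ L from hb] at h1
    have h2 : a % p ^ (L + d) ≤ a := Nat.mod_le _ _
    rw [pow_add] at h2 ⊢
    rw [Nat.mod_mul (x := b')]
    have h3 : b' / p ^ L % p ^ d < p ^ d := Nat.mod_lt _ (pow_pos hp d)
    have : p ^ L * (b' / p ^ L % p ^ d + 1) ≤ p ^ L * p ^ d := Nat.mul_le_mul_left _ h3
    nlinarith

lemma nc_small {p a b : ℕ} (h : a + b < p) : NC p a b := by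
  have hp : 0 < p := by omega
  apply nc_step
  · have := Nat.mod_le a p
    have := Nat.mod_le b p
    omega
  · rw [Nat.div_eq_of_lt (by omega : b < p)]
    exact nc_zero hp _

lemma nc_compl {p a b e : ℕ} (hp : 0 < p) (h : a + b + 1 = p ^ e) : NC p a b := by
  intro t
  rcases le_total t e with hte | hte
  · have hq : 0 < p ^ t := pow_pos hp t
    have h1 : p ^ t ∣ a % p ^ t + b % p ^ t + 1 := by
      have h2 : a % p ^ t + b % p ^ t + 1 ≡ a + b + 1 [MOD p ^ t] :=
        ((Nat.mod_modEq _ _).add (Nat.mod_modEq _ _)).add_right 1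
      rw [h] at h2
      exact (h2.dvd_iff dvd_rfl).mpr (pow_dvd_pow p hte)
    obtain ⟨c, hc⟩ := h1
    have ha := Nat.mod_lt a hq
    have hb := Nat.mod_lt b hq
    have : c < 2 := by
      by_contra hc2
      have : p ^ t * 2 ≤ p ^ t * c := Nat.mul_le_mul_left _ (by omega)
      omega
    have : p ^ t * c ≤ p ^ t * 1 := Nat.mul_le_mul_left _ (by omega)
    omega
  · have := Nat.mod_le a (p ^ t)
    have := Nat.mod_le b (p ^ t)
    have : p ^ e ≤ p ^ t := Nat.pow_le_pow_right hp hte
    omega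

lemma decomp {p : ℕ} (hp : 0 < p) (r : ℕ) : ∀ a, ¬ p ^ r ∣ a + 1 →
    ∃ j n V K0, j + (n + 1) = r ∧ K0 + 2 ≤ p ∧ a / p ^ j + p = K0 + p ^ (n + 1) * V := by
  induction r with
  | zero => intro a h; simp at h
  | succ r ih =>
    intro a h
    by_cases h1 : p ^ r ∣ a / p + 1
    · obtain ⟨V, hV⟩ := h1
      have hd := Nat.div_add_mod a p
      have hlt := Nat.mod_lt a hp
      have h2 : p ^ (r + 1) * V = p * (a / p) + p := by
        rw [pow_succ', mul_assoc, ← hV]; ring
      refine ⟨0, r, V, a % p, by omega, ?_, ?_⟩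
      · by_contra hc
        apply h
        exact ⟨V, by omega⟩
      · simp only [pow_zero, Nat.div_one]; omega
    · obtain ⟨j, n, V, K0, h2, h3, h4⟩ := ih _ h1
      refine ⟨j + 1, n, V, K0, by omega, h3, ?_⟩
      rwa [Nat.div_div_eq_div_mul, ← pow_succ'] at h4

end Pool.Agent.H18.Carry
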