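import Pool.Agent.H18.Sieve

namespace Pool.Agent.H18.Chi4

open Finset Pool.Agent.H18.Sieve

/-- real character mod four -/
noncomputable def ch (n : ℕ) : ℝ := ((ZMod.χ₄ (n : ZMod 4) : ℤ) : ℝ)

lemma ch_mul (a b : ℕ) : ch (a * b) = ch a * ch b := by
  unfold ch
  rw [Nat.cast_mul, map_mul, Int.cast_mul]

lemma ch_one : ch 1 = 1 := by simp [ch]

lemma ch_pow (a k : ℕ) : ch (a ^ k) = ch a ^ k := by
  unfold ch
  rw [Nat.cast_pow, map_pow, Int.cast_pow]

lemma ch_eq (n : ℕ) : ch n = if n % 2 = 0 then 0 else if n % 4 = 1 then 1 else -1 := by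
  unfold ch
  rw [ZMod.χ₄_nat_eq_if_mod_four]
  split_ifs <;> simp

noncomputable def zi : ArithmeticFunction ℝ := ⟨fun n => (n : ℝ)⁻¹, by simp⟩
noncomputable def ci : ArithmeticFunction ℝ := ⟨fun n => ch n / n, by simp⟩
noncomputable def ui : ArithmeticFunction ℝ :=
  (ArithmeticFunction.prodPrimeFactors (fun p => 1 - ch p)).pmul zi

lemma zi_apply (n : ℕ) : zi n = (n : ℝ)⁻¹ := rfl
lemma ci_apply (n : ℕ) : ci n = ch n / n := rfl

lemma zi_mult : zi.IsMultiplicative := by
  refine ⟨by simp [zi_apply], ?_⟩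
  intro m n _
  simp [zi_apply, mul_comm]

lemma ci_mult : ci.IsMultiplicative := by
  refine ⟨by simp [ci_apply, ch_one], ?_⟩
  intro m n _
  simp only [ci_apply, ch_mul, Nat.cast_mul]
  rw [mul_div_mul_comm]

lemma ui_mult : ui.IsMultiplicative :=
  (ArithmeticFunction.IsMultiplicative.prodPrimeFactors _).pmul zi_mult

lemma ui_pow (p k : ℕ) (hp : p.Prime) (hk : k ≠ 0) :
    ui (p ^ k) = (1 - ch p) * ((p : ℝ)⁻¹) ^ k := by
  unfold ui
  rw [ArithmeticFunction.pmul_apply,
    ArithmeticFunction.prodPrimeFactors_apply (pow_ne_zero _ hp.ne_zero),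
    Nat.primeFactors_prime_pow hk hp]
  simp [zi_apply]

lemma mul_pow_apply (f g : ArithmeticFunction ℝ) (p k : ℕ) (hp : p.Prime) :
    (f * g) (p ^ k) = ∑ j ∈ range (k + 1), f (p ^ j) * g (p ^ (k - j)) := by
  rw [ArithmeticFunction.mul_apply, Nat.sum_divisorsAntidiagonal (fun a b => f a * g b),
    Nat.sum_divisors_prime_pow hp]
  apply sum_congr rfl
  intro j hj
  rw [Nat.pow_div (by simpa [Nat.lt_succ_iff] using hj) hp.pos]

lemma ui_mul_ci : ui * ci = zi := by
  rw [ArithmeticFunction.IsMultiplicative.eq_iff_eq_on_prime_powers _ (ui_mult.mul ci_mult) _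
    zi_mult]
  intro p k hp
  rw [mul_pow_apply _ _ p k hp, sum_range_succ']
  have hp0 : (p : ℝ) ≠ 0 := by exact_mod_cast hp.ne_zero
  have : ∀ j ∈ range k, ui (p ^ (j + 1)) * ci (p ^ (k - (j + 1))) =
      ((p : ℝ)⁻¹) ^ k * ((1 - ch p) * ch p ^ (k - 1 - j)) := by
    intro j hj
    have hj' := mem_range.1 hj
    rw [ui_pow p _ hp (by omega), ci_apply, ch_pow]
    have e : k = (j + 1) + (k - (j + 1)) := by omega
    have e2 : k - 1 - j = k - (j + 1) := by omega
    rw [e2]
    conv_rhs => rw [e]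
    rw [Nat.add_sub_cancel_left]
    push_cast
    rw [pow_add ((p : ℝ)⁻¹), div_eq_mul_inv, ← inv_pow]
    ring
  rw [sum_congr rfl this, ← mul_sum, ← mul_sum, sum_range_reflect (fun j => ch p ^ j) k,
    mul_neg_geom_sum]
  simp only [pow_zero, ui_mult.map_one, Nat.sub_zero, ci_apply, zi_apply, ch_pow]
  push_cast
  rw [inv_pow]
  field_simp
  ring

lemma partial_bounds (Y : ℕ) :
    (∑ m ∈ Ioc 0 (4 * Y + 2), ci m ≤ 1 - (1 / 3 - 1 / (4 * (Y : ℝ) + 3)) / 2) ∧
    (2 / 3 + 1 / (4 * (Y : ℝ) + 3) ≤ ∑ m ∈ Ioc 0 (4 * Y + 2), ci m) := by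
  induction Y with
  | zero =>
    have : Ioc 0 (4 * 0 + 2) = {1, 2} := by decide
    rw [this]
    simp [ci_apply, ch_eq]
    norm_num
  | succ Y ih =>
    have e : 4 * (Y + 1) + 2 = 4 * Y + 2 + 1 + 1 + 1 + 1 := by ring
    rw [e, sum_Ioc_succ_top (by omega), sum_Ioc_succ_top (by omega),
      sum_Ioc_succ_top (by omega), sum_Ioc_succ_top (by omega)]
    simp only [ci_apply, ch_eq]
    rw [if_neg (by omega), if_neg (by omega), if_pos (by omega), if_neg (by omega),
      if_pos (by omega), if_pos (by omega)]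
    simp only [ci_apply, ch_eq] at ih
    obtain ⟨h1, h2⟩ := ih
    push_cast
    have hY : (0 : ℝ) ≤ Y := Nat.cast_nonneg Y
    have a1 : (1 : ℝ) / (4 * Y + 4 + 1) - 1 / (4 * Y + 3) ≤
        (1 / (4 * (Y + 1) + 3) - 1 / (4 * (Y : ℝ) + 3)) / 2 := by
      rw [div_sub_div _ _ (by positivity) (by positivity),
        div_sub_div _ _ (by positivity) (by positivity), div_div,
        div_le_div_iff₀ (by positivity) (by positivity)]
      nlinarith [mul_nonneg hY hY]
    have a2 : (1 : ℝ) / (4 * (Y + 1) + 3) ≤ 1 / (4 * Y + 4 + 1) := by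
      apply one_div_le_one_div_of_le (by positivity)
      linarith
    have e3 : (-1 : ℝ) / (4 * Y + 2 + 1) = -(1 / (4 * Y + 3)) := by
      rw [neg_div]; congr 2; ring
    rw [e3]
    constructor
    · simp only [zero_div, add_zero]
      linarith
    · simp only [zero_div, add_zero]
      linarith

lemma partial_ci (Y : ℕ) (hY : 1 ≤ Y) :
    2 / 3 ≤ ∑ m ∈ Ioc 0 Y, ci m ∧ ∑ m ∈ Ioc 0 Y, ci m ≤ 1 := by
  rcases (show Y = 1 ∨ 2 ≤ Y by omega) with rfl | hY2
  · have : Ioc 0 1 = {1} := by decide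
    rw [this]
    simp [ci_apply, ch_eq]
    norm_num
  obtain ⟨t, r, hr, rfl⟩ : ∃ t r, r < 4 ∧ Y = 4 * t + 2 + r :=
    ⟨(Y - 2) / 4, (Y - 2) % 4, Nat.mod_lt _ (by norm_num), by omega⟩
  obtain ⟨h1, h2⟩ := partial_bounds t
  have ht : (0 : ℝ) ≤ t := Nat.cast_nonneg t
  have b1 : (1 : ℝ) / (4 * t + 3) ≤ 1 / 3 := by
    apply one_div_le_one_div_of_le (by positivity)
    linarith
  have b2 : (0 : ℝ) < 1 / (4 * t + 3) := by positivity
  have b3 : (1 : ℝ) / (4 * t + 5) ≤ 1 / (4 * t + 3) := by
    apply one_div_le_one_div_of_le (by positivity)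
    linarith
  have b4 : (0 : ℝ) < 1 / (4 * t + 5) := by positivity
  have c1 : ci (4 * t + 2 + 1) = -(1 / (4 * t + 3)) := by
    rw [ci_apply, ch_eq, if_neg (by omega), if_neg (by omega), neg_div]
    push_cast
    congr 2; ring
  have c2 : ci (4 * t + 2 + 1 + 1) = 0 := by
    rw [ci_apply, ch_eq, if_pos (by omega), zero_div]
  have c3 : ci (4 * t + 2 + 1 + 1 + 1) = 1 / (4 * t + 5) := by
    rw [ci_apply, ch_eq, if_neg (by omega), if_pos (by omega)]
    push_cast
    congr 1; ring
  interval_cases r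
  · rw [add_zero]
    constructor <;> linarith
  · rw [sum_Ioc_succ_top (by omega), c1]
    constructor <;> linarith
  · rw [show 4 * t + 2 + 2 = 4 * t + 2 + 1 + 1 by ring, sum_Ioc_succ_top (by omega),
      sum_Ioc_succ_top (by omega), c1, c2]
    constructor <;> linarith
  · rw [show 4 * t + 2 + 3 = 4 * t + 2 + 1 + 1 + 1 by ring, sum_Ioc_succ_top (by omega),
      sum_Ioc_succ_top (by omega), sum_Ioc_succ_top (by omega), c1, c2, c3]
    constructor <;> linarith

lemma log_le_sum_zi (X : ℕ) : Real.log X ≤ ∑ n ∈ Ioc 0 X, zi n := by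
  have h := log_add_one_le_harmonic X
  have e : ((harmonic X : ℚ) : ℝ) = ∑ n ∈ Ioc 0 X, zi n := by
    rw [harmonic_eq_sum_Icc]
    push_cast
    rfl
  rw [← e]
  refine le_trans ?_ h
  rcases Nat.eq_zero_or_pos X with rfl | hX
  · simp
  · apply Real.log_le_log (by exact_mod_cast hX)
    push_cast
    linarith

lemma ch_cases (p : ℕ) : ch p = 0 ∨ ch p = 1 ∨ ch p = -1 := by
  rw [ch_eq]
  split_ifs <;> simp

lemma ui_nonneg (n : ℕ) : 0 ≤ ui n := by
  apply nonneg_of_prime_pow ui ui_mult
  intro p k hp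
  rcases eq_or_ne k 0 with rfl | hk
  · simp [ui_mult.map_one]
  · rw [ui_pow p k hp hk]
    apply mul_nonneg _ (by positivity)
    rcases ch_cases p with h | h | h <;> rw [h] <;> norm_num

lemma geom_le (x : ℝ) (hx0 : 0 ≤ x) (hx : x < 1) (K : ℕ) :
    ∑ k ∈ Icc 1 K, x ^ k ≤ x / (1 - x) := by
  have h : ∀ K : ℕ, ∑ k ∈ Icc 1 K, x ^ k = (x - x ^ (K + 1)) / (1 - x) := by
    intro K
    have h1 : 1 - x ≠ 0 := by linarith
    induction K with
    | zero => simp
    | succ K ih =>
      rw [sum_Icc_succ_top (by omega), ih]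
      field_simp
      ring
  rw [h]
  have : 0 ≤ x ^ (K + 1) := by positivity
  apply div_le_div_of_nonneg_right _ (by linarith)
  linarith

/-- The primes congruent to three modulo four up to `X`. -/
def B3 (X : ℕ) : Finset ℕ := ((Icc 1 X).filter Nat.Prime).filter (fun p => p % 4 = 3)
/-- The primes congruent to one modulo four up to `X`. -/
def A1 (X : ℕ) : Finset ℕ := ((Icc 1 X).filter Nat.Prime).filter (fun p => p % 4 = 1)

lemma log_le_B3 (X : ℕ) :
    Real.log X ≤ 2 * (∏ p ∈ B3 X, (1 + 1 / ((p : ℝ) - 1))) ^ 2 := by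
  have h1 := log_le_sum_zi X
  have h2 : ∑ n ∈ Ioc 0 X, zi n ≤ ∑ n ∈ Icc 1 X, ui n := by
    rw [← ui_mul_ci, ArithmeticFunction.sum_Ioc_mul_eq_sum_sum]
    apply sum_le_sum
    intro n hn
    have hn' := mem_Ioc.1 hn
    have := (partial_ci (X / n) (by
      rw [Nat.le_div_iff_mul_le hn'.1]; omega)).2
    nlinarith [ui_nonneg n]
  set F : ℕ → ℝ := fun p => (1 - ch p) * (1 / ((p : ℝ) - 1)) with hF
  have hF0 : ∀ p, p.Prime → 0 ≤ F p := by
    intro p hp
    have : (2 : ℝ) ≤ p := by exact_mod_cast hp.two_le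
    apply mul_nonneg
    · rcases ch_cases p with h | h | h <;> rw [h] <;> norm_num
    · apply div_nonneg zero_le_one
      linarith
  have h3 := sum_le_W ui ui_mult ui_nonneg F X (by
    intro p hp
    have hp2 : (2 : ℝ) ≤ p := by exact_mod_cast hp.two_le
    rw [sum_congr rfl (fun k hk => ui_pow p k hp (by have := (mem_Icc.1 hk).1; omega)),
      ← mul_sum]
    apply mul_le_mul_of_nonneg_left
    · refine (geom_le _ (by positivity) (inv_lt_one_of_one_lt₀ (by linarith)) X).trans ?_
      apply le_of_eq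
      have : (p : ℝ) - 1 ≠ 0 := by linarith
      field_simp
    · rcases ch_cases p with h | h | h <;> rw [h] <;> norm_num)
  have h4 := W_le_prod ((Icc 1 X).filter Nat.Prime) (fun p hp => (mem_filter.1 hp).2.pos) X F
    (fun p hp => hF0 p (mem_filter.1 hp).2)
  have h5 : ∏ p ∈ (Icc 1 X).filter Nat.Prime, (1 + F p) ≤
      2 * (∏ p ∈ B3 X, (1 + 1 / ((p : ℝ) - 1))) ^ 2 := by
    rw [← prod_filter_mul_prod_filter_not _ (fun p => p % 4 = 3), mul_comm]
    apply mul_le_mul
    · calc ∏ p ∈ ((Icc 1 X).filter Nat.Prime).filter (fun p => ¬ p % 4 = 3), (1 + F p)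
          ≤ ∏ p ∈ ((Icc 1 X).filter Nat.Prime).filter (fun p => ¬ p % 4 = 3),
            (if p = 2 then (2 : ℝ) else 1) := by
            apply prod_le_prod
            · intro p hp
              linarith [hF0 p (mem_filter.1 (mem_filter.1 hp).1).2]
            · intro p hp
              have hp' := (mem_filter.1 (mem_filter.1 hp).1).2
              have hp3 := (mem_filter.1 hp).2
              split_ifs with h2
              · subst h2
                simp [hF, ch_eq]
                norm_num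
              · have : p % 2 = 1 := hp'.eq_two_or_odd.resolve_left h2
                simp only [hF]
                rw [ch_eq, if_neg (by omega), if_pos (by omega)]
                simp
        _ ≤ 2 := by
            rw [prod_ite_eq']
            split_ifs <;> norm_num
    · rw [← prod_pow]
      apply prod_le_prod
      · intro p hp
        linarith [hF0 p (mem_filter.1 (mem_filter.1 hp).1).2]
      · intro p hp
        have hp3 := (mem_filter.1 hp).2
        simp only [hF]
        rw [ch_eq, if_neg (by omega), if_neg (by omega)]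
        nlinarith [sq_nonneg (1 / ((p : ℝ) - 1))]
    · apply prod_nonneg
      intro p hp
      linarith [hF0 p (mem_filter.1 (mem_filter.1 hp).1).2]
    · norm_num
  linarith

lemma r_pow (p k : ℕ) (hp : p.Prime) :
    (zi * ci) (p ^ k) = ((p : ℝ)⁻¹) ^ k * ∑ j ∈ range (k + 1), ch p ^ j := by
  rw [mul_pow_apply _ _ p k hp, ← sum_range_reflect (fun j => ch p ^ j), mul_sum]
  apply sum_congr rfl
  intro j hj
  have hj' := mem_range.1 hj
  rw [zi_apply, ci_apply, ch_pow]
  have e : k = j + (k - j) := by omega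
  have e2 : k + 1 - 1 - j = k - j := by omega
  rw [e2]
  conv_rhs => rw [e]
  rw [Nat.add_sub_cancel_left]
  push_cast
  rw [pow_add ((p : ℝ)⁻¹), div_eq_mul_inv, ← inv_pow, ← inv_pow]
  ring

lemma alt_sum (k : ℕ) : ∑ j ∈ range (k + 1), (-1 : ℝ) ^ j = if Even k then 1 else 0 := by
  rw [neg_one_geom_sum]
  by_cases h : Even k
  · rw [if_neg (by simpa [Nat.even_add_one] using h), if_pos h]
  · rw [if_pos (by simpa [Nat.even_add_one] using h), if_neg h]

lemma r_nonneg (n : ℕ) : 0 ≤ (zi * ci) n := by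
  apply nonneg_of_prime_pow _ (zi_mult.mul ci_mult)
  intro p k hp
  rw [r_pow p k hp]
  apply mul_nonneg (by positivity)
  rcases ch_cases p with h | h | h <;> rw [h]
  · exact sum_nonneg fun j _ => by positivity
  · exact sum_nonneg fun j _ => by positivity
  · rw [alt_sum]
    split_ifs <;> norm_num

lemma geom2_le (x : ℝ) (hx0 : 0 ≤ x) (hx : x < 1) (K : ℕ) :
    ∑ k ∈ Icc 1 K, x ^ k * (k + 1) ≤ (2 * x - x ^ 2) / (1 - x) ^ 2 := by
  have h : ∀ K : ℕ, ∑ k ∈ Icc 1 K, x ^ k * (k + 1) =
      (2 * x - x ^ 2 - x ^ (K + 1) * ((K + 2) * (1 - x) + x)) / (1 - x) ^ 2 := by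
    intro K
    have h1 : 1 - x ≠ 0 := by linarith
    induction K with
    | zero =>
      simp only [zero_lt_one, Icc_eq_empty_of_lt, sum_empty]
      rw [eq_comm, div_eq_zero_iff]
      left
      push_cast
      ring
    | succ K ih =>
      rw [sum_Icc_succ_top (by omega), ih]
      field_simp
      push_cast
      ring
  rw [h]
  have h1 : 0 < 1 - x := by linarith
  have : 0 ≤ x ^ (K + 1) * ((K + 2) * (1 - x) + x) := by positivity
  apply div_le_div_of_nonneg_right _ (by positivity)
  linarith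

lemma tele (X : ℕ) : ∑ p ∈ Icc 2 (X + 1), 1 / ((p : ℝ) * (p - 1)) = 1 - 1 / ((X : ℝ) + 1) := by
  induction X with
  | zero => simp
  | succ X ih =>
    rw [sum_Icc_succ_top (by omega), ih]
    push_cast
    have : (X : ℝ) + 1 + 1 - 1 = X + 1 := by ring
    rw [this]
    field_simp
    ring

lemma log_le_A1 (X : ℕ) :
    Real.log X ≤ 12 * W (A1 X) X (fun p => 2 / ((p : ℝ) - 2)) := by
  have h1 := log_le_sum_zi X
  have h2 : 2 / 3 * ∑ n ∈ Ioc 0 X, zi n ≤ ∑ n ∈ Icc 1 X, (zi * ci) n := by
    change _ ≤ ∑ n ∈ Ioc 0 X, (zi * ci) n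
    rw [ArithmeticFunction.sum_Ioc_mul_eq_sum_sum, mul_sum]
    apply sum_le_sum
    intro n hn
    have hn' := mem_Ioc.1 hn
    have := (partial_ci (X / n) (by
      rw [Nat.le_div_iff_mul_le hn'.1]; omega)).1
    have h0 : 0 ≤ zi n := by rw [zi_apply]; positivity
    nlinarith
  set F : ℕ → ℝ := fun p => if p % 4 = 1 then 2 / ((p : ℝ) - 2) else 2 / ((p : ℝ) * (p - 1))
    with hF
  have hF0 : ∀ p, p.Prime → 0 ≤ F p := by
    intro p hp
    have : (2 : ℝ) ≤ p := by exact_mod_cast hp.two_le
    simp only [hF]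
    split_ifs
    · apply div_nonneg (by norm_num); linarith
    · apply div_nonneg (by norm_num); nlinarith
  have h3 := sum_le_W _ (zi_mult.mul ci_mult) r_nonneg F X (by
    intro p hp
    have hp2 : (2 : ℝ) ≤ p := by exact_mod_cast hp.two_le
    have hx0 : (0 : ℝ) ≤ (p : ℝ)⁻¹ := by positivity
    have hx1 : (p : ℝ)⁻¹ < 1 := inv_lt_one_of_one_lt₀ (by linarith)
    simp only [r_pow p _ hp, hF]
    split_ifs with h41
    · have hc : ch p = 1 := by rw [ch_eq, if_neg (by omega), if_pos h41]
      have hp5 : (3 : ℝ) ≤ p := by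
        have : 3 ≤ p := by have := hp.two_le; omega
        exact_mod_cast this
      simp only [hc, one_pow, sum_const, card_range, nsmul_eq_mul, mul_one]
      push_cast
      refine (geom2_le _ hx0 hx1 X).trans ?_
      have e : (2 * (p : ℝ)⁻¹ - (p : ℝ)⁻¹ ^ 2) / (1 - (p : ℝ)⁻¹) ^ 2 =
          (2 * p - 1) / (p - 1) ^ 2 := by
        have : (p : ℝ) - 1 ≠ 0 := by linarith
        field_simp
      rw [e, div_le_div_iff₀ (by nlinarith) (by linarith)]
      nlinarith
    · rcases hp.eq_two_or_odd with rfl | hodd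
      · have hc : ch 2 = 0 := by rw [ch_eq, if_pos rfl]
        have : ∀ k : ℕ, ∑ j ∈ range (k + 1), ch 2 ^ j = 1 := by
          intro k
          rw [sum_range_succ', hc]
          simp
        simp only [this, mul_one]
        refine (geom_le _ hx0 hx1 X).trans ?_
        norm_num
      · have hc : ch p = -1 := by rw [ch_eq, if_neg (by omega), if_neg h41]
        simp only [hc, alt_sum]
        have : ∀ k ∈ Icc 1 X, (p : ℝ)⁻¹ ^ k * (if Even k then 1 else 0) ≤
            (p : ℝ)⁻¹ ^ k - (if k = 1 then (p : ℝ)⁻¹ else 0) := by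
          intro k _
          have : 0 ≤ (p : ℝ)⁻¹ ^ k := by positivity
          by_cases hk : k = 1
          · subst hk
            simp
          · rw [if_neg hk]
            split_ifs <;> linarith
        rcases Nat.eq_zero_or_pos X with rfl | hX
        · simp only [zero_lt_one, Icc_eq_empty_of_lt, sum_empty]
          apply div_nonneg (by norm_num); nlinarith
        refine (sum_le_sum this).trans ?_
        rw [sum_sub_distrib, sum_ite_eq', if_pos (mem_Icc.2 ⟨le_rfl, hX⟩)]
        have g := geom_le _ hx0 hx1 X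
        have e : (p : ℝ)⁻¹ / (1 - (p : ℝ)⁻¹) - (p : ℝ)⁻¹ = 1 / (p * (p - 1)) := by
          have : (p : ℝ) - 1 ≠ 0 := by linarith
          field_simp
          ring
        have e2 : (1 : ℝ) / (p * (p - 1)) ≤ 2 / (p * (p - 1)) := by
          apply div_le_div_of_nonneg_right (by norm_num); nlinarith
        linarith)
  set B := ((Icc 1 X).filter Nat.Prime).filter (fun p => ¬ p % 4 = 1) with hB
  have hU : (Icc 1 X).filter Nat.Prime = A1 X ∪ B := by
    rw [A1, hB, filter_union_filter_not_eq]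
  have h4 := W_union_le (A1 X) B (disjoint_filter_filter_not _ _ _)
    (fun p hp => (mem_filter.1 (mem_filter.1 hp).1).2.pos) X F
    (fun p hp => hF0 p (mem_filter.1 (hU ▸ hp)).2)
  rw [← hU] at h4
  have h5 : ∏ p ∈ B, (1 + F p) ≤ 8 := by
    calc ∏ p ∈ B, (1 + F p) ≤ Real.exp (∑ p ∈ B, F p) := by
          rw [Real.exp_sum]
          apply prod_le_prod
          · intro p hp
            linarith [hF0 p (mem_filter.1 (mem_filter.1 hp).1).2]
          · intro p _
            linarith [Real.add_one_le_exp (F p)]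
      _ ≤ Real.exp 2 := by
          apply Real.exp_le_exp.2
          calc ∑ p ∈ B, F p = ∑ p ∈ B, 2 * (1 / ((p : ℝ) * (p - 1))) := by
                apply sum_congr rfl
                intro p hp
                simp only [hF]
                rw [if_neg (mem_filter.1 hp).2]
                ring
            _ ≤ ∑ p ∈ Icc 2 (X + 1), 2 * (1 / ((p : ℝ) * (p - 1))) := by
                apply sum_le_sum_of_subset_of_nonneg
                · intro p hp
                  have a := mem_filter.1 (mem_filter.1 hp).1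
                  have b := mem_Icc.1 a.1
                  exact mem_Icc.2 ⟨a.2.two_le, by omega⟩
                · intro p hp _
                  have : (2 : ℝ) ≤ p := by exact_mod_cast (mem_Icc.1 hp).1
                  apply mul_nonneg (by norm_num)
                  apply div_nonneg (by norm_num); nlinarith
            _ ≤ 2 := by
                rw [← mul_sum, tele]
                have : (0 : ℝ) ≤ 1 / ((X : ℝ) + 1) := by positivity
                linarith
      _ ≤ 8 := by
          have := Real.exp_one_lt_d9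
          have e : Real.exp 2 = Real.exp 1 * Real.exp 1 := by rw [← Real.exp_add]; norm_num
          rw [e]
          nlinarith [Real.exp_pos 1]
  have h6 : W (A1 X) X F = W (A1 X) X (fun p => 2 / ((p : ℝ) - 2)) := by
    unfold W
    apply sum_congr rfl
    intro T hT
    apply prod_congr rfl
    intro p hp
    have := mem_powerset.1 (mem_filter.1 hT).1 hp
    simp only [hF]
    rw [if_pos (mem_filter.1 this).2]
  have h7 : 0 ≤ W (A1 X) X F :=
    W_nonneg _ _ _ (fun p hp => hF0 p (mem_filter.1 (mem_filter.1 hp).1).2)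
  rw [← h6]
  nlinarith

end Pool.Agent.H18.Chi4
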