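import Mathlib

namespace Pool.Agent.H18.Cov

open Finset

/-- Polynomial maps from a group to an abelian group (all `k`-fold differences vanish). -/
def Poly {G A : Type} [Group G] [AddCommGroup A] : ℕ → (G → A) → Prop
  | 0, f => f = 0
  | k + 1, f => ∀ g : G, Poly k (fun x => f (x * g) - f x)

section basic
variable {G G' A A' : Type} [Group G] [Group G'] [AddCommGroup A] [AddCommGroup A']

lemma poly_zero : ∀ k : ℕ, Poly k (0 : G → A)
  | 0 => rfl
  | k + 1 => fun g => by
      have : (fun x : G => (0 : G → A) (x * g) - (0 : G → A) x) = 0 := by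
        funext x; simp
      rw [this]; exact poly_zero k

lemma poly_add : ∀ (k : ℕ) {f f' : G → A}, Poly k f → Poly k f' → Poly k (f + f')
  | 0, f, f', h, h' => by
      have h1 : f = 0 := h
      have h2 : f' = 0 := h'
      show f + f' = 0
      rw [h1, h2, add_zero]
  | k + 1, f, f', h, h' => fun g => by
      have := poly_add k (h g) (h' g)
      have e : (fun x => (f + f') (x * g) - (f + f') x) =
          (fun x => f (x * g) - f x) + (fun x => f' (x * g) - f' x) := by
        funext x; simp only [Pi.add_apply]; abel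
      rw [e]; exact this

lemma poly_comp : ∀ (k : ℕ) (θ : A →+ A') {f : G → A}, Poly k f → Poly k (fun x => θ (f x))
  | 0, θ, f, h => by
      have h1 : f = 0 := h
      show (fun x => θ (f x)) = 0
      funext x; simp [h1]
  | k + 1, θ, f, h => fun g => by
      have := poly_comp k θ (h g)
      have e : (fun x => θ (f (x * g)) - θ (f x)) = fun x => θ (f (x * g) - f x) := by
        funext x; rw [map_sub]
      rw [e]; exact this

lemma poly_neg (k : ℕ) {f : G → A} (h : Poly k f) : Poly k (-f) :=
  poly_comp k (-AddMonoidHom.id A) h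

lemma poly_succ : ∀ (k : ℕ) {f : G → A}, Poly k f → Poly (k + 1) f
  | 0, f, h => fun g => by
      have h1 : f = 0 := h
      show (fun x => f (x * g) - f x) = 0
      funext x; simp [h1]
  | k + 1, _, h => fun g => poly_succ k (h g)

lemma poly_mono {k l : ℕ} (hkl : k ≤ l) {f : G → A} (h : Poly k f) : Poly l f := by
  induction l, hkl using Nat.le_induction with
  | base => exact h
  | succ l _ ih => exact poly_succ l ih

lemma poly_pull (σ α : G → G') (hσ : ∀ x g, σ (x * g) = σ x * α g) :
    ∀ (k : ℕ) {f : G' → A}, Poly k f → Poly k (fun x => f (σ x))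
  | 0, f, h => by
      have h1 : f = 0 := h
      show (fun x => f (σ x)) = 0
      funext x; simp [h1]
  | k + 1, f, h => fun g => by
      have := poly_pull σ α hσ k (h (α g))
      have e : (fun x => f (σ (x * g)) - f (σ x)) = fun x => f (σ x * α g) - f (σ x) := by
        funext x; rw [hσ]
      rw [e]; exact this

lemma poly_transl (k : ℕ) {f : G → A} (h : Poly k f) (g : G) : Poly k (fun x => f (x * g)) :=
  poly_pull (fun x => x * g) (fun y => g⁻¹ * y * g) (fun x y => by group) k h

lemma poly_desc (π : G →* G') (hπ : Function.Surjective π) :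
    ∀ (k : ℕ) {f : G' → A}, Poly k (fun x => f (π x)) → Poly k f
  | 0, f, h => by
      have h1 : (fun x => f (π x)) = 0 := h
      show f = 0
      funext y
      obtain ⟨x, rfl⟩ := hπ y
      exact congrFun h1 x
  | k + 1, f, h => fun g => by
      obtain ⟨γ, rfl⟩ := hπ g
      apply poly_desc π hπ k
      have := h γ
      have e : (fun x => f (π (x * γ)) - f (π x)) = fun x => f (π x * π γ) - f (π x) := by
        funext x; rw [map_mul]
      rw [e] at this
      exact this

lemma poly_const (a : A) : Poly 1 (fun _ : G => a) := fun g => by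
  show (fun _ : G => a - a) = 0
  funext x; simp

/-- The polynomial maps as an additive subgroup. -/
def PolySub (k : ℕ) (G A : Type) [Group G] [AddCommGroup A] : AddSubgroup (G → A) where
  carrier := {f | Poly k f}
  zero_mem' := poly_zero k
  add_mem' := fun h h' => poly_add k h h'
  neg_mem' := fun h => poly_neg k h

lemma poly_mul {B : Type} [Ring B] : ∀ (N i j : ℕ) {f f' : G → B}, i + j ≤ N → Poly i f →
    Poly j f' → Poly (i + j) (fun x => f x * f' x)
  | _, 0, j, f, f', _, h, _ => by
      have h1 : f = 0 := h
      have : (fun x => f x * f' x) = 0 := by funext x; simp [h1]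
      rw [this]; exact poly_zero _
  | _, i + 1, 0, f, f', _, _, h' => by
      have h1 : f' = 0 := h'
      have : (fun x => f x * f' x) = 0 := by funext x; simp [h1]
      rw [this]; exact poly_zero _
  | 0, i + 1, j + 1, _, _, hN, _, _ => by omega
  | N + 1, i + 1, j + 1, f, f', hN, h, h' => by
      have e0 : i + 1 + (j + 1) = (i + j + 1) + 1 := by ring
      rw [e0]
      intro g
      have h1 := poly_mul N i (j + 1) (by omega) (h g) (poly_transl (j + 1) h' g)
      have h2 := poly_mul N (i + 1) j (by omega) h (h' g)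
      have e1 : i + (j + 1) = i + j + 1 := by ring
      have e2 : i + 1 + j = i + j + 1 := by ring
      rw [e1] at h1
      rw [e2] at h2
      have := poly_add _ h1 h2
      have e : (fun x => f (x * g) * f' (x * g) - f x * f' x) =
          (fun x => (f (x * g) - f x) * f' (x * g)) + (fun x => f x * (f' (x * g) - f' x)) := by
        funext x; simp only [Pi.add_apply]; noncomm_ring
      rw [e]; exact this

lemma poly_pow {B : Type} [Ring B] (i : ℕ) {f : G → B} (h : Poly i f) :
    ∀ j : ℕ, Poly ((j + 1) * i) (fun x => f x ^ (j + 1))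
  | 0 => by simpa using h
  | j + 1 => by
      have := poly_mul _ _ _ le_rfl (poly_pow i h j) h
      have e : (j + 1 + 1) * i = (j + 1) * i + i := by ring
      rw [e]
      have e2 : (fun x => f x ^ (j + 1 + 1)) = fun x => f x ^ (j + 1) * f x := by
        funext x; rw [pow_succ (f x) (j + 1)]
      rw [e2]; exact this

end basic

lemma nat_step {p s j a b : ℕ} (hp : p.Prime) (hab : a ∣ b) (hne : a ≠ b) (hb : b ∣ p ^ s)
    (ha : p ^ j ∣ a) : p ^ (j + 1) ∣ b := by
  obtain ⟨i', _, rfl⟩ := (Nat.dvd_prime_pow hp).1 hb
  obtain ⟨i, hi, rfl⟩ := (Nat.dvd_prime_pow hp).1 hab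
  have h1 : j ≤ i := (Nat.pow_dvd_pow_iff_le_right hp.one_lt).1 ha
  have h2 : i ≠ i' := fun h => hne (by rw [h])
  exact pow_dvd_pow p (by omega)

lemma gens {G : Type} [Group G] {p n : ℕ} (hp : p.Prime) (hG : Nat.card G ∣ p ^ n) :
    ∃ S : Finset G, S.card ≤ n ∧ Subgroup.closure (S : Set G) = ⊤ := by
  classical
  have hpos : 0 < p ^ n := pow_pos hp.pos n
  haveI : Finite G := Nat.finite_of_card_ne_zero (fun h => by
    rw [h] at hG; exact hpos.ne' (Nat.eq_zero_of_zero_dvd hG))
  have key : ∀ j : ℕ, ∃ S : Finset G, S.card ≤ j ∧ (Subgroup.closure (S : Set G) = ⊤ ∨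
      p ^ j ∣ Nat.card (Subgroup.closure (S : Set G))) := by
    intro j
    induction j with
    | zero => exact ⟨∅, by simp, Or.inr (by simp)⟩
    | succ j ih =>
      obtain ⟨S, hS, h⟩ := ih
      by_cases ht : Subgroup.closure (S : Set G) = ⊤
      · exact ⟨S, by omega, Or.inl ht⟩
      · have h := h.resolve_left ht
        obtain ⟨x, hx⟩ : ∃ x, x ∉ Subgroup.closure (S : Set G) := by
          by_contra hc
          push Not at hc
          exact ht ((Subgroup.eq_top_iff' _).2 hc)
        refine ⟨insert x S, (card_insert_le x S).trans (by omega), Or.inr ?_⟩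
        have hle : Subgroup.closure (S : Set G) ≤ Subgroup.closure ((insert x S : Finset G) : Set G) :=
          Subgroup.closure_mono (by simp)
        refine nat_step hp (Subgroup.card_dvd_of_le hle) ?_
          ((Subgroup.card_subgroup_dvd_card _).trans hG) h
        intro hc
        have := Subgroup.eq_of_le_of_card_ge hle hc.ge
        apply hx
        rw [this]
        exact Subgroup.subset_closure (by simp)
  obtain ⟨S, hS, h⟩ := key n
  refine ⟨S, hS, h.elim id fun h => ?_⟩
  exact Subgroup.eq_top_of_card_eq _
    (Nat.dvd_antisymm (Subgroup.card_subgroup_dvd_card _) (hG.trans h))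

lemma gens_add {V : Type} [AddCommGroup V] {p n : ℕ} (hp : p.Prime) (hV : Nat.card V ∣ p ^ n) :
    ∃ S : Finset V, S.card ≤ n ∧ AddSubgroup.closure (S : Set V) = ⊤ := by
  obtain ⟨S, hS, h⟩ := gens (G := Multiplicative V) hp hV
  refine ⟨S, hS, ?_⟩
  rw [AddSubgroup.eq_top_iff']
  intro x
  have hx : Multiplicative.ofAdd x ∈ Subgroup.closure (S : Set (Multiplicative V)) := by
    rw [h]; trivial
  have : ∀ y : Multiplicative V, y ∈ Subgroup.closure (S : Set (Multiplicative V)) →
      Multiplicative.toAdd y ∈ AddSubgroup.closure ((show Finset V from S) : Set V) := by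
    intro y hy
    induction hy using Subgroup.closure_induction with
    | mem z hz => exact AddSubgroup.subset_closure hz
    | one => exact AddSubgroup.zero_mem _
    | mul a b _ _ ha hb => exact AddSubgroup.add_mem _ ha hb
    | inv a _ ha => exact AddSubgroup.neg_mem _ ha
  exact this _ hx

lemma card_End {V : Type} [AddCommGroup V] {p s : ℕ} (hp : p.Prime) (hV : Nat.card V ∣ p ^ s) :
    Nat.card (AddMonoid.End V) ∣ p ^ (s * s) := by
  classical
  obtain ⟨S, hS, h⟩ := gens_add hp hV
  let θ : AddMonoid.End V →+ (S → V) :=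
    { toFun := fun b x => b x
      map_zero' := rfl
      map_add' := fun _ _ => rfl }
  have hθ : Function.Injective θ := by
    intro b b' hb
    apply AddMonoidHom.eq_of_eqOn_dense h
    intro x hx
    exact congrFun hb ⟨x, hx⟩
  refine (AddSubgroup.card_dvd_of_injective θ hθ).trans ?_
  rw [Nat.card_fun, Nat.card_eq_fintype_card (α := S), Fintype.card_coe]
  calc Nat.card V ^ S.card ∣ (p ^ s) ^ S.card := pow_dvd_pow_of_dvd hV _
    _ ∣ p ^ (s * s) := by rw [← pow_mul]; exact pow_dvd_pow p (Nat.mul_le_mul_left s hS)

lemma card_PolySub {G A : Type} [Group G] [AddCommGroup A] {p d a : ℕ} (hp : p.Prime)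
    (hG : Nat.card G ∣ p ^ d) (hA : Nat.card A ∣ p ^ a) :
    ∀ k : ℕ, Nat.card (PolySub k G A) ∣ p ^ (a * (d + 1) ^ k) := by
  classical
  obtain ⟨S, hS, h⟩ := gens hp hG
  intro k
  induction k with
  | zero =>
    have : PolySub 0 G A = ⊥ := by
      rw [eq_bot_iff]; intro f hf; exact (AddSubgroup.mem_bot).2 hf
    rw [this]; simp
  | succ k ih =>
    let θ : PolySub (k + 1) G A →+ A × (S → PolySub k G A) :=
      { toFun := fun f => (f.1 1, fun g => ⟨fun x => f.1 (x * g) - f.1 x, f.2 g⟩)
        map_zero' := by
          refine Prod.ext rfl ?_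
          funext g; apply Subtype.ext; funext x; simp
        map_add' := fun f f' => by
          refine Prod.ext rfl ?_
          funext g; apply Subtype.ext; funext x
          simp only [AddSubgroup.coe_add, Pi.add_apply, Prod.snd_add]
          abel }
    have hθ : Function.Injective θ := by
      rw [injective_iff_map_eq_zero]
      intro f hf
      have h1 : f.1 1 = 0 := congrArg Prod.fst hf
      have h2 : ∀ g ∈ S, ∀ x, f.1 (x * g) = f.1 x := by
        intro g hg x
        have := congrFun (congrArg Subtype.val (congrFun (congrArg Prod.snd hf) ⟨g, hg⟩)) x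
        exact sub_eq_zero.1 this
      have h3 : ∀ g : G, ∀ x, f.1 (x * g) = f.1 x := by
        intro g
        have hg : g ∈ Subgroup.closure (S : Set G) := by rw [h]; trivial
        induction hg using Subgroup.closure_induction with
        | mem z hz => exact h2 z hz
        | one => intro x; rw [mul_one]
        | mul a b _ _ ha hb => intro x; rw [← mul_assoc, hb, ha]
        | inv a _ ha => intro x; rw [← ha (x * a⁻¹)]; simp
      apply Subtype.ext
      funext x
      have := h3 x 1
      rw [one_mul] at this
      rw [this, h1]; rfl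
    refine (AddSubgroup.card_dvd_of_injective θ hθ).trans ?_
    rw [Nat.card_prod, Nat.card_fun, Nat.card_eq_fintype_card (α := S), Fintype.card_coe]
    calc Nat.card A * Nat.card (PolySub k G A) ^ S.card
        ∣ p ^ a * (p ^ (a * (d + 1) ^ k)) ^ S.card :=
          mul_dvd_mul hA (pow_dvd_pow_of_dvd ih _)
      _ ∣ p ^ (a * (d + 1) ^ (k + 1)) := by
          rw [← pow_mul, ← pow_add]
          apply pow_dvd_pow
          have h1 : a ≤ a * (d + 1) ^ k := Nat.le_mul_of_pos_right a (by positivity)
          have h2 : a * (d + 1) ^ k * S.card ≤ a * (d + 1) ^ k * d := Nat.mul_le_mul_left _ hS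
          have h3 : a * (d + 1) ^ (k + 1) = a * (d + 1) ^ k + a * (d + 1) ^ k * d := by ring
          omega

section unip
variable {Γ V : Type} [Group Γ] [AddCommGroup V] (ρ : Γ →* AddMonoid.End V)

/-- The ascending filtration by iterated fixed points. -/
def W : ℕ → AddSubgroup V
  | 0 => ⊥
  | j + 1 =>
    { carrier := {v | ∀ g, ρ g v - v ∈ W j}
      zero_mem' := fun g => by simp
      add_mem' := fun {v w} hv hw g => by
        have := (W j).add_mem (hv g) (hw g)
        have e : ρ g (v + w) - (v + w) = ρ g v - v + (ρ g w - w) := by rw [map_add]; abel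
        rw [e]; exact this
      neg_mem' := fun {v} hv g => by
        have := (W j).neg_mem (hv g)
        have e : ρ g (-v) - (-v) = -(ρ g v - v) := by rw [map_neg]; abel
        rw [e]; exact this }

lemma mem_W_succ (j : ℕ) (v : V) : v ∈ W ρ (j + 1) ↔ ∀ g, ρ g v - v ∈ W ρ j := Iff.rfl

lemma W_le : ∀ j, W ρ j ≤ W ρ (j + 1)
  | 0 => bot_le
  | j + 1 => fun _ hv g => W_le j (hv g)

lemma W_inv (j : ℕ) (g : Γ) (v : V) (hv : v ∈ W ρ j) : ρ g v ∈ W ρ j := by
  cases j with
  | zero =>
    have : v = 0 := (AddSubgroup.mem_bot).1 hv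
    rw [this, map_zero]; exact AddSubgroup.zero_mem _
  | succ j =>
    have := (W ρ (j + 1)).add_mem (W_le ρ j (hv g)) hv
    simpa using this

lemma W_top {p s : ℕ} (hp : p.Prime) (hΓ : IsPGroup p Γ) (hV : Nat.card V ∣ p ^ s) :
    W ρ s = ⊤ := by
  haveI : Fact p.Prime := ⟨hp⟩
  have hpos : 0 < p ^ s := pow_pos hp.pos s
  haveI : Finite V := Nat.finite_of_card_ne_zero (fun h => by
    rw [h] at hV; exact hpos.ne' (Nat.eq_zero_of_zero_dvd hV))
  have key : ∀ j, W ρ j = ⊤ ∨ p ^ j ∣ Nat.card (W ρ j) := by
    intro j
    induction j with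
    | zero => exact Or.inr (by simp)
    | succ j ih =>
      by_cases ht : W ρ j = ⊤
      · exact Or.inl (top_le_iff.1 (ht ▸ W_le ρ j))
      · have h := ih.resolve_left ht
        refine Or.inr (nat_step hp (AddSubgroup.card_dvd_of_le (W_le ρ j)) ?_
          ((AddSubgroup.card_addSubgroup_dvd_card _).trans hV) h)
        intro hc
        have heq := AddSubgroup.eq_of_le_of_card_ge (W_le ρ j) hc.ge
        letI : MulAction Γ (V ⧸ W ρ j) :=
          { smul := fun g => QuotientAddGroup.map (W ρ j) (W ρ j) (ρ g) (fun v hv => W_inv ρ j g v hv)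
            one_smul := fun q => by
              induction q using QuotientAddGroup.induction_on with
              | H v =>
                show ((ρ 1 v : V) : V ⧸ W ρ j) = v
                rw [map_one]; rfl
            mul_smul := fun g g' q => by
              induction q using QuotientAddGroup.induction_on with
              | H v =>
                show ((ρ (g * g') v : V) : V ⧸ W ρ j) = ((ρ g (ρ g' v) : V) : V ⧸ W ρ j)
                rw [map_mul]; rfl }
        have hq : Nat.card (V ⧸ W ρ j) ∣ p ^ s := (AddSubgroup.card_quotient_dvd_card _).trans hV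
        have hq1 : Nat.card (V ⧸ W ρ j) ≠ 1 := by
          intro h1
          exact ht (AddSubgroup.index_eq_one.1 h1)
        have hpq : p ∣ Nat.card (V ⧸ W ρ j) := by
          obtain ⟨i, _, hi⟩ := (Nat.dvd_prime_pow hp).1 hq
          rw [hi] at hq1 ⊢
          exact dvd_pow_self p (fun h0 => hq1 (by rw [h0, pow_zero]))
        have h0 : (0 : V ⧸ W ρ j) ∈ MulAction.fixedPoints Γ (V ⧸ W ρ j) := by
          intro g
          exact map_zero (QuotientAddGroup.map (W ρ j) (W ρ j) (ρ g) (fun v hv => W_inv ρ j g v hv))
        obtain ⟨b, hb, hne⟩ := hΓ.exists_fixed_point_of_prime_dvd_card_of_fixed_point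
          (V ⧸ W ρ j) hpq h0
        induction b using QuotientAddGroup.induction_on with
        | H v =>
          apply hne
          symm
          rw [QuotientAddGroup.eq_zero_iff, heq]
          intro g
          have h1 : ((ρ g v : V) : V ⧸ W ρ j) = v := hb g
          exact (QuotientAddGroup.eq_iff_sub_mem).1 h1
  refine (key s).elim id fun h => ?_
  exact AddSubgroup.eq_top_of_card_eq _
    (Nat.dvd_antisymm (AddSubgroup.card_addSubgroup_dvd_card _) (hV.trans h))

lemma poly_rho : ∀ (j : ℕ) (b : AddMonoid.End V), (∀ v, b v ∈ W ρ j) →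
    Poly j (fun γ => ρ γ * b)
  | 0, b, hb => by
      have : b = 0 := by
        ext v; exact (AddSubgroup.mem_bot).1 (hb v)
      show (fun γ => ρ γ * b) = 0
      funext γ; simp [this]
  | j + 1, b, hb => fun g => by
      have := poly_rho j ((ρ g - 1) * b) (fun v => hb v g)
      have e : (fun x => ρ (x * g) * b - ρ x * b) = fun γ => ρ γ * ((ρ g - 1) * b) := by
        funext x; rw [map_mul]; noncomm_ring
      rw [e]; exact this

lemma nil_rho (g : Γ) : ∀ (j : ℕ) (v : V), v ∈ W ρ j → ((1 - ρ g) ^ j) v = 0
  | 0, v, hv => by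
      have : v = 0 := (AddSubgroup.mem_bot).1 hv
      rw [this, map_zero]
  | j + 1, v, hv => by
      have h1 : (1 - ρ g) v ∈ W ρ j := by
        have := (W ρ j).neg_mem (hv g)
        rw [neg_sub] at this
        exact this
      have := nil_rho g j _ h1
      rw [pow_succ]
      exact this

end unip

end Pool.Agent.H18.Cov
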