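import Pool.Agent.H18.Cov1

namespace Pool.Agent.H18.Cov

open Finset Polynomial

/-- Truncated (negative) logarithm, `c j` playing the role of `1 / j`. -/
def Lg {B : Type} [Ring B] (c : ℕ → ℤ) (m : ℕ) (y : B) : B :=
  ∑ j ∈ range m, c (j + 1) • (1 - y) ^ (j + 1)

lemma map_Lg {B B' F : Type} [Ring B] [Ring B'] [FunLike F B B'] [RingHomClass F B B'] (φ : F)
    (c : ℕ → ℤ) (m : ℕ) (y : B) : φ (Lg c m y) = Lg c m (φ y) := by
  simp [Lg, map_sum]

lemma Lg_one {B : Type} [Ring B] (c : ℕ → ℤ) (m : ℕ) : Lg c m (1 : B) = 0 := by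
  simp [Lg]

lemma deriv_Lg {R : Type} [CommRing R] (c : ℕ → ℤ) (m : ℕ)
    (hc : ∀ j, 0 < j → j ≤ m → ((j : R) * (c j : R)) = 1) (y : R[X]) (hy : (1 - y) ^ m = 0) :
    y * derivative (Lg c m y) = - derivative y := by
  have h1 : derivative (Lg c m y) = - derivative y * ∑ j ∈ range m, (1 - y) ^ j := by
    rw [Lg, derivative_sum, mul_sum]
    refine sum_congr rfl fun j hj => ?_
    have hj' : j + 1 ≤ m := mem_range.1 hj
    have h2 : (C (((j + 1 : ℕ) : R)) : R[X]) * C (c (j + 1) : R) = 1 := by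
      rw [← C_mul, hc (j + 1) (Nat.succ_pos j) hj', C_1]
    rw [zsmul_eq_mul, ← C_eq_intCast, derivative_C_mul, derivative_pow, derivative_sub,
      derivative_one, Nat.add_sub_cancel]
    linear_combination (- derivative y * (1 - y) ^ j) * h2
  have h3 := mul_neg_geom_sum (1 - y) m
  rw [hy, sub_sub_cancel, sub_zero] at h3
  rw [h1]
  linear_combination (- derivative y) * h3

lemma natDegree_Lg {R : Type} [CommRing R] (c : ℕ → ℤ) (m : ℕ) (y : R[X])
    (hy : y.natDegree ≤ 2) : (Lg c m y).natDegree ≤ 2 * m := by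
  rw [Lg]
  refine natDegree_sum_le_of_forall_le _ _ fun j hj => ?_
  have hj' : j + 1 ≤ m := mem_range.1 hj
  refine (natDegree_smul_le _ _).trans (natDegree_pow_le.trans ?_)
  have : (1 - y).natDegree ≤ 2 := (natDegree_sub_le _ _).trans (by simp [hy])
  calc (j + 1) * (1 - y).natDegree ≤ m * 2 := Nat.mul_le_mul hj' this
    _ = 2 * m := by ring

lemma Lg_mul_comm {R : Type} [CommRing R] (c : ℕ → ℤ) (s : ℕ)
    (hc : ∀ j, 0 < j → j ≤ 4 * s → ((j : R) * (c j : R)) = 1) (x z : R)
    (hx : (1 - x) ^ s = 0) (hz : (1 - z) ^ s = 0) :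
    Lg c (2 * s) (x * z) = Lg c (2 * s) x + Lg c (2 * s) z := by
  set y1 : R[X] := 1 - C (1 - x) * X with hy1
  set y2 : R[X] := 1 - C (1 - z) * X with hy2
  have n1 : (1 - y1) ^ s = 0 := by
    rw [hy1, sub_sub_cancel, mul_pow, ← C_pow, hx, C_0, zero_mul]
  have n2 : (1 - y2) ^ s = 0 := by
    rw [hy2, sub_sub_cancel, mul_pow, ← C_pow, hz, C_0, zero_mul]
  have n3 : (1 - y1 * y2) ^ (2 * s) = 0 := by
    have e : 1 - y1 * y2 = (1 - y1) * y2 + (1 - y2) := by ring
    rw [e]
    refine (Commute.all _ _).add_pow_eq_zero_of_add_le_succ_of_pow_eq_zero (m := s) (n := s) ?_ n2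
      (by omega)
    rw [mul_pow, n1, zero_mul]
  have n1' : (1 - y1) ^ (2 * s) = 0 := pow_eq_zero_of_le (by omega) n1
  have n2' : (1 - y2) ^ (2 * s) = 0 := pow_eq_zero_of_le (by omega) n2
  have hc' : ∀ j, 0 < j → j ≤ 2 * s → ((j : R) * (c j : R)) = 1 := fun j h h' => hc j h (by omega)
  have d1 := deriv_Lg c (2 * s) hc' y1 n1'
  have d2 := deriv_Lg c (2 * s) hc' y2 n2'
  have d3 := deriv_Lg c (2 * s) hc' (y1 * y2) n3
  set F : R[X] := Lg c (2 * s) (y1 * y2) - Lg c (2 * s) y1 - Lg c (2 * s) y2 with hF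
  have hu := mul_neg_geom_sum (1 - y1 * y2) (2 * s)
  rw [n3, sub_sub_cancel, sub_zero] at hu
  have dF : derivative F = 0 := by
    have h0 : y1 * y2 * derivative F = 0 := by
      rw [hF, derivative_sub, derivative_sub]
      rw [derivative_mul] at d3
      linear_combination d3 - y2 * d1 - y1 * d2
    linear_combination (∑ i ∈ range (2 * s), (1 - y1 * y2) ^ i) * h0 - derivative F * hu
  have g1 : y1.natDegree ≤ 1 := by
    rw [hy1]; refine (natDegree_sub_le _ _).trans ?_
    simp only [natDegree_one, Nat.zero_le, sup_of_le_right]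
    exact (natDegree_C_mul_le _ _).trans natDegree_X_le
  have g2 : y2.natDegree ≤ 1 := by
    rw [hy2]; refine (natDegree_sub_le _ _).trans ?_
    simp only [natDegree_one, Nat.zero_le, sup_of_le_right]
    exact (natDegree_C_mul_le _ _).trans natDegree_X_le
  have g3 : (y1 * y2).natDegree ≤ 2 := natDegree_mul_le.trans (by omega)
  have gF : F.natDegree ≤ 2 * (2 * s) := by
    rw [hF]
    refine (natDegree_sub_le _ _).trans (max_le ((natDegree_sub_le _ _).trans (max_le ?_ ?_)) ?_)
    · exact natDegree_Lg c _ _ g3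
    · exact natDegree_Lg c _ _ (by omega)
    · exact natDegree_Lg c _ _ (by omega)
  have hF0 : F = 0 := by
    ext j
    rcases j with _ | j
    · rw [coeff_zero_eq_eval_zero, ← coe_evalRingHom, hF, map_sub, map_sub, map_Lg, map_Lg, map_Lg]
      simp [hy1, hy2, Lg_one]
    · by_cases hj : j + 1 ≤ 4 * s
      · have h1 := congrArg (fun q => coeff q j) dF
        simp only [coeff_derivative, coeff_zero] at h1
        have h2 := hc (j + 1) (Nat.succ_pos j) hj
        push_cast at h2
        rw [coeff_zero]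
        linear_combination (c (j + 1) : R) * h1 - F.coeff (j + 1) * h2
      · rw [coeff_zero]
        exact coeff_eq_zero_of_natDegree_lt (by omega)
  have h1 := congrArg (evalRingHom (1 : R)) hF0
  rw [hF, map_sub, map_sub, map_Lg, map_Lg, map_Lg, map_zero] at h1
  simp only [hy1, hy2, map_mul, map_sub, map_one, coe_evalRingHom, eval_C, eval_X, mul_one,
    sub_sub_cancel] at h1
  linear_combination h1

lemma Lg_mul {B : Type} [Ring B] (c : ℕ → ℤ) (s : ℕ)
    (hc : ∀ j, 0 < j → j ≤ 4 * s → ((j : B) * (c j : B)) = 1) (x z : B) (hxz : x * z = z * x)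
    (hx : (1 - x) ^ s = 0) (hz : (1 - z) ^ s = 0) :
    Lg c (2 * s) (x * z) = Lg c (2 * s) x + Lg c (2 * s) z := by
  have hcomm : ∀ a ∈ ({x, z} : Set B), ∀ b ∈ ({x, z} : Set B), a * b = b * a := by
    intro a ha b hb
    rcases ha with rfl | rfl <;> rcases hb with rfl | rfl
    · rfl
    · exact hxz
    · exact hxz.symm
    · rfl
  letI := Subring.closureCommRingOfComm hcomm
  let x' : Subring.closure ({x, z} : Set B) := ⟨x, Subring.subset_closure (by simp)⟩
  let z' : Subring.closure ({x, z} : Set B) := ⟨z, Subring.subset_closure (by simp)⟩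
  have := Lg_mul_comm (R := Subring.closure ({x, z} : Set B)) c s
    (fun j h h' => Subtype.ext (by simpa using hc j h h')) x' z'
    (Subtype.ext (by simpa using hx)) (Subtype.ext (by simpa using hz))
  have h2 := congrArg (Subring.closure ({x, z} : Set B)).subtype this
  rw [map_add, map_Lg, map_Lg, map_Lg, map_mul] at h2
  exact h2

lemma Lg_eq_zero {B : Type} [Ring B] (c : ℕ → ℤ) (m : ℕ)
    (hc : 0 < m → (c 1 : B) = 1) (w : B) (hw : (1 - w) ^ m = 0) (h : Lg c m w = 0) : w = 1 := by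
  rcases m with _ | m
  · have h1 : (1 : B) = 0 := by simpa using hw
    rw [← mul_one w, h1, mul_zero]
  · set u : B := 1 - w with hu
    set Q : B := ∑ j ∈ range m, c (j + 1 + 1) • u ^ j with hQ
    have h1 : Lg c (m + 1) w = u + u * Q * u := by
      rw [Lg, sum_range_succ', ← hu, hQ, mul_sum, sum_mul, add_comm]
      congr 1
      · rw [zsmul_eq_mul, hc (Nat.succ_pos m)]; simp
      · refine sum_congr rfl fun j _ => ?_
        rw [mul_smul_comm, smul_mul_assoc, ← pow_succ', ← pow_succ]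
    have hcom : Commute u Q := by
      rw [hQ]
      exact Commute.sum_right _ _ _ fun j _ => ((Commute.refl u).pow_right j).smul_right _
    have h2 : u = (-(u * Q)) * u := by
      rw [h1] at h
      rw [neg_mul]; exact eq_neg_of_add_eq_zero_left h
    have h3 : ∀ N : ℕ, u = (-(u * Q)) ^ N * u := by
      intro N
      induction N with
      | zero => simp
      | succ N ih => rw [pow_succ, mul_assoc, ← h2]; exact ih
    have h4 : (-(u * Q)) ^ (m + 1) = 0 := by
      rw [neg_pow, hcom.mul_pow, hw]; simp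
    have h5 := h3 (m + 1)
    rw [h4, zero_mul] at h5
    rw [hu] at h5
    exact (sub_eq_zero.1 h5).symm

lemma exists_c {B : Type} [Ring B] {p e M : ℕ} (hp : p.Prime) (hB : Nat.card B ∣ p ^ e)
    (hM : M < p) : ∃ c : ℕ → ℤ, ∀ j, 0 < j → j ≤ M → ((j : B) * (c j : B)) = 1 := by
  have h0 : ((p ^ e : ℕ) : B) = 0 := by
    obtain ⟨t, ht⟩ := hB
    rw [ht, mul_comm, Nat.cast_mul]
    have : ((Nat.card B : ℕ) : B) = 0 := by
      have := card_nsmul_eq_zero' (G := B) (x := (1 : B))
      simpa using this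
    rw [this, mul_zero]
  have : ∀ j : ℕ, ∃ cj : ℤ, 0 < j → j ≤ M → ((j : B) * (cj : B)) = 1 := by
    intro j
    by_cases hj : 0 < j ∧ j ≤ M
    · have hcop : Nat.Coprime j (p ^ e) :=
        Nat.Coprime.pow_right e (Nat.coprime_of_lt_prime hj.1.ne' (by omega) hp).symm
      obtain ⟨u, v, huv⟩ := Nat.isCoprime_iff_coprime.2 hcop
      refine ⟨u, fun _ _ => ?_⟩
      have h1 := congrArg (Int.cast : ℤ → B) huv
      rw [Int.cast_add, Int.cast_mul, Int.cast_mul, Int.cast_natCast, Int.cast_natCast, h0,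
        mul_zero, add_zero, Int.cast_one] at h1
      rw [← h1, (Nat.cast_commute j (u : B)).eq]
    · exact ⟨0, fun h h' => absurd ⟨h, h'⟩ hj⟩
  choose c hc using this
  exact ⟨c, hc⟩

lemma poly_Lg {G B : Type} [Group G] [Ring B] (c : ℕ → ℤ) (m s : ℕ) {f : G → B}
    (h : Poly s f) : Poly (m * (s + 1)) (fun x => Lg c m (f x)) := by
  have h1 : Poly (s + 1) (fun x => 1 - f x) := by
    have := (PolySub (s + 1) G B).sub_mem (poly_mono (by omega) (poly_const (G := G) (1 : B)))
      (poly_succ s h)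
    exact this
  have h2 : (fun x => Lg c m (f x)) =
      ∑ j ∈ range m, c (j + 1) • (fun x => (1 - f x) ^ (j + 1)) := by
    funext x; simp [Lg, Finset.sum_apply]
  rw [h2]
  refine (PolySub (m * (s + 1)) G B).sum_mem fun j hj => (PolySub _ G B).zsmul_mem ?_ _
  have hj' : j + 1 ≤ m := mem_range.1 hj
  exact poly_mono (Nat.mul_le_mul_right _ hj') (poly_pow (s + 1) h1 j)

end Pool.Agent.H18.Cov
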