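import Pool.Agent.H18.Cov2

namespace Pool.Agent.H18.Cov

section step
variable {H C : Type} [Group H] [CommGroup C] (ι : C →* H) (K : Subgroup H) [hK : K.Normal]

/-- The split cover of `H` attached to `K` and `C`. -/
def Gam : Subgroup (H × C) where
  carrier := {γ | (ι γ.2)⁻¹ * γ.1 ∈ K}
  one_mem' := by simp
  mul_mem' := fun {γ γ'} h h' => by
    have h1 := K.mul_mem (hK.conj_mem' _ h (ι γ'.2)) h'
    show (ι (γ.2 * γ'.2))⁻¹ * (γ.1 * γ'.1) ∈ K
    have e : (ι (γ.2 * γ'.2))⁻¹ * (γ.1 * γ'.1) =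
        (ι γ'.2)⁻¹ * ((ι γ.2)⁻¹ * γ.1) * ι γ'.2 * ((ι γ'.2)⁻¹ * γ'.1) := by
      rw [map_mul]; group
    rw [e]; exact h1
  inv_mem' := fun {γ} h => by
    have h1 := hK.conj_mem _ (K.inv_mem h) (ι γ.2)
    show (ι (γ.2⁻¹))⁻¹ * γ.1⁻¹ ∈ K
    have e : (ι (γ.2⁻¹))⁻¹ * γ.1⁻¹ = ι γ.2 * ((ι γ.2)⁻¹ * γ.1)⁻¹ * (ι γ.2)⁻¹ := by
      rw [map_inv]; group
    rw [e]; exact h1

/-- The action of `Gam` on the set `K`. -/
def sig (γ : Gam ι K) (x : K) : K :=
  ⟨(ι γ.1.2)⁻¹ * x * γ.1.1, by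
    have h1 := K.mul_mem (hK.conj_mem' _ x.2 (ι γ.1.2)) γ.2
    have e : (ι γ.1.2)⁻¹ * x * γ.1.1 =
      (ι γ.1.2)⁻¹ * x * ι γ.1.2 * ((ι γ.1.2)⁻¹ * γ.1.1) := by group
    rw [e]; exact h1⟩

lemma sig_mul (γ : Gam ι K) (x g : K) :
    sig ι K γ (x * g) = sig ι K γ x * ⟨γ.1.1⁻¹ * g * γ.1.1, hK.conj_mem' _ g.2 _⟩ := by
  apply Subtype.ext
  show (ι γ.1.2)⁻¹ * (x * g) * γ.1.1 = (ι γ.1.2)⁻¹ * x * γ.1.1 * (γ.1.1⁻¹ * g * γ.1.1)
  group

/-- The action on polynomial maps. -/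
def rho (k : ℕ) (A : Type) [AddCommGroup A] : Gam ι K →* AddMonoid.End (PolySub k K A) where
  toFun γ :=
    { toFun := fun φ => ⟨fun x => φ.1 (sig ι K γ x), poly_pull _ _ (sig_mul ι K γ) k φ.2⟩
      map_zero' := rfl
      map_add' := fun _ _ => rfl }
  map_one' := by
    refine AddMonoidHom.ext fun φ => Subtype.ext (funext fun x => ?_)
    show φ.1 (sig ι K 1 x) = φ.1 x
    refine congrArg φ.1 (Subtype.ext ?_)
    show (ι 1)⁻¹ * x * 1 = x
    simp
  map_mul' γ γ' := by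
    refine AddMonoidHom.ext fun φ => Subtype.ext (funext fun x => ?_)
    show φ.1 (sig ι K (γ * γ') x) = φ.1 (sig ι K γ' (sig ι K γ x))
    refine congrArg φ.1 (Subtype.ext ?_)
    show (ι (γ.1.2 * γ'.1.2))⁻¹ * x * (γ.1.1 * γ'.1.1) =
      (ι γ'.1.2)⁻¹ * ((ι γ.1.2)⁻¹ * x * γ.1.1) * γ'.1.1
    rw [map_mul]; group

/-- The central kernel. -/
def uu : K.comap ι →* Gam ι K where
  toFun d := ⟨(1, d.1), by
    show (ι d.1)⁻¹ * 1 ∈ K
    rw [mul_one]; exact K.inv_mem d.2⟩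
  map_one' := rfl
  map_mul' d d' := Subtype.ext (Prod.ext (mul_one (1 : H)).symm rfl)

lemma uu_comm (γ : Gam ι K) (d : K.comap ι) : γ * uu ι K d = uu ι K d * γ := by
  apply Subtype.ext
  refine Prod.ext ?_ (mul_comm _ _)
  show γ.1.1 * 1 = 1 * γ.1.1
  simp

theorem step0 {p e b s : ℕ} (hp : p.Prime) (hsur : ∀ h : H, ∃ c, (ι c)⁻¹ * h ∈ K)
    (cC : Nat.card C ∣ p ^ e) {B : Type} [Ring B] (cB : Nat.card B ∣ p ^ b) (ρ : Gam ι K →* B)
    (hnil : ∀ γ, (1 - ρ γ) ^ s = 0) (hpoly : Poly s (fun γ => ρ γ))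
    (hfaith : ∀ γ : Gam ι K, γ.1.2 = 1 → ρ γ = 1 → γ.1.1 = 1) (hps : 4 * s < p) :
    ∃ (A' : Type) (_ : AddCommGroup A') (f' : H → A'), Nat.card A' ∣ p ^ (b + e) ∧
      Poly (2 * s * (s + 1) + 2) f' ∧ ∀ x, f' x = f' 1 → x = 1 := by
  obtain ⟨c, hc⟩ := exists_c hp cB hps
  have hadd : ∀ γ (δ : K.comap ι), Lg c (2 * s) (ρ (γ * uu ι K δ)) =
      Lg c (2 * s) (ρ γ) + Lg c (2 * s) (ρ (uu ι K δ)) := by
    intro γ δ
    rw [map_mul]
    refine Lg_mul c s hc _ _ ?_ (hnil _) (hnil _)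
    rw [← map_mul, uu_comm, map_mul]
  let θ : Additive (K.comap ι) →+ B × Additive C :=
    AddMonoidHom.mk' (fun δ => (Lg c (2 * s) (ρ (uu ι K δ.toMul)), Additive.ofMul δ.toMul.1))
      (fun δ δ' => by
        refine Prod.ext ?_ rfl
        show Lg c (2 * s) (ρ (uu ι K (δ.toMul * δ'.toMul))) = _
        rw [map_mul, hadd]; rfl)
  let F : Gam ι K → (B × Additive C) ⧸ θ.range :=
    fun γ => QuotientAddGroup.mk' θ.range (Lg c (2 * s) (ρ γ), Additive.ofMul γ.1.2)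
  let π : Gam ι K →* H := (MonoidHom.fst H C).comp (Gam ι K).subtype
  have hπ : Function.Surjective π := by
    intro h
    obtain ⟨c, hc⟩ := hsur h
    exact ⟨⟨(h, c), hc⟩, rfl⟩
  have hFu : ∀ γ (δ : K.comap ι), F (γ * uu ι K δ) = F γ := by
    intro γ δ
    have e : (Lg c (2 * s) (ρ (γ * uu ι K δ)), Additive.ofMul (γ * uu ι K δ).1.2) =
        (Lg c (2 * s) (ρ γ), Additive.ofMul γ.1.2) + θ (Additive.ofMul δ) := by
      rw [hadd]; rfl
    have e2 : QuotientAddGroup.mk' θ.range (θ (Additive.ofMul δ)) = 0 :=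
      (QuotientAddGroup.eq_zero_iff _).2 ⟨_, rfl⟩
    show QuotientAddGroup.mk' θ.range _ = QuotientAddGroup.mk' θ.range _
    rw [e, map_add, e2, add_zero]
  have hFinv : ∀ γ γ', π γ = π γ' → F γ = F γ' := by
    intro γ γ' h
    have h1 : γ.1.1 = γ'.1.1 := h
    have h2 : γ.1.2⁻¹ * γ'.1.2 ∈ K.comap ι := by
      have h3 := K.mul_mem γ.2 (K.inv_mem γ'.2)
      show ι (γ.1.2⁻¹ * γ'.1.2) ∈ K
      have e : ι (γ.1.2⁻¹ * γ'.1.2) = (ι γ.1.2)⁻¹ * γ.1.1 * ((ι γ'.1.2)⁻¹ * γ'.1.1)⁻¹ := by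
        rw [map_mul, map_inv, h1]; group
      rw [e]; exact h3
    have e : γ' = γ * uu ι K ⟨_, h2⟩ := by
      apply Subtype.ext
      refine Prod.ext ?_ ?_
      · show γ'.1.1 = γ.1.1 * 1
        rw [mul_one, h1]
      · show γ'.1.2 = γ.1.2 * (γ.1.2⁻¹ * γ'.1.2)
        group
    rw [e, hFu]
  have hf' : ∀ γ, F (Function.surjInv hπ (π γ)) = F γ := fun γ =>
    hFinv _ _ (Function.surjInv_eq hπ _)
  refine ⟨_, inferInstance, fun h => F (Function.surjInv hπ h), ?_, ?_, ?_⟩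
  · refine (AddSubgroup.card_quotient_dvd_card _).trans ?_
    rw [Nat.card_prod, pow_add]
    exact mul_dvd_mul cB cC
  · apply poly_desc π hπ
    have e : (fun γ => F (Function.surjInv hπ (π γ))) = F := funext hf'
    rw [e]
    have h1 := poly_Lg c (2 * s) s hpoly
    have h2 : Poly 2 (fun γ : Gam ι K => Additive.ofMul γ.1.2) := by
      intro g
      have e : (fun x : Gam ι K => Additive.ofMul (x * g).1.2 - Additive.ofMul x.1.2) =
          fun _ => Additive.ofMul g.1.2 := by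
        funext x
        show Additive.ofMul x.1.2 + Additive.ofMul g.1.2 - Additive.ofMul x.1.2 = _
        abel
      rw [e]; exact poly_const _
    have h3 := poly_add _
      (poly_comp _ (AddMonoidHom.inl B (Additive C))
        (poly_mono (Nat.le_add_right _ 2) h1))
      (poly_comp _ (AddMonoidHom.inr B (Additive C))
        (poly_mono (Nat.le_add_left 2 (2 * s * (s + 1))) h2))
    have h4 := poly_comp _ (QuotientAddGroup.mk' θ.range) h3
    have e2 : F = fun γ => QuotientAddGroup.mk' θ.range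
        (((fun x => AddMonoidHom.inl B (Additive C)
          (Lg c (2 * s) (ρ x))) + (fun x : Gam ι K => AddMonoidHom.inr
            B (Additive C) (Additive.ofMul x.1.2))) γ) := by
      funext γ
      simp [F]
    rw [e2]; exact h4
  · intro h hh
    obtain ⟨γ, rfl⟩ := hπ h
    have h1 : F γ = F 1 := by
      rw [← hf' γ, ← hf' 1, map_one]; exact hh
    have h2 : F 1 = 0 := by
      show QuotientAddGroup.mk' θ.range (Lg c (2 * s) (ρ 1), Additive.ofMul (1 : C)) = 0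
      rw [map_one, Lg_one]
      exact map_zero _
    rw [h2] at h1
    obtain ⟨δ, hδ⟩ := (QuotientAddGroup.eq_zero_iff _).1 h1
    have h3 : Lg c (2 * s) (ρ (uu ι K δ.toMul)) = Lg c (2 * s) (ρ γ) := congrArg Prod.fst hδ
    have h4 : δ.toMul.1 = γ.1.2 := congrArg Prod.snd hδ
    have h5 := hadd (γ * (uu ι K δ.toMul)⁻¹) δ.toMul
    rw [inv_mul_cancel_right, h3] at h5
    have h6 : ρ (γ * (uu ι K δ.toMul)⁻¹) = 1 := by
      refine Lg_eq_zero c (2 * s) (fun h0 => ?_) _ (pow_eq_zero_of_le (by omega) (hnil _)) ?_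
      · simpa using hc 1 one_pos (by omega)
      · exact add_right_cancel (h5.symm.trans (zero_add _).symm)
    have h7 := hfaith _ (by
      show γ.1.2 * δ.toMul.1⁻¹ = 1
      rw [h4, mul_inv_cancel]) h6
    have h9 : γ.1.1 * 1⁻¹ = 1 := h7
    show γ.1.1 = 1
    simpa using h9

theorem step {p e d a k : ℕ} (hp : p.Prime) (hsur : ∀ h : H, ∃ c, (ι c)⁻¹ * h ∈ K)
    (hH : IsPGroup p H) (hC : IsPGroup p C) (cC : Nat.card C ∣ p ^ e) (cK : Nat.card K ∣ p ^ d)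
    {A : Type} [AddCommGroup A] (cA : Nat.card A ∣ p ^ a) (f : K → A) (hf : Poly k f)
    (hsep : ∀ x, f x = f 1 → x = 1) (s : ℕ) (hs : s = a * (d + 1) ^ k) (hps : 4 * s < p) :
    ∃ (A' : Type) (_ : AddCommGroup A') (f' : H → A'), Nat.card A' ∣ p ^ (s * s + e) ∧
      Poly (2 * s * (s + 1) + 2) f' ∧ ∀ x, f' x = f' 1 → x = 1 := by
  have cV : Nat.card (PolySub k K A) ∣ p ^ s := hs ▸ card_PolySub hp cK cA k
  have cB := card_End hp cV
  have hprod : IsPGroup p (H × C) := by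
    rintro ⟨h, c⟩
    obtain ⟨i, hi⟩ := hH h
    obtain ⟨j, hj⟩ := hC c
    refine ⟨i + j, Prod.ext ?_ ?_⟩
    · show h ^ p ^ (i + j) = 1
      rw [pow_add, pow_mul, hi, one_pow]
    · show c ^ p ^ (i + j) = 1
      rw [add_comm, pow_add, pow_mul, hj, one_pow]
  have hΓ : IsPGroup p (Gam ι K) := hprod.to_subgroup _
  set ρ := rho ι K k A with hρ
  have hW := W_top ρ hp hΓ cV
  have hnil : ∀ γ, (1 - ρ γ) ^ s = 0 := fun γ =>
    AddMonoidHom.ext fun v => nil_rho ρ γ s v (by rw [hW]; trivial)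
  have hpoly : Poly s (fun γ => ρ γ) := by
    have := poly_rho ρ s 1 (fun v => by rw [hW]; trivial)
    simpa using this
  refine step0 ι K hp hsur cC cB ρ hnil hpoly ?_ hps
  intro γ h1 h6
  have h7 : f (sig ι K γ 1) = f 1 :=
    congrFun (congrArg Subtype.val
      (DFunLike.congr_fun h6 (⟨f, hf⟩ : PolySub k K A))) (1 : K)
  have h8 := congrArg Subtype.val (hsep _ h7)
  have h9 : (ι γ.1.2)⁻¹ * 1 * γ.1.1 = 1 := h8
  rw [h1] at h9
  simpa using h9

end step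

theorem main (n : ℕ) : ∃ k a T : ℕ, ∀ p : ℕ, p.Prime → T < p → ∀ (H : Type) [Group H],
    Nat.card H = p ^ n → ∃ (A : Type) (_ : AddCommGroup A) (f : H → A), Nat.card A ∣ p ^ a ∧
      Poly k f ∧ ∀ x, f x = f 1 → x = 1 := by
  induction n with
  | zero =>
    refine ⟨0, 0, 0, fun p _ _ H _ hH => ⟨PUnit, inferInstance, 0, by simp, rfl, fun x _ => ?_⟩⟩
    rw [pow_zero] at hH
    have := (Nat.card_eq_one_iff_unique.1 hH).1
    exact Subsingleton.elim _ _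
  | succ n ih =>
    obtain ⟨k, a, T, ih⟩ := ih
    refine ⟨2 * (a * (n + 1) ^ k) * (a * (n + 1) ^ k + 1) + 2,
      (a * (n + 1) ^ k) * (a * (n + 1) ^ k) + (n + 1), max T (4 * (a * (n + 1) ^ k)), ?_⟩
    intro p hp hT H _ hH
    have : Fact p.Prime := ⟨hp⟩
    have : Finite H := Nat.finite_of_card_ne_zero (by rw [hH]; exact (pow_pos hp.pos _).ne')
    obtain ⟨K, hK⟩ := Sylow.exists_subgroup_card_pow_prime (G := H) p (n := n)
      (by rw [hH]; exact pow_dvd_pow p (Nat.le_succ n))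
    have hidx : K.index = p := by
      have h1 := K.card_mul_index
      rw [hK, hH, pow_succ] at h1
      exact Nat.eq_of_mul_eq_mul_left (pow_pos hp.pos n) h1
    have : K.Normal := Subgroup.normal_of_index_eq_minFac_card (by
      rw [hidx, hH, hp.pow_minFac (Nat.succ_ne_zero n)])
    obtain ⟨t, ht⟩ : ∃ t, t ∉ K := by
      by_contra hc
      push Not at hc
      have := (Subgroup.eq_top_iff' _).2 hc
      rw [this, Subgroup.index_top] at hidx
      exact hp.one_lt.ne hidx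
    obtain ⟨A, _, f, cA, hf, hsep⟩ := ih p hp (lt_of_le_of_lt (le_max_left _ _) hT) K hK
    have hHp : IsPGroup p H := IsPGroup.of_card hH
    letI : CommGroup (Subgroup.zpowers t) := IsCyclic.commGroup
    refine step (Subgroup.zpowers t).subtype K hp ?_ hHp (hHp.to_subgroup _)
      (hH ▸ Subgroup.card_subgroup_dvd_card _) (dvd_of_eq hK) cA f hf hsep _ rfl
      (lt_of_le_of_lt (le_max_right _ _) hT)
    intro h
    have hq : Nat.card (H ⧸ K) = p := hidx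
    have hne : (t : H ⧸ K) ≠ 1 := fun h0 => ht ((QuotientGroup.eq_one_iff t).1 h0)
    have hmem : (h : H ⧸ K) ∈ Subgroup.zpowers (t : H ⧸ K) := mem_zpowers_of_prime_card hq hne
    obtain ⟨i, hi⟩ := hmem
    refine ⟨⟨t ^ i, i, rfl⟩, ?_⟩
    show (t ^ i)⁻¹ * h ∈ K
    rw [← QuotientGroup.eq, QuotientGroup.mk_zpow]
    exact hi

end Pool.Agent.H18.Cov
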