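import Pool.Agent.H18.Cov3

namespace Pool.Agent.H18.Cov

open DirectSum

/-- Index set of the abelian `p`-groups used. -/
abbrev Idx (s : ℕ) : Type := Σ r : Fin (s + 1), (Fin r → Fin (s + 1))

/-- The standard abelian `p`-group attached to an index. -/
abbrev Std (p : ℕ) {s : ℕ} (i : Idx s) : Type := ∀ j : Fin i.1, ZMod (p ^ (i.2 j : ℕ))

lemma card_Std (p : ℕ) {s : ℕ} (i : Idx s) : Nat.card (Std p i) ∣ p ^ (s * s) := by
  rw [Nat.card_pi]
  simp only [Nat.card_zmod]
  rw [Finset.prod_pow_eq_pow_sum]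
  apply pow_dvd_pow
  calc ∑ j : Fin i.1, (i.2 j : ℕ) ≤ (Finset.univ : Finset (Fin i.1)).card • s :=
        Finset.sum_le_card_nsmul _ _ _ fun j _ => Nat.lt_succ_iff.1 (i.2 j).2
    _ ≤ s * s := by
        rw [Finset.card_univ, Fintype.card_fin, smul_eq_mul]
        exact Nat.mul_le_mul_right s (Nat.lt_succ_iff.1 i.1.2)

lemma exists_Std {V : Type} [AddCommGroup V] {p s : ℕ} (hp : p.Prime)
    (hV : Nat.card V ∣ p ^ s) : ∃ i : Idx s, Nonempty (V ≃+ Std p i) := by
  classical
  have hpos : 0 < p ^ s := pow_pos hp.pos s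
  have : Finite V := Nat.finite_of_card_ne_zero (fun h => by
    rw [h] at hV; exact hpos.ne' (Nat.eq_zero_of_zero_dvd hV))
  obtain ⟨ι, _, n, hn, ⟨e⟩⟩ := AddCommGroup.equiv_directSum_zmod_of_finite' V
  let e1 : V ≃+ (∀ i, ZMod (n i)) :=
    e.trans (DirectSum.linearEquivFunOnFintype ℤ ι (fun i => ZMod (n i))).toAddEquiv
  have hcard : Nat.card V = ∏ i, n i := by
    rw [Nat.card_congr e1.toEquiv, Nat.card_pi]
    simp only [Nat.card_zmod]
  have hdiv : ∀ i, ∃ a, a ≤ s ∧ n i = p ^ a := fun i =>
    (Nat.dvd_prime_pow hp).1 ((Finset.dvd_prod_of_mem n (Finset.mem_univ i)).trans (hcard ▸ hV))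
  choose a ha hna using hdiv
  have hn' : n = fun i => p ^ a i := funext hna
  subst hn'
  have ha1 : ∀ i, 1 ≤ a i := fun i => by
    have := hn i
    by_contra h0
    have h1 : a i = 0 := by omega
    simp [h1] at this
  have hr : Fintype.card ι ≤ s := by
    rw [hcard, Finset.prod_pow_eq_pow_sum] at hV
    have h1 := (Nat.pow_dvd_pow_iff_le_right hp.one_lt).1 hV
    have h2 : (Finset.univ : Finset ι).card • 1 ≤ ∑ i, a i :=
      Finset.card_nsmul_le_sum _ _ _ fun i _ => ha1 i
    rw [Finset.card_univ, smul_eq_mul, mul_one] at h2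
    omega
  let q : ι ≃ Fin (Fintype.card ι) := Fintype.equivFin ι
  refine ⟨⟨⟨Fintype.card ι, by omega⟩, fun j => ⟨a (q.symm j), by have := ha (q.symm j); omega⟩⟩,
    ⟨?_⟩⟩
  exact (e.trans (DirectSum.equivCongrLeft q)).trans
    (DirectSum.linearEquivFunOnFintype ℤ (Fin (Fintype.card ι))
      (fun j => ZMod (p ^ a (q.symm j)))).toAddEquiv

/-- Transport of endomorphisms along an additive isomorphism. -/
def conjEnd {V V' : Type} [AddCommGroup V] [AddCommGroup V'] (e : V ≃+ V') :
    AddMonoid.End V →* AddMonoid.End V' where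
  toFun b := (e.toAddMonoidHom.comp b).comp e.symm.toAddMonoidHom
  map_one' := AddMonoidHom.ext fun v => e.apply_symm_apply v
  map_mul' b b' := AddMonoidHom.ext fun v => by
    show e (b (b' (e.symm v))) = e (b (e.symm (e (b' (e.symm v)))))
    rw [e.symm_apply_apply]

/-- Right translation on polynomial maps. -/
def rt (k : ℕ) (H A : Type) [Group H] [AddCommGroup A] : H →* AddMonoid.End (PolySub k H A) where
  toFun h :=
    { toFun := fun φ => ⟨fun x => φ.1 (x * h), poly_transl k φ.2 h⟩
      map_zero' := rfl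
      map_add' := fun _ _ => rfl }
  map_one' := AddMonoidHom.ext fun φ => Subtype.ext (funext fun x => congrArg φ.1 (mul_one x))
  map_mul' h h' := AddMonoidHom.ext fun φ => Subtype.ext
    (funext fun x => congrArg φ.1 (mul_assoc x h h').symm)

theorem cover (n : ℕ) : ∃ F : ℕ, ∀ p : ℕ, p.Prime → ∃ (G : Type) (_ : Group G), Finite G ∧
    (∀ (H : Type) [Group H], Nat.card H = p ^ n → ∃ ψ : H →* G, Function.Injective ψ) ∧
      Nat.card G ≤ p ^ F := by
  classical
  obtain ⟨k, a, T, hmain⟩ := main n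
  set s := a * (n + 1) ^ k with hs
  refine ⟨max ((s * s) * (s * s) * Fintype.card (Idx s)) (n * T ^ n), fun p hp => ?_⟩
  by_cases hT : T < p
  · have hE : ∀ i : Idx s, Nat.card (AddMonoid.End (Std p i)) ∣ p ^ ((s * s) * (s * s)) :=
      fun i => card_End hp (card_Std p i)
    have hfin : ∀ i : Idx s, Finite (AddMonoid.End (Std p i)) := fun i =>
      Nat.finite_of_card_ne_zero (fun h => by
        have := hE i
        rw [h] at this
        exact (pow_pos hp.pos _).ne' (Nat.eq_zero_of_zero_dvd this))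
    refine ⟨∀ i : Idx s, (AddMonoid.End (Std p i))ˣ, inferInstance, inferInstance, ?_, ?_⟩
    · intro H _ hH
      obtain ⟨A, _, f, cA, hf, hsep⟩ := hmain p hp hT H hH
      have cV : Nat.card (PolySub k H A) ∣ p ^ s := card_PolySub hp (dvd_of_eq hH) cA k
      obtain ⟨i, ⟨e⟩⟩ := exists_Std hp cV
      refine ⟨(MonoidHom.mulSingle (fun i : Idx s => (AddMonoid.End (Std p i))ˣ) i).comp
        ((conjEnd e).comp (rt k H A)).toHomUnits, ?_⟩
      rw [injective_iff_map_eq_one]
      intro h hh
      have h1 := congrFun hh i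
      simp only [MonoidHom.comp_apply, MonoidHom.mulSingle_apply, Pi.mulSingle_eq_same,
        Pi.one_apply] at h1
      have h2 : conjEnd e (rt k H A h) = 1 := congrArg Units.val h1
      have h3 : e (rt k H A h (e.symm (e ⟨f, hf⟩))) = e ⟨f, hf⟩ :=
        DFunLike.congr_fun h2 (e ⟨f, hf⟩)
      rw [e.symm_apply_apply] at h3
      have h4 : f (1 * h) = f 1 := congrFun (congrArg Subtype.val (e.injective h3)) 1
      rw [one_mul] at h4
      exact hsep h h4
    · rw [Nat.card_pi]
      calc ∏ i : Idx s, Nat.card (AddMonoid.End (Std p i))ˣ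
          ≤ (p ^ ((s * s) * (s * s))) ^ (Finset.univ : Finset (Idx s)).card :=
            Finset.prod_le_pow_card _ _ _ fun i _ =>
              (Nat.card_le_card_of_injective _ Units.val_injective).trans
                (Nat.le_of_dvd (pow_pos hp.pos _) (hE i))
        _ ≤ _ := by
            rw [← pow_mul, Finset.card_univ]
            exact Nat.pow_le_pow_right hp.pos (le_max_left _ _)
  · refine ⟨Equiv.Perm (Fin (p ^ n)), inferInstance, inferInstance, ?_, ?_⟩
    · intro H _ hH
      have : Finite H := Nat.finite_of_card_ne_zero (by rw [hH]; exact (pow_pos hp.pos _).ne')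
      let q : H ≃ Fin (p ^ n) := (Finite.equivFin H).trans (finCongr hH)
      refine ⟨(Equiv.permCongrHom q).toMonoidHom.comp (MulAction.toPermHom H H), ?_⟩
      exact (Equiv.permCongrHom q).injective.comp MulAction.toPerm_injective
    · rw [Nat.card_perm, Nat.card_eq_fintype_card, Fintype.card_fin]
      calc (p ^ n).factorial ≤ (p ^ n) ^ (p ^ n) := Nat.factorial_le_pow _
        _ ≤ _ := by
          rw [← pow_mul]
          refine Nat.pow_le_pow_right hp.pos (le_trans ?_ (le_max_right _ _))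
          exact Nat.mul_le_mul_left n (Nat.pow_le_pow_left (by omega) n)

end Pool.Agent.H18.Cov
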