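import Mathlib

set_option autoImplicit false

namespace Pool.Agent.H18.EngW

/-- The wreath product of a group with the group of order two. -/
@[ext] structure W (M : Type) where
  a : M
  b : M
  s : Bool

section
variable {M : Type} [Group M]

instance : Group (W M) where
  mul u v := ⟨u.a * (if u.s then v.b else v.a), u.b * (if u.s then v.a else v.b), xor u.s v.s⟩
  one := ⟨1, 1, false⟩
  inv u := ⟨if u.s then u.b⁻¹ else u.a⁻¹, if u.s then u.a⁻¹ else u.b⁻¹, u.s⟩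
  mul_assoc u v w := by
    obtain ⟨a, b, s⟩ := u
    obtain ⟨c, d, t⟩ := v
    obtain ⟨e, f, r⟩ := w
    show W.mk _ _ _ = W.mk _ _ _
    cases s <;> cases t <;> cases r <;> simp [HMul.hMul, Mul.mul] <;>
      exact ⟨mul_assoc _ _ _, mul_assoc _ _ _⟩
  one_mul u := by
    obtain ⟨a, b, s⟩ := u
    show W.mk (1 * a) (1 * b) (xor false s) = W.mk _ _ _
    simp
  mul_one u := by
    obtain ⟨a, b, s⟩ := u
    show W.mk _ _ _ = W.mk _ _ _
    cases s <;> simp [OfNat.ofNat, One.one]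
  inv_mul_cancel u := by
    obtain ⟨a, b, s⟩ := u
    show W.mk _ _ _ = W.mk _ _ _
    cases s <;> simp

lemma mul_def (u v : W M) : u * v =
    ⟨u.a * (if u.s then v.b else v.a), u.b * (if u.s then v.a else v.b), xor u.s v.s⟩ := rfl
lemma inv_def (u : W M) : u⁻¹ =
    ⟨if u.s then u.b⁻¹ else u.a⁻¹, if u.s then u.a⁻¹ else u.b⁻¹, u.s⟩ := rfl
lemma one_def : (1 : W M) = ⟨1, 1, false⟩ := rfl

/-- both coordinates in `A` -/
def V (A : Subgroup M) : Subgroup (W M) where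
  carrier := {g | g.a ∈ A ∧ g.b ∈ A}
  one_mem' := ⟨A.one_mem, A.one_mem⟩
  mul_mem' := by
    rintro ⟨a, b, s⟩ ⟨c, d, t⟩ ⟨h1, h2⟩ ⟨h3, h4⟩
    cases s
    · exact ⟨A.mul_mem h1 h3, A.mul_mem h2 h4⟩
    · exact ⟨A.mul_mem h1 h4, A.mul_mem h2 h3⟩
  inv_mem' := by
    rintro ⟨a, b, s⟩ ⟨h1, h2⟩
    cases s
    · exact ⟨A.inv_mem h1, A.inv_mem h2⟩
    · exact ⟨A.inv_mem h2, A.inv_mem h1⟩

/-- both coordinates in `A`, no swap -/
def U (A : Subgroup M) : Subgroup (W M) where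
  carrier := {g | g.s = false ∧ g.a ∈ A ∧ g.b ∈ A}
  one_mem' := ⟨rfl, A.one_mem, A.one_mem⟩
  mul_mem' := by
    rintro ⟨a, b, s⟩ ⟨c, d, t⟩ ⟨h0, h1, h2⟩ ⟨h5, h3, h4⟩
    simp only at h0 h5
    subst h0 h5
    exact ⟨rfl, A.mul_mem h1 h3, A.mul_mem h2 h4⟩
  inv_mem' := by
    rintro ⟨a, b, s⟩ ⟨h0, h1, h2⟩
    simp only at h0
    subst h0
    exact ⟨rfl, A.inv_mem h1, A.inv_mem h2⟩

lemma U_conj (A : Subgroup M) [hA : A.Normal] (g h : W M) (hh : h ∈ U A) :
    g * h * g⁻¹ ∈ U A := by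
  obtain ⟨a, b, s⟩ := h
  obtain ⟨c, d, t⟩ := g
  obtain ⟨h0, h1, h2⟩ := hh
  simp only at h0 h1 h2
  subst h0
  cases t
  · exact ⟨rfl, hA.conj_mem _ h1 c, hA.conj_mem _ h2 d⟩
  · exact ⟨rfl, hA.conj_mem _ h2 c, hA.conj_mem _ h1 d⟩

lemma comm_s (u v : W M) : (u⁻¹ * v⁻¹ * u * v).s = false := by
  obtain ⟨a, b, s⟩ := u
  obtain ⟨c, d, t⟩ := v
  cases s <;> cases t <;> rfl

lemma comm_ff (a b c d : M) :
    (⟨a, b, false⟩ : W M)⁻¹ * (⟨c, d, false⟩ : W M)⁻¹ * ⟨a, b, false⟩ * ⟨c, d, false⟩ =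
      ⟨a⁻¹ * c⁻¹ * a * c, b⁻¹ * d⁻¹ * b * d, false⟩ := rfl

lemma comm_ft (a b c d : M) :
    (⟨a, b, false⟩ : W M)⁻¹ * (⟨c, d, true⟩ : W M)⁻¹ * ⟨a, b, false⟩ * ⟨c, d, true⟩ =
      ⟨a⁻¹ * d⁻¹ * b * d, b⁻¹ * c⁻¹ * a * c, false⟩ := rfl

/-- level of a commutator -/
def Lv (A : ℕ → Subgroup M) (n : ℕ) (g : W M) : Prop :=
  g.s = false ∧ g.a ∈ A (n / 2) ∧ g.b ∈ A (n / 2) ∧ (n % 2 = 1 → g.a * g.b⁻¹ ∈ A (n / 2 + 1))

lemma Lv_step (A : ℕ → Subgroup M) (hN : ∀ k, (A k).Normal) (hle : ∀ k, A (k + 1) ≤ A k)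
    (hc : ∀ k, ∀ a ∈ A k, ∀ c ∈ A 0, a⁻¹ * c⁻¹ * a * c ∈ A (k + 1))
    (hs : ∀ k, ∀ a ∈ A k, a * a ∈ A (k + 1))
    (n : ℕ) (u v : W M) (hu : Lv A n u) (hv : v ∈ V (A 0)) :
    Lv A (n + 1) (u⁻¹ * v⁻¹ * u * v) := by
  obtain ⟨a, b, s⟩ := u
  obtain ⟨c, d, t⟩ := v
  obtain ⟨h0, h1, h2, h3⟩ := hu
  obtain ⟨h4, h5⟩ := hv
  simp only at h0 h1 h2 h3 h4 h5
  subst h0
  set k := n / 2 with hk
  have e1 : a⁻¹ * d⁻¹ * b * d = (a⁻¹ * b) * (b⁻¹ * d⁻¹ * b * d) := by group
  have e2 : b⁻¹ * c⁻¹ * a * c = (b⁻¹ * a) * (a⁻¹ * c⁻¹ * a * c) := by group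
  rcases Nat.mod_two_eq_zero_or_one n with hn | hn
  · have hk1 : (n + 1) / 2 = k := by omega
    cases t
    · rw [comm_ff]
      refine ⟨rfl, ?_, ?_, fun _ => ?_⟩ <;> simp only [hk1]
      · exact hle _ (hc _ _ h1 _ h4)
      · exact hle _ (hc _ _ h2 _ h5)
      · exact (A _).mul_mem (hc _ _ h1 _ h4) ((A _).inv_mem (hc _ _ h2 _ h5))
    · rw [comm_ft]
      refine ⟨rfl, ?_, ?_, fun _ => ?_⟩ <;> simp only [hk1]
      · rw [e1]
        exact (A _).mul_mem ((A _).mul_mem ((A _).inv_mem h1) h2) (hle _ (hc _ _ h2 _ h5))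
      · rw [e2]
        exact (A _).mul_mem ((A _).mul_mem ((A _).inv_mem h2) h1) (hle _ (hc _ _ h1 _ h4))
      · rw [e1, e2]
        set p := b⁻¹ * d⁻¹ * b * d
        set q := a⁻¹ * c⁻¹ * a * c
        have hp : p ∈ A (k + 1) := hc _ _ h2 _ h5
        have hq : q ∈ A (k + 1) := hc _ _ h1 _ h4
        have e3 : a⁻¹ * b * p * (b⁻¹ * a * q)⁻¹ =
            ((a⁻¹ * b) * (p * q⁻¹) * (a⁻¹ * b)⁻¹) * ((a⁻¹ * b) * (a⁻¹ * b)) := by group
        rw [e3]
        exact (A _).mul_mem ((hN _).conj_mem _ ((A _).mul_mem hp ((A _).inv_mem hq)) _)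
          (hs _ _ ((A _).mul_mem ((A _).inv_mem h1) h2))
  · have hk1 : (n + 1) / 2 = k + 1 := by omega
    have h6 := h3 hn
    have h7 : b⁻¹ * a ∈ A (k + 1) := by
      have := (hN (k + 1)).conj_mem _ h6 b⁻¹
      simpa [mul_assoc] using this
    have h8 : a⁻¹ * b ∈ A (k + 1) := by simpa using (A _).inv_mem h7
    cases t
    · rw [comm_ff]
      refine ⟨rfl, ?_, ?_, fun h => absurd h (by omega)⟩ <;> simp only [hk1]
      · exact hc _ _ h1 _ h4
      · exact hc _ _ h2 _ h5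
    · rw [comm_ft]
      refine ⟨rfl, ?_, ?_, fun h => absurd h (by omega)⟩ <;> simp only [hk1]
      · rw [e1]
        exact (A _).mul_mem h8 (hc _ _ h2 _ h5)
      · rw [e2]
        exact (A _).mul_mem h7 (hc _ _ h1 _ h4)

lemma nil_of (A : ℕ → Subgroup M) (hN : ∀ k, (A k).Normal) (hle : ∀ k, A (k + 1) ≤ A k)
    (hc : ∀ k, ∀ a ∈ A k, ∀ c ∈ A 0, a⁻¹ * c⁻¹ * a * c ∈ A (k + 1))
    (hs : ∀ k, ∀ a ∈ A k, a * a ∈ A (k + 1)) (N : ℕ) (hA : A N = ⊥)
    (h0 : W M) (hh : h0 ∈ V (A 0)) (hs' : List (W M)) (hl : hs'.length = 2 * N + 1)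
    (hm : ∀ b ∈ hs', b ∈ V (A 0)) :
    hs'.foldl (fun a b : W M => a⁻¹ * b⁻¹ * a * b) h0 = 1 := by
  have key : ∀ (l : List (W M)) (n : ℕ) (u : W M), Lv A n u → (∀ b ∈ l, b ∈ V (A 0)) →
      Lv A (n + l.length) (l.foldl (fun a b : W M => a⁻¹ * b⁻¹ * a * b) u) := by
    intro l
    induction l with
    | nil => intro n u hu _; simpa using hu
    | cons v l ih =>
      intro n u hu hv
      have := ih (n + 1) _ (Lv_step A hN hle hc hs n u v hu (hv v (by simp)))
        (fun b hb => hv b (by simp [hb]))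
      simpa [add_assoc, add_comm 1] using this
  cases hs' with
  | nil => simp at hl
  | cons v l =>
    have hv : v ∈ V (A 0) := hm v (by simp)
    have hmem : h0⁻¹ * v⁻¹ * h0 * v ∈ V (A 0) :=
      (V _).mul_mem ((V _).mul_mem ((V _).mul_mem ((V _).inv_mem hh) ((V _).inv_mem hv)) hh) hv
    have h1 : Lv A 0 (h0⁻¹ * v⁻¹ * h0 * v) :=
      ⟨comm_s _ _, hmem.1, hmem.2, fun h => absurd h (by omega)⟩
    have h2 := key l 0 _ h1 (fun b hb => hm b (by simp [hb]))
    have hl' : l.length = 2 * N := by simpa using hl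
    rw [List.foldl_cons]
    obtain ⟨g0, g1, g2, -⟩ := h2
    have e : (0 + l.length) / 2 = N := by omega
    rw [e, hA, Subgroup.mem_bot] at g1 g2
    exact W.ext g1 g2 g0

/-- one step down a subnormal chain containing a swapping element -/
lemma down (K L : Subgroup (W M))
    (hn : ∀ a ∈ L, ∀ b ∈ K, a * b * a⁻¹ ∈ K) (y : W M) (hy : y ∈ K) (hs : y.s = true)
    (p q : M) (hp : (⟨p, 1, false⟩ : W M) ∈ L) (hq : (⟨q, 1, false⟩ : W M) ∈ L) :
    (⟨p * q * p⁻¹ * q⁻¹, 1, false⟩ : W M) ∈ K := by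
  obtain ⟨c, d, t⟩ := y
  simp only at hs
  subst hs
  have h1 : (⟨q, 1, false⟩ : W M) * ⟨c, d, true⟩ * (⟨q, 1, false⟩ : W M)⁻¹ *
      (⟨c, d, true⟩ : W M)⁻¹ ∈ K := K.mul_mem (hn _ hq _ hy) (K.inv_mem hy)
  have h2 := K.mul_mem (hn _ hp _ h1) (K.inv_mem h1)
  convert h2 using 1
  simp [mul_def, inv_def]

end

open MvPolynomial

/-- the ideal generated by the squares of the variables -/
noncomputable def sqI : Ideal (MvPolynomial ℕ (ZMod 2)) :=
  Ideal.span ((fun s => monomial s (1 : ZMod 2)) '' Set.range (fun i : ℕ => Finsupp.single i 2))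

/-- the coefficient ring -/
def R : Type := MvPolynomial ℕ (ZMod 2) ⧸ sqI

noncomputable instance : CommRing R := Ideal.Quotient.commRing sqI

/-- the quotient map -/
noncomputable def mkR : MvPolynomial ℕ (ZMod 2) →+* R := Ideal.Quotient.mk sqI

lemma mkR_zero (p : MvPolynomial ℕ (ZMod 2)) : mkR p = 0 ↔ p ∈ sqI :=
  Ideal.Quotient.eq_zero_iff_mem

lemma mkR_surj : Function.Surjective mkR := Ideal.Quotient.mk_surjective

/-- the variables -/
noncomputable def x (i : ℕ) : R := mkR (X i)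

lemma x_sq (i : ℕ) : x i * x i = 0 := by
  unfold x
  rw [← map_mul, mkR_zero]
  apply Ideal.subset_span
  refine ⟨Finsupp.single i 2, ⟨i, rfl⟩, ?_⟩
  rw [← pow_two, X_pow_eq_monomial]

lemma add_self (r : R) : r + r = 0 := by
  obtain ⟨p, rfl⟩ := mkR_surj r
  rw [← map_add, CharTwo.add_self_eq_zero, map_zero]

lemma prod_ne (n : ℕ) : ∏ i ∈ Finset.range n, x i ≠ 0 := by
  unfold x
  rw [← map_prod, Ne, mkR_zero]
  have e : ∏ i ∈ Finset.range n, (X i : MvPolynomial ℕ (ZMod 2)) =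
      monomial (∑ i ∈ Finset.range n, Finsupp.single i 1) 1 := by
    rw [monomial_sum_one]
    rfl
  rw [e]
  intro h
  unfold sqI at h
  rw [mem_ideal_span_monomial_image] at h
  obtain ⟨_, ⟨i, rfl⟩, hi⟩ := h (∑ i ∈ Finset.range n, Finsupp.single i 1)
    (by rw [support_monomial]; simp)
  have h2 := hi i
  simp only [Finsupp.single_eq_same, Finsupp.coe_finsetSum, Finset.sum_apply,
    Finsupp.single_apply, Finset.sum_ite_eq', Finset.mem_range] at h2
  split_ifs at h2 <;> omega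

/-- the ideal generated by the variables -/
noncomputable def I : Ideal R := Ideal.span (Set.range x)

lemma sq_I (r : R) (hr : r ∈ I) : r * r = 0 := by
  induction hr using Submodule.span_induction with
  | mem _ h => obtain ⟨i, rfl⟩ := h; exact x_sq i
  | zero => simp
  | add a b _ _ ha hb =>
    have : (a + b) * (a + b) = a * a + b * b + (a * b + a * b) := by ring
    rw [this, ha, hb, add_self (a * b)]; simp
  | smul c a _ ha =>
    have : (c • a) * (c • a) = c * c * (a * a) := by simp only [smul_eq_mul]; ring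
    rw [this, ha, mul_zero]

lemma span_pow (s : Finset R) (hs : ∀ r ∈ s, r ∈ I) :
    (Ideal.span (s : Set R)) ^ (2 * s.card + 1) = ⊥ := by
  classical
  induction s using Finset.induction_on with
  | empty => simp
  | insert a s ha ih =>
    rw [Finset.coe_insert, Ideal.span_insert, Finset.card_insert_of_notMem ha]
    have e : 2 * (s.card + 1) + 1 = 2 + (2 * s.card + 1) := by ring
    rw [e, eq_bot_iff]
    refine (Ideal.sup_pow_add_le_pow_sup_pow).trans ?_
    rw [ih (fun r hr => hs r (by simp [hr])), Ideal.span_singleton_pow, pow_two,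
      sq_I a (hs a (by simp))]
    simp

lemma g1 {A : Type} [Ring A] (u v : Aˣ) : ((u⁻¹ * v⁻¹ * u * v : Aˣ) : A) - 1 =
    ((u⁻¹ * v⁻¹ : Aˣ) : A) * (((u : A) - 1) * ((v : A) - 1) - ((v : A) - 1) * ((u : A) - 1)) := by
  have h1 : ((u⁻¹ * v⁻¹ : Aˣ) : A) * ((v : A) * (u : A)) = 1 := by
    rw [← Units.val_mul, ← Units.val_mul]; simp [mul_assoc]
  have h2 : ((u : A) - 1) * ((v : A) - 1) - ((v : A) - 1) * ((u : A) - 1) =
      (u : A) * v - (v : A) * u := by noncomm_ring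
  rw [h2, mul_sub, h1]
  simp [mul_assoc]

lemma g2 {A : Type} [Ring A] (u : Aˣ) : ((u * u : Aˣ) : A) - 1 =
    ((u : A) - 1) * ((u : A) - 1) + (((u : A) - 1) + ((u : A) - 1)) := by
  rw [Units.val_mul]; noncomm_ring

lemma g3 {A : Type} [Ring A] (α β : A) (h1 : α * α = 0) (h2 : β * β = 0) (h3 : β * α = 0)
    (h5 : ∀ γ : A, γ + γ = 0) : (1 + α) * (1 + β) * (1 + α) * (1 + β) = 1 + α * β := by
  have e : (1 + α) * (1 + β) * (1 + α) * (1 + β) =
      1 + α * β + ((α + β + α * β) + (α + β + α * β)) + (α * α) * (1 + β) + (1 + α) * (β * β) +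
        (1 + α) * (β * α) * (1 + β) := by noncomm_ring
  rw [e, h1, h2, h3, h5]
  simp

/-- three by three matrices -/
abbrev B : Type := Matrix (Fin 3) (Fin 3) R

/-- congruence subgroup -/
noncomputable def Γ (J : Ideal R) : Subgroup Bˣ :=
  (Units.map ((Ideal.Quotient.mk J).mapMatrix (m := Fin 3)).toMonoidHom).ker

instance (J : Ideal R) : (Γ J).Normal := MonoidHom.normal_ker _

lemma mem_Γ (J : Ideal R) (u : Bˣ) : u ∈ Γ J ↔ ∀ i j, ((u : B) - 1) i j ∈ J := by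
  unfold Γ
  rw [MonoidHom.mem_ker, Units.ext_iff]
  simp only [Units.coe_map, Units.val_one]
  change (Ideal.Quotient.mk J).mapMatrix (u : B) = 1 ↔ _
  rw [← sub_eq_zero, ← map_one ((Ideal.Quotient.mk J).mapMatrix (m := Fin 3)), ← map_sub,
    ← Matrix.ext_iff]
  simp only [RingHom.mapMatrix_apply, Matrix.map_apply, Matrix.zero_apply,
    Ideal.Quotient.eq_zero_iff_mem]

lemma ent_mul (J K : Ideal R) (a b : B) (ha : ∀ i j, a i j ∈ J) (hb : ∀ i j, b i j ∈ K) (i j) :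
    (a * b) i j ∈ J * K := by
  rw [Matrix.mul_apply]
  exact Ideal.sum_mem _ fun k _ => Ideal.mul_mem_mul (ha _ _) (hb _ _)

lemma ent_left (J : Ideal R) (a b : B) (hb : ∀ i j, b i j ∈ J) (i j) : (a * b) i j ∈ J := by
  rw [Matrix.mul_apply]
  exact Ideal.sum_mem _ fun k _ => Ideal.mul_mem_left _ _ (hb _ _)

lemma Γ_comm (J K : Ideal R) (u v : Bˣ) (hu : u ∈ Γ J) (hv : v ∈ Γ K) :
    u⁻¹ * v⁻¹ * u * v ∈ Γ (J * K) := by
  rw [mem_Γ] at *
  have e := g1 u v
  intro i j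
  rw [e]
  apply ent_left
  intro i j
  rw [Matrix.sub_apply]
  refine Ideal.sub_mem _ (ent_mul _ _ _ _ hu hv _ _) ?_
  rw [mul_comm J K]
  exact ent_mul _ _ _ _ hv hu _ _

lemma Γ_sq (J : Ideal R) (u : Bˣ) (hu : u ∈ Γ J) : u * u ∈ Γ (J * J) := by
  rw [mem_Γ] at *
  have e := g2 u
  intro i j
  rw [e, Matrix.add_apply, Matrix.add_apply, add_self, add_zero]
  exact ent_mul _ _ _ _ hu hu _ _

lemma Γ_mono {J K : Ideal R} (h : J ≤ K) : Γ J ≤ Γ K := by
  intro u hu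
  rw [mem_Γ] at *
  exact fun i j => h (hu i j)

lemma Γ_bot : Γ ⊥ = ⊥ := by
  rw [eq_bot_iff]
  intro u hu
  rw [mem_Γ] at hu
  rw [Subgroup.mem_bot, Units.ext_iff, Units.val_one, ← sub_eq_zero]
  ext i j
  simpa using hu i j

/-- the base factor -/
abbrev M : Type := ↥(Γ I)

/-- congruence subgroups of the base factor -/
noncomputable def Δ (J : Ideal R) : Subgroup M := (Γ J).comap (Γ I).subtype

instance (J : Ideal R) : (Δ J).Normal := Subgroup.Normal.comap inferInstance _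

lemma Δ_mono {J K : Ideal R} (h : J ≤ K) : Δ J ≤ Δ K := Subgroup.comap_mono (Γ_mono h)

lemma Δ_bot : Δ ⊥ = ⊥ := by
  unfold Δ
  rw [Γ_bot, MonoidHom.comap_bot, Subgroup.ker_subtype]

lemma Δ_I : Δ I = ⊤ := by
  rw [eq_top_iff]
  intro u _
  exact u.2

lemma Δ_comm (J K : Ideal R) (u v : M) (hu : u ∈ Δ J) (hv : v ∈ Δ K) :
    u⁻¹ * v⁻¹ * u * v ∈ Δ (J * K) := Γ_comm J K u v hu hv

lemma nil_J (J : Ideal R) (N : ℕ) (hJ : J ^ (N + 1) = ⊥)
    (h0 : W M) (hh : h0 ∈ V (Δ J)) (l : List (W M)) (hl : l.length = 2 * N + 1)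
    (hm : ∀ b ∈ l, b ∈ V (Δ J)) :
    l.foldl (fun a b : W M => a⁻¹ * b⁻¹ * a * b) h0 = 1 := by
  refine nil_of (fun k => Δ (J ^ (k + 1))) (fun k => inferInstance)
    (fun k => Δ_mono (Ideal.pow_le_pow_right (by omega))) ?_ ?_ N (by simp only [hJ, Δ_bot])
    h0 (by simpa using hh) l hl (by simpa using hm)
  · intro k a ha c hc
    have := Δ_comm _ _ a c ha hc
    rwa [← pow_add] at this
  · intro k a ha
    have h1 : a * a ∈ Δ (J ^ (k + 1) * J ^ (k + 1)) := Γ_sq _ a ha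
    rw [← pow_add] at h1
    exact Δ_mono (Ideal.pow_le_pow_right (by omega)) h1

/-- the entries of an element -/
noncomputable def ents (g : W M) : Finset R := by
  classical
  exact Finset.univ.image fun p : Bool × Fin 3 × Fin 3 =>
    ((((if p.1 then g.a else g.b : M) : Bˣ) : B) - 1) p.2.1 p.2.2

lemma ents_card (g : W M) : (ents g).card ≤ 18 := by
  classical
  unfold ents
  exact Finset.card_image_le.trans (by simp)

lemma ents_I (g : W M) : ∀ r ∈ ents g, r ∈ I := by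
  classical
  unfold ents
  intro r hr
  obtain ⟨p, -, rfl⟩ := Finset.mem_image.1 hr
  exact (mem_Γ _ _).1 (Subtype.property _) _ _

lemma mem_V (J : Ideal R) (g : W M) (h : ∀ r ∈ ents g, r ∈ J) : g ∈ V (Δ J) := by
  classical
  unfold ents at h
  exact ⟨(mem_Γ _ _).2 fun i j => h _ (Finset.mem_image.2 ⟨(true, i, j), by simp, rfl⟩),
    (mem_Γ _ _).2 fun i j => h _ (Finset.mem_image.2 ⟨(false, i, j), by simp, rfl⟩)⟩

lemma loc_nil (F : Finset (W M)) (N : ℕ) (hN : 36 * F.card ≤ N)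
    (h0 : W M) (hh : h0 ∈ Subgroup.closure (F : Set (W M))) (l : List (W M))
    (hl : l.length = 2 * N + 1) (hm : ∀ b ∈ l, b ∈ Subgroup.closure (F : Set (W M))) :
    l.foldl (fun a b : W M => a⁻¹ * b⁻¹ * a * b) h0 = 1 := by
  classical
  set s : Finset R := F.biUnion ents
  have hc : s.card ≤ 18 * F.card := by
    refine Finset.card_biUnion_le.trans ?_
    rw [mul_comm, ← smul_eq_mul]
    exact Finset.sum_le_card_nsmul _ _ _ fun g _ => ents_card g
  have hs : ∀ r ∈ s, r ∈ I := by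
    intro r hr
    obtain ⟨g, -, hg⟩ := Finset.mem_biUnion.1 hr
    exact ents_I g r hg
  have hJ : (Ideal.span (s : Set R)) ^ (N + 1) = ⊥ := by
    rw [eq_bot_iff, ← span_pow s hs]
    exact Ideal.pow_le_pow_right (by omega)
  have hle : Subgroup.closure (F : Set (W M)) ≤ V (Δ (Ideal.span (s : Set R))) := by
    rw [Subgroup.closure_le]
    intro g hg
    exact mem_V _ g fun r hr => Ideal.subset_span (Finset.mem_biUnion.2 ⟨g, hg, hr⟩)
  exact nil_J _ N hJ h0 (hle hh) l hl fun b hb => hle (hm b hb)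

lemma engel (g y : W M) : (fun z : W M => z⁻¹ * y⁻¹ * z * y)^[145] g = 1 := by
  classical
  have key : ∀ (n : ℕ) (g : W M), (fun z : W M => z⁻¹ * y⁻¹ * z * y)^[n] g =
      (List.replicate n y).foldl (fun a b : W M => a⁻¹ * b⁻¹ * a * b) g := by
    intro n
    induction n with
    | zero => intro g; rfl
    | succ n ih => intro g; rw [Function.iterate_succ_apply, ih, List.replicate_succ]; rfl
  rw [key]
  refine loc_nil {g, y} 72 ?_ g (Subgroup.subset_closure (by simp)) _ (by simp) ?_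
  · have := Finset.card_le_two (a := g) (b := y)
    omega
  · intro b hb
    rw [List.eq_of_mem_replicate hb]
    exact Subgroup.subset_closure (by simp)

lemma single_sq (p q : Fin 3) (h : p ≠ q) (r : R) :
    (1 + Matrix.single p q r : B) * (1 + Matrix.single p q r) = 1 := by
  have h1 : (Matrix.single p q r : B) * Matrix.single p q r = 0 :=
    Matrix.single_mul_single_of_ne _ _ _ _ h.symm _
  have h2 : (Matrix.single p q r : B) + Matrix.single p q r = 0 := by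
    rw [← Matrix.single_add, add_self, Matrix.single_zero]
  have : (1 + Matrix.single p q r : B) * (1 + Matrix.single p q r) =
      1 + (Matrix.single p q r + Matrix.single p q r) +
        Matrix.single p q r * Matrix.single p q r := by noncomm_ring
  rw [this, h1, h2]; simp

/-- elementary matrices -/
noncomputable def el (p q : Fin 3) (h : p ≠ q) (r : R) (hr : r ∈ I) : M :=
  ⟨⟨1 + Matrix.single p q r, 1 + Matrix.single p q r, single_sq p q h r, single_sq p q h r⟩, by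
    rw [mem_Γ]
    intro i j
    simp only [add_sub_cancel_left, Matrix.single_apply]
    split_ifs
    · exact hr
    · exact I.zero_mem⟩

lemma el_comm (p q t : Fin 3) (hpq : p ≠ q) (hpt : p ≠ t) (htq : t ≠ q) (a b : R) (ha : a ∈ I)
    (hb : b ∈ I) :
    el p t hpt a ha * el t q htq b hb * (el p t hpt a ha)⁻¹ * (el t q htq b hb)⁻¹ =
      el p q hpq (a * b) (I.mul_mem_left _ hb) := by
  apply Subtype.ext
  apply Units.ext
  change (1 + Matrix.single p t a : B) * (1 + Matrix.single t q b) * (1 + Matrix.single p t a) *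
    (1 + Matrix.single t q b) = 1 + Matrix.single p q (a * b)
  have h1 : (Matrix.single p t a : B) * (Matrix.single p t a : B) = 0 :=
    Matrix.single_mul_single_of_ne _ _ _ _ hpt.symm _
  have h2 : (Matrix.single t q b : B) * (Matrix.single t q b : B) = 0 :=
    Matrix.single_mul_single_of_ne _ _ _ _ htq.symm _
  have h3 : (Matrix.single t q b : B) * (Matrix.single p t a : B) = 0 :=
    Matrix.single_mul_single_of_ne _ _ _ _ hpq.symm _
  have h4 : (Matrix.single p t a : B) * (Matrix.single t q b : B) = Matrix.single p q (a * b) :=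
    Matrix.single_mul_single_same _ _ _ _ _
  have h5 : ∀ γ : B, γ + γ = 0 := fun γ => by ext i j; exact add_self _
  rw [← h4]
  exact g3 (A := B) _ _ h1 h2 h3 h5

/-- products of `2 ^ m` elements of `I` -/
def T : ℕ → Set R
  | 0 => I
  | m + 1 => {r | ∃ a ∈ T m, ∃ b ∈ T m, r = a * b}

lemma T_I (m : ℕ) : ∀ r ∈ T m, r ∈ I := by
  induction m with
  | zero => exact fun r hr => hr
  | succ m ih =>
    rintro r ⟨a, -, b, hb, rfl⟩
    exact I.mul_mem_left _ (ih b hb)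

lemma prod_T (m : ℕ) : ∀ k, ∏ j ∈ Finset.range (2 ^ m), x (k + j) ∈ T m := by
  induction m with
  | zero =>
    intro k
    have : x k ∈ T 0 := (Ideal.subset_span ⟨k, rfl⟩ : x k ∈ I)
    simpa using this
  | succ m ih =>
    intro k
    refine ⟨_, ih k, _, ih (k + 2 ^ m), ?_⟩
    rw [pow_succ, mul_two, Finset.prod_range_add]
    simp only [add_assoc]

/-- a subgroup contains the elementary matrices of level `m` -/
def Has (m : ℕ) (K : Subgroup (W M)) : Prop :=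
  ∀ (p q : Fin 3) (h : p ≠ q) (r : R) (hr : r ∈ T m),
    (⟨el p q h r (T_I m r hr), 1, false⟩ : W M) ∈ K

lemma third (p q : Fin 3) (h : p ≠ q) : ∃ t : Fin 3, p ≠ t ∧ t ≠ q := by
  revert p q; decide

lemma Has_down (m : ℕ) (K L : Subgroup (W M)) (hn : ∀ a ∈ L, ∀ b ∈ K, a * b * a⁻¹ ∈ K)
    (y : W M) (hy : y ∈ K) (hs : y.s = true) (hL : Has m L) : Has (m + 1) K := by
  rintro p q h r ⟨a, ha, b, hb, rfl⟩
  obtain ⟨t, h1, h2⟩ := third p q h
  have := down K L hn y hy hs _ _ (hL p t h1 a ha) (hL t q h2 b hb)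
  rwa [el_comm p q t h h1 h2] at this

lemma not_Has (m : ℕ) (y : W M) : ¬ Has m (Subgroup.zpowers y) := by
  intro hH
  obtain ⟨a, ha, b, hb, e⟩ := prod_T (m + 1) 0
  have h01 : (0 : Fin 3) ≠ 1 := by decide
  have h02 : (0 : Fin 3) ≠ 2 := by decide
  have h21 : (2 : Fin 3) ≠ 1 := by decide
  obtain ⟨i, hi⟩ := hH 0 2 h02 a ha
  obtain ⟨j, hj⟩ := hH 2 1 h21 b hb
  have hc : Commute (⟨el 0 2 h02 a (T_I m a ha), 1, false⟩ : W M)
      ⟨el 2 1 h21 b (T_I m b hb), 1, false⟩ := by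
    rw [← hi, ← hj]
    exact (Commute.refl y).zpow_zpow i j
  have h1 : el 0 2 h02 a (T_I m a ha) * el 2 1 h21 b (T_I m b hb) =
      el 2 1 h21 b (T_I m b hb) * el 0 2 h02 a (T_I m a ha) := congrArg W.a hc.eq
  have h2 := el_comm 0 1 2 h01 h02 h21 a b (T_I m a ha) (T_I m b hb)
  rw [h1] at h2
  have h3 : el 0 1 h01 (a * b) (I.mul_mem_left _ (T_I m b hb)) = 1 := by rw [← h2]; group
  have h4 : (1 + Matrix.single 0 1 (a * b) : B) = 1 := congrArg (fun u : M => ((u : Bˣ) : B)) h3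
  have h5 := congrFun (congrFun h4 0) 1
  simp only [Matrix.add_apply, Matrix.single_apply_same, add_eq_left] at h5
  apply prod_ne (2 ^ (m + 1))
  simp only [zero_add] at e
  rw [e, h5]

lemma not_chain (y : W M) (hs : y.s = true) (n m : ℕ) (K : ℕ → Subgroup (W M))
    (h0 : K 0 = Subgroup.zpowers y) (hn : Has m (K n))
    (hK : ∀ i < n, K i ≤ K (i + 1) ∧ ∀ a ∈ K (i + 1), ∀ b ∈ K i, a * b * a⁻¹ ∈ K i) : False := by
  have hy : ∀ i ≤ n, y ∈ K i := by
    intro i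
    induction i with
    | zero => intro _; rw [h0]; exact Subgroup.mem_zpowers y
    | succ i ih => intro hi; exact (hK i (by omega)).1 (ih (by omega))
  have key : ∀ j ≤ n, Has (m + j) (K (n - j)) := by
    intro j
    induction j with
    | zero => intro _; exact hn
    | succ j ih =>
      intro hj
      have e : n - j = (n - (j + 1)) + 1 := by omega
      have h1 := ih (by omega)
      rw [e] at h1
      exact Has_down _ _ _ (hK _ (by omega)).2 y (hy _ (by omega)) hs h1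
  have := key n le_rfl
  rw [Nat.sub_self, h0] at this
  exact not_Has _ _ this

lemma Has_top : Has 0 ⊤ := fun _ _ _ _ _ => Subgroup.mem_top _

end Pool.Agent.H18.EngW
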