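import Pool.Agent.H18.EngW

set_option autoImplicit false

namespace Pool.Agent.H18.EngW

/-- the ideal generated by the variables of index below an ordinal -/
noncomputable def Jo (α : Ordinal.{0}) : Ideal R := Ideal.span (x '' {i | (i : Ordinal.{0}) < α})

lemma Jo_mono {α β : Ordinal.{0}} (h : α ≤ β) : Jo α ≤ Jo β :=
  Ideal.span_mono (Set.image_mono fun _ hi => lt_of_lt_of_le hi h)

lemma Jo_omega : Jo Ordinal.omega0 = I := by
  unfold Jo I
  congr 1
  ext r
  simp [Ordinal.natCast_lt_omega0]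

lemma Jo_succ (n : ℕ) : Jo (Order.succ (n : Ordinal.{0})) * Jo (Order.succ (n : Ordinal.{0})) ≤
    Jo n := by
  have e : Jo (Order.succ (n : Ordinal.{0})) ≤ Ideal.span {x n} ⊔ Jo n := by
    unfold Jo
    rw [Ideal.span_le]
    rintro _ ⟨i, hi, rfl⟩
    have hi' : (i : Ordinal.{0}) ≤ n := Order.lt_succ_iff.1 hi
    rcases hi'.lt_or_eq with h | h
    · exact Ideal.mem_sup_right (Ideal.subset_span ⟨i, h, rfl⟩)
    · have : i = n := by exact_mod_cast h
      subst this
      exact Ideal.mem_sup_left (Ideal.subset_span rfl)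
  refine (Ideal.mul_mono e e).trans ?_
  rw [Ideal.sup_mul, Ideal.mul_sup, Ideal.mul_sup, Ideal.span_singleton_mul_span_singleton, x_sq]
  refine sup_le (sup_le ?_ Ideal.mul_le_right) (sup_le Ideal.mul_le_left Ideal.mul_le_left)
  simp

lemma ev (r : R) (hr : r ∈ I) : ∀ᶠ n : ℕ in Filter.atTop, r ∈ Jo n := by
  induction hr using Submodule.span_induction with
  | mem _ h =>
    obtain ⟨i, rfl⟩ := h
    filter_upwards [Filter.eventually_gt_atTop i] with n hn
    exact Ideal.subset_span ⟨i, by simpa using hn, rfl⟩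
  | zero => exact Filter.Eventually.of_forall fun n => Ideal.zero_mem _
  | add a b _ _ ha hb => filter_upwards [ha, hb] with n h1 h2 using Ideal.add_mem _ h1 h2
  | smul c a _ ha => filter_upwards [ha] with n h1 using Ideal.mul_mem_left _ _ h1

lemma U_mono {A C : Subgroup M} (h : A ≤ C) : U A ≤ U C :=
  fun _ hg => ⟨hg.1, h hg.2.1, h hg.2.2⟩

open Classical in
/-- the ascending series -/
noncomputable def So (α : Ordinal.{0}) : Subgroup (W M) :=
  if α ≤ Ordinal.omega0 then U (Δ (Jo α)) else ⊤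

lemma So_le {α : Ordinal.{0}} (h : α ≤ Ordinal.omega0) : So α = U (Δ (Jo α)) := if_pos h

lemma series : ∃ (β : Ordinal.{0}) (S : Ordinal.{0} → Subgroup (W M)),
    S 0 = ⊥ ∧ S β = ⊤ ∧
    (∀ α < β, S α ≤ S (Order.succ α) ∧
      (∀ g ∈ S (Order.succ α), ∀ h ∈ S α, g * h * g⁻¹ ∈ S α) ∧
      (∀ x ∈ S (Order.succ α), ∀ y ∈ S (Order.succ α), x * y * x⁻¹ * y⁻¹ ∈ S α)) ∧
    (∀ l ≤ β, Order.IsSuccLimit l → S l = ⨆ (α : Ordinal.{0}) (_ : α < l), S α) := by
  have htop : So (Order.succ Ordinal.omega0) = ⊤ := if_neg (not_le.2 (Order.lt_succ _))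
  refine ⟨Order.succ Ordinal.omega0, So, ?_, htop, ?_, ?_⟩
  · rw [So_le zero_le]
    have : Jo 0 = ⊥ := by unfold Jo; simp
    rw [this, Δ_bot, eq_bot_iff]
    rintro g ⟨h0, h1, h2⟩
    exact W.ext h1 h2 h0
  · intro α hα
    have hα' : α ≤ Ordinal.omega0 := Order.lt_succ_iff.1 hα
    refine ⟨?_, ?_, ?_⟩
    · rcases hα'.lt_or_eq with h | h
      · rw [So_le hα', So_le (Order.succ_le_of_lt h)]
        exact U_mono (Δ_mono (Jo_mono (Order.le_succ _)))
      · rw [h, htop]; exact le_top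
    · intro g _ h hh
      rw [So_le hα'] at *
      exact U_conj _ g h hh
    · rcases hα'.lt_or_eq with h | h
      · rw [So_le hα', So_le (Order.succ_le_of_lt h)]
        obtain ⟨n, rfl⟩ := Ordinal.lt_omega0.1 h
        rintro ⟨a, b, s⟩ ⟨h0, h1, h2⟩ ⟨c, d, t⟩ ⟨h3, h4, h5⟩
        simp only at h0 h1 h2 h3 h4 h5
        subst h0 h3
        refine ⟨rfl, ?_, ?_⟩
        · have := Δ_comm _ _ _ _ ((Δ _).inv_mem h1) ((Δ _).inv_mem h4)
          simp only [inv_inv] at this
          exact Δ_mono (Jo_succ n) this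
        · have := Δ_comm _ _ _ _ ((Δ _).inv_mem h2) ((Δ _).inv_mem h5)
          simp only [inv_inv] at this
          exact Δ_mono (Jo_succ n) this
      · intro u _ v _
        rw [So_le hα', h, Jo_omega, Δ_I]
        refine ⟨?_, Subgroup.mem_top _, Subgroup.mem_top _⟩
        simpa using comm_s u⁻¹ v⁻¹
  · intro l hl hlim
    have hl' : l = Ordinal.omega0 := by
      refine le_antisymm ?_ (Ordinal.omega0_le_of_isSuccLimit hlim)
      rcases hl.lt_or_eq with h | h
      · exact Order.lt_succ_iff.1 h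
      · exact absurd (h ▸ hlim) (Order.not_isSuccLimit_succ _)
    subst hl'
    rw [So_le le_rfl]
    refine le_antisymm ?_ (iSup₂_le fun α hα => ?_)
    · intro g hg
      have h1 : ∀ᶠ n : ℕ in Filter.atTop, ∀ r ∈ ents g, r ∈ Jo n :=
        (Filter.eventually_all_finset _).2 fun r hr => ev r (ents_I g r hr)
      obtain ⟨n, hn⟩ := h1.exists
      have h2 := mem_V _ g hn
      have h3 : g ∈ So n := by
        rw [So_le (Ordinal.natCast_lt_omega0 n).le]
        exact ⟨hg.1, h2.1, h2.2⟩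
      exact Subgroup.mem_iSup_of_mem (n : Ordinal.{0})
        (Subgroup.mem_iSup_of_mem (Ordinal.natCast_lt_omega0 n) h3)
    · rw [So_le hα.le]
      exact U_mono (Δ_mono (Jo_mono hα.le))

end Pool.Agent.H18.EngW
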