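import Mathlib

open Finset PowerSeries

namespace Pool.Agent.H18.FalseTheta

/-- `n (n + 1) / 2` for an integer `n` -/
def T1 (n : ℤ) : ℕ := (n * (n + 1) / 2).toNat

/-- `n (n - 1) / 2` for an integer `n` -/
def T0 (n : ℤ) : ℕ := (n * (n - 1) / 2).toNat

/-- the false theta series at `(-q^a, q)` -/
noncomputable def Psi (a : ℕ) : ℤ⟦X⟧ :=
  PowerSeries.mk fun N => ∑ᶠ n : ℤ,
    if a * T1 n + T0 n = N then (if 0 ≤ n then 1 else -1) * (-1) ^ T1 n else 0

end Pool.Agent.H18.FalseTheta
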