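import Pool.Agent.H18.FalseTheta

open Finset PowerSeries

namespace Pool.Agent.H18.FalseTheta

def tri : ℕ → ℕ
  | 0 => 0
  | k + 1 => tri k + (k + 1)

lemma two_tri (k : ℕ) : 2 * tri k = k * (k + 1) := by
  induction k with
  | zero => rfl
  | succ k ih => simp only [tri]; nlinarith

lemma le_tri (k : ℕ) : k ≤ tri k := by
  cases k with
  | zero => exact le_rfl
  | succ k => simp only [tri]; omega

lemma T1_nat (k : ℕ) : T1 k = tri k := by
  unfold T1
  have : (k : ℤ) * (k + 1) = 2 * (tri k : ℕ) := by exact_mod_cast (two_tri k).symm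
  rw [this]
  omega

lemma T0_nat (k : ℕ) : T0 k = tri k - k := by
  unfold T0
  have h : (k : ℤ) * (k + 1) = 2 * (tri k : ℕ) := by exact_mod_cast (two_tri k).symm
  have : (k : ℤ) * (k - 1) = 2 * ((tri k : ℕ) - k) := by linear_combination h
  rw [this]
  have := le_tri k
  omega

lemma T1_neg (k : ℕ) : T1 (Int.negSucc k) = tri k := by
  unfold T1
  have h : (k : ℤ) * (k + 1) = 2 * (tri k : ℕ) := by exact_mod_cast (two_tri k).symm
  have : Int.negSucc k * (Int.negSucc k + 1) = 2 * (tri k : ℕ) := by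
    rw [Int.negSucc_eq]; linear_combination h
  rw [this]
  omega

lemma T0_neg (k : ℕ) : T0 (Int.negSucc k) = tri (k + 1) := by
  unfold T0
  have h : ((k + 1 : ℕ) : ℤ) * ((k + 1 : ℕ) + 1) = 2 * (tri (k + 1) : ℕ) := by
    exact_mod_cast (two_tri (k + 1)).symm
  have : Int.negSucc k * (Int.negSucc k - 1) = 2 * (tri (k + 1) : ℕ) := by
    rw [Int.negSucc_eq]; push_cast at h ⊢; linear_combination h
  rw [this]
  omega

def e1 (a k : ℕ) : ℕ := a * tri k + (tri k - k)
def e2 (a k : ℕ) : ℕ := a * tri k + tri (k + 1)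

lemma le_e1 (a k : ℕ) (ha : 1 ≤ a) : k ≤ e1 a k := by
  unfold e1
  have := le_tri k
  nlinarith [Nat.zero_le (tri k - k)]

lemma e2_eq (a k : ℕ) : e2 a k = e1 a k + (2 * k + 1) := by
  unfold e1 e2
  have := le_tri k
  simp only [tri]
  omega

lemma coeff_Psi (a : ℕ) (ha : 1 ≤ a) (N K : ℕ) (hK : N < K) :
    coeff N (Psi a) = ∑ k ∈ range K, (-1) ^ tri k *
      ((if e1 a k = N then 1 else 0) - (if e2 a k = N then 1 else 0)) := by
  classical
  unfold Psi
  rw [coeff_mk, finsum_eq_sum_of_support_subset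
    (s := (range K).image (fun k : ℕ => (k : ℤ)) ∪ (range K).image Int.negSucc)]
  · rw [sum_union, sum_image, sum_image, ← sum_add_distrib]
    · apply sum_congr rfl
      intro k _
      rw [T1_nat, T0_nat, T1_neg, T0_neg, if_pos (Int.natCast_nonneg k),
        if_neg (not_le.2 (Int.negSucc_lt_zero k))]
      unfold e1 e2
      split_ifs <;> simp
    · intro x _ y _ h
      exact Int.negSucc.inj h
    · intro x _ y _ h
      exact Int.ofNat.inj h
    · rw [disjoint_left]
      intro x hx hy
      simp only [mem_image] at hx hy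
      obtain ⟨u, _, rfl⟩ := hx
      obtain ⟨v, _, hv⟩ := hy
      have := Int.negSucc_lt_zero v
      omega
  · intro n hn
    rw [Function.mem_support] at hn
    have h1 : a * T1 n + T0 n = N := by
      by_contra hc
      exact hn (if_neg hc)
    simp only [coe_union, coe_image, coe_range, Set.mem_union, Set.mem_image, Set.mem_Iio]
    cases n with
    | ofNat k =>
      left
      refine ⟨k, ?_, rfl⟩
      have : e1 a k = N := by
        rw [← h1, Int.ofNat_eq_natCast, T1_nat, T0_nat]; rfl
      have := le_e1 a k ha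
      omega
    | negSucc k =>
      right
      refine ⟨k, ?_, rfl⟩
      have : e2 a k = N := by
        rw [← h1, T1_neg, T0_neg]; rfl
      have := le_e1 a k ha
      have := e2_eq a k
      omega

lemma const_Psi (a : ℕ) (ha : 1 ≤ a) : constantCoeff (Psi a) = 1 := by
  rw [← coeff_zero_eq_constantCoeff_apply, coeff_Psi a ha 0 1 one_pos]
  simp [e1, e2, tri]

lemma Psi_mul_inv (a : ℕ) (ha : 1 ≤ a) : Psi a * invOfUnit (Psi a) 1 = 1 :=
  mul_invOfUnit _ _ (by rw [const_Psi a ha]; rfl)

end Pool.Agent.H18.FalseTheta
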