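import Mathlib

namespace Pool.Agent.H18.Forest

open Complex Set

/-- the vector `(1/2, √3/2)` of the plane `ℝ² = ℂ` -/
noncomputable def om : ℂ := ⟨1 / 2, Real.sqrt 3 / 2⟩

/-- the lattice `Λ = ℤ (1,0) + ℤ (1/2, √3/2)` -/
def Lam : Set ℂ := {z | ∃ m n : ℤ, z = m + n * om}

/-- `TBG(k, (x_i), (θ_i)) = ⋃ (r_{θ_i} Λ + x_i)`; the rotation by `θ` is multiplication by
`exp (θ i)` -/
def TBG {k : ℕ} (θ : Fin k → ℝ) (x : Fin k → ℂ) : Set ℂ :=
  {p | ∃ i, ∃ l ∈ Lam, p = exp (θ i * I) * l + x i}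

/-- dense forests -/
def DenseForest (D : Set ℂ) : Prop :=
  ∀ ε : ℝ, 0 < ε → ∃ V : ℝ, 0 < V ∧ ∀ a b : ℂ, dist a b = V →
    ∃ p ∈ segment ℝ a b, ∃ q ∈ D, dist p q < ε

/-- uniformly discrete sets -/
def UniformlyDiscrete (D : Set ℂ) : Prop :=
  ∃ r : ℝ, 0 < r ∧ ∀ p ∈ D, ∀ q ∈ D, p ≠ q → r ≤ dist p q

theorem s3 : Real.sqrt 3 * Real.sqrt 3 = 3 := Real.mul_self_sqrt (by norm_num)

theorem om_sq : om * om = om - 1 := by
  have := s3
  apply Complex.ext <;> simp [om] <;> linarith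

theorem normSq_om : normSq om = 1 := by
  have := s3
  simp [om, normSq_apply]; linarith

theorem norm_om : ‖om‖ = 1 := by
  rw [Complex.norm_def, normSq_om, Real.sqrt_one]

theorem conj_om : (starRingEnd ℂ) om = 1 - om := by
  apply Complex.ext <;> simp [om]; norm_num

theorem lam_add {a b : ℂ} (ha : a ∈ Lam) (hb : b ∈ Lam) : a + b ∈ Lam := by
  obtain ⟨m, n, rfl⟩ := ha
  obtain ⟨m', n', rfl⟩ := hb
  exact ⟨m + m', n + n', by push_cast; ring⟩

theorem lam_sub {a b : ℂ} (ha : a ∈ Lam) (hb : b ∈ Lam) : a - b ∈ Lam := by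
  obtain ⟨m, n, rfl⟩ := ha
  obtain ⟨m', n', rfl⟩ := hb
  exact ⟨m - m', n - n', by push_cast; ring⟩

theorem lam_mul {a b : ℂ} (ha : a ∈ Lam) (hb : b ∈ Lam) : a * b ∈ Lam := by
  obtain ⟨m, n, rfl⟩ := ha
  obtain ⟨m', n', rfl⟩ := hb
  exact ⟨m * m' - n * n', m * n' + n * m' + n * n', by
    push_cast; linear_combination (n * n' : ℂ) * om_sq⟩

theorem lam_int (m : ℤ) : (m : ℂ) ∈ Lam := ⟨m, 0, by simp⟩

theorem lam_countable : Lam.Countable := by
  have : Lam = range (fun p : ℤ × ℤ => (p.1 : ℂ) + p.2 * om) := by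
    ext z; simp [Lam, eq_comm]
  rw [this]; exact countable_range _

theorem lam_cover (z : ℂ) : ∃ l ∈ Lam, ‖z - l‖ ≤ 2 := by
  have h3 : 0 < Real.sqrt 3 := by positivity
  set b : ℝ := 2 * z.im / Real.sqrt 3 with hb
  set a : ℝ := z.re - b / 2 with ha
  have hz : z = a + b * om := by
    apply Complex.ext
    · simp [om, ha]; ring
    · simp [om, hb]; field_simp
  refine ⟨⌊a⌋ + ⌊b⌋ * om, ⟨_, _, rfl⟩, ?_⟩
  have e : z - (⌊a⌋ + ⌊b⌋ * om) = (Int.fract a : ℝ) + (Int.fract b : ℝ) * om := by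
    rw [hz, Int.fract, Int.fract]; push_cast; ring
  rw [e]
  refine (norm_add_le _ _).trans ?_
  rw [norm_mul, norm_om, Complex.norm_real, Complex.norm_real, Real.norm_eq_abs, Real.norm_eq_abs,
    abs_of_nonneg (Int.fract_nonneg _), abs_of_nonneg (Int.fract_nonneg _)]
  linarith [Int.fract_lt_one a, Int.fract_lt_one b]

/-- angles between two lattice directions -/
def Bad : Set ℝ := {t | ∃ l ∈ Lam, ∃ m ∈ Lam, l ≠ 0 ∧ m ≠ 0 ∧ (exp (t * I) * m / l).im = 0}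

theorem bad_countable : Bad.Countable := by
  have h1 : (image2 (fun l m : ℂ => (starRingEnd ℂ) (m / l) / (m / l)) Lam Lam).Countable :=
    lam_countable.image2 lam_countable _
  have h2 := Complex.countable_preimage_exp.mpr h1
  have h3 : Function.Injective (fun t : ℝ => (2 * t * I : ℂ)) := by
    intro a b h
    have := congrArg Complex.im h
    simpa using this
  refine (h2.preimage_of_injOn (f := fun t : ℝ => (2 * t * I : ℂ)) h3.injOn).mono ?_
  rintro t ⟨l, hl, m, hm, hl0, hm0, h⟩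
  refine ⟨l, hl, m, hm, ?_⟩
  have hc := Complex.conj_eq_iff_im.mpr h
  rw [mul_div_assoc, map_mul, ← Complex.exp_conj] at hc
  have hq : m / l ≠ 0 := div_ne_zero hm0 hl0
  have e1 : (starRingEnd ℂ) (t * I) = -(t * I) := by simp
  have e2 : exp (2 * t * I) = exp (t * I) * exp (t * I) := by rw [← Complex.exp_add]; ring_nf
  have e3 : exp (-(t * I)) * exp (t * I) = 1 := by rw [← Complex.exp_add]; simp
  rw [e1] at hc
  simp only
  rw [div_eq_iff hq, e2]
  linear_combination (exp (t * I)) * hc - ((starRingEnd ℂ) (m / l)) * e3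

theorem dense_or (u : ℂ) : (∃ l ∈ Lam, l ≠ 0 ∧ (u * l).im = 0) ∨
    ∀ s ε : ℝ, 0 < ε → ∃ l ∈ Lam, |(u * l).im - s| < ε := by
  let S : AddSubgroup ℝ :=
    { carrier := {y | ∃ l ∈ Lam, y = (u * l).im}
      add_mem' := by
        rintro _ _ ⟨a, ha, rfl⟩ ⟨b, hb, rfl⟩
        exact ⟨a + b, lam_add ha hb, by rw [mul_add, add_im]⟩
      zero_mem' := ⟨0, ⟨0, 0, by simp⟩, by simp⟩
      neg_mem' := by
        rintro _ ⟨a, ha, rfl⟩
        exact ⟨0 - a, lam_sub ⟨0, 0, by simp⟩ ha, by simp⟩ }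
  rcases S.dense_or_cyclic with h | ⟨g, hg⟩
  · right
    intro s ε hε
    obtain ⟨y, ⟨l, hl, rfl⟩, hy⟩ := h.exists_dist_lt s hε
    exact ⟨l, hl, by rwa [Real.dist_eq, abs_sub_comm] at hy⟩
  · left
    have h1 : (u * 1).im ∈ S := ⟨1, ⟨1, 0, by simp⟩, rfl⟩
    have h2 : (u * om).im ∈ S := ⟨om, ⟨0, 1, by simp⟩, rfl⟩
    rw [hg, AddSubgroup.mem_closure_singleton] at h1 h2
    obtain ⟨m, hm⟩ := h1
    obtain ⟨n, hn⟩ := h2
    by_cases hm0 : m = 0
    · refine ⟨1, ⟨1, 0, by simp⟩, one_ne_zero, ?_⟩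
      rw [← hm, hm0]; simp
    · refine ⟨n + (-m : ℤ) * om, ⟨_, _, rfl⟩, fun h0 => ?_, ?_⟩
      · have := congrArg Complex.im h0
        simp [om] at this
        exact hm0 this
      · have e : u * (n + (-m : ℤ) * om) = (n : ℝ) * (u * 1) - (m : ℝ) * (u * om) := by
          push_cast; ring
        rw [e, sub_im, im_ofReal_mul, im_ofReal_mul, ← hm, ← hn, zsmul_eq_mul, zsmul_eq_mul]
        ring

theorem norm_e (t : ℝ) : ‖exp (t * I)‖ = 1 := Complex.norm_exp_ofReal_mul_I t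

theorem hit (v : ℂ) (hv : ‖v‖ = 1) (z : ℂ) :
    ‖z - (((starRingEnd ℂ) v * z).re : ℝ) * v‖ = |((starRingEnd ℂ) v * z).im| := by
  have h1 : v * (starRingEnd ℂ) v = 1 := by
    rw [Complex.mul_conj, Complex.normSq_eq_norm_sq, hv]; simp
  have h2 := Complex.re_add_im ((starRingEnd ℂ) v * z)
  have e : z - (((starRingEnd ℂ) v * z).re : ℝ) * v =
      v * ((((starRingEnd ℂ) v * z).im : ℝ) * I) := by
    linear_combination (-v) * h2 - z * h1
  rw [e, norm_mul, norm_mul, hv, Complex.norm_real, Complex.norm_I]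
  simp

theorem forest_of_good {k : ℕ} (θ : Fin k → ℝ) (x : Fin k → ℂ) (i j : Fin k)
    (h : θ j - θ i ∉ Bad) : DenseForest (TBG θ x) := by
  intro ε hε
  let K : Set (ℂ × ℂ × ℂ) := Metric.sphere 0 1 ×ˢ (Metric.closedBall 0 2 ×ˢ Metric.closedBall 0 2)
  have hK : IsCompact K :=
    (isCompact_sphere _ _).prod ((isCompact_closedBall _ _).prod (isCompact_closedBall _ _))
  let W : ℕ → Set (ℂ × ℂ × ℂ) := fun n => {w | ∃ t : ℝ, |t| ≤ n ∧ ∃ l ∈ Lam,
    (‖exp (θ i * I) * l - w.2.1 - t * w.1‖ < ε ∨ ‖exp (θ j * I) * l - w.2.2 - t * w.1‖ < ε)}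
  have hWo : ∀ n, IsOpen (W n) := by
    intro n
    have : W n = ⋃ (t : ℝ) (_ : |t| ≤ n) (l : ℂ) (_ : l ∈ Lam),
        ({w : ℂ × ℂ × ℂ | ‖exp (θ i * I) * l - w.2.1 - t * w.1‖ < ε} ∪
          {w | ‖exp (θ j * I) * l - w.2.2 - t * w.1‖ < ε}) := by
      ext w; simp [W]
    rw [this]
    refine isOpen_iUnion (fun t => isOpen_iUnion (fun _ => isOpen_iUnion (fun l =>
      isOpen_iUnion (fun _ => IsOpen.union ?_ ?_))))
    · exact isOpen_lt (by fun_prop) continuous_const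
    · exact isOpen_lt (by fun_prop) continuous_const
  have hmono : Monotone W := by
    rintro a b hab w ⟨t, ht, h'⟩
    exact ⟨t, ht.trans (by exact_mod_cast hab), h'⟩
  have hcov : K ⊆ ⋃ n, W n := by
    rintro ⟨v, r₁, r₂⟩ ⟨hv, -⟩
    have hv1 : ‖v‖ = 1 := by simpa using hv
    have key : ∀ (a : ℝ) (r : ℂ), (∀ s ε : ℝ, 0 < ε → ∃ l ∈ Lam,
        |((starRingEnd ℂ) v * exp (a * I) * l).im - s| < ε) →
        ∃ t : ℝ, ∃ l ∈ Lam, ‖exp (a * I) * l - r - t * v‖ < ε := by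
      intro a r hd
      obtain ⟨l, hl, h1⟩ := hd ((starRingEnd ℂ) v * r).im ε hε
      refine ⟨_, l, hl, (hit v hv1 (exp (a * I) * l - r)).trans_lt ?_⟩
      rwa [mul_sub, sub_im, ← mul_assoc]
    rcases dense_or ((starRingEnd ℂ) v * exp (θ i * I)) with ⟨l, hl, hl0, h1⟩ | h1
    · rcases dense_or ((starRingEnd ℂ) v * exp (θ j * I)) with ⟨m, hm, hm0, h2⟩ | h2
      · exfalso
        refine h ⟨l, hl, m, hm, hl0, hm0, ?_⟩
        have hv0 : (starRingEnd ℂ) v ≠ 0 := by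
          rw [map_ne_zero]; intro h0; rw [h0] at hv1; simp at hv1
        have e : exp (((θ j - θ i : ℝ) : ℂ) * I) * m / l =
            ((starRingEnd ℂ) v * exp (θ j * I) * m) / ((starRingEnd ℂ) v * exp (θ i * I) * l) := by
          have := Complex.exp_ne_zero (θ i * I)
          push_cast
          rw [sub_mul, Complex.exp_sub]
          field_simp
        rw [e, Complex.div_im, h1, h2]
        simp
      · obtain ⟨t, l, hl, h3⟩ := key _ r₂ h2
        exact mem_iUnion.mpr ⟨⌈|t|⌉₊, t, Nat.le_ceil _, l, hl, Or.inr h3⟩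
    · obtain ⟨t, l, hl, h3⟩ := key _ r₁ h1
      exact mem_iUnion.mpr ⟨⌈|t|⌉₊, t, Nat.le_ceil _, l, hl, Or.inl h3⟩
  obtain ⟨n, hn⟩ := hK.elim_directed_cover W hWo hcov (hmono.directed_le)
  have hV : (0 : ℝ) < 2 * n + 2 := by positivity
  refine ⟨2 * n + 2, hV, fun a b hab => ?_⟩
  set V : ℝ := 2 * n + 2 with hVdef
  have hVc : (V : ℂ) ≠ 0 := by exact_mod_cast hV.ne'
  let v : ℂ := (b - a) / V
  have hv : ‖v‖ = 1 := by
    rw [dist_comm, dist_eq_norm] at hab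
    simp only [v]
    rw [norm_div, hab, Complex.norm_real, Real.norm_eq_abs, abs_of_pos hV, div_self hV.ne']
  let c : ℂ := (a + b) / 2
  have red : ∀ e : Fin k, ∃ l ∈ Lam, ‖c - x e - exp (θ e * I) * l‖ ≤ 2 := by
    intro e
    obtain ⟨l, hl, h1⟩ := lam_cover ((c - x e) / exp (θ e * I))
    refine ⟨l, hl, ?_⟩
    have e1 : c - x e - exp (θ e * I) * l = exp (θ e * I) * ((c - x e) / exp (θ e * I) - l) := by
      have := Complex.exp_ne_zero (θ e * I)
      field_simp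
    rw [e1, norm_mul, norm_e, one_mul]
    exact h1
  obtain ⟨l₁, hl₁, h₁⟩ := red i
  obtain ⟨l₂, hl₂, h₂⟩ := red j
  obtain ⟨t, ht, l, hl, h3⟩ := hn (show (v, c - x i - exp (θ i * I) * l₁,
      c - x j - exp (θ j * I) * l₂) ∈ K from
    ⟨by simpa using hv, by simpa using h₁, by simpa using h₂⟩)
  have hseg : c + t * v ∈ segment ℝ a b := by
    rw [abs_le] at ht
    have hn0 : (0 : ℝ) ≤ n := Nat.cast_nonneg n
    refine ⟨1 / 2 - t / V, 1 / 2 + t / V, ?_, ?_, by ring, ?_⟩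
    · rw [sub_nonneg, div_le_iff₀ hV]; linarith [ht.2]
    · have : -(1 / 2) ≤ t / V := by rw [le_div_iff₀ hV]; linarith [ht.1]
      linarith
    · simp only [c, v, Complex.real_smul]
      push_cast
      field_simp
      ring
  refine ⟨c + t * v, hseg, ?_⟩
  rcases h3 with h3 | h3
  · refine ⟨exp (θ i * I) * (l + l₁) + x i, ⟨i, _, lam_add hl hl₁, rfl⟩, ?_⟩
    rw [dist_comm, dist_eq_norm]
    exact lt_of_eq_of_lt (congrArg norm (by simp only; ring)) h3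
  · refine ⟨exp (θ j * I) * (l + l₂) + x j, ⟨j, _, lam_add hl hl₂, rfl⟩, ?_⟩
    rw [dist_comm, dist_eq_norm]
    exact lt_of_eq_of_lt (congrArg norm (by simp only; ring)) h3

theorem not_forest {k : ℕ} (θ : Fin k → ℝ) (x : Fin k → ℂ) (a : ℝ)
    (h : ∀ i, ∃ N : ℤ, N ≠ 0 ∧ N * exp (((θ i - a : ℝ) : ℂ) * I) ∈ Lam) :
    ¬ DenseForest (TBG θ x) := by
  intro hD
  choose N hN0 hN using h
  let g : Fin k → ℝ → ℝ := fun i s =>
    (s - (exp (-(a * I)) * x i).im) * N i / (Real.sqrt 3 / 2)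
  let F : Set ℝ := ⋃ i, g i ⁻¹' range (Int.cast : ℤ → ℝ)
  have h3 : 0 < Real.sqrt 3 := by positivity
  have hFc : IsClosed F := isClosed_iUnion_of_finite (fun i =>
    Int.isClosedEmbedding_coe_real.isClosed_range.preimage (by fun_prop))
  have hF : F.Countable := countable_iUnion (fun i => (countable_range _).preimage_of_injOn (by
    intro s _ s' _ hs
    have hN' : (N i : ℝ) ≠ 0 := by exact_mod_cast hN0 i
    simp only [g] at hs
    field_simp at hs
    linarith))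
  obtain ⟨s, hs⟩ := (hF.dense_compl ℝ).nonempty
  obtain ⟨ε, hε, hb⟩ := Metric.isOpen_iff.mp hFc.isOpen_compl s hs
  obtain ⟨V, hV, hseg⟩ := hD ε hε
  have e3 : exp (-(a * I)) * exp (a * I) = 1 := by rw [← Complex.exp_add]; simp
  obtain ⟨p, ⟨α, β, hα, hβ, hαβ, rfl⟩, q, ⟨i, l, hl, rfl⟩, hpq⟩ :=
    hseg (exp (a * I) * (s * I)) (exp (a * I) * (V + s * I)) (by
      rw [dist_eq_norm, ← mul_sub, norm_mul, norm_e]
      simp [abs_of_pos hV])
  have hq : (exp (-(a * I)) * (exp (θ i * I) * l + x i)).im ∈ F := by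
    obtain ⟨m, n, hmn⟩ := lam_mul (hN i) hl
    refine mem_iUnion.mpr ⟨i, n, ?_⟩
    have e1 : exp (((θ i - a : ℝ) : ℂ) * I) = exp (-(a * I)) * exp (θ i * I) := by
      rw [← Complex.exp_add]; push_cast; ring_nf
    have e2 := congrArg Complex.im hmn
    rw [e1, mul_assoc, show (N i : ℂ) = ((N i : ℝ) : ℂ) by simp, im_ofReal_mul] at e2
    simp only [g]
    rw [mul_add, add_im, add_sub_cancel_right, ← mul_assoc, mul_comm _ (N i : ℝ), e2]
    simp [om]
  refine hb ?_ hq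
  rw [Metric.mem_ball, Real.dist_eq]
  have e4 : exp (-(a * I)) * (α • (exp (a * I) * (s * I)) + β • (exp (a * I) * (V + s * I))) =
      β * V + s * I := by
    have : (α : ℂ) + β = 1 := by exact_mod_cast hαβ
    simp only [Complex.real_smul]
    linear_combination (α * (s * I) + β * (V + s * I)) * e3 + (s * I) * this
  have e5 : ‖exp (-(a * I))‖ = 1 := by
    have := norm_e (-a)
    push_cast at this
    rwa [neg_mul] at this
  have e6 := Complex.abs_im_le_norm (exp (-(a * I)) * ((exp (θ i * I) * l + x i) -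
    (α • (exp (a * I) * (s * I)) + β • (exp (a * I) * (V + s * I)))))
  rw [norm_mul, e5, one_mul, ← dist_eq_norm, dist_comm, mul_sub, e4, sub_im] at e6
  have e7 : ((β : ℂ) * V + s * I).im = s := by simp
  rw [e7] at e6
  exact e6.trans_lt hpq

theorem small (ρ : ℂ) (δ : ℝ) (hδ : 0 < δ) :
    ∃ N : ℤ, N ≠ 0 ∧ ∃ l ∈ Lam, ‖N * ρ - l‖ < δ := by
  choose l hl hb using fun n : ℕ => lam_cover (n * ρ)
  obtain ⟨z, -, φ, hφ, hlim⟩ := tendsto_subseq_of_bounded
    (Metric.isBounded_closedBall (x := (0 : ℂ)) (r := 2))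
    (x := fun n : ℕ => n * ρ - l n) (fun n => by simpa using hb n)
  obtain ⟨n, hn⟩ := Metric.cauchySeq_iff'.mp hlim.cauchySeq δ hδ
  have h1 := hn (n + 1) (Nat.le_succ n)
  have h2 := hφ (Nat.lt_succ_self n)
  refine ⟨(φ (n + 1) : ℤ) - φ n, by simp only [Nat.succ_eq_add_one] at h2; omega,
    l (φ (n + 1)) - l (φ n), lam_sub (hl _) (hl _), ?_⟩
  rw [dist_eq_norm] at h1
  refine lt_of_eq_of_lt (congrArg norm ?_) h1
  simp only [Function.comp]
  push_cast
  ring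

theorem commens {k : ℕ} (θ : Fin k → ℝ) (x : Fin k → ℂ) (h : UniformlyDiscrete (TBG θ x))
    (i j : Fin k) : ∃ N : ℤ, N ≠ 0 ∧ N * exp (((θ i - θ j : ℝ) : ℂ) * I) ∈ Lam := by
  obtain ⟨r, hr, hd⟩ := h
  by_contra hcon
  push Not at hcon
  set ρ := exp (((θ i - θ j : ℝ) : ℂ) * I) with hρ
  obtain ⟨N, hN, l, hl, hs⟩ := small ρ (r / 8) (by positivity)
  have h0 : N * ρ - l ≠ 0 := by
    intro h0
    exact hcon N hN (by rw [sub_eq_zero.mp h0]; exact hl)
  have hne := Complex.exp_ne_zero (θ j * I)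
  obtain ⟨m, hm, hc⟩ := lam_cover ((((r / 2 : ℝ) : ℂ) - (x i - x j) / exp (θ j * I)) / (N * ρ - l))
  have e1 : exp (θ i * I) = exp (θ j * I) * ρ := by
    rw [hρ, ← Complex.exp_add]; push_cast; ring_nf
  have e2 : (exp (θ i * I) * (N * m) + x i) - (exp (θ j * I) * (l * m) + x j) =
      exp (θ j * I) * (((r / 2 : ℝ) : ℂ) - (N * ρ - l) *
        ((((r / 2 : ℝ) : ℂ) - (x i - x j) / exp (θ j * I)) / (N * ρ - l) - m)) := by
    rw [e1, mul_sub (N * ρ - l), mul_div_cancel₀ _ h0]; field_simp; ring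
  set w := (N * ρ - l) *
    ((((r / 2 : ℝ) : ℂ) - (x i - x j) / exp (θ j * I)) / (N * ρ - l) - m) with hw
  have hw1 : ‖w‖ ≤ r / 4 := by
    rw [hw, norm_mul]
    have := mul_le_mul hs.le hc (norm_nonneg _) (by positivity)
    linarith
  have hr2 : ‖((r / 2 : ℝ) : ℂ)‖ = r / 2 := by
    rw [Complex.norm_real, Real.norm_eq_abs, abs_of_pos (by positivity)]
  have e3 : dist (exp (θ i * I) * (N * m) + x i) (exp (θ j * I) * (l * m) + x j) =
      ‖((r / 2 : ℝ) : ℂ) - w‖ := by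
    rw [dist_eq_norm, e2, norm_mul, norm_e, one_mul]
  have h4 := norm_sub_le ((r / 2 : ℝ) : ℂ) w
  have h5 := norm_sub_norm_le ((r / 2 : ℝ) : ℂ) w
  have h6 := hd _ ⟨i, _, lam_mul (lam_int N) hm, rfl⟩ _ ⟨j, _, lam_mul hl hm, rfl⟩ (by
    intro h7
    rw [h7, dist_self] at e3
    linarith)
  linarith

end Pool.Agent.H18.Forest
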