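import Pool.Agent.H18.Carry

namespace Pool.Agent.H18.GcdBin

open Finset Pool.Agent.H18.Carry

lemma core0 {p n k K K0 : ℕ} (hp : p.Prime) (hK0 : K0 + 2 ≤ p) (hK : K + p = K0 + p ^ (n + 1))
    (hK1 : 1 ≤ K) (hk : ¬ p ∣ k) (hk1 : ¬ p ∣ k + 1) :
    ∃ i x, 1 ≤ i ∧ i ≤ K ∧ x ≡ i * k [MOD p ^ (n + 1)] ∧ K0 + x < p := by
  set N := p ^ (n + 1) with hN
  have hpN : p ≤ N := Nat.le_self_pow (by omega) p
  have hcop : k.Coprime N := Nat.Coprime.pow_right _ ((Nat.Prime.coprime_iff_not_dvd hp).mpr hk).symm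
  have hcop1 : N.Coprime (k + 1) :=
    Nat.Coprime.pow_left _ ((Nat.Prime.coprime_iff_not_dvd hp).mpr hk1)
  have hN0 : N ≠ 0 := by have := hp.pos; omega
  choose f hf1 hf2 using fun r => Nat.exists_mul_mod_eq_of_coprime r hcop hN0
  by_contra hc
  push Not at hc
  set T := p - 1 - K0 with hT
  have hbig : ∀ t ∈ Icc 1 T, K < f t := by
    intro t ht
    rw [mem_Icc] at ht
    by_contra h
    have h0 : f t ≠ 0 := by
      intro h0
      have := hf2 t
      rw [h0, mul_zero, Nat.zero_mod, Nat.mod_eq_of_lt (by omega)] at this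
      omega
    have := hc (f t) t (by omega) (by omega) (by rw [mul_comm]; exact (hf2 t).symm)
    omega
  have hdiv : ∀ t ∈ Icc 1 T, N ∣ k * (N - f t) + t := by
    intro t _
    have h1 : k * (N - f t) + t ≡ k * (N - f t) + k * f t [MOD N] :=
      Nat.ModEq.add_left _ (hf2 t).symm
    rw [← mul_add, Nat.sub_add_cancel (hf1 t).le] at h1
    exact (h1.dvd_iff dvd_rfl).mpr (Dvd.intro_left k rfl)
  have hinj : Set.InjOn (fun t => N - f t) (Icc 1 T : Finset ℕ) := by
    intro a ha b hb hab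
    simp only at hab
    have h1 := hf1 a
    have h2 := hf1 b
    have h3 : f a = f b := by omega
    have h4 := hf2 a
    rw [h3, hf2 b] at h4
    simp only [coe_Icc, Set.mem_Icc] at ha hb
    rw [Nat.mod_eq_of_lt (by omega), Nat.mod_eq_of_lt (by omega)] at h4
    exact h4.symm
  have himg : (Icc 1 T).image (fun t => N - f t) = Icc 1 T := by
    apply Finset.eq_of_subset_of_card_le
    · intro s hs
      obtain ⟨t, ht, rfl⟩ := mem_image.mp hs
      have := hbig t ht
      have := hf1 t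
      rw [mem_Icc]
      omega
    · rw [Finset.card_image_of_injOn hinj]
  have hsum : ∑ t ∈ Icc 1 T, (N - f t) = ∑ t ∈ Icc 1 T, t := by
    have := Finset.sum_image (f := fun s => s) hinj
    rw [himg] at this
    exact this.symm
  have h5 : N ∣ (k + 1) * ∑ t ∈ Icc 1 T, t := by
    have := Finset.dvd_sum hdiv
    rw [Finset.sum_add_distrib, ← Finset.mul_sum, hsum] at this
    rw [add_mul, one_mul]; exact this
  have h6 : N ∣ ∑ t ∈ Icc 1 T, t := hcop1.dvd_of_dvd_mul_left h5
  have h7 : ∀ T : ℕ, (∑ t ∈ Icc 1 T, t) * 2 = T * (T + 1) := by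
    intro T
    induction T with
    | zero => simp
    | succ T ih => rw [Finset.sum_Icc_succ_top (by omega), add_mul, ih]; ring
  have h8 : N ∣ T * (T + 1) := by rw [← h7]; exact h6.mul_right 2
  have h9 : p ∣ T * (T + 1) := (dvd_pow_self p (by omega)).trans h8
  rcases (Nat.Prime.dvd_mul hp).mp h9 with h | h
  · have := Nat.le_of_dvd (by omega) h
    omega
  · have h10 := Nat.le_of_dvd (by omega) h
    have h11 : T + 1 = p := by omega
    rw [h11, hN, pow_succ] at h8
    have h12 : p ^ n ∣ T := Nat.dvd_of_mul_dvd_mul_right hp.pos h8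
    rcases Nat.eq_zero_or_pos n with rfl | hn
    · simp only [zero_add, pow_one] at hN
      omega
    · have := Nat.le_of_dvd (by omega) ((dvd_pow_self p hn.ne').trans h12)
      omega

lemma core1 {p n e k K K0 W m : ℕ} (hp : p.Prime)
    (hK : K + p = K0 + p ^ (n + 1) * (W + 1)) (hW1 : p ^ e ≤ W) (hW2 : W < p * p ^ e)
    (hm : k + 1 = p * p ^ e * m) (hm1 : ¬ p ∣ m) :
    ∃ i R, 1 ≤ i ∧ i ≤ K ∧ 1 + p ^ (n + 1) * R ≡ i * k [MOD p ^ (n + 1) * (p * p ^ e)] ∧
      NC p W R := by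
  set N := p ^ (n + 1) with hN
  set u := p ^ e with hu
  have hp0 := hp.pos
  have hp2 := hp.two_le
  have hu0 : 0 < u := pow_pos hp0 _
  have hpN : p ≤ N := Nat.le_self_pow (by omega) p
  have hpN' : p ∣ N := dvd_pow_self p (by omega)
  have hk : ¬ p ∣ k := by
    intro h
    have : p ∣ k + 1 := ⟨u * m, by rw [hm]; ring⟩
    exact hp.one_lt.ne' (Nat.dvd_one.mp ((Nat.dvd_add_right h).mp this))
  have hkp : k.Coprime p := ((Nat.Prime.coprime_iff_not_dvd hp).mpr hk).symm
  have hcop : k.Coprime (N * (p * u)) :=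
    Nat.Coprime.mul_right (hkp.pow_right _) (Nat.Coprime.mul_right hkp (hkp.pow_right _))
  have hQ : 1 < N * (p * u) := by nlinarith
  obtain ⟨w, hw1, hw2⟩ := Nat.exists_mul_mod_eq_one_of_coprime hcop hQ
  have hw3 : k * w ≡ 1 [MOD N * (p * u)] := by
    unfold Nat.ModEq; rw [hw2, Nat.mod_eq_of_lt hQ]
  have hwd := Nat.div_add_mod w N
  have hwl : w % N < N := Nat.mod_lt _ (by omega)
  have hWt : w / N < p * u := Nat.div_lt_of_lt_mul hw1
  set Wt := w / N
  set wl := w % N
  have key : ∀ R D, R + D = Wt → wl + N * D ≤ K → NC p W R →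
      ∃ i R, 1 ≤ i ∧ i ≤ K ∧ 1 + N * R ≡ i * k [MOD N * (p * u)] ∧ NC p W R := by
    intro R D hRD hle hnc
    have h1 : 1 + N * R ≡ (wl + N * D) * k [MOD N * (p * u)] := by
      have h2 : (wl + N * D) * k + N * (p * u) * (m * R) = k * w + N * R := by
        have : N * (p * u) * (m * R) = N * R * (k + 1) := by rw [hm]; ring
        rw [this, ← hwd, ← hRD]; ring
      have h3 : (wl + N * D) * k + N * (p * u) * (m * R) ≡ (wl + N * D) * k [MOD N * (p * u)] := by
        unfold Nat.ModEq; rw [Nat.add_mul_mod_self_left]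
      rw [h2] at h3
      exact (hw3.symm.add_right _).trans h3
    refine ⟨wl + N * D, R, ?_, hle, h1, hnc⟩
    by_contra h0
    have h0 : wl + N * D = 0 := by omega
    rw [h0, zero_mul] at h1
    have h4 : p ∣ 1 + N * R :=
      (hpN'.mul_right _).trans ((Nat.modEq_zero_iff_dvd).mp h1)
    exact hp.one_lt.ne' (Nat.dvd_one.mp ((Nat.dvd_add_left (hpN'.mul_right R)).mp h4))
  have small : ∀ D, D < W → wl + N * D ≤ K := by
    intro D hD
    have : N * (D + 1) ≤ N * W := Nat.mul_le_mul_left _ hD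
    nlinarith
  have hd1 := Nat.div_add_mod Wt u
  have hd2 := Nat.mod_lt Wt hu0
  have hd3 := Nat.div_add_mod W u
  have hd4 := Nat.mod_lt W hu0
  have htop : Wt / u < p := Nat.div_lt_of_lt_mul (by rwa [mul_comm])
  have hWtop : 1 ≤ W / u := (Nat.one_le_div_iff hu0).mpr hW1
  set a := Wt / u
  set b := W / u
  by_cases h1 : a < b
  · apply key 0 Wt (by omega) (small _ _) (nc_zero hp0 _)
    have : u * (a + 1) ≤ u * b := Nat.mul_le_mul_left _ h1
    rw [mul_add, mul_one] at this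
    omega
  by_cases h2 : a + 1 < p
  · obtain ⟨t, ht⟩ : ∃ t, t + b = a + 1 := ⟨a + 1 - b, by omega⟩
    obtain ⟨b', hb'⟩ : ∃ b', b = b' + 1 := ⟨b - 1, by omega⟩
    apply key (u * t) (u * b' + Wt % u)
    · have : a = t + b' := by omega
      rw [this, mul_add] at hd1
      omega
    · apply small
      rw [hb', mul_add, mul_one] at hd3
      omega
    · apply nc_shift hp0
      apply nc_small
      show b + t < p
      omega
  · have ha : a + 1 = p := by omega
    obtain ⟨T, hT⟩ : ∃ T, W + T + 1 = p * u := ⟨p * u - 1 - W, by omega⟩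
    have hTle : T ≤ Wt := by
      rw [← ha, add_mul, one_mul, mul_comm a u] at hT
      omega
    apply key T (Wt - T) (by omega) _ (nc_compl (e := e + 1) hp0 (by rw [hT, pow_succ']))
    by_cases h3 : Wt + 1 < p * u
    · exact small _ (by omega)
    · have h4 : Wt - T = W := by omega
      rw [h4]
      obtain ⟨s, hs⟩ : ∃ s, wl + s = N := ⟨N - wl, by omega⟩
      by_cases h5 : p ≤ s
      · nlinarith
      · exfalso
        have h6 : w + s = N * (p * u) := by
          have : Wt + 1 = p * u := by omega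
          rw [← this, ← hwd]; nlinarith
        have h7 : N * (p * u) ∣ 1 + k * s := by
          have h8 : k * w + k * s ≡ 1 + k * s [MOD N * (p * u)] := hw3.add_right _
          rw [← mul_add, h6] at h8
          exact (h8.dvd_iff dvd_rfl).mp (Dvd.intro_left k rfl)
        obtain ⟨s', rfl⟩ : ∃ s', s = s' + 1 := ⟨s - 1, by omega⟩
        have h9 : p ∣ (k + 1) * (s' + 1) := ⟨u * m * (s' + 1), by rw [hm]; ring⟩
        have h10 : (k + 1) * (s' + 1) = (1 + k * (s' + 1)) + s' := by ring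
        rw [h10] at h9
        have h11 : p ∣ s' := (Nat.dvd_add_right ((hpN'.mul_right _).trans h7)).mp h9
        have h12 : s' = 0 := Nat.eq_zero_of_dvd_of_lt h11 (by omega)
        subst h12
        rw [zero_add, mul_one, add_comm, hm, mul_comm (p * u)] at h7
        exact hm1 (hpN'.trans (Nat.dvd_of_mul_dvd_mul_right (by positivity) h7))

lemma exists_nc {p e k m : ℕ} (hp : p.Prime) (hm : k + 1 = p ^ e * m) (hm1 : ¬ p ∣ m)
    (hlt : p ^ e < m) : ∃ i, 1 ≤ i ∧ i ≤ k ∧ NC p k (i * k) := by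
  have hp0 := hp.pos
  have hq : 0 < p ^ e := pow_pos hp0 _
  have hk2 : p ^ (e + e) ≤ k := by rw [pow_add]; nlinarith
  have hk0 : k ≠ 0 := by have := pow_pos hp0 (e + e); omega
  obtain ⟨l, hl1, hl2⟩ : ∃ l, p ^ l ≤ k ∧ k < p ^ (l + 1) :=
    ⟨Nat.log p k, Nat.pow_log_le_self p hk0, Nat.lt_pow_succ_log_self hp.one_lt k⟩
  have hel : e + e < l + 1 := (Nat.pow_lt_pow_iff_right hp.one_lt).mp (hk2.trans_lt hl2)
  by_cases hk : p ∣ k
  · refine ⟨p ^ l, pow_pos hp0 _, hl1, nc_congr hp0 hl2 (b := 0) ?_ (nc_zero hp0 _)⟩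
    symm
    rw [Nat.modEq_zero_iff_dvd, pow_succ]
    exact Nat.mul_dvd_mul_left _ hk
  have hnd : ¬ p ^ (l + 1 - e) ∣ k + 1 := by
    intro h
    have h1 : p ^ (e + 1) ∣ p ^ e * m := hm ▸ (pow_dvd_pow p (by omega)).trans h
    rw [pow_succ] at h1
    exact hm1 (Nat.dvd_of_mul_dvd_mul_left hq h1)
  obtain ⟨j, n, V, K0, h1, h2, h3⟩ := decomp hp0 _ k hnd
  have hj : 0 < p ^ j := pow_pos hp0 _
  have hKu : k / p ^ j < p ^ (n + 1) * p ^ e := by
    apply Nat.div_lt_of_lt_mul
    rw [← pow_add, ← pow_add]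
    have : j + (n + 1 + e) = l + 1 := by omega
    rwa [this]
  have hKl : p ^ n * p ^ e ≤ k / p ^ j := by
    rw [Nat.le_div_iff_mul_le hj, ← pow_add, ← pow_add]
    have : n + e + j = l := by omega
    rwa [this]
  have hfin : ∀ i, 1 ≤ i → i ≤ k / p ^ j → NC p (k / p ^ j) (i * k) →
      ∃ i, 1 ≤ i ∧ i ≤ k ∧ NC p k (i * k) := by
    intro i hi1 hi2 hnc
    refine ⟨p ^ j * i, Nat.mul_pos hj hi1, ?_, ?_⟩
    · exact (Nat.mul_le_mul_left _ hi2).trans (Nat.mul_div_le _ _)
    · rw [mul_assoc]; exact nc_shift hp0 j _ _ hnc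
  generalize k / p ^ j = K at *
  have hpN : p ≤ p ^ (n + 1) := Nat.le_self_pow (by omega) p
  have hV1 : V ≤ p ^ e := by
    by_contra hc
    have : p ^ (n + 1) * (p ^ e + 1) ≤ p ^ (n + 1) * V := Nat.mul_le_mul_left _ (by omega)
    rw [mul_add, mul_one] at this
    omega
  have hV0 : V ≠ 0 := by
    rintro rfl
    omega
  obtain ⟨W, rfl⟩ := Nat.exists_eq_succ_of_ne_zero hV0
  rw [Nat.succ_eq_add_one] at h3 hV1
  have hKmod : K % p = K0 := by
    have h4 : (K + p) % p = (K0 + p * (p ^ n * (W + 1))) % p := by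
      rw [h3, pow_succ']; congr 2; ring
    rw [Nat.add_mod_right, Nat.add_mul_mod_self_left, Nat.mod_eq_of_lt (by omega : K0 < p)] at h4
    exact h4
  cases e with
  | zero =>
    simp only [pow_zero, mul_one, one_mul] at *
    have hW : W = 0 := by omega
    subst hW
    simp only [zero_add, mul_one] at h3
    obtain ⟨i, x, hi1, hi2, hi3, hi4⟩ := core0 hp h2 h3 ((pow_pos hp0 n).trans_le hKl) hk
      (hm ▸ hm1)
    refine hfin i hi1 hi2 (nc_congr hp0 hKu hi3 (nc_step ?_ ?_))
    · have := Nat.mod_le x p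
      omega
    · rw [Nat.div_eq_of_lt (by omega : x < p)]
      exact nc_zero hp0 _
  | succ e =>
    have hW1 : p ^ e ≤ W := by
      by_contra hc
      have h5 : p ^ (n + 1) * (W + 1) ≤ p ^ (n + 1) * p ^ e := Nat.mul_le_mul_left _ (by omega)
      have h6 : p ^ n * p ^ (e + 1) = p ^ (n + 1) * p ^ e := by ring
      omega
    rw [pow_succ' p e] at hm hV1 hKu
    obtain ⟨i, R, hi1, hi2, hi3, hi4⟩ := core1 hp h3 hW1 (by omega) hm hm1
    have hQ : p ^ (n + 1) * (p * p ^ e) = p ^ (n + 1 + (e + 1)) := by ring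
    rw [hQ] at hi3 hKu
    refine hfin i hi1 hi2 (nc_congr hp0 hKu hi3 (nc_step ?_ ?_))
    · rw [pow_succ', mul_assoc, Nat.add_mul_mod_self_left, Nat.mod_eq_of_lt hp.one_lt]
      omega
    · rw [pow_succ', mul_assoc, Nat.add_mul_div_left _ _ hp0, Nat.div_eq_of_lt hp.one_lt, zero_add]
      apply nc_shift hp0
      rw [Nat.div_div_eq_div_mul, ← pow_succ']
      have h7 : K / p ^ (n + 1) = W := by
        rw [mul_add, mul_one] at h3
        apply Nat.div_eq_of_lt_le
        · rw [mul_comm]; omega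
        · rw [add_mul, one_mul, mul_comm]; omega
      rw [h7]; exact hi4

lemma not_nc {p e k m i : ℕ} (hp : p.Prime) (hm : k + 1 = p ^ e * m)
    (hle : m ≤ p ^ e) (hi1 : 1 ≤ i) (hi2 : i ≤ k) : ¬ NC p k (i * k) := by
  intro h
  have hp0 := hp.pos
  have hq : 0 < p ^ e := pow_pos hp0 _
  set q := p ^ e with hqdef
  have hm0 : m ≠ 0 := by rintro rfl; simp at hm
  obtain ⟨m', rfl⟩ := Nat.exists_eq_succ_of_ne_zero hm0
  rw [Nat.succ_eq_add_one] at hm hle
  by_cases hd : q ∣ i
  · obtain ⟨c, rfl⟩ := hd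
    have h1 := h (e + e)
    rw [pow_add, ← hqdef] at h1
    have hkq : k < q * q := by nlinarith
    rw [Nat.mod_eq_of_lt hkq] at h1
    have h2 : q * q ∣ q * c * k % (q * q) + q * c := by
      have h3 : q * c * k % (q * q) + q * c ≡ q * c * k + q * c [MOD q * q] :=
        (Nat.mod_modEq _ _).add_right _
      refine (h3.dvd_iff dvd_rfl).mpr ⟨c * (m' + 1), ?_⟩
      calc q * c * k + q * c = q * c * (k + 1) := by ring
        _ = _ := by rw [hm]; ring
    have := Nat.le_of_dvd (by omega) h2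
    omega
  · have h1 := h e
    rw [← hqdef] at h1
    have h2 : k % q = q - 1 := by
      have : k = (q - 1) + q * m' := by rw [mul_add, mul_one] at hm; omega
      rw [this, Nat.add_mul_mod_self_left, Nat.mod_eq_of_lt (by omega)]
    have h3 : i * k % q = 0 := by omega
    apply hd
    have h4 : q ∣ i * k + i := ⟨(m' + 1) * i, by
      calc i * k + i = (k + 1) * i := by ring
        _ = _ := by rw [hm]; ring⟩
    exact (Nat.dvd_add_right (Nat.dvd_of_mod_eq_zero h3)).mp h4

end Pool.Agent.H18.GcdBin
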