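import Mathlib

namespace Pool.Agent.H18.GoodVec

open Finset MeasureTheory

noncomputable def W {r : ℕ} (k : Fin r → ℤ) : ℝ := ∏ i, (1 / (1 + (k i : ℝ) ^ 2))

theorem W_pos {r : ℕ} (k : Fin r → ℤ) : 0 < W k :=
  Finset.prod_pos (fun i _ => by positivity)

theorem summable_one : Summable (fun a : ℤ => 1 / (1 + (a : ℝ) ^ 2)) := by
  have h : Summable (fun a : ℤ => 1 / (a : ℝ) ^ 2) := Real.summable_one_div_int_pow.mpr (by norm_num)
  refine Summable.of_norm_bounded_eventually h ?_
  have : ∀ᶠ a : ℤ in Filter.cofinite, a ≠ 0 := Filter.eventually_cofinite_ne 0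
  filter_upwards [this] with a ha
  have h1 : (0 : ℝ) < (a : ℝ) ^ 2 := by positivity
  rw [Real.norm_eq_abs, abs_of_pos (by positivity)]
  exact one_div_le_one_div_of_le h1 (by linarith)

theorem W_cons {r : ℕ} (a : ℤ) (k : Fin r → ℤ) :
    W (Fin.cons a k : Fin (r + 1) → ℤ) = 1 / (1 + (a : ℝ) ^ 2) * W k := by
  simp [W, Fin.prod_univ_succ, mul_comm]

theorem summable_W (r : ℕ) : Summable (fun k : Fin r → ℤ => W k) := by
  induction r with
  | zero => exact Summable.of_finite
  | succ r ih =>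
    rw [← (Fin.consEquiv (fun _ : Fin (r + 1) => ℤ)).summable_iff]
    have h := summable_one.mul_of_nonneg ih (fun a => by positivity) (fun k => (W_pos k).le)
    refine h.congr ?_
    rintro ⟨a, k⟩
    simp only [Function.comp]
    exact (W_cons a k).symm

theorem avoid {ι : Type*} [Countable ι] (w : ι → ℝ) (hw : ∀ i, 0 < w i) (hs : Summable w)
    (z : ι → ℝ) : ∃ c : ℝ, 0 < c ∧ ∃ t : ℝ, ∀ i, c * w i ≤ |t - z i| := by
  set S := ∑' i, w i with hS
  have hS0 : 0 ≤ S := tsum_nonneg (fun i => (hw i).le)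
  refine ⟨1 / (4 * (S + 1)), by positivity, ?_⟩
  set c : ℝ := 1 / (4 * (S + 1)) with hc
  have hc0 : 0 < c := by positivity
  by_contra hcon
  push Not at hcon
  have hsub : Set.Icc (0 : ℝ) 1 ⊆ ⋃ i, Set.Ioo (z i - c * w i) (z i + c * w i) := by
    intro t _
    obtain ⟨i, hi⟩ := hcon t
    rw [abs_lt] at hi
    exact Set.mem_iUnion.mpr ⟨i, by constructor <;> linarith [hi.1, hi.2]⟩
  have h1 := (measure_mono (μ := volume) hsub).trans (measure_iUnion_le _)
  simp only [Real.volume_Icc, Real.volume_Ioo] at h1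
  have h2 : ∀ i, ENNReal.ofReal (z i + c * w i - (z i - c * w i)) =
      ENNReal.ofReal (2 * c * w i) := fun i => by congr 1; ring
  simp only [h2] at h1
  rw [← ENNReal.ofReal_tsum_of_nonneg (fun i => by have := hw i; positivity)
    (hs.mul_left _), tsum_mul_left, ← hS] at h1
  have h3 := (ENNReal.ofReal_le_ofReal_iff (by positivity)).mp h1
  have h4 : 2 * c * S < 1 := by
    have : 2 * c * S = S / (2 * (S + 1)) := by rw [hc]; field_simp; ring
    rw [this, div_lt_one (by positivity)]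
    linarith
  linarith

theorem good_fin (r : ℕ) : ∃ γ : Fin r → ℝ, ∃ c : ℝ, 0 < c ∧
    ∀ k : Fin r → ℤ, k ≠ 0 → c * W k ≤ |∑ i, (k i : ℝ) * γ i| := by
  induction r with
  | zero => exact ⟨fun _ => 0, 1, one_pos, fun k hk => absurd (Subsingleton.elim _ _) hk⟩
  | succ r ih =>
    obtain ⟨γ, c, hc, h⟩ := ih
    obtain ⟨c', hc', t, ht⟩ := avoid (fun k : Fin (r + 1) → ℤ => W k) W_pos (summable_W _)
      (fun k => -(∑ i : Fin r, (k i.succ : ℝ) * γ i) / k 0)
    refine ⟨Fin.cons t γ, min c c', lt_min hc hc', fun k hk => ?_⟩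
    rw [Fin.sum_univ_succ]
    simp only [Fin.cons_zero, Fin.cons_succ]
    by_cases h0 : k 0 = 0
    · have hk' : Fin.tail k ≠ 0 := by
        intro h'
        apply hk
        funext i
        refine Fin.cases ?_ (fun j => ?_) i
        · exact h0
        · exact congrFun h' j
      have h1 := h _ hk'
      have h2 : W k = W (Fin.tail k) := by
        conv_lhs => rw [← Fin.cons_self_tail k]
        rw [W_cons, h0]; simp
      rw [h0, h2]
      simp only [Int.cast_zero, zero_mul, zero_add]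
      exact (mul_le_mul_of_nonneg_right (min_le_left _ _) (W_pos _).le).trans h1
    · have h1 := ht k
      have h0' : (k 0 : ℝ) ≠ 0 := by exact_mod_cast h0
      have h2 : (k 0 : ℝ) * t + ∑ i : Fin r, (k i.succ : ℝ) * γ i =
          k 0 * (t - -(∑ i : Fin r, (k i.succ : ℝ) * γ i) / k 0) := by
        field_simp; ring
      have h3 : (1 : ℝ) ≤ |(k 0 : ℝ)| := by
        have : 1 ≤ |k 0| := Int.one_le_abs h0
        exact_mod_cast this
      rw [h2, abs_mul]
      refine (mul_le_mul_of_nonneg_right (min_le_right _ _) (W_pos _).le).trans (h1.trans ?_)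
      exact le_mul_of_one_le_left (abs_nonneg _) h3

theorem W_ge {r : ℕ} (k : Fin r → ℤ) (H : ℝ) (hH : 1 ≤ H) (hk : ∀ i, |(k i : ℝ)| ≤ H) :
    1 / (2 * H ^ 2) ^ r ≤ W k := by
  have h : ∏ _i : Fin r, (1 / (2 * H ^ 2)) ≤ W k := by
    refine Finset.prod_le_prod (fun i _ => by positivity) (fun i _ => ?_)
    refine one_div_le_one_div_of_le (by positivity) ?_
    have h1 : (k i : ℝ) ^ 2 ≤ H ^ 2 := by
      rw [← sq_abs]; exact pow_le_pow_left₀ (abs_nonneg _) (hk i) 2
    nlinarith
  rw [Finset.prod_const, Finset.card_univ, Fintype.card_fin, one_div_pow] at h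
  exact h

/-- homogeneous form -/
theorem good_hom (ι : Type*) [Fintype ι] : ∃ γ : ι → ℝ, ∃ c : ℝ, 0 < c ∧ ∃ K : ℕ,
    ∀ k : ι → ℤ, k ≠ 0 → ∀ H : ℝ, 1 ≤ H → (∀ i, |(k i : ℝ)| ≤ H) →
      c / H ^ K ≤ |∑ i, (k i : ℝ) * γ i| := by
  obtain ⟨γ, c, hc, h⟩ := good_fin (Fintype.card ι)
  let e := Fintype.equivFin ι
  refine ⟨fun i => γ (e i), c / 2 ^ (Fintype.card ι), by positivity, 2 * Fintype.card ι,
    fun k hk H hH hb => ?_⟩
  have hk' : (fun j => k (e.symm j)) ≠ 0 := by
    intro h'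
    apply hk
    funext i
    have := congrFun h' (e i)
    simpa using this
  have h1 := h _ hk'
  have h2 := W_ge (fun j => k (e.symm j)) H hH (fun j => hb _)
  have h3 : ∑ i, (k i : ℝ) * γ (e i) = ∑ j, (k (e.symm j) : ℝ) * γ j := by
    rw [← e.sum_comp]; simp
  rw [h3]
  refine le_trans ?_ ((mul_le_mul_of_nonneg_left h2 hc.le).trans h1)
  rw [mul_pow, ← pow_mul]
  apply le_of_eq
  field_simp

/-- inhomogeneous form -/
theorem good (ι : Type*) [Fintype ι] : ∃ γ : ι → ℝ, ∃ c : ℝ, 0 < c ∧ ∃ K : ℕ,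
    ∀ k : ι → ℤ, k ≠ 0 → ∀ l : ℤ, ∀ H : ℝ, 1 ≤ H → (∀ i, |(k i : ℝ)| ≤ H) →
      c / H ^ K ≤ |∑ i, (k i : ℝ) * γ i - l| := by
  obtain ⟨γ, c, hc, K, h⟩ := good_hom (Option ι)
  have hg : γ none ≠ 0 := by
    intro h0
    have h1 := h (fun o => Option.elim o 1 (fun _ => 0)) (by
      intro h'; have := congrFun h' none; simp at this) 1 le_rfl (by
      intro o; cases o <;> simp)
    rw [Fintype.sum_option] at h1
    simp [h0] at h1
    linarith
  have hga : 0 < |γ none| := abs_pos.mpr hg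
  set C : ℝ := ∑ i, |γ (some i) / γ none| + 1 with hC
  have hC1 : 1 ≤ C := by
    have : 0 ≤ ∑ i, |γ (some i) / γ none| := Finset.sum_nonneg (fun i _ => abs_nonneg _)
    linarith
  refine ⟨fun i => γ (some i) / γ none, min 1 (c / (C ^ K * |γ none|)),
    lt_min one_pos (by positivity), K, fun k hk l H hH hb => ?_⟩
  have hHK : 1 ≤ H ^ K := one_le_pow₀ hH
  by_cases hl : |(l : ℝ)| ≤ C * H
  · have h1 := h (fun o => Option.elim o (-l) k) (by
      intro h'; apply hk; funext i; have := congrFun h' (some i); simpa using this)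
      (C * H) (by nlinarith) (by
        intro o
        cases o with
        | none => simpa using hl
        | some i => exact (hb i).trans (by nlinarith))
    rw [Fintype.sum_option] at h1
    simp only [Option.elim_none, Option.elim_some, Int.cast_neg] at h1
    have h2 : -(l : ℝ) * γ none + ∑ i, (k i : ℝ) * γ (some i) =
        γ none * (∑ i, (k i : ℝ) * (γ (some i) / γ none) - l) := by
      rw [mul_sub, Finset.mul_sum]
      have : ∀ i, γ none * ((k i : ℝ) * (γ (some i) / γ none)) = k i * γ (some i) := by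
        intro i; field_simp
      simp only [this]; ring
    rw [h2, abs_mul] at h1
    have h3 : min 1 (c / (C ^ K * |γ none|)) / H ^ K ≤ c / (C * H) ^ K / |γ none| := by
      refine (div_le_div_of_nonneg_right (min_le_right _ _) (by positivity)).trans (le_of_eq ?_)
      rw [mul_pow]; field_simp
    refine h3.trans ?_
    rw [div_le_iff₀ hga]
    linarith
  · push Not at hl
    have h1 : |∑ i, (k i : ℝ) * (γ (some i) / γ none)| ≤ (C - 1) * H := by
      refine (Finset.abs_sum_le_sum_abs _ _).trans ?_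
      rw [hC, add_sub_cancel_right, Finset.sum_mul]
      refine Finset.sum_le_sum (fun i _ => ?_)
      rw [abs_mul, mul_comm]
      exact mul_le_mul_of_nonneg_left (hb i) (abs_nonneg _)
    have h2 := abs_sub_abs_le_abs_sub (l : ℝ) (∑ i, (k i : ℝ) * (γ (some i) / γ none))
    rw [abs_sub_comm] at h2
    have h3 : min 1 (c / (C ^ K * |γ none|)) / H ^ K ≤ 1 := by
      rw [div_le_one (by positivity)]
      exact (min_le_left _ _).trans hHK
    nlinarith

/-- a power saving cannot beat a polynomial lower bound -/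
theorem no_small (c D : ℝ) (hc : 0 < c) (hD : 0 < D) (K : ℕ) :
    ∃ N : ℕ, 0 < N ∧ ∀ Y : ℝ, 2 ≤ Y → D * Y ^ (-(N : ℝ)) < c / Y ^ K := by
  obtain ⟨M, hM⟩ := pow_unbounded_of_one_lt (D / c) (by norm_num : (1 : ℝ) < 2)
  refine ⟨M + K + 1, by omega, fun Y hY => ?_⟩
  have hY0 : 0 < Y := by linarith
  rw [Real.rpow_neg hY0.le, Real.rpow_natCast, ← div_eq_mul_inv, div_lt_div_iff₀ (by positivity)
    (by positivity)]
  have h1 : (2 : ℝ) ^ M ≤ Y ^ M := pow_le_pow_left₀ (by norm_num) hY M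
  have h2 : D < c * Y ^ M := by
    rw [div_lt_iff₀ hc] at hM
    nlinarith
  have h3 : Y ^ (M + K + 1) = Y ^ M * Y ^ K * Y := by ring
  rw [h3]
  have h4 : 0 < Y ^ K := by positivity
  have h5 : D * Y ^ K < c * Y ^ M * Y ^ K := mul_lt_mul_of_pos_right h2 h4
  have h6 : c * Y ^ M * Y ^ K ≤ c * (Y ^ M * Y ^ K * Y) := by
    have : 0 < c * Y ^ M * Y ^ K := by positivity
    nlinarith
  linarith

end Pool.Agent.H18.GoodVec
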