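import Mathlib

set_option autoImplicit false

namespace Pool.Agent.H18.Kara

open Finset

variable {n : ℕ} [NeZero n]

noncomputable abbrev ch : AddChar (ZMod n) ℂ := ZMod.stdAddChar

lemma ch_norm (x : ZMod n) : ‖ch x‖ = 1 := by
  rw [ZMod.stdAddChar_apply]; exact Circle.norm_coe _

lemma ch_sum {ι : Type*} (s : Finset ι) (f : ι → ZMod n) :
    ch (∑ i ∈ s, f i) = ∏ i ∈ s, ch (f i) := by
  classical
  induction s using Finset.induction_on with
  | empty => simp
  | insert a s ha ih => rw [sum_insert ha, prod_insert ha, AddChar.map_add_eq_mul, ih]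

lemma ch_orth (b : ZMod n) : ∑ x : ZMod n, ch (x * b) = if b = 0 then (n : ℂ) else 0 := by
  rw [AddChar.sum_mulShift b (ZMod.isPrimitive_stdAddChar n), ZMod.card]
  split_ifs <;> simp

lemma ch_conj (x : ZMod n) : (starRingEnd ℂ) (ch x) = ch (-x) := by
  rw [AddChar.map_neg_eq_inv, Complex.inv_def, Complex.normSq_eq_norm_sq, ch_norm]
  simp

def J {ι : Type*} (T : Finset ι) (α : ι → ZMod n) : ℕ :=
  ((T ×ˢ T).filter (fun x => α x.1 = α x.2)).card

lemma L2 {ι : Type*} (T : Finset ι) (c : ι → ℂ) (hc : ∀ t, ‖c t‖ ≤ 1) (α : ι → ZMod n) :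
    ∑ u : ZMod n, ‖∑ t ∈ T, c t * ch (α t * u)‖ ^ 2 ≤ n * J T α := by
  have e1 : ∀ u : ZMod n, ((‖∑ t ∈ T, c t * ch (α t * u)‖ ^ 2 : ℝ) : ℂ)
      = ∑ x ∈ T ×ˢ T, c x.1 * (starRingEnd ℂ) (c x.2) * ch (u * (α x.1 - α x.2)) := by
    intro u
    push_cast
    rw [← Complex.mul_conj', map_sum, sum_mul_sum, sum_product]
    refine sum_congr rfl (fun s _ => sum_congr rfl (fun t _ => ?_))
    rw [map_mul (starRingEnd ℂ), ch_conj]
    simp only
    rw [show u * (α s - α t) = α s * u + -(α t * u) by ring, AddChar.map_add_eq_mul]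
    ring
  have e2 : ((∑ u : ZMod n, ‖∑ t ∈ T, c t * ch (α t * u)‖ ^ 2 : ℝ) : ℂ)
      = ∑ x ∈ (T ×ˢ T).filter (fun x => α x.1 = α x.2), c x.1 * (starRingEnd ℂ) (c x.2) * n := by
    rw [Complex.ofReal_sum, sum_congr rfl (fun u _ => e1 u), sum_comm, sum_filter]
    refine sum_congr rfl (fun x _ => ?_)
    rw [← mul_sum, ch_orth]
    simp only [sub_eq_zero]
    split_ifs <;> simp
  have e3 := congrArg norm e2
  rw [Complex.norm_real, Real.norm_eq_abs] at e3
  refine (le_abs_self _).trans (e3.le.trans ((norm_sum_le _ _).trans ?_))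
  refine (sum_le_card_nsmul _ _ (n : ℝ) (fun x _ => ?_)).trans ?_
  · rw [norm_mul, norm_mul, Complex.norm_natCast, Complex.norm_conj]
    exact mul_le_of_le_one_left (by positivity) (mul_le_one₀ (hc _) (norm_nonneg _) (hc _))
  · rw [nsmul_eq_mul, mul_comm]; rfl

lemma J_eq {ι : Type*} (T : Finset ι) (α : ι → ZMod n) :
    (J T α : ℝ) = ∑ u : ZMod n, ((T.filter (fun t => α t = u)).card : ℝ) ^ 2 := by
  unfold J
  rw [card_eq_sum_card_fiberwise (f := fun x => α x.1) (t := univ) (fun _ _ => by simp)]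
  push_cast
  refine sum_congr rfl (fun u _ => ?_)
  rw [sq, ← Nat.cast_mul, ← card_product]
  congr 2
  ext x
  simp only [mem_filter, mem_product]
  constructor
  · rintro ⟨⟨⟨h1, h2⟩, h3⟩, h4⟩
    exact ⟨⟨h1, h4⟩, h2, h3 ▸ h4⟩
  · rintro ⟨⟨h1, h2⟩, h3, h4⟩
    exact ⟨⟨⟨h1, h3⟩, h2.trans h4.symm⟩, h2⟩

def tup {ι : Type*} (k : ℕ) (A : Finset ι) : Finset (Fin k → ι) := Fintype.piFinset (fun _ => A)

lemma card_tup {ι : Type*} (k : ℕ) (A : Finset ι) : (tup k A).card = A.card ^ k := by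
  simp [tup]

lemma pow_ch {ι : Type*} (k : ℕ) (A : Finset ι) (c : ι → ℂ) (a : ι → ZMod n) (u : ZMod n) :
    (∑ x ∈ A, c x * ch (a x * u)) ^ k
      = ∑ s ∈ tup k A, (∏ i, c (s i)) * ch ((∑ i, a (s i)) * u) := by
  rw [sum_pow']
  refine sum_congr rfl (fun s _ => ?_)
  rw [prod_mul_distrib, sum_mul, ch_sum]

theorem bilin {ι : Type*} (k : ℕ) (A B : Finset ι) (a b : ι → ZMod n) :
    ‖∑ x ∈ A, ∑ y ∈ B, ch (a x * b y)‖ ^ (2 * (k + 1) * (k + 1))
      ≤ (A.card : ℝ) ^ (2 * k * (k + 1)) * (B.card : ℝ) ^ (2 * k * (k + 1)) *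
        (n * J (tup (k + 1) A) (fun s => ∑ i, a (s i)) * J (tup (k + 1) B) (fun s => ∑ i, b (s i))) := by
  have hθ : ∀ x, ∃ c : ℂ, ‖c‖ = 1 ∧
      ((‖∑ y ∈ B, ch (a x * b y)‖ ^ (k + 1) : ℝ) : ℂ) = c * (∑ y ∈ B, ch (a x * b y)) ^ (k + 1) := by
    intro x
    obtain ⟨c, h1, h2⟩ := Complex.exists_norm_eq_mul_self ((∑ y ∈ B, ch (a x * b y)) ^ (k + 1))
    exact ⟨c, h1, by rw [← h2, norm_pow]⟩
  choose θ hθ1 hθ2 using hθ
  set W : ZMod n → ℂ := fun u => ∑ x ∈ A, θ x * ch (a x * u) with hW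
  set β : (Fin (k + 1) → ι) → ZMod n := fun s => ∑ i, b (s i) with hβ
  set T := tup (k + 1) B with hT
  have s1 : ‖∑ x ∈ A, ∑ y ∈ B, ch (a x * b y)‖ ^ (k + 1)
      ≤ (A.card : ℝ) ^ k * ∑ x ∈ A, ‖∑ y ∈ B, ch (a x * b y)‖ ^ (k + 1) :=
    (pow_le_pow_left₀ (norm_nonneg _) (norm_sum_le _ _) _).trans
      (pow_sum_le_card_mul_sum_pow (fun _ _ => norm_nonneg _) k)
  have s2 : ∑ x ∈ A, ‖∑ y ∈ B, ch (a x * b y)‖ ^ (k + 1) ≤ ∑ t ∈ T, ‖W (β t)‖ := by
    have e : ((∑ x ∈ A, ‖∑ y ∈ B, ch (a x * b y)‖ ^ (k + 1) : ℝ) : ℂ) = ∑ t ∈ T, W (β t) := by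
      rw [Complex.ofReal_sum, sum_congr rfl (fun x _ => hθ2 x)]
      simp only [hW]
      rw [sum_comm]
      refine sum_congr rfl (fun x _ => ?_)
      have := pow_ch (k + 1) B (fun _ => 1) b (a x)
      simp only [one_mul, prod_const_one] at this
      rw [← mul_sum]
      congr 1
      simp only [mul_comm (a x)]
      exact this
    have e3 := congrArg norm e
    rw [Complex.norm_real, Real.norm_eq_abs] at e3
    exact (le_abs_self _).trans (e3.le.trans (norm_sum_le _ _))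
  have s3 : (∑ t ∈ T, ‖W (β t)‖) ^ (k + 1)
      ≤ ((B.card : ℝ) ^ (k + 1)) ^ k * ∑ t ∈ T, ‖W (β t)‖ ^ (k + 1) := by
    have := pow_sum_le_card_mul_sum_pow (s := T) (f := fun t => ‖W (β t)‖)
      (fun _ _ => norm_nonneg _) k
    rwa [hT, card_tup, Nat.cast_pow, ← hT] at this
  have s4 : (∑ t ∈ T, ‖W (β t)‖ ^ (k + 1)) ^ 2
      ≤ J T β * ∑ u : ZMod n, (‖W u‖ ^ (k + 1)) ^ 2 := by
    rw [J_eq]
    refine le_trans (le_of_eq ?_) (sum_mul_sq_le_sq_mul_sq _ _ _)
    congr 1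
    rw [← sum_fiberwise_of_maps_to (g := β) (t := univ) (fun _ _ => mem_univ _)]
    refine sum_congr rfl (fun u _ => ?_)
    rw [sum_congr rfl (g := fun _ => ‖W u‖ ^ (k + 1)) (fun t ht => by rw [(mem_filter.1 ht).2]),
      sum_const, nsmul_eq_mul]
  have s5 : ∑ u : ZMod n, (‖W u‖ ^ (k + 1)) ^ 2
      ≤ n * J (tup (k + 1) A) (fun s => ∑ i, a (s i)) := by
    refine le_trans (le_of_eq ?_) (L2 (tup (k + 1) A) (fun s => ∏ i, θ (s i))
      (fun s => by rw [norm_prod]; simp [hθ1]) _)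
    refine sum_congr rfl (fun u _ => ?_)
    rw [← norm_pow, hW, pow_ch]
  set S := ‖∑ x ∈ A, ∑ y ∈ B, ch (a x * b y)‖
  set X := ∑ t ∈ T, ‖W (β t)‖
  set Y := ∑ t ∈ T, ‖W (β t)‖ ^ (k + 1)
  have hS : 0 ≤ S := norm_nonneg _
  have hX : 0 ≤ X := sum_nonneg (fun _ _ => norm_nonneg _)
  have t1 : S ^ (k + 1) ≤ (A.card : ℝ) ^ k * X :=
    s1.trans (mul_le_mul_of_nonneg_left s2 (by positivity))
  have t2 : Y ^ 2 ≤ J T β * (n * J (tup (k + 1) A) (fun s => ∑ i, a (s i))) :=
    s4.trans (mul_le_mul_of_nonneg_left s5 (by positivity))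
  calc S ^ (2 * (k + 1) * (k + 1)) = ((S ^ (k + 1)) ^ (k + 1)) ^ 2 := by ring
    _ ≤ (((A.card : ℝ) ^ k * X) ^ (k + 1)) ^ 2 := by gcongr
    _ = (A.card : ℝ) ^ (2 * k * (k + 1)) * (X ^ (k + 1)) ^ 2 := by ring
    _ ≤ (A.card : ℝ) ^ (2 * k * (k + 1)) * (((B.card : ℝ) ^ (k + 1)) ^ k * Y) ^ 2 := by gcongr
    _ = (A.card : ℝ) ^ (2 * k * (k + 1)) * (B.card : ℝ) ^ (2 * k * (k + 1)) * Y ^ 2 := by ring
    _ ≤ _ := by
        refine mul_le_mul_of_nonneg_left (t2.trans (le_of_eq (by ring))) (by positivity)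

lemma frac_mem {k : ℕ} (p q : Fin k → ℕ) (hp : ∀ i, (p i).Prime) (hq : ∀ i, (q i).Prime ∧ k < q i)
    (h : ∑ i, (1 : ℚ) / p i = ∑ i, (1 : ℚ) / q i) (j : Fin k) : ∃ i, p i = q j := by
  by_contra hc
  push Not at hc
  set l := q j with hl
  have hlp := (hq j).1
  set I := univ.filter (fun i => q i = l) with hI
  set I' := univ.filter (fun i => ¬ q i = l) with hI'
  set D := (∏ i, p i) * ∏ i ∈ I', q i with hD
  have h1 : ∑ i, (1 : ℚ) / q i = I.card / l + ∑ i ∈ I', (1 : ℚ) / q i := by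
    rw [← sum_filter_add_sum_filter_not univ (fun i => q i = l)]
    congr 1
    rw [sum_congr rfl (g := fun _ => (1 : ℚ) / l) (fun i hi => by rw [(mem_filter.1 hi).2]),
      sum_const, nsmul_eq_mul, mul_one_div]
  have h2 : ∀ d : ℕ, d ∣ D → d ≠ 0 → ((D / d : ℕ) : ℚ) = D * (1 / d) := by
    intro d hd hd0
    rw [Nat.cast_div hd (by exact_mod_cast hd0), mul_one_div]
  have h3 : (l : ℚ) * ((∑ i, D / p i : ℕ) : ℚ)
      = (I.card * D : ℕ) + l * ((∑ i ∈ I', D / q i : ℕ) : ℚ) := by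
    have hl0 : (l : ℚ) ≠ 0 := by exact_mod_cast hlp.ne_zero
    rw [Nat.cast_sum, Nat.cast_sum,
      sum_congr rfl (fun i _ => h2 (p i) ((dvd_prod_of_mem p (mem_univ i)).mul_right _)
        (hp i).ne_zero),
      sum_congr rfl (fun i hi => h2 (q i) ((dvd_prod_of_mem q hi).mul_left _) (hq i).1.ne_zero),
      ← mul_sum, ← mul_sum, h, h1]
    push_cast
    field_simp
  have h4 : l * (∑ i, D / p i) = I.card * D + l * ∑ i ∈ I', D / q i := by exact_mod_cast h3
  have h5 : l ∣ I.card * D :=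
    (Nat.dvd_add_left (dvd_mul_right _ _)).1 (h4 ▸ dvd_mul_right _ _)
  rcases (Nat.Prime.dvd_mul hlp).1 h5 with h6 | h6
  · have a1 : 0 < I.card := card_pos.2 ⟨j, mem_filter.2 ⟨mem_univ _, rfl⟩⟩
    have a2 : I.card ≤ k := (card_filter_le _ _).trans (by simp)
    have := Nat.le_of_dvd a1 h6
    have := (hq j).2
    omega
  · rcases (Nat.Prime.dvd_mul hlp).1 h6 with h7 | h7
    · obtain ⟨i, -, hi⟩ := (Prime.dvd_finsetProd_iff hlp.prime _).1 h7
      exact hc i ((Nat.prime_dvd_prime_iff_eq hlp (hp i)).1 hi).symm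
    · obtain ⟨i, hi1, hi⟩ := (Prime.dvd_finsetProd_iff hlp.prime _).1 h7
      exact (mem_filter.1 hi1).2 ((Nat.prime_dvd_prime_iff_eq hlp (hq i).1).1 hi).symm

lemma J_le (k P : ℕ) (A : Finset ℕ)
    (hA : ∀ p ∈ A, p.Prime ∧ k + 1 < p ∧ p ≤ P ∧ p.Coprime n) (m : ℤ) (hm : m ≠ 0)
    (hmn : |m| * ((k + 1) * P ^ (2 * k + 1)) < n) :
    J (tup (k + 1) A) (fun s => ∑ i, (m : ZMod n) * ((s i : ZMod n))⁻¹)
      ≤ A.card ^ (k + 1) * (k + 1) ^ (k + 1) := by
  unfold J
  rw [← card_tup]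
  refine card_le_mul_card_image_of_maps_to (f := Prod.fst) (fun x hx => ?_) _ (fun s hs => ?_) |>.trans
    (le_of_eq (mul_comm _ _))
  · exact (mem_product.1 (mem_filter.1 hx).1).1
  · calc _ ≤ (tup (k + 1) (univ.image s)).card := by
          apply card_le_card_of_injOn Prod.snd
          · intro x hx
            obtain ⟨hx1, hx2⟩ := mem_filter.1 (mem_coe.1 hx)
            obtain ⟨hx3, hx4⟩ := mem_filter.1 hx1
            obtain ⟨p, q⟩ := x
            simp only at hx2 hx4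
            subst hx2
            have hp : ∀ i, p i ∈ A := Fintype.mem_piFinset.1 hs
            have hq : ∀ i, q i ∈ A := Fintype.mem_piFinset.1 (mem_product.1 hx3).2
            set D := (∏ i, p i) * ∏ i, q i with hD
            have hdp : ∀ i, p i ∣ D := fun i => (dvd_prod_of_mem p (mem_univ i)).mul_right _
            have hdq : ∀ i, q i ∣ D := fun i => (dvd_prod_of_mem q (mem_univ i)).mul_left _
            have c1 : ∀ d ∈ A, d ∣ D → ((D / d : ℕ) : ZMod n) = D * (d : ZMod n)⁻¹ := by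
              intro d hd hdD
              have := ZMod.coe_mul_inv_eq_one d (hA d hd).2.2.2
              conv_rhs => rw [← Nat.div_mul_cancel hdD]
              rw [Nat.cast_mul, mul_assoc, this, mul_one]
            have hb : ∀ f : Fin (k + 1) → ℕ, (∀ i, f i ∈ A) → ∀ i,
                (∏ j, f j) ≤ P ^ (k + 1) ∧ (∏ j, f j) / f i ≤ P ^ k := by
              intro f hf i
              constructor
              · simpa using prod_le_pow_card univ f P (fun j _ => (hA _ (hf j)).2.2.1)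
              · rw [← mul_prod_erase univ f (mem_univ i),
                  Nat.mul_div_cancel_left _ (hA _ (hf i)).1.pos]
                simpa using prod_le_pow_card (univ.erase i) f P (fun j _ => (hA _ (hf j)).2.2.1)
            have b1 : ∑ i, D / p i ≤ (k + 1) * P ^ (2 * k + 1) := by
              have := sum_le_card_nsmul univ (fun i => D / p i) (P ^ (2 * k + 1)) (fun i _ => by
                rw [hD, mul_comm, Nat.mul_div_assoc _ (dvd_prod_of_mem p (mem_univ i)),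
                  show 2 * k + 1 = (k + 1) + k by ring, pow_add]
                exact Nat.mul_le_mul (hb q hq i).1 (hb p hp i).2)
              simpa using this
            have b2 : ∑ i, D / q i ≤ (k + 1) * P ^ (2 * k + 1) := by
              have := sum_le_card_nsmul univ (fun i => D / q i) (P ^ (2 * k + 1)) (fun i _ => by
                rw [hD, Nat.mul_div_assoc _ (dvd_prod_of_mem q (mem_univ i)),
                  show 2 * k + 1 = (k + 1) + k by ring, pow_add]
                exact Nat.mul_le_mul (hb p hp i).1 (hb q hq i).2)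
              simpa using this
            set Z : ℤ := ((∑ i, D / p i : ℕ) : ℤ) - ((∑ i, D / q i : ℕ) : ℤ) with hZ
            have c2 : ((m * Z : ℤ) : ZMod n) = 0 := by
              rw [hZ, Int.cast_mul, Int.cast_sub, Int.cast_natCast, Int.cast_natCast, Nat.cast_sum,
                Nat.cast_sum, sum_congr rfl (fun i _ => c1 _ (hp i) (hdp i)),
                sum_congr rfl (fun i _ => c1 _ (hq i) (hdq i)), ← mul_sum, ← mul_sum]
              rw [← mul_sum, ← mul_sum] at hx4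
              linear_combination (D : ZMod n) * hx4
            have c3 : (n : ℤ) ∣ m * Z := (ZMod.intCast_zmod_eq_zero_iff_dvd _ _).1 c2
            have c4 : |Z| ≤ (k + 1) * P ^ (2 * k + 1) := by
              have b1' : ((∑ i, D / p i : ℕ) : ℤ) ≤ (k + 1) * P ^ (2 * k + 1) := by exact_mod_cast b1
              have b2' : ((∑ i, D / q i : ℕ) : ℤ) ≤ (k + 1) * P ^ (2 * k + 1) := by exact_mod_cast b2
              have b3 : (0 : ℤ) ≤ ((∑ i, D / p i : ℕ) : ℤ) := by positivity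
              have b4 : (0 : ℤ) ≤ ((∑ i, D / q i : ℕ) : ℤ) := by positivity
              rw [abs_le]; constructor <;> linarith
            have c5 : m * Z = 0 := by
              apply Int.eq_zero_of_abs_lt_dvd c3
              rw [abs_mul]
              exact lt_of_le_of_lt (mul_le_mul_of_nonneg_left c4 (abs_nonneg _)) hmn
            have c6 : (∑ i, D / p i) = ∑ i, D / q i := by
              have := (mul_eq_zero.1 c5).resolve_left hm
              omega
            have hD0 : (D : ℚ) ≠ 0 := by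
              have : 0 < D := Nat.mul_pos (prod_pos (fun i _ => (hA _ (hp i)).1.pos))
                (prod_pos (fun i _ => (hA _ (hq i)).1.pos))
              positivity
            have c7 : ∑ i, (1 : ℚ) / p i = ∑ i, (1 : ℚ) / q i := by
              have h2 : ∀ d ∈ A, d ∣ D → ((D / d : ℕ) : ℚ) = D * (1 / d) := by
                intro d hd hdD
                rw [Nat.cast_div hdD (by exact_mod_cast (hA d hd).1.ne_zero), mul_one_div]
              have := congrArg (Nat.cast : ℕ → ℚ) c6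
              rw [Nat.cast_sum, Nat.cast_sum, sum_congr rfl (fun i _ => h2 _ (hp i) (hdp i)),
                sum_congr rfl (fun i _ => h2 _ (hq i) (hdq i)), ← mul_sum, ← mul_sum] at this
              exact mul_left_cancel₀ hD0 this
            refine mem_coe.2 (Fintype.mem_piFinset.2 (fun j => ?_))
            obtain ⟨i, hi⟩ := frac_mem p q (fun i => (hA _ (hp i)).1)
              (fun i => ⟨(hA _ (hq i)).1, (hA _ (hq i)).2.1⟩) c7 j
            exact mem_image.2 ⟨i, mem_univ _, hi⟩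
          · intro x hx y hy h
            have h1 := (mem_filter.1 (mem_coe.1 hx)).2
            have h2 := (mem_filter.1 (mem_coe.1 hy)).2
            exact Prod.ext (h1.trans h2.symm) h
      _ ≤ _ := by
          rw [card_tup]
          exact Nat.pow_le_pow_left (card_image_le.trans (by simp)) _

lemma geo (Y : ℕ) (m : ℤ) (hm : m ≠ 0) (hmn : |m| * 2 ≤ n) :
    ‖∑ i ∈ range Y, ch (((i + 1 : ℕ) : ZMod n) * (m : ZMod n))‖ ≤ n / (2 * |(m : ℝ)|) := by
  have hn : (0 : ℝ) < n := by exact_mod_cast Nat.pos_of_ne_zero (NeZero.ne n)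
  have hm' : (0 : ℝ) < |(m : ℝ)| := abs_pos.2 (by exact_mod_cast hm)
  set z := ch (m : ZMod n) with hz
  have e1 : ∀ i : ℕ, ch ((i : ZMod n) * (m : ZMod n)) = z ^ i := by
    intro i
    rw [← nsmul_eq_mul, AddChar.map_nsmul_eq_pow]
  have e2 : (∑ i ∈ range Y, ch (((i + 1 : ℕ) : ZMod n) * (m : ZMod n))) * (z - 1)
      = z ^ (Y + 1) - z := by
    simp only [e1, pow_succ]
    rw [← sum_mul, mul_right_comm, geom_sum_mul]; ring
  have h1 : ‖z ^ (Y + 1) - z‖ ≤ 2 := by
    refine (norm_sub_le _ _).trans ?_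
    rw [norm_pow, hz, ch_norm]; norm_num
  have h2 : 4 * |(m : ℝ)| / n ≤ ‖z - 1‖ := by
    have e3 : z = Complex.exp (Complex.I * ((2 * Real.pi * m / n : ℝ) : ℂ)) := by
      rw [hz, ZMod.stdAddChar_coe]; congr 1; push_cast; ring
    have hmn' : |(m : ℝ)| * 2 ≤ n := by exact_mod_cast hmn
    have e4 : |2 * Real.pi * m / n / 2| = Real.pi * (|(m : ℝ)| / n) := by
      rw [show 2 * Real.pi * m / n / 2 = Real.pi * (m / n) by ring, abs_mul,
        abs_of_pos Real.pi_pos, abs_div, abs_of_pos hn]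
    have h3 := Real.mul_abs_le_abs_sin (x := 2 * Real.pi * m / n / 2) (by
      rw [e4]
      have : |(m : ℝ)| / n ≤ 1 / 2 := by rw [div_le_iff₀ hn]; linarith
      nlinarith [Real.pi_pos])
    rw [e3, Complex.norm_exp_I_mul_ofReal_sub_one, norm_mul, Real.norm_eq_abs, Real.norm_eq_abs]
    rw [e4] at h3
    have e5 : 2 / Real.pi * (Real.pi * (|(m : ℝ)| / n)) = 2 * |(m : ℝ)| / n := by
      field_simp
    rw [e5] at h3
    have : 4 * |(m : ℝ)| / n = 2 * (2 * |(m : ℝ)| / n) := by ring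
    rw [this, abs_two]
    linarith
  rw [← e2, norm_mul] at h1
  rw [le_div_iff₀ (by positivity)]
  rw [div_le_iff₀ hn] at h2
  nlinarith [norm_nonneg (∑ i ∈ range Y, ch (((i + 1 : ℕ) : ZMod n) * (m : ZMod n)))]

end Pool.Agent.H18.Kara
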