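import Pool.Agent.H18.Kara

set_option autoImplicit false

namespace Pool.Agent.H18.Kara

open Finset

variable {n : ℕ} [NeZero n]

theorem count (A : Finset ℕ) (hA0 : A.Nonempty) (hA : ∀ p ∈ A, p.Coprime n) (H Y r : ℕ)
    (hH : 0 < H) (hY : 0 < Y) (η : ℝ) (hη0 : 0 ≤ η)
    (hη : ∀ m : ℤ, m ≠ 0 → |m| ≤ H →
      ‖∑ p ∈ A, ∑ q ∈ A, ch (((m : ZMod n) * (p : ZMod n)⁻¹) * (((1 : ℤ) : ZMod n) * (q : ZMod n)⁻¹))‖
        ≤ η * (A.card : ℝ) ^ 2)
    (hs : (2 * H + 1) * η + n * (n / (2 * H * Y)) ^ r < (1 : ℝ)) :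
    ∃ p ∈ A, ∃ q ∈ A, ∃ y : ℕ, r ≤ y ∧ y ≤ r * Y ∧ n ∣ p * q * y + 1 := by
  by_contra hc
  push Not at hc
  set S : ZMod n → ℂ := fun h => ∑ p ∈ A, ∑ q ∈ A, ch ((h * (p : ZMod n)⁻¹) * (((1 : ℤ) : ZMod n) * (q : ZMod n)⁻¹))
    with hS
  set G : ZMod n → ℂ := fun h => ∑ i ∈ range Y, ch (((i + 1 : ℕ) : ZMod n) * h) with hG
  have e0 : ∑ h : ZMod n, S h * G h ^ r = 0 := by
    have e1 : ∀ h, S h * G h ^ r = ∑ p ∈ A, ∑ q ∈ A, ∑ s ∈ tup r (range Y),
        ch (h * ((p : ZMod n)⁻¹ * (q : ZMod n)⁻¹ + ∑ i, ((s i + 1 : ℕ) : ZMod n))) := by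
      intro h
      have := pow_ch r (range Y) (fun _ => 1) (fun i => ((i + 1 : ℕ) : ZMod n)) h
      simp only [one_mul, prod_const_one] at this
      simp only [hS, hG]
      rw [this, sum_mul]
      refine sum_congr rfl (fun p _ => ?_)
      rw [sum_mul]
      refine sum_congr rfl (fun q _ => ?_)
      rw [mul_sum]
      refine sum_congr rfl (fun s _ => ?_)
      rw [← AddChar.map_add_eq_mul]
      congr 1
      push_cast
      ring
    rw [sum_congr rfl (fun h _ => e1 h), sum_comm]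
    refine sum_eq_zero (fun p hp => ?_)
    rw [sum_comm]
    refine sum_eq_zero (fun q hq => ?_)
    rw [sum_comm]
    refine sum_eq_zero (fun s hs => ?_)
    rw [ch_orth, if_neg]
    intro h0
    have hs' : ∀ i, s i < Y := fun i => mem_range.1 (Fintype.mem_piFinset.1 hs i)
    refine hc p hp q hq (∑ i, (s i + 1)) ?_ ?_ ?_
    · simpa using card_nsmul_le_sum univ (fun i => s i + 1) 1 (fun i _ => by omega)
    · simpa using sum_le_card_nsmul univ (fun i => s i + 1) Y (fun i _ => hs' i)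
    · rw [← ZMod.natCast_eq_zero_iff]
      have a1 := ZMod.coe_mul_inv_eq_one p (hA p hp)
      have a2 := ZMod.coe_mul_inv_eq_one q (hA q hq)
      rw [← Nat.cast_sum] at h0
      rw [Nat.cast_add, Nat.cast_mul, Nat.cast_mul, Nat.cast_one]
      linear_combination (p * q : ZMod n) * h0 - (q * (q : ZMod n)⁻¹) * a1 - a2
  set N : ℝ := (A.card : ℝ) with hN
  have hN0 : 0 < N := by rw [hN]; exact_mod_cast hA0.card_pos
  have hY' : (0 : ℝ) < Y := by exact_mod_cast hY
  have hH' : (0 : ℝ) < H := by exact_mod_cast hH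
  have bS : ∀ h, ‖S h‖ ≤ N ^ 2 := by
    intro h
    refine (norm_sum_le _ _).trans ((sum_le_card_nsmul _ _ N (fun p _ => ?_)).trans ?_)
    · refine (norm_sum_le _ _).trans ?_
      simp [hN]
    · rw [nsmul_eq_mul, sq]
  have bG : ∀ h, ‖G h‖ ≤ Y := by
    intro h
    refine (norm_sum_le _ _).trans ?_
    simp
  have z0 : S 0 * G 0 ^ r = ((N ^ 2 * Y ^ r : ℝ) : ℂ) := by
    simp [hS, hG, hN, sq]
  rw [← add_sum_erase _ _ (mem_univ (0 : ZMod n)), z0] at e0
  have e2 : N ^ 2 * Y ^ r ≤ ∑ h ∈ univ.erase (0 : ZMod n), ‖S h * G h ^ r‖ := by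
    have := congrArg norm (eq_neg_of_add_eq_zero_left e0)
    rw [norm_neg, Complex.norm_real, Real.norm_eq_abs] at this
    exact (le_abs_self _).trans (this.le.trans (norm_sum_le _ _))
  have e3 : ∀ h ∈ univ.erase (0 : ZMod n), ‖S h * G h ^ r‖
      ≤ (if |h.valMinAbs| ≤ H then η * N ^ 2 * Y ^ r else 0) + N ^ 2 * (n / (2 * H)) ^ r := by
    intro h hh
    have h0 : h.valMinAbs ≠ 0 := by simpa using (mem_erase.1 hh).1
    rw [norm_mul, norm_pow]
    split_ifs with h1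
    · have := hη _ h0 h1
      rw [ZMod.coe_valMinAbs] at this
      refine le_add_of_le_of_nonneg ?_ (by positivity)
      exact mul_le_mul this (pow_le_pow_left₀ (norm_nonneg _) (bG h) _) (by positivity)
        (by positivity)
    · have h2 : |h.valMinAbs| * 2 ≤ n := by
        have := ZMod.natAbs_valMinAbs_le h
        rw [Int.abs_eq_natAbs]
        omega
      have h3 := geo (n := n) Y _ h0 h2
      rw [ZMod.coe_valMinAbs] at h3
      have h4 : (H : ℝ) ≤ |(h.valMinAbs : ℝ)| := by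
        have : (H : ℤ) ≤ |h.valMinAbs| := by omega
        exact_mod_cast this
      rw [zero_add]
      refine mul_le_mul (bS h) (pow_le_pow_left₀ (norm_nonneg _) (h3.trans ?_) _) (by positivity)
        (by positivity)
      gcongr
  have e4 : ((univ.erase (0 : ZMod n)).filter (fun h : ZMod n => |h.valMinAbs| ≤ (H : ℤ))).card ≤ 2 * H + 1 := by
    refine (card_le_card_of_injOn (t := Icc (-(H : ℤ)) H) ZMod.valMinAbs (fun h hh => ?_)
      (fun a _ b _ hab => ZMod.injective_valMinAbs hab)).trans ?_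
    · exact mem_coe.2 (mem_Icc.2 (abs_le.1 (mem_filter.1 (mem_coe.1 hh)).2))
    · rw [Int.card_Icc]; omega
  have e5 : ((univ.erase (0 : ZMod n)).card : ℝ) ≤ n := by
    have : (univ.erase (0 : ZMod n)).card ≤ n := card_erase_le.trans (by simp)
    exact_mod_cast this
  have e6 := e2.trans (sum_le_sum e3)
  rw [sum_add_distrib, ← sum_filter, sum_const, sum_const, nsmul_eq_mul, nsmul_eq_mul] at e6
  have e4' : (((univ.erase (0 : ZMod n)).filter (fun h : ZMod n => |h.valMinAbs| ≤ (H : ℤ))).card : ℝ)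
      ≤ 2 * H + 1 := by exact_mod_cast e4
  have e7 : N ^ 2 * Y ^ r ≤ (2 * H + 1) * (η * N ^ 2 * Y ^ r) + n * (N ^ 2 * (n / (2 * H)) ^ r) := by
    refine e6.trans ?_
    gcongr
  have e8 : ((n : ℝ) / (2 * H)) ^ r = (n / (2 * H * Y)) ^ r * Y ^ r := by
    rw [← mul_pow]; congr 1; field_simp
  rw [e8] at e7
  have : 0 < N ^ 2 * Y ^ r := by positivity
  nlinarith

lemma primes_many (κ b e W n : ℕ) (hb : 4 ≤ b) (hW1 : 4 * b ≤ W) (hW2 : e + κ + 3 ≤ W)
    (hn0 : 0 < n) (hn : n < (2 * W) ^ e) :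
    W ^ b ≤ W ^ 2 * ((range (W ^ b + 1)).filter (fun p => p.Prime ∧ κ < p ∧ ¬ p ∣ n)).card := by
  set P := W ^ b with hP
  set N := ((range (P + 1)).filter (fun p => p.Prime ∧ κ < p ∧ ¬ p ∣ n)).card with hN
  have hW0 : 16 ≤ W := by omega
  have h1 : Nat.primeCounting P ≤ N + (κ + 1) + n.primeFactors.card := by
    rw [Nat.primeCounting, Nat.primeCounting', Nat.count_eq_card_filter_range]
    calc _ ≤ (((range (P + 1)).filter (fun p => p.Prime ∧ κ < p ∧ ¬ p ∣ n) ∪ range (κ + 1))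
            ∪ n.primeFactors).card := by
          refine card_le_card (fun p hp => ?_)
          obtain ⟨a1, a2⟩ := mem_filter.1 hp
          simp only [mem_union, mem_filter, Nat.mem_primeFactors]
          by_cases c1 : κ < p
          · by_cases c2 : p ∣ n
            · exact Or.inr ⟨a2, c2, hn0.ne'⟩
            · exact Or.inl (Or.inl ⟨a1, a2, c1, c2⟩)
          · exact Or.inl (Or.inr (mem_range.2 (by omega)))
      _ ≤ _ := by
          refine (card_union_le _ _).trans (Nat.add_le_add_right ((card_union_le _ _).trans ?_) _)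
          rw [card_range]
  have h2 : n.primeFactors.card ≤ e * W := by
    have a1 : 2 ^ n.primeFactors.card ≤ n :=
      (pow_card_le_prod _ _ _ (fun p hp => (Nat.prime_of_mem_primeFactors hp).two_le)).trans
        (Nat.le_of_dvd hn0 (Nat.prod_primeFactors_dvd n))
    have a2 : 2 * W ≤ 2 ^ W := by
      obtain ⟨V, rfl⟩ : ∃ V, W = V + 1 := ⟨W - 1, by omega⟩
      rw [pow_succ, mul_comm]
      exact Nat.mul_le_mul_right _ Nat.lt_two_pow_self
    have a3 : n < 2 ^ (e * W) := by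
      rw [mul_comm, pow_mul]
      exact hn.trans_le (Nat.pow_le_pow_left a2 _)
    exact ((Nat.pow_lt_pow_iff_right (by norm_num)).1 (a1.trans_lt a3)).le
  have hW' : (16 : ℝ) ≤ W := by exact_mod_cast hW0
  have hP4 : W ^ 4 ≤ P := Nat.pow_le_pow_right (by omega) hb
  have hP4' : (W : ℝ) ^ 4 ≤ P := by exact_mod_cast hP4
  have hP2 : (2 : ℝ) ≤ P := by nlinarith [pow_le_pow_left₀ (by norm_num) hW' 4]
  have h3 := (Chebyshev.psi_ge P).trans (Chebyshev.psi_le_primeCounting_mul_log P)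
  have h4 : Real.log ((P : ℝ) + 1) ≤ 2 * Real.log P := by
    have : Real.log ((P : ℝ) ^ 2) = 2 * Real.log P := by rw [Real.log_pow]; norm_num
    rw [← this]
    exact Real.log_le_log (by positivity) (by nlinarith)
  have h5 : Real.log P ≤ b * W := by
    rw [hP, Nat.cast_pow, Real.log_pow]
    exact mul_le_mul_of_nonneg_left ((Real.log_le_sub_one_of_pos (by positivity)).trans
      (by linarith)) (by positivity)
  have h6 : (P : ℝ) / 2 ≤ (Nat.primeCounting P + 2) * (b * W) := by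
    have := Real.log_two_gt_d9
    have a0 : 0 ≤ Real.log P := Real.log_nonneg (by linarith)
    calc (P : ℝ) / 2 ≤ P * Real.log 2 := by nlinarith
      _ ≤ (Nat.primeCounting P + 2) * Real.log P := by linarith
      _ ≤ _ := by gcongr
  have h1' : (Nat.primeCounting P : ℝ) + 2 ≤ N + W ^ 2 := by
    have : Nat.primeCounting P + 2 ≤ N + W ^ 2 := by nlinarith
    exact_mod_cast this
  have h7 : (4 * b : ℝ) ≤ W := by exact_mod_cast hW1
  have h8 : (P : ℝ) / 2 ≤ (N + W ^ 2) * (W ^ 2 / 4) := by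
    refine h6.trans (mul_le_mul h1' (by nlinarith) (by positivity) (by positivity))
  have : (P : ℝ) ≤ W ^ 2 * N := by nlinarith
  exact_mod_cast this

theorem core (k W n : ℕ) (hW : 2 ^ ((4 * k + 3) * (11 * (k + 1) ^ 2)) * (k + 1) ^ (2 * (k + 1))
      + 88 * (k + 1) ^ 2 + (4 * k + 3) * (11 * (k + 1) ^ 2) + k + 8 ≤ W)
    (h1 : W ^ ((4 * k + 3) * (11 * (k + 1) ^ 2)) ≤ n)
    (h2 : n < (2 * W) ^ ((4 * k + 3) * (11 * (k + 1) ^ 2))) :
    ∃ x y : ℕ, 1 ≤ x ∧ x ≤ W ^ (4 * (11 * (k + 1) ^ 2)) ∧ 1 ≤ y ∧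
      y ≤ ((4 * k + 3) * (11 * (k + 1) ^ 2) + 1) * (n / W + 1) ∧ n ∣ x * y + 1 := by
  set a := 11 * (k + 1) ^ 2 with ha
  set e := (4 * k + 3) * a with he
  set C := 2 ^ e * (k + 1) ^ (2 * (k + 1)) with hC
  have hk1 : 1 ≤ (k + 1) ^ 2 := Nat.one_le_pow _ _ (by omega)
  have hW8 : 8 ≤ W := by omega
  have hn0 : 0 < n := lt_of_lt_of_le (by positivity) h1
  haveI : NeZero n := ⟨hn0.ne'⟩
  have hN := primes_many (k + 1) (2 * a) e W n (by omega) (by omega) (by omega) hn0 h2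
  set P := W ^ (2 * a) with hP
  set A := (range (P + 1)).filter (fun p => p.Prime ∧ k + 1 < p ∧ ¬ p ∣ n) with hA
  have hAp : ∀ p ∈ A, p.Prime ∧ k + 1 < p ∧ p ≤ P ∧ p.Coprime n := by
    intro p hp
    obtain ⟨a1, a2, a3, a4⟩ := mem_filter.1 hp
    exact ⟨a2, a3, Nat.lt_succ_iff.1 (mem_range.1 a1), (Nat.Prime.coprime_iff_not_dvd a2).2 a4⟩
  have hA0 : 0 < A.card := by
    rcases Nat.eq_zero_or_pos A.card with h | h
    · rw [h] at hN
      have : 0 < P := by positivity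
      omega
    · exact h
  have hW' : (8 : ℝ) ≤ W := by exact_mod_cast hW8
  have hJ : ∀ m : ℤ, m ≠ 0 → |m| ≤ (W ^ 2 : ℕ) →
      (J (tup (k + 1) A) (fun s => ∑ i, (m : ZMod n) * ((s i : ZMod n))⁻¹) : ℝ)
      ≤ (A.card : ℝ) ^ (k + 1) * (k + 1) ^ (k + 1) := by
    intro m hm hm2
    have b1 : W ^ 2 * ((k + 1) * P ^ (2 * k + 1)) < n := by
      refine lt_of_lt_of_le ?_ h1
      have : W ^ 2 * (k + 1) < W ^ a :=
        calc W ^ 2 * (k + 1) < W ^ 2 * W := by
              apply Nat.mul_lt_mul_of_pos_left (by omega) (by positivity)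
          _ = W ^ 3 := by ring
          _ ≤ W ^ a := Nat.pow_le_pow_right (by omega) (by omega)
      calc W ^ 2 * ((k + 1) * P ^ (2 * k + 1)) = W ^ 2 * (k + 1) * P ^ (2 * k + 1) := by ring
        _ < W ^ a * P ^ (2 * k + 1) := Nat.mul_lt_mul_of_pos_right this (by positivity)
        _ = W ^ e := by rw [hP, he, ← pow_mul, ← pow_add]; congr 1; ring
    have b2 : ((W ^ 2 : ℕ) : ℤ) * ((k + 1) * (P : ℤ) ^ (2 * k + 1)) < n := by exact_mod_cast b1
    have := J_le (n := n) k P A hAp m hm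
      (lt_of_le_of_lt (mul_le_mul_of_nonneg_right hm2 (by positivity)) b2)
    exact_mod_cast this
  obtain ⟨p, hp, q, hq, y, y1, y2, y3⟩ := count (n := n) A (card_pos.1 hA0)
    (fun p hp => (hAp p hp).2.2.2) (W ^ 2) (n / W + 1) (e + 1) (by positivity) (by positivity)
    (1 / (W : ℝ) ^ 3) (by positivity) (fun m hm hm2 => by
      set N : ℝ := (A.card : ℝ) with hNd
      have hN0 : 0 < N := by rw [hNd]; exact_mod_cast hA0
      have b := bilin k A A (fun p => (m : ZMod n) * (p : ZMod n)⁻¹)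
        (fun q => ((1 : ℤ) : ZMod n) * (q : ZMod n)⁻¹)
      have j1 := hJ m hm hm2
      have j2 := hJ 1 one_ne_zero (by
        have : 1 ≤ W ^ 2 := Nat.one_le_pow _ _ (by omega)
        exact_mod_cast this)
      refine le_of_pow_le_pow_left₀ (n := 2 * (k + 1) * (k + 1)) (by positivity) (by positivity)
        (b.trans ?_)
      have key : (n : ℝ) * (k + 1) ^ (2 * (k + 1)) * W ^ (6 * (k + 1) ^ 2) ≤ N ^ (2 * (k + 1)) := by
        have c1 : n * (k + 1) ^ (2 * (k + 1)) * W ^ (6 * (k + 1) ^ 2) * W ^ (4 * (k + 1))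
            ≤ A.card ^ (2 * (k + 1)) * W ^ (4 * (k + 1)) :=
          calc _ ≤ (2 * W) ^ e * (k + 1) ^ (2 * (k + 1)) * W ^ (6 * (k + 1) ^ 2)
                * W ^ (4 * (k + 1)) := by gcongr
            _ = C * W ^ (e + 6 * (k + 1) ^ 2 + 4 * (k + 1)) := by rw [hC]; ring
            _ ≤ W * W ^ (e + 6 * (k + 1) ^ 2 + 4 * (k + 1)) := by gcongr; omega
            _ = W ^ (e + 6 * (k + 1) ^ 2 + 4 * (k + 1) + 1) := by ring
            _ ≤ W ^ (2 * a * (2 * (k + 1))) := by
                refine Nat.pow_le_pow_right (by omega) ?_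
                have : 2 * a * (2 * (k + 1)) = e + a := by rw [he]; ring
                nlinarith
            _ = P ^ (2 * (k + 1)) := by rw [hP, ← pow_mul]
            _ ≤ (W ^ 2 * A.card) ^ (2 * (k + 1)) := by gcongr
            _ = _ := by ring
        have c2 := Nat.le_of_mul_le_mul_right c1 (by positivity)
        rw [hNd]
        exact_mod_cast c2
      calc _ ≤ N ^ (2 * k * (k + 1)) * N ^ (2 * k * (k + 1)) *
            (n * (N ^ (k + 1) * (k + 1) ^ (k + 1)) * (N ^ (k + 1) * (k + 1) ^ (k + 1))) := by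
            gcongr
        _ = N ^ ((4 * k + 2) * (k + 1)) * (n * (k + 1) ^ (2 * (k + 1)) * W ^ (6 * (k + 1) ^ 2))
            / W ^ (6 * (k + 1) ^ 2) := by
            field_simp
            ring
        _ ≤ N ^ ((4 * k + 2) * (k + 1)) * N ^ (2 * (k + 1)) / W ^ (6 * (k + 1) ^ 2) := by gcongr
        _ = _ := by
            rw [mul_pow, div_pow, one_pow, ← pow_mul, ← pow_mul, ← pow_add]
            field_simp
            ring) (by
      have c1 : (n : ℝ) / (2 * (W ^ 2 : ℕ) * (n / W + 1 : ℕ)) ≤ 1 / (2 * W) := by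
        have : n ≤ W * (n / W + 1) := (Nat.lt_mul_div_succ n (by omega)).le
        have this' : (n : ℝ) ≤ W * (n / W + 1 : ℕ) := by exact_mod_cast this
        rw [div_le_div_iff₀ (by positivity) (by positivity), Nat.cast_pow]
        nlinarith
      have c2 : (n : ℝ) ≤ (2 * W) ^ e := by exact_mod_cast h2.le
      have c3 : (n : ℝ) * ((n : ℝ) / (2 * (W ^ 2 : ℕ) * (n / W + 1 : ℕ))) ^ (e + 1)
          ≤ (2 * W) ^ e * (1 / (2 * W)) ^ (e + 1) := by gcongr
      have c4 : ((2 : ℝ) * W) ^ e * (1 / (2 * W)) ^ (e + 1) = 1 / (2 * W) := by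
        rw [pow_succ, ← mul_assoc, ← mul_pow]
        field_simp
        simp
      have c5 : (2 * ((W ^ 2 : ℕ) : ℝ) + 1) * (1 / (W : ℝ) ^ 3) ≤ 3 / W := by
        rw [Nat.cast_pow, mul_one_div, div_le_div_iff₀ (by positivity) (by positivity)]
        nlinarith [pow_le_pow_left₀ (by norm_num) hW' 2]
      have c6 : (3 : ℝ) / W ≤ 3 / 8 := by gcongr
      have c7 : (1 : ℝ) / (2 * W) ≤ 1 / (2 * 8) := by gcongr
      linarith)
  refine ⟨p * q, y, Nat.mul_pos (hAp p hp).1.pos (hAp q hq).1.pos, ?_, by omega, y2, y3⟩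
  calc p * q ≤ P * P := Nat.mul_le_mul (hAp p hp).2.2.1 (hAp q hq).2.2.1
    _ = _ := by rw [hP]; ring

end Pool.Agent.H18.Kara
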