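import Mathlib

set_option autoImplicit false

namespace Pool.Agent.H18.Kov

abbrev F := ZMod 3
abbrev M := ℤ →₀ F

open Classical in
noncomputable def c (x : ℤ) : F := if ∃ i : ℕ, x = (i.factorial : ℤ) + i then 1 else 0

def sg (a : ℤ) : ℤ := if Even a then 1 else -1

lemma sg_add (a b : ℤ) : sg (a + b) = sg a * sg b := by
  unfold sg
  by_cases ha : Even a <;> by_cases hb : Even b <;> simp [ha, hb, Int.even_add]

lemma sg_neg (a : ℤ) : sg (-a) = sg a := by
  unfold sg; simp

lemma sg_zero : sg 0 = 1 := by unfold sg; simp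

lemma sg_cases (a : ℤ) : sg a = 1 ∨ sg a = -1 := by
  unfold sg; split_ifs <;> simp

lemma sg_ne (a : ℤ) : (sg a : F) ≠ 0 := by
  rcases sg_cases a with h | h <;> rw [h] <;> decide

def io (x : F) : ZMod 9 := 3 * (x.val : ZMod 9)
def pr (u : ZMod 9) : F := (u.val : F)

lemma io_add : ∀ x y : F, io (x + y) = io x + io y := by decide
lemma io_neg : ∀ x : F, io (-x) = - io x := by decide
lemma io_zero : io 0 = 0 := by decide
lemma io_three : ∀ x : F, 3 * io x = 0 := by decide
lemma pr_add : ∀ x y : ZMod 9, pr (x + y) = pr x + pr y := by decide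
lemma pr_neg : ∀ x : ZMod 9, pr (-x) = - pr x := by decide
lemma pr_io : ∀ x : F, pr (io x) = 0 := by decide
lemma pr_zero : pr 0 = 0 := by decide
lemma three_of_pr : ∀ x : ZMod 9, pr x = 0 → 3 * x = 0 := by decide
lemma io_cases : ∀ (w : F) (u : ZMod 9), w ≠ 0 → pr u ≠ 0 →
    io w = 3 * u ∨ io w = 3 * u + 3 * u := by decide

lemma io_sg (k : ℤ) (x : F) : io ((sg k : F) * x) = (sg k : ZMod 9) * io x := by
  rcases sg_cases k with h | h <;> rw [h] <;> simp [io_neg]

lemma pr_sg (k : ℤ) (x : ZMod 9) : pr ((sg k : ZMod 9) * x) = (sg k : F) * pr x := by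
  rcases sg_cases k with h | h <;> rw [h] <;> simp [pr_neg]

noncomputable def sh (k : ℤ) : M →ₗ[F] M := Finsupp.lmapDomain F F (fun a => a + k)

lemma sh_single (k a : ℤ) (x : F) : sh k (Finsupp.single a x) = Finsupp.single (a + k) x := by
  simp [sh, Finsupp.mapDomain_single]

lemma sh_zero (m : M) : sh 0 m = m := by
  induction m using Finsupp.induction_linear with
  | zero => simp
  | add f g hf hg => rw [map_add, hf, hg]
  | single a x => rw [sh_single, add_zero]

lemma sh_sh (k l : ℤ) (m : M) : sh k (sh l m) = sh (k + l) m := by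
  induction m using Finsupp.induction_linear with
  | zero => simp
  | add f g hf hg => rw [map_add, map_add, map_add, hf, hg]
  | single a x => rw [sh_single, sh_single, sh_single]; congr 1; ring

noncomputable def be : M →ₗ[F] M →ₗ[F] F :=
  Finsupp.linearCombination F (fun a : ℤ =>
    Finsupp.linearCombination F (fun b : ℤ => (sg a : F) * c (b - a)))

lemma be_single (a b : ℤ) (x y : F) :
    be (Finsupp.single a x) (Finsupp.single b y) = x * y * ((sg a : F) * c (b - a)) := by
  simp [be, mul_assoc]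

lemma be_sh (k : ℤ) (m m' : M) : be (sh k m) (sh k m') = (sg k : F) * be m m' := by
  induction m using Finsupp.induction_linear with
  | zero => simp
  | add f g hf hg => rw [map_add, map_add, map_add, LinearMap.add_apply, LinearMap.add_apply, hf, hg]; ring
  | single a x =>
    induction m' using Finsupp.induction_linear with
    | zero => simp
    | add f g hf hg => rw [map_add, map_add, map_add, hf, hg]; ring
    | single b y =>
      rw [sh_single, sh_single, be_single, be_single, sg_add]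
      have : b + k - (a + k) = b - a := by ring
      rw [this]; push_cast; ring

noncomputable def ph : M →ₗ[F] F := Finsupp.linearCombination F (fun a : ℤ => (sg a : F))

lemma ph_single (a : ℤ) (x : F) : ph (Finsupp.single a x) = x * (sg a : F) := by
  simp [ph]

lemma ph_sh (k : ℤ) (m : M) : ph (sh k m) = (sg k : F) * ph m := by
  induction m using Finsupp.induction_linear with
  | zero => simp
  | add f g hf hg => rw [map_add, map_add, map_add, hf, hg]; ring
  | single a x => rw [sh_single, ph_single, ph_single, sg_add]; push_cast; ring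

lemma be_sh_right (n : ℤ) (m m' : M) :
    be m (sh n m') = ∑ a ∈ m.support, ∑ b ∈ m'.support,
      m a * m' b * ((sg a : F) * c (b + n - a)) := by
  conv_lhs => rw [← Finsupp.sum_single m, ← Finsupp.sum_single m']
  simp only [Finsupp.sum, map_sum, LinearMap.sum_apply, sh_single, be_single]
  rw [Finset.sum_comm]

lemma be_sh_left (n : ℤ) (m m' : M) :
    be (sh n m) m' = ∑ a ∈ m.support, ∑ b ∈ m'.support,
      m a * m' b * ((sg (a + n) : F) * c (b - (a + n))) := by
  conv_lhs => rw [← Finsupp.sum_single m, ← Finsupp.sum_single m']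
  simp only [Finsupp.sum, map_sum, LinearMap.sum_apply, sh_single, be_single]
  rw [Finset.sum_comm]

lemma c_nonpos (x : ℤ) (hx : x ≤ 0) : c x = 0 := by
  unfold c
  rw [if_neg]
  rintro ⟨i, hi⟩
  have := i.factorial_pos
  omega

lemma c_gap (i : ℕ) (x : ℤ) (h1 : x < ((i + 1).factorial : ℤ) + (i + 1 : ℕ))
    (h2 : ((i + 1).factorial : ℤ) + (i + 1 : ℕ) - i ≤ x) : c x = 0 := by
  unfold c
  rw [if_neg]
  rintro ⟨j, hj⟩
  rcases Nat.lt_or_ge i j with h | h
  · have : (i + 1).factorial ≤ j.factorial := Nat.factorial_le h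
    push_cast at *
    omega
  · have h3 : j.factorial ≤ i.factorial := Nat.factorial_le h
    have h4 : (i + 1).factorial = (i + 1) * i.factorial := Nat.factorial_succ i
    have h5 := i.factorial_pos
    have h6 : i * 1 ≤ i * i.factorial := Nat.mul_le_mul_left i h5
    have h7 : (i + 1).factorial = i * i.factorial + i.factorial := by rw [h4]; ring
    push_cast at *
    omega

lemma key (m : M) (hm : m ≠ 0) (k : ℤ) (hk : k ≠ 0) :
    ∃ j : ℤ, be m (sh (j * k) m) - be (sh (j * k) m) m ≠ 0 := by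
  have hne : m.support.Nonempty := Finsupp.support_nonempty_iff.mpr hm
  set lo := m.support.min' hne with hlo
  set hi := m.support.max' hne with hhi
  have hlo_mem : lo ∈ m.support := Finset.min'_mem _ _
  have hhi_mem : hi ∈ m.support := Finset.max'_mem _ _
  have hl : ∀ a ∈ m.support, lo ≤ a := fun a ha => Finset.min'_le _ _ ha
  have hh : ∀ a ∈ m.support, a ≤ hi := fun a ha => Finset.le_max' _ _ ha
  obtain ⟨D, hD⟩ : ∃ D : ℕ, hi - lo = D := ⟨(hi - lo).toNat, by have := hl hi hhi_mem; omega⟩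
  obtain ⟨K, hK⟩ : ∃ K : ℕ, k.natAbs = K + 1 := ⟨k.natAbs - 1, by omega⟩
  -- i + 1 = D + (K+1) * (D+1)
  set i : ℕ := D + K * (D + 1) + D with hi_def
  have hi1 : i + 1 = D + (K + 1) * (D + 1) := by rw [hi_def]; ring
  have hdvd1 : (K + 1) ∣ (i + 1).factorial := by
    apply Nat.dvd_factorial (Nat.succ_pos K)
    rw [hi1]; nlinarith
  have hdvd : k ∣ (((i + 1).factorial : ℤ) + (i + 1 : ℕ) - D) := by
    rw [← Int.natAbs_dvd, hK]
    have e : (((i + 1).factorial : ℤ) + (i + 1 : ℕ) - D)
        = ((i + 1).factorial : ℤ) + ((K + 1 : ℕ) : ℤ) * (D + 1) := by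
      conv_lhs => rw [show ((i + 1 : ℕ) : ℤ) = D + ((K + 1 : ℕ) : ℤ) * (D + 1) by rw [hi1]; push_cast; ring]
      ring
    rw [e]
    exact dvd_add (Int.natCast_dvd_natCast.mpr hdvd1) (dvd_mul_right _ _)
  obtain ⟨j, hj⟩ := hdvd
  refine ⟨j, ?_⟩
  have hn : j * k = ((i + 1).factorial : ℤ) + (i + 1 : ℕ) - D := by rw [hj]; ring
  have hiD : 2 * D ≤ i := by rw [hi_def]; omega
  have hfp := (i + 1).factorial_pos
  rw [be_sh_right, be_sh_left, hn]
  have h2 : ∑ a ∈ m.support, ∑ b ∈ m.support,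
      m a * m b * ((sg (a + (((i + 1).factorial : ℤ) + (i + 1 : ℕ) - D)) : F) *
        c (b - (a + (((i + 1).factorial : ℤ) + (i + 1 : ℕ) - D)))) = 0 := by
    apply Finset.sum_eq_zero; intro a ha
    apply Finset.sum_eq_zero; intro b hb
    have := hl a ha; have := hh b hb
    rw [c_nonpos]; · simp
    push_cast; omega
  rw [h2, sub_zero, Finset.sum_eq_single lo, Finset.sum_eq_single hi]
  · have h3 : c (hi + (((i + 1).factorial : ℤ) + (i + 1 : ℕ) - D) - lo) = 1 := by
      unfold c
      rw [if_pos]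
      exact ⟨i + 1, by omega⟩
    rw [h3, mul_one]
    exact mul_ne_zero (mul_ne_zero (Finsupp.mem_support_iff.mp hlo_mem)
      (Finsupp.mem_support_iff.mp hhi_mem)) (sg_ne _)
  · intro b hb hb'
    have := hl b hb; have := hh b hb
    rw [c_gap i]; · simp
    · omega
    · omega
  · intro h; exact absurd hhi_mem h
  · intro a ha ha'
    apply Finset.sum_eq_zero; intro b hb
    have := hl b hb; have := hh b hb; have := hl a ha; have := hh a ha
    rw [c_gap i]; · simp
    · omega
    · omega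
  · intro h; exact absurd hlo_mem h

@[ext] structure G where
  m : M
  u : ZMod 9
  k : ℤ

noncomputable instance : Mul G :=
  ⟨fun g h => ⟨g.m + sh g.k h.m, g.u + (sg g.k : ZMod 9) * h.u + io (be g.m (sh g.k h.m)), g.k + h.k⟩⟩
instance : One G := ⟨⟨0, 0, 0⟩⟩
noncomputable instance : Inv G :=
  ⟨fun g => ⟨- sh (-g.k) g.m, (sg g.k : ZMod 9) * (- g.u + io (be g.m g.m)), - g.k⟩⟩

lemma mul_m (g h : G) : (g * h).m = g.m + sh g.k h.m := rfl
lemma mul_u (g h : G) :
    (g * h).u = g.u + (sg g.k : ZMod 9) * h.u + io (be g.m (sh g.k h.m)) := rfl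
lemma mul_k (g h : G) : (g * h).k = g.k + h.k := rfl
lemma one_m : (1 : G).m = 0 := rfl
lemma one_u : (1 : G).u = 0 := rfl
lemma one_k : (1 : G).k = 0 := rfl
lemma inv_m (g : G) : (g⁻¹).m = - sh (-g.k) g.m := rfl
lemma inv_u (g : G) : (g⁻¹).u = (sg g.k : ZMod 9) * (- g.u + io (be g.m g.m)) := rfl
lemma inv_k (g : G) : (g⁻¹).k = - g.k := rfl

noncomputable instance : Group G := Group.ofLeftAxioms
  (by
    intro a b d
    ext1
    · simp only [mul_m, mul_k, map_add, sh_sh, add_assoc]
    · simp only [mul_u, mul_m, mul_k, map_add, LinearMap.add_apply, io_add, sg_add]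
      rw [← sh_sh a.k b.k d.m, be_sh, io_sg]
      push_cast; ring
    · simp only [mul_k, add_assoc])
  (by
    intro a
    ext1
    · simp only [mul_m, one_m, one_k, sh_zero, zero_add]
    · simp [mul_u, one_m, one_k, one_u, sg_zero, io_zero]
    · simp only [mul_k, one_k, zero_add])
  (by
    intro a
    ext1
    · simp only [mul_m, inv_m, inv_k, one_m, neg_add_cancel]
    · simp only [mul_u, inv_m, inv_u, inv_k, one_u, map_neg, LinearMap.neg_apply, be_sh, io_neg,
        io_sg, sg_neg]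
      ring
    · simp only [mul_k, inv_k, one_k, neg_add_cancel])

lemma cube (g : G) (hg : g.k = 0) : g ^ 3 = ⟨0, 3 * g.u, 0⟩ := by
  rw [pow_three]
  have h3 : g.m + (g.m + g.m) = 0 := by
    have : (3 : F) = 0 := by decide
    calc g.m + (g.m + g.m) = (3 : F) • g.m := by
          rw [show (3 : F) = 1 + (1 + 1) by norm_num, add_smul, add_smul, one_smul]
      _ = 0 := by rw [this, zero_smul]
  ext1
  · simp only [mul_m, hg, sh_zero, h3]
  · simp only [mul_u, mul_m, hg, sh_zero, sg_zero, map_add, io_add]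
    have := io_three (be g.m g.m)
    push_cast
    linear_combination this
  · simp only [mul_k, hg, add_zero]

lemma zpow_k (g : G) (n : ℤ) : (g ^ n).k = n * g.k := by
  induction n using Int.induction_on with
  | zero => simp [one_k]
  | succ n ih => rw [zpow_add_one, mul_k, ih]; ring
  | pred n ih => rw [zpow_sub_one, mul_k, ih, inv_k]; ring

lemma conj_m (h g : G) (hg : g.k = 0) : (h * g * h⁻¹).m = sh h.k g.m := by
  simp only [mul_m, mul_k, inv_m, hg, add_zero, map_neg, sh_sh, add_neg_cancel, sh_zero]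
  abel

lemma conj_k (h g : G) (hg : g.k = 0) : (h * g * h⁻¹).k = 0 := by
  simp only [mul_k, inv_k, hg]; ring

lemma comm_eq (g h : G) (hg : g.k = 0) (hh : h.k = 0) :
    g * h = h * g * ⟨0, io (be g.m h.m - be h.m g.m), 0⟩ := by
  ext1
  · simp only [mul_m, mul_k, hg, hh, sh_zero, map_zero, add_zero, add_comm]
  · simp only [mul_u, mul_m, mul_k, hg, hh, sh_zero, map_zero, add_zero, sg_zero, io_zero,
      sub_eq_add_neg, io_add, io_neg]
    push_cast; ring
  · simp only [mul_k, hg, hh, add_zero]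

noncomputable def A : Subgroup G where
  carrier := {g | ph g.m = pr g.u}
  mul_mem' := by
    intro a b ha hb
    simp only [Set.mem_ofPred_eq] at *
    rw [mul_m, mul_u, map_add, ph_sh, pr_add, pr_add, pr_io, pr_sg, ha, hb, add_zero]
  one_mem' := by
    simp only [Set.mem_ofPred_eq, one_m, one_u, map_zero, pr_zero]
  inv_mem' := by
    intro a ha
    simp only [Set.mem_ofPred_eq] at *
    rw [inv_m, inv_u, map_neg, ph_sh, pr_sg, pr_add, pr_io, pr_neg, ha, sg_neg]; ring

noncomputable def B : Subgroup G where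
  carrier := {g | pr g.u = 0}
  mul_mem' := by
    intro a b ha hb
    simp only [Set.mem_ofPred_eq] at *
    rw [mul_u, pr_add, pr_add, pr_io, pr_sg, ha, hb]; ring
  one_mem' := by
    simp only [Set.mem_ofPred_eq, one_u, pr_zero]
  inv_mem' := by
    intro a ha
    simp only [Set.mem_ofPred_eq] at *
    rw [inv_u, pr_sg, pr_add, pr_io, pr_neg, ha]; ring

noncomputable def H : Subgroup (A × B) where
  carrier := {p | p.1.1.m = p.2.1.m ∧ p.1.1.k = p.2.1.k}
  mul_mem' := by
    rintro a b ⟨ha1, ha2⟩ ⟨hb1, hb2⟩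
    refine ⟨?_, ?_⟩
    · show (a.1.1 * b.1.1).m = (a.2.1 * b.2.1).m
      rw [mul_m, mul_m, ha1, ha2, hb1]
    · show (a.1.1 * b.1.1).k = (a.2.1 * b.2.1).k
      rw [mul_k, mul_k, ha2, hb2]
  one_mem' := ⟨rfl, rfl⟩
  inv_mem' := by
    rintro a ⟨ha1, ha2⟩
    refine ⟨?_, ?_⟩
    · show (a.1.1⁻¹).m = (a.2.1⁻¹).m
      rw [inv_m, inv_m, ha1, ha2]
    · show (a.1.1⁻¹).k = (a.2.1⁻¹).k
      rw [inv_k, inv_k, ha2]

def dd (u : ZMod 9) (k : ℤ) : DihedralGroup 9 :=
  if Even k then DihedralGroup.r u else DihedralGroup.sr (-u)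

lemma dd_mul (u u' : ZMod 9) (k k' : ℤ) :
    dd (u + (sg k : ZMod 9) * u') (k + k') = dd u k * dd u' k' := by
  unfold dd sg
  by_cases ha : Even k <;> by_cases hb : Even k' <;> simp [ha, hb, Int.even_add] <;> ring

noncomputable def f0 : H →* DihedralGroup 9 := MonoidHom.mk'
  (fun p => dd (p.1.1.1.u - p.1.2.1.u) p.1.1.1.k)
  (by
    rintro ⟨a, ha1, ha2⟩ ⟨b, hb1, hb2⟩
    show dd ((a.1.1 * b.1.1).u - (a.2.1 * b.2.1).u) (a.1.1 * b.1.1).k
      = dd (a.1.1.u - a.2.1.u) a.1.1.k * dd (b.1.1.u - b.2.1.u) b.1.1.k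
    rw [← dd_mul, mul_u, mul_u, mul_k, ← ha1, ← ha2, ← hb1]
    congr 1; ring)

lemma f0_surj : Function.Surjective f0 := by
  have h : ∀ (u : ZMod 9) (k : ℤ), ∃ p : H, f0 p = dd u k := by
    intro u k
    refine ⟨⟨(⟨⟨Finsupp.single 0 (pr u), u, k⟩, ?_⟩, ⟨⟨Finsupp.single 0 (pr u), 0, k⟩, pr_zero⟩),
      rfl, rfl⟩, ?_⟩
    · show ph (Finsupp.single 0 (pr u)) = pr u
      rw [ph_single, sg_zero]; simp
    · show dd (u - 0) k = dd u k
      rw [sub_zero]
  intro d
  cases d with
  | r i => obtain ⟨p, hp⟩ := h i 0; exact ⟨p, by rw [hp]; simp [dd]⟩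
  | sr i => obtain ⟨p, hp⟩ := h (-i) 1; exact ⟨p, by rw [hp]; simp [dd]⟩

lemma no_sec {S : Type} [Group S] (j : S →* G) (hj : Function.Injective j)
    (f : S →* DihedralGroup 9) (hf : Function.Surjective f)
    (hAB : ∀ x : S, pr (j x).u ≠ 0 → (j x).m ≠ 0) : False := by
  obtain ⟨ρ, hρ⟩ := hf (DihedralGroup.r 1)
  obtain ⟨σ, hσ⟩ := hf (DihedralGroup.sr 0)
  obtain ⟨g, hg⟩ : ∃ g : S, g = ρ * σ * ρ⁻¹ * σ⁻¹ := ⟨_, rfl⟩
  have hfg : f g = DihedralGroup.r 2 := by
    rw [hg]; simp only [map_mul, map_inv, hρ, hσ]; decide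
  have hgk : (j g).k = 0 := by
    rw [hg]; simp only [map_mul, map_inv, mul_k, inv_k]; ring
  have hz : j (g ^ 3) = ⟨0, 3 * (j g).u, 0⟩ := by rw [map_pow, cube _ hgk]
  have hfz : f (g ^ 3) = DihedralGroup.r 6 := by rw [map_pow, hfg]; decide
  have hu : pr (j g).u ≠ 0 := by
    intro h
    have h1 : j (g ^ 3) = j 1 := by rw [hz, three_of_pr _ h, map_one]; rfl
    have h2 := hj h1
    rw [h2, map_one] at hfz
    exact absurd hfz (by decide)
  have hm := hAB g hu
  have hk : (j σ).k ≠ 0 := by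
    intro h
    have h1 : j (σ * g ^ 3) = j (g ^ 3 * σ) := by
      rw [map_mul, map_mul, comm_eq _ _ h (by rw [hz]), hz]
      simp only [map_zero, LinearMap.zero_apply, sub_zero, io_zero]
      exact mul_one _
    have h2 := congrArg f (hj h1)
    rw [map_mul, map_mul, hfz, hσ] at h2
    exact absurd h2 (by decide)
  obtain ⟨n, hn⟩ := key _ hm _ hk
  obtain ⟨g', hg'⟩ : ∃ g' : S, g' = σ ^ n * g * (σ ^ n)⁻¹ := ⟨_, rfl⟩
  have hg'm : (j g').m = sh (n * (j σ).k) (j g).m := by
    rw [hg', map_mul, map_mul, map_inv, conj_m _ _ hgk, map_zpow, zpow_k]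
  have hg'k : (j g').k = 0 := by
    rw [hg', map_mul, map_mul, map_inv, conj_k _ _ hgk]
  have hcomm : f g * f g' = f g' * f g := by
    rw [hg', map_mul, map_mul, map_inv, hfg]
    generalize f (σ ^ n) = d
    revert d; decide
  have hc := comm_eq (j g) (j g') hgk hg'k
  rw [hg'm] at hc
  rcases io_cases _ _ hn hu with h | h
  · rw [h, ← hz, ← map_mul, ← map_mul, ← map_mul] at hc
    have h2 := congrArg f (hj hc)
    rw [map_mul, map_mul, map_mul, hcomm, hfz] at h2
    exact absurd (left_eq_mul.mp h2) (by decide)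
  · have e : (⟨0, 3 * (j g).u + 3 * (j g).u, 0⟩ : G) = j (g ^ 3) * j (g ^ 3) := by
      rw [hz]
      ext1
      · simp [mul_m]
      · simp [mul_u, sg_zero, io_zero]
      · simp [mul_k]
    rw [h, e, ← map_mul, ← map_mul, ← map_mul, ← map_mul] at hc
    have h2 := congrArg f (hj hc)
    rw [map_mul, map_mul, map_mul, map_mul, hcomm, hfz] at h2
    exact absurd (left_eq_mul.mp h2) (by decide)

end Pool.Agent.H18.Kov
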