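import Mathlib
import Pool.Agent.H18.GoodVec

namespace Pool.Agent.H18.LiouMat

open Finset Pool.Agent.H18.GoodVec

/-- an integer vector as a real vector (with the supremum norm) -/
def toReal {k : ℕ} (y : Fin k → ℤ) : Fin k → ℝ := fun j => (y j : ℝ)

/-- Liouville matrices: no exact integer relation, and for every `N > 0` an approximation
`‖M y - x‖ < ‖y‖ ^ (-N)` with `‖y‖ > 1`. -/
def IsLiouvilleMatrix {m n : ℕ} (M : Matrix (Fin m) (Fin n) ℝ) : Prop :=
  (∀ (y : Fin n → ℤ) (x : Fin m → ℤ), ¬ (y = 0 ∧ x = 0) → M.mulVec (toReal y) ≠ toReal x) ∧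
  ∀ N : ℝ, 0 < N → ∃ (x : Fin m → ℤ) (y : Fin n → ℤ), 1 < ‖toReal y‖ ∧
    ‖M.mulVec (toReal y) - toReal x‖ < ‖toReal y‖ ^ (-N)

theorem abs_le_norm {k : ℕ} (y : Fin k → ℤ) (l : Fin k) : |(y l : ℝ)| ≤ ‖toReal y‖ :=
  norm_le_pi_norm (toReal y) l

theorem exists_two_le {k : ℕ} (y : Fin k → ℤ) (hy : 1 < ‖toReal y‖) :
    ∃ i, (2 : ℝ) ≤ |(y i : ℝ)| := by
  obtain ⟨i, hi⟩ : ∃ i, 1 < |(y i : ℝ)| := by
    by_contra hcon
    push Not at hcon
    have : ‖toReal y‖ ≤ 1 := (pi_norm_le_iff_of_nonneg zero_le_one).mpr hcon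
    linarith
  have h1 : 1 < |y i| := by exact_mod_cast hi
  have h2 : 2 ≤ |y i| := h1
  exact ⟨i, by exact_mod_cast h2⟩

theorem norm_fin_one (v : Fin 1 → ℝ) : ‖v‖ = |v 0| := by
  rw [← Real.norm_eq_abs]
  apply le_antisymm
  · refine (pi_norm_le_iff_of_nonneg (norm_nonneg _)).mpr (fun i => ?_)
    rw [Subsingleton.elim i 0]
  · exact norm_le_pi_norm v 0

/-- for `1 × 1` matrices the notion is that of a Liouville number -/
theorem one_one_iff (ξ : ℝ) :
    IsLiouvilleMatrix (Matrix.of (fun (_ _ : Fin 1) => ξ)) ↔ Liouville ξ := by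
  have hmv : ∀ y : Fin 1 → ℤ,
      (Matrix.of (fun (_ _ : Fin 1) => ξ)).mulVec (toReal y) 0 = ξ * y 0 := by
    intro y; simp [Matrix.mulVec, dotProduct, toReal]
  constructor
  · rintro ⟨h1, h2⟩ n
    obtain ⟨x, y, hy, hxy⟩ := h2 (n + 1) (by positivity)
    rw [norm_fin_one] at hy hxy
    rw [norm_fin_one] at hxy
    simp only [Pi.sub_apply, hmv] at hxy
    simp only [toReal] at hy hxy
    have hy0 : (y 0 : ℝ) ≠ 0 := by
      intro h; rw [h] at hy; norm_num at hy
    have hne : ξ ≠ x 0 / y 0 := by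
      intro h
      refine h1 y x (fun h' => hy0 (by rw [h'.1]; simp)) ?_
      funext i
      rw [Subsingleton.elim i 0, hmv, h]
      simp only [toReal]
      field_simp
    have hpos : (0 : ℝ) < |(y 0 : ℝ)| := by linarith
    have hlt : |ξ - x 0 / y 0| < 1 / |(y 0 : ℝ)| ^ n := by
      have e : ξ - x 0 / y 0 = (ξ * y 0 - x 0) / y 0 := by field_simp
      rw [e, abs_div, div_lt_iff₀ hpos]
      refine hxy.trans_le ?_
      rw [Real.rpow_neg hpos.le, show (n : ℝ) + 1 = ((n + 1 : ℕ) : ℝ) by push_cast; ring,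
        Real.rpow_natCast, one_div]
      have h3 : (|(y 0 : ℝ)| ^ (n + 1))⁻¹ ≤ (|(y 0 : ℝ)| ^ n)⁻¹ :=
        inv_anti₀ (by positivity) (pow_le_pow_right₀ hy.le (by omega))
      exact h3.trans (le_mul_of_one_le_right (by positivity) hy.le)
    rcases lt_or_gt_of_ne hy0 with hneg | hp
    · refine ⟨-x 0, -y 0, ?_, ?_, ?_⟩
      · rw [abs_of_neg hneg] at hy; exact_mod_cast hy
      · push_cast; rwa [neg_div_neg_eq]
      · push_cast; rwa [neg_div_neg_eq, ← abs_of_neg hneg]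
    · refine ⟨x 0, y 0, ?_, hne, ?_⟩
      · rw [abs_of_pos hp] at hy; exact_mod_cast hy
      · rwa [abs_of_pos hp] at hlt
  · intro hL
    refine ⟨fun y x hyx h => ?_, fun N hN => ?_⟩
    · have h0 := congrFun h 0
      rw [hmv] at h0
      simp only [toReal] at h0
      by_cases hy : y 0 = 0
      · apply hyx
        rw [hy] at h0
        have hx : x 0 = 0 := by
          have : (x 0 : ℝ) = 0 := by rw [← h0]; simp
          exact_mod_cast this
        exact ⟨funext (fun i => by rw [Subsingleton.elim i 0]; exact hy),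
          funext (fun i => by rw [Subsingleton.elim i 0]; exact hx)⟩
      · have hy' : (y 0 : ℝ) ≠ 0 := by exact_mod_cast hy
        refine hL.irrational ⟨(x 0 : ℚ) / (y 0 : ℚ), ?_⟩
        push_cast
        rw [← h0]; field_simp
    · obtain ⟨a, b, hb, _, hab⟩ := hL (⌈N⌉₊ + 1)
      have hb' : (1 : ℝ) < b := by exact_mod_cast hb
      have hb0 : (0 : ℝ) < b := by linarith
      refine ⟨fun _ => a, fun _ => b, ?_, ?_⟩
      · rw [norm_fin_one]; simp only [toReal]; rwa [abs_of_pos hb0]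
      · rw [norm_fin_one, norm_fin_one]
        simp only [Pi.sub_apply, hmv]
        simp only [toReal]
        rw [abs_of_pos hb0]
        have e : ξ * b - a = (ξ - a / b) * b := by field_simp
        rw [e, abs_mul, abs_of_pos hb0]
        have h1 := mul_lt_mul_of_pos_right hab hb0
        refine h1.trans_le ?_
        have e2 : 1 / (b : ℝ) ^ (⌈N⌉₊ + 1) * b = (b : ℝ) ^ (-(⌈N⌉₊ : ℝ)) := by
          rw [Real.rpow_neg hb0.le, Real.rpow_natCast]; field_simp; ring
        rw [e2]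
        exact Real.rpow_le_rpow_of_exponent_le hb'.le (neg_le_neg (Nat.le_ceil N))

end Pool.Agent.H18.LiouMat
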