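import Mathlib

set_option autoImplicit false

open Filter Topology Set

namespace Pool.Agent.H18.Lsim

/-- locally right-linear order automorphisms of the real line -/
def RL (d : ℝ ≃o ℝ) : Prop :=
  ∀ p : ℝ, ∃ l : ℝ, 0 < l ∧ ∀ᶠ x in 𝓝[>] p, d x = d p + l * (x - p)

lemma tend (d : ℝ ≃o ℝ) (p : ℝ) : Tendsto d (𝓝[>] p) (𝓝[>] (d p)) := by
  rw [tendsto_nhdsWithin_iff]
  refine ⟨(d.continuous.tendsto p).mono_left nhdsWithin_le_nhds, ?_⟩
  filter_upwards [self_mem_nhdsWithin] with x hx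
  exact d.strictMono hx

lemma RL.trans {d e : ℝ ≃o ℝ} (hd : RL d) (he : RL e) : RL (d.trans e) := by
  intro p
  obtain ⟨l, hl, h1⟩ := hd p
  obtain ⟨l', hl', h2⟩ := he (d p)
  refine ⟨l' * l, mul_pos hl' hl, ?_⟩
  filter_upwards [h1, (tend d p).eventually h2] with x hx hx'
  simp only [OrderIso.trans_apply]
  rw [hx']
  rw [hx]; ring

lemma RL.symm {d : ℝ ≃o ℝ} (hd : RL d) : RL d.symm := by
  intro p
  obtain ⟨l, hl, h1⟩ := hd (d.symm p)
  refine ⟨l⁻¹, inv_pos.2 hl, ?_⟩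
  filter_upwards [(tend d.symm p).eventually h1] with x hx
  simp only [OrderIso.apply_symm_apply] at hx
  have : x - p = l * (d.symm x - d.symm p) := by linarith
  rw [this]; field_simp; ring

lemma fix_symm {d : ℝ ≃o ℝ} {x : ℝ} (h : d x = x) : d.symm x = x := by
  rw [OrderIso.symm_apply_eq]; exact h.symm

@[ext] structure A where
  v : ℝ → ℤ
  k : ℝ → ℤ
  d : ℝ ≃o ℝ
  fin : {x | v x ≠ 0 ∨ k x ≠ 0}.Finite
  lin : RL d
  bdd : ∃ m, ∀ x ≤ m, d x = x

namespace A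

instance : One A := ⟨⟨0, 0, OrderIso.refl ℝ, by simp, fun p => ⟨1, one_pos, by simp⟩, ⟨0, by simp⟩⟩⟩

instance : Mul A := ⟨fun a b =>
  { v := fun x => a.v (b.d x) + b.v x
    k := fun x => a.k (b.d x) + b.k x
    d := b.d.trans a.d
    fin := by
      refine ((a.fin.preimage (b.d.injective.injOn)).union b.fin).subset ?_
      intro x hx
      simp only [mem_ofPred_eq, mem_union, mem_preimage] at hx ⊢
      by_contra hc
      push Not at hc
      obtain ⟨⟨h1, h2⟩, h3, h4⟩ := hc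
      simp [h1, h2, h3, h4] at hx
    lin := b.lin.trans a.lin
    bdd := by
      obtain ⟨m, hm⟩ := a.bdd
      obtain ⟨n, hn⟩ := b.bdd
      refine ⟨min m n, fun x hx => ?_⟩
      simp only [OrderIso.trans_apply]
      rw [hn x (hx.trans (min_le_right _ _)), hm x (hx.trans (min_le_left _ _))] }⟩

instance : Inv A := ⟨fun a =>
  { v := fun x => -a.v (a.d.symm x)
    k := fun x => -a.k (a.d.symm x)
    d := a.d.symm
    fin := by
      refine (a.fin.preimage (a.d.symm.injective.injOn)).subset ?_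
      intro x hx
      simpa using hx
    lin := a.lin.symm
    bdd := by
      obtain ⟨m, hm⟩ := a.bdd
      exact ⟨m, fun x hx => fix_symm (hm x hx)⟩ }⟩

@[simp] lemma one_v (x : ℝ) : (1 : A).v x = 0 := rfl
@[simp] lemma one_k (x : ℝ) : (1 : A).k x = 0 := rfl
@[simp] lemma one_d (x : ℝ) : (1 : A).d x = x := rfl
@[simp] lemma one_ds (x : ℝ) : (1 : A).d.symm x = x := rfl
@[simp] lemma mul_v (a b : A) (x : ℝ) : (a * b).v x = a.v (b.d x) + b.v x := rfl
@[simp] lemma mul_k (a b : A) (x : ℝ) : (a * b).k x = a.k (b.d x) + b.k x := rfl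
@[simp] lemma mul_d (a b : A) (x : ℝ) : (a * b).d x = a.d (b.d x) := rfl
@[simp] lemma mul_ds (a b : A) (x : ℝ) : (a * b).d.symm x = b.d.symm (a.d.symm x) := rfl
@[simp] lemma inv_v (a : A) (x : ℝ) : (a⁻¹).v x = -a.v (a.d.symm x) := rfl
@[simp] lemma inv_k (a : A) (x : ℝ) : (a⁻¹).k x = -a.k (a.d.symm x) := rfl
@[simp] lemma inv_d (a : A) (x : ℝ) : (a⁻¹).d x = a.d.symm x := rfl
@[simp] lemma inv_ds (a : A) (x : ℝ) : (a⁻¹).d.symm x = a.d x := rfl

lemma ext' {a b : A} (h : ∀ x, a.v x = b.v x ∧ a.k x = b.k x ∧ a.d x = b.d x) : a = b :=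
  A.ext (funext fun x => (h x).1) (funext fun x => (h x).2.1) (OrderIso.ext (funext fun x => (h x).2.2))

instance : Group A :=
  Group.ofLeftAxioms (fun a b c => ext' fun x => by simp [add_assoc])
    (fun a => ext' fun x => by simp) (fun a => ext' fun x => by simp)

end A

open A

def Triv (c : A) (p : ℝ) : Prop := (∀ x < p, c.v x = 0 ∧ c.k x = 0) ∧ ∀ x ≤ p, c.d x = x

def PosAt (c : A) (p : ℝ) : Prop :=
  Triv c p ∧ (0 < c.v p ∨ (c.v p = 0 ∧ 0 < c.k p) ∨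
    (c.v p = 0 ∧ c.k p = 0 ∧ ∀ᶠ x in 𝓝[>] p, x < c.d x))

def NN (c : A) (p : ℝ) : Prop :=
  Triv c p ∧ (0 < c.v p ∨ (c.v p = 0 ∧ 0 < c.k p) ∨
    (c.v p = 0 ∧ c.k p = 0 ∧ ∀ᶠ x in 𝓝[>] p, x ≤ c.d x))

def Pos (c : A) : Prop := ∃ p, PosAt c p

lemma Triv.mul {c c' : A} {p : ℝ} (h : Triv c p) (h' : Triv c' p) : Triv (c * c') p := by
  refine ⟨fun x hx => ?_, fun x hx => ?_⟩
  · simp [h'.2 x hx.le, h.1 x hx, h'.1 x hx]
  · simp [h'.2 x hx, h.2 x hx]

lemma Triv.inv {c : A} {p : ℝ} (h : Triv c p) : Triv c⁻¹ p := by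
  refine ⟨fun x hx => ?_, fun x hx => ?_⟩
  · simp [fix_symm (h.2 x hx.le), h.1 x hx]
  · simp [fix_symm (h.2 x hx)]

lemma Triv.nn {c : A} {p q : ℝ} (h : Triv c p) (hq : q < p) : NN c q := by
  refine ⟨⟨fun x hx => h.1 x (hx.trans hq), fun x hx => h.2 x (hx.trans hq.le)⟩, Or.inr (Or.inr
    ⟨(h.1 q hq).1, (h.1 q hq).2, ?_⟩)⟩
  filter_upwards [nhdsWithin_le_nhds (Iio_mem_nhds hq)] with x hx
  exact (h.2 x (le_of_lt hx)).ge

lemma PosAt.nn {c : A} {p : ℝ} (h : PosAt c p) : NN c p := by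
  refine ⟨h.1, ?_⟩
  rcases h.2 with h | h | ⟨h1, h2, h3⟩
  · exact Or.inl h
  · exact Or.inr (Or.inl h)
  · exact Or.inr (Or.inr ⟨h1, h2, h3.mono fun x hx => hx.le⟩)

lemma nn_one (p : ℝ) : NN 1 p := (show Triv 1 (p + 1) from ⟨by simp, by simp⟩).nn (by linarith)

lemma PosAt.mul_nn {c c' : A} {p : ℝ} (h : PosAt c p) (h' : NN c' p) : PosAt (c * c') p := by
  refine ⟨h.1.mul h'.1, ?_⟩
  have hp := h'.1.2 p le_rfl
  simp only [mul_v, mul_k, mul_d, hp]
  rcases h.2 with h1 | ⟨h1, h2⟩ | ⟨h1, h2, h3⟩ <;> rcases h'.2 with h4 | ⟨h4, h5⟩ | ⟨h4, h5, h6⟩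
  all_goals first
    | (left; omega)
    | (right; left; constructor <;> omega)
    | skip
  right; right
  refine ⟨by omega, by omega, ?_⟩
  filter_upwards [h3, h6] with x hx hx'
  exact hx.trans_le (c.d.monotone hx')

lemma NN.mul_posAt {c c' : A} {p : ℝ} (h' : NN c' p) (h : PosAt c p) : PosAt (c' * c) p := by
  refine ⟨h'.1.mul h.1, ?_⟩
  have hp := h.1.2 p le_rfl
  simp only [mul_v, mul_k, mul_d, hp]
  rcases h.2 with h1 | ⟨h1, h2⟩ | ⟨h1, h2, h3⟩ <;> rcases h'.2 with h4 | ⟨h4, h5⟩ | ⟨h4, h5, h6⟩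
  all_goals first
    | (left; omega)
    | (right; left; constructor <;> omega)
    | skip
  right; right
  refine ⟨by omega, by omega, ?_⟩
  have ht := tend c.d p
  rw [hp] at ht
  filter_upwards [h3, ht.eventually h6] with x hx hx'
  exact hx.trans_le hx'

lemma Pos.mul {c c' : A} (h : Pos c) (h' : Pos c') : Pos (c * c') := by
  obtain ⟨p, hp⟩ := h
  obtain ⟨q, hq⟩ := h'
  rcases lt_trichotomy p q with h | rfl | h
  · exact ⟨p, hp.mul_nn (hq.1.nn h)⟩
  · exact ⟨p, hp.mul_nn hq.nn⟩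
  · exact ⟨q, (hp.1.nn h).mul_posAt hq⟩

lemma not_posAt_of_triv {c : A} {p q : ℝ} (h : PosAt c p) (h' : Triv c q) (hq : p < q) : False := by
  have h0 := h'.1 p hq
  rcases h.2 with h1 | ⟨h1, h2⟩ | ⟨h1, h2, h3⟩
  · omega
  · omega
  · obtain ⟨x, hx, hx'⟩ := (h3.and (nhdsWithin_le_nhds (Iio_mem_nhds hq))).exists
    rw [h'.2 x (le_of_lt hx')] at hx
    exact lt_irrefl _ hx

lemma not_pos_one : ¬ Pos 1 := fun ⟨p, hp⟩ =>
  not_posAt_of_triv hp (show Triv 1 (p + 1) from ⟨by simp, by simp⟩) (by linarith)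

lemma PosAt.conj {c : A} {p : ℝ} (h : PosAt c p) (g : A) : PosAt (g⁻¹ * c * g) (g.d.symm p) := by
  have key : ∀ x ≤ g.d.symm p, c.d (g.d x) = g.d x := fun x hx =>
    h.1.2 _ (by simpa using g.d.monotone hx)
  refine ⟨⟨fun x hx => ?_, fun x hx => ?_⟩, ?_⟩
  · have := h.1.1 (g.d x) (by simpa using g.d.strictMono hx)
    simp [key x hx.le, this]
  · simp [key x hx]
  · have hp := h.1.2 p le_rfl
    simp only [mul_v, mul_k, mul_d, inv_v, inv_k, inv_d, OrderIso.apply_symm_apply, hp]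
    rcases h.2 with h1 | ⟨h1, h2⟩ | ⟨h1, h2, h3⟩
    · left; omega
    · right; left; constructor <;> omega
    · right; right
      refine ⟨by omega, by omega, ?_⟩
      have ht := tend g.d (g.d.symm p)
      rw [OrderIso.apply_symm_apply] at ht
      filter_upwards [ht.eventually h3] with x hx
      simpa using g.d.symm.strictMono hx

lemma exists_triv (c : A) : ∃ m, ∀ n ≤ m, Triv c n := by
  obtain ⟨m, hm⟩ := c.bdd
  obtain ⟨b, hb⟩ := c.fin.bddBelow
  refine ⟨min m b, fun n hn => ⟨fun x hx => ?_, fun x hx => hm x (hx.trans (hn.trans (min_le_left _ _)))⟩⟩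
  by_contra hc
  have : b ≤ x := hb (by simp only [mem_ofPred_eq]; tauto)
  exact absurd (hx.trans_le (hn.trans (min_le_right _ _))) (not_lt.2 this)

lemma ev_zero (c : A) (p : ℝ) : ∀ᶠ x in 𝓝[>] p, c.v x = 0 ∧ c.k x = 0 := by
  have h1 : (({x | c.v x ≠ 0 ∨ c.k x ≠ 0} \ {p})ᶜ : Set ℝ) ∈ 𝓝 p :=
    ((c.fin.subset sdiff_subset).isClosed.isOpen_compl).mem_nhds (by simp)
  filter_upwards [nhdsWithin_le_nhds h1, self_mem_nhdsWithin] with x hx hx'
  have : x ≠ p := ne_of_gt hx'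
  simp only [mem_compl_iff, Set.mem_sdiff, mem_ofPred_eq, mem_singleton_iff, this, not_false_eq_true,
    and_true] at hx
  tauto

lemma ev_Ioo {P : ℝ → Prop} {p : ℝ} (h : ∀ᶠ x in 𝓝[>] p, P x) :
    ∃ q, p < q ∧ ∀ x, p < x → x ≤ q → P x := by
  obtain ⟨u, hu, hs⟩ := mem_nhdsGT_iff_exists_Ioo_subset.1 h
  refine ⟨(p + u) / 2, by simp only [mem_Ioi] at hu; linarith, fun x h1 h2 => hs ⟨h1, ?_⟩⟩
  simp only [mem_Ioi] at hu; linarith

lemma trich (c : A) : c = 1 ∨ Pos c ∨ Pos c⁻¹ := by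
  by_cases hb : BddAbove {y | Triv c y}
  swap
  · left
    refine ext' fun x => ?_
    obtain ⟨y, hy, hxy⟩ := not_bddAbove_iff.1 hb x
    simp [hy.1 x hxy, hy.2 x hxy.le]
  right
  obtain ⟨m, hm⟩ := exists_triv c
  have hne : ({y | Triv c y} : Set ℝ).Nonempty := ⟨m, hm m le_rfl⟩
  set p := sSup {y | Triv c y} with hp
  have h1 : ∀ x < p, c.v x = 0 ∧ c.k x = 0 ∧ c.d x = x := fun x hx => by
    obtain ⟨y, hy, hxy⟩ := exists_lt_of_lt_csSup hne hx
    exact ⟨(hy.1 x hxy).1, (hy.1 x hxy).2, hy.2 x hxy.le⟩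
  have h2 : c.d p = p := by
    rcases lt_trichotomy (c.d p) p with h | h | h
    · exact c.d.injective (h1 _ h).2.2
    · exact h
    · have h' : c.d.symm p < p := by simpa using c.d.symm.strictMono h
      have := (h1 _ h').2.2
      simp only [OrderIso.apply_symm_apply] at this
      exact absurd this.symm h'.ne
  have ht : Triv c p := ⟨fun x hx => ⟨(h1 x hx).1, (h1 x hx).2.1⟩, fun x hx =>
    hx.lt_or_eq.elim (fun h => (h1 x h).2.2) (fun h => h ▸ h2)⟩
  have hs := fix_symm h2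
  rcases lt_trichotomy (c.v p) 0 with hv | hv | hv
  · exact Or.inr ⟨p, ht.inv, Or.inl (by simp [hs, hv])⟩
  swap
  · exact Or.inl ⟨p, ht, Or.inl hv⟩
  rcases lt_trichotomy (c.k p) 0 with hk | hk | hk
  · exact Or.inr ⟨p, ht.inv, Or.inr (Or.inl (by simp [hs, hv, hk]))⟩
  swap
  · exact Or.inl ⟨p, ht, Or.inr (Or.inl ⟨hv, hk⟩)⟩
  obtain ⟨l, hl, he⟩ := c.lin p
  rw [h2] at he
  rcases lt_trichotomy l 1 with h | h | h
  · refine Or.inr ⟨p, ht.inv, Or.inr (Or.inr ⟨by simp [hs, hv], by simp [hs, hk], ?_⟩)⟩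
    filter_upwards [he, self_mem_nhdsWithin] with x hx hx'
    have hx2 : p < x := hx'
    have : c.d x < x := by rw [hx]; nlinarith
    simpa using c.d.symm.strictMono this
  · exfalso
    obtain ⟨q, hq, hq'⟩ := ev_Ioo (he.and (ev_zero c p))
    have : Triv c q := by
      refine ⟨fun x hx => ?_, fun x hx => ?_⟩
      · rcases lt_trichotomy x p with h' | h' | h'
        · exact ht.1 x h'
        · rw [h']; exact ⟨hv, hk⟩
        · exact (hq' x h' hx.le).2
      · rcases le_or_gt x p with h' | h'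
        · exact ht.2 x h'
        · rw [(hq' x h' hx).1, h]; ring
    exact absurd (le_csSup hb this) (not_le.2 hq)
  · refine Or.inl ⟨p, ht, Or.inr (Or.inr ⟨hv, hk, ?_⟩)⟩
    filter_upwards [he, self_mem_nhdsWithin] with x hx hx'
    have hx2 : p < x := hx'
    rw [hx]; nlinarith

def ltA (a b : A) : Prop := Pos (a⁻¹ * b)

instance : IsStrictTotalOrder A ltA where
  trichotomous a b := by
    intro h1 h2
    rcases trich (a⁻¹ * b) with h | h | h
    · exact inv_mul_eq_one.1 h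
    · exact absurd h h1
    · exact absurd (by simpa [ltA] using h) h2
  irrefl a := by simpa [ltA] using not_pos_one
  trans a b c h1 h2 := by
    have := Pos.mul h1 h2
    simpa [ltA, mul_assoc] using this

open Classical in
noncomputable instance : LinearOrder A := linearOrderOfSTO ltA

lemma lt_iff {a b : A} : a < b ↔ Pos (a⁻¹ * b) := Iff.rfl

end Pool.Agent.H18.Lsim
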