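import Pool.Agent.H18.Lsim1

set_option autoImplicit false

open Filter Topology Set

namespace Pool.Agent.H18.Lsim
open A

/-- the convex subgroup of elements trivial up to the first coordinate at level `l` -/
def C (l : ℝ) : Subgroup A where
  carrier := {e | Triv e l ∧ e.v l = 0}
  one_mem' := ⟨⟨by simp, by simp⟩, rfl⟩
  mul_mem' := fun {a b} ha hb => ⟨ha.1.mul hb.1, by simp [hb.1.2 l le_rfl, ha.2, hb.2]⟩
  inv_mem' := fun {a} ha => ⟨ha.1.inv, by simp [fix_symm (ha.1.2 l le_rfl), ha.2]⟩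

lemma mem_C {l : ℝ} {e : A} : e ∈ C l ↔ Triv e l ∧ e.v l = 0 := Iff.rfl

lemma C_v {l : ℝ} {e : A} (h : e ∈ C l) {x : ℝ} (hx : x ≤ l) : e.v x = 0 :=
  hx.lt_or_eq.elim (fun h' => (h.1.1 x h').1) (fun h' => h' ▸ h.2)

lemma Triv.mono {e : A} {p q : ℝ} (h : Triv e p) (hq : q ≤ p) : Triv e q :=
  ⟨fun x hx => h.1 x (hx.trans_le hq), fun x hx => h.2 x (hx.trans hq)⟩

lemma C_mono {l l' : ℝ} (h : l' ≤ l) {e : A} (he : e ∈ C l) : e ∈ C l' :=
  ⟨he.1.mono h, C_v he h⟩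

lemma C_conj {l : ℝ} {e : A} (b : A) (he : e ∈ C (b.d l)) : b⁻¹ * e * b ∈ C l := by
  have key : ∀ x ≤ l, e.d (b.d x) = b.d x := fun x hx => he.1.2 _ (b.d.monotone hx)
  refine ⟨⟨fun x hx => ?_, fun x hx => ?_⟩, ?_⟩
  · have := he.1.1 (b.d x) (b.d.strictMono hx)
    simp [key x hx.le, this]
  · simp [key x hx]
  · simp [key l le_rfl, he.2]

lemma nn_or {x : A} (hx : x = 1 ∨ Pos x) (r : ℝ) : NN x r ∨ ∃ p < r, PosAt x p := by
  rcases hx with rfl | ⟨p, hp⟩
  · exact Or.inl (nn_one r)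
  rcases lt_trichotomy p r with h | rfl | h
  · exact Or.inr ⟨p, h, hp⟩
  · exact Or.inl hp.nn
  · exact Or.inl (hp.1.nn h)

lemma NN.v_nonneg {x : A} {r : ℝ} (h : NN x r) : 0 ≤ x.v r := by
  rcases h.2 with h | h | h <;> omega

lemma C_convex {l : ℝ} {x y : A} (hx : x = 1 ∨ Pos x) (hy : y = 1 ∨ Pos y) (h : x * y ∈ C l) :
    x ∈ C l ∧ y ∈ C l := by
  rcases nn_or hx l with h1 | ⟨p, hp, h1⟩
  · rcases nn_or hy l with h2 | ⟨q, hq, h2⟩
    · have h3 := h.2
      simp only [mul_v, h2.1.2 l le_rfl] at h3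
      have := h1.v_nonneg
      have := h2.v_nonneg
      exact ⟨⟨h1.1, by omega⟩, ⟨h2.1, by omega⟩⟩
    · exact (not_posAt_of_triv ((h1.1.nn hq).mul_posAt h2) h.1 hq).elim
  · rcases nn_or hy p with h2 | ⟨q, hq, h2⟩
    · exact (not_posAt_of_triv (h1.mul_nn h2) h.1 hp).elim
    · exact (not_posAt_of_triv ((h1.1.nn hq).mul_posAt h2) h.1 (hq.trans hp)).elim

lemma C_convex' {l : ℝ} {x y : A} (hx : x = 1 ∨ Pos x⁻¹) (hy : y = 1 ∨ Pos y⁻¹)
    (h : x * y ∈ C l) : x ∈ C l ∧ y ∈ C l := by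
  have := C_convex (l := l) (x := y⁻¹) (y := x⁻¹) (by simpa using hy) (by simpa using hx)
    (by simpa using (C l).inv_mem h)
  exact ⟨by simpa using this.2, by simpa using this.1⟩

/-- the colour equivalence -/
def R (c c' : A) : Prop := ∀ l, (∀ x < l, c.v x = 0) → c⁻¹ * c' ∈ C l

lemma C_agree {l : ℝ} {c c' : A} (h : c⁻¹ * c' ∈ C l) :
    (∀ x ≤ l, c'.d x = c.d x ∧ c'.v x = c.v x) ∧ ∀ x < l, c'.k x = c.k x := by
  have hd : ∀ x ≤ l, c.d.symm (c'.d x) = x := fun x hx => by simpa using h.1.2 x hx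
  refine ⟨fun x hx => ⟨?_, ?_⟩, fun x hx => ?_⟩
  · exact (c.d.symm_apply_eq.1 (hd x hx))
  · have := C_v h hx
    simp only [mul_v, inv_v, hd x hx] at this
    omega
  · have := (h.1.1 x hx).2
    simp only [mul_k, inv_k, hd x hx.le] at this
    omega

lemma R.refl (c : A) : R c c := fun l _ => by simp

lemma R.trans {a b c : A} (h1 : R a b) (h2 : R b c) : R a c := fun l hl => by
  have e1 := h1 l hl
  have e2 := h2 l fun x hx => by rw [((C_agree e1).1 x hx.le).2, hl x hx]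
  simpa [mul_assoc] using (C l).mul_mem e1 e2

lemma R.symm {a b : A} (h : R a b) : R b a := fun l hl => by
  have key : ∀ x < l, a.v x = 0 := by
    by_contra hc
    push Not at hc
    have hf : ({x | x < l ∧ a.v x ≠ 0} : Set ℝ).Finite := a.fin.subset fun x hx => Or.inl hx.2
    obtain ⟨m, hm, hmin⟩ := Set.exists_min_image _ id hf hc
    have e1 := h m fun x hx => by
      by_contra hc'
      exact absurd (hmin x ⟨hx.trans hm.1, hc'⟩) (not_le.2 hx)
    exact hm.2 (by rw [← ((C_agree e1).1 m le_rfl).2, hl m hm.1])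
  simpa using (C l).inv_mem (h l key)

lemma R.posAt {c c' : A} (h : R c c') {p : ℝ} (hp : PosAt c p) : PosAt c' p := by
  have e1 := C_agree (h p fun x hx => (hp.1.1 x hx).1)
  have ht : Triv c' p := ⟨fun x hx => by
    rw [(e1.1 x hx.le).2, e1.2 x hx]; exact hp.1.1 x hx, fun x hx => by
    rw [(e1.1 x hx).1]; exact hp.1.2 x hx⟩
  by_cases hv : 0 < c.v p
  · exact ⟨ht, Or.inl (by rwa [(e1.1 p le_rfl).2])⟩
  have hv0 : c.v p = 0 := by rcases hp.2 with h | h | h <;> omega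
  obtain ⟨q, hq, hq'⟩ := ev_Ioo (ev_zero c p)
  have e2 := h q fun x hx => by
    rcases lt_trichotomy x p with h' | h' | h'
    · exact (hp.1.1 x h').1
    · rw [h', hv0]
    · exact (hq' x h' hx.le).1
  have := hp.mul_nn (e2.1.nn hq)
  simpa using this

lemma R.eq_of_v {c c' : A} (h : R c c') (hv : ∀ x, c.v x = 0) : c' = c := by
  refine ext' fun x => ?_
  have e := C_agree (h (x + 1) fun y _ => hv y)
  exact ⟨(e.1 x (by linarith)).2, e.2 x (by linarith), (e.1 x (by linarith)).1⟩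

/-- the leaf of an element -/
def X (a : A) (t : ℝ) : ℤ := a.v (a.d.symm t)

lemma X_mul {e : A} {n : ℝ} (he : e ∈ C n) (a : A) {t : ℝ} (ht : t ≤ n) : X (e * a) t = X a t := by
  simp [X, fix_symm (he.1.2 t ht), C_v he ht]

def GG : Subgroup (Equiv.Perm A) where
  carrier := {π | (∀ a b, R (a⁻¹ * b) ((π a)⁻¹ * π b)) ∧
    ∃ m : ℝ, ∀ a, (∃ t < m, X a t ≠ 0) → π a = a}
  one_mem' := ⟨fun a b => R.refl _, 0, fun _ _ => rfl⟩
  mul_mem' := by
    rintro π ρ ⟨h1, m, hm⟩ ⟨h2, n, hn⟩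
    refine ⟨fun a b => (h2 a b).trans (h1 _ _), min m n, fun a ⟨t, ht, ha⟩ => ?_⟩
    rw [Equiv.Perm.mul_apply, hn a ⟨t, ht.trans_le (min_le_right _ _), ha⟩,
      hm a ⟨t, ht.trans_le (min_le_left _ _), ha⟩]
  inv_mem' := by
    rintro π ⟨h1, m, hm⟩
    refine ⟨fun a b => ?_, m, fun a ha => ?_⟩
    · have := (h1 (π⁻¹ a) (π⁻¹ b)).symm
      simpa using this
    · rw [Equiv.Perm.inv_eq_iff_eq, hm a ha]

lemma GG_sm {π : Equiv.Perm A} (h : π ∈ GG) : StrictMono π := fun a b hab => by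
  obtain ⟨p, hp⟩ := lt_iff.1 hab
  exact lt_iff.2 ⟨p, (h.1 a b).posAt hp⟩

lemma le_iff' {a b : A} : a ≤ b ↔ a⁻¹ * b = 1 ∨ Pos (a⁻¹ * b) := by
  rw [le_iff_eq_or_lt, lt_iff, inv_mul_eq_one]

lemma Pos.conj {c : A} (h : Pos c) (g : A) : Pos (g⁻¹ * c * g) := ⟨_, h.choose_spec.conj g⟩

noncomputable def plus (π : Equiv.Perm A) (h : StrictMono π) : Equiv.Perm A where
  toFun a := max (π a) a
  invFun a := min (π.symm a) a
  left_inv a := by
    rcases le_total a (π a) with h1 | h1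
    · simp [max_eq_left h1, h1]
    · have : a ≤ π.symm a := h.le_iff_le.1 (by simpa using h1)
      simp [max_eq_right h1, this]
  right_inv a := by
    rcases le_total (π.symm a) a with h1 | h1
    · simp [min_eq_left h1, h1]
    · have : π a ≤ a := by simpa using h.monotone h1
      simp [min_eq_right h1, this]

lemma plus_mem {π : Equiv.Perm A} (h : π ∈ GG) : plus π (GG_sm h) ∈ GG := by
  obtain ⟨m, hm⟩ := h.2
  refine ⟨fun a b => ?_, m, fun a ha => ?_⟩
  swap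
  · show max (π a) a = a
    rw [hm a ha, max_self]
  show R _ ((max (π a) a)⁻¹ * max (π b) b)
  have hR := h.1 a b
  rcases le_total a (π a) with h1 | h1 <;> rcases le_total b (π b) with h2 | h2
  · rwa [max_eq_left h1, max_eq_left h2]
  · rw [max_eq_left h1, max_eq_right h2]
    intro l hl
    have e := hR l hl
    have := C_convex' (l := l) (x := (a⁻¹ * b)⁻¹ * ((π a)⁻¹ * b)) (y := b⁻¹ * π b) ?_ ?_
      (by simpa [mul_assoc] using e)
    · exact this.1
    · rcases le_iff'.1 h1 with h3 | h3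
      · left; rw [← inv_mul_eq_one.1 h3]; simp
      · right; simpa [mul_assoc] using h3.conj (a⁻¹ * b)
    · rcases le_iff'.1 h2 with h3 | h3
      · left; rw [inv_mul_eq_one.1 h3]; simp
      · right; simpa [mul_assoc] using h3
  · rw [max_eq_right h1, max_eq_left h2]
    intro l hl
    have e := hR l hl
    have := C_convex (l := l) (x := (a⁻¹ * b)⁻¹ * ((π a)⁻¹ * b)) (y := b⁻¹ * π b) ?_
      (le_iff'.1 h2) (by simpa [mul_assoc] using e)
    · simpa [mul_assoc] using this.2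
    · rcases le_iff'.1 h1 with h3 | h3
      · left; rw [inv_mul_eq_one.1 h3]; simp
      · right; simpa [mul_assoc] using h3.conj (a⁻¹ * b)
  · rw [max_eq_right h1, max_eq_right h2]; exact R.refl _

/-- conditional left multiplications -/
noncomputable def cond (f : (ℝ → ℤ) → A) (n : ℝ) (hf : ∀ x, f x ∈ C n)
    (hloc : ∀ x y : ℝ → ℤ, (∀ t ≤ n, x t = y t) → f x = f y) : Equiv.Perm A where
  toFun a := f (X a) * a
  invFun a := (f (X a))⁻¹ * a
  left_inv a := by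
    show (f (X (f (X a) * a)))⁻¹ * (f (X a) * a) = a
    rw [hloc (X (f (X a) * a)) (X a) fun t ht => X_mul (hf _) a ht]; simp
  right_inv a := by
    show f (X ((f (X a))⁻¹ * a)) * ((f (X a))⁻¹ * a) = a
    rw [hloc (X ((f (X a))⁻¹ * a)) (X a) fun t ht => X_mul ((C n).inv_mem (hf _)) a ht]; simp

lemma cond_mem (f : (ℝ → ℤ) → A) (n : ℝ) (hf : ∀ x, f x ∈ C n)
    (hloc : ∀ x y : ℝ → ℤ, (∀ t ≤ n, x t = y t) → f x = f y)
    (hs : ∀ x : ℝ → ℤ, (∃ t < n, x t ≠ 0) → f x = 1) : cond f n hf hloc ∈ GG := by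
  refine ⟨fun a b l hl => ?_, n, fun a ha => ?_⟩
  swap
  · show f (X a) * a = a
    rw [hs _ ha, one_mul]
  show (a⁻¹ * b)⁻¹ * ((f (X a) * a)⁻¹ * (f (X b) * b)) ∈ C l
  rcases le_or_gt (b.d l) n with h | h
  · have := C_conj b (C_mono h ((C n).mul_mem ((C n).inv_mem (hf (X a))) (hf (X b))))
    simpa [mul_assoc] using this
  · rw [hloc (X a) (X b) fun t ht => ?_]
    · simp
    · have := hl (b.d.symm t) (by simpa using b.d.symm.strictMono (ht.trans_lt h))
      simp only [mul_v, inv_v, OrderIso.apply_symm_apply] at this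
      unfold X; omega

end Pool.Agent.H18.Lsim
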