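import Pool.Agent.H18.Lsim2

set_option autoImplicit false

open Filter Topology Set

namespace Pool.Agent.H18.Lsim
open A

/-- the lattice-ordered group -/
def G : Type := GG

noncomputable instance : Group G := inferInstanceAs (Group GG)

def G.ap (π : G) : Equiv.Perm A := π.1

lemma G.mem (π : G) : π.ap ∈ GG := π.2
lemma G.sm (π : G) : StrictMono π.ap := GG_sm π.2
@[simp] lemma ap_mul (π ρ : G) (a : A) : (π * ρ).ap a = π.ap (ρ.ap a) := rfl
@[simp] lemma ap_one (a : A) : (1 : G).ap a = a := rfl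
@[simp] lemma ap_inv_ap (π : G) (a : A) : (π⁻¹).ap (π.ap a) = a := by
  rw [← ap_mul, inv_mul_cancel, ap_one]
@[simp] lemma ap_ap_inv (π : G) (a : A) : π.ap ((π⁻¹).ap a) = a := by
  rw [← ap_mul, mul_inv_cancel, ap_one]
lemma G.ext' {π ρ : G} (h : ∀ a, π.ap a = ρ.ap a) : π = ρ := Subtype.ext (Equiv.ext h)

noncomputable def pl (π : G) : G := ⟨plus π.ap π.sm, plus_mem π.2⟩
lemma ap_pl (π : G) (a : A) : (pl π).ap a = max (π.ap a) a := rfl

noncomputable def sup' (π ρ : G) : G := ρ * pl (ρ⁻¹ * π)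
lemma ap_sup' (π ρ : G) (a : A) : (sup' π ρ).ap a = max (π.ap a) (ρ.ap a) := by
  simp only [sup', ap_mul, ap_pl]
  rw [ρ.sm.monotone.map_max]; simp

lemma inv_le_inv' {π ρ : G} (h : ∀ a, π.ap a ≤ ρ.ap a) (a : A) : (ρ⁻¹).ap a ≤ (π⁻¹).ap a := by
  have := (ρ⁻¹).sm.monotone (h ((π⁻¹).ap a))
  simpa using this

noncomputable instance : Lattice G where
  le π ρ := ∀ a, π.ap a ≤ ρ.ap a
  le_refl _ _ := le_rfl
  le_trans _ _ _ h1 h2 a := (h1 a).trans (h2 a)
  le_antisymm _ _ h1 h2 := G.ext' fun a => le_antisymm (h1 a) (h2 a)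
  sup := sup'
  le_sup_left π ρ a := by rw [ap_sup']; exact le_max_left _ _
  le_sup_right π ρ a := by rw [ap_sup']; exact le_max_right _ _
  sup_le π ρ σ h1 h2 a := by rw [ap_sup']; exact max_le (h1 a) (h2 a)
  inf π ρ := (sup' π⁻¹ ρ⁻¹)⁻¹
  inf_le_left π ρ a := by
    have := inv_le_inv' (π := π⁻¹) (ρ := sup' π⁻¹ ρ⁻¹)
      (fun a => by rw [ap_sup']; exact le_max_left _ _) a
    simpa using this
  inf_le_right π ρ a := by
    have := inv_le_inv' (π := ρ⁻¹) (ρ := sup' π⁻¹ ρ⁻¹)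
      (fun a => by rw [ap_sup']; exact le_max_right _ _) a
    simpa using this
  le_inf π ρ σ h1 h2 a := by
    have := inv_le_inv' (π := sup' ρ⁻¹ σ⁻¹) (ρ := π⁻¹)
      (fun a => by rw [ap_sup']; exact max_le (inv_le_inv' h1 a) (inv_le_inv' h2 a)) a
    simpa using this

lemma le_def {π ρ : G} : π ≤ ρ ↔ ∀ a, π.ap a ≤ ρ.ap a := Iff.rfl
lemma ap_sup (π ρ : G) (a : A) : (π ⊔ ρ).ap a = max (π.ap a) (ρ.ap a) := ap_sup' π ρ a

instance : MulLeftMono G := ⟨fun σ _ _ h a => σ.sm.monotone (h a)⟩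
instance : MulRightMono G := ⟨fun σ _ _ h a => h (σ.ap a)⟩

noncomputable def tau (l : ℝ) : A :=
  ⟨fun x => if x = l then 1 else 0, 0, OrderIso.refl ℝ,
    (Set.finite_singleton l).subset (fun x hx => by by_contra hc; simp_all),
    (1 : A).lin, (1 : A).bdd⟩

noncomputable def zed : A :=
  ⟨0, fun x => if x = 0 then 1 else 0, OrderIso.refl ℝ,
    (Set.finite_singleton 0).subset (fun x hx => by by_contra hc; simp_all),
    (1 : A).lin, (1 : A).bdd⟩

@[simp] lemma tau_v (l x : ℝ) : (tau l).v x = if x = l then 1 else 0 := rfl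
@[simp] lemma tau_k (l x : ℝ) : (tau l).k x = 0 := rfl
@[simp] lemma tau_d (l x : ℝ) : (tau l).d x = x := rfl
@[simp] lemma tau_ds (l x : ℝ) : (tau l).d.symm x = x := rfl
@[simp] lemma zed_v (x : ℝ) : zed.v x = 0 := rfl
@[simp] lemma zed_k (x : ℝ) : zed.k x = if x = 0 then 1 else 0 := rfl
@[simp] lemma zed_d (x : ℝ) : zed.d x = x := rfl
@[simp] lemma zed_ds (x : ℝ) : zed.d.symm x = x := rfl

lemma exists_push (p m : ℝ) : ∃ a : A, (∀ x, a.v x = 0) ∧ a.d p < m := by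
  set t := min p m - 2 with ht
  have h1 : t < p := by have := min_le_left p m; linarith
  have h2 : t + 1 < m := by have := min_le_right p m; linarith
  set l := (p - t)⁻¹ with hl
  have hl0 : 0 < l := inv_pos.2 (by linarith)
  let h : ℝ → ℝ := fun x => if x ≤ t then x else t + l * (x - t)
  have hsm : StrictMono h := by
    intro x y hxy
    simp only [h]
    split_ifs with hx hy hy
    · exact hxy
    · have : 0 < l * (y - t) := mul_pos hl0 (by linarith)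
      linarith
    · linarith
    · nlinarith
  have hsj : Function.Surjective h := by
    intro y
    by_cases hy : y ≤ t
    · exact ⟨y, by simp [h, hy]⟩
    · have : 0 < l⁻¹ * (y - t) := mul_pos (inv_pos.2 hl0) (by linarith)
      refine ⟨t + l⁻¹ * (y - t), ?_⟩
      simp only [h]
      rw [if_neg (by linarith)]
      field_simp; ring
  refine ⟨⟨0, 0, hsm.orderIsoOfSurjective h hsj, by simp, fun q => ?_, ⟨t, fun x hx => ?_⟩⟩,
    fun _ => rfl, ?_⟩
  · show ∃ l : ℝ, 0 < l ∧ ∀ᶠ x in 𝓝[>] q, h x = h q + l * (x - q)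
    rcases lt_or_ge q t with hq | hq
    · refine ⟨1, one_pos, ?_⟩
      filter_upwards [nhdsWithin_le_nhds (Iio_mem_nhds hq)] with x hx
      have hx' : x < t := hx
      simp only [h, if_pos hx'.le, if_pos hq.le]; ring
    · refine ⟨l, hl0, ?_⟩
      filter_upwards [self_mem_nhdsWithin] with x hx
      have hx' : q < x := hx
      simp only [h]
      rw [if_neg (by linarith)]
      split_ifs with h3
      · rw [le_antisymm h3 hq]
      · ring
  · show h x = x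
    simp [h, hx]
  · show h p < m
    simp only [h]
    rw [if_neg (by linarith), hl, inv_mul_cancel₀ (by linarith)]
    exact h2

lemma exists_move (a0 a1 : A) : ∃ σ : G, σ.ap a0 = a1 := by
  classical
  obtain ⟨m, hm⟩ := exists_triv (a1 * a0⁻¹)
  obtain ⟨m', hm'⟩ := exists_triv a0⁻¹
  set n := min m m' - 1 with hn
  have h1 : n < m := by have := min_le_left m m'; linarith
  have h2 : n < m' := by have := min_le_right m m'; linarith
  have hs : a1 * a0⁻¹ ∈ C n := ⟨hm n h1.le, ((hm m le_rfl).1 n h1).1⟩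
  let f : (ℝ → ℤ) → A := fun x => if ∀ t ≤ n, x t = 0 then a1 * a0⁻¹ else 1
  have hf : ∀ x, f x ∈ C n := fun x => by
    simp only [f]; split_ifs
    · exact hs
    · exact (C n).one_mem
  have hloc : ∀ x y : ℝ → ℤ, (∀ t ≤ n, x t = y t) → f x = f y := fun x y h => by
    have : (∀ t ≤ n, x t = 0) ↔ (∀ t ≤ n, y t = 0) :=
      forall_congr' fun t => forall_congr' fun ht => by rw [h t ht]
    simp only [f, this]
  refine ⟨⟨cond f n hf hloc, cond_mem f n hf hloc fun x ⟨t, ht, hx⟩ => ?_⟩, ?_⟩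
  · exact if_neg fun h => hx (h t ht.le)
  · show f (X a0) * a0 = a1
    have : ∀ t ≤ n, X a0 t = 0 := fun t ht => by
      have := ((hm' m' le_rfl).1 t (ht.trans_lt h2)).1
      simpa [X] using this
    simp only [f]; rw [if_pos this]; simp

lemma dominate {π : G} (h1 : 1 ≤ π) {a0 : A} (h0 : a0 < π.ap a0) (m : ℝ) :
    ∃ σ : G, ∀ ρ : G, (∀ a, (∃ t < m, X a t ≠ 0) → ρ.ap a = a) → ρ ≤ σ * π * σ⁻¹ := by
  obtain ⟨p, hp⟩ := lt_iff.1 h0
  obtain ⟨a1, hv, hd⟩ := exists_push p (m - 1)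
  obtain ⟨σ, hσ⟩ := exists_move a0 a1
  refine ⟨σ, fun ρ hρ b => ?_⟩
  set π' := σ * π * σ⁻¹ with hπ'
  by_cases hb : ∃ t < m, X b t ≠ 0
  · rw [hρ b hb]
    have := σ.sm.monotone (h1 ((σ⁻¹).ap b))
    simpa [hπ'] using this
  push Not at hb
  have hb' : ∀ x < b.d.symm m, b.v x = 0 := fun x hx => by
    have := hb (b.d x) (by simpa using b.d.strictMono hx)
    simpa [X] using this
  have hk : PosAt (a1⁻¹ * π'.ap a1) p := by
    have := (σ.mem.1 a0 (π.ap a0)).posAt hp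
    have e : π'.ap a1 = σ.ap (π.ap a0) := by rw [← hσ]; simp [hπ']
    rw [e, ← hσ]; exact this
  have e1 := π'.mem.1 a1 b (b.d.symm m) fun x hx => by simp [hv, hb' x hx]
  have hlt : b.d.symm (m - 1) < b.d.symm m := b.d.symm.strictMono (by linarith)
  have e2 := ρ.mem.1 (tau (m - 1)) b (b.d.symm (m - 1)) fun x hx => by
    have : b.d x < m - 1 := by simpa using b.d.strictMono hx
    simp [hb' x (hx.trans hlt), this.ne]
  rw [hρ (tau (m - 1)) ⟨m - 1, by linarith, by simp [X]⟩] at e2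
  have e3 := hk.conj (a1⁻¹ * b)
  have hr : (a1⁻¹ * b).d.symm p < b.d.symm (m - 1) := by
    simpa using hd
  have e4 := ((((C _).inv_mem e2).1.nn hr).mul_posAt e3).mul_nn (e1.1.nn (hr.trans hlt))
  refine le_of_lt (lt_iff.2 ⟨(a1⁻¹ * b).d.symm p, ?_⟩)
  convert e4 using 1
  simp [mul_assoc]

lemma simple (H : Subgroup G) (hn : H.Normal)
    (hc : ∀ a b g : G, a ∈ H → b ∈ H → a ≤ g → g ≤ b → g ∈ H)
    (hl : ∀ a b : G, a ∈ H → b ∈ H → a ⊔ b ∈ H ∧ a ⊓ b ∈ H) : H = ⊥ ∨ H = ⊤ := by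
  by_cases hb : H = ⊥
  · exact Or.inl hb
  right
  obtain ⟨π, hπ, hπ1⟩ := (Subgroup.bot_or_exists_ne_one H).resolve_left hb
  obtain ⟨π', hπ', h1, a0, h0⟩ : ∃ π' ∈ H, 1 ≤ π' ∧ ∃ a0, a0 < π'.ap a0 := by
    obtain ⟨a, ha⟩ : ∃ a, π.ap a ≠ a := by
      by_contra hc'
      push Not at hc'
      exact hπ1 (G.ext' hc')
    rcases lt_or_gt_of_ne ha with h | h
    · refine ⟨π⁻¹ ⊔ 1, (hl _ _ (H.inv_mem hπ) H.one_mem).1, le_sup_right, a, ?_⟩
      rw [ap_sup]
      exact lt_max_of_lt_left (by simpa using (π⁻¹).sm h)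
    · refine ⟨π ⊔ 1, (hl _ _ hπ H.one_mem).1, le_sup_right, a, ?_⟩
      rw [ap_sup]
      exact lt_max_of_lt_left h
  rw [eq_top_iff]
  intro ρ _
  obtain ⟨m, hm⟩ := ρ.mem.2
  obtain ⟨σ, hσ⟩ := dominate h1 h0 m
  have hH : σ * π' * σ⁻¹ ∈ H := hn.conj_mem _ hπ' σ
  refine hc _ _ ρ (H.inv_mem hH) hH ?_ (hσ ρ hm)
  have := hσ ρ⁻¹ fun a ha => by
    have := congrArg (ρ⁻¹).ap (hm a ha)
    simpa using this.symm
  intro a
  simpa using inv_le_inv' this a

lemma ap_mul_right (σ : G) (a κ : A) (hv : ∀ x, κ.v x = 0) : σ.ap (a * κ) = σ.ap a * κ := by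
  have := (σ.mem.1 a (a * κ)).eq_of_v (by simpa using hv)
  rw [inv_mul_cancel_left] at this
  exact inv_mul_eq_iff_eq_mul.1 this

def kap (π : G) (a : A) : A := a⁻¹ * π.ap a

lemma ap_eq (π : G) (a : A) : π.ap a = a * kap π a := by simp [kap]

def NN0 : Subgroup G where
  carrier := {π | (∀ a x, (kap π a).v x = 0 ∧ (kap π a).d x = x) ∧
    ∀ a l c, R (tau l) c → (kap π (a * c)).k l = -(kap π a).k l}
  one_mem' := ⟨by simp [kap], by simp [kap]⟩
  mul_mem' := by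
    rintro π ρ ⟨h1, h2⟩ ⟨h3, h4⟩
    have key : ∀ a, kap (π * ρ) a = kap π a * kap ρ a := fun a => by
      rw [kap, ap_mul, ap_eq ρ a, ap_mul_right _ _ _ fun x => (h3 a x).1, ← mul_assoc]; rfl
    refine ⟨fun a x => ?_, fun a l c hc => ?_⟩
    · simp [key, h1, h3]
    · simp only [key, mul_k, h3, h2 a l c hc, h4 a l c hc]; ring
  inv_mem' := by
    rintro π ⟨h1, h2⟩
    have hs : ∀ a x, (kap π a).d.symm x = x := fun a x => fix_symm (h1 a x).2
    have key : ∀ a, kap π⁻¹ a = (kap π a)⁻¹ := fun a => by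
      have : a = π.ap a * (kap π a)⁻¹ := by simp [kap]
      rw [kap, inv_mul_eq_iff_eq_mul]
      conv_lhs => rw [this]
      rw [ap_mul_right _ _ _ fun x => by simp [h1], ap_inv_ap]
    refine ⟨fun a x => ?_, fun a l c hc => ?_⟩
    · simp [key, h1, hs]
    · simp only [key, inv_k, hs, h2 a l c hc]

lemma NN0_normal : NN0.Normal := ⟨by
  rintro π ⟨h1, h2⟩ σ
  have key : ∀ b, kap (σ * π * σ⁻¹) b = kap π ((σ⁻¹).ap b) := fun b => by
    rw [kap, ap_mul, ap_mul, ap_eq π, ap_mul_right _ _ _ fun x => (h1 _ x).1]; simp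
  refine ⟨fun a x => by rw [key]; exact h1 _ x, fun a l c hc => ?_⟩
  rw [key, key]
  have := h2 ((σ⁻¹).ap a) l _ (hc.trans (by simpa using (σ⁻¹).mem.1 a (a * c)))
  simpa using this⟩

lemma NN0_triv {π : G} (h : π ∈ NN0) (h1 : 1 ≤ π) : π = 1 := by
  refine G.ext' fun a => ?_
  rcases le_iff'.1 (h1 a) with h2 | ⟨p, hp⟩
  · exact (inv_mul_eq_one.1 h2).symm
  exfalso
  change PosAt (kap π a) p at hp
  have hk : 0 < (kap π a).k p := by
    rcases hp.2 with h3 | h3 | ⟨_, _, h3⟩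
    · rw [(h.1 a p).1] at h3; exact absurd h3 (lt_irrefl _)
    · exact h3.2
    · obtain ⟨x, hx⟩ := h3.exists
      rw [(h.1 a x).2] at hx; exact absurd hx (lt_irrefl _)
  have h3 := h.2 a p _ (R.refl _)
  have hs : ∀ a x, (kap π a).d.symm x = x := fun a x => fix_symm (h.1 a x).2
  have h4 := π.mem.1 a (a * tau p) p fun x hx => by simp [hx.ne]
  have h5 : PosAt (kap π (a * tau p))⁻¹ p := by
    refine ⟨⟨fun x hx => ⟨by simp [h.1], ?_⟩, fun x _ => by simp [hs]⟩, Or.inr (Or.inl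
      ⟨by simp [h.1], by simp [hs, h3, hk]⟩)⟩
    have h6 := (h4.1.1 x hx).2
    rw [ap_eq π a, ap_eq π (a * tau p)] at h6
    have e : (a⁻¹ * (a * tau p))⁻¹ * ((a * kap π a)⁻¹ * (a * tau p * kap π (a * tau p))) =
      (tau p)⁻¹ * ((kap π a)⁻¹ * (tau p * kap π (a * tau p))) := by simp [mul_assoc]
    rw [e] at h6
    simp [hs, h.1, (hp.1.1 x hx).2] at h6
    simp [hs, h6]
  rcases le_iff'.1 (h1 (a * tau p)) with h6 | h6
  · change kap π (a * tau p) = 1 at h6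
    rw [h6] at h5
    exact not_pos_one ⟨p, by simpa using h5⟩
  · change Pos (kap π (a * tau p)) at h6
    exact not_pos_one (by simpa using h6.mul ⟨p, h5⟩)

open Classical in
noncomputable def f0 (x : ℝ → ℤ) : A :=
  if ∀ t < 0, x t = 0 then (if Even (x 0) then zed else zed⁻¹) else 1

lemma zed_C : zed ∈ C 0 := ⟨⟨fun x hx => by simp [hx.ne], by simp⟩, rfl⟩

lemma f0_C (x : ℝ → ℤ) : f0 x ∈ C 0 := by
  unfold f0; split_ifs
  · exact zed_C
  · exact (C 0).inv_mem zed_C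
  · exact (C 0).one_mem

lemma f0_loc (x y : ℝ → ℤ) (h : ∀ t ≤ 0, x t = y t) : f0 x = f0 y := by
  have : (∀ t < 0, x t = 0) ↔ (∀ t < 0, y t = 0) :=
    forall_congr' fun t => forall_congr' fun ht => by rw [h t ht.le]
  classical
  unfold f0
  rw [h 0 le_rfl]
  by_cases h3 : ∀ t < 0, x t = 0
  · rw [if_pos h3, if_pos (this.1 h3)]
  · rw [if_neg h3, if_neg (fun h => h3 (this.2 h))]

noncomputable def pi0 : G :=
  ⟨cond f0 0 f0_C f0_loc, cond_mem f0 0 f0_C f0_loc fun _ ⟨t, ht, hx⟩ =>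
    if_neg fun h => hx (h t ht)⟩

lemma pi0_ap (a : A) : pi0.ap a = f0 (X a) * a := rfl

lemma f0_vd (x : ℝ → ℤ) (t : ℝ) : (f0 x).v t = 0 ∧ (f0 x).d t = t := by
  unfold f0; split_ifs <;> simp

lemma f0_k (x : ℝ → ℤ) {t : ℝ} (ht : t ≠ 0) : (f0 x).k t = 0 := by
  unfold f0; split_ifs <;> simp [ht]

lemma pi0_mem : pi0 ∈ NN0 := by
  have hk : ∀ a l, (kap pi0 a).k l = (f0 (X a)).k (a.d l) := fun a l => by
    simp [kap, pi0_ap, f0_vd]
  refine ⟨fun a x => by simp [kap, pi0_ap, f0_vd], fun a l c hc => ?_⟩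
  have e := (C_agree (hc l fun x hx => by simp [hx.ne])).1
  simp only [tau_d, tau_v] at e
  rw [hk, hk, mul_d, (e l le_rfl).1]
  by_cases h0 : a.d l = 0
  swap
  · rw [f0_k _ h0, f0_k _ h0, neg_zero]
  have hX : ∀ t ≤ 0, X (a * c) t = X a t + if t = 0 then 1 else 0 := fun t ht => by
    have h1 : a.d.symm t ≤ l := by rw [← h0] at ht; simpa using a.d.symm.monotone ht
    have h2 : a.d.symm t = l ↔ t = 0 := by rw [OrderIso.symm_apply_eq, h0]
    simp only [X, mul_ds, mul_v, fix_symm (e _ h1).1, (e _ h1).2, (e _ h1).1, h2]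
  have h1 : (∀ t < 0, X (a * c) t = 0) ↔ (∀ t < 0, X a t = 0) :=
    forall_congr' fun t => forall_congr' fun ht => by rw [hX t ht.le, if_neg ht.ne, add_zero]
  have h2 : Even (X (a * c) 0) ↔ ¬ Even (X a 0) := by
    rw [hX 0 le_rfl, if_pos rfl, Int.even_add_one]
  unfold f0
  rw [h0]
  by_cases h3 : ∀ t < 0, X a t = 0
  · rw [if_pos h3, if_pos (h1.2 h3)]
    by_cases h4 : Even (X a 0)
    · rw [if_pos h4, if_neg (fun h => h2.1 h h4)]; simp
    · rw [if_neg h4, if_pos (h2.2 h4)]; simp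
  · rw [if_neg h3, if_neg (fun h => h3 (h1.1 h))]; simp

lemma pi0_one : pi0.ap 1 = zed := by
  rw [pi0_ap, mul_one, f0, if_pos (by simp [X]), if_pos (by simp [X])]

lemma one_lt_zed : 1 < zed := lt_iff.2 ⟨0, by
  simpa using (show PosAt zed 0 from ⟨zed_C.1, Or.inr (Or.inl ⟨rfl, by simp⟩)⟩)⟩

lemma NN0_ne_bot : NN0 ≠ ⊥ := fun h => by
  have h1 := pi0_mem
  rw [h, Subgroup.mem_bot] at h1
  have := pi0_one
  rw [h1, ap_one] at this
  exact one_lt_zed.ne this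

lemma NN0_ne_top : NN0 ≠ ⊤ := fun h => by
  have h1 := NN0_triv (π := pi0 ⊔ 1) (h ▸ Subgroup.mem_top _) le_sup_right
  have h2 := ap_sup pi0 1 1
  rw [h1, pi0_one, ap_one, max_eq_left one_lt_zed.le] at h2
  exact one_lt_zed.ne h2

lemma NN0_convex (a b g : G) (ha : a ∈ NN0) (hb : b ∈ NN0) (h1 : a ≤ g) (h2 : g ≤ b) :
    g ∈ NN0 := by
  have h3 := NN0_triv (NN0.mul_mem (NN0.inv_mem ha) hb) (by simpa using h1.trans h2)
  rw [inv_mul_eq_one] at h3
  rw [le_antisymm h2 (h3 ▸ h1)]; exact hb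

end Pool.Agent.H18.Lsim
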