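import Mathlib

set_option autoImplicit false

namespace Pool.Agent.H18.MinBasis
open Finset

noncomputable def pr (i : ℕ) : ℕ :=
  Classical.choose (Nat.exists_prime_lt_and_le_two_mul (2 ^ i) (by positivity))

lemma pr_prime (i : ℕ) : (pr i).Prime :=
  (Classical.choose_spec (Nat.exists_prime_lt_and_le_two_mul (2 ^ i) (by positivity))).1

lemma pr_gt (i : ℕ) : 2 ^ i < pr i :=
  (Classical.choose_spec (Nat.exists_prime_lt_and_le_two_mul (2 ^ i) (by positivity))).2.1

lemma pr_le (i : ℕ) : pr i ≤ 2 ^ (i + 1) := by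
  have := (Classical.choose_spec (Nat.exists_prime_lt_and_le_two_mul (2 ^ i) (by positivity))).2.2
  rw [pow_succ, mul_comm]; exact this

lemma pr_lt {i j : ℕ} (h : i < j) : pr i < pr j := by
  have h1 := pr_le i
  have h2 := pr_gt j
  have h3 : 2 ^ (i + 1) ≤ 2 ^ j := Nat.pow_le_pow_right (by norm_num) h
  omega

lemma pr_inj {i j : ℕ} (h : pr i = pr j) : i = j := by
  rcases lt_trichotomy i j with h1 | h1 | h1
  · have := pr_lt h1; omega
  · exact h1
  · have := pr_lt h1; omega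

def lam (y : ℕ) : ℕ := Nat.log 2 (Nat.sqrt y)

lemma le_lam {k y : ℕ} (hy : y ≠ 0) : k ≤ lam y ↔ 4 ^ k ≤ y := by
  unfold lam
  have hs : Nat.sqrt y ≠ 0 := by
    intro h; exact hy (Nat.sqrt_eq_zero.mp h)
  rw [Nat.le_log_iff_pow_le (by norm_num) hs, Nat.le_sqrt']
  have : (2 ^ k) ^ 2 = 4 ^ k := by
    rw [← pow_mul, mul_comm, pow_mul]; norm_num
  rw [this]

lemma lam_lt {k y : ℕ} (hy : y ≠ 0) : lam y < k ↔ y < 4 ^ k := by
  rw [← not_le, ← not_le, le_lam hy]

lemma lam_eq {k y : ℕ} (h1 : 4 ^ k ≤ y) (h2 : y < 4 ^ (k + 1)) : lam y = k := by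
  have hy : y ≠ 0 := by
    have : 0 < 4 ^ k := by positivity
    omega
  have a := (le_lam hy).mpr h1
  have b := (lam_lt hy).mpr h2
  omega

def InB (y : ℕ) : Prop := ∃ i, i ≤ lam y ∧ lam y < i + 9 ∧ pr i ∣ y

def nn (J a : ℕ) : ℕ := (3 - a % 3) * 4 ^ (20 * J + 10)

def Rem (J a y : ℕ) : Prop :=
  y ≤ nn J a ∧ (nn J a - y < 4 ^ (20 * J) ∨
    ∃ i, i ≤ 20 * J + 10 ∧ 20 * J + 10 < i + 9 ∧ pr i ∣ nn J a - y)

def I (t : ℕ) : Finset ℕ := Ico (t ^ 2) ((t + 1) ^ 2)

lemma mem_I {t y : ℕ} : y ∈ I t ↔ Nat.sqrt y = t := by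
  unfold I
  rw [mem_Ico, eq_comm, Nat.eq_sqrt']

open Classical in
noncomputable def core (a t : ℕ) : Finset ℕ :=
  (I t).filter (fun y => (InB y ∧ y % 3 ≠ 2 ∧ ¬ Rem (Nat.log 2 t / 20) a y) ∨
    y = nn (Nat.log 2 t / 20) a - a)

lemma mem_core {a t y : ℕ} : y ∈ core a t ↔ y ∈ I t ∧
    ((InB y ∧ y % 3 ≠ 2 ∧ ¬ Rem (Nat.log 2 t / 20) a y) ∨ y = nn (Nat.log 2 t / 20) a - a) := by
  classical
  unfold core
  convert mem_filter

def cand (a t : ℕ) : Finset ℕ := (I t).filter (fun y => y % 3 = 1 - a % 3)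

lemma card_mult (s l p : ℕ) (hp : 0 < p) :
    ((Ico s (s + l)).filter (fun y => p ∣ y)).card ≤ l / p + 1 := by
  rw [← card_range (l / p + 1)]
  apply card_le_card_of_injOn (fun y => (y - s) / p)
  · intro y hy
    simp only [coe_filter, mem_Ico, Set.mem_ofPred_eq] at hy
    simp only [coe_range, Set.mem_Iio]
    have : (y - s) / p ≤ l / p := Nat.div_le_div_right (by omega)
    omega
  · intro y hy z hz hyz
    simp only [coe_filter, mem_Ico, Set.mem_ofPred_eq] at hy hz
    simp only at hyz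
    have h1 := Nat.div_add_mod (y - s) p
    have h2 := Nat.div_add_mod (z - s) p
    have h3 := Nat.mod_lt (y - s) hp
    have h4 := Nat.mod_lt (z - s) hp
    rw [hyz] at h1
    rcases le_total y z with h | h
    · have hd : p ∣ z - y := Nat.dvd_sub hz.2 hy.2
      have : z - y < p := by omega
      have := Nat.eq_zero_of_dvd_of_lt hd this
      omega
    · have hd : p ∣ y - z := Nat.dvd_sub hy.2 hz.2
      have : y - z < p := by omega
      have := Nat.eq_zero_of_dvd_of_lt hd this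
      omega

lemma card_core (a t : ℕ) (ht : 2 ^ 20 ≤ t) : (core a t).card ≤ 10000 := by
  classical
  set L := Nat.log 2 t with hL
  have ht0 : t ≠ 0 := by
    have : 0 < 2 ^ 20 := by positivity
    omega
  have hL20 : 20 ≤ L := Nat.le_log_of_pow_le (by norm_num) ht
  have htL : t < 2 ^ (L + 1) := Nat.lt_pow_succ_log_self (by norm_num) t
  have hsub : core a t ⊆ insert (nn (L / 20) a - a)
      ((Icc (L - 8) L).biUnion (fun i => (I t).filter (fun y => pr i ∣ y))) := by
    intro y hy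
    rw [mem_core] at hy
    obtain ⟨hyI, hy⟩ := hy
    rw [mem_insert]
    rcases hy with ⟨⟨i, h1, h2, h3⟩, -, -⟩ | h
    · right
      have : lam y = L := by unfold lam; rw [mem_I.mp hyI]
      rw [mem_biUnion]
      exact ⟨i, mem_Icc.mpr ⟨by omega, by omega⟩, mem_filter.mpr ⟨hyI, h3⟩⟩
    · left; exact h
  have hb : ∀ i ∈ Icc (L - 8) L, ((I t).filter (fun y => pr i ∣ y)).card ≤ 1025 := by
    intro i hi
    rw [mem_Icc] at hi
    have e : I t = Ico (t ^ 2) (t ^ 2 + (2 * t + 1)) := by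
      unfold I; congr 1; ring
    rw [e]
    refine (card_mult _ _ _ (pr_prime i).pos).trans ?_
    have : (2 * t + 1) / pr i ≤ 1024 := by
      apply Nat.div_le_of_le_mul
      have h1 := pr_gt i
      have h2 : 2 ^ (L - 8) ≤ 2 ^ i := Nat.pow_le_pow_right (by norm_num) hi.1
      have h3 : 2 ^ (L + 1) = 512 * 2 ^ (L - 8) := by
        have : L + 1 = 9 + (L - 8) := by omega
        rw [this, pow_add]; norm_num
      omega
    omega
  have h1 := card_le_card hsub
  have h2 := card_insert_le (nn (L / 20) a - a)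
      ((Icc (L - 8) L).biUnion (fun i => (I t).filter (fun y => pr i ∣ y)))
  have h3 := card_biUnion_le_card_mul _ _ _ hb
  have h4 : (Icc (L - 8) L).card = 9 := by
    rw [Nat.card_Icc]; omega
  rw [h4] at h3
  omega

lemma card_cand (a t : ℕ) (ht : 2 ^ 20 ≤ t) : 10000 ≤ (cand a t).card := by
  have : (range 10000).card ≤ (cand a t).card := by
    apply card_le_card_of_injOn (fun k => 3 * (t ^ 2 / 3 + 1 + k) + (1 - a % 3))
    · intro k hk
      simp only [coe_range, Set.mem_Iio] at hk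
      simp only [cand, I, coe_filter, mem_Ico, Set.mem_ofPred_eq]
      have e : (t + 1) ^ 2 = t ^ 2 + (2 * t + 1) := by ring
      rw [e]
      norm_num at ht
      omega
    · intro k _ l _ h
      simp only at h
      omega
  simpa using this

lemma exists_blk (a t : ℕ) (ht : 2 ^ 20 ≤ t) :
    ∃ S : Finset ℕ, core a t ⊆ S ∧ S ⊆ core a t ∪ cand a t ∧ S.card = 10000 := by
  apply exists_subsuperset_card_eq subset_union_left (card_core a t ht)
  exact (card_cand a t ht).trans (card_le_card subset_union_right)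

noncomputable def blk (a t : ℕ) : Finset ℕ :=
  if h : 2 ^ 20 ≤ t then Classical.choose (exists_blk a t h) else ∅

lemma blk_spec (a t : ℕ) (ht : 2 ^ 20 ≤ t) :
    core a t ⊆ blk a t ∧ blk a t ⊆ core a t ∪ cand a t ∧ (blk a t).card = 10000 := by
  unfold blk
  rw [dif_pos ht]
  exact Classical.choose_spec (exists_blk a t ht)

lemma blk_le {a t y : ℕ} (h : y ∈ blk a t) : 2 ^ 20 ≤ t := by
  by_contra hc
  unfold blk at h
  rw [dif_neg hc] at h
  simp at h

noncomputable def par (J : ℕ) : ℕ :=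
  if h : lam (Nat.unpair J).1 / 20 < J then
    (if ((Nat.unpair J).1 ∈ blk (par (lam (Nat.unpair J).1 / 20)) (Nat.sqrt (Nat.unpair J).1)) ∧
      (Nat.unpair J).1 % 3 ≠ 2 then (Nat.unpair J).1 else 0)
  else 0
termination_by J
decreasing_by exact h

def AA : Set ℕ := {y | y = 0 ∨ y ∈ blk (par (lam y / 20)) (Nat.sqrt y)}

lemma par_cases (J : ℕ) : par J = 0 ∨
    (par J = (Nat.unpair J).1 ∧ par J ∈ AA ∧ par J % 3 ≠ 2) := by
  rw [par]
  split_ifs with h1 h2
  · right
    exact ⟨rfl, Or.inr h2.1, h2.2⟩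
  · left; rfl
  · left; rfl

lemma par_mem (J : ℕ) : par J ∈ AA := by
  rcases par_cases J with h | h
  · rw [h]; exact Or.inl rfl
  · exact h.2.1

lemma par_mod (J : ℕ) : par J % 3 ≠ 2 := by
  rcases par_cases J with h | h
  · rw [h]; norm_num
  · exact h.2.2

lemma par_le (J : ℕ) : par J ≤ J := by
  rcases par_cases J with h | h
  · omega
  · rw [h.1]; exact Nat.unpair_left_le J

lemma par_lt (J : ℕ) : par J < 4 ^ (20 * J) := by
  have h1 := par_le J
  have h2 : J < 4 ^ J := Nat.lt_pow_self (by norm_num)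
  have h3 : 4 ^ J ≤ 4 ^ (20 * J) := Nat.pow_le_pow_right (by norm_num) (by omega)
  omega

lemma four_mod (k : ℕ) : 4 ^ k % 3 = 1 := by
  rw [Nat.pow_mod]; norm_num

lemma nn_cases (J a : ℕ) (ha : a % 3 ≠ 2) :
    (a % 3 = 0 ∧ nn J a = 3 * 4 ^ (20 * J + 10)) ∨ (a % 3 = 1 ∧ nn J a = 2 * 4 ^ (20 * J + 10)) := by
  unfold nn
  have : a % 3 = 0 ∨ a % 3 = 1 := by omega
  rcases this with h | h
  · left; rw [h]; exact ⟨rfl, rfl⟩
  · right; rw [h]; exact ⟨rfl, rfl⟩

/-- structure of nonzero elements -/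
lemma mem_cases {y : ℕ} (hy : y ∈ AA) (h0 : y ≠ 0) :
    (InB y ∧ y % 3 ≠ 2 ∧ ¬ Rem (lam y / 20) (par (lam y / 20)) y) ∨
    y = nn (lam y / 20) (par (lam y / 20)) - par (lam y / 20) ∨
    y % 3 = 1 - par (lam y / 20) % 3 := by
  rcases hy with h | h
  · exact absurd h h0
  · have h1 := (blk_spec _ _ (blk_le h)).2.1 h
    rw [mem_union] at h1
    rcases h1 with h1 | h1
    · rw [mem_core] at h1
      rcases h1.2 with h2 | h2
      · left; exact h2
      · right; left; exact h2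
    · unfold cand at h1
      rw [mem_filter] at h1
      right; right; exact h1.2

lemma mem_mod {y : ℕ} (hy : y ∈ AA) : y % 3 ≠ 2 := by
  by_cases h0 : y = 0
  · rw [h0]; norm_num
  rcases mem_cases hy h0 with h | h | h
  · exact h.2.1
  · have h1 := par_lt (lam y / 20)
    have h2 := four_mod (20 * (lam y / 20) + 10)
    have h3 : 4 ^ (20 * (lam y / 20)) ≤ 4 ^ (20 * (lam y / 20) + 10) :=
      Nat.pow_le_pow_right (by norm_num) (by omega)
    rcases nn_cases (lam y / 20) _ (par_mod (lam y / 20)) with h4 | h4 <;> omega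
  · omega

lemma mem_of {y : ℕ} (hy : 4 ^ 20 ≤ y)
    (h : (InB y ∧ y % 3 ≠ 2 ∧ ¬ Rem (lam y / 20) (par (lam y / 20)) y) ∨
    y = nn (lam y / 20) (par (lam y / 20)) - par (lam y / 20)) : y ∈ AA := by
  right
  have ht : 2 ^ 20 ≤ Nat.sqrt y := by
    rw [Nat.le_sqrt']; norm_num at hy ⊢; exact hy
  apply (blk_spec _ _ ht).1
  rw [mem_core]
  exact ⟨mem_I.mpr rfl, h⟩

lemma par_eq {a : ℕ} (ha : a ∈ AA) (k : ℕ) (hk : 1 ≤ Nat.pair a k) : par (Nat.pair a k) = a := by
  by_cases h0 : a = 0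
  · rcases par_cases (Nat.pair a k) with h | h
    · rw [h, h0]
    · rw [h.1, Nat.unpair_pair]
  have hle : a ≤ Nat.pair a k := Nat.left_le_pair a k
  have hlt : lam a / 20 < Nat.pair a k := by
    have : lam a < a := by
      rw [lam_lt h0]; exact Nat.lt_pow_self (by norm_num)
    omega
  rw [par]
  simp only [Nat.unpair_pair]
  rw [dif_pos hlt, if_pos]
  refine ⟨?_, mem_mod ha⟩
  rcases ha with h | h
  · exact absurd h h0
  · exact h

lemma unique_aux (J : ℕ) {x y : ℕ} (hx : x ∈ AA) (hy : y ∈ AA) (hle : y ≤ x)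
    (hs : x + y = nn J (par J)) : x = par J ∨ y = par J := by
  have hp := par_lt J
  have hm := four_mod (20 * J + 10)
  have hpow : 4 ^ (20 * J) ≤ 4 ^ (20 * J + 10) := Nat.pow_le_pow_right (by norm_num) (by omega)
  have hpow2 : 4 ^ (20 * J + 10 + 1) = 4 * 4 ^ (20 * J + 10) := by rw [pow_succ]; ring
  have hpos : 0 < 4 ^ (20 * J) := by positivity
  have hn := nn_cases J _ (par_mod J)
  have hlx : lam x = 20 * J + 10 := lam_eq (by omega) (by omega)
  have hzx : lam x / 20 = J := by omega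
  have hx3 := mem_mod hx
  have hy3 := mem_mod hy
  rcases mem_cases hx (by omega) with h | h | h
  · rw [hzx] at h
    obtain ⟨⟨i, h1, h2, h3⟩, -, h4⟩ := h
    have hyN : 4 ^ (20 * J) ≤ y := by
      by_contra hc
      exact h4 ⟨by omega, Or.inl (by omega)⟩
    have hy0 : y ≠ 0 := by omega
    have hzy : lam y / 20 = J := by
      have a1 := (le_lam hy0).mpr hyN
      have a2 : lam y < 20 * J + 10 + 1 := (lam_lt hy0).mpr (by omega)
      omega
    rcases mem_cases hy hy0 with g | g | g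
    · rw [hzy] at g
      exfalso
      apply g.2.2
      refine ⟨by omega, Or.inr ⟨i, by omega, by omega, ?_⟩⟩
      have : nn J (par J) - y = x := by omega
      rw [this]; exact h3
    · rw [hzy] at g
      left; omega
    · rw [hzy] at g
      exfalso; omega
  · rw [hzx] at h
    right; omega
  · rw [hzx] at h
    exfalso; omega

lemma unique_rep (J : ℕ) {x y : ℕ} (hx : x ∈ AA) (hy : y ∈ AA)
    (hs : x + y = nn J (par J)) : x = par J ∨ y = par J := by
  rcases le_total y x with h | h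
  · exact unique_aux J hx hy h hs
  · exact (unique_aux J hy hx h (by omega)).symm

lemma three_dvd {i u v w d : ℕ} (hd : d ≠ 0) (hlt : d < 8 ^ i) (h1 : i ≤ u) (h2 : u < v)
    (h3 : v < w) (a : pr u ∣ d) (b : pr v ∣ d) (c : pr w ∣ d) : False := by
  have cop : ∀ {s t : ℕ}, s < t → Nat.Coprime (pr s) (pr t) := fun h =>
    (Nat.coprime_primes (pr_prime _) (pr_prime _)).mpr (pr_lt h).ne
  have h4 : pr u * pr v ∣ d := (cop h2).mul_dvd_of_dvd_of_dvd a b
  have h5 : pr u * pr v * pr w ∣ d :=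
    (Nat.Coprime.mul_left (cop (h2.trans h3)) (cop h3)).mul_dvd_of_dvd_of_dvd h4 c
  have h6 := Nat.le_of_dvd (Nat.pos_of_ne_zero hd) h5
  have g : ∀ s, i ≤ s → 2 ^ i ≤ pr s := fun s hs =>
    (Nat.pow_le_pow_right (by norm_num) hs).trans (pr_gt s).le
  have h7 : 2 ^ i * 2 ^ i * 2 ^ i ≤ pr u * pr v * pr w :=
    Nat.mul_le_mul (Nat.mul_le_mul (g u h1) (g v (by omega))) (g w (by omega))
  have h8 : 2 ^ i * 2 ^ i * 2 ^ i = 8 ^ i := by
    rw [← mul_pow, ← mul_pow]; norm_num
  omega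

lemma two_good (i d : ℕ) (hd : d ≠ 0) (hlt : d < 8 ^ i) :
    ∃ u w, i ≤ u ∧ u < w ∧ w ≤ i + 3 ∧ ¬ pr u ∣ d ∧ ¬ pr w ∣ d := by
  by_cases a : pr i ∣ d <;> by_cases b : pr (i + 1) ∣ d <;> by_cases c : pr (i + 2) ∣ d <;>
    by_cases e : pr (i + 3) ∣ d
  all_goals first
    | exact ⟨i, i + 1, by omega, by omega, by omega, a, b⟩
    | exact ⟨i, i + 2, by omega, by omega, by omega, a, c⟩
    | exact ⟨i, i + 3, by omega, by omega, by omega, a, e⟩
    | exact ⟨i + 1, i + 2, by omega, by omega, by omega, b, c⟩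
    | exact ⟨i + 1, i + 3, by omega, by omega, by omega, b, e⟩
    | exact ⟨i + 2, i + 3, by omega, by omega, by omega, c, e⟩
    | exact (three_dvd hd hlt le_rfl (by omega) (by omega) a b c).elim
    | exact (three_dvd hd hlt le_rfl (by omega) (by omega) a b e).elim
    | exact (three_dvd hd hlt le_rfl (by omega) (by omega) a c e).elim
    | exact (three_dvd hd hlt (by omega) (by omega) (by omega) b c e).elim

open Classical in
lemma sparse (n z δ N : ℤ) (l : ℕ) (hl : 13 ≤ l)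
    (H1 : ∀ i ∈ Icc (l - 8) l, (pr i : ℤ) ∣ δ → ¬ (pr i : ℤ) ∣ n - z)
    (H2 : ∀ k : ℕ, k < 23 → n - (z + k * δ) < N → N ≤ |δ|) :
    ((range 23).filter (fun k : ℕ => (0 ≤ n - (z + k * δ) ∧ n - (z + k * δ) < N) ∨
      ∃ i ∈ Icc (l - 8) l, (pr i : ℤ) ∣ n - (z + k * δ))).card ≤ 10 := by
  have hsub : (range 23).filter (fun k : ℕ => (0 ≤ n - (z + k * δ) ∧ n - (z + k * δ) < N) ∨
      ∃ i ∈ Icc (l - 8) l, (pr i : ℤ) ∣ n - (z + k * δ)) ⊆
      (range 23).filter (fun k : ℕ => 0 ≤ n - (z + k * δ) ∧ n - (z + k * δ) < N) ∪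
      (Icc (l - 8) l).biUnion (fun i => (range 23).filter
        (fun k : ℕ => (pr i : ℤ) ∣ n - (z + k * δ))) := by
    intro k hk
    rw [mem_filter] at hk
    rw [mem_union, mem_filter, mem_biUnion]
    rcases hk.2 with h | ⟨i, hi, h⟩
    · left; exact ⟨hk.1, h⟩
    · right; exact ⟨i, hi, mem_filter.mpr ⟨hk.1, h⟩⟩
  have h1 : ((range 23).filter
      (fun k : ℕ => 0 ≤ n - (z + k * δ) ∧ n - (z + k * δ) < N)).card ≤ 1 := by
    rw [card_le_one]
    intro k hk k' hk'
    rw [mem_filter, mem_range] at hk hk'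
    have hN := H2 k hk.1 hk.2.2
    by_contra hne
    have hne' : (k : ℤ) - k' ≠ 0 := by
      intro h; apply hne; omega
    have e1 : |((k : ℤ) - k') * δ| < N := by
      rw [abs_lt]; constructor <;> nlinarith [hk.2.1, hk.2.2, hk'.2.1, hk'.2.2]
    rw [abs_mul] at e1
    have e2 : 1 ≤ |(k : ℤ) - k'| := Int.one_le_abs hne'
    nlinarith [abs_nonneg δ]
  have h2 : ∀ i ∈ Icc (l - 8) l, ((range 23).filter
        (fun k : ℕ => (pr i : ℤ) ∣ n - (z + k * δ))).card ≤ 1 := by
    intro i hi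
    rw [card_le_one]
    intro k hk k' hk'
    rw [mem_filter, mem_range] at hk hk'
    have hp : Prime (pr i : ℤ) := Nat.prime_iff_prime_int.mp (pr_prime i)
    have hd : (pr i : ℤ) ∣ ((k : ℤ) - k') * δ := by
      have := dvd_sub hk'.2 hk.2
      have e : n - (z + k' * δ) - (n - (z + k * δ)) = ((k : ℤ) - k') * δ := by ring
      rwa [e] at this
    rcases hp.dvd_or_dvd hd with h | h
    · have hbig : 32 < pr i := by
        have a1 := pr_gt i
        have a2 : 2 ^ 5 ≤ 2 ^ i := Nat.pow_le_pow_right (by norm_num) (by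
          have := (mem_Icc.mp hi).1; omega)
        omega
      have := Int.eq_zero_of_abs_lt_dvd h (by rw [abs_lt]; constructor <;> omega)
      omega
    · exfalso
      apply H1 i hi h
      have := dvd_add hk.2 (h.mul_left (k : ℤ))
      have e : n - (z + k * δ) + k * δ = n - z := by ring
      rwa [e] at this
  have h3 := card_le_card hsub
  have h4 := card_union_le ((range 23).filter
      (fun k : ℕ => 0 ≤ n - (z + k * δ) ∧ n - (z + k * δ) < N))
      ((Icc (l - 8) l).biUnion (fun i => (range 23).filter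
        (fun k : ℕ => (pr i : ℤ) ∣ n - (z + k * δ))))
  have h5 := card_biUnion_le_card_mul _ _ _ h2
  have h6 : (Icc (l - 8) l).card = 9 := by
    rw [Nat.card_Icc]; omega
  rw [h6] at h5
  omega

lemma good_elem {m x u : ℕ} (hm : 32 ≤ lam m) (h1 : 4 ^ (lam m - 5) ≤ x) (h2 : x ≤ m)
    (h3 : lam m - 8 ≤ u) (h4 : u ≤ lam m - 5) (h5 : pr u ∣ x) (h6 : x % 3 ≠ 2)
    (h7 : ¬ Rem (lam m / 20) (par (lam m / 20)) x) : x ∈ AA := by
  have hpos : 0 < 4 ^ (lam m - 5) := by positivity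
  have hx0 : x ≠ 0 := by omega
  have hm0 : m ≠ 0 := by omega
  have a1 : lam m - 5 ≤ lam x := (le_lam hx0).mpr h1
  have a2 : lam x ≤ lam m := (le_lam hm0).mpr (((le_lam hx0).mp le_rfl).trans h2)
  apply mem_of ((le_lam hx0).mp (by omega))
  left
  refine ⟨⟨u, by omega, by omega, h5⟩, h6, ?_⟩
  by_cases hJ : lam x / 20 = lam m / 20
  · rw [hJ]; exact h7
  · rintro ⟨h8, -⟩
    have b1 : x < 4 ^ (20 * (lam x / 20) + 10 + 1) := by
      have hp : 0 < 4 ^ (20 * (lam x / 20) + 10) := by positivity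
      rw [pow_succ]
      rcases nn_cases (lam x / 20) _ (par_mod (lam x / 20)) with h | h <;> omega
    have b2 := (lam_lt hx0).mpr b1
    omega

lemma exists_in_window (s D c : ℕ) (hD : 0 < D) : ∃ x, s ≤ x ∧ x < s + D ∧ x ≡ c [MOD D] := by
  refine ⟨s + (c + (D - 1) * s) % D, by omega, by have := Nat.mod_lt (c + (D - 1) * s) hD; omega, ?_⟩
  have h1 : s + (c + (D - 1) * s) % D ≡ s + (c + (D - 1) * s) [MOD D] :=
    Nat.ModEq.add_left _ (Nat.mod_modEq _ _)
  refine h1.trans ?_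
  have e : s + (c + (D - 1) * s) = c + D * s := by
    obtain ⟨E, rfl⟩ : ∃ E, D = E + 1 := ⟨D - 1, by omega⟩
    simp only [Nat.add_sub_cancel]; ring
  rw [e]
  unfold Nat.ModEq
  rw [Nat.add_mul_mod_self_left]

lemma not_rem_of {J a y : ℕ}
    (h : ¬ ((0 ≤ (nn J a : ℤ) - y ∧ (nn J a : ℤ) - y < ((4 ^ (20 * J) : ℕ) : ℤ)) ∨
      ∃ i ∈ Icc (20 * J + 10 - 8) (20 * J + 10), (pr i : ℤ) ∣ (nn J a : ℤ) - y)) :
    ¬ Rem J a y := by
  rintro ⟨h1, h2 | ⟨i, h3, h4, h5⟩⟩
  · apply h; left; omega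
  · apply h; right
    refine ⟨i, mem_Icc.mpr ⟨by omega, h3⟩, ?_⟩
    rw [← Nat.cast_sub h1]
    exact Int.natCast_dvd_natCast.mpr h5

lemma cover (m : ℕ) (hm : 4 ^ 32 ≤ m) : ∃ x ∈ AA, ∃ y ∈ AA, x + y = m := by
  classical
  have hm0 : m ≠ 0 := by
    have : 0 < 4 ^ 32 := by positivity
    omega
  have hL : 32 ≤ lam m := (le_lam hm0).mpr hm
  have hm1 : 4 ^ lam m ≤ m := (le_lam hm0).mp le_rfl
  have hm2 : m < 4 ^ (lam m + 1) := (lam_lt hm0).mp (by omega)
  set J := lam m / 20 with hJ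
  have hp := par_lt J
  have hpow : 4 ^ (20 * J) ≤ 4 ^ (20 * J + 10) := Nat.pow_le_pow_right (by norm_num) (by omega)
  have hpow2 : 4 ^ (20 * J + 10 + 1) = 4 * 4 ^ (20 * J + 10) := by rw [pow_succ]; ring
  have hn := nn_cases J _ (par_mod J)
  have hpos : 0 < 4 ^ (20 * J) := by positivity
  by_cases hmn : m = nn J (par J)
  · refine ⟨par J, par_mem J, nn J (par J) - par J, ?_, by omega⟩
    have h1 : lam (nn J (par J) - par J) = 20 * J + 10 := lam_eq (by omega) (by omega)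
    have h2 : lam (nn J (par J) - par J) / 20 = J := by omega
    apply mem_of
    · have : 4 ^ 20 ≤ 4 ^ (20 * J) := Nat.pow_le_pow_right (by norm_num) (by omega)
      omega
    · right; rw [h2]
  obtain ⟨i, hi⟩ : ∃ i, lam m = i + 8 := ⟨lam m - 8, by omega⟩
  obtain ⟨u, w, hu, huw, hw, gu, gw⟩ : ∃ u w, i ≤ u ∧ u < w ∧ w ≤ i + 3 ∧
      (20 * J + 2 ≤ u → ¬ (pr u : ℤ) ∣ (nn J (par J) : ℤ) - m) ∧
      (20 * J + 2 ≤ w → ¬ (pr w : ℤ) ∣ (nn J (par J) : ℤ) - m) := by
    by_cases hc : i + 3 < 20 * J + 2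
    · exact ⟨i, i + 1, le_rfl, by omega, by omega, fun h => by omega, fun h => by omega⟩
    · have hlt : ((nn J (par J) : ℤ) - m).natAbs < 8 ^ i := by
        have a1 : 4 ^ (20 * J + 10 + 1) ≤ 4 ^ (i + 12) :=
          Nat.pow_le_pow_right (by norm_num) (by omega)
        have a2 : 4 ^ (lam m + 1) ≤ 4 ^ (i + 12) :=
          Nat.pow_le_pow_right (by norm_num) (by omega)
        have a3 : 4 ^ (i + 12) ≤ 8 ^ i := by
          have e1 : 4 ^ (i + 12) = 2 ^ (2 * (i + 12)) := by rw [pow_mul]; norm_num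
          have e2 : 8 ^ i = 2 ^ (3 * i) := by rw [pow_mul]; norm_num
          rw [e1, e2]
          exact Nat.pow_le_pow_right (by norm_num) (by omega)
        omega
      obtain ⟨u, w, a, b, c, d, e⟩ := two_good i _ (by omega) hlt
      exact ⟨u, w, a, b, c, fun _ h => d (Int.natCast_dvd.mp h), fun _ h => e (Int.natCast_dvd.mp h)⟩
  have big : ∀ s, i ≤ s → 3 < pr s := fun s hs => by
    have a1 := pr_gt s
    have a2 : 2 ^ 2 ≤ 2 ^ s := Nat.pow_le_pow_right (by norm_num) (by omega)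
    omega
  have co1 : Nat.Coprime (pr u) (pr w) :=
    (Nat.coprime_primes (pr_prime _) (pr_prime _)).mpr (pr_lt huw).ne
  have co3 : ∀ s, i ≤ s → Nat.Coprime (pr s) 3 := fun s hs =>
    (Nat.coprime_primes (pr_prime _) Nat.prime_three).mpr (big s hs).ne'
  have co2 : Nat.Coprime (pr u * pr w) 3 :=
    Nat.Coprime.mul_left (co3 u hu) (co3 w (by omega))
  obtain ⟨c1, hc1, hc2⟩ := Nat.chineseRemainder co1 0 m
  obtain ⟨c2, hc3, hc4⟩ := Nat.chineseRemainder co2 c1 (m % 3 / 2)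
  set D := pr u * pr w * 3 with hD
  have hDpos : 0 < D := by
    have := (pr_prime u).pos
    have := (pr_prime w).pos
    positivity
  obtain ⟨x0, hx1, hx2, hx3⟩ := exists_in_window (4 ^ (i + 3)) D c2 hDpos
  have du : pr u ∣ D := ⟨pr w * 3, by rw [hD]; ring⟩
  have dw : pr w ∣ D := ⟨pr u * 3, by rw [hD]; ring⟩
  have d3 : 3 ∣ D := ⟨pr u * pr w, by rw [hD]; ring⟩
  have xu : pr u ∣ x0 := by
    have : x0 ≡ 0 [MOD pr u] :=
      ((hx3.of_dvd du).trans (hc3.of_dvd (Dvd.intro _ rfl))).trans hc1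
    exact (Nat.modEq_zero_iff_dvd).mp this
  have xw : x0 ≡ m [MOD pr w] :=
    ((hx3.of_dvd dw).trans (hc3.of_dvd (Dvd.intro_left _ rfl))).trans hc2
  have x3 : x0 ≡ m % 3 / 2 [MOD 3] := (hx3.of_dvd d3).trans hc4
  have e4 : 4 ^ i = 2 ^ i * 2 ^ i := by rw [← mul_pow]; norm_num
  have hDle : D ≤ 384 * 4 ^ i := by
    have a1 : pr u ≤ 8 * 2 ^ i := by
      have := pr_le u
      have b : 2 ^ (u + 1) ≤ 2 ^ (i + 3) := Nat.pow_le_pow_right (by norm_num) (by omega)
      rw [pow_add 2 i 3] at b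
      omega
    have a2 : pr w ≤ 16 * 2 ^ i := by
      have := pr_le w
      have b : 2 ^ (w + 1) ≤ 2 ^ (i + 4) := Nat.pow_le_pow_right (by norm_num) (by omega)
      rw [pow_add 2 i 4] at b
      omega
    have := Nat.mul_le_mul a1 a2
    rw [hD, e4]; nlinarith
  have hDge : 4 ^ i ≤ D := by
    have g : ∀ s, i ≤ s → 2 ^ i ≤ pr s := fun s hs =>
      (Nat.pow_le_pow_right (by norm_num) hs).trans (pr_gt s).le
    have := Nat.mul_le_mul (g u hu) (g w (by omega))
    rw [hD, e4]; omega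
  have e3 : 4 ^ (i + 3) = 64 * 4 ^ i := by rw [pow_add]; ring
  have e8 : 4 ^ lam m = 65536 * 4 ^ i := by rw [hi, pow_add]; ring
  have hk : ∀ k : ℕ, k < 23 → x0 + k * D + 4 ^ (i + 3) ≤ m := by
    intro k hk
    have : k * D ≤ 22 * D := Nat.mul_le_mul_right _ (by omega)
    omega
  have hND : 4 ^ (20 * J + 10) ≤ m → 4 ^ (20 * J) ≤ D := by
    intro h
    have a1 := (le_lam hm0).mpr h
    exact (Nat.pow_le_pow_right (by norm_num) (by omega)).trans hDge
  have hcase : ∀ s ∈ Icc (20 * J + 10 - 8) (20 * J + 10), pr s ∣ D → s = u ∨ s = w := by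
    intro s hs h
    rw [mem_Icc] at hs
    rcases ((pr_prime s).dvd_mul).mp h with h | h
    · rcases ((pr_prime s).dvd_mul).mp h with h | h
      · left; exact pr_inj ((Nat.prime_dvd_prime_iff_eq (pr_prime _) (pr_prime _)).mp h)
      · right; exact pr_inj ((Nat.prime_dvd_prime_iff_eq (pr_prime _) (pr_prime _)).mp h)
    · exfalso
      have a1 := Nat.le_of_dvd (by norm_num) h
      have a2 := pr_gt s
      have a3 : 2 ^ 2 ≤ 2 ^ s := Nat.pow_le_pow_right (by norm_num) (by omega)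
      omega
  have hndvd : ∀ s, i ≤ s → ¬ (pr s : ℤ) ∣ (nn J (par J) : ℤ) := by
    intro s hs h
    have h' : pr s ∣ nn J (par J) := Int.natCast_dvd_natCast.mp h
    have hb := big s hs
    have k4 : ¬ pr s ∣ 4 ^ (20 * J + 10) := by
      intro g
      have g1 := (pr_prime s).dvd_of_dvd_pow g
      have g2 : pr s ∣ 2 ^ 2 := g1
      have g3 := Nat.le_of_dvd (by norm_num) ((pr_prime s).dvd_of_dvd_pow g2)
      omega
    rcases hn with g | g <;> rw [g.2] at h' <;> rcases ((pr_prime s).dvd_mul).mp h' with q | q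
    · have := Nat.le_of_dvd (by norm_num) q; omega
    · exact k4 q
    · have := Nat.le_of_dvd (by norm_num) q; omega
    · exact k4 q
  have xu' : (pr u : ℤ) ∣ (x0 : ℤ) := Int.natCast_dvd_natCast.mpr xu
  have xw' : (pr w : ℤ) ∣ (m : ℤ) - x0 := (Nat.modEq_iff_dvd).mp xw
  have s1 := sparse (nn J (par J)) x0 D ((4 ^ (20 * J) : ℕ) : ℤ) (20 * J + 10) (by omega)
    (by
      intro s hs h g
      have hs' := mem_Icc.mp hs
      rcases hcase s hs (Int.natCast_dvd_natCast.mp h) with rfl | rfl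
      · apply hndvd s hu
        have := dvd_add g xu'
        rwa [sub_add_cancel] at this
      · apply gw (by omega)
        have := dvd_sub g xw'
        have e : (nn J (par J) : ℤ) - x0 - (m - x0) = nn J (par J) - m := by ring
        rwa [e] at this)
    (by
      intro k hk' h
      have a1 := hk k hk'
      have a2 : ((x0 + k * D : ℕ) : ℤ) = x0 + k * D := by push_cast; ring
      rw [← a2] at h
      have a3 := hND (by omega)
      rw [abs_of_nonneg (by positivity)]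
      exact_mod_cast a3)
  have s2 := sparse (nn J (par J)) ((m : ℤ) - x0) (-D) ((4 ^ (20 * J) : ℕ) : ℤ) (20 * J + 10)
    (by omega)
    (by
      intro s hs h g
      have hs' := mem_Icc.mp hs
      rcases hcase s hs (Int.natCast_dvd_natCast.mp ((dvd_neg).mp h)) with rfl | rfl
      · apply gu (by omega)
        have := dvd_sub g xu'
        have e : (nn J (par J) : ℤ) - (m - x0) - x0 = nn J (par J) - m := by ring
        rwa [e] at this
      · apply hndvd s (by omega)
        have := dvd_add g xw'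
        rwa [sub_add_cancel] at this)
    (by
      intro k hk' h
      have a2 : (m : ℤ) - x0 + k * -D = m - ((x0 + k * D : ℕ) : ℤ) := by push_cast; ring
      rw [a2] at h
      have a3 := hND (by omega)
      rw [abs_neg, abs_of_nonneg (by positivity)]
      exact_mod_cast a3)
  have hlt := lt_of_le_of_lt (card_union_le _ _) (lt_of_le_of_lt (add_le_add s1 s2)
    (show 10 + 10 < (range 23).card by simp))
  obtain ⟨k, hk1, hk2⟩ := exists_mem_notMem_of_card_lt_card hlt
  rw [mem_union, not_or, mem_filter, mem_filter] at hk2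
  have hk23 := mem_range.mp hk1
  have b0 := hk k hk23
  have e5 : lam m - 5 = i + 3 := by omega
  have kD3 : (k * D) % 3 = 0 := Nat.mod_eq_zero_of_dvd (d3.mul_left k)
  have x3' : x0 % 3 = m % 3 / 2 % 3 := x3
  refine ⟨x0 + k * D, ?_, m - (x0 + k * D), ?_, by omega⟩
  · apply good_elem (u := u) hL (by rw [e5]; omega) (by omega) (by omega) (by omega)
      (dvd_add xu (du.mul_left k)) (by omega)
    apply not_rem_of
    intro h
    apply hk2.1
    refine ⟨hk1, ?_⟩
    have a2 : ((x0 + k * D : ℕ) : ℤ) = x0 + k * D := by push_cast; ring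
    rw [← a2]; exact h
  · apply good_elem (u := w) hL (by rw [e5]; omega) (by omega) (by omega) (by omega) ?_ (by omega)
    · apply not_rem_of
      intro h
      apply hk2.2
      refine ⟨hk1, ?_⟩
      have a2 : (m : ℤ) - x0 + k * -D = ((m - (x0 + k * D) : ℕ) : ℤ) := by
        rw [Nat.cast_sub (by omega)]; push_cast; ring
      rw [a2]; exact h
    · apply Int.natCast_dvd_natCast.mp
      rw [Nat.cast_sub (by omega)]
      have := dvd_sub xw' ((Int.natCast_dvd_natCast.mpr dw).mul_left (k : ℤ))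
      have e : (m : ℤ) - x0 - k * D = m - ((x0 + k * D : ℕ) : ℤ) := by push_cast; ring
      rwa [e] at this

open Classical in
lemma count_sq (s : ℕ) : Nat.count (· ∈ AA) ((2 ^ 20 + s) ^ 2) = 1 + 10000 * s := by
  induction s with
  | zero =>
    rw [Nat.count_eq_card_filter_range]
    have : (range ((2 ^ 20 + 0) ^ 2)).filter (· ∈ AA) = {0} := by
      ext y
      rw [mem_filter, mem_range, mem_singleton]
      constructor
      · rintro ⟨h1, h2 | h2⟩
        · exact h2
        · have := Nat.le_sqrt'.mp (blk_le h2)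
          rw [add_zero] at h1
          omega
      · rintro rfl
        exact ⟨by positivity, Or.inl rfl⟩
    rw [this]; simp
  | succ s ih =>
    rw [Nat.count_eq_card_filter_range] at ih ⊢
    set t := 2 ^ 20 + s with ht
    have ht2 : 2 ^ 20 ≤ t := by omega
    have e : 2 ^ 20 + (s + 1) = t + 1 := by omega
    rw [e]
    have hb := blk_spec (par (Nat.log 2 t / 20)) t ht2
    have hI : ∀ y ∈ blk (par (Nat.log 2 t / 20)) t, y ∈ I t := by
      intro y hy
      have := hb.2.1 hy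
      rw [mem_union] at this
      rcases this with h | h
      · exact (mem_core.mp h).1
      · exact (mem_filter.mp h).1
    have : (range ((t + 1) ^ 2)).filter (· ∈ AA) =
        (range (t ^ 2)).filter (· ∈ AA) ∪ blk (par (Nat.log 2 t / 20)) t := by
      ext y
      rw [mem_union, mem_filter, mem_filter, mem_range, mem_range]
      have hsq : t ^ 2 ≤ (t + 1) ^ 2 := Nat.pow_le_pow_left (by omega) 2
      constructor
      · rintro ⟨h1, h2⟩
        by_cases hc : y < t ^ 2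
        · left; exact ⟨hc, h2⟩
        · right
          have hy : Nat.sqrt y = t := mem_I.mp (mem_Ico.mpr ⟨by omega, h1⟩)
          rcases h2 with h2 | h2
          · exfalso
            have : 0 < t ^ 2 := by positivity
            omega
          · unfold lam at h2
            rwa [hy] at h2
      · rintro (⟨h1, h2⟩ | h)
        · exact ⟨by omega, h2⟩
        · have h1 := hI y h
          refine ⟨(mem_Ico.mp h1).2, Or.inr ?_⟩
          unfold lam
          rw [mem_I.mp h1]; exact h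
    rw [this, card_union_of_disjoint, ih, hb.2.2]
    · ring
    · rw [disjoint_left]
      intro y h1 h2
      have a1 := mem_range.mp (mem_filter.mp h1).1
      have a2 := (mem_Ico.mp (hI y h2)).1
      omega

lemma AA_infinite : AA.Infinite := by
  classical
  intro hf
  have h1 := count_sq (hf.toFinset.card)
  have h2 := Nat.count_le_card (p := (· ∈ AA)) hf ((2 ^ 20 + hf.toFinset.card) ^ 2)
  have h3 : (Set.Finite.toFinset (s := Set.ofPred (· ∈ AA)) hf).card = hf.toFinset.card := rfl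
  omega

lemma nth_bounds (k : ℕ) (hk : 1 ≤ k) :
    (2 ^ 20 + (k - 1) / 10000) ^ 2 ≤ Nat.nth (· ∈ AA) k ∧
    Nat.nth (· ∈ AA) k < (2 ^ 20 + ((k - 1) / 10000 + 1)) ^ 2 := by
  classical
  constructor
  · apply (Nat.count_le_iff_le_nth (p := (· ∈ AA)) AA_infinite).mp
    rw [count_sq]; omega
  · apply Nat.nth_lt_of_lt_count
    rw [count_sq]; omega

open Filter Topology in
lemma nth_tendsto : Tendsto (fun k : ℕ => (Nat.nth (· ∈ AA) k : ℝ) / ((k : ℝ) + 1) ^ 2) atTop
    (𝓝 ((1 / 10000) ^ 2)) := by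
  have h0 : Tendsto (fun k : ℕ => (1 / 10000 + (2 ^ 20 + 1) * (1 / ((k : ℝ) + 1))) ^ 2) atTop
      (𝓝 ((1 / 10000 + (2 ^ 20 + 1) * 0) ^ 2)) :=
    (tendsto_const_nhds.add (tendsto_const_nhds.mul tendsto_one_div_add_atTop_nhds_zero_nat)).pow 2
  rw [mul_zero, add_zero] at h0
  apply tendsto_of_tendsto_of_tendsto_of_le_of_le' tendsto_const_nhds h0
  · filter_upwards [eventually_ge_atTop 1] with k hk
    have h1 := (nth_bounds k hk).1
    have h2 : k + 1 ≤ 10000 * (2 ^ 20 + (k - 1) / 10000) := by omega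
    have h3 : (k + 1) ^ 2 ≤ 10000 ^ 2 * Nat.nth (· ∈ AA) k := by
      calc (k + 1) ^ 2 ≤ (10000 * (2 ^ 20 + (k - 1) / 10000)) ^ 2 := Nat.pow_le_pow_left h2 2
        _ = 10000 ^ 2 * (2 ^ 20 + (k - 1) / 10000) ^ 2 := by ring
        _ ≤ _ := Nat.mul_le_mul_left _ h1
    have h4 : ((k : ℝ) + 1) ^ 2 ≤ 10000 ^ 2 * (Nat.nth (· ∈ AA) k : ℝ) := by exact_mod_cast h3
    rw [le_div_iff₀ (by positivity)]
    nlinarith
  · filter_upwards [eventually_ge_atTop 1] with k hk
    have h1 := (nth_bounds k hk).2.le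
    have h2 : 10000 * (2 ^ 20 + ((k - 1) / 10000 + 1)) ≤ (k + 1) + 10000 * (2 ^ 20 + 1) := by omega
    have h3 : 10000 ^ 2 * Nat.nth (· ∈ AA) k ≤ ((k + 1) + 10000 * (2 ^ 20 + 1)) ^ 2 := by
      calc 10000 ^ 2 * Nat.nth (· ∈ AA) k
          ≤ 10000 ^ 2 * (2 ^ 20 + ((k - 1) / 10000 + 1)) ^ 2 := Nat.mul_le_mul_left _ h1
        _ = (10000 * (2 ^ 20 + ((k - 1) / 10000 + 1))) ^ 2 := by ring
        _ ≤ _ := Nat.pow_le_pow_left h2 2
    have h4 : 10000 ^ 2 * (Nat.nth (· ∈ AA) k : ℝ) ≤ (((k : ℝ) + 1) + 10000 * (2 ^ 20 + 1)) ^ 2 := by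
      exact_mod_cast h3
    rw [div_le_iff₀ (by positivity)]
    have e : (1 / 10000 + (2 ^ 20 + 1) * (1 / ((k : ℝ) + 1))) ^ 2 * ((k : ℝ) + 1) ^ 2 =
        (((k : ℝ) + 1) + 10000 * (2 ^ 20 + 1)) ^ 2 / 10000 ^ 2 := by
      field_simp
    rw [e, le_div_iff₀ (by positivity)]
    linarith

lemma minimal (B : Set ℕ) (hB : B ⊂ AA) : ¬ ∃ N : ℕ, ∀ n ≥ N, ∃ a ∈ B, ∃ b ∈ B, a + b = n := by
  rintro ⟨N, hN⟩
  obtain ⟨a, ha, haB⟩ := Set.exists_of_ssubset hB
  have hJ : N + 1 ≤ Nat.pair a (N + 1) := Nat.right_le_pair _ _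
  have hp := par_eq ha (N + 1) (by omega)
  set J := Nat.pair a (N + 1) with hJdef
  have h1 : J < 4 ^ J := Nat.lt_pow_self (by norm_num)
  have h2 : 4 ^ J ≤ 4 ^ (20 * J + 10) := Nat.pow_le_pow_right (by norm_num) (by omega)
  have hn := nn_cases J _ (par_mod J)
  obtain ⟨x, hx, y, hy, hxy⟩ := hN (nn J (par J)) (by omega)
  rcases unique_rep J (hB.1 hx) (hB.1 hy) hxy with h | h
  · rw [hp] at h; exact haB (h ▸ hx)
  · rw [hp] at h; exact haB (h ▸ hy)

end Pool.Agent.H18.MinBasis
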