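import Mathlib

namespace Pool.Agent.H18.NimReg

/-- the 2-kernel of a sequence -/
def kernel (a : ℕ → ℤ) : Set (ℕ → ℤ) := {f | ∃ e r : ℕ, r < 2 ^ e ∧ f = fun n => a (2 ^ e * n + r)}

/-- 2-regular sequences -/
def Reg (a : ℕ → ℤ) : Prop := (Submodule.span ℤ (kernel a)).FG

/-- 2-regular arrays -/
def Reg2 (c : ℕ → ℕ → ℤ) : Prop :=
  ∃ s : Finset (ℕ → ℕ → ℤ), ∀ e r t : ℕ, r < 2 ^ e → t < 2 ^ e →
    (fun m n => c (2 ^ e * m + r) (2 ^ e * n + t)) ∈ Submodule.span ℤ (s : Set (ℕ → ℕ → ℤ))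

def F (n : ℕ) : ℕ × ℕ :=
  if h : n = 0 then (0, 0) else (n % 2 + (F (n / 2)).2, (F (n / 2)).1)
decreasing_by all_goals omega

lemma F_eq (n : ℕ) : F n = (n % 2 + (F (n / 2)).2, (F (n / 2)).1) := by
  by_cases h : n = 0
  · subst h; simp [F]
  · conv_lhs => rw [F, dif_neg h]

def a (n : ℕ) : ℕ := 2 ^ (F n).1
def b (n : ℕ) : ℕ := 2 ^ (F n).2

lemma fg_of_le {M : Type} [AddCommGroup M] {S T : Submodule ℤ M} (h : S ≤ T) (hT : T.FG) :
    S.FG := Submodule.FG.of_le hT h

noncomputable def M : Submodule ℤ (ℕ → ℤ) :=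
  Submodule.span ℤ {fun n => (a n : ℤ), fun n => (b n : ℤ)}

lemma M_fg : M.FG := Submodule.fg_span (Set.toFinite _)

lemma aM : (fun n => (a n : ℤ)) ∈ M := Submodule.subset_span (by simp)
lemma bM : (fun n => (b n : ℤ)) ∈ M := Submodule.subset_span (by simp)

lemma step (f : ℕ → ℤ) (hf : f ∈ M) (r : ℕ) (hr : r < 2) : (fun n => f (2 * n + r)) ∈ M := by
  have e1 : ∀ n, (2 * n + r) / 2 = n := fun n => by omega
  have e2 : ∀ n, (2 * n + r) % 2 = r := fun n => by omega
  induction hf using Submodule.span_induction with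
  | mem x hx =>
    rcases hx with rfl | rfl
    · have : (fun n => (a (2 * n + r) : ℤ)) = (2 ^ r : ℤ) • fun n => (b n : ℤ) := by
        funext n
        simp only [a, b, F_eq (2 * n + r), e1, e2, Pi.smul_apply, smul_eq_mul]
        push_cast; ring
      rw [this]
      exact M.smul_mem _ bM
    · have : (fun n => (b (2 * n + r) : ℤ)) = fun n => (a n : ℤ) := by
        funext n
        simp only [a, b, F_eq (2 * n + r), e1]
      rw [this]
      exact aM
  | zero => exact M.zero_mem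
  | add x y _ _ hx hy => exact M.add_mem hx hy
  | smul c x _ hx => exact M.smul_mem c hx

lemma reg_of_mem (f : ℕ → ℤ) (hf : f ∈ M) : Reg f := by
  refine fg_of_le (Submodule.span_le.2 ?_) M_fg
  rintro _ ⟨e, r, hr, rfl⟩
  induction e generalizing r with
  | zero => simpa [show r = 0 by omega] using hf
  | succ e ih =>
    have h1 := step _ (ih (r % 2 ^ e) (Nat.mod_lt _ (by positivity))) (r / 2 ^ e)
      (by rw [Nat.div_lt_iff_lt_mul (by positivity)]; rw [pow_succ] at hr; omega)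
    have e1 : ∀ n, 2 ^ e * (2 * n + r / 2 ^ e) + r % 2 ^ e = 2 ^ (e + 1) * n + r := by
      intro n
      have := Nat.div_add_mod r (2 ^ e)
      rw [pow_succ]
      nlinarith
    simp only [e1] at h1
    exact h1

def rep : ℕ → ℕ
  | 0 => 0
  | k + 1 => 4 * rep k + 1

lemma rep_lt (k : ℕ) : rep k < 2 ^ (2 * k) := by
  induction k with
  | zero => simp [rep]
  | succ k ih => rw [rep, mul_add, pow_add]; omega

lemma F_rep (k n : ℕ) : F (2 ^ (2 * k) * n + rep k) = ((F n).1 + k, (F n).2) := by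
  induction k with
  | zero => simp [rep]
  | succ k ih =>
    have e : 2 ^ (2 * (k + 1)) * n + rep (k + 1) = 4 * (2 ^ (2 * k) * n + rep k) + 1 := by
      rw [rep]; ring
    rw [e]
    generalize 2 ^ (2 * k) * n + rep k = m at ih ⊢
    rw [F_eq, F_eq ((4 * m + 1) / 2), show (4 * m + 1) / 2 / 2 = m by omega, ih,
      show (4 * m + 1) % 2 = 1 by omega, show (4 * m + 1) / 2 % 2 = 0 by omega]
    simp; ring

lemma F_two (k : ℕ) : F (2 * rep k) = (0, k) := by
  have := F_rep k 0
  rw [F_eq, show 2 * rep k / 2 = rep k by omega]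
  simp only [mul_zero, zero_add] at this
  rw [this]
  simp [F]

lemma xor_pow (i j : ℕ) (h : i ≠ j) : 2 ^ i ^^^ 2 ^ j = 2 ^ i + 2 ^ j := by
  wlog hij : j < i generalizing i j
  · rw [Nat.xor_comm, add_comm]; exact this j i h.symm (by omega)
  have h1 : 2 ^ j < 2 ^ i := Nat.pow_lt_pow_right (by norm_num) hij
  apply Nat.eq_of_testBit_eq
  intro k
  have := Nat.testBit_two_pow_mul_add 1 h1 k
  rw [mul_one] at this
  rw [this, Nat.testBit_xor, Nat.testBit_two_pow, Nat.testBit_two_pow]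
  by_cases hk : k < i
  · simp [hk, hk.ne']
  · have : j ≠ k := by omega
    simp only [hk, this, if_false, decide_false, Bool.xor_false]
    rw [show (1 : ℕ) = 2 ^ 0 by rfl, Nat.testBit_two_pow]
    congr 1
    apply propext
    omega

lemma not_reg : ¬ Reg fun n => ((a n ^^^ b n : ℕ) : ℤ) := by
  intro h
  set N := Submodule.span ℤ (kernel fun n => ((a n ^^^ b n : ℕ) : ℤ)) ⊔ M with hN
  have : Module.Finite ℤ N := Module.Finite.iff_fg.2 (Submodule.FG.sup h M_fg)
  let d : ℕ → ℕ → ℤ := fun k n => 2 ^ k * a n + b n - ((2 ^ ((F n).1 + k) ^^^ b n : ℕ) : ℤ)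
  have hd : ∀ k, d k ∈ N := by
    intro k
    have h1 : (fun n => ((2 ^ ((F n).1 + k) ^^^ b n : ℕ) : ℤ)) ∈ N := by
      apply Submodule.mem_sup_left
      apply Submodule.subset_span
      exact ⟨2 * k, rep k, rep_lt k, by funext n; simp only [a, b, F_rep]⟩
    exact N.sub_mem (N.add_mem (N.smul_mem (2 ^ k : ℤ) (Submodule.mem_sup_right aM))
      (Submodule.mem_sup_right bM)) h1
  have hli : LinearIndependent ℤ d := by
    rw [linearIndependent_iff']
    intro s g hs i hi
    have := congrFun hs (2 * rep i)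
    rw [Finset.sum_apply, Finset.sum_eq_single_of_mem i hi] at this
    · simpa [d, a, b, F_two] using this
    · intro j _ hj
      simp [d, a, b, F_two, xor_pow j i hj]
  have hli' : LinearIndependent ℤ fun k => (⟨d k, hd k⟩ : N) :=
    LinearIndependent.of_comp N.subtype hli
  exact Module.Finite.not_linearIndependent_of_infinite _ hli'

lemma reg_diag (c : ℕ → ℕ → ℤ) (h : Reg2 c) : Reg fun n => c n n := by
  obtain ⟨s, hs⟩ := h
  let D : (ℕ → ℕ → ℤ) →ₗ[ℤ] (ℕ → ℤ) :=
    { toFun := fun c n => c n n, map_add' := fun _ _ => rfl, map_smul' := fun _ _ => rfl }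
  refine fg_of_le (Submodule.span_le.2 ?_) ((Submodule.fg_span s.finite_toSet).map D)
  rintro _ ⟨e, r, hr, rfl⟩
  exact ⟨_, hs e r r hr hr, rfl⟩

end Pool.Agent.H18.NimReg
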