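import Pool.Agent.H18.Amen

set_option autoImplicit false

namespace Pool.Agent.H18.RO

open Pool.Agent.H18.Amen

variable {G : Type} [Group G]

lemma FP_solv [h : Group.IsSolvable G] : FP (⊤ : Subgroup G) := by
  obtain ⟨n, hn⟩ := h.solvable
  have key : ∀ k, k ≤ n → FP (derivedSeries G (n - k)) := by
    intro k
    induction k with
    | zero => intro _; rw [Nat.sub_zero, hn]; exact FP_bot
    | succ k ih =>
      intro hk
      have e : n - k = (n - (k + 1)) + 1 := by omega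
      have h1 := ih (by omega)
      rw [e] at h1
      refine FP_ext h1 ?_ ?_ ?_
      · rw [derivedSeries_succ]; exact Subgroup.commutator_le_left _ _
      · intro t _ x hx
        have := (derivedSeries_normal G (n - (k + 1) + 1)).conj_mem x hx t⁻¹
        simpa using this
      · intro s hs t ht
        rw [derivedSeries_succ]
        have := Subgroup.commutator_mem_commutator ((derivedSeries G _).inv_mem hs)
          ((derivedSeries G _).inv_mem ht)
        simpa [commutatorElement_def, mul_assoc] using this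
  simpa using key n le_rfl

/-- bounded functions -/
def Bd (f : G → ℝ) : Prop := ∃ C : ℝ, ∀ x, |f x| ≤ C

omit [Group G] in
lemma Bd.add {f g : G → ℝ} (hf : Bd f) (hg : Bd g) : Bd (f + g) := by
  obtain ⟨C, hC⟩ := hf
  obtain ⟨D, hD⟩ := hg
  exact ⟨C + D, fun x => (abs_add_le _ _).trans (add_le_add (hC x) (hD x))⟩

/-- right translation on functionals -/
noncomputable def rreg (G : Type) [Group G] :
    G →* (((G → ℝ) → ℝ) →L[ℝ] ((G → ℝ) → ℝ)) where
  toFun g := ContinuousLinearMap.pi (fun f => ContinuousLinearMap.proj (fun x => f (x * g⁻¹)))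
  map_one' := by
    ext μ A
    simp
  map_mul' g h := by
    ext μ A
    simp [mul_assoc]

lemma rreg_apply (g : G) (μ : (G → ℝ) → ℝ) (f : G → ℝ) :
    rreg G g μ f = μ (fun x => f (x * g⁻¹)) := rfl

lemma Bd_shift (f : G → ℝ) (g : G) : Bd (fun x => f (x * g)) ↔ Bd f := by
  constructor
  · rintro ⟨C, hC⟩
    exact ⟨C, fun x => by simpa using hC (x * g⁻¹)⟩
  · rintro ⟨C, hC⟩
    exact ⟨C, fun x => hC _⟩

theorem mean [Group.IsSolvable G] : ∃ μ : (G → ℝ) → ℝ,
    (∀ f g, Bd f → Bd g → μ (f + g) = μ f + μ g) ∧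
    (∀ f C, Bd f → (∀ x, f x ≤ C) → μ f ≤ C) ∧
    (∀ f C, Bd f → (∀ x, C ≤ f x) → C ≤ μ f) ∧
    (∀ f g, μ (fun x => f (x * g)) = μ f) := by
  classical
  let K : Set ((G → ℝ) → ℝ) := {μ | (∀ f g, Bd f → Bd g → μ (f + g) = μ f + μ g) ∧
    (∀ f C, Bd f → (∀ x, f x ≤ C) → μ f ≤ C) ∧
    (∀ f C, Bd f → (∀ x, C ≤ f x) → C ≤ μ f) ∧ ∀ f, ¬ Bd f → μ f = 0}
  have hne : K.Nonempty := by
    refine ⟨fun f => if Bd f then f 1 else 0, fun f g hf hg => ?_, fun f C hf h => ?_,
      fun f C hf h => ?_, fun f hf => ?_⟩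
    · simp [hf, hg, hf.add hg]
    · simp [hf, h 1]
    · simp [hf, h 1]
    · simp [hf]
  have hb : ∀ f : G → ℝ, ∃ C : ℝ, ∀ μ ∈ K, μ f ∈ Set.Icc (-C) C := by
    intro f
    by_cases hf : Bd f
    · obtain ⟨C, hC⟩ := id hf
      exact ⟨C, fun μ hμ => ⟨hμ.2.2.1 f _ hf fun x => (abs_le.1 (hC x)).1,
        hμ.2.1 f _ hf fun x => (abs_le.1 (hC x)).2⟩⟩
    · exact ⟨0, fun μ hμ => by simp [hμ.2.2.2 f hf]⟩
  choose c hc' using hb
  have hc : IsCompact K := by
    have h1 : IsCompact (Set.univ.pi fun f : G → ℝ => Set.Icc (-c f) (c f)) :=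
      isCompact_univ_pi fun _ => isCompact_Icc
    refine h1.of_isClosed_subset ?_ fun μ hμ f _ => hc' f μ hμ
    simp only [K, Set.ofPred_and, Set.ofPred_forall]
    refine IsClosed.inter ?_ (IsClosed.inter ?_ (IsClosed.inter ?_ ?_))
    · exact isClosed_iInter fun f => isClosed_iInter fun g => isClosed_iInter fun _ =>
        isClosed_iInter fun _ => isClosed_eq (continuous_apply _) (by fun_prop)
    · exact isClosed_iInter fun f => isClosed_iInter fun g => isClosed_iInter fun _ =>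
        isClosed_iInter fun _ => isClosed_le (continuous_apply _) continuous_const
    · exact isClosed_iInter fun f => isClosed_iInter fun g => isClosed_iInter fun _ =>
        isClosed_iInter fun _ => isClosed_le continuous_const (continuous_apply _)
    · exact isClosed_iInter fun f => isClosed_iInter fun _ =>
        isClosed_eq (continuous_apply _) continuous_const
  have hv : Convex ℝ K := by
    rintro x ⟨hx1, hx2, hx3, hx4⟩ y ⟨hy1, hy2, hy3, hy4⟩ a b ha hb hab
    refine ⟨fun f g hf hg => ?_, fun f C hf h => ?_, fun f C hf h => ?_, fun f hf => ?_⟩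
    · simp [hx1 f g hf hg, hy1 f g hf hg]; ring
    · exact convex_Iic C (hx2 f C hf h) (hy2 f C hf h) ha hb hab
    · exact convex_Ici C (hx3 f C hf h) (hy3 f C hf h) ha hb hab
    · simp [hx4 f hf, hy4 f hf]
  obtain ⟨μ, ⟨h1, h2, h3, -⟩, h4⟩ := FP_solv (G := G) (G → ℝ) (rreg G) K hne hc hv (by
    rintro s - μ ⟨h1, h2, h3, h4⟩
    refine ⟨fun f g hf hg => ?_, fun f C hf h => ?_, fun f C hf h => ?_, fun f hf => ?_⟩
    · simp only [rreg_apply]
      exact h1 _ _ ((Bd_shift f _).2 hf) ((Bd_shift g _).2 hg)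
    · exact h2 _ C ((Bd_shift f _).2 hf) fun x => h _
    · exact h3 _ C ((Bd_shift f _).2 hf) fun x => h _
    · exact h4 _ fun h => hf ((Bd_shift f _).1 h))
  refine ⟨μ, h1, h2, h3, fun f g => ?_⟩
  have := congrFun (h4 g⁻¹ (Subgroup.mem_top _)) f
  rwa [rreg_apply, inv_inv] at this

section
variable (μ : (G → ℝ) → ℝ) (h1 : ∀ f g, Bd f → Bd g → μ (f + g) = μ f + μ g)
  (h2 : ∀ f C, Bd f → (∀ x, f x ≤ C) → μ f ≤ C) (h3 : ∀ f C, Bd f → (∀ x, C ≤ f x) → C ≤ μ f)
include h1 h2 h3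

omit [Group G] in
lemma mu_sum {ι : Type} (s : Finset ι) (F : ι → G → ℝ) (hF : ∀ i, Bd (F i)) :
    Bd (∑ i ∈ s, F i) ∧ μ (∑ i ∈ s, F i) = ∑ i ∈ s, μ (F i) := by
  classical
  induction s using Finset.induction_on with
  | empty =>
    have hb : Bd (0 : G → ℝ) := ⟨0, fun x => by simp⟩
    simp only [Finset.sum_empty]
    exact ⟨hb, le_antisymm (h2 _ _ hb fun x => le_rfl) (h3 _ _ hb fun x => le_rfl)⟩
  | insert a s ha ih =>
    rw [Finset.sum_insert ha, Finset.sum_insert ha, h1 _ _ (hF a) ih.1, ih.2]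
    exact ⟨(hF a).add ih.1, rfl⟩

end

open Classical in
/-- indicator -/
noncomputable def ind (A : Set G) : G → ℝ := fun x => if x ∈ A then 1 else 0

omit [Group G] in
lemma ind_bd (A : Set G) : Bd (ind A) :=
  ⟨1, fun x => by unfold ind; split_ifs <;> simp⟩

omit [Group G] in
lemma ind_nonneg (A : Set G) (x : G) : 0 ≤ ind A x := by
  unfold ind; split_ifs <;> simp

/-- points of `A` that do not come back to `A` within `n` steps -/
def Bad (A : Set G) (g : G) (n : ℕ) : Set G :=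
  {h | h ∈ A ∧ ∀ k, 1 ≤ k → k ≤ n → h * g ^ k ∉ A}

lemma bad_sum (A : Set G) (g : G) (n : ℕ) (x : G) :
    ∑ j ∈ Finset.range (n + 1), ind (Bad A g n) (x * g ^ j) ≤ 1 := by
  classical
  unfold ind
  rw [Finset.sum_boole]
  have : (Finset.filter (fun j => x * g ^ j ∈ Bad A g n) (Finset.range (n + 1))).card ≤ 1 := by
    rw [Finset.card_le_one]
    have key : ∀ i j, i < j → j < n + 1 → x * g ^ i ∈ Bad A g n → x * g ^ j ∈ Bad A g n →
        False := by
      intro i j hij hj hi hj'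
      apply hi.2 (j - i) (by omega) (by omega)
      rw [mul_assoc, ← pow_add, Nat.add_sub_cancel' hij.le]
      exact hj'.1
    intro i hi j hj
    simp only [Finset.mem_filter, Finset.mem_range] at hi hj
    rcases lt_trichotomy i j with h | h | h
    · exact (key i j h hj.1 hi.2 hj.2).elim
    · exact h
    · exact (key j i h hi.1 hj.2 hi.2).elim
  exact_mod_cast this

theorem avoid [Group.IsSolvable G] (A : ℕ → Set G) (g : ℕ → G) (s : Finset ℕ) :
    ∃ h : G, ∀ i ∈ s, h ∉ Bad (A i) (g i) (2 ^ (i + 2)) := by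
  obtain ⟨μ, h1, h2, h3, h4⟩ := mean (G := G)
  have hb : ∀ i, μ (ind (Bad (A i) (g i) (2 ^ (i + 2)))) ≤ (1 / 2) ^ i / 4 := by
    intro i
    set B := Bad (A i) (g i) (2 ^ (i + 2))
    obtain ⟨k1, k2⟩ := mu_sum μ h1 h2 h3 (Finset.range (2 ^ (i + 2) + 1))
      (fun j x => ind B (x * g i ^ j)) (fun j => (Bd_shift _ _).2 (ind_bd _))
    have k3 := h2 _ 1 k1 (fun x => by rw [Finset.sum_apply]; exact bad_sum _ _ _ x)
    rw [k2] at k3
    simp only [h4, Finset.sum_const, Finset.card_range, nsmul_eq_mul] at k3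
    have k4 : 0 ≤ μ (ind B) := h3 _ _ (ind_bd _) (ind_nonneg _)
    push_cast at k3
    have k5 : (2 : ℝ) ^ (i + 2) * μ (ind B) ≤ 1 := by nlinarith
    have k6 : (0 : ℝ) < 2 ^ i := by positivity
    rw [one_div, inv_pow, le_div_iff₀ (by norm_num), ← one_div, le_div_iff₀ k6]
    rw [pow_add] at k5
    linarith
  by_contra hcon
  push Not at hcon
  obtain ⟨k1, k2⟩ := mu_sum μ h1 h2 h3 s (fun i => ind (Bad (A i) (g i) (2 ^ (i + 2))))
    (fun i => ind_bd _)
  have k3 := h3 _ 1 k1 (fun x => by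
    obtain ⟨i, hi, hx⟩ := hcon x
    rw [Finset.sum_apply]
    refine le_trans ?_ (Finset.single_le_sum (f := fun i => ind (Bad (A i) (g i) (2 ^ (i + 2))) x)
      (fun j _ => ind_nonneg _ _) hi)
    simp [ind, hx])
  rw [k2] at k3
  have k4 : ∑ i ∈ s, μ (ind (Bad (A i) (g i) (2 ^ (i + 2)))) ≤ ∑ i ∈ s, (1 / 2 : ℝ) ^ i / 4 :=
    Finset.sum_le_sum fun i _ => hb i
  have k5 : ∑ i ∈ s, (1 / 2 : ℝ) ^ i ≤ 2 :=
    (summable_geometric_two.sum_le_tsum s fun i _ => by positivity).trans tsum_geometric_two.le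
  rw [← Finset.sum_div] at k4
  linarith

theorem recurrent [Group.IsSolvable G] [Countable G] [LinearOrder G]
    (hR : ∀ a b c : G, a < b → a * c < b * c) :
    ∃ r : G → G → Prop, IsStrictTotalOrder G r ∧ (∀ a b c : G, r a b → r (a * c) (b * c)) ∧
      ∀ u g : G, r 1 u → ∃ k : ℕ, 1 ≤ k ∧ r (g ^ k) (g ^ k * u) := by
  classical
  obtain ⟨e, he⟩ := exists_surjective_nat (G × G)
  let A : ℕ → Set G := fun i => {h | h < h * (e i).1}
  let E : ℕ → Set G := fun i => (Bad (A i) (e i).2 (2 ^ (i + 2)))ᶜ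
  obtain ⟨U, hU⟩ := Ultrafilter.exists_ultrafilter_of_finite_inter_nonempty (Set.range E) (by
    intro T hT
    have : ∀ t : T, ∃ i, E i = t := fun t => hT t.2
    choose f hf using this
    obtain ⟨h, hh⟩ := avoid A (fun i => (e i).2) (Finset.univ.image f)
    refine ⟨h, fun t ht => ?_⟩
    have k := hh (f ⟨t, ht⟩) (Finset.mem_image_of_mem _ (Finset.mem_univ _))
    have k2 : h ∈ E (f ⟨t, ht⟩) := k
    rwa [hf] at k2)
  have hE : ∀ i, E i ∈ U := fun i => hU ⟨i, rfl⟩
  refine ⟨fun a b => ∀ᶠ h in (U : Filter G), h * a < h * b, ?_, ?_, ?_⟩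
  · refine @IsStrictTotalOrder.mk _ _ ⟨fun a b h1 h2 => ?_⟩ (@IsStrictOrder.mk _ _ ⟨fun a h => ?_⟩
      ⟨fun a b c h1 h2 => ?_⟩)
    · by_contra hab
      rw [← Ultrafilter.eventually_not] at h1 h2
      obtain ⟨h, k1, k2⟩ := (h1.and h2).exists
      exact hab (mul_left_cancel (le_antisymm (not_lt.1 k2) (not_lt.1 k1)))
    · obtain ⟨_, k⟩ := h.exists
      exact lt_irrefl _ k
    · filter_upwards [h1, h2] with h k1 k2 using k1.trans k2
  · intro a b c h
    filter_upwards [h] with x hx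
    simpa [mul_assoc] using hR _ _ c hx
  · intro u g hu
    obtain ⟨i, hi⟩ := he (u, g)
    have k1 : ⋃ k ∈ Set.Icc 1 (2 ^ (i + 2)), {h : G | h * g ^ k < h * (g ^ k * u)} ∈ U := by
      have k2 : ∀ᶠ h in (U : Filter G), h ∈ E i := hE i
      have k3 : ∀ᶠ h in (U : Filter G),
          h ∈ ⋃ k ∈ Set.Icc 1 (2 ^ (i + 2)), {h : G | h * g ^ k < h * (g ^ k * u)} := by
        filter_upwards [hu, k2] with h k4 k5
        simp only [E, Bad, A, hi, Set.mem_compl_iff, Set.mem_ofPred_eq, not_and, not_forall,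
          not_not] at k5
        obtain ⟨k, k6, k7, k8⟩ := k5 (by simpa using k4)
        simp only [Set.mem_iUnion]
        exact ⟨k, ⟨k6, k7⟩, by simpa [mul_assoc] using k8⟩
      exact k3
    rw [Ultrafilter.finite_biUnion_mem_iff (Set.finite_Icc _ _)] at k1
    obtain ⟨k, hk, k2⟩ := k1
    exact ⟨k, hk.1, k2⟩

end Pool.Agent.H18.RO
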