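import Pool.Agent.H18.RO1

set_option autoImplicit false

namespace Pool.Agent.H18.RO

section
variable {G : Type} [Group G] [LinearOrder G] (hR : ∀ a b c : G, a < b → a * c < b * c)
include hR

lemma hle (a b c : G) (h : a ≤ b) : a * c ≤ b * c := by
  rcases h.lt_or_eq with h | h
  · exact (hR _ _ c h).le
  · rw [h]

lemma zmono (a : G) (ha : 1 < a) : StrictMono (fun n : ℤ => a ^ n) := by
  apply strictMono_int_of_lt_succ
  intro n
  have := hR _ _ (a ^ n) ha
  rwa [one_mul, ← zpow_one_add, add_comm] at this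

lemma nmono (a : G) (ha : 1 < a) : StrictMono (fun n : ℕ => a ^ n) := by
  apply strictMono_nat_of_lt_succ
  intro n
  have := hR _ _ (a ^ n) ha
  rwa [one_mul, ← pow_succ'] at this

variable (hrec : ∀ u g : G, 1 < u → ∃ k : ℕ, 1 ≤ k ∧ g ^ k < g ^ k * u)
include hrec

lemma rec_big (u g : G) (hu : 1 < u) (n : ℕ) : ∃ k, n ≤ k ∧ g ^ k < g ^ k * u := by
  induction n with
  | zero => exact ⟨0, le_rfl, by simpa using hu⟩
  | succ n ih =>
    obtain ⟨k, hk, h1⟩ := ih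
    have h2 := hR _ _ (g ^ k)⁻¹ h1
    rw [mul_inv_cancel] at h2
    obtain ⟨j, hj, h3⟩ := hrec _ g h2
    refine ⟨j + k, by omega, ?_⟩
    have h4 := hR _ _ (g ^ k) h3
    rw [pow_add]
    simpa [mul_assoc] using h4

lemma jim (a u : G) (ha : 1 < a) (hu : 1 < u) (m : ℕ) : a ^ m < a ^ (m + 1) * u := by
  by_contra hcon
  rw [not_lt] at hcon
  have h1 : ∀ k : ℕ, a ^ m * (a * u) ^ k ≤ a ^ m := by
    intro k
    induction k with
    | zero => simp
    | succ k ih =>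
      have := hle hR _ _ (a * u) ih
      rw [pow_succ, ← mul_assoc]
      refine this.trans ?_
      rwa [← mul_assoc, ← pow_succ]
  have h2 : u ≤ a ^ m := by
    have : 1 < a ^ (m + 1) := by simpa using nmono hR a ha (show 0 < m + 1 by omega)
    have := hR _ _ u this
    rw [one_mul] at this
    exact this.le.trans hcon
  have h3 : ∀ k : ℕ, (u * a) ^ (k + 1) = u * (a * u) ^ k * a := by
    intro k
    induction k with
    | zero => simp
    | succ k ih => rw [pow_succ, ih, pow_succ]; simp [mul_assoc]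
  have h4 : ∀ k : ℕ, (u * a) ^ (k + 1) ≤ a ^ (m + 1) := by
    intro k
    rw [h3, pow_succ]
    exact hle hR _ _ a ((hle hR _ _ _ h2).trans (h1 k))
  have hg : 1 < u * a := by
    have := hR _ _ a hu
    rw [one_mul] at this
    exact ha.trans this
  have h5 : ∀ j : ℕ, ∃ k : ℕ, a ^ j ≤ (u * a) ^ k := by
    intro j
    induction j with
    | zero => exact ⟨0, by simp⟩
    | succ j ih =>
      obtain ⟨k0, hk0⟩ := ih
      obtain ⟨k, hk, h6⟩ := rec_big hR hrec u (u * a) hu k0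
      refine ⟨k + 1, ?_⟩
      have h7 : a ^ j ≤ (u * a) ^ k := hk0.trans ((nmono hR _ hg).monotone hk)
      rw [pow_succ, pow_succ, ← mul_assoc]
      exact hle hR _ _ a (h7.trans h6.le)
  obtain ⟨k, hk⟩ := h5 (m + 2)
  have h8 : (u * a) ^ k ≤ (u * a) ^ (k + 1) := (nmono hR _ hg).monotone (Nat.le_succ k)
  have h9 : a ^ (m + 1) < a ^ (m + 2) := nmono hR a ha (by omega)
  exact absurd (hk.trans (h8.trans (h4 k))) (not_le.2 h9)

end

section
variable {G : Type} [Group G] [LinearOrder G] (hR : ∀ a b c : G, a < b → a * c < b * c)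
  (hrec : ∀ u g : G, 1 < u → ∃ k : ℕ, 1 ≤ k ∧ g ^ k < g ^ k * u)
include hR hrec

lemma jim' (a u : G) (ha : a < 1) (hu : u < 1) (m : ℕ) : a ^ (m + 1) * u < a ^ m := by
  refine jim (G := Gᵒᵈ) (fun a b c h => hR b a c h) ?_ a u ha hu m
  intro u g hu
  have h1 : (1 : G) < (OrderDual.ofDual u)⁻¹ := by
    have := hR _ _ (OrderDual.ofDual u)⁻¹ (show OrderDual.ofDual u < 1 from hu)
    simpa using this
  obtain ⟨k, hk, h2⟩ := hrec _ (OrderDual.ofDual g) h1
  refine ⟨k, hk, ?_⟩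
  have := hR _ _ (OrderDual.ofDual u) h2
  rw [inv_mul_cancel_right] at this
  exact this

lemma disp (a g : G) (ha : 1 < a) (M : ℤ) (hg : g < a ^ M) (n : ℤ) :
    a ^ n * g < a ^ (n + M + 1) := by
  rcases le_or_gt 0 n with hn | hn
  · obtain ⟨m, rfl⟩ := Int.eq_ofNat_of_zero_le hn
    have h1 := hR _ _ g⁻¹ hg
    rw [mul_inv_cancel] at h1
    have h2 := hR _ _ g (jim hR hrec a _ ha h1 m)
    have e : a ^ (m + 1) * (a ^ M * g⁻¹) * g = a ^ ((m : ℤ) + M + 1) := by group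
    rw [e] at h2
    simpa using h2
  · obtain ⟨m, rfl⟩ : ∃ m : ℕ, n = -((m : ℤ) + 1) := ⟨(-n - 1).toNat, by omega⟩
    have h1 := hR _ _ (a ^ M)⁻¹ hg
    rw [mul_inv_cancel] at h1
    have h0 : a⁻¹ < 1 := by simpa using hR _ _ a⁻¹ ha
    have h2 := hR _ _ (a ^ M) (jim' hR hrec a⁻¹ _ h0 h1 m)
    have e1 : a⁻¹ ^ (m + 1) * (g * (a ^ M)⁻¹) * a ^ M = a ^ (-((m : ℤ) + 1)) * g := by group
    have e2 : a⁻¹ ^ m * a ^ M = a ^ (-((m : ℤ) + 1) + M + 1) := by group
    rwa [e1, e2] at h2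

lemma cofinal (a : G) (ha : 1 < a) (Y : Set G) (hY : Subgroup.closure Y = ⊤)
    (hy : ∀ y ∈ Y, y ≤ a ∧ y⁻¹ ≤ a) (g : G) : ∃ M M' : ℤ, a ^ M' < g ∧ g < a ^ M := by
  have hm := zmono hR a ha
  have step : ∀ y : G, y ≤ a → y⁻¹ ≤ a → ∀ h : G, (∃ M M' : ℤ, a ^ M' < h ∧ h < a ^ M) →
      ∃ M M' : ℤ, a ^ M' < h * y ∧ h * y < a ^ M := by
    rintro y h1 h2 h ⟨M, M', h3, h4⟩
    have h5 : a < a ^ (2 : ℤ) := by simpa using hm (show (1 : ℤ) < 2 by norm_num)
    refine ⟨M + 2 + 1, M' - 3, ?_, (hR _ _ y h4).trans (disp hR hrec a y ha 2 (h1.trans_lt h5) M)⟩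
    have h6 := hR _ _ y (disp hR hrec a y⁻¹ ha 2 (h2.trans_lt h5) (M' - 3))
    rw [inv_mul_cancel_right, show M' - 3 + 2 + 1 = M' by ring] at h6
    exact h6.trans (hR _ _ y h3)
  have hg : g ∈ Subgroup.closure Y := hY ▸ Subgroup.mem_top g
  induction hg using Subgroup.closure_induction_right with
  | one => exact ⟨1, -1, by simpa using hm (show (-1 : ℤ) < 0 by norm_num), by simpa using ha⟩
  | mul_right x _ y hy' ih => exact step y (hy y hy').1 (hy y hy').2 x ih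
  | mul_inv_cancel x _ y hy' ih => exact step y⁻¹ (hy y hy').2 (by simpa using (hy y hy').1) x ih

lemma hom_of [Group.IsSolvable G] (a : G) (ha : 1 < a)
    (hc : ∀ g : G, ∃ M M' : ℤ, a ^ M' < g ∧ g < a ^ M) :
    ∃ φ : G →* Multiplicative ℝ, φ a ≠ 1 := by
  have hm := zmono hR a ha
  have hf : ∀ h : G, ∃ n : ℤ, a ^ n ≤ h ∧ h < a ^ (n + 1) := by
    intro h
    obtain ⟨M, M', h1, h2⟩ := hc h
    obtain ⟨n, h3, h4⟩ := Int.exists_greatest_of_bdd (P := fun n : ℤ => a ^ n ≤ h)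
      ⟨M, fun z hz => (hm.lt_iff_lt.1 (hz.trans_lt h2)).le⟩ ⟨M', h1.le⟩
    refine ⟨n, h3, ?_⟩
    by_contra h5
    have := h4 _ (not_lt.1 h5)
    omega
  choose f hf1 hf2 using hf
  have hup : ∀ g : G, ∃ C : ℤ, ∀ h, f (h * g) - f h ≤ C := by
    intro g
    obtain ⟨M, -, -, h2⟩ := hc g
    refine ⟨M + 2, fun h => ?_⟩
    have h3 := (hf1 (h * g)).trans_lt ((hR _ _ g (hf2 h)).trans (disp hR hrec a g ha M h2 _))
    have := hm.lt_iff_lt.1 h3
    omega
  have hb : ∀ g : G, Bd (fun h => ((f (h * g) : ℝ) - f h)) := by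
    intro g
    obtain ⟨C, hC⟩ := hup g
    obtain ⟨D, hD⟩ := hup g⁻¹
    refine ⟨(|C| + |D| : ℤ), fun h => ?_⟩
    have h1 := hC h
    have h2 := hD (h * g)
    rw [mul_inv_cancel_right] at h2
    have h3 : |f (h * g) - f h| ≤ |C| + |D| := by
      rw [abs_le]
      constructor <;> linarith [le_abs_self C, le_abs_self D, abs_nonneg C, abs_nonneg D]
    show |((f (h * g) : ℝ) - f h)| ≤ _
    exact_mod_cast h3
  obtain ⟨μ, h1, h2, h3, h4⟩ := mean (G := G)
  have ha1 : ∀ h, f (h * a) = f h + 1 := by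
    intro h
    have k1 := hle hR _ _ a (hf1 h)
    have k2 := hR _ _ a (hf2 h)
    rw [← zpow_add_one] at k1 k2
    have k3 := hm.lt_iff_lt.1 ((hf1 (h * a)).trans_lt k2)
    have k4 := hm.lt_iff_lt.1 (k1.trans_lt (hf2 (h * a)))
    omega
  refine ⟨MonoidHom.mk' (fun g => Multiplicative.ofAdd (μ fun h => ((f (h * g) : ℝ) - f h))) ?_,
    ?_⟩
  · intro g g'
    rw [← ofAdd_add]
    congr 1
    rw [← h4 (fun h => ((f (h * g') : ℝ) - f h)) g, ← h1 _ _ (hb g) ((Bd_shift _ g).2 (hb g'))]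
    congr 1
    ext h
    simp [mul_assoc]
  · intro h
    have k1 : μ (fun h => ((f (h * a) : ℝ) - f h)) = 0 := congrArg Multiplicative.toAdd h
    have k2 := h3 _ 1 (hb a) (fun x => by simp [ha1])
    linarith

end

theorem indicable {G : Type} [Group G] [Group.IsSolvable G] [Nontrivial G] [LinearOrder G]
    (hR : ∀ a b c : G, a < b → a * c < b * c) (Y : Set G) (hfin : Y.Finite)
    (hY : Subgroup.closure Y = ⊤) : ∃ φ : G →* Multiplicative ℝ, ∃ y ∈ Y, φ y ≠ 1 := by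
  classical
  have hcount : Countable G := by
    have := hfin.to_subtype
    have h1 : Countable (FreeGroup Y) :=
      Function.Surjective.countable (f := (FreeGroup.mk : List (Y × Bool) → FreeGroup Y))
        Quot.mk_surjective
    have h2 : Function.Surjective (FreeGroup.lift (Subtype.val : Y → G)) := by
      rw [← MonoidHom.range_eq_top, FreeGroup.range_lift_eq_closure, Subtype.range_coe, hY]
    exact h2.countable
  obtain ⟨r, hr, h1, h2⟩ := recurrent hR
  have key : ∀ _ : LinearOrder G, (∀ a b c : G, a < b → a * c < b * c) →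
      (∀ u g : G, 1 < u → ∃ k : ℕ, 1 ≤ k ∧ g ^ k < g ^ k * u) →
      ∃ φ : G →* Multiplicative ℝ, ∃ y ∈ Y, φ y ≠ 1 := by
    intro _ hR hrec
    have hne : ∃ y ∈ Y, y ≠ 1 := by
      by_contra hcon
      push Not at hcon
      have : Subgroup.closure Y ≤ ⊥ := (Subgroup.closure_le _).2 fun y hy => hcon y hy
      rw [hY] at this
      exact absurd (le_bot_iff.1 this) top_ne_bot
    obtain ⟨y0, hy0, hy1⟩ := hne
    obtain ⟨a, -, ha⟩ := Set.exists_max_image (Y ∪ Y⁻¹) id (hfin.union hfin.inv)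
      ⟨y0, Or.inl hy0⟩
    have hy : ∀ y ∈ Y, y ≤ a ∧ y⁻¹ ≤ a := fun y hy =>
      ⟨ha y (Or.inl hy), ha y⁻¹ (Or.inr (by simpa using hy))⟩
    have ha1 : 1 < a := by
      rcases lt_or_gt_of_ne hy1 with h | h
      · have := hR _ _ y0⁻¹ h
        rw [mul_inv_cancel, one_mul] at this
        exact this.trans_le (hy y0 hy0).2
      · exact h.trans_le (hy y0 hy0).1
    obtain ⟨φ, hφ⟩ := hom_of hR hrec a ha1 (cofinal hR hrec a ha1 Y hY hy)
    refine ⟨φ, ?_⟩
    by_contra hcon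
    push Not at hcon
    have : Subgroup.closure Y ≤ φ.ker := (Subgroup.closure_le _).2 fun y hy => hcon y hy
    rw [hY] at this
    exact hφ (this (Subgroup.mem_top a))
  exact key (linearOrderOfSTO r) h1 h2

end Pool.Agent.H18.RO
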