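import Pool.Agent.H18.RO2

set_option autoImplicit false

namespace Pool.Agent.H18.RO

open scoped commutatorElement

variable {G : Type} [Group G]

/-- conjugates of elements of `X` by elements of `S` -/
def cj (X S : Set G) : Set G := {y | ∃ x ∈ X, ∃ g ∈ S, y = g⁻¹ * x * g}

lemma cj_fin {X S : Set G} (hX : X.Finite) (hS : S.Finite) : (cj X S).Finite := by
  refine (Set.Finite.image2 (fun x g => g⁻¹ * x * g) hX hS).subset ?_
  rintro _ ⟨x, hx, g, hg, rfl⟩
  exact ⟨x, hx, g, hg, rfl⟩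

lemma conj_mem_of {Y : Set G} {K : Subgroup G} (g : G) (h : ∀ y ∈ Y, g⁻¹ * y * g ∈ K) :
    ∀ w ∈ Subgroup.closure Y, g⁻¹ * w * g ∈ K := by
  intro w hw
  induction hw using Subgroup.closure_induction with
  | mem y hy => exact h y hy
  | one => simp
  | mul a b _ _ ha hb =>
    have := K.mul_mem ha hb
    simpa [mul_assoc] using this
  | inv a _ ha =>
    have := K.inv_mem ha
    simpa [mul_assoc] using this

lemma fin_T (X : Set G) (hX : Subgroup.normalClosure X = ⊤) (W : Set G) (hW : W.Finite) :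
    ∃ T : Set G, T.Finite ∧ ∀ w ∈ W, w ∈ Subgroup.closure (cj X T) := by
  have mono : ∀ T T' : Set G, T ⊆ T' → Subgroup.closure (cj X T) ≤ Subgroup.closure (cj X T') :=
    fun T T' h => Subgroup.closure_mono fun _ ⟨x, hx, g, hg, e⟩ => ⟨x, hx, g, h hg, e⟩
  have one : ∀ w : G, ∃ T : Set G, T.Finite ∧ w ∈ Subgroup.closure (cj X T) := by
    intro w
    have hw : w ∈ Subgroup.normalClosure X := hX ▸ Subgroup.mem_top w
    induction hw using Subgroup.closure_induction with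
    | mem y hy =>
      obtain ⟨x, hx, hc⟩ := Group.mem_conjugatesOfSet_iff.1 hy
      obtain ⟨c, rfl⟩ := isConj_iff.1 hc
      exact ⟨{c⁻¹}, Set.finite_singleton _, Subgroup.subset_closure ⟨x, hx, c⁻¹, rfl, by simp⟩⟩
    | one => exact ⟨∅, Set.finite_empty, Subgroup.one_mem _⟩
    | mul a b _ _ ha hb =>
      obtain ⟨T, hT, ha⟩ := ha
      obtain ⟨T', hT', hb⟩ := hb
      exact ⟨T ∪ T', hT.union hT', Subgroup.mul_mem _ (mono _ _ Set.subset_union_left ha)
        (mono _ _ Set.subset_union_right hb)⟩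
    | inv a _ ha =>
      obtain ⟨T, hT, ha⟩ := ha
      exact ⟨T, hT, Subgroup.inv_mem _ ha⟩
  choose T hT hT' using one
  exact ⟨⋃ w ∈ W, T w, hW.biUnion fun w _ => hT w,
    fun w hw => mono _ _ (Set.subset_biUnion_of_mem hw) (hT' w)⟩

lemma closing (X : Set G) (hX : Subgroup.normalClosure X = ⊤) (n : ℕ) :
    ∀ W : Set G, W.Finite → ∃ S : Set G, S.Finite ∧ (1 : G) ∈ S ∧
      ∀ g ∈ S, ∀ w ∈ W, g⁻¹ * w * g ∈ Subgroup.closure (cj X S) ⊔ derivedSeries G n := by
  induction n with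
  | zero =>
    intro W _
    exact ⟨{1}, Set.finite_singleton _, rfl, fun g _ w _ =>
      Subgroup.mem_sup_right (Subgroup.mem_top _)⟩
  | succ n ih =>
    intro W hW
    obtain ⟨T, hT, hWT⟩ := fin_T X hX W hW
    obtain ⟨S, hS, h1, hST⟩ := ih T hT
    have hD := derivedSeries_normal G n
    have : ∀ g t : G, ∃ a ∈ derivedSeries G n, g ∈ S → t ∈ T →
        ∃ ν ∈ Subgroup.closure (cj X S), ν * a = g⁻¹ * t * g := by
      intro g t
      by_cases h : g ∈ S ∧ t ∈ T
      · obtain ⟨ν, hν, a, ha, e⟩ := Subgroup.mem_sup_of_normal_right.1 (hST g h.1 t h.2)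
        exact ⟨a, ha, fun _ _ => ⟨ν, hν, e⟩⟩
      · exact ⟨1, Subgroup.one_mem _, fun h1 h2 => absurd ⟨h1, h2⟩ h⟩
    choose a ha ha' using this
    let U : Set G := insert 1 (Set.image2 a S T)
    have hU : U.Finite := (hS.image2 a hT).insert 1
    have hUD : ∀ u ∈ U, u ∈ derivedSeries G n := by
      rintro u (rfl | ⟨g, _, t, _, rfl⟩)
      · exact Subgroup.one_mem _
      · exact ha g t
    let S' : Set G := Set.image2 (· * ·) S U
    refine ⟨S', hS.image2 _ hU, ⟨1, h1, 1, Or.inl rfl, mul_one _⟩, ?_⟩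
    set K := Subgroup.closure (cj X S') ⊔ derivedSeries G (n + 1)
    have k1 : ∀ u ∈ U, ∀ ν ∈ Subgroup.closure (cj X S), u⁻¹ * ν * u ∈ K := by
      intro u hu
      apply conj_mem_of
      rintro _ ⟨x, hx, g, hg, rfl⟩
      refine Subgroup.mem_sup_left (Subgroup.subset_closure ⟨x, hx, g * u, ⟨g, hg, u, hu, rfl⟩, ?_⟩)
      group
    have k2 : ∀ ν ∈ Subgroup.closure (cj X S), ν ∈ K := fun ν hν => by
      simpa using k1 1 (Or.inl rfl) ν hν
    have k3 : ∀ u ∈ U, ∀ v ∈ U, ∀ ν ∈ Subgroup.closure (cj X S),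
        (u * v)⁻¹ * ν * (u * v) ∈ K := by
      intro u hu v hv ν hν
      have d1 : ν⁻¹ * u⁻¹ * ν * u ∈ derivedSeries G n := by
        have := hD.conj_mem _ ((derivedSeries G n).inv_mem (hUD u hu)) ν⁻¹
        rw [inv_inv] at this
        exact Subgroup.mul_mem _ this (hUD u hu)
      have d2 : ⁅v⁻¹, ν⁻¹ * u⁻¹ * ν * u⁆ ∈ K := by
        apply Subgroup.mem_sup_right
        rw [derivedSeries_succ]
        exact Subgroup.commutator_mem_commutator ((derivedSeries G n).inv_mem (hUD v hv)) d1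
      have d3 : ν⁻¹ * (u⁻¹ * ν * u) ∈ K := K.mul_mem (K.inv_mem (k2 ν hν)) (k1 u hu ν hν)
      have := K.mul_mem (K.mul_mem (k1 v hv ν hν) d2) d3
      convert this using 1
      rw [commutatorElement_def]
      group
    rintro _ ⟨g, hg, v, hv, rfl⟩ w hw
    refine conj_mem_of (g * v) ?_ w (hWT w hw)
    rintro _ ⟨x, hx, t, ht, rfl⟩
    obtain ⟨ν, hν, e⟩ := ha' g t hg ht
    have hx' : g⁻¹ * x * g ∈ Subgroup.closure (cj X S) :=
      Subgroup.subset_closure ⟨x, hx, g, hg, rfl⟩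
    have := k3 (a g t) (Or.inr ⟨g, hg, t, ht, rfl⟩) v hv _
      (Subgroup.mul_mem _ (Subgroup.mul_mem _ (Subgroup.inv_mem _ hν) hx') hν)
    convert this using 1
    have e2 : a g t = ν⁻¹ * (g⁻¹ * t * g) := by rw [← e]; group
    rw [e2]
    group

lemma comm_wit (c : G) (hc : c ∈ commutator G) : ∃ W : Set G, W.Finite ∧
    ∀ (N : Subgroup G) (φ : N →* Multiplicative ℝ) (g : G), (∀ w ∈ W, g⁻¹ * w * g ∈ N) →
      ∃ h : g⁻¹ * c * g ∈ N, φ ⟨_, h⟩ = 1 := by
  rw [commutator_eq_closure] at hc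
  induction hc using Subgroup.closure_induction with
  | mem y hy =>
    obtain ⟨a, b, rfl⟩ := hy
    refine ⟨{a, b}, Set.toFinite _, fun N φ g h => ?_⟩
    have ha := h a (by simp)
    have hb := h b (by simp)
    have e : g⁻¹ * ⁅a, b⁆ * g = ((⁅(⟨_, ha⟩ : N), (⟨_, hb⟩ : N)⁆ : N) : G) := by
      simp only [commutatorElement_def, Subgroup.coe_mul, Subgroup.coe_inv]
      group
    refine ⟨e ▸ Subtype.property _, ?_⟩
    have e2 : (⟨g⁻¹ * ⁅a, b⁆ * g, e ▸ Subtype.property _⟩ : N) = ⁅(⟨_, ha⟩ : N), (⟨_, hb⟩ : N)⁆ :=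
      Subtype.ext e
    rw [e2, map_commutatorElement, commutatorElement_eq_one_iff_mul_comm, mul_comm]
  | one => exact ⟨∅, Set.finite_empty, fun N φ g _ => ⟨by simp, by
      rw [← map_one φ]; congr 1; exact Subtype.ext (by simp)⟩⟩
  | mul a b _ _ ha hb =>
    obtain ⟨W, hW, ha⟩ := ha
    obtain ⟨W', hW', hb⟩ := hb
    refine ⟨W ∪ W', hW.union hW', fun N φ g h => ?_⟩
    obtain ⟨h1, h2⟩ := ha N φ g fun w hw => h w (Or.inl hw)
    obtain ⟨h3, h4⟩ := hb N φ g fun w hw => h w (Or.inr hw)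
    have e : g⁻¹ * (a * b) * g = (g⁻¹ * a * g) * (g⁻¹ * b * g) := by group
    refine ⟨e ▸ N.mul_mem h1 h3, ?_⟩
    have e2 : (⟨g⁻¹ * (a * b) * g, e ▸ N.mul_mem h1 h3⟩ : N) = ⟨_, h1⟩ * ⟨_, h3⟩ := Subtype.ext e
    rw [e2, map_mul, h2, h4, mul_one]
  | inv a _ ha =>
    obtain ⟨W, hW, ha⟩ := ha
    refine ⟨W, hW, fun N φ g h => ?_⟩
    obtain ⟨h1, h2⟩ := ha N φ g h
    have e : g⁻¹ * a⁻¹ * g = (g⁻¹ * a * g)⁻¹ := by group
    refine ⟨e ▸ N.inv_mem h1, ?_⟩
    have e2 : (⟨g⁻¹ * a⁻¹ * g, e ▸ N.inv_mem h1⟩ : N) = (⟨_, h1⟩ : N)⁻¹ := Subtype.ext e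
    rw [e2, map_inv, h2, inv_one]

theorem main [Group.IsSolvable G] [Nontrivial G] [LinearOrder G]
    (hR : ∀ a b c : G, a < b → a * c < b * c) [hfin : Finite (Abelianization G)] : False := by
  have hsurj : Function.Surjective (Abelianization.of : G → Abelianization G) :=
    Quot.mk_surjective
  choose s hs using hsurj
  let X : Set G := Set.range s
  have hXf : X.Finite := Set.finite_range s
  have hX : Subgroup.normalClosure X = ⊤ := by
    set K := Subgroup.normalClosure X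
    by_contra hK
    have : Nontrivial (G ⧸ K) := QuotientGroup.nontrivial_iff.2 hK
    have h1 := Group.IsSolvable.commutator_lt_top_of_nontrivial (G ⧸ K)
    apply h1.ne
    rw [eq_top_iff]
    intro q _
    obtain ⟨g, rfl⟩ := QuotientGroup.mk_surjective q
    have h2 : (s (Abelianization.of g))⁻¹ * g ∈ commutator G := by
      rw [← Abelianization.ker_of, MonoidHom.mem_ker, map_mul, map_inv, hs, inv_mul_cancel]
    have h3 : (QuotientGroup.mk' K) ((s (Abelianization.of g))⁻¹ * g) ∈ commutator (G ⧸ K) := by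
      have := Subgroup.mem_map_of_mem (QuotientGroup.mk' K) h2
      rw [map_commutator_eq] at this
      exact Subgroup.commutator_mono le_top le_top this
    have h4 : (QuotientGroup.mk' K) (s (Abelianization.of g)) = 1 :=
      (QuotientGroup.eq_one_iff _).2 (Subgroup.subset_normalClosure ⟨_, rfl⟩)
    rwa [map_mul, map_inv, h4, inv_one, one_mul] at h3
  set m := Nat.card (Abelianization G)
  have hm : m ≠ 0 := Nat.card_pos.ne'
  have hpow : ∀ x : G, x ^ m ∈ commutator G := fun x => by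
    rw [← Abelianization.ker_of, MonoidHom.mem_ker, map_pow, pow_card_eq_one']
  choose W hW hW' using fun x : G => comm_wit _ (hpow x)
  obtain ⟨n, hn⟩ := Group.IsSolvable.solvable (G := G)
  obtain ⟨S, hS, h1, hST⟩ := closing X hX n (⋃ x ∈ X, W x) (hXf.biUnion fun x _ => hW x)
  rw [hn, sup_bot_eq] at hST
  set N := Subgroup.closure (cj X S)
  have hN : Nontrivial N := by
    rw [Subgroup.nontrivial_iff_ne_bot]
    intro hb
    have : Subgroup.normalClosure X ≤ ⊥ := by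
      apply Subgroup.normalClosure_le_normal
      intro x hx
      have : x ∈ N := Subgroup.subset_closure ⟨x, hx, 1, h1, by simp⟩
      rwa [hb] at this
    rw [hX] at this
    exact absurd (le_bot_iff.1 this) top_ne_bot
  obtain ⟨φ, y, ⟨x, hx, g, hg, e⟩, hφ⟩ := indicable (G := N) (fun a b c h => hR a b c h)
    (Subtype.val ⁻¹' cj X S) ((cj_fin hXf hS).preimage Subtype.val_injective.injOn)
    Subgroup.closure_closure_coe_preimage
  obtain ⟨h2, h3⟩ := hW' x N φ g fun w hw => hST g hg w (Set.mem_biUnion hx hw)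
  have e2 : (⟨g⁻¹ * x ^ m * g, h2⟩ : N) = y ^ m := by
    apply Subtype.ext
    rw [Subgroup.coe_pow, e]
    simpa using (conj_pow (a := g⁻¹) (b := x) (i := m)).symm
  rw [e2, map_pow] at h3
  have h4 : m • Multiplicative.toAdd (φ y) = 0 := congrArg Multiplicative.toAdd h3
  rw [smul_eq_zero] at h4
  rcases h4 with h | h
  · exact hm h
  · exact hφ h

end Pool.Agent.H18.RO
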