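import Mathlib

set_option autoImplicit false

open Finset

namespace Pool.Agent.H18.Rd

open Classical in
lemma lemW {ι : Type*} (S : Finset ι) (v w : ι → ℝ) (hv : ∀ s, 0 ≤ v s) (hw : ∀ s, 0 ≤ w s)
    (t : ℕ) (ht : (#S : ℝ) ≤ 2 ^ t) (J : Finset ℤ)
    (hJ : ∀ s ∈ S, 0 < v s → Int.log 2 (v s) ∈ J) :
    (∑ s ∈ S, v s * w s) ^ 2 ≤ 2 * ((∑ s ∈ S, v s ^ 2) * (∑ s ∈ S, w s ^ 2) / #S) +
      8 * (t + 1) * ∑ j ∈ J, ((2 : ℝ) ^ j) ^ 2 *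
        (∑ s ∈ S with 0 < v s ∧ Int.log 2 (v s) = j, w s) ^ 2 := by
  set A := Real.sqrt (∑ s ∈ S, v s ^ 2) with hA
  have hA2 : A ^ 2 = ∑ s ∈ S, v s ^ 2 := Real.sq_sqrt (sum_nonneg fun _ _ => sq_nonneg _)
  have hA0 : 0 ≤ A := Real.sqrt_nonneg _
  have hvA : ∀ s ∈ S, v s ≤ A := fun s hs =>
    Real.le_sqrt_of_sq_le (single_le_sum (f := fun s => v s ^ 2) (fun _ _ => sq_nonneg _) hs)
  rcases S.eq_empty_or_nonempty with rfl | hne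
  · simp
  have hM : (0 : ℝ) < #S := by exact_mod_cast hne.card_pos
  set W : ℤ → ℝ := fun j => ∑ s ∈ S with 0 < v s ∧ Int.log 2 (v s) = j, w s with hW
  set J0 := J ∩ Icc (Int.log 2 A - t) (Int.log 2 A) with hJ0
  have h1 : ∑ s ∈ S, v s * w s ≤ A / #S * ∑ s ∈ S, w s + ∑ j ∈ J0, 2 * 2 ^ j * W j := by
    have e : ∑ j ∈ J0, 2 * 2 ^ j * W j = ∑ s ∈ S, ∑ j ∈ J0,
        if 0 < v s ∧ Int.log 2 (v s) = j then 2 * (2 : ℝ) ^ j * w s else 0 := by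
      rw [sum_comm]
      refine sum_congr rfl fun j _ => ?_
      simp only [hW, mul_sum, sum_filter, mul_ite, mul_zero]
    rw [e, mul_sum, ← sum_add_distrib]
    refine sum_le_sum fun s hs => ?_
    have hnn : ∀ j ∈ J0, 0 ≤ if 0 < v s ∧ Int.log 2 (v s) = j then 2 * (2 : ℝ) ^ j * w s else 0 :=
      fun j _ => by
        split_ifs
        · have := hw s; positivity
        · exact le_rfl
    by_cases h : v s ≤ A / #S
    · exact le_add_of_le_of_nonneg (mul_le_mul_of_nonneg_right h (hw s)) (sum_nonneg hnn)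
    push Not at h
    have hpos : 0 < v s := lt_of_le_of_lt (by positivity) h
    have hApos : 0 < A := hpos.trans_le (hvA s hs)
    have hmem : Int.log 2 (v s) ∈ J0 := by
      refine mem_inter.2 ⟨hJ s hs hpos, mem_Icc.2 ⟨?_, Int.log_mono_right hpos (hvA s hs)⟩⟩
      refine (Int.zpow_le_iff_le_log (b := 2) (by norm_num) hpos).1 ?_
      have h2 : ((2 : ℕ) : ℝ) ^ Int.log 2 A ≤ A := Int.zpow_log_le_self (by norm_num) hApos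
      push_cast at h2 ⊢
      rw [zpow_sub₀ (by norm_num), zpow_natCast]
      calc (2 : ℝ) ^ Int.log 2 A / 2 ^ t ≤ A / #S := by gcongr
        _ ≤ v s := h.le
    have h3 := single_le_sum hnn hmem
    rw [if_pos ⟨hpos, rfl⟩] at h3
    have h4 : v s < ((2 : ℕ) : ℝ) ^ (Int.log 2 (v s) + 1) :=
      Int.lt_zpow_succ_log_self (by norm_num) _
    push_cast at h4
    rw [zpow_add_one₀ (by norm_num)] at h4
    have h5 : 0 ≤ A / #S * w s := by have := hw s; positivity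
    have h6 : v s * w s ≤ 2 * 2 ^ Int.log 2 (v s) * w s :=
      mul_le_mul_of_nonneg_right (by linarith) (hw s)
    linarith
  have h2 : (A / #S * ∑ s ∈ S, w s) ^ 2 ≤ (∑ s ∈ S, v s ^ 2) * (∑ s ∈ S, w s ^ 2) / #S := by
    have := sq_sum_le_card_mul_sum_sq (s := S) (f := w)
    rw [mul_pow, div_pow, hA2, div_mul_eq_mul_div, div_le_div_iff₀ (by positivity) hM]
    have h0 : 0 ≤ ∑ s ∈ S, v s ^ 2 := sum_nonneg fun _ _ => sq_nonneg _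
    have := mul_le_mul_of_nonneg_left this (mul_nonneg h0 hM.le)
    nlinarith
  have h3 : (∑ j ∈ J0, 2 * 2 ^ j * W j) ^ 2 ≤ 4 * (t + 1) * ∑ j ∈ J, ((2 : ℝ) ^ j) ^ 2 * W j ^ 2 := by
    have hc : (#J0 : ℝ) ≤ t + 1 := by
      have := card_le_card (inter_subset_right (s₁ := J) (s₂ := Icc (Int.log 2 A - t) (Int.log 2 A)))
      rw [Int.card_Icc] at this
      have h' : #J0 ≤ t + 1 := this.trans (by omega)
      exact_mod_cast h'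
    calc _ ≤ (#J0 : ℝ) * ∑ j ∈ J0, (2 * 2 ^ j * W j) ^ 2 := sq_sum_le_card_mul_sum_sq
      _ ≤ ((t : ℝ) + 1) * ∑ j ∈ J, (2 * 2 ^ j * W j) ^ 2 := by
        gcongr
        exact inter_subset_left
      _ = _ := by
        rw [mul_comm 4, mul_assoc, mul_sum J _ 4]
        congr 1
        exact sum_congr rfl fun j _ => by ring
  have h0 : 0 ≤ ∑ s ∈ S, v s * w s := sum_nonneg fun s _ => mul_nonneg (hv s) (hw s)
  have h4 := pow_le_pow_left₀ h0 h1 2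
  nlinarith [sq_nonneg (A / #S * ∑ s ∈ S, w s - ∑ j ∈ J0, 2 * 2 ^ j * W j)]

open Classical in
lemma lev_sum {ι : Type*} (S : Finset ι) (v : ι → ℝ) (J : Finset ℤ) :
    ∑ j ∈ J, ((2 : ℝ) ^ j) ^ 2 * #{s ∈ S | 0 < v s ∧ Int.log 2 (v s) = j} ≤ ∑ s ∈ S, v s ^ 2 := by
  have e : ∑ j ∈ J, ((2 : ℝ) ^ j) ^ 2 * #{s ∈ S | 0 < v s ∧ Int.log 2 (v s) = j} = ∑ s ∈ S, ∑ j ∈ J,
      if 0 < v s ∧ Int.log 2 (v s) = j then ((2 : ℝ) ^ j) ^ 2 else 0 := by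
    rw [sum_comm]
    refine sum_congr rfl fun j _ => ?_
    rw [← sum_filter, sum_const, nsmul_eq_mul, mul_comm]
  rw [e]
  refine sum_le_sum fun s _ => ?_
  by_cases h : 0 < v s
  · simp only [h, true_and, sum_ite_eq]
    split_ifs
    · have h2 : ((2 : ℕ) : ℝ) ^ Int.log 2 (v s) ≤ v s := Int.zpow_log_le_self (by norm_num) h
      push_cast at h2
      gcongr
    · positivity
  · simp only [h, false_and, if_false, sum_const_zero]; positivity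

variable {G : Type*} [Group G]

open Classical in
lemma shift_sum (F Y : Finset G) (ψ : G → ℝ) (s : G) (h : ∀ g ∈ F, s⁻¹ * g ∈ Y) :
    ∑ g ∈ F, ψ (s⁻¹ * g) ^ 2 ≤ ∑ y ∈ Y, ψ y ^ 2 := by
  rw [← sum_image (s := F) (g := fun g => s⁻¹ * g) (f := fun y => ψ y ^ 2)
    fun a _ b _ hab => mul_left_cancel hab]
  refine sum_le_sum_of_subset_of_nonneg (fun y hy => ?_) fun _ _ _ => sq_nonneg _
  obtain ⟨g, hg, rfl⟩ := mem_image.1 hy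
  exact h g hg

open Classical in
lemma step1 (S F Y : Finset G) (ψ : G → ℝ) (hψ : ∀ g, 0 ≤ ψ g) (hY : ∀ s ∈ S, ∀ g ∈ F, s⁻¹ * g ∈ Y)
    (t : ℕ) (ht : (#S : ℝ) ≤ 2 ^ t) (P : ℝ) (hP0 : 0 ≤ P)
    (hP : ∀ X : Finset G, ∑ g ∈ F, (#{s ∈ S | s⁻¹ * g ∈ X} : ℝ) ^ 2 ≤ P * #S * #X) :
    ∑ g ∈ F, (∑ s ∈ S, ψ (s⁻¹ * g)) ^ 2 ≤ (2 + 8 * (t + 1) * P) * #S * ∑ y ∈ Y, ψ y ^ 2 := by
  set J := Y.image fun y => Int.log 2 (ψ y)
  have h1 : ∀ g ∈ F, (∑ s ∈ S, ψ (s⁻¹ * g)) ^ 2 ≤ 2 * (∑ s ∈ S, ψ (s⁻¹ * g) ^ 2) +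
      8 * (t + 1) * ∑ j ∈ J, ((2 : ℝ) ^ j) ^ 2 *
        (#{s ∈ S | s⁻¹ * g ∈ {y ∈ Y | 0 < ψ y ∧ Int.log 2 (ψ y) = j}} : ℝ) ^ 2 := fun g hg => by
    have := lemW S (fun s => ψ (s⁻¹ * g)) (fun _ => 1) (fun s => hψ _) (fun _ => zero_le_one) t ht J
      fun s hs _ => mem_image_of_mem _ (hY s hs g hg)
    simp only [mul_one, one_pow, sum_const, nsmul_eq_mul] at this
    refine this.trans (add_le_add ?_ (le_of_eq ?_))
    · rcases eq_or_ne (#S : ℝ) 0 with h | h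
      · rw [h, div_zero]
        have : 0 ≤ ∑ s ∈ S, ψ (s⁻¹ * g) ^ 2 := sum_nonneg fun _ _ => sq_nonneg _
        linarith
      · rw [mul_div_cancel_right₀ _ h]
    · congr 1
      refine sum_congr rfl fun j _ => ?_
      congr 4
      refine filter_congr fun s hs => ?_
      simp [hY s hs g hg]
  refine (sum_le_sum h1).trans ?_
  rw [sum_add_distrib, ← mul_sum, ← mul_sum, sum_comm, sum_comm (s := F)]
  have h2 : ∑ s ∈ S, ∑ g ∈ F, ψ (s⁻¹ * g) ^ 2 ≤ #S * ∑ y ∈ Y, ψ y ^ 2 := by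
    refine (sum_le_sum fun s hs => shift_sum F Y ψ s (hY s hs)).trans ?_
    rw [sum_const, nsmul_eq_mul]
  have h3 : ∑ j ∈ J, ∑ g ∈ F, ((2 : ℝ) ^ j) ^ 2 *
      (#{s ∈ S | s⁻¹ * g ∈ {y ∈ Y | 0 < ψ y ∧ Int.log 2 (ψ y) = j}} : ℝ) ^ 2 ≤
      P * #S * ∑ y ∈ Y, ψ y ^ 2 := by
    refine le_trans ?_ (mul_le_mul_of_nonneg_left (lev_sum Y ψ J) (by positivity))
    rw [mul_sum]
    refine sum_le_sum fun j _ => ?_
    rw [← mul_sum, mul_left_comm]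
    exact mul_le_mul_of_nonneg_left (hP _) (by positivity)
  have := mul_le_mul_of_nonneg_left h3 (show (0 : ℝ) ≤ 8 * (t + 1) by positivity)
  nlinarith

open Classical in
lemma step2 (S F Y : Finset G) (φ ψ : G → ℝ) (hφ : ∀ g, 0 ≤ φ g) (hψ : ∀ g, 0 ≤ ψ g)
    (hY : ∀ s ∈ S, ∀ g ∈ F, s⁻¹ * g ∈ Y)
    (t : ℕ) (ht : (#S : ℝ) ≤ 2 ^ t) (P : ℝ) (hP0 : 0 ≤ P)
    (hP : ∀ S' ⊆ S, ∀ X : Finset G, ∑ g ∈ F, (#{s ∈ S' | s⁻¹ * g ∈ X} : ℝ) ^ 2 ≤ P * #S' * #X) :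
    ∑ g ∈ F, (∑ s ∈ S, φ s * ψ (s⁻¹ * g)) ^ 2 ≤
      (2 + 8 * (t + 1) * (2 + 8 * (t + 1) * P)) * (∑ s ∈ S, φ s ^ 2) * ∑ y ∈ Y, ψ y ^ 2 := by
  set J := S.image fun y => Int.log 2 (φ y)
  have h1 := fun g => lemW S φ (fun s => ψ (s⁻¹ * g)) hφ (fun s => hψ _) t ht J
      fun s hs _ => mem_image_of_mem _ hs
  refine (sum_le_sum fun g _ => h1 g).trans ?_
  rw [sum_add_distrib, ← mul_sum, ← mul_sum, ← sum_div, ← mul_sum, sum_comm, sum_comm (s := F)]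
  have hA : 0 ≤ ∑ s ∈ S, φ s ^ 2 := sum_nonneg fun _ _ => sq_nonneg _
  have hB : 0 ≤ ∑ y ∈ Y, ψ y ^ 2 := sum_nonneg fun _ _ => sq_nonneg _
  have h2 : (∑ s ∈ S, φ s ^ 2) * (∑ s ∈ S, ∑ g ∈ F, ψ (s⁻¹ * g) ^ 2) / #S ≤
      (∑ s ∈ S, φ s ^ 2) * ∑ y ∈ Y, ψ y ^ 2 := by
    have : ∑ s ∈ S, ∑ g ∈ F, ψ (s⁻¹ * g) ^ 2 ≤ #S * ∑ y ∈ Y, ψ y ^ 2 := by
      refine (sum_le_sum fun s hs => shift_sum F Y ψ s (hY s hs)).trans ?_
      rw [sum_const, nsmul_eq_mul]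
    refine div_le_of_le_mul₀ (by positivity) (by positivity) ?_
    have := mul_le_mul_of_nonneg_left this hA
    nlinarith
  have h3 : ∑ j ∈ J, ∑ g ∈ F, ((2 : ℝ) ^ j) ^ 2 *
      (∑ s ∈ S with 0 < φ s ∧ Int.log 2 (φ s) = j, ψ (s⁻¹ * g)) ^ 2 ≤
      ((2 + 8 * (t + 1) * P) * ∑ y ∈ Y, ψ y ^ 2) * ∑ s ∈ S, φ s ^ 2 := by
    refine le_trans ?_ (mul_le_mul_of_nonneg_left (lev_sum S φ J) (by positivity))
    rw [mul_sum]
    refine sum_le_sum fun j _ => ?_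
    rw [← mul_sum, mul_left_comm]
    refine mul_le_mul_of_nonneg_left ?_ (by positivity)
    have := step1 {s ∈ S | 0 < φ s ∧ Int.log 2 (φ s) = j} F Y ψ hψ
      (fun s hs => hY s (mem_filter.1 hs).1) t
      (le_trans (by exact_mod_cast card_filter_le _ _) ht) P hP0 (hP _ (filter_subset _ _))
    linarith
  have := mul_le_mul_of_nonneg_left h3 (show (0 : ℝ) ≤ 8 * (t + 1) by positivity)
  nlinarith

end Pool.Agent.H18.Rd
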