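import Mathlib

set_option autoImplicit false

namespace Pool.Agent.H18.Sidon2
open Finset

lemma dig {b x y X Y : ℕ} (hx : x < b) (hy : y < b) (h : x + b * X = y + b * Y) :
    x = y ∧ X = Y := by
  have h1 : (x + b * X) % b = (y + b * Y) % b := by rw [h]
  rw [Nat.add_mul_mod_self_left, Nat.add_mul_mod_self_left, Nat.mod_eq_of_lt hx,
    Nat.mod_eq_of_lt hy] at h1
  subst h1
  refine ⟨rfl, ?_⟩
  have h2 : b * X = b * Y := by omega
  exact Nat.eq_of_mul_eq_mul_left (by omega) h2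

lemma step {b x X Y : ℕ} (hx : x < b) (h : X + 1 ≤ Y) : x + b * X + 1 ≤ b * Y := by
  have := Nat.mul_le_mul_left b h
  rw [mul_add] at this
  omega

variable {r : ℕ} [Fact r.Prime]

abbrev W (r : ℕ) := ZMod r × ZMod r × ZMod r × ZMod r × ZMod r × ZMod r

def enc (τ : ℕ) (w : W r) : ℕ :=
  w.1.val + 2 * r * (w.2.1.val + 2 * r * (w.2.2.1.val + 2 * r * (w.2.2.2.1.val +
    2 * r * (w.2.2.2.2.1.val + 2 * r * (w.2.2.2.2.2.val + 2 * r * τ))))) + 1

lemma cast_eq {a b c d : ZMod r} (h : a.val + b.val = c.val + d.val) : a + b = c + d := by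
  have := congrArg (fun n : ℕ => (n : ZMod r)) h
  simpa using this

lemma vlt (a b : ZMod r) : a.val + b.val < 2 * r := by
  have := ZMod.val_lt a
  have := ZMod.val_lt b
  omega

lemma vlt1 (a : ZMod r) : a.val < 2 * r := by
  have := ZMod.val_lt a
  omega

lemma enc_add {t1 t2 t3 t4 : ℕ} {w1 w2 w3 w4 : W r}
    (h : enc t1 w1 + enc t2 w2 = enc t3 w3 + enc t4 w4) :
    t1 + t2 = t3 + t4 ∧ w1 + w2 = w3 + w4 := by
  obtain ⟨a1, a2, a3, a4, a5, a6⟩ := w1
  obtain ⟨b1, b2, b3, b4, b5, b6⟩ := w2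
  obtain ⟨c1, c2, c3, c4, c5, c6⟩ := w3
  obtain ⟨d1, d2, d3, d4, d5, d6⟩ := w4
  simp only [enc] at h
  have h' : (a1.val + b1.val) + 2 * r * ((a2.val + b2.val) + 2 * r * ((a3.val + b3.val) +
      2 * r * ((a4.val + b4.val) + 2 * r * ((a5.val + b5.val) + 2 * r * ((a6.val + b6.val) +
      2 * r * (t1 + t2)))))) =
      (c1.val + d1.val) + 2 * r * ((c2.val + d2.val) + 2 * r * ((c3.val + d3.val) +
      2 * r * ((c4.val + d4.val) + 2 * r * ((c5.val + d5.val) + 2 * r * ((c6.val + d6.val) +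
      2 * r * (t3 + t4)))))) := by
    linarith
  obtain ⟨e1, h⟩ := dig (vlt _ _) (vlt _ _) h'
  obtain ⟨e2, h⟩ := dig (vlt _ _) (vlt _ _) h
  obtain ⟨e3, h⟩ := dig (vlt _ _) (vlt _ _) h
  obtain ⟨e4, h⟩ := dig (vlt _ _) (vlt _ _) h
  obtain ⟨e5, h⟩ := dig (vlt _ _) (vlt _ _) h
  obtain ⟨e6, h⟩ := dig (vlt _ _) (vlt _ _) h
  refine ⟨h, ?_⟩
  simp only [Prod.mk_add_mk, Prod.mk.injEq]
  exact ⟨cast_eq e1, cast_eq e2, cast_eq e3, cast_eq e4, cast_eq e5, cast_eq e6⟩

lemma enc_le (τ : ℕ) (w : W r) : enc τ w ≤ (2 * r) ^ 6 * (τ + 1) := by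
  have := step (vlt1 w.1) (step (vlt1 w.2.1) (step (vlt1 w.2.2.1) (step (vlt1 w.2.2.2.1)
    (step (vlt1 w.2.2.2.2.1) (step (vlt1 w.2.2.2.2.2) (le_refl (τ + 1)))))))
  unfold enc
  refine this.trans (le_of_eq ?_)
  ring

lemma enc_le4 (a b c d : ZMod r) : enc 0 ((a, b, c, d, 0, 0) : W r) ≤ (2 * r) ^ 4 := by
  have := step (vlt1 a) (step (vlt1 b) (step (vlt1 c) (step (vlt1 d) (le_refl (0 + 1)))))
  unfold enc
  simp only [ZMod.val_zero, mul_zero, add_zero] at this ⊢
  refine this.trans (le_of_eq ?_)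
  ring

def v1 (c a u : ZMod r) : W r := (a, u, a ^ 2 + c * u ^ 2, 2 * a * u, 0, 0)

lemma aniso {c : ZMod r} (hc : ¬ IsSquare c) {x y : ZMod r} (h : x ^ 2 - c * y ^ 2 = 0) :
    x = 0 ∧ y = 0 := by
  have hy : y = 0 := by
    by_contra hy
    apply hc
    refine ⟨x / y, ?_⟩
    field_simp
    linear_combination -h
  subst hy
  refine ⟨?_, rfl⟩
  have : x ^ 2 = 0 := by linear_combination h
  exact pow_eq_zero_iff (two_ne_zero) |>.mp this

lemma sidon1 {c : ZMod r} (hc : ¬ IsSquare c) (h2 : (2 : ZMod r) ≠ 0)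
    {a1 u1 a2 u2 a3 u3 a4 u4 : ZMod r}
    (h : v1 c a1 u1 + v1 c a2 u2 = v1 c a3 u3 + v1 c a4 u4) :
    (a1 = a3 ∧ u1 = u3 ∧ a2 = a4 ∧ u2 = u4) ∨ (a1 = a4 ∧ u1 = u4 ∧ a2 = a3 ∧ u2 = u3) := by
  simp only [v1, Prod.mk_add_mk, Prod.mk.injEq] at h
  obtain ⟨e1, e2, e3, e4, -⟩ := h
  have f1 : a2 = a3 + a4 - a1 := by linear_combination e1
  have f2 : u2 = u3 + u4 - u1 := by linear_combination e2
  subst f1 f2
  have g1 : (a1 - a3) * (a1 - a4) + c * ((u1 - u3) * (u1 - u4)) = 0 := by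
    apply mul_left_cancel₀ h2
    linear_combination e3
  have g2 : (a1 - a3) * (u1 - u4) + (a1 - a4) * (u1 - u3) = 0 := by
    apply mul_left_cancel₀ h2
    linear_combination e4
  by_cases hz : (a1 - a3) ^ 2 - c * (u1 - u3) ^ 2 = 0
  · obtain ⟨k1, k2⟩ := aniso hc hz
    left
    refine ⟨by linear_combination k1, by linear_combination k2, by linear_combination -k1,
      by linear_combination -k2⟩
  · have k1 : a1 - a4 = 0 := by
      apply mul_left_cancel₀ hz
      linear_combination (a1 - a3) * g1 - c * (u1 - u3) * g2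
    have k2 : u1 - u4 = 0 := by
      apply mul_left_cancel₀ hz
      linear_combination (a1 - a3) * g2 - (u1 - u3) * g1
    right
    refine ⟨by linear_combination k1, by linear_combination k2, by linear_combination -k1,
      by linear_combination -k2⟩

lemma exists_coord : ∃ φ : GaloisField r 3 ≃ₗ[ZMod r] (Fin 3 → ZMod r), φ 1 = ![1, 0, 0] := by
  let pb := Field.powerBasisOfFiniteOfSeparable (ZMod r) (GaloisField r 3)
  have hd : pb.dim = 3 := by
    rw [← pb.finrank]; exact GaloisField.finrank r (by norm_num)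
  let b := pb.basis.reindex (finCongr hd)
  have h0 : b 0 = 1 := by
    simp only [b, Module.Basis.reindex_apply, pb.basis_eq_pow]
    simp
  refine ⟨b.equivFun, ?_⟩
  rw [← h0]
  ext i
  rw [Module.Basis.equivFun_self]
  fin_cases i <;> simp

section E
variable (φ : GaloisField r 3 ≃ₗ[ZMod r] (Fin 3 → ZMod r))

noncomputable def v2 (x : GaloisField r 3) : W r :=
  (φ x 0, φ (x ^ 2) 1, φ (x ^ 2) 0, φ (x ^ 2) 2, φ x 1, φ x 2)

lemma ext3 {x y : GaloisField r 3} (h0 : φ x 0 = φ y 0) (h1 : φ x 1 = φ y 1) (h2 : φ x 2 = φ y 2) :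
    x = y := by
  apply φ.injective
  ext i
  fin_cases i
  · exact h0
  · exact h1
  · exact h2

lemma sidon2 (h2 : (2 : ZMod r) ≠ 0) {x y z w : GaloisField r 3}
    (h : v2 φ x + v2 φ y = v2 φ z + v2 φ w) : (x = z ∧ y = w) ∨ (x = w ∧ y = z) := by
  simp only [v2, Prod.mk_add_mk, Prod.mk.injEq] at h
  obtain ⟨e1, e2, e3, e4, e5, e6⟩ := h
  have f1 : x + y = z + w := by
    apply ext3 φ <;> simp only [map_add, Pi.add_apply] <;> assumption
  have f2 : x ^ 2 + y ^ 2 = z ^ 2 + w ^ 2 := by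
    apply ext3 φ <;> simp only [map_add, Pi.add_apply] <;> assumption
  have h2' : (2 : GaloisField r 3) ≠ 0 := by
    intro h
    apply h2
    apply (algebraMap (ZMod r) (GaloisField r 3)).injective
    rw [map_ofNat, map_zero]; exact h
  have f3 : y = z + w - x := by linear_combination f1
  subst f3
  have g : (x - z) * (x - w) = 0 := by
    apply mul_left_cancel₀ h2'
    linear_combination f2
  rcases mul_eq_zero.mp g with k | k
  · left; exact ⟨by linear_combination k, by linear_combination -k⟩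
  · right; exact ⟨by linear_combination k, by linear_combination -k⟩

lemma mixed (hφ : φ 1 = ![1, 0, 0]) {c : ZMod r} (hc : ¬ IsSquare c)
    {a u a' u' s t : ZMod r} {x y : GaloisField r 3}
    (hx : φ x 0 = s * (1 - c * (2 * φ x 1) ^ 2) + c * (2 * φ x 1) * φ x 2)
    (hy : φ y 0 = t * (1 - c * (2 * φ y 1) ^ 2) + c * (2 * φ y 1) * φ y 2)
    (hne : a + a' ≠ s + t)
    (h : v1 c a u + v2 φ x = v1 c a' u' + v2 φ y) : a = a' ∧ u = u' ∧ x = y := by
  simp only [v1, v2, Prod.mk_add_mk, Prod.mk.injEq, zero_add] at h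
  obtain ⟨e1, e2, e3, e4, e5, e6⟩ := h
  set d := a - a' with hd
  have hyx : y = x + d • (1 : GaloisField r 3) := by
    apply ext3 φ <;> simp only [map_add, map_smul, Pi.add_apply, Pi.smul_apply, hφ, smul_eq_mul]
    · simp; linear_combination -e1
    · simp; exact e5.symm
    · simp; exact e6.symm
  by_cases hd0 : d = 0
  · rw [hd0, zero_smul, add_zero] at hyx
    subst hyx
    exact ⟨by linear_combination hd0, by linear_combination e2, rfl⟩
  exfalso
  have hsq : y ^ 2 = x ^ 2 + d • (x + y) := by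
    have : y - x = d • (1 : GaloisField r 3) := by rw [hyx]; ring
    have e : d • (x + y) = (d • (1 : GaloisField r 3)) * (x + y) := by
      rw [smul_mul_assoc, one_mul]
    rw [e, ← this]; ring
  have hco : ∀ i, φ (y ^ 2) i = φ (x ^ 2) i + d * (φ x i + φ y i) := by
    intro i
    rw [hsq]
    simp only [map_add, map_smul, Pi.add_apply, Pi.smul_apply, smul_eq_mul]
  have k0 := hco 0
  have k1 := hco 1
  have k2 := hco 2
  rw [← e5, ← e6] at hy
  rw [← e5] at k1
  rw [← e6] at k2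
  set m := 2 * φ x 1 with hm
  have ha : a = a' + d := by rw [hd]; ring
  have hu : u = u' + d * m := by rw [hm]; linear_combination e2 + k1
  have q1 : (a + a') + c * m * (u + u') = φ x 0 + φ y 0 := by
    apply mul_left_cancel₀ hd0
    have := e3
    rw [k0] at this
    linear_combination this - c * (u + u') * hu
  have q2 : (u + u') + m * (a + a') = 2 * φ x 2 := by
    apply mul_left_cancel₀ hd0
    have := e4
    rw [k2] at this
    linear_combination this - (a + a') * hu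
  have hn : 1 - c * m ^ 2 ≠ 0 := by
    intro h
    have := (aniso hc (x := 1) (y := m) (by linear_combination h)).1
    exact one_ne_zero this
  apply hne
  apply mul_left_cancel₀ hn
  linear_combination q1 - c * m * q2 + hx + hy

end E

theorem construct (hr : 8 ≤ r) : ∃ A A1 : Finset ℕ, A ⊆ Icc 1 (2 * (2 * r) ^ 6) ∧
    (∀ a ∈ A, ∀ b ∈ A, ∀ c ∈ A, ∀ d ∈ A,
      a + b = c + d → (a = c ∧ b = d) ∨ (a = d ∧ b = c)) ∧
    r / 4 * r ^ 2 ≤ A.card ∧ A1 ⊆ A ∧ A1 ⊆ Icc 1 ((2 * r) ^ 4) ∧ r / 4 * r ≤ A1.card := by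
  classical
  obtain ⟨φ, hφ⟩ := exists_coord (r := r)
  have hchar : ringChar (ZMod r) ≠ 2 := by rw [ZMod.ringChar_zmod_n]; omega
  obtain ⟨c, hc⟩ := FiniteField.exists_nonsquare hchar
  have h2 : (2 : ZMod r) ≠ 0 := Ring.two_ne_zero hchar
  set q := r / 4 with hq
  have castinj : ∀ i j : ℕ, i < r → j < r → (i : ZMod r) = j → i = j := by
    intro i j hi hj h
    have := congrArg ZMod.val h
    rwa [ZMod.val_cast_of_lt hi, ZMod.val_cast_of_lt hj] at this
  let X : ℕ × ZMod r × ZMod r → GaloisField r 3 := fun p =>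
    φ.symm ![((q + p.1 : ℕ) : ZMod r) * (1 - c * (2 * p.2.1) ^ 2) + c * (2 * p.2.1) * p.2.2,
      p.2.1, p.2.2]
  have X0 : ∀ p, φ (X p) 0 = ((q + p.1 : ℕ) : ZMod r) * (1 - c * (2 * p.2.1) ^ 2) +
      c * (2 * p.2.1) * p.2.2 := by intro p; simp [X]
  have X1 : ∀ p, φ (X p) 1 = p.2.1 := by intro p; simp [X]
  have X2 : ∀ p, φ (X p) 2 = p.2.2 := by intro p; simp [X]
  let f1 : ℕ × ZMod r → ℕ := fun p => enc 0 (v1 c (p.1 : ZMod r) p.2)
  let f2 : ℕ × ZMod r × ZMod r → ℕ := fun p => enc 1 (v2 φ (X p))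
  let A1 := image f1 (range q ×ˢ univ)
  let A2 := image f2 (range q ×ˢ univ)
  have mix : ∀ p ∈ range q ×ˢ (univ : Finset (ZMod r)), ∀ p' ∈ range q ×ˢ (univ : Finset (ZMod r)),
      ∀ z ∈ range q ×ˢ (univ : Finset (ZMod r × ZMod r)),
      ∀ z' ∈ range q ×ˢ (univ : Finset (ZMod r × ZMod r)),
      f1 p + f2 z = f1 p' + f2 z' → f1 p = f1 p' ∧ f2 z = f2 z' := by
    intro p hp p' hp' z hz z' hz' h
    have a1 := mem_range.mp (mem_product.mp hp).1
    have a2 := mem_range.mp (mem_product.mp hp').1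
    have a3 := mem_range.mp (mem_product.mp hz).1
    have a4 := mem_range.mp (mem_product.mp hz').1
    obtain ⟨k1, k2, k3⟩ := mixed φ hφ hc (s := ((q + z.1 : ℕ) : ZMod r))
      (t := ((q + z'.1 : ℕ) : ZMod r)) (by rw [X0, X1, X2]) (by rw [X0, X1, X2])
      (by
        intro g
        rw [← Nat.cast_add, ← Nat.cast_add] at g
        have := castinj _ _ (by omega) (by omega) g
        omega) (enc_add h).2
    simp only [f1, f2]
    rw [k1, k2, k3]
    exact ⟨rfl, rfl⟩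
  refine ⟨A1 ∪ A2, A1, ?_, ?_, ?_, subset_union_left, ?_, ?_⟩
  · intro a ha
    rw [mem_Icc]
    rcases mem_union.mp ha with h | h <;> obtain ⟨p, -, rfl⟩ := mem_image.mp h
    · refine ⟨Nat.le_add_left _ _, (enc_le _ _).trans (by omega)⟩
    · refine ⟨Nat.le_add_left _ _, (enc_le _ _).trans (by omega)⟩
  · intro a ha b hb c' hc' d hd h
    rcases mem_union.mp ha with ha | ha <;> obtain ⟨p1, hp1, rfl⟩ := mem_image.mp ha <;>
    rcases mem_union.mp hb with hb | hb <;> obtain ⟨p2, hp2, rfl⟩ := mem_image.mp hb <;>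
    rcases mem_union.mp hc' with hc' | hc' <;> obtain ⟨p3, hp3, rfl⟩ := mem_image.mp hc' <;>
    rcases mem_union.mp hd with hd | hd <;> obtain ⟨p4, hp4, rfl⟩ := mem_image.mp hd
    all_goals first
      | (exfalso; have := (enc_add h).1; omega)
      | skip
    · rcases sidon1 hc h2 (enc_add h).2 with ⟨k1, k2, k3, k4⟩ | ⟨k1, k2, k3, k4⟩
      · left; simp only [f1]; rw [k1, k2, k3, k4]; exact ⟨rfl, rfl⟩
      · right; simp only [f1]; rw [k1, k2, k3, k4]; exact ⟨rfl, rfl⟩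
    · left; exact mix _ hp1 _ hp3 _ hp2 _ hp4 h
    · right; exact mix _ hp1 _ hp4 _ hp2 _ hp3 (by omega)
    · right; exact (mix _ hp2 _ hp3 _ hp1 _ hp4 (by omega)).symm
    · left; exact (mix _ hp2 _ hp4 _ hp1 _ hp3 (by omega)).symm
    · rcases sidon2 φ h2 (enc_add h).2 with ⟨k1, k2⟩ | ⟨k1, k2⟩
      · left; simp only [f2]; rw [k1, k2]; exact ⟨rfl, rfl⟩
      · right; simp only [f2]; rw [k1, k2]; exact ⟨rfl, rfl⟩
  · refine le_trans (le_of_eq ?_) (card_le_card subset_union_right)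
    rw [card_image_of_injOn]
    · simp [ZMod.card, sq]
    · intro p hp p' hp' h
      have a1 := mem_range.mp (mem_product.mp (mem_coe.mp hp)).1
      have a2 := mem_range.mp (mem_product.mp (mem_coe.mp hp')).1
      have hh : f2 p + f2 p = f2 p' + f2 p' := by rw [h]
      have k : X p = X p' := by
        rcases sidon2 φ h2 (enc_add hh).2 with ⟨k1, -⟩ | ⟨k1, -⟩ <;> exact k1
      have k1 : p.2.1 = p'.2.1 := by rw [← X1, ← X1, k]
      have k2 : p.2.2 = p'.2.2 := by rw [← X2, ← X2, k]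
      have k0 := X0 p
      rw [k, X0, ← k1, ← k2] at k0
      have hn : 1 - c * (2 * p.2.1) ^ 2 ≠ 0 := by
        intro h
        have := (aniso hc (x := 1) (y := 2 * p.2.1) (by linear_combination h)).1
        exact one_ne_zero this
      have k3 : ((q + p'.1 : ℕ) : ZMod r) = ((q + p.1 : ℕ) : ZMod r) := by
        apply mul_right_cancel₀ hn
        linear_combination k0
      have := castinj _ _ (by omega) (by omega) k3
      exact Prod.ext (by omega) (Prod.ext k1 k2)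
  · intro a ha
    obtain ⟨p, -, rfl⟩ := mem_image.mp ha
    rw [mem_Icc]
    exact ⟨Nat.le_add_left _ _, enc_le4 _ _ _ _⟩
  · refine le_of_eq ?_
    rw [card_image_of_injOn]
    · simp [ZMod.card]
    · intro p hp p' hp' h
      have a1 := mem_range.mp (mem_product.mp (mem_coe.mp hp)).1
      have a2 := mem_range.mp (mem_product.mp (mem_coe.mp hp')).1
      have hh : f1 p + f1 p = f1 p' + f1 p' := by rw [h]
      have k : (p.1 : ZMod r) = p'.1 ∧ p.2 = p'.2 := by
        rcases sidon1 hc h2 (enc_add hh).2 with ⟨k1, k2, -⟩ | ⟨k1, k2, -⟩ <;> exact ⟨k1, k2⟩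
      exact Prod.ext (castinj _ _ (by omega) (by omega) k.1) k.2

end Pool.Agent.H18.Sidon2
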