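import Mathlib

set_option autoImplicit false

namespace Pool.Agent.H18.SolAct

abbrev F := ZMod 3

@[ext] structure E (G : Type) where
  w : ℚ → G → F
  d : ℚ → Fˣ
  a : ℚˣ
  b : ℚ

variable {G : Type}

instance : Mul (E G) :=
  ⟨fun p q => ⟨fun ξ x => p.w (q.a * ξ + q.b) x + (p.d (q.a * ξ + q.b) : F) * q.w ξ x,
    fun ξ => p.d (q.a * ξ + q.b) * q.d ξ, p.a * q.a, p.a * q.b + p.b⟩⟩
instance : One (E G) := ⟨⟨0, 1, 1, 0⟩⟩
instance : Inv (E G) :=
  ⟨fun p => ⟨fun ξ x => - (((p.d ((p.a⁻¹ : ℚˣ) * (ξ - p.b)))⁻¹ : Fˣ) : F) *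
      p.w ((p.a⁻¹ : ℚˣ) * (ξ - p.b)) x,
    fun ξ => (p.d ((p.a⁻¹ : ℚˣ) * (ξ - p.b)))⁻¹, p.a⁻¹, - ((p.a⁻¹ : ℚˣ) * p.b)⟩⟩

lemma mul_w (p q : E G) (ξ : ℚ) (x : G) : (p * q).w ξ x =
    p.w (q.a * ξ + q.b) x + (p.d (q.a * ξ + q.b) : F) * q.w ξ x := rfl
lemma mul_d (p q : E G) (ξ : ℚ) : (p * q).d ξ = p.d (q.a * ξ + q.b) * q.d ξ := rfl
lemma mul_a (p q : E G) : (p * q).a = p.a * q.a := rfl
lemma mul_b (p q : E G) : (p * q).b = p.a * q.b + p.b := rfl
lemma one_w (ξ : ℚ) (x : G) : (1 : E G).w ξ x = 0 := rfl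
lemma one_d (ξ : ℚ) : (1 : E G).d ξ = 1 := rfl
lemma one_a : (1 : E G).a = 1 := rfl
lemma one_b : (1 : E G).b = 0 := rfl
lemma inv_w (p : E G) (ξ : ℚ) (x : G) : (p⁻¹).w ξ x =
    - (((p.d ((p.a⁻¹ : ℚˣ) * (ξ - p.b)))⁻¹ : Fˣ) : F) * p.w ((p.a⁻¹ : ℚˣ) * (ξ - p.b)) x := rfl
lemma inv_d (p : E G) (ξ : ℚ) : (p⁻¹).d ξ = (p.d ((p.a⁻¹ : ℚˣ) * (ξ - p.b)))⁻¹ := rfl
lemma inv_a (p : E G) : (p⁻¹).a = p.a⁻¹ := rfl
lemma inv_b (p : E G) : (p⁻¹).b = - ((p.a⁻¹ : ℚˣ) * p.b) := rfl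

lemma aff_comp (q r : E G) (ξ : ℚ) :
    (q.a : ℚ) * (r.a * ξ + r.b) + q.b = ((q.a * r.a : ℚˣ) : ℚ) * ξ + (q.a * r.b + q.b) := by
  push_cast; ring

lemma aff_inv (p : E G) (ξ : ℚ) : ((p.a⁻¹ : ℚˣ) : ℚ) * (p.a * ξ + p.b - p.b) = ξ := by
  rw [add_sub_cancel_right, ← mul_assoc, Units.inv_mul, one_mul]

instance : Group (E G) := Group.ofLeftAxioms
  (by
    intro p q r
    ext1
    · funext ξ x
      simp only [mul_w, mul_d, mul_a, mul_b, aff_comp]
      push_cast; ring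
    · funext ξ
      simp only [mul_d, mul_a, mul_b, aff_comp, mul_assoc]
    · simp only [mul_a, mul_assoc]
    · simp only [mul_a, mul_b]; push_cast; ring)
  (by
    intro p
    ext1
    · funext ξ x
      simp [mul_w, one_w, one_d]
    · funext ξ
      simp [mul_d, one_d]
    · simp [mul_a, one_a]
    · simp [mul_b, one_a, one_b])
  (by
    intro p
    ext1
    · funext ξ x
      simp only [mul_w, inv_w, inv_d, aff_inv, one_w]; ring
    · funext ξ
      simp only [mul_d, inv_d, aff_inv, one_d, inv_mul_cancel]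
    · simp only [mul_a, inv_a, one_a, inv_mul_cancel]
    · simp only [mul_b, inv_a, inv_b, one_b, add_neg_cancel])

def K1 (G : Type) : Subgroup (E G) where
  carrier := {p | p.a = 1}
  mul_mem' := by
    intro p q hp hq
    show (p * q).a = 1
    rw [mul_a, show p.a = 1 from hp, show q.a = 1 from hq, mul_one]
  one_mem' := rfl
  inv_mem' := by
    intro p hp
    show (p⁻¹).a = 1
    rw [inv_a, show p.a = 1 from hp, inv_one]

def K2 (G : Type) : Subgroup (E G) where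
  carrier := {p | p.a = 1 ∧ p.b = 0}
  mul_mem' := by
    rintro p q ⟨hp, hp'⟩ ⟨hq, hq'⟩
    exact ⟨by rw [mul_a, hp, hq, mul_one], by rw [mul_b, hp', hq']; simp⟩
  one_mem' := ⟨rfl, rfl⟩
  inv_mem' := by
    rintro p ⟨hp, hp'⟩
    exact ⟨by rw [inv_a, hp, inv_one], by rw [inv_b, hp']; simp⟩

def K3 (G : Type) : Subgroup (E G) where
  carrier := {p | p.a = 1 ∧ p.b = 0 ∧ ∀ ξ, p.d ξ = 1}
  mul_mem' := by
    rintro p q ⟨hp, hp', hp''⟩ ⟨hq, hq', hq''⟩
    exact ⟨by rw [mul_a, hp, hq, mul_one], by rw [mul_b, hp', hq']; simp,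
      fun ξ => by rw [mul_d, hp'', hq'', mul_one]⟩
  one_mem' := ⟨rfl, rfl, fun _ => rfl⟩
  inv_mem' := by
    rintro p ⟨hp, hp', hp''⟩
    exact ⟨by rw [inv_a, hp, inv_one], by rw [inv_b, hp']; simp,
      fun ξ => by rw [inv_d, hp'', inv_one]⟩

lemma der1 : derivedSeries (E G) 1 ≤ K1 G := by
  rw [derivedSeries_succ, Subgroup.commutator_le]
  intro p _ q _
  rw [commutatorElement_def]
  show (p * q * p⁻¹ * q⁻¹).a = 1
  simp only [mul_a, inv_a]
  rw [mul_comm p.a q.a]; group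

lemma der2 : derivedSeries (E G) 2 ≤ K2 G := by
  rw [derivedSeries_succ, Subgroup.commutator_le]
  intro p hp q hq
  have hp1 : p.a = 1 := der1 hp
  have hq1 : q.a = 1 := der1 hq
  rw [commutatorElement_def]
  refine ⟨?_, ?_⟩
  · simp [mul_a, inv_a, hp1, hq1]
  · simp only [mul_a, mul_b, inv_a, inv_b, hp1, hq1]
    simp

lemma der3 : derivedSeries (E G) 3 ≤ K3 G := by
  rw [derivedSeries_succ, Subgroup.commutator_le]
  intro p hp q hq
  obtain ⟨hp1, hp2⟩ := der2 hp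
  obtain ⟨hq1, hq2⟩ := der2 hq
  rw [commutatorElement_def]
  refine ⟨?_, ?_, ?_⟩
  · simp [mul_a, inv_a, hp1, hq1]
  · simp [mul_a, mul_b, inv_a, inv_b, hp1, hq1, hp2, hq2]
  · intro ξ
    simp only [mul_d, inv_a, inv_b, inv_d, hp1, hq1, hp2, hq2]
    simp only [inv_one, Units.val_one, one_mul, mul_zero, neg_zero, add_zero, sub_zero]
    rw [mul_comm (p.d ξ) (q.d ξ)]; group

lemma der4 : derivedSeries (E G) 4 = ⊥ := by
  rw [eq_bot_iff, derivedSeries_succ, Subgroup.commutator_le]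
  intro p hp q hq
  obtain ⟨hp1, hp2, hp3⟩ := der3 hp
  obtain ⟨hq1, hq2, hq3⟩ := der3 hq
  rw [Subgroup.mem_bot, commutatorElement_eq_one_iff_mul_comm]
  ext1
  · funext ξ x
    simp [mul_w, hp1, hp2, hp3, hq1, hq2, hq3, add_comm]
  · funext ξ
    simp [mul_d, hp3, hq3]
  · simp [mul_a, hp1, hq1]
  · simp [mul_b, hp2, hq2]

lemma der_sub (S : Subgroup (E G)) : derivedSeries S 4 = ⊥ := by
  have h := map_derivedSeries_le_derivedSeries S.subtype 4
  rw [der4, le_bot_iff, Subgroup.map_eq_bot_iff, Subgroup.ker_subtype, le_bot_iff] at h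
  exact h

def tr (w : ℚ → G → F) : E G := ⟨w, 1, 1, 0⟩
def af (a : ℚˣ) (b : ℚ) : E G := ⟨0, 1, a, b⟩
def dg (d : ℚ → Fˣ) : E G := ⟨0, d, 1, 0⟩

lemma tr_af (w : ℚ → G → F) (a : ℚˣ) (b : ℚ) :
    af a b * tr (fun ξ => w (a * ξ + b)) = tr w * af a b := by
  ext1
  · funext ξ x; simp [mul_w, tr, af]
  · funext ξ; simp [mul_d, tr, af]
  · simp [mul_a, tr, af]
  · simp [mul_b, tr, af]

lemma tr_dg (w : ℚ → G → F) (d : ℚ → Fˣ) :
    tr (fun ξ x => (d ξ : F) * w ξ x - w ξ x) * tr w * dg d = dg d * tr w := by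
  ext1
  · funext ξ x; simp [mul_w, mul_d, tr, dg]
  · funext ξ; simp [mul_d, tr, dg]
  · simp [mul_a, tr, dg]
  · simp [mul_a, mul_b, tr, dg]

lemma mem_af (S : Subgroup (E G)) (w : ℚ → G → F) (a : ℚˣ) (b : ℚ) (h1 : tr w ∈ S)
    (h2 : af a b ∈ S) : tr (fun ξ => w (a * ξ + b)) ∈ S := by
  have : tr (fun ξ => w (a * ξ + b)) = (af a b)⁻¹ * (tr w * af a b) := by
    rw [← tr_af]; group
  rw [this]
  exact S.mul_mem (S.inv_mem h2) (S.mul_mem h1 h2)

lemma mem_dg (S : Subgroup (E G)) (w : ℚ → G → F) (d : ℚ → Fˣ) (h1 : tr w ∈ S)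
    (h2 : dg d ∈ S) : tr (fun ξ x => (d ξ : F) * w ξ x - w ξ x) ∈ S := by
  have : tr (fun ξ x => (d ξ : F) * w ξ x - w ξ x) = dg d * tr w * (dg d)⁻¹ * (tr w)⁻¹ := by
    rw [← tr_dg]; group
  rw [this]
  exact S.mul_mem (S.mul_mem (S.mul_mem h2 h1) (S.inv_mem h2)) (S.inv_mem h1)

def two : ℚˣ := Units.mk0 2 two_ne_zero

lemma mem_pow (S : Subgroup (E G)) (w : ℚ → G → F) (h1 : tr w ∈ S) (h2 : af two 0 ∈ S) (i : ℕ) :
    tr (fun ξ => w (2 ^ i * ξ)) ∈ S := by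
  induction i with
  | zero => simpa using h1
  | succ i ih =>
    have := mem_af S _ two 0 ih h2
    convert this using 3 with ξ
    simp [two]; ring_nf

lemma mem_p (S : Subgroup (E G)) (w : ℚ → G → F) (h1 : tr w ∈ S) (h2 : af two 0 ∈ S)
    (h3 : af 1 1 ∈ S) (i : ℕ) : tr (fun ξ => w (2 ^ i * (2 * ξ + 1))) ∈ S := by
  have := mem_af S _ two 0 (mem_af S _ 1 1 (mem_pow S w h1 h2 i) h3) h2
  convert this using 3 with ξ
  simp [two]

variable [Group G]

def th (g : G) : E G →* E G := MonoidHom.mk'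
  (fun p => ⟨fun ξ x => p.w ξ (g⁻¹ * x), p.d, p.a, p.b⟩) (fun _ _ => rfl)

lemma th_mul (g h : G) (p : E G) : th (g * h) p = th g (th h p) := by
  ext1
  · funext ξ x
    show p.w ξ ((g * h)⁻¹ * x) = p.w ξ (h⁻¹ * (g⁻¹ * x))
    rw [mul_inv_rev, mul_assoc]
  · rfl
  · rfl
  · rfl

lemma th_one (p : E G) : th 1 p = p := by
  ext1
  · funext ξ x
    show p.w ξ (1⁻¹ * x) = p.w ξ x
    rw [inv_one, one_mul]
  · rfl
  · rfl
  · rfl

def hh (e : ℕ → G) (i n : ℕ) : G :=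
  if n = 0 then 1 else if n % 2 = 0 then hh e (i + 1) (n / 2) else e i * hh e 0 (n / 2)
termination_by n
decreasing_by all_goals omega

lemma hh_zero (e : ℕ → G) (i : ℕ) : hh e i 0 = 1 := by
  rw [hh]; simp

lemma hh_p (e : ℕ → G) (m i : ℕ) : ∀ j, hh e j (2 ^ i * (2 * m + 1)) = e (j + i) * hh e 0 m := by
  induction i with
  | zero =>
    intro j
    rw [hh, if_neg (by omega), if_neg (by omega)]
    have : 2 ^ 0 * (2 * m + 1) / 2 = m := by omega
    rw [this, add_zero]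
  | succ i ih =>
    intro j
    have h0 : 2 ^ (i + 1) * (2 * m + 1) = 2 * (2 ^ i * (2 * m + 1)) := by ring
    have hpos : 0 < 2 ^ i * (2 * m + 1) := by positivity
    rw [hh, h0, if_neg (by omega), if_pos (by omega), Nat.mul_div_cancel_left _ (by norm_num), ih]
    congr 2; ring

open Classical in
noncomputable def v0 (e : ℕ → G) : ℚ → G → F :=
  fun ξ x => if ∃ n : ℕ, ξ = n ∧ x = hh e 0 n then 1 else 0

open Classical in
noncomputable def s0 : ℚ → Fˣ := fun ξ => if ∃ n : ℕ, ξ = n then -1 else 1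

lemma v0_nat (e : ℕ → G) (n : ℕ) (x : G) (y : G) (m : ℕ) (h : x = hh e 0 n ↔ y = hh e 0 m) :
    v0 e n x = v0 e m y := by
  unfold v0
  have h1 : (∃ k : ℕ, (n : ℚ) = k ∧ x = hh e 0 k) ↔ (∃ k : ℕ, (m : ℚ) = k ∧ y = hh e 0 k) := by
    constructor
    · rintro ⟨k, hk, hx⟩
      obtain rfl : n = k := by exact_mod_cast hk
      exact ⟨m, rfl, h.mp hx⟩
    · rintro ⟨k, hk, hx⟩
      obtain rfl : m = k := by exact_mod_cast hk
      exact ⟨n, rfl, h.mpr hx⟩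
  by_cases h2 : ∃ k : ℕ, (m : ℚ) = k ∧ y = hh e 0 k
  · rw [if_pos h2, if_pos (h1.mpr h2)]
  · rw [if_neg h2, if_neg (fun h3 => h2 (h1.mp h3))]

lemma th_v0 (e : ℕ → G) (i : ℕ) : th (e i) (tr (v0 e)) =
    tr (fun ξ x => (s0 ξ : F) * v0 e (2 ^ i * (2 * ξ + 1)) x - v0 e (2 ^ i * (2 * ξ + 1)) x) := by
  ext1
  · funext ξ x
    show v0 e ξ ((e i)⁻¹ * x) =
      (s0 ξ : F) * v0 e (2 ^ i * (2 * ξ + 1)) x - v0 e (2 ^ i * (2 * ξ + 1)) x
    by_cases h : ∃ n : ℕ, ξ = n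
    · have hs : s0 ξ = -1 := by unfold s0; rw [if_pos h]
      obtain ⟨n, rfl⟩ := h
      have h2 : (2 : ℚ) ^ i * (2 * (n : ℚ) + 1) = ((2 ^ i * (2 * n + 1) : ℕ) : ℚ) := by
        push_cast; ring
      rw [hs, h2, v0_nat e n ((e i)⁻¹ * x) x (2 ^ i * (2 * n + 1))]
      · have h3 : ∀ t : F, t = ((-1 : Fˣ) : F) * t - t := by decide
        exact h3 _
      · rw [hh_p, zero_add, inv_mul_eq_iff_eq_mul]
    · have hs : s0 ξ = 1 := by unfold s0; rw [if_neg h]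
      rw [hs]
      have : v0 e ξ ((e i)⁻¹ * x) = 0 := by
        unfold v0
        rw [if_neg]
        rintro ⟨n, hn, _⟩
        exact h ⟨n, hn⟩
      rw [this]; simp
  · rfl
  · rfl
  · rfl

noncomputable def SS (e : ℕ → G) : Subgroup (E G) :=
  Subgroup.closure {tr (v0 e), dg s0, af two 0, af 1 1}

lemma th_mem (e : ℕ → G) (he : Function.Surjective e) (g : G) (p : E G) (hp : p ∈ SS e) :
    th g p ∈ SS e := by
  have h1 : tr (v0 e) ∈ SS e := Subgroup.subset_closure (by simp)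
  have h2 : dg s0 ∈ SS e := Subgroup.subset_closure (by simp)
  have h3 : af two 0 ∈ SS e := Subgroup.subset_closure (by simp)
  have h4 : af 1 1 ∈ SS e := Subgroup.subset_closure (by simp)
  have : SS e ≤ (SS e).comap (th g) := by
    unfold SS
    rw [Subgroup.closure_le]
    intro q hq
    simp only [Set.mem_insert_iff, Set.mem_singleton_iff] at hq
    rcases hq with rfl | rfl | rfl | rfl
    · obtain ⟨i, rfl⟩ := he g
      show th (e i) (tr (v0 e)) ∈ SS e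
      rw [th_v0]
      exact mem_dg _ _ _ (mem_p _ _ h1 h3 h4 i) h2
    · exact h2
    · exact h3
    · exact h4
  exact this hp

noncomputable def act (e : ℕ → G) (he : Function.Surjective e) : G →* MulAut (SS e) :=
  MonoidHom.mk'
    (fun g =>
      { toFun := fun p => ⟨th g p, th_mem e he g _ p.2⟩
        invFun := fun p => ⟨th g⁻¹ p, th_mem e he _ _ p.2⟩
        left_inv := fun p => Subtype.ext (by
          show th g⁻¹ (th g p) = p
          rw [← th_mul, inv_mul_cancel, th_one])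
        right_inv := fun p => Subtype.ext (by
          show th g (th g⁻¹ p) = p
          rw [← th_mul, mul_inv_cancel, th_one])
        map_mul' := fun p q => Subtype.ext (map_mul (th g) _ _) })
    (by
      intro g h
      ext1 p
      exact Subtype.ext (th_mul g h p))

lemma act_inj (e : ℕ → G) (he : Function.Surjective e) : Function.Injective (act e he) := by
  rw [injective_iff_map_eq_one]
  intro g hg
  have h1 : tr (v0 e) ∈ SS e := Subgroup.subset_closure (by simp)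
  have h2 : th g (tr (v0 e)) = tr (v0 e) := by
    have := congrArg (fun φ : MulAut (SS e) => (φ ⟨_, h1⟩ : E G)) hg
    exact this
  have h3 : v0 e 0 (g⁻¹ * 1) = v0 e 0 1 := congrFun (congrFun (congrArg E.w h2) 0) 1
  have h4 : v0 e 0 1 = 1 := by
    unfold v0; rw [if_pos]; exact ⟨0, by simp, (hh_zero e 0).symm⟩
  rw [h4] at h3
  unfold v0 at h3
  split_ifs at h3 with h
  · obtain ⟨n, hn, hx⟩ := h
    obtain rfl : n = 0 := by exact_mod_cast hn.symm
    rw [hh_zero, mul_one, inv_eq_one] at hx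
    exact hx
  · exact absurd h3 (by decide)

theorem main (G : Type) [Group G] [Countable G] :
    ∃ (S : Type) (_ : Group S), Group.FG S ∧ derivedSeries S 4 = ⊥ ∧
      ∃ f : G →* MulAut S, Function.Injective f := by
  obtain ⟨e, he⟩ := exists_surjective_nat G
  refine ⟨SS e, inferInstance, ?_, der_sub _, act e he, act_inj e he⟩
  rw [Group.fg_iff_subgroup_fg, Subgroup.fg_iff]
  exact ⟨_, rfl, Set.toFinite _⟩

end Pool.Agent.H18.SolAct
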