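import Pool.Agent.H18.Chi4

namespace Pool.Agent.H18.SqPrime

open Finset Pool.Agent.H18.Sieve Pool.Agent.H18.Chi4

lemma exists_B : ∃ y : ℕ, (2000 : ℝ) ≤ ∏ p ∈ B3 y, (1 + 1 / ((p : ℝ) - 1)) := by
  obtain ⟨y, hy⟩ := exists_nat_ge (Real.exp 8000000)
  refine ⟨y, ?_⟩
  have h1 := log_le_B3 y
  have h2 : (8000000 : ℝ) ≤ Real.log y := by
    rw [Real.le_log_iff_exp_le ((Real.exp_pos _).trans_le hy)]
    exact hy
  have h3 : 0 ≤ ∏ p ∈ B3 y, (1 + 1 / ((p : ℝ) - 1)) := by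
    apply prod_nonneg
    intro p hp
    have : (2 : ℝ) ≤ p := by exact_mod_cast (mem_filter.1 (mem_filter.1 hp).1).2.two_le
    have : 0 ≤ 1 / ((p : ℝ) - 1) := div_nonneg zero_le_one (by linarith)
    linarith
  by_contra hc
  push Not at hc
  nlinarith

lemma exists_two (p n : ℕ) (hp : p.Prime) (h4 : p % 4 = 1) (hn : ¬ p ∣ n) :
    ∃ O : Finset ℕ, O ⊆ range p ∧ O.card = 2 ∧ ∀ s, s % p ∈ O → p ∣ n ^ 2 + s ^ 2 := by
  have := Fact.mk hp
  obtain ⟨i, hi⟩ := (ZMod.exists_sq_eq_neg_one_iff (p := p)).2 (by omega)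
  refine ⟨{(i * n).val, (-(i * n)).val}, ?_, ?_, ?_⟩
  · intro s hs
    simp only [mem_insert, mem_singleton] at hs
    rcases hs with rfl | rfl <;> exact mem_range.2 (ZMod.val_lt _)
  · apply card_pair
    intro h
    have h1 : i * n = -(i * n) := ZMod.val_injective p h
    have h2 : (2 : ZMod p) * (i * n) = 0 := by linear_combination h1
    have h3 : (2 : ZMod p) ≠ 0 := by
      intro h
      have : ((2 : ℕ) : ZMod p) = 0 := by exact_mod_cast h
      rw [ZMod.natCast_eq_zero_iff] at this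
      have := Nat.le_of_dvd (by norm_num) this
      have := hp.two_le
      omega
    have h5 : i ≠ 0 := by
      rintro rfl
      simp at hi
    have h6 : (n : ZMod p) ≠ 0 := by
      rwa [Ne, ZMod.natCast_eq_zero_iff]
    exact (mul_ne_zero h3 (mul_ne_zero h5 h6)) h2
  · intro s hs
    simp only [mem_insert, mem_singleton] at hs
    rw [← ZMod.natCast_eq_zero_iff]
    push_cast
    have e : (s : ZMod p) = ((s % p : ℕ) : ZMod p) := by simp
    rcases hs with h | h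
    · rw [e, h, ZMod.natCast_zmod_val]
      linear_combination (-(n : ZMod p) ^ 2) * hi
    · rw [e, h, ZMod.natCast_zmod_val]
      linear_combination (-(n : ZMod p) ^ 2) * hi

lemma count_le (y X n : ℕ) (hn : 1 < n) (hQ : ∏ p ∈ B3 y, p ∣ n) (hX : X ≤ n)
    (hA : ∀ p ∈ A1 X, ¬ p ∣ n) :
    ∃ L : ℝ, W (A1 X) X (fun p => 2 / ((p : ℝ) - 2)) * ∏ p ∈ B3 y, (1 + 1 / ((p : ℝ) - 1)) ≤ L ∧
      (((Ico 1 n).filter (fun s => (n ^ 2 + s ^ 2).Prime)).card : ℝ) * L ^ 2 ≤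
        n * L + ((X * ∏ p ∈ B3 y, p : ℕ) : ℝ) ^ 4 := by
  classical
  have hAp : ∀ p ∈ A1 X, p.Prime ∧ p % 4 = 1 ∧ p ≤ X := fun p hp =>
    ⟨(mem_filter.1 (mem_filter.1 hp).1).2, (mem_filter.1 hp).2,
      (mem_Icc.1 (mem_filter.1 (mem_filter.1 hp).1).1).2⟩
  have hBp : ∀ p ∈ B3 y, p.Prime ∧ p % 4 = 3 ∧ p ∣ n := fun p hp =>
    ⟨(mem_filter.1 (mem_filter.1 hp).1).2, (mem_filter.1 hp).2,
      (dvd_prod_of_mem _ hp).trans hQ⟩
  have hex : ∀ p : ℕ, ∃ O : Finset ℕ, p ∈ A1 X ∪ B3 y → (O ⊆ range p ∧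
      O.card = (if p % 4 = 1 then 2 else 1) ∧ ∀ s, s % p ∈ O → p ∣ n ^ 2 + s ^ 2) := by
    intro p
    by_cases hp : p ∈ A1 X
    · obtain ⟨O, h1, h2, h3⟩ := exists_two p n (hAp p hp).1 (hAp p hp).2.1 (hA p hp)
      exact ⟨O, fun _ => ⟨h1, by rw [if_pos (hAp p hp).2.1, h2], h3⟩⟩
    · refine ⟨{0}, fun h => ?_⟩
      have hb := hBp p ((mem_union.1 h).resolve_left hp)
      refine ⟨by simpa using hb.1.pos, by rw [if_neg (by omega), card_singleton], ?_⟩
      intro s hs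
      rw [mem_singleton] at hs
      exact dvd_add (hb.2.2.pow (by norm_num)) ((Nat.dvd_of_mod_eq_zero hs).pow (by norm_num))
  choose Ω hΩ using hex
  have hP : ∀ p ∈ A1 X ∪ B3 y, p.Prime := by
    intro p hp
    rcases mem_union.1 hp with h | h
    · exact (hAp p h).1
    · exact (hBp p h).1
  have hle : ∀ p ∈ A1 X ∪ B3 y, p ≤ n := by
    intro p hp
    rcases mem_union.1 hp with h | h
    · exact (hAp p h).2.2.trans hX
    · exact Nat.le_of_dvd (by omega) (hBp p h).2.2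
  have h1 : ∀ p ∈ A1 X ∪ B3 y, 0 < (Ω p).card := by
    intro p hp
    rw [(hΩ p hp).2.1]
    split_ifs <;> norm_num
  have h2 : ∀ p ∈ A1 X ∪ B3 y, 2 * (Ω p).card ≤ p := by
    intro p hp
    rw [(hΩ p hp).2.1]
    have := (hP p hp).two_le
    split_ifs <;> omega
  refine ⟨W (A1 X ∪ B3 y) (X * ∏ p ∈ B3 y, p) (hw Ω), ?_, ?_⟩
  · have hd : Disjoint (A1 X) (B3 y) := by
      rw [disjoint_left]
      intro p ha hb
      have := (hAp p ha).2.1
      have := (hBp p hb).2.1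
      omega
    have := le_W_union (A1 X) (B3 y) hd (fun p hp => (hBp p hp).1.pos) X (hw Ω)
      (fun p hp => (hw_pos Ω p (h1 p hp) (h2 p hp)).le)
    refine le_trans (le_of_eq ?_) this
    congr 1
    · unfold W
      apply sum_congr rfl
      intro T hT
      apply prod_congr rfl
      intro p hp
      have hp' := mem_powerset.1 (mem_filter.1 hT).1 hp
      unfold hw
      rw [(hΩ p (mem_union_left _ hp')).2.1, if_pos (hAp p hp').2.1]
      norm_num
    · apply prod_congr rfl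
      intro p hp
      unfold hw
      rw [(hΩ p (mem_union_right _ hp)).2.1, if_neg (by have := (hBp p hp).2.1; omega)]
      norm_num
  · apply sieve _ hP Ω (fun p hp => (hΩ p hp).1) h1 h2 n
    · intro s hs
      exact mem_range.2 (mem_Ico.1 (mem_filter.1 hs).1).2
    · intro s hs p hp hmem
      have hd := (hΩ p hp).2.2 s hmem
      have hpr := (mem_filter.1 hs).2
      have e := (Nat.prime_dvd_prime_iff_eq (hP p hp) hpr).1 hd
      have := hle p hp
      nlinarith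

lemma pi_lower (n : ℕ) (hn : 128 ≤ n) : (n : ℝ) / (2 * Real.log n) ≤ Nat.primeCounting n := by
  refine le_trans ?_ (Chebyshev.pi_ge n)
  have hn' : (128 : ℝ) ≤ n := by exact_mod_cast hn
  have hl : 0 < Real.log n := Real.log_pos (by linarith)
  rw [← div_div, div_le_div_iff_of_pos_right hl]
  have h1 : Real.log (n + 1) = 4 * Real.log 2 + Real.log ((n + 1) / 16) := by
    rw [Real.log_div (by linarith) (by norm_num), show (16 : ℝ) = 2 ^ 4 by norm_num,
      Real.log_pow]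
    push_cast
    ring
  have h2 := Real.log_le_sub_one_of_pos (show (0 : ℝ) < (n + 1) / 16 by linarith)
  have h3 := Real.log_two_gt_d9
  have h4 := Real.log_two_lt_d9
  nlinarith

theorem exists_bad : ∃ n : ℕ, 1 < n ∧
    5 * ((Ico 1 n).filter (fun s => (n ^ 2 + s ^ 2).Prime)).card < Nat.primeCounting n := by
  obtain ⟨y, hy⟩ := exists_B
  obtain ⟨Q, hQ⟩ : ∃ Q, Q = ∏ p ∈ B3 y, p := ⟨_, rfl⟩
  have hBp : ∀ p ∈ B3 y, p.Prime ∧ p % 4 = 3 := fun p hp =>
    ⟨(mem_filter.1 (mem_filter.1 hp).1).2, (mem_filter.1 hp).2⟩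
  have hQ0 : 0 < Q := by rw [hQ]; exact prod_pos fun p hp => (hBp p hp).1.pos
  obtain ⟨X, hX⟩ : ∃ X, X = 2 ^ Q := ⟨_, rfl⟩
  have hQX : Q ≤ X := by rw [hX]; exact Nat.lt_two_pow_self.le
  have hX2 : 2 ≤ X := by
    rw [hX]
    calc 2 = 2 ^ 1 := by norm_num
      _ ≤ 2 ^ Q := Nat.pow_le_pow_right (by norm_num) hQ0
  obtain ⟨n, hn⟩ : ∃ n, n = Q * X ^ 7 := ⟨_, rfl⟩
  have hX7 : X ^ 7 ≤ n := by rw [hn]; exact Nat.le_mul_of_pos_left _ hQ0
  have hn128 : 128 ≤ n := le_trans (by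
    calc 128 = 2 ^ 7 := by norm_num
      _ ≤ X ^ 7 := Nat.pow_le_pow_left hX2 7) hX7
  have hXn : X ≤ n := le_trans (Nat.le_self_pow (by norm_num) X) hX7
  obtain ⟨L, hL1, hL2⟩ := count_le y X n (by omega) (by rw [← hQ, hn]; exact dvd_mul_right _ _)
    hXn (by
      intro p hp hd
      have hpp : p.Prime := (mem_filter.1 (mem_filter.1 hp).1).2
      have hp4 : p % 4 = 1 := (mem_filter.1 hp).2
      rw [hn] at hd
      rcases (Nat.Prime.dvd_mul hpp).1 hd with h | h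
      · rw [hQ] at h
        obtain ⟨q, hq, hpq⟩ := (Prime.dvd_finsetProd_iff hpp.prime _).1 h
        have := (Nat.prime_dvd_prime_iff_eq hpp (hBp q hq).1).1 hpq
        have := (hBp q hq).2
        omega
      · have h2 := hpp.dvd_of_dvd_pow h
        rw [hX] at h2
        have := (Nat.prime_dvd_prime_iff_eq hpp Nat.prime_two).1 (hpp.dvd_of_dvd_pow h2)
        omega)
  refine ⟨n, by omega, ?_⟩
  rw [← hQ] at hL2
  have hD : (X * Q) ^ 4 ≤ n := by
    rw [hn]
    calc (X * Q) ^ 4 = Q * (X ^ 4 * Q ^ 3) := by ring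
      _ ≤ Q * (X ^ 4 * X ^ 3) := by gcongr
      _ = _ := by ring
  have hD' : ((X * Q : ℕ) : ℝ) ^ 4 ≤ n := by exact_mod_cast hD
  have hn8 : n ≤ X ^ 8 := by
    rw [hn]
    calc Q * X ^ 7 ≤ X * X ^ 7 := by gcongr
      _ = _ := by ring
  have hn' : (128 : ℝ) ≤ n := by exact_mod_cast hn128
  have hlog : Real.log n ≤ 8 * Real.log X := by
    have : (n : ℝ) ≤ (X : ℝ) ^ 8 := by exact_mod_cast hn8
    calc Real.log n ≤ Real.log ((X : ℝ) ^ 8) := Real.log_le_log (by linarith) this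
      _ = _ := by rw [Real.log_pow]; norm_num
  have hl1 : 1 ≤ Real.log n := by
    rw [Real.le_log_iff_exp_le (by linarith)]
    linarith [Real.exp_one_lt_d9]
  have hA := log_le_A1 X
  set G := W (A1 X) X (fun p => 2 / ((p : ℝ) - 2)) with hG
  set M := ∏ p ∈ B3 y, (1 + 1 / ((p : ℝ) - 1)) with hM
  have hG0 : Real.log n ≤ 96 * G := by linarith
  have hL : 20 * Real.log n < L := by nlinarith
  have hpi := pi_lower n hn128
  set Z := ((Ico 1 n).filter (fun s => (n ^ 2 + s ^ 2).Prime)).card with hZ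
  have hZ0 : (0 : ℝ) ≤ Z := Nat.cast_nonneg _
  have hL0 : 1 ≤ L := by linarith
  have hZL : (Z : ℝ) * L ≤ 2 * n := by
    have : (Z : ℝ) * L * L ≤ 2 * n * L := by nlinarith
    exact le_of_mul_le_mul_right this (by linarith)
  have fin : (5 * Z : ℝ) < n / (2 * Real.log n) := by
    rw [lt_div_iff₀ (by linarith)]
    rcases hZ0.eq_or_lt with h | h
    · rw [← h]
      linarith
    · nlinarith
  exact_mod_cast fin.trans_le hpi

end Pool.Agent.H18.SqPrime
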