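import Mathlib

namespace Pool.Agent.H18.SqfShift

open Finset

/-- few primes in a dyadic block -/
lemma block_card (L z : ℕ) (hz : 2 ^ L ≤ z) :
    L * ((Ico z (2 * z)).filter Nat.Prime).card ≤ 4 * z := by
  have h1 : z ^ ((Ico z (2 * z)).filter Nat.Prime).card ≤ ∏ p ∈ (Ico z (2 * z)).filter Nat.Prime, p := by
    apply Finset.pow_card_le_prod
    intro p hp
    rw [mem_filter, mem_Ico] at hp
    exact hp.1.1
  have h2 : ∏ p ∈ (Ico z (2 * z)).filter Nat.Prime, p ≤ primorial (2 * z) := by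
    unfold primorial
    apply Finset.prod_le_prod_of_subset_of_one_le'
    · intro p hp
      rw [mem_filter, mem_Ico] at hp
      rw [mem_filter, mem_range]
      exact ⟨by omega, hp.2⟩
    · intro p hp _
      rw [mem_filter] at hp
      exact hp.2.one_le
  have h3 := primorial_le_four_pow (2 * z)
  have h4 : (2 ^ L) ^ ((Ico z (2 * z)).filter Nat.Prime).card
      ≤ z ^ ((Ico z (2 * z)).filter Nat.Prime).card := Nat.pow_le_pow_left hz _
  have h5 : 4 ^ (2 * z) = 2 ^ (4 * z) := by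
    rw [show (4 : ℕ) = 2 ^ 2 from rfl, ← pow_mul]
    congr 1
    ring
  rw [← pow_mul] at h4
  have h6 : 2 ^ (L * ((Ico z (2 * z)).filter Nat.Prime).card) ≤ 2 ^ (4 * z) := by omega
  exact (Nat.pow_le_pow_iff_right (by norm_num)).mp h6

lemma block_sum (L z : ℕ) (hL : 0 < L) (hz : 2 ^ L ≤ z) :
    ∑ p ∈ (Ico z (2 * z)).filter Nat.Prime, (1 : ℝ) / (p : ℝ) ^ 2 ≤ 4 / (L * z) := by
  have hz0 : 0 < z := lt_of_lt_of_le (by positivity) hz
  have hz' : (0 : ℝ) < z := by exact_mod_cast hz0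
  have hL' : (0 : ℝ) < L := by exact_mod_cast hL
  have h1 : ∑ p ∈ (Ico z (2 * z)).filter Nat.Prime, (1 : ℝ) / (p : ℝ) ^ 2
      ≤ ((Ico z (2 * z)).filter Nat.Prime).card • ((1 : ℝ) / (z : ℝ) ^ 2) := by
    apply sum_le_card_nsmul
    intro p hp
    rw [mem_filter, mem_Ico] at hp
    have : (z : ℝ) ≤ p := by exact_mod_cast hp.1.1
    apply one_div_le_one_div_of_le (by positivity)
    gcongr
  have h2 : (L : ℝ) * ((Ico z (2 * z)).filter Nat.Prime).card ≤ 4 * z := by
    exact_mod_cast block_card L z hz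
  rw [nsmul_eq_mul] at h1
  refine h1.trans ?_
  rw [mul_one_div, div_le_div_iff₀ (by positivity) (by positivity)]
  nlinarith

lemma tail_sum (L y : ℕ) (hL : 0 < L) (hy : 2 ^ L ≤ y) (I : ℕ) :
    ∑ p ∈ (Ico y (2 ^ I * y)).filter Nat.Prime, (1 : ℝ) / (p : ℝ) ^ 2
      ≤ 8 / (L * y) - 8 / (L * (2 ^ I * y)) := by
  have hy0 : 0 < y := lt_of_lt_of_le (by positivity) hy
  have hy' : (0 : ℝ) < y := by exact_mod_cast hy0
  have hL' : (0 : ℝ) < L := by exact_mod_cast hL
  induction I with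
  | zero => simp
  | succ I ih =>
    have h1 : y ≤ 2 ^ I * y := Nat.le_mul_of_pos_left _ (by positivity)
    have h2 : 2 ^ (I + 1) * y = 2 * (2 ^ I * y) := by ring
    have h3 : Ico y (2 ^ (I + 1) * y) = Ico y (2 ^ I * y) ∪ Ico (2 ^ I * y) (2 * (2 ^ I * y)) := by
      rw [Ico_union_Ico_eq_Ico h1 (by omega), h2]
    rw [h3, filter_union, sum_union (disjoint_filter_filter (Ico_disjoint_Ico_consecutive _ _ _))]
    have h4 := block_sum L (2 ^ I * y) hL (hy.trans h1)
    push_cast at h4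
    have h5 : (8 : ℝ) / (L * (2 ^ (I + 1) * y)) = 4 / (L * (2 ^ I * y)) := by
      field_simp
      ring
    have h6 : (8 : ℝ) / (L * (2 ^ I * y)) = 2 * (4 / (L * (2 ^ I * y))) := by ring
    rw [h5]
    linarith

lemma class_card (J m c d e : ℕ) (hc : Nat.Coprime m c) :
    (((Ico J (2 * J)).filter (fun j => c * j + d ≡ e [MOD m])).card : ℝ) ≤ J / m + 1 := by
  have h1 : ((Ico J (2 * J)).filter (fun j => c * j + d ≡ e [MOD m])).card
      ≤ (range (J / m + 1)).card := by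
    apply card_le_card_of_injOn (fun j => (j - J) / m)
    · intro j hj
      rw [mem_coe, mem_filter, mem_Ico] at hj
      rw [mem_coe, mem_range]
      have : (j - J) / m ≤ J / m := Nat.div_le_div_right (by omega)
      exact Nat.lt_succ_of_le this
    · intro i hi j hj hij
      rw [mem_coe, mem_filter, mem_Ico] at hi hj
      have h2 : c * i ≡ c * j [MOD m] := Nat.ModEq.add_right_cancel' d (hi.2.trans hj.2.symm)
      have h3 : i ≡ j [MOD m] := Nat.ModEq.cancel_left_of_coprime hc h2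
      have h4 : i - J ≡ j - J [MOD m] := by
        apply Nat.ModEq.add_right_cancel' J
        rw [Nat.sub_add_cancel hi.1.1, Nat.sub_add_cancel hj.1.1]
        exact h3
      have h5 := Nat.div_add_mod (i - J) m
      have h6 := Nat.div_add_mod (j - J) m
      simp only at hij
      unfold Nat.ModEq at h4
      rw [hij, h4] at h5
      omega
  rw [card_range] at h1
  have h2 : ((J / m : ℕ) : ℝ) ≤ J / m := Nat.cast_div_le
  have h3 : (((Ico J (2 * J)).filter (fun j => c * j + d ≡ e [MOD m])).card : ℝ)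
      ≤ ((J / m + 1 : ℕ) : ℝ) := by exact_mod_cast h1
  push_cast at h3
  linarith

lemma exists_W (y : ℕ) : ∃ W : ℕ, 0 < W ∧ W ≤ 4 ^ y ∧ Odd W ∧
    (∀ p, p.Prime → p < y → p ≠ 2 → p ∣ W) ∧ (∀ p, p.Prime → y ≤ p → ¬ p ∣ W) := by
  refine ⟨∏ p ∈ (range y).filter (fun p => p.Prime ∧ p ≠ 2), p, ?_, ?_, ?_, ?_, ?_⟩
  · apply Finset.prod_pos
    intro p hp
    rw [mem_filter] at hp
    exact hp.2.1.pos
  · refine le_trans ?_ (primorial_le_four_pow y)
    unfold primorial
    apply Finset.prod_le_prod_of_subset_of_one_le'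
    · intro p hp
      rw [mem_filter, mem_range] at hp
      rw [mem_filter, mem_range]
      exact ⟨by omega, hp.2.1⟩
    · intro p hp _
      rw [mem_filter] at hp
      exact hp.2.one_le
  · rw [← Nat.not_even_iff_odd, even_iff_two_dvd]
    intro h
    obtain ⟨p, hp, hd⟩ := (Nat.prime_two.prime.dvd_finsetProd_iff _).mp h
    rw [mem_filter] at hp
    exact hp.2.2 ((Nat.prime_dvd_prime_iff_eq Nat.prime_two hp.2.1).mp hd).symm
  · intro p hp h1 h2
    apply Finset.dvd_prod_of_mem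
    rw [mem_filter, mem_range]
    exact ⟨h1, hp, h2⟩
  · intro p hp h1 h
    obtain ⟨q, hq, hd⟩ := (hp.prime.dvd_finsetProd_iff _).mp h
    rw [mem_filter, mem_range] at hq
    have := (Nat.prime_dvd_prime_iff_eq hp hq.2.1).mp hd
    omega

lemma lin_lt_pow (y : ℕ) (hy : 10 ≤ y) : 28 * y < 2 ^ y := by
  induction y, hy using Nat.le_induction with
  | base => norm_num
  | succ n hn ih => rw [pow_succ]; omega

theorem exists_good (L y : ℕ) (hL : 224 ≤ L) (hy : 2 ^ L ≤ y) :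
    ∃ n : ℕ, y < n ∧ ∀ k, 1 ≤ k → 2 ^ k < n → Squarefree (n - 2 ^ k) := by
  classical
  have hLy : L < y := lt_of_lt_of_le Nat.lt_two_pow_self hy
  obtain ⟨W, hW0, hW1, hWodd, hWd, hWn⟩ := exists_W y
  obtain ⟨J, hJ⟩ : ∃ J, J = 2 ^ (4 * y) := ⟨_, rfl⟩
  obtain ⟨R, hR⟩ : ∃ R, R = 2 ^ (3 * y + 1) := ⟨_, rfl⟩
  have hRR : R * R = 2 ^ (6 * y + 2) := by rw [hR, ← pow_add]; congr 1; ring
  have hbound : 4 ^ y * (4 * J) = 2 ^ (6 * y + 2) := by
    rw [hJ, show (4 : ℕ) = 2 ^ 2 from rfl, ← pow_mul, ← pow_add, ← pow_add]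
    congr 1
    ring
  let P := (Ico y R).filter Nat.Prime
  let bad : Finset ℕ := (Icc 1 (7 * y)).biUnion (fun k => P.biUnion (fun p =>
    (Ico J (2 * J)).filter (fun j => 2 * W * j + W ≡ 2 ^ k [MOD p ^ 2])))
  have hy0 : (0 : ℝ) < y := by exact_mod_cast (by omega : 0 < y)
  have hJ0 : (0 : ℝ) < J := by rw [hJ]; positivity
  have hPsum : ∑ p ∈ P, (1 : ℝ) / (p : ℝ) ^ 2 ≤ 1 / (28 * y) := by
    have h1 := tail_sum L y (by omega) hy (3 * y + 1)
    have h2 : ∑ p ∈ P, (1 : ℝ) / (p : ℝ) ^ 2 ≤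
        ∑ p ∈ (Ico y (2 ^ (3 * y + 1) * y)).filter Nat.Prime, (1 : ℝ) / (p : ℝ) ^ 2 := by
      apply sum_le_sum_of_subset_of_nonneg
      · apply filter_subset_filter
        apply Ico_subset_Ico le_rfl
        rw [hR]
        exact Nat.le_mul_of_pos_right _ (by omega)
      · intro p _ _
        positivity
    have hL' : (224 : ℝ) ≤ L := by exact_mod_cast hL
    have h3 : (0 : ℝ) ≤ 8 / (L * (2 ^ (3 * y + 1) * y)) := by positivity
    have h4 : (8 : ℝ) / (L * y) ≤ 1 / (28 * y) := by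
      rw [div_le_div_iff₀ (by positivity) (by positivity)]
      nlinarith
    linarith
  have hPcard : (P.card : ℝ) ≤ R := by
    have : P.card ≤ R := (card_filter_le _ _).trans (by rw [Nat.card_Ico]; omega)
    exact_mod_cast this
  have hk : ∀ k : ℕ, ((P.biUnion (fun p =>
      (Ico J (2 * J)).filter (fun j => 2 * W * j + W ≡ 2 ^ k [MOD p ^ 2]))).card : ℝ)
      ≤ J / (28 * y) + R := by
    intro k
    have h1 : ((P.biUnion (fun p =>
        (Ico J (2 * J)).filter (fun j => 2 * W * j + W ≡ 2 ^ k [MOD p ^ 2]))).card : ℝ)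
        ≤ ∑ p ∈ P, (((Ico J (2 * J)).filter
          (fun j => 2 * W * j + W ≡ 2 ^ k [MOD p ^ 2])).card : ℝ) := by
      exact_mod_cast card_biUnion_le
    have h2 : ∑ p ∈ P, (((Ico J (2 * J)).filter
          (fun j => 2 * W * j + W ≡ 2 ^ k [MOD p ^ 2])).card : ℝ)
        ≤ ∑ p ∈ P, ((J : ℝ) * (1 / (p : ℝ) ^ 2) + 1) := by
      apply sum_le_sum
      intro p hp
      rw [mem_filter, mem_Ico] at hp
      have hc : Nat.Coprime (p ^ 2) (2 * W) := by
        apply Nat.Coprime.pow_left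
        apply Nat.Coprime.mul_right
        · exact (Nat.coprime_primes hp.2 Nat.prime_two).mpr (by omega)
        · exact (Nat.Prime.coprime_iff_not_dvd hp.2).mpr (hWn p hp.2 hp.1.1)
      have := class_card J (p ^ 2) (2 * W) W (2 ^ k) hc
      push_cast at this
      rw [mul_one_div]
      exact this
    rw [sum_add_distrib, ← mul_sum, sum_const, nsmul_eq_mul, mul_one] at h2
    have h3 : (J : ℝ) * ∑ p ∈ P, (1 : ℝ) / (p : ℝ) ^ 2 ≤ J * (1 / (28 * y)) :=
      mul_le_mul_of_nonneg_left hPsum hJ0.le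
    rw [mul_one_div] at h3
    linarith
  have hbad : (bad.card : ℝ) < J := by
    have h1 : (bad.card : ℝ) ≤ ∑ k ∈ Icc 1 (7 * y), ((P.biUnion (fun p =>
        (Ico J (2 * J)).filter (fun j => 2 * W * j + W ≡ 2 ^ k [MOD p ^ 2]))).card : ℝ) := by
      exact_mod_cast card_biUnion_le
    have h2 := h1.trans (sum_le_card_nsmul _ _ _ (fun k _ => hk k))
    rw [Nat.card_Icc, nsmul_eq_mul, Nat.add_sub_cancel] at h2
    push_cast at h2
    have h3 : (7 : ℝ) * y * (J / (28 * y) + R) = J / 4 + 7 * y * R := by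
      field_simp
      ring
    have h4 : 14 * y * R < J := by
      have h5 := lin_lt_pow y (by omega)
      have h6 : J = 2 ^ y * 2 ^ (3 * y) := by rw [hJ, ← pow_add]; congr 1; ring
      have h7 : R = 2 * 2 ^ (3 * y) := by rw [hR, pow_succ]; ring
      have h8 : 0 < 2 ^ (3 * y) := by positivity
      rw [h6, h7]
      nlinarith
    have h5 : (14 : ℝ) * y * R < J := by exact_mod_cast h4
    linarith
  have hex : ∃ j ∈ Ico J (2 * J), j ∉ bad := by
    by_contra hc
    push Not at hc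
    have h1 : (Ico J (2 * J)).card ≤ bad.card := card_le_card hc
    rw [Nat.card_Ico] at h1
    have h2 : J ≤ bad.card := by omega
    have h3 : (J : ℝ) ≤ bad.card := by exact_mod_cast h2
    linarith
  obtain ⟨j, hj, hjb⟩ := hex
  have hj' := mem_Ico.mp hj
  have hJy : y < J := by
    rw [hJ]
    exact lt_of_lt_of_le Nat.lt_two_pow_self (Nat.pow_le_pow_right (by norm_num) (by omega))
  have hnlt : 2 * W * j + W < 2 ^ (6 * y + 2) := by
    rw [← hbound]
    calc 2 * W * j + W = W * (2 * j + 1) := by ring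
      _ < W * (4 * J) := Nat.mul_lt_mul_of_pos_left (by omega) hW0
      _ ≤ 4 ^ y * (4 * J) := Nat.mul_le_mul_right _ hW1
  refine ⟨2 * W * j + W, by nlinarith, ?_⟩
  intro k hk1 hk2
  rw [Nat.squarefree_iff_prime_squarefree]
  intro p hp hd
  have hpd : p ∣ 2 * W * j + W - 2 ^ k := (Dvd.intro _ rfl).trans hd
  have hk7 : k ≤ 7 * y := by
    have := (Nat.pow_lt_pow_iff_right (by norm_num : 1 < 2)).mp (hk2.trans hnlt)
    omega
  by_cases hp2 : p = 2
  · subst hp2
    have h1 : 2 ∣ 2 ^ k := dvd_pow_self 2 (by omega)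
    have h2 : 2 ∣ 2 * W * j + W := by
      have := Nat.dvd_add hpd h1
      rwa [Nat.sub_add_cancel hk2.le] at this
    have h3 : 2 ∣ W := (Nat.dvd_add_right (Dvd.intro (W * j) (by ring))).mp h2
    exact (Nat.not_even_iff_odd.mpr hWodd) (even_iff_two_dvd.mpr h3)
  by_cases hpy : p < y
  · have h1 : p ∣ W := hWd p hp hpy hp2
    have h2 : p ∣ 2 * W * j + W := Nat.dvd_add (Dvd.dvd.mul_right (Dvd.dvd.mul_left h1 2) j) h1
    have h3 : p ∣ 2 ^ k := by
      have := Nat.dvd_sub h2 hpd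
      rwa [Nat.sub_sub_self hk2.le] at this
    exact hp2 ((Nat.prime_dvd_prime_iff_eq hp Nat.prime_two).mp (hp.dvd_of_dvd_pow h3))
  · apply hjb
    simp only [bad, P, mem_biUnion, mem_filter, mem_Icc]
    have h1 : p * p ≤ 2 * W * j + W - 2 ^ k := Nat.le_of_dvd (by omega) hd
    have h2 : p < R := by
      by_contra hc
      push Not at hc
      have h3 := Nat.mul_le_mul hc hc
      rw [hRR] at h3
      exact absurd (h3.trans (h1.trans (Nat.sub_le _ _))) (not_le.mpr hnlt)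
    refine ⟨k, ⟨hk1, hk7⟩, p, ⟨mem_Ico.mpr ⟨by omega, h2⟩, hp⟩, hj, ?_⟩
    rw [sq]
    exact ((Nat.modEq_iff_dvd' hk2.le).mpr hd).symm

end Pool.Agent.H18.SqfShift
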