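import Pool.Agent.H18.Amen

set_option autoImplicit false

namespace Pool.Agent.H18.StrTr

open Pool.Agent.H18.Amen Filter

section limit

variable {A B : Type} [Group A] [LinearOrder B] [MulAction A B]

noncomputable abbrev U : Filter ℕ := (hyperfilter ℕ : Ultrafilter ℕ)

lemma ev_ge (k : ℕ) : ∀ᶠ n in U, k ≤ n := Nat.hyperfilter_le_atTop (eventually_ge_atTop k)

def thf (L : A →* A) (k : ℕ) : A →* (ℕ → A) where
  toFun h := fun n => L^[n - k] h
  map_one' := by funext n; simp
  map_mul' g h := by funext n; simp [iterate_map_mul]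

noncomputable def th (L : A →* A) (k : ℕ) : A →* Germ U A := (Germ.coeMulHom U).comp (thf L k)

noncomputable def ee (E : B → B) (k : ℕ) (b : B) : Germ U B := ((fun n => E^[n - k] b : ℕ → B) : Germ U B)

lemma th_succ (L : A →* A) (k : ℕ) (h : A) : th L k h = th L (k + 1) (L h) := by
  show ((fun n => L^[n - k] h : ℕ → A) : Germ U A) = ((fun n => L^[n - (k + 1)] (L h) : ℕ → A) : Germ U A)
  rw [Germ.coe_eq]
  filter_upwards [ev_ge (k + 1)] with n hn
  rw [← Function.iterate_succ_apply]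
  congr 1; omega

omit [LinearOrder B] in
lemma ee_succ (E : B → B) (k : ℕ) (b : B) : ee E k b = ee E (k + 1) (E b) := by
  unfold ee
  rw [Germ.coe_eq]
  filter_upwards [ev_ge (k + 1)] with n hn
  rw [← Function.iterate_succ_apply]
  congr 1; omega

omit [LinearOrder B] in
lemma ee_add (E : B → B) (k n : ℕ) (b : B) : ee E k b = ee E (k + n) (E^[n] b) := by
  induction n with
  | zero => rfl
  | succ n ih => rw [ih, ee_succ, Function.iterate_succ_apply']; rfl

omit [LinearOrder B] in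
lemma th_ee (L : A →* A) (E : B → B) (hLE : ∀ g b, L g • E b = E (g • b)) (k : ℕ) (h : A) (b : B) :
    th L k h • ee E k b = ee E k (h • b) := by
  show ((fun n => L^[n - k] h : ℕ → A) : Germ U A) • ((fun n => E^[n - k] b : ℕ → B) : Germ U B) = _
  rw [← Germ.coe_smul']
  unfold ee
  congr 1
  funext n
  show L^[n - k] h • E^[n - k] b = _
  generalize n - k = m
  induction m with
  | zero => rfl
  | succ m ih =>
    rw [Function.iterate_succ_apply', Function.iterate_succ_apply', Function.iterate_succ_apply',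
      hLE, ih]

lemma ee_mono (E : B → B) (hE : StrictMono E) (k : ℕ) : StrictMono (ee E k) := by
  intro b b' h
  unfold ee
  rw [Germ.coe_lt]
  exact Eventually.of_forall fun n => hE.iterate _ h

theorem limit (hA : ∀ g : A, Monotone fun b : B => g • b) [Nontrivial B]
    (L : A →* A) (E : B → B) (hE : StrictMono E) (hLE : ∀ g b, L g • E b = E (g • b))
    (G : ℕ → Subgroup A) (hG : ∀ k, ∀ h ∈ G k, L h ∈ G (k + 1)) (hFP : ∀ k, FP (G k))
    (hT : ∀ (n k : ℕ) (x y : Fin n → B), StrictMono x → StrictMono y →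
      ∃ h ∈ G (k + n), ∀ i, h • E^[n] (x i) = E^[n] (y i)) :
    ∃ (G : Type) (_ : Group G) (X : Type) (_ : LinearOrder X) (_ : MulAction G X),
      Nontrivial X ∧
      (∀ g : G, Monotone (fun x : X => g • x)) ∧
      (∀ n : ℕ, ∀ x y : Fin n → X, StrictMono x → StrictMono y →
        ∃ g : G, ∀ i, g • x i = y i) ∧
      (∃ m : Set G → ℝ,
        (∀ A, 0 ≤ m A) ∧ m Set.univ = 1 ∧
        (∀ A B : Set G, Disjoint A B → m (A ∪ B) = m A + m B) ∧
        (∀ (g : G) (A : Set G), m ((fun h => g * h) '' A) = m A)) := by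
  classical
  let T : ℕ → Subgroup (Germ U A) := fun k => (G k).map (th L k)
  have hmono : Monotone T := by
    apply monotone_nat_of_le_succ
    rintro k _ ⟨h, hh, rfl⟩
    exact ⟨L h, hG k h hh, (th_succ L k h).symm⟩
  have hd : Directed (· ≤ ·) T := hmono.directed_le
  let S : Subgroup (Germ U A) := ⨆ k, T k
  have hS : FP S := FP_iSup T hd (fun k => FP_map _ (hFP k))
  let X : Set (Germ U B) := {ξ | ∃ k b, ξ = ee E k b}
  have hup : ∀ ξ ∈ X, ∃ k, ∀ l, k ≤ l → ∃ b, ξ = ee E l b := by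
    rintro _ ⟨k, b, rfl⟩
    refine ⟨k, fun l hl => ?_⟩
    obtain ⟨n, rfl⟩ := Nat.exists_eq_add_of_le hl
    exact ⟨_, ee_add E k n b⟩
  have hinv : ∀ g ∈ S, ∀ ξ ∈ X, g • ξ ∈ X := by
    intro g hg ξ hξ
    obtain ⟨k, hk⟩ := (Subgroup.mem_iSup_of_directed hd).mp hg
    obtain ⟨j, hj⟩ := hup ξ hξ
    obtain ⟨h, _, rfl⟩ := hmono (le_max_left k j) hk
    obtain ⟨b, rfl⟩ := hj _ (le_max_right k j)
    exact ⟨_, _, th_ee L E hLE _ h b⟩
  let act : MulAction S X :=
    { smul := fun g ξ => ⟨g.1 • ξ.1, hinv g.1 g.2 ξ.1 ξ.2⟩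
      one_smul := fun ξ => Subtype.ext (one_smul _ ξ.1)
      mul_smul := fun g h ξ => Subtype.ext (mul_smul g.1 h.1 ξ.1) }
  refine ⟨S, inferInstance, X, inferInstance, act, ?_, ?_, ?_, mean_of_FP hS⟩
  · obtain ⟨b, b', hb⟩ := exists_pair_ne B
    refine ⟨⟨ee E 0 b, 0, b, rfl⟩, ⟨ee E 0 b', 0, b', rfl⟩, fun h => hb ?_⟩
    exact (ee_mono E hE 0).injective (congrArg Subtype.val h)
  · rintro ⟨g, hg⟩ ⟨ξ, hξ⟩ ⟨η, hη⟩ h
    show g • ξ ≤ g • η
    have h' : ξ ≤ η := h
    clear h hg hξ hη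
    induction g using Germ.inductionOn with
    | h g =>
    induction ξ using Germ.inductionOn with
    | h ξ =>
    induction η using Germ.inductionOn with
    | h η =>
    rw [← Germ.coe_smul', ← Germ.coe_smul', Germ.coe_le]
    rw [Germ.coe_le] at h'
    filter_upwards [h'] with n hn
    exact hA (g n) hn
  · intro n x y hx hy
    choose kx hkx using fun i => hup (x i).1 (x i).2
    choose ky hky using fun i => hup (y i).1 (y i).2
    let k : ℕ := Finset.univ.sup kx ⊔ Finset.univ.sup ky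
    choose bx hbx using fun i => hkx i k
      (le_trans (Finset.le_sup (f := kx) (Finset.mem_univ i)) le_sup_left)
    choose b2 hb2 using fun i => hky i k
      (le_trans (Finset.le_sup (f := ky) (Finset.mem_univ i)) le_sup_right)
    have h1 : StrictMono bx := by
      intro i j hij
      have : (x i).1 < (x j).1 := hx hij
      rw [hbx, hbx] at this
      exact (ee_mono E hE k).lt_iff_lt.mp this
    have h2 : StrictMono b2 := by
      intro i j hij
      have : (y i).1 < (y j).1 := hy hij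
      rw [hb2, hb2] at this
      exact (ee_mono E hE k).lt_iff_lt.mp this
    obtain ⟨h, hh, hh'⟩ := hT n k bx b2 h1 h2
    refine ⟨⟨th L (k + n) h, le_iSup T (k + n) ⟨h, hh, rfl⟩⟩, fun i => Subtype.ext ?_⟩
    show th L (k + n) h • (x i).1 = (y i).1
    rw [hbx, hb2, ee_add E k n, ee_add E k n (b2 i), th_ee L E hLE, hh']

end limit

abbrev B : Type := Lex (ℚ →₀ ℤ)

def ev (f : B) (y : ℚ) : ℤ := ofLex f y

lemma lt_iff (f g : B) : f < g ↔ ∃ i, (∀ j, j < i → ev f j = ev g j) ∧ ev f i < ev g i :=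
  Finsupp.Lex.lt_iff

lemma ext_ev {f g : B} (h : ∀ y, ev f y = ev g y) : f = g := by
  have : ofLex f = ofLex g := Finsupp.ext h
  exact ofLex.injective this

noncomputable def sg (x : ℚ) (n : ℤ) : B := toLex (Finsupp.single x n)

lemma ev_add (f g : B) (y : ℚ) : ev (f + g) y = ev f y + ev g y := rfl
lemma ev_zero (y : ℚ) : ev 0 y = 0 := rfl
lemma ev_sg_self (x : ℚ) (n : ℤ) : ev (sg x n) x = n := by simp [ev, sg]
lemma ev_sg_ne {x y : ℚ} (n : ℤ) (h : y ≠ x) : ev (sg x n) y = 0 := by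
  simp [ev, sg, h.symm]

lemma first_diff {f g : B} (h : f ≠ g) :
    ∃ i, (∀ j, j < i → ev f j = ev g j) ∧ ev f i ≠ ev g i := by
  rcases lt_or_gt_of_ne h with h | h
  · obtain ⟨i, h1, h2⟩ := (lt_iff _ _).mp h
    exact ⟨i, h1, h2.ne⟩
  · obtain ⟨i, h1, h2⟩ := (lt_iff _ _).mp h
    exact ⟨i, fun j hj => (h1 j hj).symm, h2.ne'⟩

instance : Countable B := inferInstanceAs (Countable (ℚ →₀ ℤ))

lemma lt_add_sg (f : B) (x : ℚ) : f < f + sg x 1 := by
  rw [lt_iff]
  refine ⟨x, fun j hj => ?_, ?_⟩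
  · rw [ev_add, ev_sg_ne _ hj.ne, add_zero]
  · rw [ev_add, ev_sg_self]; omega

instance : DenselyOrdered B := ⟨by
  intro f g h
  obtain ⟨i, h1, h2⟩ := (lt_iff _ _).mp h
  refine ⟨f + sg (i + 1) 1, lt_add_sg _ _, (lt_iff _ _).mpr ⟨i, fun j hj => ?_, ?_⟩⟩
  · rw [ev_add, ev_sg_ne _ (by linarith : j < i + 1).ne, add_zero, h1 j hj]
  · rw [ev_add, ev_sg_ne _ (by linarith : i < i + 1).ne, add_zero]; exact h2⟩

instance : NoMaxOrder B := ⟨fun f => ⟨_, lt_add_sg f 0⟩⟩

instance : NoMinOrder B := ⟨fun f => ⟨f + sg 0 (-1), by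
  rw [lt_iff]
  refine ⟨0, fun j hj => ?_, ?_⟩
  · rw [ev_add, ev_sg_ne _ hj.ne, add_zero]
  · rw [ev_add, ev_sg_self]; omega⟩⟩

instance : Nontrivial B := ⟨⟨0, 0 + sg 0 1, (lt_add_sg 0 0).ne⟩⟩

noncomputable def ph : B ≃o ℚ := Classical.choice (Order.iso_of_countable_dense B ℚ)

abbrev A : Type := B ≃o B

lemma smul_def (g : A) (b : B) : g • b = g b := rfl
lemma mul_app (g h : A) (b : B) : (g * h) b = g (h b) := rfl

/-- transported permutation of the index set -/
noncomputable def bar (g : A) : ℚ ≃o ℚ := (ph.symm.trans g).trans ph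

lemma bar_app (g : A) (y : ℚ) : bar g y = ph (g (ph.symm y)) := rfl
lemma bar_mul (g h : A) (y : ℚ) : bar (g * h) y = bar g (bar h y) := by
  simp [bar_app, mul_app]
lemma bar_one (y : ℚ) : bar 1 y = y := by simp [bar_app]
lemma bar_inv1 (g : A) (y : ℚ) : bar g (bar g⁻¹ y) = y := by
  rw [← bar_mul, mul_inv_cancel, bar_one]
lemma bar_inv2 (g : A) (y : ℚ) : bar g⁻¹ (bar g y) = y := by
  rw [← bar_mul, inv_mul_cancel, bar_one]

noncomputable def lf (g : A) (f : B) : B := toLex (Finsupp.equivMapDomain (bar g).toEquiv (ofLex f))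

lemma ev_lf (g : A) (f : B) (y : ℚ) : ev (lf g f) y = ev f (bar g⁻¹ y) := by
  show (Finsupp.equivMapDomain (bar g).toEquiv (ofLex f)) y = _
  rw [Finsupp.equivMapDomain_apply]
  unfold ev
  congr 1

lemma lf_mono (g : A) : StrictMono (lf g) := by
  intro f f' h
  obtain ⟨i, h1, h2⟩ := (lt_iff _ _).mp h
  refine (lt_iff _ _).mpr ⟨bar g i, fun j hj => ?_, ?_⟩
  · rw [ev_lf, ev_lf]
    apply h1
    have := (bar g⁻¹).strictMono hj
    rwa [bar_inv2] at this
  · rw [ev_lf, ev_lf, bar_inv2]; exact h2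

lemma lf_mul (g h : A) (f : B) : lf (g * h) f = lf g (lf h f) := by
  apply ext_ev; intro y
  rw [ev_lf, ev_lf, ev_lf, mul_inv_rev, bar_mul]

lemma lf_one (f : B) : lf 1 f = f := by
  apply ext_ev; intro y
  rw [ev_lf, inv_one, bar_one]

noncomputable def L : A →* A := MonoidHom.mk'
  (fun g => (lf_mono g).orderIsoOfRightInverse (lf g) (lf g⁻¹)
    (fun f => by rw [← lf_mul, mul_inv_cancel, lf_one]))
  (by
    intro g h
    exact RelIso.ext fun f => lf_mul g h f)

lemma ev_L (g : A) (f : B) (y : ℚ) : ev (L g f) y = ev f (bar g⁻¹ y) := ev_lf g f y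

noncomputable def E (b : B) : B := sg (ph b) (-1)

lemma E_mono : StrictMono E := by
  intro b b' h
  have h' : ph b < ph b' := ph.strictMono h
  refine (lt_iff _ _).mpr ⟨ph b, fun j hj => ?_, ?_⟩
  · unfold E
    rw [ev_sg_ne _ hj.ne, ev_sg_ne _ (hj.trans h').ne]
  · unfold E
    rw [ev_sg_self, ev_sg_ne _ h'.ne]; omega

lemma L_sg (g : A) (x : ℚ) (n : ℤ) : L g (sg x n) = sg (bar g x) n := by
  apply ext_ev; intro y
  rw [ev_L]
  by_cases h : y = bar g x
  · rw [h, bar_inv2, ev_sg_self, ev_sg_self]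
  · rw [ev_sg_ne _ h, ev_sg_ne]
    intro h'
    apply h
    rw [← h', bar_inv1]

lemma L_E (g : A) (b : B) : L g • E b = E (g • b) := by
  rw [smul_def, smul_def]
  unfold E
  rw [L_sg, bar_app]; simp

lemma L_zero (g : A) : L g 0 = 0 := by
  apply ext_ev; intro y
  rw [ev_L]; rfl

def Tri (w : B → B) : Prop :=
  ∀ f f' y, (∀ z, z < y → ev f z = ev f' z) → ev (w f) y - ev f y = ev (w f') y - ev f' y

lemma Tri.agree {w : B → B} (hw : Tri w) {f f' : B} {y : ℚ} (h : ∀ z, z < y → ev f z = ev f' z) :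
    ∀ z, z < y → ev (w f) z = ev (w f') z := by
  intro z hz
  have h1 := hw f f' z (fun t ht => h t (ht.trans hz))
  have h2 := h z hz
  omega

lemma Tri.mono {w : B → B} (hw : Tri w) : StrictMono w := by
  intro f f' h
  obtain ⟨i, h1, h2⟩ := (lt_iff _ _).mp h
  refine (lt_iff _ _).mpr ⟨i, hw.agree h1, ?_⟩
  have := hw f f' i h1
  omega

def W (F : Finset ℚ) : Subgroup A where
  carrier := {w | (∀ f y, y ∉ F → ev (w f) y = ev f y) ∧ Tri w}
  mul_mem' := by
    rintro w w' ⟨h1, h2⟩ ⟨h3, h4⟩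
    refine ⟨fun f y hy => by rw [mul_app, h1 _ _ hy, h3 _ _ hy], fun f f' y h => ?_⟩
    have e1 := h4 f f' y h
    have e2 := h2 (w' f) (w' f') y (h4.agree h)
    rw [mul_app, mul_app]
    omega
  one_mem' := ⟨fun _ _ _ => rfl, fun f f' y _ => by
    show ev f y - ev f y = ev f' y - ev f' y
    omega⟩
  inv_mem' := by
    rintro w ⟨h1, h2⟩
    refine ⟨fun f y hy => ?_, fun f f' y h => ?_⟩
    · have := h1 (w⁻¹ f) y hy
      rw [RelIso.apply_inv_self] at this
      exact this.symm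
    · have hag : ∀ z, z < y → ev (w⁻¹ f) z = ev (w⁻¹ f') z := by
        by_cases he : w⁻¹ f = w⁻¹ f'
        · intro z _; rw [he]
        · obtain ⟨i, hi1, hi2⟩ := first_diff he
          intro z hz
          by_cases hzi : z < i
          · exact hi1 z hzi
          · exfalso
            have h5 := h2 _ _ i hi1
            rw [RelIso.apply_inv_self, RelIso.apply_inv_self] at h5
            have h6 := h i (lt_of_le_of_lt (not_lt.mp hzi) hz)
            omega
      have h5 := h2 _ _ y hag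
      rw [RelIso.apply_inv_self, RelIso.apply_inv_self] at h5
      omega

lemma W_mono {F F' : Finset ℚ} (h : F ⊆ F') : W F ≤ W F' :=
  fun _ hw => ⟨fun f y hy => hw.1 f y (fun h' => hy (h h')), hw.2⟩

lemma psi_mul {F : Finset ℚ} {t : ℚ} (ht : ∀ x ∈ F, t ≤ x) {w w' : A} (hw : w ∈ W F)
    (hw' : w' ∈ W F) (f : B) :
    ev ((w * w') f) t - ev f t = (ev (w f) t - ev f t) + (ev (w' f) t - ev f t) := by
  have h1 := hw.2 (w' f) f t (fun z hz => hw'.1 f z (fun h => absurd (ht z h) (not_le.mpr hz)))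
  rw [mul_app]
  omega

lemma psi_inv {F : Finset ℚ} {t : ℚ} (ht : ∀ x ∈ F, t ≤ x) {w : A} (hw : w ∈ W F) (f : B) :
    ev (w⁻¹ f) t - ev f t = - (ev (w f) t - ev f t) := by
  have h1 := psi_mul ht hw ((W F).inv_mem hw) f
  rw [mul_inv_cancel] at h1
  have : ev ((1 : A) f) t = ev f t := rfl
  omega

lemma FP_W (F : Finset ℚ) : FP (W F) := by
  induction F using Finset.induction_on_min with
  | empty =>
    have : W ∅ = ⊥ := by
      rw [eq_bot_iff]
      intro w hw
      rw [Subgroup.mem_bot]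
      exact RelIso.ext fun f => ext_ev fun y => hw.1 f y (by simp)
    rw [this]; exact FP_bot
  | insert t F hF ih =>
    have ht : ∀ x ∈ insert t F, t ≤ x := by
      intro x hx
      rcases Finset.mem_insert.mp hx with rfl | hx
      · exact le_rfl
      · exact (hF x hx).le
    have htF : t ∉ F := fun h => lt_irrefl _ (hF t h)
    have hle : W F ≤ W (insert t F) := W_mono (Finset.subset_insert _ _)
    have hdown : ∀ w ∈ W (insert t F), (∀ f, ev (w f) t - ev f t = 0) → w ∈ W F := by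
      intro w hw h
      refine ⟨fun f y hy => ?_, hw.2⟩
      by_cases hyt : y = t
      · have := h f
        rw [hyt]; omega
      · exact hw.1 f y (by simp [hyt, hy])
    apply FP_ext ih hle
    · intro s hs n hn
      have h1 := (W _).inv_mem hs
      have h2 := (W _).mul_mem h1 (hle hn)
      apply hdown _ ((W _).mul_mem h2 hs)
      intro f
      rw [psi_mul ht h2 hs, psi_mul ht h1 (hle hn), psi_inv ht hs, hn.1 f t htF]
      omega
    · intro s hs s' hs'
      have h1 := (W _).mul_mem hs' hs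
      have h2 := (W _).mul_mem hs hs'
      apply hdown _ ((W _).mul_mem ((W _).inv_mem h1) h2)
      intro f
      rw [psi_mul ht ((W _).inv_mem h1) h2, psi_inv ht h1, psi_mul ht hs' hs, psi_mul ht hs hs']
      omega

lemma W_dir : Directed (· ≤ ·) W := fun F F' =>
  ⟨F ∪ F', W_mono Finset.subset_union_left, W_mono Finset.subset_union_right⟩

noncomputable def N : Subgroup A := ⨆ F, W F

lemma FP_N : FP N := FP_iSup W W_dir FP_W

lemma N_norm (g : A) (n : A) (hn : n ∈ N) : (L g)⁻¹ * n * L g ∈ N := by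
  obtain ⟨F, hF⟩ := (Subgroup.mem_iSup_of_directed W_dir).mp hn
  apply le_iSup W (F.image (bar g⁻¹))
  rw [← map_inv]
  refine ⟨fun f y hy => ?_, fun f f' y h => ?_⟩
  · rw [mul_app, mul_app, ev_L, inv_inv, hF.1, ev_L, bar_inv2]
    intro h
    apply hy
    rw [Finset.mem_image]
    exact ⟨_, h, bar_inv2 _ _⟩
  · have := hF.2 (L g f) (L g f') (bar g y) (by
      intro z hz
      rw [ev_L, ev_L]
      apply h
      have := (bar g⁻¹).strictMono hz
      rwa [bar_inv2] at this)
    rw [ev_L, ev_L, bar_inv2] at this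
    rw [mul_app, mul_app, mul_app, mul_app, ev_L, ev_L, inv_inv]
    exact this

noncomputable def G : ℕ → Subgroup A
  | 0 => ⊥
  | k + 1 => N ⊔ (G k).map L

lemma FP_G (k : ℕ) : FP (G k) := by
  induction k with
  | zero => exact FP_bot
  | succ k ih =>
    apply FP_sup FP_N (FP_map L ih)
    rintro _ ⟨g, _, rfl⟩ n hn
    exact N_norm g n hn

open Classical in
noncomputable def vf (x : ℚ) (n : ℤ) (f : B) : B :=
  if ∀ z, z < x → ev f z = 0 then f + sg x n else f

lemma vf_ne (x : ℚ) (n : ℤ) (f : B) {y : ℚ} (h : y ≠ x) : ev (vf x n f) y = ev f y := by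
  unfold vf
  split_ifs
  · rw [ev_add, ev_sg_ne _ h, add_zero]
  · rfl

lemma vf_tri (x : ℚ) (n : ℤ) : Tri (vf x n) := by
  intro f f' y h
  by_cases hy : y = x
  · subst hy
    unfold vf
    by_cases h1 : ∀ z, z < y → ev f z = 0
    · rw [if_pos h1, if_pos (fun z hz => (h z hz).symm.trans (h1 z hz)), ev_add, ev_add]; omega
    · rw [if_neg h1, if_neg (fun h2 => h1 fun z hz => (h z hz).trans (h2 z hz))]; omega
  · rw [vf_ne _ _ _ hy, vf_ne _ _ _ hy]; omega

lemma vf_inv (x : ℚ) (f : B) : vf x 1 (vf x (-1) f) = f := by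
  by_cases h1 : ∀ z, z < x → ev f z = 0
  · have h2 : vf x (-1) f = f + sg x (-1) := by unfold vf; rw [if_pos h1]
    have h3 : ∀ z, z < x → ev (vf x (-1) f) z = 0 := fun z hz => by rw [vf_ne _ _ _ hz.ne, h1 z hz]
    have h4 : vf x 1 (vf x (-1) f) = vf x (-1) f + sg x 1 := by
      conv_lhs => unfold vf
      exact if_pos h3
    rw [h4, h2]
    apply ext_ev; intro y
    by_cases hy : y = x
    · rw [hy, ev_add, ev_add, ev_sg_self, ev_sg_self]; omega
    · rw [ev_add, ev_add, ev_sg_ne _ hy, ev_sg_ne _ hy]; omega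
  · have h2 : vf x (-1) f = f := by unfold vf; rw [if_neg h1]
    rw [h2]; unfold vf; rw [if_neg h1]

noncomputable def v (x : ℚ) : A :=
  (vf_tri x 1).mono.orderIsoOfRightInverse (vf x 1) (vf x (-1)) (vf_inv x)

lemma v_mem (x : ℚ) : v x ∈ N := by
  apply le_iSup W {x}
  exact ⟨fun f y hy => vf_ne x 1 f (by simpa using hy), vf_tri x 1⟩

lemma v_self (x : ℚ) : v x (sg x (-1)) = 0 := by
  show vf x 1 (sg x (-1)) = 0
  unfold vf
  rw [if_pos (fun z hz => ev_sg_ne _ hz.ne)]
  apply ext_ev; intro y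
  by_cases hy : y = x
  · rw [hy, ev_add, ev_sg_self, ev_sg_self, ev_zero]; omega
  · rw [ev_add, ev_sg_ne _ hy, ev_sg_ne _ hy, ev_zero]; omega

lemma v_lt {x y : ℚ} (h : y < x) : v x (sg y (-1)) = sg y (-1) := by
  show vf x 1 (sg y (-1)) = _
  unfold vf
  rw [if_neg]
  intro h1
  have := h1 y h
  rw [ev_sg_self] at this
  omega

lemma trans (n : ℕ) : ∀ (k : ℕ) (x y : Fin n → B), StrictMono x → StrictMono y →
    ∃ h ∈ G (k + n), ∀ i, h • E^[n] (x i) = E^[n] (y i) := by
  induction n with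
  | zero => intro k x y _ _; exact ⟨1, Subgroup.one_mem _, fun i => i.elim0⟩
  | succ n ih =>
    intro k x y hx hy
    obtain ⟨h, hh, hh'⟩ := ih k (fun i => x i.castSucc) (fun i => y i.castSucc)
      (hx.comp Fin.strictMono_castSucc) (hy.comp Fin.strictMono_castSucc)
    refine ⟨(v (ph (E^[n] (y (Fin.last n)))))⁻¹ * L h * v (ph (E^[n] (x (Fin.last n)))), ?_, ?_⟩
    · show _ ∈ N ⊔ (G (k + n)).map L
      exact Subgroup.mul_mem _ (Subgroup.mul_mem _
        (Subgroup.mem_sup_left (N.inv_mem (v_mem _)))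
        (Subgroup.mem_sup_right ⟨h, hh, rfl⟩)) (Subgroup.mem_sup_left (v_mem _))
    · intro i
      rw [mul_smul, mul_smul, inv_smul_eq_iff, Function.iterate_succ_apply',
        Function.iterate_succ_apply']
      induction i using Fin.lastCases with
      | last =>
        rw [smul_def, smul_def, smul_def]
        unfold E
        rw [v_self, v_self, L_zero]
      | cast i =>
        have h1 : ph (E^[n] (x i.castSucc)) < ph (E^[n] (x (Fin.last n))) :=
          ph.strictMono (E_mono.iterate n (hx (Fin.castSucc_lt_last i)))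
        have h2 : ph (E^[n] (y i.castSucc)) < ph (E^[n] (y (Fin.last n))) :=
          ph.strictMono (E_mono.iterate n (hy (Fin.castSucc_lt_last i)))
        have h3 : v (ph (E^[n] (x (Fin.last n)))) • E (E^[n] (x i.castSucc))
            = E (E^[n] (x i.castSucc)) := v_lt h1
        have h4 : v (ph (E^[n] (y (Fin.last n)))) • E (E^[n] (y i.castSucc))
            = E (E^[n] (y i.castSucc)) := v_lt h2
        rw [h3, h4, L_E, hh' i]

theorem main :
    ∃ (G : Type) (_ : Group G) (X : Type) (_ : LinearOrder X) (_ : MulAction G X),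
      Nontrivial X ∧
      (∀ g : G, Monotone (fun x : X => g • x)) ∧
      (∀ n : ℕ, ∀ x y : Fin n → X, StrictMono x → StrictMono y →
        ∃ g : G, ∀ i, g • x i = y i) ∧
      (∃ m : Set G → ℝ,
        (∀ A, 0 ≤ m A) ∧ m Set.univ = 1 ∧
        (∀ A B : Set G, Disjoint A B → m (A ∪ B) = m A + m B) ∧
        (∀ (g : G) (A : Set G), m ((fun h => g * h) '' A) = m A)) :=
  limit (A := A) (B := B) (fun g => g.monotone) L E E_mono L_E G
    (fun _ h hh => Subgroup.mem_sup_right ⟨h, hh, rfl⟩) FP_G trans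

end Pool.Agent.H18.StrTr
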