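import Mathlib

set_option autoImplicit false

namespace Pool.Agent.H18.Sw

open Classical

/-! back and forth for graphs on the natural numbers -/

def EP (G : SimpleGraph ℕ) : Prop :=
  ∀ U W : Finset ℕ, Disjoint U W → ∃ v, v ∉ U ∧ v ∉ W ∧ (∀ u ∈ U, G.Adj v u) ∧ ∀ w ∈ W, ¬ G.Adj v w

def PI (G H : SimpleGraph ℕ) (p : Finset (ℕ × ℕ)) : Prop :=
  ∀ x ∈ p, ∀ y ∈ p, (x.1 = y.1 ↔ x.2 = y.2) ∧ (G.Adj x.1 y.1 ↔ H.Adj x.2 y.2)

lemma step {G H : SimpleGraph ℕ} (hH : EP H) {p : Finset (ℕ × ℕ)} (hp : PI G H p) (a : ℕ) :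
    ∃ q, PI G H q ∧ p ⊆ q ∧ ∃ b, (a, b) ∈ q := by
  by_cases h : ∃ b, (a, b) ∈ p
  · exact ⟨p, hp, subset_rfl, h⟩
  · obtain ⟨v, h1, h2, h3, h4⟩ := hH ((p.filter fun x => G.Adj a x.1).image Prod.snd)
      ((p.filter fun x => ¬ G.Adj a x.1).image Prod.snd) (by
        rw [Finset.disjoint_left]
        intro b hb hb'
        simp only [Finset.mem_image, Finset.mem_filter] at hb hb'
        obtain ⟨x, ⟨hx, hx'⟩, rfl⟩ := hb
        obtain ⟨y, ⟨hy, hy'⟩, e⟩ := hb'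
        rw [((hp y hy x hx).1).mpr e] at hy'
        exact hy' hx')
    have key : ∀ y ∈ p, (a = y.1 ↔ v = y.2) ∧ (G.Adj a y.1 ↔ H.Adj v y.2) := by
      intro y hy
      by_cases hay : G.Adj a y.1
      · have hm : y.2 ∈ (p.filter fun x => G.Adj a x.1).image Prod.snd :=
          Finset.mem_image_of_mem _ (Finset.mem_filter.mpr ⟨hy, hay⟩)
        refine ⟨⟨fun e => absurd ⟨y.2, by rw [e]; exact hy⟩ h, fun e => absurd (e ▸ hm) h1⟩, ?_⟩
        exact ⟨fun _ => h3 _ hm, fun _ => hay⟩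
      · have hm : y.2 ∈ (p.filter fun x => ¬ G.Adj a x.1).image Prod.snd :=
          Finset.mem_image_of_mem _ (Finset.mem_filter.mpr ⟨hy, hay⟩)
        refine ⟨⟨fun e => absurd ⟨y.2, by rw [e]; exact hy⟩ h, fun e => absurd (e ▸ hm) h2⟩, ?_⟩
        exact ⟨fun e => absurd e hay, fun e => absurd e (h4 _ hm)⟩
    refine ⟨insert (a, v) p, ?_, Finset.subset_insert _ _, v, Finset.mem_insert_self _ _⟩
    intro x hx y hy
    rcases Finset.mem_insert.mp hx with rfl | hx <;> rcases Finset.mem_insert.mp hy with rfl | hy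
    · simp
    · exact key y hy
    · have := key x hx
      exact ⟨by simpa only [eq_comm] using this.1, by
        rw [G.adj_comm, H.adj_comm]; exact this.2⟩
    · exact hp x hx y hy

lemma PI.swap {G H : SimpleGraph ℕ} {p : Finset (ℕ × ℕ)} (hp : PI G H p) :
    PI H G (p.image Prod.swap) := by
  intro x hx y hy
  simp only [Finset.mem_image] at hx hy
  obtain ⟨x, hx, rfl⟩ := hx
  obtain ⟨y, hy, rfl⟩ := hy
  exact ⟨(hp x hx y hy).1.symm, (hp x hx y hy).2.symm⟩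

lemma step2 {G H : SimpleGraph ℕ} (hG : EP G) (hH : EP H) {p : Finset (ℕ × ℕ)} (hp : PI G H p)
    (a : ℕ) : ∃ q, PI G H q ∧ p ⊆ q ∧ (∃ b, (a, b) ∈ q) ∧ ∃ b, (b, a) ∈ q := by
  obtain ⟨q, hq, hpq, b, hb⟩ := step hH hp a
  obtain ⟨r, hr, hqr, c, hc⟩ := step hG hq.swap a
  have hsub : q ⊆ r.image Prod.swap := by
    intro x hx
    exact Finset.mem_image.mpr ⟨x.swap, hqr (Finset.mem_image_of_mem _ hx), rfl⟩
  exact ⟨r.image Prod.swap, hr.swap, hpq.trans hsub, ⟨b, hsub hb⟩,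
    ⟨c, Finset.mem_image.mpr ⟨(a, c), hc, rfl⟩⟩⟩

lemma extend {G H : SimpleGraph ℕ} (hG : EP G) (hH : EP H) {p : Finset (ℕ × ℕ)} (hp : PI G H p) :
    ∃ σ : Equiv.Perm ℕ, (∀ a b, G.Adj a b ↔ H.Adj (σ a) (σ b)) ∧ ∀ x ∈ p, σ x.1 = x.2 := by
  choose nx h1 h2 h3 h4 using fun (q : {q // PI G H q}) (a : ℕ) => step2 hG hH q.2 a
  let c : ℕ → {q // PI G H q} := fun n => Nat.rec ⟨p, hp⟩ (fun n q => ⟨nx q n, h1 q n⟩) n
  have hc : ∀ n, (c (n + 1)).1 = nx (c n) n := fun _ => rfl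
  have hmono : Monotone fun n => (c n).1 :=
    monotone_nat_of_le_succ fun n => by rw [hc]; exact h2 _ _
  have hrel : ∀ m n x y, x ∈ (c m).1 → y ∈ (c n).1 →
      (x.1 = y.1 ↔ x.2 = y.2) ∧ (G.Adj x.1 y.1 ↔ H.Adj x.2 y.2) := fun m n x y hx hy =>
    (c (max m n)).2 x (hmono (le_max_left m n) hx) y (hmono (le_max_right m n) hy)
  choose f hf using fun a => h3 (c a) a
  choose g hg using fun a => h4 (c a) a
  refine ⟨⟨f, g, fun a => ?_, fun a => ?_⟩, fun a b => ?_, fun x hx => ?_⟩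
  · exact (hrel (f a + 1) (a + 1) _ _ (hg (f a)) (hf a)).1.mpr rfl
  · exact (hrel (g a + 1) (a + 1) _ _ (hf (g a)) (hg a)).1.mp rfl
  · exact (hrel (a + 1) (b + 1) _ _ (hf a) (hf b)).2
  · exact (hrel (x.1 + 1) 0 _ _ (hf x.1) hx).1.mp rfl

lemma embed {H : SimpleGraph ℕ} (hH : EP H) {V : Type} [Fintype V] (G : SimpleGraph V) :
    ∃ j : V → ℕ, Function.Injective j ∧ ∀ u v, G.Adj u v ↔ H.Adj (j u) (j v) := by
  obtain ⟨i, hi⟩ := Countable.exists_injective_nat V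
  let G' : SimpleGraph ℕ := G.map (⟨i, hi⟩ : V ↪ ℕ)
  have : ∀ n, ∃ q, PI G' H q ∧ ∀ a < n, ∃ b, (a, b) ∈ q := by
    intro n
    induction n with
    | zero => exact ⟨∅, by simp [PI], by simp⟩
    | succ n ih =>
      obtain ⟨q, hq, hq'⟩ := ih
      obtain ⟨r, hr, hqr, hb⟩ := step hH hq n
      refine ⟨r, hr, fun a ha => ?_⟩
      rcases Nat.lt_succ_iff_lt_or_eq.mp ha with h | rfl
      · obtain ⟨b, hb⟩ := hq' a h
        exact ⟨b, hqr hb⟩
      · exact hb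
  obtain ⟨q, hq, hq'⟩ := this (Finset.univ.sup i + 1)
  choose j hj using fun v : V => hq' (i v)
    (Nat.lt_succ_of_le (Finset.le_sup (f := i) (Finset.mem_univ v)))
  refine ⟨j, fun u v e => hi ((hq _ (hj u) _ (hj v)).1.mpr e), fun u v => ?_⟩
  rw [← (hq _ (hj u) _ (hj v)).2]
  exact (SimpleGraph.map_adj_apply (f := ⟨i, hi⟩)).symm

def R : SimpleGraph ℕ where
  Adj i j := i ≠ j ∧ (Nat.testBit j i = true ∨ Nat.testBit i j = true)
  symm := ⟨fun _ _ h => ⟨h.1.symm, h.2.symm⟩⟩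
  loopless := ⟨fun _ h => h.1 rfl⟩

lemma bits (U : Finset ℕ) : ∃ v : ℕ, ∀ i, v.testBit i = true ↔ i ∈ U := by
  induction U using Finset.induction_on with
  | empty => exact ⟨0, by simp⟩
  | insert a U _ ih =>
    obtain ⟨v, hv⟩ := ih
    refine ⟨2 ^ a ||| v, fun i => ?_⟩
    rw [Nat.testBit_or, Bool.or_eq_true, hv, Nat.testBit_two_pow, Finset.mem_insert]
    simp [eq_comm]

lemma EP_R : EP R := by
  intro U W hUW
  let M := (U ∪ W).sup id + 1
  have hM : ∀ x ∈ U ∪ W, x < M := fun x hx =>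
    Nat.lt_succ_of_le (Finset.le_sup (f := id) hx)
  obtain ⟨v, hv⟩ := bits (insert M U)
  have h1 : 2 ^ M ≤ v := Nat.ge_two_pow_of_testBit ((hv M).mpr (Finset.mem_insert_self _ _))
  have h2 : M < v := lt_of_lt_of_le Nat.lt_two_pow_self h1
  have h3 : ∀ x ∈ U ∪ W, x < v := fun x hx => (hM x hx).trans h2
  refine ⟨v, fun h => lt_irrefl _ (h3 v (Finset.mem_union_left _ h)),
    fun h => lt_irrefl _ (h3 v (Finset.mem_union_right _ h)), fun u hu => ?_, fun w hw => ?_⟩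
  · exact ⟨(h3 u (Finset.mem_union_left _ hu)).ne', Or.inr ((hv u).mpr (Finset.mem_insert_of_mem hu))⟩
  · rintro ⟨_, h | h⟩
    · have := Nat.ge_two_pow_of_testBit h
      have h4 := h3 w (Finset.mem_union_right _ hw)
      have : v < 2 ^ v := Nat.lt_two_pow_self
      omega
    · rcases Finset.mem_insert.mp ((hv w).mp h) with e | e
      · have := hM w (Finset.mem_union_right _ hw)
        omega
      · exact Finset.disjoint_left.mp hUW e hw

def RS (S : Finset ℕ) : SimpleGraph ℕ where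
  Adj i j := i ≠ j ∧ (R.Adj i j ↔ (i ∈ S ↔ j ∈ S))
  symm := ⟨fun i j h => ⟨h.1.symm, by rw [R.adj_comm, h.2]; exact Iff.comm⟩⟩
  loopless := ⟨fun _ h => h.1 rfl⟩

lemma EP_RS (S : Finset ℕ) : EP (RS S) := by
  intro U W hUW
  have hd := Finset.disjoint_left.mp hUW
  obtain ⟨v, h1, h2, h3, h4⟩ := EP_R ((U \ S) ∪ (W ∩ S)) ((W \ S) ∪ (S \ W)) (by
    rw [Finset.disjoint_left]
    intro a ha hb
    simp only [Finset.mem_union, Finset.mem_sdiff, Finset.mem_inter] at ha hb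
    have := @hd a
    tauto)
  simp only [Finset.mem_union, Finset.mem_sdiff, Finset.mem_inter] at h1 h2 h3 h4
  have hS : v ∉ S := by tauto
  have hU : v ∉ U := by tauto
  have hW : v ∉ W := by tauto
  refine ⟨v, hU, hW, fun u hu => ⟨fun e => hU (e ▸ hu), ?_⟩, fun w hw h => ?_⟩
  · have := h3 u
    have := h4 u
    have := @hd u
    tauto
  · have := h3 w
    have := h4 w
    have := h.2
    tauto

/-- switching automorphisms -/
def IsSw (σ : Equiv.Perm ℕ) : Prop :=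
  ∃ S : Set ℕ, ∀ i j : ℕ, i ≠ j →
    ((Nat.testBit (σ j) (σ i) = true ∨ Nat.testBit (σ i) (σ j) = true) ↔
      ((Nat.testBit j i = true ∨ Nat.testBit i j = true) ↔ (i ∈ S ↔ j ∈ S)))

lemma homog {V : Type} [Fintype V] (j j' : V → ℕ) (hj : Function.Injective j)
    (hj' : Function.Injective j') (S : Finset V)
    (h : ∀ u v, u ≠ v → (R.Adj (j' u) (j' v) ↔ (R.Adj (j u) (j v) ↔ (u ∈ S ↔ v ∈ S)))) :
    ∃ σ, IsSw σ ∧ ∀ v, σ (j v) = j' v := by
  have hm : ∀ u, j u ∈ S.image j ↔ u ∈ S := fun u => by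
    simp only [Finset.mem_image]
    exact ⟨fun ⟨a, ha, e⟩ => hj e ▸ ha, fun hu => ⟨u, hu, rfl⟩⟩
  obtain ⟨σ, h1, h2⟩ := extend (EP_RS (S.image j)) EP_R
    (p := Finset.univ.image fun v => (j v, j' v)) (by
      intro x hx y hy
      simp only [Finset.mem_image, Finset.mem_univ, true_and] at hx hy
      obtain ⟨u, rfl⟩ := hx
      obtain ⟨v, rfl⟩ := hy
      refine ⟨by simp only [hj.eq_iff, hj'.eq_iff], ?_⟩
      by_cases huv : u = v
      · subst huv; simp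
      · show (j u ≠ j v ∧ (R.Adj (j u) (j v) ↔ (j u ∈ S.image j ↔ j v ∈ S.image j))) ↔ _
        rw [hm, hm, h u v huv]
        simp [hj.eq_iff, huv])
  refine ⟨σ, ⟨↑(S.image j), fun a b hab => ?_⟩, fun v => h2 (j v, j' v)
    (Finset.mem_image_of_mem _ (Finset.mem_univ v))⟩
  have h3 := h1 a b
  have h4 : σ a ≠ σ b := fun e => hab (σ.injective e)
  change (a ≠ b ∧ ((a ≠ b ∧ _) ↔ _)) ↔ (σ a ≠ σ b ∧ _) at h3
  simp only [ne_eq, hab, h4, not_false_eq_true, true_and] at h3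
  simp only [Finset.mem_coe]
  exact h3.symm

end Pool.Agent.H18.Sw
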