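import Pool.Agent.H18.Sw1

set_option autoImplicit false

namespace Pool.Agent.H18.Sw

open Classical Finset

noncomputable section

variable {V V' : Type}

def sgn (t : Finset (Sym2 V)) (e : Sym2 V) : ℚ := if e ∈ t then -1 else 1

def ch (h t : Finset (Sym2 V)) : ℚ := ∏ e ∈ h, sgn t e

lemma ch_comm (h t : Finset (Sym2 V)) : ch h t = ch t h := by
  unfold ch sgn
  rw [prod_ite_mem, prod_ite_mem, inter_comm]

lemma orth (D h h' : Finset (Sym2 V)) (hh : h ⊆ D) (hh' : h' ⊆ D) :
    ∑ t ∈ D.powerset, ch h t * ch h' t = if h = h' then 2 ^ D.card else 0 := by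
  have e1 : ∑ t ∈ D.powerset, ch h t * ch h' t = ∏ e ∈ D, (1 + sgn h e * sgn h' e) := by
    rw [prod_one_add]
    refine sum_congr rfl fun t _ => ?_
    rw [ch_comm h, ch_comm h', ch, ch, prod_mul_distrib]
  rw [e1]
  split_ifs with e
  · subst e
    rw [← prod_const]
    refine prod_congr rfl fun e _ => ?_
    unfold sgn; split_ifs <;> norm_num
  · obtain ⟨a, ha⟩ : ∃ a, ¬ (a ∈ h ↔ a ∈ h') := by
      by_contra hc
      push Not at hc
      exact e (Finset.ext hc)
    have haD : a ∈ D := by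
      by_cases h1 : a ∈ h
      · exact hh h1
      · exact hh' (by tauto)
    apply prod_eq_zero haD
    unfold sgn
    by_cases h1 : a ∈ h
    · have h2 : a ∉ h' := by tauto
      simp [h1, h2]
    · have h2 : a ∈ h' := by tauto
      simp [h1, h2]

lemma fourier (D : Finset (Sym2 V)) (Φ : Finset (Sym2 V) → ℚ) (t : Finset (Sym2 V)) (ht : t ⊆ D) :
    ∑ h ∈ D.powerset, (∑ u ∈ D.powerset, Φ u * ch h u) * ch h t = 2 ^ D.card * Φ t := by
  simp only [sum_mul]
  rw [sum_comm]
  have : ∀ u ∈ D.powerset, ∑ h ∈ D.powerset, Φ u * ch h u * ch h t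
      = if u = t then 2 ^ D.card * Φ t else 0 := by
    intro u hu
    simp only [mul_assoc, ← mul_sum]
    simp only [ch_comm _ u, ch_comm _ t]
    rw [orth D u t (mem_powerset.mp hu) ht]
    split_ifs with e
    · rw [e, mul_comm]
    · simp
  rw [sum_congr rfl this, sum_ite_eq' D.powerset t, if_pos (mem_powerset.mpr ht)]

variable [Fintype V] [Fintype V']

def EF (H : SimpleGraph V) : Finset (Sym2 V) := univ.filter (· ∈ H.edgeSet)

lemma mem_EF {H : SimpleGraph V} {e : Sym2 V} : e ∈ EF H ↔ e ∈ H.edgeSet := by simp [EF]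

lemma mk_mem_EF {H : SimpleGraph V} {u v : V} : s(u, v) ∈ EF H ↔ H.Adj u v := by simp [EF]

def DD (V : Type) [Fintype V] : Finset (Sym2 V) := EF (⊤ : SimpleGraph V)

lemma mk_mem_DD {u v : V} : s(u, v) ∈ DD V ↔ u ≠ v := by simp [DD, EF]

lemma EF_sub (H : SimpleGraph V) : EF H ⊆ DD V := by
  intro e he
  induction e using Sym2.ind with
  | h u v => exact mk_mem_DD.mpr (mk_mem_EF.mp he).ne

lemma EF_from {h : Finset (Sym2 V)} (hh : h ⊆ DD V) : EF (SimpleGraph.fromEdgeSet (h : Set _)) = h := by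
  ext e
  induction e using Sym2.ind with
  | h u v =>
    rw [mk_mem_EF, SimpleGraph.fromEdgeSet_adj]
    exact ⟨fun h => h.1, fun h => ⟨h, mk_mem_DD.mp (hh h)⟩⟩

def dg (H : SimpleGraph V) (v : V) : ℕ := (univ.filter (H.Adj v)).card

def Ev (H : SimpleGraph V) : Prop := ∀ v, Even (dg H v)

def mu (δ : V → ℚ) : Sym2 V → ℚ := Sym2.lift ⟨fun u v => δ u * δ v, fun _ _ => mul_comm _ _⟩

omit [Fintype V] in
lemma mu_mk (δ : V → ℚ) (u v : V) : mu δ s(u, v) = δ u * δ v := rfl

lemma prod_mu (H : SimpleGraph V) (δ : V → ℚ) : ∏ e ∈ EF H, mu δ e = ∏ v, δ v ^ dg H v := by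
  have h1 : ∀ e ∈ EF H, mu δ e = ∏ v ∈ univ.filter (· ∈ e), δ v := by
    intro e he
    induction e using Sym2.ind with
    | h u v =>
      have : univ.filter (· ∈ s(u, v)) = {u, v} := by ext; simp
      rw [this, prod_pair (mk_mem_EF.mp he).ne, mu_mk]
  rw [prod_congr rfl h1, prod_comm' (t' := univ) (s' := fun v => (EF H).filter (v ∈ ·))
    (by intro e v; simp)]
  refine prod_congr rfl fun v _ => ?_
  rw [prod_const]
  congr 1
  symm
  apply card_bij (fun w _ => s(v, w))
  · intro w hw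
    simp only [mem_filter, mem_univ, true_and] at hw ⊢
    exact ⟨mk_mem_EF.mpr hw, Sym2.mem_mk_left _ _⟩
  · intro a _ b _ e
    exact Sym2.congr_right.mp e
  · intro e he
    rw [mem_filter] at he
    obtain ⟨w, rfl⟩ := Sym2.mem_iff_exists.mp he.2
    exact ⟨w, by simpa using mk_mem_EF.mp he.1, rfl⟩

def tj (j : V → ℕ) : Finset (Sym2 V) := EF (R.comap j)

lemma mk_mem_tj {j : V → ℕ} {u v : V} : s(u, v) ∈ tj j ↔ R.Adj (j u) (j v) := mk_mem_EF

def ind (j : V → ℕ) : ℕ →₀ ℕ := ∑ v, Finsupp.single (j v) 1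

lemma ind_apply (j : V → ℕ) (a : ℕ) : ind j a = (univ.filter fun v => j v = a).card := by
  unfold ind
  rw [Finsupp.finsetSum_apply, card_filter]
  refine sum_congr rfl fun v _ => ?_
  rw [Finsupp.single_apply]

lemma ind_ne (j : V → ℕ) (a : ℕ) : ind j a ≠ 0 ↔ ∃ v, j v = a := by
  rw [ind_apply, card_ne_zero]
  simp [filter_nonempty_iff]

lemma ind_le (j : V → ℕ) : (∀ a, ind j a ≤ 1) ↔ Function.Injective j := by
  simp only [ind_apply, card_le_one, mem_filter, mem_univ, true_and]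
  constructor
  · intro h u v e
    exact h (j v) u e v rfl
  · intro h a u hu v hv
    exact h (hu.trans hv.symm)

lemma ind_deg (j : V → ℕ) : (ind j).sum (fun _ e => e) = Fintype.card V := by
  unfold ind
  rw [← Finsupp.sum_finsetSum_index (fun _ => rfl) (fun _ _ _ => rfl)]
  simp

lemma ind_equiv (j : V' → ℕ) (β : V ≃ V') : ind (j ∘ β) = ind j :=
  Fintype.sum_equiv β _ _ fun _ => rfl

lemma ind_perm (σ : Equiv.Perm ℕ) (j : V → ℕ) :
    ind (σ ∘ j) = Finsupp.equivMapDomain σ (ind j) := by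
  ext a
  rw [Finsupp.equivMapDomain_apply, ind_apply, ind_apply]
  congr 1
  ext v
  simp [Equiv.eq_symm_apply]

def PP (V : Type) [Fintype V] (s : ℕ →₀ ℕ) : Finset (V → ℕ) :=
  (Fintype.piFinset fun _ => s.support).filter fun j => ind j = s

lemma mem_PP {s : ℕ →₀ ℕ} {j : V → ℕ} : j ∈ PP V s ↔ ind j = s := by
  unfold PP
  rw [mem_filter, Fintype.mem_piFinset]
  refine ⟨fun h => h.2, fun h => ⟨fun v => ?_, h⟩⟩
  rw [Finsupp.mem_support_iff, ← h, ind_ne]
  exact ⟨v, rfl⟩

lemma sum_PP (j0 : V' → ℕ) (h0 : Function.Injective j0) (g : (V → ℕ) → ℚ) :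
    ∑ j ∈ PP V (ind j0), g j = ∑ β : V ≃ V', g (j0 ∘ β) := by
  symm
  apply sum_bij (fun (β : V ≃ V') _ => j0 ∘ β)
  · intro β _
    exact mem_PP.mpr (ind_equiv j0 β)
  · intro β _ γ _ e
    ext v
    exact h0 (congrFun e v)
  · intro j hj
    rw [mem_PP] at hj
    have h1 : Function.Injective j := by
      rw [← ind_le, hj, ind_le]; exact h0
    have h2 : Set.range j = Set.range j0 := by
      ext a
      rw [Set.mem_range, Set.mem_range, ← ind_ne, ← ind_ne, hj]
    refine ⟨(Equiv.ofInjective j h1).trans ((Equiv.setCongr h2).trans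
      (Equiv.ofInjective j0 h0).symm), mem_univ _, ?_⟩
    funext v
    exact Equiv.apply_ofInjective_symm h0 _
  · intro _ _; rfl

def y (H : SimpleGraph V) : MvPowerSeries ℕ ℚ := fun s => ∑ j ∈ PP V s, ch (EF H) (tj j)

lemma coeff_y (H : SimpleGraph V) (s : ℕ →₀ ℕ) :
    MvPowerSeries.coeff s (y H) = ∑ j ∈ PP V s, ch (EF H) (tj j) := rfl

lemma y_deg (H : SimpleGraph V) (s : ℕ →₀ ℕ) (h : MvPowerSeries.coeff s (y H) ≠ 0) :
    s.sum (fun _ e => e) = Fintype.card V := by
  rw [coeff_y] at h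
  obtain ⟨j, hj, _⟩ := exists_ne_zero_of_sum_ne_zero h
  rw [← mem_PP.mp hj, ind_deg]

lemma ch_map [DecidableEq (Sym2 V')] (f : V → V') (hf : Function.Injective f) (h : Finset (Sym2 V)) (j : V' → ℕ) :
    ch h (tj (j ∘ f)) = ch (h.image (Sym2.map f)) (tj j) := by
  unfold ch
  rw [prod_image (fun a _ b _ e => Sym2.map.injective hf e)]
  refine prod_congr rfl fun e _ => ?_
  induction e using Sym2.ind with
  | h u v =>
    unfold sgn
    simp only [Sym2.map_mk, mk_mem_tj, Function.comp]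

lemma EF_iso [DecidableEq (Sym2 V')] {H : SimpleGraph V} {H' : SimpleGraph V'} (φ : H ≃g H') :
    (EF H).image (Sym2.map φ) = EF H' := by
  ext e
  induction e using Sym2.ind with
  | h u v =>
    rw [mem_image, mk_mem_EF]
    constructor
    · rintro ⟨e, he, h⟩
      induction e using Sym2.ind with
      | h a b =>
        have h1 : s(φ a, φ b) ∈ EF H' := mk_mem_EF.mpr (φ.map_rel_iff.mpr (mk_mem_EF.mp he))
        rw [Sym2.map_mk] at h
        rw [h] at h1
        exact mk_mem_EF.mp h1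
    · intro h
      exact ⟨s(φ.symm u, φ.symm v), mk_mem_EF.mpr (φ.symm.map_rel_iff.mpr h), by simp⟩

lemma y_iso {H : SimpleGraph V} {H' : SimpleGraph V'} (φ : H ≃g H') : y H = y H' := by
  ext s
  rw [coeff_y, coeff_y]
  symm
  apply sum_bij (fun j _ => j ∘ φ)
  · intro j hj
    exact mem_PP.mpr ((ind_equiv j φ.toEquiv).trans (mem_PP.mp hj))
  · intro a _ b _ e
    funext v
    have := congrFun e (φ.symm v)
    simpa using this
  · intro j hj
    refine ⟨j ∘ φ.symm, mem_PP.mpr ((ind_equiv j φ.symm.toEquiv).trans (mem_PP.mp hj)), ?_⟩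
    funext v; simp
  · intro j _
    rw [ch_map φ φ.injective, EF_iso]

lemma EF_sum (H : SimpleGraph V) (H' : SimpleGraph V') :
    EF (H ⊕g H') = (EF H).image (Sym2.map Sum.inl) ∪ (EF H').image (Sym2.map Sum.inr) := by
  ext e
  rw [mem_union, mem_image, mem_image]
  constructor
  · intro he
    induction e using Sym2.ind with
    | h u v =>
      have h := mk_mem_EF.mp he
      rcases u with u | u <;> rcases v with v | v
      · exact Or.inl ⟨s(u, v), mk_mem_EF.mpr (SimpleGraph.sum_adj_inl.mp h), rfl⟩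
      · simp at h
      · simp at h
      · exact Or.inr ⟨s(u, v), mk_mem_EF.mpr (SimpleGraph.sum_adj_inr.mp h), rfl⟩
  · rintro (⟨e, he, rfl⟩ | ⟨e, he, rfl⟩)
    · induction e using Sym2.ind with
      | h u v => exact mk_mem_EF.mpr (SimpleGraph.sum_adj_inl.mpr (mk_mem_EF.mp he))
    · induction e using Sym2.ind with
      | h u v => exact mk_mem_EF.mpr (SimpleGraph.sum_adj_inr.mpr (mk_mem_EF.mp he))

lemma ch_sum (H : SimpleGraph V) (H' : SimpleGraph V') (j : V ⊕ V' → ℕ) :
    ch (EF (H ⊕g H')) (tj j) = ch (EF H) (tj (j ∘ Sum.inl)) * ch (EF H') (tj (j ∘ Sum.inr)) := by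
  rw [ch_map _ Sum.inl_injective, ch_map _ Sum.inr_injective, EF_sum]
  unfold ch
  rw [prod_union]
  rw [disjoint_left]
  intro e h1 h2
  obtain ⟨a, _, rfl⟩ := mem_image.mp h1
  obtain ⟨b, _, h⟩ := mem_image.mp h2
  induction a using Sym2.ind with
  | h u v =>
  induction b using Sym2.ind with
  | h u' v' => simp at h

lemma ind_sum (j : V ⊕ V' → ℕ) : ind j = ind (j ∘ Sum.inl) + ind (j ∘ Sum.inr) :=
  Fintype.sum_sum_type _

lemma y_sum (H : SimpleGraph V) (H' : SimpleGraph V') : y (H ⊕g H') = y H * y H' := by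
  ext s
  rw [MvPowerSeries.coeff_mul, coeff_y,
    ← sum_fiberwise_of_maps_to (t := antidiagonal s)
      (g := fun j => (ind (j ∘ Sum.inl), ind (j ∘ Sum.inr)))
      (fun j hj => by rw [HasAntidiagonal.mem_antidiagonal, ← ind_sum]; exact mem_PP.mp hj)]
  refine sum_congr rfl fun p hp => ?_
  rw [coeff_y, coeff_y, sum_mul_sum, ← sum_product']
  apply sum_bij (fun j _ => (j ∘ Sum.inl, j ∘ Sum.inr))
  · intro j hj
    rw [mem_filter] at hj
    rw [mem_product, mem_PP, mem_PP, ← hj.2]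
    exact ⟨rfl, rfl⟩
  · intro a _ b _ e
    funext v
    rcases v with v | v
    · exact congrFun (congrArg Prod.fst e) v
    · exact congrFun (congrArg Prod.snd e) v
  · rintro ⟨a, b⟩ hab
    rw [mem_product, mem_PP, mem_PP] at hab
    have e : (ind (Sum.elim a b ∘ Sum.inl), ind (Sum.elim a b ∘ Sum.inr)) = p :=
      Prod.ext hab.1 hab.2
    refine ⟨Sum.elim a b, mem_filter.mpr ⟨mem_PP.mpr ?_, e⟩, rfl⟩
    rw [ind_sum, ← HasAntidiagonal.mem_antidiagonal.mp hp, ← e]
  · intro j _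
    exact ch_sum H H' j

lemma y_empty [IsEmpty V] (H : SimpleGraph V) : y H = 1 := by
  ext s
  rw [coeff_y, MvPowerSeries.coeff_one]
  have h0 : ∀ j : V → ℕ, ind j = 0 := fun j => by simp [ind]
  have h1 : EF H = ∅ := by
    ext e
    induction e using Sym2.ind with
    | h u v => exact isEmptyElim u
  split_ifs with h
  · have : PP V s = univ := by
      ext j; simp only [mem_PP, h0, h, mem_univ]
    rw [this, h1]; simp [ch]
  · have : PP V s = ∅ := by
      ext j; simp [mem_PP, h0, Ne.symm h]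
    rw [this]; simp

lemma ch_sw {H : SimpleGraph V} (hH : Ev H) {σ : Equiv.Perm ℕ} (hσ : IsSw σ) (j : V → ℕ) :
    ch (EF H) (tj (σ ∘ j)) = ch (EF H) (tj j) := by
  obtain ⟨S, hS⟩ := hσ
  let δ : V → ℚ := fun v => if j v ∈ S then -1 else 1
  have h1 : ∀ e ∈ EF H, sgn (tj (σ ∘ j)) e = sgn (tj j) e * mu δ e := by
    intro e _
    induction e using Sym2.ind with
    | h u v =>
      unfold sgn
      simp only [mk_mem_tj, mu_mk, Function.comp, δ]
      by_cases huv : j u = j v
      · rw [huv]; simp only [SimpleGraph.irrefl, if_false]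
        split_ifs <;> norm_num
      · have h2 : σ (j u) ≠ σ (j v) := fun e => huv (σ.injective e)
        have h3 : R.Adj (σ (j u)) (σ (j v)) ↔ (R.Adj (j u) (j v) ↔ (j u ∈ S ↔ j v ∈ S)) := by
          change (σ (j u) ≠ σ (j v) ∧ _) ↔ ((j u ≠ j v ∧ _) ↔ _)
          simp only [ne_eq, huv, h2, not_false_eq_true, true_and]
          exact hS _ _ huv
        by_cases a1 : R.Adj (j u) (j v) <;> by_cases a2 : j u ∈ S <;> by_cases a3 : j v ∈ S <;>
          simp [h3, a1, a2, a3]
  unfold ch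
  rw [prod_congr rfl h1, prod_mul_distrib, prod_mu, prod_eq_one (s := univ), mul_one]
  intro v _
  simp only [δ]
  split_ifs
  · exact (hH v).neg_one_pow
  · simp

lemma y_inv {H : SimpleGraph V} (hH : Ev H) {σ : Equiv.Perm ℕ} (hσ : IsSw σ) (s : ℕ →₀ ℕ) :
    MvPowerSeries.coeff (Finsupp.equivMapDomain σ s) (y H) = MvPowerSeries.coeff s (y H) := by
  rw [coeff_y, coeff_y]
  symm
  apply sum_bij (fun j _ => σ ∘ j)
  · intro j hj
    rw [mem_PP, ind_perm, mem_PP.mp hj]
  · intro a _ b _ e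
    funext v
    exact σ.injective (congrFun e v)
  · intro j hj
    refine ⟨σ.symm ∘ j, ?_, by funext v; simp⟩
    rw [mem_PP, ind_perm, mem_PP.mp hj]
    ext a; simp
  · intro j _
    exact (ch_sw hH hσ j).symm

end

end Pool.Agent.H18.Sw
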