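import Pool.Agent.H18.Sw2

set_option autoImplicit false

namespace Pool.Agent.H18.Sw

open Classical Finset

noncomputable section

variable {V V' : Type}

def Cl {H : SimpleGraph V} {H' : SimpleGraph V'} (φ : H ↪g H') : Prop :=
  ∀ u w', H'.Adj (φ u) w' → ∃ w, φ w = w'

def comp (H : SimpleGraph V) (v : V) : SimpleGraph {w | H.Reachable v w} := H.induce _

lemma Cl.reach {H : SimpleGraph V} {H' : SimpleGraph V'} {φ : H ↪g H'} (hφ : Cl φ) {v : V} {w' : V'}
    (h : H'.Reachable (φ v) w') : ∃ w, φ w = w' ∧ H.Reachable v w := by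
  rw [SimpleGraph.reachable_iff_reflTransGen] at h
  induction h with
  | refl => exact ⟨v, rfl, SimpleGraph.Reachable.refl v⟩
  | tail _ h2 ih =>
    obtain ⟨w, rfl, hw⟩ := ih
    obtain ⟨u, rfl⟩ := hφ _ _ h2
    exact ⟨u, rfl, hw.trans (φ.map_rel_iff.mp h2).reachable⟩

lemma Cl.iso {H : SimpleGraph V} {H' : SimpleGraph V'} {φ : H ↪g H'} (hφ : Cl φ) (v : V) :
    Nonempty (comp H v ≃g comp H' (φ v)) := by
  let f : {w | H.Reachable v w} → {w | H'.Reachable (φ v) w} :=
    fun w => ⟨φ w, SimpleGraph.Reachable.map φ.toHom w.2⟩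
  have hf : Function.Bijective f := by
    refine ⟨fun a b e => Subtype.ext (φ.injective (congrArg Subtype.val e)), fun w' => ?_⟩
    obtain ⟨w, h1, h2⟩ := hφ.reach w'.2
    exact ⟨⟨w, h2⟩, Subtype.ext h1⟩
  exact ⟨⟨Equiv.ofBijective f hf, φ.map_rel_iff⟩⟩

lemma cl_iso {H : SimpleGraph V} {H' : SimpleGraph V'} (φ : H ≃g H') : Cl φ.toEmbedding :=
  fun _ w' _ => ⟨φ.symm w', φ.apply_symm_apply w'⟩

lemma cl_inl (H : SimpleGraph V) (H' : SimpleGraph V') :
    Cl (SimpleGraph.Embedding.sumInl : H ↪g H ⊕g H') := by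
  rintro u (w | w) h
  · exact ⟨w, rfl⟩
  · exact absurd h (SimpleGraph.not_adj_sum_inl_inr _ _)

lemma cl_inr (H : SimpleGraph V) (H' : SimpleGraph V') :
    Cl (SimpleGraph.Embedding.sumInr : H' ↪g H ⊕g H') := by
  rintro u (w | w) h
  · exact absurd h.symm (SimpleGraph.not_adj_sum_inl_inr _ _)
  · exact ⟨w, rfl⟩

lemma comp_conn (H : SimpleGraph V) (v : V) : (comp H v).Connected := by
  have hc : Cl (SimpleGraph.Embedding.induce {w | H.Reachable v w} : comp H v ↪g H) :=
    fun u w' h => ⟨⟨w', SimpleGraph.Reachable.trans u.2 h.reachable⟩, rfl⟩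
  have : Nonempty {w | H.Reachable v w} := ⟨⟨v, SimpleGraph.Reachable.refl v⟩⟩
  refine ⟨fun a b => ?_⟩
  obtain ⟨w, h1, h2⟩ := hc.reach (v := a) (w' := b.1)
    (SimpleGraph.Reachable.trans (SimpleGraph.Reachable.symm a.2) b.2)
  have : w = b := Subtype.ext h1
  exact this ▸ h2

lemma comp_iso_of_conn {H : SimpleGraph V} (hH : H.Connected) (v : V) : Nonempty (comp H v ≃g H) :=
  ⟨⟨Equiv.ofBijective Subtype.val
    ⟨Subtype.val_injective, fun w => ⟨⟨w, hH.preconnected v w⟩, rfl⟩⟩, Iff.rfl⟩⟩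

variable [Fintype V] [Fintype V']

lemma Cl.dg {H : SimpleGraph V} {H' : SimpleGraph V'} {φ : H ↪g H'} (hφ : Cl φ) (v : V) :
    dg H v = dg H' (φ v) := by
  unfold Sw.dg
  apply card_bij (fun w _ => φ w)
  · intro w hw
    simp only [mem_filter, mem_univ, true_and] at hw ⊢
    exact φ.map_rel_iff.mpr hw
  · intro a _ b _ e
    exact φ.injective e
  · intro w' hw
    simp only [mem_filter, mem_univ, true_and] at hw ⊢
    obtain ⟨w, rfl⟩ := hφ _ _ hw
    exact ⟨w, φ.map_rel_iff.mp hw, rfl⟩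

lemma Cl.ev {H : SimpleGraph V} {H' : SimpleGraph V'} {φ : H ↪g H'} (hφ : Cl φ) (h : Ev H') :
    Ev H := fun v => by rw [hφ.dg]; exact h _

structure CG where
  n : ℕ
  G : SimpleGraph (Fin n)
  conn : G.Connected
  ev : Ev G

instance sCG : Setoid CG where
  r a b := Nonempty (a.G ≃g b.G)
  iseqv := ⟨fun _ => ⟨SimpleGraph.Iso.refl⟩, fun ⟨f⟩ => ⟨f.symm⟩, fun ⟨f⟩ ⟨g⟩ => ⟨f.trans g⟩⟩

def Ix : Type := Quotient sCG

def rep (c : Ix) : CG := Quotient.out c

lemma rep_inj {c c' : Ix} (h : Nonempty ((rep c).G ≃g (rep c').G)) : c = c' :=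
  Quotient.out_equiv_out.mp h

lemma rep_pos (c : Ix) : 0 < (rep c).n := Fin.pos_iff_nonempty.mpr (rep c).conn.nonempty

lemma exists_rep {H : SimpleGraph V} (h1 : H.Connected) (h2 : Ev H) :
    ∃ c, Nonempty (H ≃g (rep c).G) := by
  let e := (Fintype.equivFin V).symm
  let φ : H.comap e ≃g H := SimpleGraph.Iso.comap e H
  let a : CG := ⟨_, H.comap e, φ.connected_iff.mpr h1, (cl_iso φ).ev h2⟩
  obtain ⟨ψ⟩ : Nonempty ((rep (Quotient.mk sCG a)).G ≃g a.G) := Quotient.mk_out (s := sCG) a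
  exact ⟨Quotient.mk sCG a, ⟨φ.symm.trans ψ.symm⟩⟩

def xx (c : Ix) : MvPowerSeries ℕ ℚ := y (rep c).G

lemma gen (n : ℕ) : ∀ (V : Type) [Fintype V] (H : SimpleGraph V), Fintype.card V = n → Ev H →
    y H ∈ Algebra.adjoin ℚ (Set.range xx) := by
  induction n using Nat.strong_induction_on with
  | _ n ih =>
  intro V _ H hn hH
  rcases isEmpty_or_nonempty V with hV | ⟨⟨v⟩⟩
  · rw [y_empty]; exact Subalgebra.one_mem _
  · let P : Set V := {w | H.Reachable v w}
    have hcl : ∀ a b, H.Adj a b → (a ∈ P ↔ b ∈ P) := fun a b h =>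
      ⟨fun ha => SimpleGraph.Reachable.trans ha h.reachable,
        fun hb => SimpleGraph.Reachable.trans hb h.symm.reachable⟩
    let φ : (H.induce P ⊕g H.induce Pᶜ) ≃g H := ⟨Equiv.Set.sumCompl P, by
      rintro (a | a) (b | b)
      · simp
      · simp only [Equiv.Set.sumCompl_apply_inl, Equiv.Set.sumCompl_apply_inr]
        exact iff_of_false (fun h => b.2 ((hcl _ _ h).mp a.2)) (SimpleGraph.not_adj_sum_inl_inr _ _)
      · simp only [Equiv.Set.sumCompl_apply_inl, Equiv.Set.sumCompl_apply_inr]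
        exact iff_of_false (fun h => a.2 ((hcl _ _ h).mpr b.2))
          (fun h => SimpleGraph.not_adj_sum_inl_inr _ _ h.symm)
      · simp⟩
    have he := (cl_iso φ).ev hH
    rw [← y_iso φ, y_sum]
    apply Subalgebra.mul_mem
    · obtain ⟨c, ⟨ψ⟩⟩ := exists_rep (comp_conn H v) ((cl_inl _ _).ev he)
      have : y (H.induce P) = xx c := y_iso ψ
      rw [this]
      exact Algebra.subset_adjoin ⟨c, rfl⟩
    · refine ih _ ?_ _ _ rfl ((cl_inr _ _).ev he)
      rw [← hn]
      apply Fintype.card_lt_of_injective_of_notMem Subtype.val Subtype.val_injective (b := v)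
      rintro ⟨w, hw⟩
      exact w.2 (hw ▸ SimpleGraph.Reachable.refl v)

def cnt (H : SimpleGraph V) (c : Ix) : ℕ :=
  ∑ v, if Nonempty (comp H v ≃g (rep c).G) then 1 else 0

omit [Fintype V] [Fintype V'] in
lemma Cl.iff {H : SimpleGraph V} {H' : SimpleGraph V'} {φ : H ↪g H'} (hφ : Cl φ) (v : V) (c : Ix) :
    Nonempty (comp H v ≃g (rep c).G) ↔ Nonempty (comp H' (φ v) ≃g (rep c).G) := by
  obtain ⟨ψ⟩ := hφ.iso v
  exact ⟨fun ⟨f⟩ => ⟨ψ.symm.trans f⟩, fun ⟨f⟩ => ⟨ψ.trans f⟩⟩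

lemma cnt_iso {H : SimpleGraph V} {H' : SimpleGraph V'} (φ : H ≃g H') (c : Ix) :
    cnt H c = cnt H' c :=
  Fintype.sum_equiv φ.toEquiv _ _ fun v => if_congr ((cl_iso φ).iff v c) rfl rfl

lemma cnt_sum (H : SimpleGraph V) (H' : SimpleGraph V') (c : Ix) :
    cnt (H ⊕g H') c = cnt H c + cnt H' c := by
  unfold cnt
  rw [Fintype.sum_sum_type]
  congr 1
  · exact sum_congr rfl fun v _ => (if_congr ((cl_inl H H').iff v c) rfl rfl).symm
  · exact sum_congr rfl fun v _ => (if_congr ((cl_inr H H').iff v c) rfl rfl).symm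

lemma cnt_rep (c c' : Ix) : cnt (rep c').G c = if c' = c then (rep c).n else 0 := by
  unfold cnt
  have : ∀ v, Nonempty (comp (rep c').G v ≃g (rep c).G) ↔ c' = c := by
    intro v
    obtain ⟨ψ⟩ := comp_iso_of_conn (rep c').conn v
    exact ⟨fun ⟨f⟩ => rep_inj ⟨ψ.symm.trans f⟩, fun e => e ▸ ⟨ψ⟩⟩
  simp only [this]
  split_ifs with e
  · subst e; simp
  · simp

lemma mono (d : Ix →₀ ℕ) : ∃ (V : Type) (_ : Fintype V) (H : SimpleGraph V),
    y H = d.prod (fun c k => xx c ^ k) ∧ ∀ c, cnt H c = d c * (rep c).n := by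
  induction d using Finsupp.induction_linear with
  | zero => exact ⟨Empty, inferInstance, ⊥, by simp [y_empty], by simp [cnt]⟩
  | add f g hf hg =>
    obtain ⟨V, _, H, h1, h2⟩ := hf
    obtain ⟨V', _, H', h3, h4⟩ := hg
    refine ⟨V ⊕ V', inferInstance, H ⊕g H', ?_, fun c => ?_⟩
    · rw [y_sum, h1, h3, Finsupp.prod_add_index' (fun _ => pow_zero _) (fun _ _ _ => pow_add _ _ _)]
    · rw [cnt_sum, h2, h4, Finsupp.add_apply, add_mul]
  | single a k =>
    rw [Finsupp.prod_single_index (h := fun c k => xx c ^ k) (pow_zero _)]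
    induction k with
    | zero => exact ⟨Empty, inferInstance, ⊥, by simp [y_empty], by simp [cnt]⟩
    | succ k ih =>
      obtain ⟨V, _, H, h1, h2⟩ := ih
      refine ⟨V ⊕ Fin (rep a).n, inferInstance, H ⊕g (rep a).G, ?_, fun c => ?_⟩
      · rw [y_sum, h1, pow_succ]; rfl
      · rw [cnt_sum, h2, cnt_rep, Finsupp.single_apply, Finsupp.single_apply]
        split_ifs
        · ring
        · simp

lemma realize (t : Finset (Sym2 V)) (ht : t ⊆ DD V) :
    ∃ j : V → ℕ, Function.Injective j ∧ tj j = t := by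
  obtain ⟨j, h1, h2⟩ := embed EP_R (SimpleGraph.fromEdgeSet (t : Set (Sym2 V)))
  refine ⟨j, h1, ?_⟩
  rw [← EF_from ht]
  ext e
  induction e using Sym2.ind with
  | h u v => rw [mk_mem_tj, mk_mem_EF, h2]

def jj (t : Finset (Sym2 V)) : V → ℕ :=
  if ht : t ⊆ DD V then Classical.choose (realize t ht) else fun _ => 0

lemma jj_spec {t : Finset (Sym2 V)} (ht : t ⊆ DD V) : Function.Injective (jj t) ∧ tj (jj t) = t := by
  unfold jj
  rw [dif_pos ht]
  exact Classical.choose_spec (realize t ht)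

def Lam (H0 : SimpleGraph V') (f : MvPowerSeries ℕ ℚ) : ℚ :=
  ∑ t ∈ (DD V').powerset, ch (EF H0) t * MvPowerSeries.coeff (ind (jj t)) f

lemma image_sub (β : V ≃ V') (H : SimpleGraph V) : (EF H).image (Sym2.map β) ⊆ DD V' := by
  intro e he
  obtain ⟨e', he', rfl⟩ := mem_image.mp he
  induction e' using Sym2.ind with
  | h u v => exact mk_mem_DD.mpr fun h => (mk_mem_EF.mp he').ne (β.injective h)

lemma Lam_y (H0 : SimpleGraph V') (H : SimpleGraph V) : Lam H0 (y H) =
    ∑ β : V ≃ V', if EF H0 = (EF H).image (Sym2.map β) then 2 ^ (DD V').card else 0 := by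
  unfold Lam
  have : ∀ t ∈ (DD V').powerset, ch (EF H0) t * MvPowerSeries.coeff (ind (jj t)) (y H)
      = ∑ β : V ≃ V', ch (EF H0) t * ch ((EF H).image (Sym2.map β)) t := by
    intro t ht
    have h := jj_spec (mem_powerset.mp ht)
    rw [coeff_y, sum_PP _ h.1, mul_sum]
    refine sum_congr rfl fun β _ => ?_
    rw [ch_map β β.injective, h.2]
  rw [sum_congr rfl this, sum_comm]
  exact sum_congr rfl fun β _ => orth _ _ _ (EF_sub H0) (image_sub β H)

lemma Lam_self (H0 : SimpleGraph V') : Lam H0 (y H0) ≠ 0 := by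
  rw [Lam_y]
  apply ne_of_gt
  apply sum_pos'
  · intro β _; split_ifs <;> positivity
  · refine ⟨Equiv.refl _, mem_univ _, ?_⟩
    rw [if_pos]
    · positivity
    · exact (EF_iso (SimpleGraph.Iso.refl (G := H0))).symm

lemma Lam_ne (H0 : SimpleGraph V') (H : SimpleGraph V) (h : Lam H0 (y H) ≠ 0) :
    Nonempty (H ≃g H0) := by
  rw [Lam_y] at h
  obtain ⟨β, _, hβ⟩ := exists_ne_zero_of_sum_ne_zero h
  have e : EF H0 = (EF H).image (Sym2.map β) := by
    by_contra hc
    exact hβ (if_neg hc)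
  refine ⟨⟨β, fun {u v} => ?_⟩⟩
  rw [← mk_mem_EF, ← mk_mem_EF, e, ← Sym2.map_mk,
    Function.Injective.mem_finset_image (Sym2.map.injective β.injective)]

lemma indep (p : MvPolynomial Ix ℚ)
    (hp : ∀ s : ℕ →₀ ℕ, (∀ i, s i ≤ 1) → MvPowerSeries.coeff s (MvPolynomial.aeval xx p) = 0) :
    p = 0 := by
  choose W inst H h1 h2 using mono
  ext d0
  have e1 : MvPolynomial.aeval xx p = ∑ d ∈ p.support, p.coeff d • y (H d) := by
    rw [MvPolynomial.aeval_def, MvPolynomial.eval₂_eq]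
    refine sum_congr rfl fun d _ => ?_
    rw [h1, Algebra.smul_def]; rfl
  have e2 : Lam (H d0) (MvPolynomial.aeval xx p) = 0 := by
    apply sum_eq_zero
    intro t ht
    rw [hp _ ((ind_le _).mpr (jj_spec (mem_powerset.mp ht)).1), mul_zero]
  have e3 : Lam (H d0) (MvPolynomial.aeval xx p) = ∑ d ∈ p.support, p.coeff d * Lam (H d0) (y (H d)) := by
    rw [e1]
    unfold Lam
    simp only [map_sum, map_smul, smul_eq_mul, mul_sum]
    rw [sum_comm]
    refine sum_congr rfl fun d _ => sum_congr rfl fun t _ => by ring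
  rw [e3, sum_eq_single d0] at e2
  · exact (mul_eq_zero.mp e2).resolve_right (Lam_self _)
  · intro d _ hd
    by_cases h : Lam (H d0) (y (H d)) = 0
    · rw [h, mul_zero]
    · obtain ⟨φ⟩ := Lam_ne _ _ h
      exfalso
      apply hd
      ext c
      have := cnt_iso φ c
      rw [h2, h2] at this
      exact Nat.eq_of_mul_eq_mul_right (rep_pos c) this
  · intro h
    rw [MvPolynomial.notMem_support_iff.mp h, zero_mul]

def Inv (f : MvPowerSeries ℕ ℚ) : Prop :=
  ∀ σ, IsSw σ → ∀ s : ℕ →₀ ℕ,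
    MvPowerSeries.coeff (Finsupp.equivMapDomain σ s) f = MvPowerSeries.coeff s f

lemma Inv.eq {f : MvPowerSeries ℕ ℚ} (hf : Inv f) (j j' : V → ℕ) (hj : Function.Injective j)
    (hj' : Function.Injective j') (S : Finset V)
    (h : ∀ u v, u ≠ v → (s(u, v) ∈ tj j' ↔ (s(u, v) ∈ tj j ↔ (u ∈ S ↔ v ∈ S)))) :
    MvPowerSeries.coeff (ind j') f = MvPowerSeries.coeff (ind j) f := by
  obtain ⟨σ, h1, h2⟩ := homog j j' hj hj' S (by simpa only [mk_mem_tj] using h)
  have : j' = σ ∘ j := funext fun v => (h2 v).symm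
  rw [this, ind_perm, hf σ h1]

def hat (f : MvPowerSeries ℕ ℚ) (h : Finset (Sym2 V)) : ℚ :=
  ∑ u ∈ (DD V).powerset, MvPowerSeries.coeff (ind (jj u)) f * ch h u

lemma hat_odd {f : MvPowerSeries ℕ ℚ} (hf : Inv f) (H : SimpleGraph V) (hH : ¬ Ev H) :
    hat f (EF H) = 0 := by
  obtain ⟨v, hv⟩ := not_forall.mp hH
  let δ : V → ℚ := fun u => if u = v then -1 else 1
  let sw : Finset (Sym2 V) → Finset (Sym2 V) := fun t => (DD V).filter fun e => (e ∈ t ↔ mu δ e = 1)
  have hmu : ∀ a b, mu δ s(a, b) = 1 ↔ (a = v ↔ b = v) := by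
    intro a b
    simp only [mu_mk, δ]
    by_cases h1 : a = v <;> by_cases h2 : b = v <;> simp [h1, h2] <;> norm_num
  have hsub : ∀ t, sw t ⊆ DD V := fun t => filter_subset _ _
  have hinv : ∀ t ⊆ DD V, sw (sw t) = t := by
    intro t ht
    ext e
    have := @ht e
    simp only [sw, mem_filter]
    tauto
  have hch : ∀ t, ch (EF H) (sw t) = - ch (EF H) t := by
    intro t
    have h1 : ∀ e ∈ EF H, sgn (sw t) e = sgn t e * mu δ e := by
      intro e he
      have h2 := EF_sub H he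
      have h3 : mu δ e = 1 ∨ mu δ e = -1 := by
        induction e using Sym2.ind with
        | h a b =>
          simp only [mu_mk, δ]
          split_ifs <;> norm_num
      unfold sgn
      simp only [sw, mem_filter, h2, true_and]
      rcases h3 with h3 | h3 <;> by_cases h4 : e ∈ t <;> simp [h3, h4] <;> norm_num
    unfold ch
    rw [prod_congr rfl h1, prod_mul_distrib, prod_mu,
      Fintype.prod_eq_single v (f := fun u => δ u ^ dg H u) (fun u hu => by simp [δ, hu])]
    simp only [δ, if_true]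
    rw [(Nat.not_even_iff_odd.mp hv).neg_one_pow]; ring
  have hΦ : ∀ t ⊆ DD V, MvPowerSeries.coeff (ind (jj (sw t))) f
      = MvPowerSeries.coeff (ind (jj t)) f := by
    intro t ht
    apply hf.eq _ _ (jj_spec ht).1 (jj_spec (hsub t)).1 {v}
    intro a b hab
    rw [(jj_spec ht).2, (jj_spec (hsub t)).2]
    simp only [sw, mem_filter, mk_mem_DD, hmu, mem_singleton]
    tauto
  have : hat f (EF H) = - hat f (EF H) := by
    unfold hat
    rw [← sum_neg_distrib]
    symm
    apply sum_bij' (fun t _ => sw t) (fun t _ => sw t)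
    · intro t _; exact mem_powerset.mpr (hsub t)
    · intro t _; exact mem_powerset.mpr (hsub t)
    · intro t ht; exact hinv t (mem_powerset.mp ht)
    · intro t ht; exact hinv t (mem_powerset.mp ht)
    · intro t ht
      rw [hΦ t (mem_powerset.mp ht), hch]; ring
  linarith

def part (V : Type) [Fintype V] (f : MvPowerSeries ℕ ℚ) : MvPowerSeries ℕ ℚ :=
  ∑ h ∈ (DD V).powerset, (hat f h / (2 ^ (DD V).card * Fintype.card (V ≃ V))) •
    y (SimpleGraph.fromEdgeSet (h : Set (Sym2 V)))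

lemma part_mem {f : MvPowerSeries ℕ ℚ} (hf : Inv f) :
    part V f ∈ Algebra.adjoin ℚ (Set.range xx) := by
  apply Subalgebra.sum_mem
  intro h hh
  by_cases he : Ev (SimpleGraph.fromEdgeSet (h : Set (Sym2 V)))
  · exact Subalgebra.smul_mem _ (gen _ V _ rfl he) _
  · have := hat_odd hf _ he
    rw [EF_from (mem_powerset.mp hh)] at this
    rw [this, zero_div, zero_smul]
    exact Subalgebra.zero_mem _

lemma part_deg (f : MvPowerSeries ℕ ℚ) (s : ℕ →₀ ℕ) (h : s.sum (fun _ e => e) ≠ Fintype.card V) :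
    MvPowerSeries.coeff s (part V f) = 0 := by
  unfold part
  rw [map_sum]
  apply sum_eq_zero
  intro t _
  rw [map_smul]
  by_cases h1 : MvPowerSeries.coeff s (y (SimpleGraph.fromEdgeSet (t : Set (Sym2 V)))) = 0
  · rw [h1, smul_zero]
  · exact absurd (y_deg _ _ h1) h

lemma part_eq {f : MvPowerSeries ℕ ℚ} (hf : Inv f) (j0 : V → ℕ) (h0 : Function.Injective j0) :
    MvPowerSeries.coeff (ind j0) (part V f) = MvPowerSeries.coeff (ind j0) f := by
  unfold part
  have hc : (Fintype.card (V ≃ V) : ℚ) ≠ 0 := by exact_mod_cast Fintype.card_ne_zero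
  have e1 : ∀ h ∈ (DD V).powerset, MvPowerSeries.coeff (ind j0)
      ((hat f h / (2 ^ (DD V).card * Fintype.card (V ≃ V))) •
        y (SimpleGraph.fromEdgeSet (h : Set (Sym2 V))))
      = ∑ β : V ≃ V, (hat f h * ch h (tj (j0 ∘ β))) / (2 ^ (DD V).card * Fintype.card (V ≃ V)) := by
    intro h hh
    rw [map_smul, coeff_y, sum_PP _ h0, EF_from (mem_powerset.mp hh), smul_eq_mul, mul_sum]
    exact sum_congr rfl fun β _ => by ring
  rw [map_sum, sum_congr rfl e1, sum_comm]
  have e2 : ∀ β : V ≃ V, ∑ h ∈ (DD V).powerset,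
      (hat f h * ch h (tj (j0 ∘ β))) / (2 ^ (DD V).card * Fintype.card (V ≃ V))
      = MvPowerSeries.coeff (ind j0) f / Fintype.card (V ≃ V) := by
    intro β
    have ht : tj (j0 ∘ β) ⊆ DD V := EF_sub _
    rw [← sum_div]
    unfold hat
    rw [fourier (DD V) (fun u => MvPowerSeries.coeff (ind (jj u)) f) _ ht,
      hf.eq (j0 ∘ β) _ (h0.comp β.injective) (jj_spec ht).1 ∅
        (fun u v _ => by rw [(jj_spec ht).2]; simp), ind_equiv]
    field_simp
  rw [sum_congr rfl fun β _ => e2 β, sum_const, card_univ, nsmul_eq_mul]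
  field_simp

lemma span_all {f : MvPowerSeries ℕ ℚ} (hf : Inv f) (N : ℕ)
    (hN : ∀ s : ℕ →₀ ℕ, N ≤ s.sum (fun _ e => e) → MvPowerSeries.coeff s f = 0) :
    ∃ g ∈ Algebra.adjoin ℚ (Set.range xx), ∀ s : ℕ →₀ ℕ, (∀ i, s i ≤ 1) →
      MvPowerSeries.coeff s f = MvPowerSeries.coeff s g := by
  refine ⟨∑ n ∈ range N, part (Fin n) f, Subalgebra.sum_mem _ fun n _ => part_mem hf, ?_⟩
  intro s hs
  let j0 : Fin s.support.card → ℕ := fun i => (s.support.equivFin.symm i : ℕ)
  have h0 : Function.Injective j0 := Subtype.val_injective.comp s.support.equivFin.symm.injective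
  have h1 : ind j0 = s := by
    ext a
    have h2 := (ind_le j0).mpr h0 a
    have h3 := hs a
    have h4 : ind j0 a ≠ 0 ↔ s a ≠ 0 := by
      rw [ind_ne, ← Finsupp.mem_support_iff]
      exact ⟨fun ⟨i, hi⟩ => hi ▸ (s.support.equivFin.symm i).2,
        fun h => ⟨s.support.equivFin ⟨a, h⟩, by simp [j0]⟩⟩
    omega
  have h5 : s.sum (fun _ e => e) = s.support.card := by
    conv_lhs => rw [← h1, ind_deg, Fintype.card_fin]
  rw [map_sum, sum_eq_single s.support.card]
  · have := part_eq hf j0 h0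
    rw [h1] at this
    exact this.symm
  · intro n _ hn
    apply part_deg
    rw [h5, Fintype.card_fin]
    exact hn.symm
  · intro h
    have := part_eq hf j0 h0
    rw [h1] at this
    rw [this]
    apply hN
    rw [h5]
    simpa using h

def KI : Ideal (MvPowerSeries ℕ ℚ) where
  carrier := {f | ∀ s : ℕ →₀ ℕ, (∀ i, s i ≤ 1) → MvPowerSeries.coeff s f = 0}
  add_mem' := by
    intro a b ha hb s hs
    rw [map_add, ha s hs, hb s hs, add_zero]
  zero_mem' := fun _ _ => map_zero _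
  smul_mem' := by
    intro c a ha s hs
    rw [smul_eq_mul, MvPowerSeries.coeff_mul]
    apply sum_eq_zero
    intro p hp
    rw [ha p.2, mul_zero]
    intro i
    have := hs i
    rw [← HasAntidiagonal.mem_antidiagonal.mp hp, Finsupp.add_apply] at this
    omega

lemma span_KI : Ideal.span {f : MvPowerSeries ℕ ℚ |
    ∀ s : ℕ →₀ ℕ, (∀ i, s i ≤ 1) → MvPowerSeries.coeff s f = 0} = KI :=
  Ideal.span_eq KI

end

end Pool.Agent.H18.Sw
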