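import Mathlib

namespace Pool.Agent.H18.ThF

open Filter Topology Set

/-- The defining relations of Thompson's group `F` on `x0, …, x4`. -/
def Rel {G : Type} [Group G] (x0 x1 x2 x3 x4 : G) : Prop :=
  x0⁻¹ * x1 * x0 = x2 ∧ x0⁻¹ * x2 * x0 = x3 ∧ x0⁻¹ * x3 * x0 = x4 ∧
    x1⁻¹ * x2 * x1 = x3 ∧ x1⁻¹ * x3 * x1 = x4

/-- The quasi-identity: the relations force `x1 = x2`. -/
def QF (G : Type) [Group G] : Prop := ∀ x0 x1 x2 x3 x4 : G, Rel x0 x1 x2 x3 x4 → x1 = x2

lemma Rel.map {G H : Type} [Group G] [Group H] (φ : G →* H) {x0 x1 x2 x3 x4 : G}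
    (h : Rel x0 x1 x2 x3 x4) : Rel (φ x0) (φ x1) (φ x2) (φ x3) (φ x4) := by
  obtain ⟨h1, h2, h3, h4, h5⟩ := h
  refine ⟨?_, ?_, ?_, ?_, ?_⟩
  · rw [← h1]; simp
  · rw [← h2]; simp
  · rw [← h3]; simp
  · rw [← h4]; simp
  · rw [← h5]; simp

lemma QF.of_inj {G H : Type} [Group G] [Group H] (φ : G →* H) (hφ : Function.Injective φ)
    (h : QF H) : QF G := fun _ _ _ _ _ hr => hφ (h _ _ _ _ _ (hr.map φ))

section seq
variable {G : Type} [Group G]

/-- The infinite generating sequence. -/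
def X (a b : G) : ℕ → G
  | 0 => a
  | n + 1 => (a ^ n)⁻¹ * b * a ^ n

lemma X_shift (a b : G) (k i : ℕ) : (a ^ k)⁻¹ * X a b (i + 1) * a ^ k = X a b (i + k + 1) := by
  simp only [X]
  rw [pow_add]; group

lemma X_rel {x0 x1 x2 x3 x4 : G} (h : Rel x0 x1 x2 x3 x4) :
    ∀ i j, i < j → (X x0 x1 i)⁻¹ * X x0 x1 j * X x0 x1 i = X x0 x1 (j + 1) := by
  obtain ⟨h1, h2, h3, h4, h5⟩ := h
  have e1 : X x0 x1 1 = x1 := by simp [X]
  have e2 : X x0 x1 2 = x2 := by rw [← h1]; simp [X]
  have e3 : X x0 x1 3 = x3 := by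
    rw [← h2, ← e2]; have := X_shift x0 x1 1 1; rw [pow_one] at this; exact this.symm
  have e4 : X x0 x1 4 = x4 := by
    rw [← h3, ← e3]; have := X_shift x0 x1 1 2; rw [pow_one] at this; exact this.symm
  have up : ∀ k j, (X x0 x1 1)⁻¹ * X x0 x1 (j + 1) * X x0 x1 1 = X x0 x1 (j + 2) →
      (X x0 x1 (k + 1))⁻¹ * X x0 x1 (j + k + 1) * X x0 x1 (k + 1) = X x0 x1 (j + k + 2) := by
    intro k j hj
    have a1 := X_shift x0 x1 k 0
    have a2 := X_shift x0 x1 k j
    have a3 := X_shift x0 x1 k (j + 1)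
    rw [zero_add k] at a1
    rw [show j + 1 + k + 1 = j + k + 2 by ring] at a3
    rw [← a1, ← a2, ← a3, show j + 1 + 1 = j + 2 by ring, ← hj]
    group
  have one : ∀ j, (X x0 x1 1)⁻¹ * X x0 x1 (j + 2) * X x0 x1 1 = X x0 x1 (j + 3) := by
    intro j
    induction j using Nat.strong_induction_on with
    | _ j ih =>
      match j, ih with
      | 0, _ => rw [e1, e2, e3]; exact h4
      | 1, _ => rw [e1, e3, e4]; exact h5
      | j + 2, ih =>
        have a0 := ih 0 (by omega)
        have a1 := ih (j + 1) (by omega)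
        have b1 := up 1 (j + 1) (ih j (by omega))
        have b2 := up 2 (j + 1) (ih j (by omega))
        rw [show j + 1 + 1 + 1 = j + 3 by ring, show j + 1 + 1 + 2 = j + 4 by ring] at b1
        rw [show j + 1 + 2 + 1 = j + 4 by ring, show j + 1 + 2 + 2 = j + 5 by ring] at b2
        rw [show j + 1 + 2 = j + 3 by ring, show j + 1 + 3 = j + 4 by ring] at a1
        rw [show j + 2 + 2 = j + 4 by ring, show j + 2 + 3 = j + 5 by ring]
        simp only [zero_add, Nat.reduceAdd] at a0 b1 b2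
        calc (X x0 x1 1)⁻¹ * X x0 x1 (j + 4) * X x0 x1 1
            = ((X x0 x1 1)⁻¹ * X x0 x1 2 * X x0 x1 1)⁻¹ *
              ((X x0 x1 1)⁻¹ * X x0 x1 (j + 3) * X x0 x1 1) *
              ((X x0 x1 1)⁻¹ * X x0 x1 2 * X x0 x1 1) := by rw [← b1]; group
          _ = X x0 x1 (j + 5) := by rw [a0, a1, b2]
  intro i j hij
  rcases i with _ | i
  · obtain ⟨j, rfl⟩ : ∃ j', j = j' + 1 := ⟨j - 1, by omega⟩
    have := X_shift x0 x1 1 j
    rw [pow_one] at this
    exact this
  · obtain ⟨d, rfl⟩ : ∃ d, j = d + 1 + i + 1 := ⟨j - i - 2, by omega⟩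
    exact up i (d + 1) (one d)

/-- Evaluate a word. -/
def ev (x : ℕ → G) : List (ℕ × Bool) → G
  | [] => 1
  | p :: l => (if p.2 then x p.1 else (x p.1)⁻¹) * ev x l

/-- Formal inverse of a word. -/
def winv : List (ℕ × Bool) → List (ℕ × Bool)
  | [] => []
  | p :: l => winv l ++ [(p.1, !p.2)]

lemma ev_append (x : ℕ → G) : ∀ l l' : List (ℕ × Bool), ev x (l ++ l') = ev x l * ev x l'
  | [], l' => by simp [ev]
  | p :: l, l' => by simp [ev, ev_append x l l', mul_assoc]

lemma ev_winv (x : ℕ → G) : ∀ l : List (ℕ × Bool), ev x (winv l) = (ev x l)⁻¹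
  | [] => by simp [ev, winv]
  | (i, s) :: l => by
      cases s <;> simp [ev, winv, ev_append, ev_winv x l]

/-- One rewriting step. -/
def step : List (ℕ × Bool) → List (ℕ × Bool)
  | [] => []
  | p :: l =>
    match l with
    | [] => [p]
    | q :: l' =>
      if p.1 = q.1 ∧ p.2 = !q.2 then l'
      else if p.2 = false ∧ q.2 = true ∧ p.1 < q.1 then (q.1 + 1, true) :: (p.1, false) :: l'
      else if p.2 = false ∧ q.2 = true ∧ q.1 < p.1 then (q.1, true) :: (p.1 + 1, false) :: l'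
      else if p.2 = true ∧ q.2 = true ∧ q.1 < p.1 then (q.1, true) :: (p.1 + 1, true) :: l'
      else if p.2 = false ∧ q.2 = false ∧ p.1 < q.1 then (q.1 + 1, false) :: (p.1, false) :: l'
      else p :: step l

lemma ev_step (x : ℕ → G) (hx : ∀ i j, i < j → (x i)⁻¹ * x j * x i = x (j + 1)) :
    ∀ l, ev x (step l) = ev x l
  | [] => rfl
  | [_] => rfl
  | (i, s) :: (j, t) :: l => by
      have ih := ev_step x hx ((j, t) :: l)
      rw [step]
      split_ifs with h1 h2 h3 h4 h5
      · obtain ⟨h, h'⟩ := h1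
        simp only at h h'
        subst h h'
        cases t <;> simp [ev]
      · obtain ⟨h, h', h''⟩ := h2
        simp only at h h' h''
        subst h h'
        simp only [ev, if_true, Bool.false_eq_true, if_false]
        rw [← hx i j h'']; group
      · obtain ⟨h, h', h''⟩ := h3
        simp only at h h' h''
        subst h h'
        simp only [ev, if_true, Bool.false_eq_true, if_false]
        rw [← hx j i h'']; group
      · obtain ⟨h, h', h''⟩ := h4
        simp only at h h' h''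
        subst h h'
        simp only [ev, if_true]
        rw [← hx j i h'']; group
      · obtain ⟨h, h', h''⟩ := h5
        simp only at h h' h''
        subst h h'
        simp only [ev, Bool.false_eq_true, if_false]
        rw [← hx i j h'']; group
      · rw [ev, ih]; rfl

lemma ev_iter (x : ℕ → G) (hx : ∀ i j, i < j → (x i)⁻¹ * x j * x i = x (j + 1)) (n : ℕ)
    (l : List (ℕ × Bool)) : ev x (step^[n] l) = ev x l := by
  induction n generalizing l with
  | zero => rfl
  | succ n ih => rw [Function.iterate_succ_apply, ih, ev_step x hx]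

/-- Initial words `x1 ⋯ xn`. -/
def cw : ℕ → List (ℕ × Bool)
  | 0 => []
  | n + 1 => cw n ++ [(n + 1, true)]

/-- The generators of a copy of `F` inside the commutator subgroup. -/
def yw (n : ℕ) : List (ℕ × Bool) :=
  cw n ++ [(n + 1, true), (n + 1, true), (n + 2, false), (n + 1, false)] ++ winv (cw n)

lemma y_rel (x : ℕ → G) (hx : ∀ i j, i < j → (x i)⁻¹ * x j * x i = x (j + 1)) (i j : ℕ)
    (h : step^[30] (winv (yw i) ++ yw j ++ yw i ++ winv (yw (j + 1))) = []) :
    (ev x (yw i))⁻¹ * ev x (yw j) * ev x (yw i) = ev x (yw (j + 1)) := by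
  have := ev_iter x hx 30 (winv (yw i) ++ yw j ++ yw i ++ winv (yw (j + 1)))
  rw [h, ev_append, ev_append, ev_append, ev_winv, ev_winv] at this
  exact mul_inv_eq_one.1 this.symm

theorem QF_ext (N : Subgroup G) [N.Normal] (hN : QF N) (hQ : QF (G ⧸ N)) : QF G := by
  intro x0 x1 x2 x3 x4 h
  have hx := X_rel h
  have hq := hQ _ _ _ _ _ (h.map (QuotientGroup.mk' N))
  have hc : Commute (QuotientGroup.mk' N x0) (QuotientGroup.mk' N x1) := by
    have h1 := (h.map (QuotientGroup.mk' N)).1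
    rw [← hq] at h1
    show _ * _ = _ * _
    conv_lhs => rw [← h1]
    group
  have hb : ∀ n, QuotientGroup.mk' N (X x0 x1 (n + 1)) = QuotientGroup.mk' N x1 := by
    intro n
    simp only [X, map_mul, map_inv, map_pow]
    rw [mul_assoc, ← (hc.pow_left n).eq]; group
  have hy : ∀ n, ev (X x0 x1) (yw n) ∈ N := by
    intro n
    rw [yw, ev_append, ev_append, ev_winv]
    refine Subgroup.Normal.conj_mem inferInstance _ ?_ _
    rw [← QuotientGroup.eq_one_iff]
    show QuotientGroup.mk' N _ = 1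
    simp only [ev, if_true, Bool.false_eq_true, if_false, map_mul, map_inv, map_one, hb]
    group
  have h12 := hN ⟨_, hy 0⟩ ⟨_, hy 1⟩ ⟨_, hy 2⟩ ⟨_, hy 3⟩ ⟨_, hy 4⟩
    ⟨Subtype.ext (y_rel _ hx 0 1 (by decide)), Subtype.ext (y_rel _ hx 0 2 (by decide)),
      Subtype.ext (y_rel _ hx 0 3 (by decide)), Subtype.ext (y_rel _ hx 1 2 (by decide)),
      Subtype.ext (y_rel _ hx 1 3 (by decide))⟩
  have h12' : ev (X x0 x1) (yw 1) = ev (X x0 x1) (yw 2) := congrArg Subtype.val h12
  have h3 := ev_iter (X x0 x1) hx 30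
    (yw 1 ++ winv (yw 2) ++ winv (cw 3 ++ [(2, true), (3, false)] ++ winv (cw 3)))
  rw [show step^[30] (yw 1 ++ winv (yw 2) ++
      winv (cw 3 ++ [(2, true), (3, false)] ++ winv (cw 3))) = [] by decide,
    ev_append, ev_append, ev_winv, ev_winv, ev_append, ev_append, ev_winv, h12'] at h3
  have h4 : ev (X x0 x1) [(2, true), (3, false)] = 1 := by
    have e : ev (X x0 x1) [(2, true), (3, false)] = (ev (X x0 x1) (cw 3))⁻¹ *
        ((ev (X x0 x1) (yw 2) * (ev (X x0 x1) (yw 2))⁻¹ * (ev (X x0 x1) (cw 3) *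
          ev (X x0 x1) [(2, true), (3, false)] * (ev (X x0 x1) (cw 3))⁻¹)⁻¹))⁻¹ *
          ev (X x0 x1) (cw 3) := by group
    rw [e, ← h3]; simp [ev]
  have h5 : X x0 x1 2 = X x0 x1 3 := by
    simp only [ev, if_true, Bool.false_eq_true, if_false, mul_one] at h4
    exact mul_inv_eq_one.1 h4
  have h6 : X x0 x1 1 = X x0 x1 2 := by
    have a1 := hx 0 1 (by omega)
    have a2 := hx 0 2 (by omega)
    have : (X x0 x1 0)⁻¹ * X x0 x1 1 * X x0 x1 0 = (X x0 x1 0)⁻¹ * X x0 x1 2 * X x0 x1 0 := by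
      rw [a1, a2]; exact h5
    exact mul_left_cancel (mul_right_cancel this)
  have e1 : X x0 x1 1 = x1 := by simp [X]
  have e2 : X x0 x1 2 = x2 := by rw [← h.1]; simp [X]
  rw [← e1, ← e2]; exact h6

end seq

/-- Right germ of slope `2 ^ k` at `p`. -/
def Germ (f : ℝ ≃o ℝ) (p : ℝ) (k : ℤ) : Prop :=
  ∀ᶠ t in 𝓝[>] p, f t = f p + (2 : ℝ) ^ k * (t - p)

lemma tend (f : ℝ ≃o ℝ) (p : ℝ) : Tendsto f (𝓝[>] p) (𝓝[>] (f p)) := by
  refine tendsto_nhdsWithin_of_tendsto_nhds_of_eventually_within _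
    ((f.continuous.tendsto p).mono_left nhdsWithin_le_nhds) ?_
  filter_upwards [self_mem_nhdsWithin] with t ht
  exact f.strictMono ht

lemma Germ.mul {f g : ℝ ≃o ℝ} {p : ℝ} {k l : ℤ} (hf : Germ f (g p) k) (hg : Germ g p l) :
    Germ (f * g) p (k + l) := by
  filter_upwards [(tend g p).eventually hf, hg] with t h1 h2
  show f (g t) = f (g p) + _
  rw [h1, h2, zpow_add₀ (two_ne_zero)]; ring

lemma Germ.inv {f : ℝ ≃o ℝ} {q : ℝ} {k : ℤ} (hf : Germ f (f⁻¹ q) k) : Germ f⁻¹ q (-k) := by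
  filter_upwards [(tend f⁻¹ q).eventually hf] with t h1
  have e1 : f (f⁻¹ t) = t := f.apply_symm_apply t
  have e2 : f (f⁻¹ q) = q := f.apply_symm_apply q
  rw [e1, e2] at h1
  have h2 : (2 : ℝ) ^ k ≠ 0 := zpow_ne_zero _ two_ne_zero
  rw [zpow_neg]
  field_simp
  linarith

lemma Germ.unique {f : ℝ ≃o ℝ} {p : ℝ} {k l : ℤ} (h : Germ f p k) (h' : Germ f p l) : k = l := by
  obtain ⟨t, ⟨h1, h2⟩, h3⟩ := ((h.and h').and self_mem_nhdsWithin).exists
  have h4 : (2 : ℝ) ^ k = (2 : ℝ) ^ l := by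
    have : t - p ≠ 0 := sub_ne_zero.2 (ne_of_gt h3)
    apply mul_right_cancel₀ this
    linarith
  exact zpow_right_injective₀ (by norm_num) (by norm_num) h4

/-- Increasing bijections of the line, trivial on the negative half line, whose right germs are
affine with slope a power of two. -/
def P : Subgroup (ℝ ≃o ℝ) where
  carrier := {f | (∀ t, t ≤ 0 → f t = t) ∧ ∀ p, ∃ k, Germ f p k}
  one_mem' := ⟨fun _ _ => rfl, fun p => ⟨0, Eventually.of_forall fun t => by
    show t = p + _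
    simp⟩⟩
  mul_mem' := fun {f g} hf hg => ⟨fun t ht => by
      show f (g t) = t
      rw [hg.1 t ht, hf.1 t ht], fun p => by
      obtain ⟨k, hk⟩ := hf.2 (g p)
      obtain ⟨l, hl⟩ := hg.2 p
      exact ⟨_, hk.mul hl⟩⟩
  inv_mem' := fun {f} hf => ⟨fun t ht => by
      apply f.injective
      rw [hf.1 t ht]; exact f.apply_symm_apply t, fun p => by
      obtain ⟨k, hk⟩ := hf.2 (f⁻¹ p)
      exact ⟨_, hk.inv⟩⟩

theorem P_ind (H : Subgroup P) (hfg : H.FG) (hne : H ≠ ⊥) :
    ∃ φ : H →* Multiplicative ℤ, Function.Surjective φ := by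
  classical
  obtain ⟨S, hS⟩ := hfg
  set M : Set ℝ := {t | ∃ f ∈ S, (f : P).1 t ≠ t} with hM
  have fixH : ∀ t, t ∉ M → ∀ h ∈ H, (h : P).1 t = t := by
    intro t ht h hh
    rw [← hS] at hh
    induction hh using Subgroup.closure_induction with
    | mem f hf => by_contra hc; exact ht ⟨f, hf, hc⟩
    | one => rfl
    | mul a b _ _ ha hb =>
      show a.1 (b.1 t) = t
      rw [hb, ha]
    | inv a _ ha =>
      apply a.1.injective
      rw [ha]; exact a.1.apply_symm_apply t
  have hMne : M.Nonempty := by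
    by_contra hc
    apply hne
    rw [eq_bot_iff]
    intro h hh
    rw [Subgroup.mem_bot]
    apply Subtype.ext
    ext t
    exact fixH t (fun ht => hc ⟨t, ht⟩) h hh
  have hMb : BddBelow M := ⟨0, fun t ⟨f, _, hf⟩ => by
    by_contra hc
    exact hf (f.2.1 t (le_of_lt (not_le.1 hc)))⟩
  set p := sInf M with hp
  have below : ∀ t, t < p → ∀ h ∈ H, (h : P).1 t = t := fun t ht =>
    fixH t (fun hm => absurd (csInf_le hMb hm) (not_le.2 ht))
  have fixp : ∀ h ∈ H, (h : P).1 p = p := by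
    have key : ∀ h ∈ H, ¬ (h : P).1 p < p := by
      intro h hh hlt
      have := below _ hlt h hh
      exact hlt.ne (h.1.injective this)
    intro h hh
    rcases lt_trichotomy (h.1 p) p with h1 | h1 | h1
    · exact absurd h1 (key h hh)
    · exact h1
    · exfalso
      apply key h⁻¹ (H.inv_mem hh)
      show h.1.symm p < p
      rw [OrderIso.symm_apply_lt]; exact h1
  choose κ hκ using fun h : H => h.1.2.2 p
  let ψ : H →* Multiplicative ℤ := MonoidHom.mk' (fun h => Multiplicative.ofAdd (κ h)) (by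
    intro a b
    have h1 : Germ a.1.1 (b.1.1 p) (κ a) := by rw [fixp b.1 b.2]; exact hκ a
    have h2 := (hκ (a * b)).unique (h1.mul (hκ b))
    show Multiplicative.ofAdd (κ (a * b)) = _
    rw [h2]; rfl)
  have hψ : ψ.range ≠ ⊥ := by
    intro hb
    have h0 : ∀ h : H, κ h = 0 := fun h => by
      have : ψ h ∈ ψ.range := ⟨h, rfl⟩
      rw [hb, Subgroup.mem_bot] at this
      exact this
    have h1 : ∀ᶠ t in 𝓝[>] p, ∀ f ∈ S, (f : P).1 t = t := by
      rw [Finset.eventually_all]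
      intro f hf
      have hfH : f ∈ H := by rw [← hS]; exact Subgroup.subset_closure hf
      have h2 := hκ ⟨f, hfH⟩
      rw [h0] at h2
      filter_upwards [h2] with t ht
      have h3 : f.1 t = f.1 p + (2 : ℝ) ^ (0 : ℤ) * (t - p) := ht
      rw [h3, fixp f hfH]; simp
    obtain ⟨u, hu, hsub⟩ := (mem_nhdsGT_iff_exists_Ioo_subset).1 h1
    obtain ⟨t, htM, htu⟩ := exists_lt_of_csInf_lt hMne (show sInf M < u from hu)
    have h4 : p ≤ t := csInf_le hMb htM
    obtain ⟨f, hf, hft⟩ := htM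
    rcases h4.eq_or_lt with h5 | h5
    · apply hft
      rw [← h5]
      exact fixp f (by rw [← hS]; exact Subgroup.subset_closure hf)
    · exact hft (hsub ⟨h5, htu⟩ f hf)
  obtain ⟨g, hg⟩ := IsCyclic.exists_generator (α := ψ.range)
  have hinf : Infinite ψ.range := by
    obtain ⟨a, ha⟩ := (Subgroup.ne_bot_iff_exists_ne_one).1 hψ
    refine Infinite.of_injective (fun n : ℤ => a ^ n) ?_
    intro m n hmn
    have h1 : (a : Multiplicative ℤ) ^ m = (a : Multiplicative ℤ) ^ n := by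
      simpa using congrArg Subtype.val hmn
    have h2 := congrArg Multiplicative.toAdd h1
    simp only [toAdd_zpow, smul_eq_mul] at h2
    have h3 : Multiplicative.toAdd (a : Multiplicative ℤ) ≠ 0 := fun h0 => ha (Subtype.ext h0)
    exact mul_right_cancel₀ h3 h2
  let e : ψ.range ≃* Multiplicative ℤ := mulEquivOfCyclicCardEq (by
    rw [Nat.card_eq_zero_of_infinite, Nat.card_eq_zero_of_infinite])
  exact ⟨e.toMonoidHom.comp ψ.rangeRestrict, e.surjective.comp ψ.rangeRestrict_surjective⟩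

/-- The piecewise linear generators. -/
noncomputable def T (c : ℝ) : ℝ ≃o ℝ :=
  StrictMono.orderIsoOfSurjective (fun t => max t (min (2 * t - c) (t + 1)))
    (fun s t h => by
      simp only [max_def, min_def]
      split_ifs <;> linarith)
    (fun s => ⟨min s (max ((s + c) / 2) (s - 1)), by
      simp only [max_def, min_def]
      split_ifs <;> linarith⟩)

lemma T_apply (c t : ℝ) : T c t = max t (min (2 * t - c) (t + 1)) := rfl

lemma T_mem (c : ℝ) (hc : 0 ≤ c) : T c ∈ P := by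
  refine ⟨fun t ht => ?_, fun p => ?_⟩
  · rw [T_apply]
    simp only [max_def, min_def]
    split_ifs <;> linarith
  · by_cases h1 : p < c
    · refine ⟨0, ?_⟩
      filter_upwards [Ioo_mem_nhdsGT h1] with t ht
      obtain ⟨h2, h3⟩ := ht
      simp only [T_apply, max_def, min_def, zpow_zero]
      split_ifs <;> linarith
    · by_cases h2 : p < c + 1
      · refine ⟨1, ?_⟩
        filter_upwards [Ioo_mem_nhdsGT h2] with t ht
        obtain ⟨h2, h3⟩ := ht
        simp only [T_apply, max_def, min_def, zpow_one]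
        split_ifs <;> linarith
      · refine ⟨0, ?_⟩
        filter_upwards [self_mem_nhdsWithin] with t ht
        have h3 : p < t := ht
        simp only [T_apply, max_def, min_def, zpow_zero]
        split_ifs <;> linarith

lemma T_rel (c d : ℝ) (h : c + 1 ≤ d) : T c * T d = T (d + 1) * T c := by
  ext t
  show T c (T d t) = T (d + 1) (T c t)
  simp only [T_apply, max_def, min_def]
  split_ifs <;> linarith

theorem not_QF : ¬ QF P := by
  intro h
  let x : ℕ → P := fun n => (⟨T n, T_mem n (Nat.cast_nonneg n)⟩ : P)⁻¹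
  have hx : ∀ i j : ℕ, i < j → (x i)⁻¹ * x j * x i = x (j + 1) := by
    intro i j hij
    apply Subtype.ext
    have h1 := T_rel i j (by exact_mod_cast hij)
    show ((T i)⁻¹)⁻¹ * (T j)⁻¹ * (T i)⁻¹ = (T ((j + 1 : ℕ) : ℝ))⁻¹
    push_cast
    rw [eq_inv_iff_mul_eq_one]
    have h2 : T ((j : ℝ) + 1) = T i * T j * (T i)⁻¹ := by rw [h1]; group
    rw [h2]; group
  have h1 := h (x 0) (x 1) (x 2) (x 3) (x 4)
    ⟨hx 0 1 (by omega), hx 0 2 (by omega), hx 0 3 (by omega), hx 1 2 (by omega), hx 1 3 (by omega)⟩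
  have h2 : T ((1 : ℕ) : ℝ) = T ((2 : ℕ) : ℝ) := congrArg Subtype.val (inv_injective h1)
  have h3 : T ((1 : ℕ) : ℝ) 2 = T ((2 : ℕ) : ℝ) 2 := by rw [h2]
  rw [T_apply, T_apply] at h3
  norm_num at h3

end Pool.Agent.H18.ThF
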