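import Mathlib

set_option autoImplicit false

namespace Pool.Agent.H18.TwoTr

/-! unrestricted wreath product -/

@[ext] structure W (H T : Type) where
  f : T → H
  t : T

section wr
variable {H T : Type} [Group H] [Group T]

instance : Mul (W H T) := ⟨fun p q => ⟨fun s => p.f s * q.f (p.t⁻¹ * s), p.t * q.t⟩⟩
instance : One (W H T) := ⟨⟨fun _ => 1, 1⟩⟩
instance : Inv (W H T) := ⟨fun p => ⟨fun s => (p.f (p.t * s))⁻¹, p.t⁻¹⟩⟩

lemma mul_f (p q : W H T) (s : T) : (p * q).f s = p.f s * q.f (p.t⁻¹ * s) := rfl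
lemma mul_t (p q : W H T) : (p * q).t = p.t * q.t := rfl
lemma one_f (s : T) : (1 : W H T).f s = 1 := rfl
lemma one_t : (1 : W H T).t = 1 := rfl
lemma inv_f (p : W H T) (s : T) : (p⁻¹).f s = (p.f (p.t * s))⁻¹ := rfl
lemma inv_t (p : W H T) : (p⁻¹).t = p.t⁻¹ := rfl

instance : Group (W H T) := Group.ofLeftAxioms
  (by
    intro p q r
    ext1
    · funext s; simp only [mul_f, mul_t, mul_assoc, mul_inv_rev]
    · simp only [mul_t, mul_assoc])
  (by
    intro p
    ext1
    · funext s; simp [mul_f, one_f, one_t]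
    · simp [mul_t, one_t])
  (by
    intro p
    ext1
    · funext s; simp [mul_f, inv_f, inv_t, one_f]
    · simp [mul_t, inv_t, one_t])

def inl : (T → H) →* W H T := MonoidHom.mk' (fun f => ⟨f, 1⟩) (by
  intro f g
  ext1
  · funext s; simp [mul_f]
  · simp [mul_t])

def inr : T →* W H T := MonoidHom.mk' (fun t => ⟨fun _ => 1, t⟩) (by
  intro f g
  ext1
  · funext s; simp [mul_f]
  · simp [mul_t])

def rt : W H T →* T := MonoidHom.mk' (fun p => p.t) (fun _ _ => rfl)

lemma pi_solv [h : Group.IsSolvable H] (ι : Type) : Group.IsSolvable (ι → H) := by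
  obtain ⟨n, hn⟩ := h.solvable
  refine ⟨⟨n, ?_⟩⟩
  rw [eq_bot_iff]
  intro x hx
  rw [Subgroup.mem_bot]
  funext s
  have := map_derivedSeries_le_derivedSeries (Pi.evalMonoidHom (fun _ : ι => H) s) n ⟨x, hx, rfl⟩
  rw [hn, Subgroup.mem_bot] at this
  exact this

lemma W_solv [Group.IsSolvable H] [Group.IsSolvable T] : Group.IsSolvable (W H T) := by
  have := pi_solv (H := H) T
  apply Group.isSolvable_of_ker_le_range (inl : (T → H) →* W H T) rt
  intro p hp
  refine ⟨p.f, ?_⟩
  have : p.t = 1 := hp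
  ext1
  · rfl
  · exact this.symm

@[reducible] def act (Ω : Type) [MulAction H Ω] : MulAction (W H T) (T → Ω) where
  smul p ω := fun s => p.f s • ω (p.t⁻¹ * s)
  one_smul ω := by
    funext s
    show (1 : H) • ω ((1 : T)⁻¹ * s) = ω s
    simp
  mul_smul p q ω := by
    funext s
    show (p.f s * q.f (p.t⁻¹ * s)) • ω ((p.t * q.t)⁻¹ * s)
      = p.f s • q.f (p.t⁻¹ * s) • ω (q.t⁻¹ * (p.t⁻¹ * s))
    rw [mul_smul, mul_inv_rev, mul_assoc]

open Classical in
noncomputable def dl (s : T) : H →* W H T := inl.comp (MonoidHom.mulSingle (fun _ : T => H) s)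

open Classical in
lemma dl_f (s u : T) (a : H) : (dl s a : W H T).f u = if u = s then a else 1 := by
  show (Pi.mulSingle s a : T → H) u = _
  rw [Pi.mulSingle_apply]

lemma dl_t (s : T) (a : H) : (dl s a : W H T).t = 1 := rfl

lemma inr_f (s u : T) : (inr s : W H T).f u = 1 := rfl
lemma inr_t (s : T) : (inr s : W H T).t = s := rfl

lemma dl_conj (s : T) (a : H) : (dl s a : W H T) = inr s * dl 1 a * (inr s)⁻¹ := by
  rw [eq_mul_inv_iff_mul_eq]
  ext1
  · funext u
    simp only [mul_f, dl_f, dl_t, inr_f, inr_t]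
    by_cases h : u = s
    · simp [h]
    · rw [if_neg h, if_neg (fun h' => h (inv_mul_eq_one.mp h').symm)]
  · show (1 : T) * s = s * 1
    simp

lemma dl_comm {s s' : T} (h : s ≠ s') (a b : H) :
    (dl s a : W H T) * dl s' b = dl s' b * dl s a := by
  ext1
  · funext u
    simp only [mul_f, dl_f, dl_t, inv_one, one_mul]
    by_cases h1 : u = s
    · subst h1; simp [h]
    · simp [h1]
  · rfl

lemma rep_comm [Infinite T] {K V : Type} [Field K] [AddCommGroup V] [Module K V]
    [FiniteDimensional K V] (ρ : W H T →* Module.End K V) (a b : H) :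
    ρ (dl 1 a) * ρ (dl 1 b) = ρ (dl 1 b) * ρ (dl 1 a) := by
  classical
  by_contra hne
  have h1 : ∀ s : T, ρ (dl s a) * ρ (dl s b) ≠ ρ (dl s b) * ρ (dl s a) := by
    intro s h
    apply hne
    rw [← map_mul ρ, ← map_mul ρ] at h ⊢
    have e1 : (dl 1 a : W H T) * dl 1 b = (inr s)⁻¹ * (dl s a * dl s b) * inr s := by
      rw [dl_conj s a, dl_conj s b]; group
    have e2 : (dl 1 b : W H T) * dl 1 a = (inr s)⁻¹ * (dl s b * dl s a) * inr s := by
      rw [dl_conj s a, dl_conj s b]; group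
    rw [e1, e2, map_mul ρ, map_mul ρ, h, ← map_mul ρ, ← map_mul ρ]
  apply Module.Finite.not_linearIndependent_of_infinite (R := K) (fun s : T => ρ (dl s a))
  rw [linearIndependent_iff']
  intro S c hc j hj
  have h2 : ∑ s ∈ S, c s • (ρ (dl s a) * ρ (dl j b) - ρ (dl j b) * ρ (dl s a)) = 0 := by
    have : ∑ s ∈ S, c s • (ρ (dl s a) * ρ (dl j b) - ρ (dl j b) * ρ (dl s a))
        = (∑ s ∈ S, c s • ρ (dl s a)) * ρ (dl j b) - ρ (dl j b) * ∑ s ∈ S, c s • ρ (dl s a) := by
      simp only [smul_sub, Finset.sum_sub_distrib, Finset.sum_mul, Finset.mul_sum, smul_mul_assoc,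
        mul_smul_comm]
    rw [this, hc]; simp
  rw [Finset.sum_eq_single j] at h2
  · rcases smul_eq_zero.mp h2 with h | h
    · exact h
    · exact absurd (sub_eq_zero.mp h) (h1 j)
  · intro s _ hs
    rw [← map_mul ρ, ← map_mul ρ, dl_comm hs, sub_self, smul_zero]
  · intro h; exact absurd hj h

abbrev Z : Type := Multiplicative ℤ

lemma dl_commutator (a : H) : ∃ p q : W H Z, dl 1 a * (q * p) = p * q := by
  refine ⟨⟨fun s => if 0 ≤ s.toAdd then a else 1, 1⟩, inr (Multiplicative.ofAdd 1), ?_⟩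
  ext1
  · funext s
    simp only [mul_f, dl_f, dl_t, inv_one, one_mul, inr_f, inr_t]
    have e : ((Multiplicative.ofAdd (1 : ℤ))⁻¹ * s).toAdd = s.toAdd - 1 := by simp; ring
    by_cases h : s = 1
    · subst h; simp
    · have h' : s.toAdd ≠ 0 := fun h0 => h (by simpa using h0)
      rw [if_neg h]
      by_cases h2 : 0 ≤ s.toAdd
      · have h3 : 0 ≤ ((Multiplicative.ofAdd (1 : ℤ))⁻¹ * s).toAdd := by omega
        simp only [h2, h3, if_true, one_mul, mul_one]
      · have h3 : ¬ 0 ≤ ((Multiplicative.ofAdd (1 : ℤ))⁻¹ * s).toAdd := by omega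
        simp only [h2, h3, if_false, one_mul]
  · show (1 : Z) * (Multiplicative.ofAdd 1 * 1) = 1 * Multiplicative.ofAdd 1
    simp

lemma rep_kill {K V : Type} [Field K] [AddCommGroup V] [Module K V]
    [FiniteDimensional K V] (ρ : W (W H Z) Z →* Module.End K V) (a : H) :
    ρ (dl 1 (dl 1 a)) = 1 := by
  obtain ⟨p, q, h⟩ := dl_commutator a
  have h1 := rep_comm ρ p q
  rw [← map_mul, ← map_mul, ← map_mul, ← map_mul, ← h, map_mul] at h1
  have h2 : (dl 1 (dl 1 a) : W (W H Z) Z) = dl 1 (dl 1 a) * dl 1 (q * p) * (dl 1 (q * p))⁻¹ := by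
    group
  rw [h2, map_mul, h1, ← map_mul, mul_inv_cancel, map_one]

end wr

/-! the one-dimensional affine group -/

@[ext] structure Af (K : Type) [Field K] where
  a : Kˣ
  b : K

section af
variable {K : Type} [Field K]

instance : Mul (Af K) := ⟨fun p q => ⟨p.a * q.a, p.a * q.b + p.b⟩⟩
instance : One (Af K) := ⟨⟨1, 0⟩⟩
instance : Inv (Af K) := ⟨fun p => ⟨p.a⁻¹, - ((p.a⁻¹ : Kˣ) * p.b)⟩⟩

instance : Group (Af K) := Group.ofLeftAxioms
  (by
    intro p q r
    ext1
    · exact mul_assoc _ _ _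
    · show ((p.a * q.a : Kˣ) : K) * r.b + (p.a * q.b + p.b) = p.a * (q.a * r.b + q.b) + p.b
      push_cast; ring)
  (by
    intro p
    ext1
    · exact one_mul _
    · show ((1 : Kˣ) : K) * p.b + 0 = p.b
      simp)
  (by
    intro p
    ext1
    · exact inv_mul_cancel _
    · show ((p.a⁻¹ : Kˣ) : K) * p.b + - ((p.a⁻¹ : Kˣ) * p.b) = 0
      ring)

lemma Af_solv : Group.IsSolvable (Af K) := by
  let i : Multiplicative K →* Af K := MonoidHom.mk' (fun b => ⟨1, b.toAdd⟩) (by
    intro x y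
    ext1
    · exact (one_mul _).symm
    · show (x * y).toAdd = ((1 : Kˣ) : K) * y.toAdd + x.toAdd
      simp [add_comm])
  let r : Af K →* Kˣ := MonoidHom.mk' (fun p => p.a) (fun _ _ => rfl)
  apply Group.isSolvable_of_ker_le_range i r
  intro p hp
  have : p.a = 1 := hp
  refine ⟨Multiplicative.ofAdd p.b, ?_⟩
  ext1
  · exact this.symm
  · rfl

instance : MulAction (Af K) K where
  smul p x := p.a * x + p.b
  one_smul x := by
    show ((1 : Kˣ) : K) * x + 0 = x
    simp
  mul_smul p q x := by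
    show ((p.a * q.a : Kˣ) : K) * x + (p.a * q.b + p.b) = p.a * (q.a * x + q.b) + p.b
    push_cast; ring

lemma Af_two {x y x' y' : K} (h : x ≠ y) (h' : x' ≠ y') : ∃ p : Af K, p • x = x' ∧ p • y = y' := by
  have h1 : x - y ≠ 0 := sub_ne_zero.mpr h
  have h2 : x' - y' ≠ 0 := sub_ne_zero.mpr h'
  refine ⟨⟨Units.mk0 ((x' - y') / (x - y)) (div_ne_zero h2 h1), x' - (x' - y') / (x - y) * x⟩, ?_, ?_⟩
  · show (x' - y') / (x - y) * x + (x' - (x' - y') / (x - y) * x) = x'
    ring
  · show (x' - y') / (x - y) * y + (x' - (x' - y') / (x - y) * x) = y'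
    field_simp
    ring

end af

/-! stages -/

structure St where
  G : Type
  X : Type
  [grp : Group G]
  [act : MulAction G X]
  sol : Group.IsSolvable G
  x0 : X

attribute [instance] St.grp St.act

structure Hm (P Q : St) where
  f : P.G →* Q.G
  e : P.X → Q.X
  inj : Function.Injective e
  eqv : ∀ g x, f g • e x = e (g • x)

def Hm.comp {P Q R : St} (u : Hm P Q) (v : Hm Q R) : Hm P R where
  f := v.f.comp u.f
  e := v.e ∘ u.e
  inj := v.inj.comp u.inj
  eqv g x := by
    show v.f (u.f g) • v.e (u.e x) = v.e (u.e (g • x))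
    rw [v.eqv, u.eqv]

abbrev Kf (X : Type) : Type := FractionRing (MvPolynomial X ℚ)

noncomputable def lam {X : Type} (x : X) : Kf X := algebraMap (MvPolynomial X ℚ) _ (MvPolynomial.X x)

lemma lam_inj {X : Type} : Function.Injective (lam : X → Kf X) :=
  (IsFractionRing.injective (MvPolynomial X ℚ) (Kf X)).comp MvPolynomial.X_injective

noncomputable def stA (P : St) : St :=
  @St.mk (W (Af (Kf P.X)) P.G) (P.G → Kf P.X) _ (act _)
    (@W_solv _ _ _ _ Af_solv P.sol) 0

noncomputable def hA (P : St) : Hm P (stA P) where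
  f := inr
  e x := fun s => lam (s⁻¹ • x)
  inj x y h := by
    have := lam_inj (congrFun h 1)
    simpa using this
  eqv g x := by
    funext s
    show (1 : Af (Kf P.X)) • lam ((g⁻¹ * s)⁻¹ • x) = lam (s⁻¹ • g • x)
    rw [one_smul, mul_inv_rev, inv_inv, mul_smul]

lemma hA_two (P : St) {x y x' y' : P.X} (h : x ≠ y) (h' : x' ≠ y') :
    ∃ g : (stA P).G, g • (hA P).e x = (hA P).e x' ∧ g • (hA P).e y = (hA P).e y' := by
  have : ∀ s : P.G, ∃ p : Af (Kf P.X), p • lam (s⁻¹ • x) = lam (s⁻¹ • x') ∧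
      p • lam (s⁻¹ • y) = lam (s⁻¹ • y') := fun s =>
    Af_two (fun e => h (MulAction.injective _ (lam_inj e)))
      (fun e => h' (MulAction.injective _ (lam_inj e)))
  choose p hp using this
  refine ⟨(⟨p, 1⟩ : W (Af (Kf P.X)) P.G), ?_, ?_⟩
  · funext s
    show p s • lam (((1 : P.G)⁻¹ * s)⁻¹ • x) = lam (s⁻¹ • x')
    rw [inv_one, one_mul, (hp s).1]
  · funext s
    show p s • lam (((1 : P.G)⁻¹ * s)⁻¹ • y) = lam (s⁻¹ • y')
    rw [inv_one, one_mul, (hp s).2]

noncomputable def stB (P : St) : St :=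
  @St.mk (W P.G Z) (Z → P.X) _ (act _) (@W_solv _ _ _ _ P.sol inferInstance) (fun _ => P.x0)

open Classical in
noncomputable def hB (P : St) : Hm P (stB P) where
  f := dl 1
  e x := fun s => if s = 1 then x else P.x0
  inj x y h := by simpa using congrFun h 1
  eqv g x := by
    funext s
    show (dl 1 g : W P.G Z).f s • (if (1 : Z)⁻¹ * s = 1 then x else P.x0)
      = if s = 1 then g • x else P.x0
    rw [dl_f, inv_one, one_mul]
    by_cases h : s = 1 <;> simp [h]

noncomputable def nx (P : St) : St := stB (stB (stA P))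

noncomputable def hN (P : St) : Hm P (nx P) := ((hA P).comp (hB _)).comp (hB _)

lemma hN_two (P : St) {x y x' y' : P.X} (h : x ≠ y) (h' : x' ≠ y') :
    ∃ g : (nx P).G, g • (hN P).e x = (hN P).e x' ∧ g • (hN P).e y = (hN P).e y' := by
  obtain ⟨g, h1, h2⟩ := hA_two P h h'
  let u := (hB (stA P)).comp (hB _)
  refine ⟨u.f g, ?_, ?_⟩
  · show u.f g • u.e ((hA P).e x) = u.e ((hA P).e x')
    rw [u.eqv, h1]
  · show u.f g • u.e ((hA P).e y) = u.e ((hA P).e y')
    rw [u.eqv, h2]

lemma hN_kill (P : St) {K V : Type} [Field K] [AddCommGroup V] [Module K V]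
    [FiniteDimensional K V] (ρ : (nx P).G →* Module.End K V) (g : P.G) : ρ ((hN P).f g) = 1 :=
  rep_kill (H := (stA P).G) ρ ((hA P).f g)

def st0 : St := @St.mk Unit ℕ _
  { smul := fun _ x => x, one_smul := fun _ => rfl, mul_smul := fun _ _ _ => rfl } inferInstance 0

noncomputable def P : ℕ → St
  | 0 => st0
  | n + 1 => nx (P n)

noncomputable def hP (n : ℕ) : Hm (P n) (P (n + 1)) := hN (P n)

/-! the limit -/

lemma exists_ext {α : ℕ → Type} (s : ∀ n, α n → α (n + 1)) (d : ∀ n, α n) (k : ℕ) (a : α k) :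
    ∃ x : ∀ n, α n, x k = a ∧ ∀ n, k ≤ n → x (n + 1) = s n (x n) := by
  let x : ∀ n, α n := fun n => Nat.rec (motive := α) (if h : k = 0 then cast (congrArg α h) a else d 0)
    (fun n r => if h : k = n + 1 then cast (congrArg α h) a else s n r) n
  refine ⟨x, ?_, fun n hn => ?_⟩
  · cases k with
    | zero => exact dif_pos rfl
    | succ k => exact dif_pos rfl
  · exact dif_neg (by omega)

lemma ev_eq {α : ℕ → Type} (s : ∀ n, α n → α (n + 1)) {x y : ∀ n, α n} {k : ℕ}
    (hx : ∀ n, k ≤ n → x (n + 1) = s n (x n)) (hy : ∀ n, k ≤ n → y (n + 1) = s n (y n))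
    (h : x k = y k) : ∀ n, k ≤ n → x n = y n := by
  intro n hn
  induction n, hn using Nat.le_induction with
  | base => exact h
  | succ n hn ih => rw [hx n hn, hy n hn, ih]

def XS : Type := {x : ∀ n, (P n).X // ∃ k, ∀ n, k ≤ n → x (n + 1) = (hP n).e (x n)}

instance sXS : Setoid XS where
  r x y := ∃ k, ∀ n, k ≤ n → x.1 n = y.1 n
  iseqv := ⟨fun _ => ⟨0, fun _ _ => rfl⟩, fun ⟨k, h⟩ => ⟨k, fun n hn => (h n hn).symm⟩,
    fun ⟨k, h⟩ ⟨l, h'⟩ => ⟨max k l, fun n hn =>
      (h n (le_of_max_le_left hn)).trans (h' n (le_of_max_le_right hn))⟩⟩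

def XL : Type := Quotient sXS

noncomputable def GS : Subgroup (∀ n, (P n).G) where
  carrier := {g | ∃ k, ∀ n, k ≤ n → g (n + 1) = (hP n).f (g n)}
  mul_mem' := by
    rintro a b ⟨k, h⟩ ⟨l, h'⟩
    refine ⟨max k l, fun n hn => ?_⟩
    rw [Pi.mul_apply, Pi.mul_apply, map_mul, h n (le_of_max_le_left hn),
      h' n (le_of_max_le_right hn)]
  one_mem' := ⟨0, fun n _ => by simp⟩
  inv_mem' := by
    rintro a ⟨k, h⟩
    exact ⟨k, fun n hn => by rw [Pi.inv_apply, Pi.inv_apply, map_inv, h n hn]⟩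

noncomputable def sm (g : GS) (x : XS) : XS := ⟨fun n => g.1 n • x.1 n, by
  obtain ⟨k, h⟩ := g.2
  obtain ⟨l, h'⟩ := x.2
  refine ⟨max k l, fun n hn => ?_⟩
  show g.1 (n + 1) • x.1 (n + 1) = _
  rw [h n (le_of_max_le_left hn), h' n (le_of_max_le_right hn), (hP n).eqv]⟩

noncomputable instance : MulAction GS XL where
  smul g := Quotient.map (sm g) (by
    rintro x y ⟨k, h⟩
    exact ⟨k, fun n hn => by
      show g.1 n • x.1 n = g.1 n • y.1 n
      rw [h n hn]⟩)
  one_smul x := by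
    induction x using Quotient.inductionOn with
    | h x => exact Quotient.sound ⟨0, fun n _ => one_smul _ _⟩
  mul_smul g h x := by
    induction x using Quotient.inductionOn with
    | h x => exact Quotient.sound ⟨0, fun n _ => mul_smul _ _ _⟩

def mkL (x : XS) : XL := Quotient.mk sXS x

lemma smul_mk (g : GS) (x : XS) : g • mkL x = mkL (sm g x) := rfl

noncomputable def GG : Subgroup (Equiv.Perm XL) := (MulAction.toPermHom GS XL).range

noncomputable def pr : GS →* GG := (MulAction.toPermHom GS XL).rangeRestrict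

lemma pr_eq {g h : GS} {k : ℕ} (e : ∀ n, k ≤ n → g.1 n = h.1 n) : pr g = pr h := by
  apply Subtype.ext
  ext1 x
  show g • x = h • x
  induction x using Quotient.inductionOn with
  | h x => exact Quotient.sound ⟨k, fun n hn => by
      show g.1 n • x.1 n = h.1 n • x.1 n
      rw [e n hn]⟩

noncomputable def ex (k : ℕ) (a : (P k).G) : ∀ n, (P n).G :=
  Classical.choose (exists_ext (fun n => (hP n).f) (fun _ => 1) k a)

lemma ex_spec (k : ℕ) (a : (P k).G) :
    ex k a k = a ∧ ∀ n, k ≤ n → ex k a (n + 1) = (hP n).f (ex k a n) :=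
  Classical.choose_spec (exists_ext (fun n => (hP n).f) (fun _ => 1) k a)

noncomputable def th (k : ℕ) : (P k).G →* GG := MonoidHom.mk'
  (fun a => pr ⟨ex k a, k, (ex_spec k a).2⟩) (by
    intro a b
    rw [← map_mul]
    apply pr_eq (k := k)
    apply ev_eq (fun n => (hP n).f) (ex_spec k (a * b)).2
    · intro n hn
      show ex k a (n + 1) * ex k b (n + 1) = (hP n).f (ex k a n * ex k b n)
      rw [map_mul, (ex_spec k a).2 n hn, (ex_spec k b).2 n hn]
    · show ex k (a * b) k = ex k a k * ex k b k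
      rw [(ex_spec k _).1, (ex_spec k _).1, (ex_spec k _).1])

lemma pr_th (g : GS) {k : ℕ} (h : ∀ n, k ≤ n → g.1 (n + 1) = (hP n).f (g.1 n)) :
    pr g = th k (g.1 k) := by
  apply pr_eq (k := k)
  exact ev_eq (fun n => (hP n).f) h (ex_spec k _).2 (ex_spec k _).1.symm

lemma mem_th (g : GG) : ∃ k, ∀ l, k ≤ l → g ∈ (th l).range := by
  obtain ⟨g, rfl⟩ : ∃ g' : GS, pr g' = g := MonoidHom.rangeRestrict_surjective _ g
  obtain ⟨k, h⟩ := g.2
  exact ⟨k, fun l hl => ⟨g.1 l, (pr_th g (fun n hn => h n (hl.trans hn))).symm⟩⟩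

lemma loc_solv (S : Finset GG) : Group.IsSolvable (Subgroup.closure (↑S : Set GG)) := by
  choose k hk using mem_th
  let l := S.sup k
  have h1 : Subgroup.closure (↑S : Set GG) ≤ (th l).range := by
    rw [Subgroup.closure_le]
    intro g hg
    exact hk g l (Finset.le_sup hg)
  have := (P l).sol
  have : Group.IsSolvable (th l).range :=
    Group.isSolvable_of_surjective (MonoidHom.rangeRestrict_surjective (th l))
  exact Group.isSolvable_of_isSolvable_injective (Subgroup.inclusion_injective h1)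

lemma rep_triv {K V : Type} [Field K] [AddCommGroup V] [Module K V]
    [FiniteDimensional K V] (ρ : GG →* Module.End K V) (g : GG) : ρ g = 1 := by
  obtain ⟨g, rfl⟩ : ∃ g' : GS, pr g' = g := MonoidHom.rangeRestrict_surjective _ g
  obtain ⟨k, h⟩ := g.2
  rw [pr_th g (k := k + 1) (fun n hn => h n (by omega)), h k le_rfl]
  exact hN_kill (P k) (ρ.comp (th (k + 1))) (g.1 k)

lemma two_tr {a b c d : XL} (h : a ≠ b) (h' : c ≠ d) : ∃ g : GG, g • a = c ∧ g • b = d := by
  induction a using Quotient.inductionOn with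
  | h a =>
  induction b using Quotient.inductionOn with
  | h b =>
  induction c using Quotient.inductionOn with
  | h c =>
  induction d using Quotient.inductionOn with
  | h d =>
  obtain ⟨ka, ha⟩ := a.2
  obtain ⟨kb, hb⟩ := b.2
  obtain ⟨kc, hc⟩ := c.2
  obtain ⟨kd, hd⟩ := d.2
  obtain ⟨k, h1, h2, h3, h4⟩ : ∃ k, ka ≤ k ∧ kb ≤ k ∧ kc ≤ k ∧ kd ≤ k :=
    ⟨ka + kb + kc + kd, by omega, by omega, by omega, by omega⟩
  have hab : a.1 k ≠ b.1 k := fun e => h (Quotient.sound ⟨k, ev_eq (fun n => (hP n).e)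
    (fun n hn => ha n (h1.trans hn)) (fun n hn => hb n (h2.trans hn)) e⟩)
  have hcd : c.1 k ≠ d.1 k := fun e => h' (Quotient.sound ⟨k, ev_eq (fun n => (hP n).e)
    (fun n hn => hc n (h3.trans hn)) (fun n hn => hd n (h4.trans hn)) e⟩)
  obtain ⟨g, hg1, hg2⟩ := hN_two (P k) hab hcd
  have key : ∀ x y : XS, (∀ n, k ≤ n → x.1 (n + 1) = (hP n).e (x.1 n)) →
      (∀ n, k ≤ n → y.1 (n + 1) = (hP n).e (y.1 n)) →
      g • (hN (P k)).e (x.1 k) = (hN (P k)).e (y.1 k) →
      th (k + 1) g • mkL x = mkL y := by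
    intro x y hx hy hg
    show (⟨ex (k + 1) g, k + 1, (ex_spec (k + 1) g).2⟩ : GS) • mkL x = _
    rw [smul_mk]
    apply Quotient.sound
    refine ⟨k + 1, ev_eq (fun n => (hP n).e) (fun n hn => ?_) (fun n hn => hy n (by omega)) ?_⟩
    · show ex (k + 1) g (n + 1) • x.1 (n + 1) = (hP n).e (ex (k + 1) g n • x.1 n)
      rw [(ex_spec (k + 1) g).2 n hn, hx n (by omega), (hP n).eqv]
    · show ex (k + 1) g (k + 1) • x.1 (k + 1) = y.1 (k + 1)
      rw [(ex_spec (k + 1) g).1, hx k le_rfl, hy k le_rfl]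
      exact hg
  exact ⟨th (k + 1) g,
    key a c (fun n hn => ha n (h1.trans hn)) (fun n hn => hc n (h3.trans hn)) hg1,
    key b d (fun n hn => hb n (h2.trans hn)) (fun n hn => hd n (h4.trans hn)) hg2⟩

lemma XL_inf : ∃ j : ℕ → XL, Function.Injective j := by
  choose x hx using fun a : ℕ => exists_ext (α := fun n => (P n).X) (fun n => (hP n).e)
    (fun n => (P n).x0) 0 a
  refine ⟨fun a => Quotient.mk sXS ⟨x a, 0, (hx a).2⟩, fun a b h => ?_⟩
  obtain ⟨k, hk⟩ := Quotient.exact h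
  have : ∀ n, x a n = x b n → a = b := by
    intro n
    induction n with
    | zero => intro e; rw [(hx a).1, (hx b).1] at e; exact e
    | succ n ih =>
      intro e
      rw [(hx a).2 n (Nat.zero_le n), (hx b).2 n (Nat.zero_le n)] at e
      exact ih ((hP n).inj e)
  exact this k (hk k le_rfl)

lemma GG_inf : Infinite GG := by
  obtain ⟨j, hj⟩ := XL_inf
  have : ∀ n : ℕ, ∃ g : GG, g • j 0 = j n := by
    intro n
    obtain ⟨g, hg, _⟩ := two_tr (a := j 0) (b := j 1) (c := j n) (d := j (n + 1))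
      (fun e => by simpa using hj e) (fun e => by simpa using hj e)
    exact ⟨g, hg⟩
  choose g hg using this
  apply Infinite.of_injective g
  intro m n e
  apply hj
  rw [← hg m, ← hg n, e]

end Pool.Agent.H18.TwoTr
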