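import Mathlib

set_option autoImplicit false

open Subgroup

namespace Pool.Agent.H18.Vrc

variable {G : Type*} [Group G]

def IsVR (H : Subgroup G) : Prop :=
  ∃ (K : Subgroup G) (hK : H ≤ K), K.FiniteIndex ∧
    ∃ r : K →* H, ∀ h : H, r (Subgroup.inclusion hK h) = h

def VRC (G : Type*) [Group G] : Prop := ∀ g : G, IsVR (zpowers g)

def Adv (K : Subgroup G) (Γ : G → ℤ) : Prop := ∀ x ∈ K, ∀ y ∈ K, Γ (x * y) = Γ x + Γ y

def Adv.hom {K : Subgroup G} {Γ : G → ℤ} (h : Adv K Γ) : K →* Multiplicative ℤ :=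
  MonoidHom.mk' (fun x => Multiplicative.ofAdd (Γ x)) fun x y => by
    rw [← ofAdd_add, ← h x x.2 y y.2]; rfl

lemma Adv.zpow {K : Subgroup G} {Γ : G → ℤ} (h : Adv K Γ) {x : G} (hx : x ∈ K) (n : ℤ) :
    Γ (x ^ n) = n * Γ x := by
  have := map_zpow h.hom ⟨x, hx⟩ n
  have h2 := congrArg Multiplicative.toAdd this
  simpa [Adv.hom] using h2

lemma Adv.one {K : Subgroup G} {Γ : G → ℤ} (h : Adv K Γ) : Γ 1 = 0 := by
  simpa using h.zpow K.one_mem 0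

lemma Adv.inv {K : Subgroup G} {Γ : G → ℤ} (h : Adv K Γ) {x : G} (hx : x ∈ K) :
    Γ x⁻¹ = -Γ x := by simpa using h.zpow hx (-1)

lemma Adv.pow {K : Subgroup G} {Γ : G → ℤ} (h : Adv K Γ) {x : G} (hx : x ∈ K) (n : ℕ) :
    Γ (x ^ n) = n * Γ x := by simpa using h.zpow hx n

lemma Adv.conj {K : Subgroup G} {Γ : G → ℤ} (h : Adv K Γ) {x y : G} (hx : x ∈ K) (hy : y ∈ K) :
    Γ (y⁻¹ * x * y) = Γ x := by
  rw [h _ (K.mul_mem (K.inv_mem hy) hx) _ hy, h _ (K.inv_mem hy) _ hx, h.inv hy]; ring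

lemma Adv.mono {K L : Subgroup G} {Γ : G → ℤ} (h : Adv K Γ) (hL : L ≤ K) : Adv L Γ :=
  fun x hx y hy => h x (hL hx) y (hL hy)

def modSub {K : Subgroup G} {Γ : G → ℤ} (h : Adv K Γ) (d : ℤ) : Subgroup G where
  carrier := {x | x ∈ K ∧ d ∣ Γ x}
  one_mem' := ⟨K.one_mem, by rw [h.one]; exact dvd_zero d⟩
  mul_mem' := fun {a b} ha hb => ⟨K.mul_mem ha.1 hb.1, by
    rw [h a ha.1 b hb.1]; exact dvd_add ha.2 hb.2⟩
  inv_mem' := fun {a} ha => ⟨K.inv_mem ha.1, by rw [h.inv ha.1]; exact ha.2.neg_right⟩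

lemma mem_modSub {K : Subgroup G} {Γ : G → ℤ} {h : Adv K Γ} {d : ℤ} {x : G} :
    x ∈ modSub h d ↔ x ∈ K ∧ d ∣ Γ x := Iff.rfl

lemma fi_of_hom {K L : Subgroup G} [K.FiniteIndex] {F : Type*} [Group F] [Finite F]
    (f : K →* F) (hL : ∀ x : K, f x = 1 → (x : G) ∈ L) : L.FiniteIndex := by
  have h1 : (f.ker.map K.subtype).FiniteIndex := by
    constructor
    rw [Subgroup.index_map_subtype]
    exact mul_ne_zero FiniteIndex.index_ne_zero FiniteIndex.index_ne_zero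
  refine finiteIndex_of_le (H := f.ker.map K.subtype) ?_
  rintro _ ⟨x, hx, rfl⟩
  exact hL x hx

lemma modSub_fi {K : Subgroup G} [K.FiniteIndex] {Γ : G → ℤ} (h : Adv K Γ) {d : ℤ} (hd : d ≠ 0) :
    (modSub h d).FiniteIndex := by
  have : NeZero d.natAbs := ⟨Int.natAbs_ne_zero.2 hd⟩
  refine fi_of_hom (K := K)
    ((AddMonoidHom.toMultiplicative (Int.castAddHom (ZMod d.natAbs))).comp h.hom) fun x hx => ?_
  refine ⟨x.2, ?_⟩
  have : ((Γ x : ℤ) : ZMod d.natAbs) = 0 := congrArg Multiplicative.toAdd hx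
  rw [ZMod.intCast_zmod_eq_zero_iff_dvd] at this
  exact Int.natAbs_dvd.1 this

lemma vr_of_adv {K : Subgroup G} [K.FiniteIndex] {Γ : G → ℤ} (h : Adv K Γ) {g : G} (hg : g ∈ K)
    (hd : Γ g ≠ 0) : IsVR (zpowers g) := by
  have hle : zpowers g ≤ modSub h (Γ g) := (zpowers_le).2 ⟨hg, dvd_rfl⟩
  refine ⟨modSub h (Γ g), hle, modSub_fi h hd, MonoidHom.mk'
    (fun x => ⟨g ^ (Γ x / Γ g), zpow_mem_zpowers _ _⟩) fun x y => Subtype.ext ?_, ?_⟩
  · show g ^ (Γ (x * y : G) / Γ g) = g ^ (Γ x / Γ g) * g ^ (Γ y / Γ g)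
    rw [h _ x.2.1 _ y.2.1, Int.add_ediv_of_dvd_left x.2.2, zpow_add]
  · rintro ⟨_, n, rfl⟩
    refine Subtype.ext ?_
    show g ^ (Γ (g ^ n) / Γ g) = g ^ n
    rw [h.zpow hg, Int.mul_ediv_cancel _ hd]

lemma vr_of_normal {M H : Subgroup G} [M.Normal] [M.FiniteIndex] (h : ∀ x ∈ H, x ∈ M → x = 1) :
    IsVR H := by
  let f : H →* G ⧸ M := (QuotientGroup.mk' M).comp H.subtype
  have hf : Function.Injective f := (injective_iff_map_eq_one f).2 fun x hx =>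
    Subtype.ext (h x x.2 ((QuotientGroup.eq_one_iff _).1 hx))
  have hle : H ≤ f.range.comap (QuotientGroup.mk' M) := fun x hx => ⟨⟨x, hx⟩, rfl⟩
  refine ⟨f.range.comap (QuotientGroup.mk' M), hle, finiteIndex_of_le (H := M) fun x hx => ?_,
    (MonoidHom.ofInjective hf).symm.toMonoidHom.comp
      (((QuotientGroup.mk' M).comp (Subgroup.subtype _)).codRestrict f.range fun x => x.2), fun x => ?_⟩
  · exact ⟨1, by simpa [f] using ((QuotientGroup.eq_one_iff x).2 hx).symm⟩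
  · apply (MonoidHom.ofInjective hf).injective
    simp only [MulEquiv.toMonoidHom_eq_coe, MonoidHom.comp_apply, MonoidHom.coe_coe,
      MulEquiv.apply_symm_apply]
    rfl

lemma VRC.adv (hG : VRC G) {g : G} (hg : ¬ IsOfFinOrder g) :
    ∃ K : Subgroup G, K.FiniteIndex ∧ g ∈ K ∧ ∃ Γ, Adv K Γ ∧ Γ g = 1 := by
  classical
  obtain ⟨K, hK, hfi, r, hr⟩ := hG g
  have hinj := injective_zpow_iff_not_isOfFinOrder.2 hg
  choose e he using fun x : K => mem_zpowers_iff.1 (r x).2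
  refine ⟨K, hfi, hK (mem_zpowers g), fun x => if hx : x ∈ K then e ⟨x, hx⟩ else 0,
    fun x hx y hy => ?_, ?_⟩
  · simp only [dif_pos hx, dif_pos hy, dif_pos (K.mul_mem hx hy)]
    apply hinj
    simp only [zpow_add, he]
    rw [← Subgroup.coe_mul, ← map_mul]; rfl
  · simp only [dif_pos (hK (mem_zpowers g))]
    apply hinj
    simp only [he, zpow_one]
    exact congrArg Subtype.val (hr ⟨g, mem_zpowers g⟩)

/-- finite index normal subgroups -/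
def FN (N : Subgroup G) : Prop := N.Normal ∧ N.FiniteIndex

lemma FN.inf {M N : Subgroup G} (hM : FN M) (hN : FN N) : FN (M ⊓ N) := by
  obtain ⟨_, _⟩ := hM; obtain ⟨_, _⟩ := hN
  exact ⟨inferInstance, inferInstance⟩

lemma FN.core (K : Subgroup G) [K.FiniteIndex] : FN K.normalCore := ⟨inferInstance, inferInstance⟩

lemma FN.top : FN (⊤ : Subgroup G) := ⟨inferInstance, inferInstance⟩

lemma FN.fin {ι : Type*} [Finite ι] (p : ι → Subgroup G → Prop)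
    (hm : ∀ i M N, N ≤ M → p i M → p i N) (h : ∀ i, ∃ N, FN N ∧ p i N) :
    ∃ N, FN N ∧ ∀ i, p i N := by
  choose f hf hp using h
  exact ⟨⨅ i, f i, ⟨normal_iInf_normal fun i => (hf i).1, finiteIndex_iInf fun i => (hf i).2⟩,
    fun i => hm i _ _ (iInf_le f i) (hp i)⟩

lemma VRC.rf (hG : VRC G) {y : G} (hy : y ≠ 1) : ∃ N, FN N ∧ y ∉ N := by
  by_cases hf : IsOfFinOrder y
  · obtain ⟨K, hK, hfi, r, hr⟩ := hG y
    have : Finite (zpowers y) := finite_zpowers.2 hf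
    have : (r.ker.map K.subtype).FiniteIndex := fi_of_hom r fun x hx => ⟨x, hx, rfl⟩
    refine ⟨_, FN.core (r.ker.map K.subtype), fun h => hy ?_⟩
    obtain ⟨x, hx, hxy⟩ := normalCore_le _ h
    have h1 := hr ⟨y, mem_zpowers y⟩
    have : Subgroup.inclusion hK ⟨y, mem_zpowers y⟩ = x := Subtype.ext hxy.symm
    rw [this, show r x = 1 from hx] at h1
    exact (congrArg Subtype.val h1).symm
  · obtain ⟨K, hfi, hy, Γ, hΓ, h1⟩ := hG.adv hf
    have := modSub_fi hΓ (d := 2) (by norm_num)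
    refine ⟨_, FN.core (modSub hΓ 2), fun h => ?_⟩
    have := (normalCore_le _ h).2
    rw [h1] at this
    norm_num at this

lemma VRC.sep (hG : VRC G) (ρ : G) {x : G} (hx : x ∉ zpowers ρ) :
    ∃ N, FN N ∧ ∀ z ∈ zpowers ρ, z⁻¹ * x ∉ N := by
  obtain ⟨K, hK, hfi, r, hr⟩ := hG ρ
  by_cases hxK : x ∈ K
  swap
  · refine ⟨_, FN.core K, fun z hz h => hxK ?_⟩
    simpa using K.mul_mem (hK hz) (normalCore_le _ h)
  obtain ⟨M, ⟨hM1, hM2⟩, hM⟩ := hG.rf (y := x⁻¹ * r ⟨x, hxK⟩) fun h =>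
    hx (inv_mul_eq_one.1 h ▸ (r ⟨x, hxK⟩).2)
  let f : K →* G ⧸ M := (QuotientGroup.mk' M).comp ((zpowers ρ).subtype.comp r)
  have : (f.ker.map K.subtype).FiniteIndex := fi_of_hom f fun x hx => ⟨x, hx, rfl⟩
  refine ⟨_, (FN.core (f.ker.map K.subtype)).inf ⟨hM1, hM2⟩, fun z hz h => hM ?_⟩
  obtain ⟨n, hn, hnx⟩ := normalCore_le _ h.1
  have h1 : (⟨x, hxK⟩ : K) = Subgroup.inclusion hK ⟨z, hz⟩ * n := Subtype.ext (by
    have : (n : G) = z⁻¹ * x := hnx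
    simp [this])
  have h2 : ((r n : zpowers ρ) : G) ∈ M := (QuotientGroup.eq_one_iff _).1 hn
  rw [h1, map_mul, hr]
  have := M.mul_mem (M.inv_mem h.2) h2
  simpa [mul_assoc] using this

variable {R : Type*} [Group R]

lemma VRC.sepR (hG : VRC G) (φ : R →* G) (ρ : R) [(zpowers ρ).FiniteIndex] {x : G}
    (hx : x ∉ φ.range) : ∃ N, FN N ∧ ∀ r, (φ r)⁻¹ * x ∉ N := by
  obtain ⟨N, hN, h⟩ := FN.fin (G := G) (ι := R ⧸ zpowers ρ)
    (fun q N => ∀ z ∈ zpowers (φ ρ), z⁻¹ * ((φ q.out)⁻¹ * x) ∉ N)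
    (fun i M N hle h z hz h' => h z hz (hle h')) fun q => hG.sep (φ ρ) (by
      rintro ⟨n, hn⟩
      refine hx ⟨q.out * ρ ^ n, ?_⟩
      simp only at hn
      rw [map_mul, map_zpow, hn]; simp)
  refine ⟨N, hN, fun r hr => ?_⟩
  obtain ⟨⟨_, n, rfl⟩, hz⟩ := QuotientGroup.mk_out_eq_mul (zpowers ρ) r
  refine h (r : R ⧸ zpowers ρ) ((φ ρ) ^ (-n)) (zpow_mem_zpowers _ _) ?_
  rw [hz]; simpa [mul_assoc] using hr

lemma VRC.shrink (hG : VRC G) (φ : R →* G) (hφ : Function.Injective φ) (ρ : R)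
    [(zpowers ρ).FiniteIndex] (hρ : ¬ IsOfFinOrder ρ) {N0 : Subgroup G} (h0 : FN N0) :
    ∃ e : ℕ, 0 < e ∧ ∀ m : ℕ, 0 < m → ∃ N, FN N ∧ N ≤ N0 ∧ N.comap φ = zpowers (ρ ^ (e * m)) ∧
      ∃ Γ, Adv N Γ ∧ Γ (φ (ρ ^ (e * m))) ≠ 0 := by
  obtain ⟨K, hfi, hρK, Γ, hΓ, h1⟩ := hG.adv (g := φ ρ) (by rwa [hφ.isOfFinOrder_iff])
  obtain ⟨N1, hN1, h⟩ := FN.fin (G := G) (ι := R ⧸ zpowers ρ)
    (fun q N => q.out ∉ zpowers ρ → ∀ z ∈ zpowers (φ ρ), z⁻¹ * (φ q.out) ∉ N)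
    (fun i M N hle h hq z hz h' => h hq z hz (hle h')) fun q => by
      by_cases hq : q.out ∈ zpowers ρ
      · exact ⟨⊤, FN.top, fun h => absurd hq h⟩
      · obtain ⟨N, hN, h⟩ := hG.sep (φ ρ) (x := φ q.out) (by
          rintro ⟨n, hn⟩
          exact hq ⟨n, hφ (by simpa using hn)⟩)
        exact ⟨N, hN, fun _ => h⟩
  have hN2 := (hN1.inf h0).inf (FN.core K)
  set N2 := N1 ⊓ N0 ⊓ K.normalCore with hN2d
  have hK2 : N2 ≤ K := inf_le_right.trans (normalCore_le K)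
  have hle : N2.comap φ ≤ zpowers ρ := by
    intro r hr
    by_contra hc
    obtain ⟨⟨_, n, rfl⟩, hz⟩ := QuotientGroup.mk_out_eq_mul (zpowers ρ) r
    refine h (r : R ⧸ zpowers ρ) (fun h' => hc ?_) ((φ ρ) ^ n) (zpow_mem_zpowers _ _) ?_
    · rw [hz] at h'
      simpa using (zpowers ρ).mul_mem h' ((zpowers ρ).inv_mem (zpow_mem_zpowers ρ n))
    · rw [hz]
      simpa [mul_assoc] using hN1.1.conj_mem _ hr.1.1 ((φ ρ) ^ n)⁻¹
  obtain ⟨e, he⟩ := (Subgroup.le_zpowers_iff _ _).1 hle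
  have he0 : 0 < e := by
    refine Nat.pos_of_ne_zero fun h0 => hρ ?_
    obtain ⟨n, hn, -, hn'⟩ := exists_pow_mem_of_index_ne_zero hN2.2.index_ne_zero (φ ρ)
    have : ρ ^ n ∈ N2.comap φ := by simpa using hn'
    rw [he, h0, pow_zero, zpowers_one_eq_bot, mem_bot] at this
    exact isOfFinOrder_iff_pow_eq_one.2 ⟨n, hn, this⟩
  have hρ1 : φ (ρ ^ e) ∈ N2 := by
    have : ρ ^ e ∈ N2.comap φ := he ▸ mem_zpowers _
    exact this
  have hc : ∀ c, c * φ (ρ ^ e) * c⁻¹ ∈ K := fun c => hK2 (hN2.1.conj_mem _ hρ1 c)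
  obtain ⟨d, hd⟩ := Int.subgroup_cyclic
    (AddSubgroup.closure (Set.range fun c => Γ (c * φ (ρ ^ e) * c⁻¹)))
  have hdv : ∀ c, d ∣ Γ (c * φ (ρ ^ e) * c⁻¹) := fun c => by
    have : Γ (c * φ (ρ ^ e) * c⁻¹) ∈ AddSubgroup.closure {d} :=
      hd ▸ AddSubgroup.subset_closure ⟨c, rfl⟩
    obtain ⟨n, hn⟩ := AddSubgroup.mem_closure_singleton.1 this
    exact ⟨n, by rw [← hn]; simp [mul_comm]⟩
  have hΓe : Γ (φ (ρ ^ e)) = e := by rw [map_pow, hΓ.pow hρK, h1, mul_one]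
  have hd0 : d ≠ 0 := by
    rintro rfl
    have := hdv 1
    simp only [one_mul, inv_one, mul_one, hΓe, zero_dvd_iff] at this
    omega
  refine ⟨e, he0, fun m hm => ?_⟩
  have := modSub_fi hΓ (d := d * m) (mul_ne_zero hd0 (by omega))
  have hz : ∀ (j : ℤ) c, Γ (c * φ ((ρ ^ e) ^ j) * c⁻¹) = j * Γ (c * φ (ρ ^ e) * c⁻¹) := fun j c => by
    rw [← hΓ.zpow (hc c), map_zpow, conj_zpow]
  refine ⟨_, hN2.inf (FN.core (modSub hΓ (d * m))), inf_le_left.trans (inf_le_left.trans inf_le_right),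
    le_antisymm (fun r hr => ?_) ((zpowers_le).2 ⟨?_, fun c => ⟨?_, ?_⟩⟩), Γ,
    hΓ.mono (inf_le_left.trans hK2), ?_⟩
  · have h2 : r ∈ N2.comap φ := hr.1
    rw [he] at h2
    obtain ⟨j, rfl⟩ := h2
    have h3 : ∀ a ∈ AddSubgroup.closure (Set.range fun c => Γ (c * φ (ρ ^ e) * c⁻¹)),
        d * m ∣ j * a := by
      intro a ha
      induction ha using AddSubgroup.closure_induction with
      | mem a ha => obtain ⟨c, rfl⟩ := ha; exact hz j c ▸ (hr.2 c).2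
      | zero => simp
      | add a b _ _ ha hb => rw [mul_add]; exact dvd_add ha hb
      | neg a _ ha => rw [mul_neg]; exact ha.neg_right
    have h4 := h3 d (hd ▸ AddSubgroup.subset_closure rfl)
    rw [mul_comm j d] at h4
    obtain ⟨t, rfl⟩ := Int.dvd_of_mul_dvd_mul_left hd0 h4
    exact ⟨t, by simp only [pow_mul, zpow_mul, zpow_natCast]⟩
  · rw [pow_mul, map_pow]; exact N2.pow_mem hρ1 m
  · rw [pow_mul, map_pow, ← conj_pow]; exact K.pow_mem (hc c) m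
  · rw [pow_mul, ← zpow_natCast, hz, mul_comm]
    exact mul_dvd_mul_left _ (hdv c)
  · rw [map_pow, hΓ.pow hρK, h1]
    have := Nat.mul_pos he0 hm
    omega

lemma VRC.kill (hG : VRC G) (φ : R →* G) (hφ : Function.Injective φ) [Finite R]
    {N0 : Subgroup G} (h0 : FN N0) : ∃ N, FN N ∧ N ≤ N0 ∧ N.comap φ = zpowers 1 := by
  obtain ⟨N, hN, h⟩ := FN.fin (G := G) (ι := R) (fun r N => r ≠ 1 → φ r ∉ N)
    (fun i M N hle h hq h' => h hq (hle h')) fun r => by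
      by_cases hr : r = 1
      · exact ⟨⊤, FN.top, fun h => absurd hr h⟩
      · obtain ⟨N, hN, h⟩ := hG.rf (y := φ r) fun h => hr (hφ (by simpa using h))
        exact ⟨N, hN, fun _ => h⟩
  refine ⟨N ⊓ N0, hN.inf h0, inf_le_right, ?_⟩
  rw [zpowers_one_eq_bot, eq_bot_iff]
  intro r hr
  by_contra hc
  exact h r hc hr.1

lemma compat {P Q : Type*} [Group P] [Group Q] (hP : VRC P) (hQ : VRC Q) (φ : R →* P) (ψ : R →* Q)
    (hφ : Function.Injective φ) (hψ : Function.Injective ψ) (ρ0 : R) [(zpowers ρ0).FiniteIndex]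
    {M0 : Subgroup P} (hM : FN M0) {N0 : Subgroup Q} (hN : FN N0) :
    ∃ (M : Subgroup P) (N : Subgroup Q) (ρ : R), FN M ∧ FN N ∧ M ≤ M0 ∧ N ≤ N0 ∧
      M.comap φ = zpowers ρ ∧ N.comap ψ = zpowers ρ ∧ (ρ = 1 ∨ ∃ Γ, Adv N Γ ∧ Γ (ψ ρ) ≠ 0) := by
  by_cases hρ : IsOfFinOrder ρ0
  · have : Finite (zpowers ρ0) := finite_zpowers.2 hρ
    have : Finite R := Finite.of_equiv _ (groupEquivQuotientProdSubgroup (s := zpowers ρ0)).symm
    obtain ⟨M, h1, h2, h3⟩ := hP.kill φ hφ hM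
    obtain ⟨N, h4, h5, h6⟩ := hQ.kill ψ hψ hN
    exact ⟨M, N, 1, h1, h4, h2, h5, h3, h6, Or.inl rfl⟩
  · obtain ⟨e, he, h1⟩ := hP.shrink φ hφ ρ0 hρ hM
    obtain ⟨f, hf, h2⟩ := hQ.shrink ψ hψ ρ0 hρ hN
    obtain ⟨M, h3, h4, h5, -⟩ := h1 f hf
    obtain ⟨N, h6, h7, h8, h9⟩ := h2 e he
    rw [mul_comm f e] at h8 h9
    exact ⟨M, N, _, h3, h6, h4, h7, h5, h8, Or.inr h9⟩

end Pool.Agent.H18.Vrc
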