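import Pool.Agent.H18.Vrc1

set_option autoImplicit false

open Subgroup

namespace Pool.Agent.H18.Vrc

@[ext] structure Wr (Ω : Type*) where
  a : Equiv.Perm Ω
  c : Ω → ℤ

namespace Wr
variable {Ω : Type*}

instance : One (Wr Ω) := ⟨⟨1, 0⟩⟩
instance : Mul (Wr Ω) := ⟨fun x y => ⟨x.a * y.a, fun ω => x.c (y.a ω) + y.c ω⟩⟩
instance : Inv (Wr Ω) := ⟨fun x => ⟨x.a⁻¹, fun ω => -x.c (x.a⁻¹ ω)⟩⟩

@[simp] lemma one_a : (1 : Wr Ω).a = 1 := rfl
@[simp] lemma one_c (ω : Ω) : (1 : Wr Ω).c ω = 0 := rfl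
@[simp] lemma mul_a (x y : Wr Ω) : (x * y).a = x.a * y.a := rfl
@[simp] lemma mul_c (x y : Wr Ω) (ω : Ω) : (x * y).c ω = x.c (y.a ω) + y.c ω := rfl
@[simp] lemma inv_a (x : Wr Ω) : (x⁻¹).a = x.a⁻¹ := rfl
@[simp] lemma inv_c (x : Wr Ω) (ω : Ω) : (x⁻¹).c ω = -x.c (x.a⁻¹ ω) := rfl

instance : Group (Wr Ω) :=
  Group.ofLeftAxioms (fun x y z => Wr.ext (mul_assoc _ _ _) (funext fun ω => by simp [add_assoc]))
    (fun x => Wr.ext (one_mul _) (funext fun ω => by simp))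
    (fun x => Wr.ext (inv_mul_cancel _) (funext fun ω => by simp))

def aHom : Wr Ω →* Equiv.Perm Ω := MonoidHom.mk' (fun x => x.a) fun _ _ => rfl

end Wr

variable {G : Type*} [Group G]

lemma upgrade {Ω : Type*} [Finite Ω] (Φ : G →* Wr Ω) (g : G) (n : ℕ) (ω0 : Ω)
    (h1 : (Φ (g ^ n)).a ω0 = ω0) (h2 : (Φ (g ^ n)).c ω0 ≠ 0) : IsVR (zpowers g) := by
  classical
  have := Fintype.ofFinite Ω
  let O : Finset Ω := Finset.univ.filter fun ω => ∃ j : ℤ, (Φ (g ^ j)).a ω0 = ω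
  let K : Subgroup G :=
    { carrier := {h | ∀ ω, ω ∈ O ↔ (Φ h).a ω ∈ O}
      one_mem' := by intro ω; simp
      mul_mem' := fun {x y} hx hy ω => by rw [hy ω, hx]; simp
      inv_mem' := fun {x} hx ω => by rw [hx ((Φ x⁻¹).a ω)]; simp }
  have : K.FiniteIndex := finiteIndex_of_le (H := (Wr.aHom.comp Φ).ker) fun x hx ω => by
    have : (Φ x).a = 1 := hx
    rw [this]; simp
  have hA : Adv K fun h => ∑ ω ∈ O, (Φ h).c ω := fun x _ y hy => by
    simp only [map_mul, Wr.mul_c, Finset.sum_add_distrib]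
    congr 1
    exact Finset.sum_equiv (Φ y).a hy fun _ _ => rfl
  have hg : g ∈ K := fun ω => by
    simp only [O, Finset.mem_filter, Finset.mem_univ, true_and]
    constructor
    · rintro ⟨j, rfl⟩
      exact ⟨1 + j, by simp [zpow_add]⟩
    · rintro ⟨j, hj⟩
      refine ⟨-1 + j, ?_⟩
      rw [zpow_add, map_mul, Wr.mul_a, Equiv.Perm.mul_apply, hj]; simp
  refine vr_of_adv hA hg fun h0 => ?_
  have h3 := hA.pow hg n
  simp only [h0, mul_zero] at h3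
  rw [Finset.sum_congr rfl (g := fun _ => (Φ (g ^ n)).c ω0)] at h3
  · rw [Finset.sum_const, nsmul_eq_mul, mul_eq_zero] at h3
    rcases h3 with h3 | h3
    · have : ω0 ∈ O := Finset.mem_filter.2 ⟨Finset.mem_univ _, 0, by simp⟩
      have := Finset.card_pos.2 ⟨_, this⟩
      omega
    · exact h2 h3
  · intro ω hω
    obtain ⟨j, rfl⟩ := (Finset.mem_filter.1 hω).2
    have e : g ^ n * g ^ j = g ^ j * g ^ n := by rw [← zpow_natCast, zpow_mul_comm]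
    have := congrArg (fun x => (Φ x).c ω0) e
    simp only [map_mul, Wr.mul_c, h1] at this
    omega

variable {R : Type*} [Group R] {P : Type*} [Group P]

noncomputable def pt (φ : R →* P) (Z : Subgroup R) {K : Type*} (rep : K → P) (ω : (R ⧸ Z) × K) : P :=
  φ ω.1.out * rep ω.2

/-- the data of one side -/
structure Side (φ : R →* P) (Z : Subgroup R) (K I : Type*) where
  N : Subgroup P
  fn : FN N
  hZ : N.comap φ = Z
  idx : K → I
  rep : K → P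
  hinj : ∀ k k' r, idx k = idx k' → (φ r)⁻¹ * (rep k' * (rep k)⁻¹) ∈ N → k = k'
  hsurj : ∀ i p, ∃ k r, idx k = i ∧ (φ r)⁻¹ * (p * (rep k)⁻¹) ∈ N
  α : P → ℤ
  hα : Adv N α
  σ : I → ℤ
  b : K → ℤ

namespace Side
variable {φ : R →* P} {Z : Subgroup R} {K I : Type*} (S : Side φ Z K I)

noncomputable def E (ω : (R ⧸ Z) × K) : I × (P ⧸ S.N) := (S.idx ω.2, QuotientGroup.mk (pt φ Z S.rep ω))

lemma E_bij : Function.Bijective S.E := by
  have hn := S.fn.1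
  constructor
  · rintro ⟨h, k⟩ ⟨h', k'⟩ he
    simp only [E, Prod.mk.injEq, QuotientGroup.eq, pt] at he
    have h1 := hn.conj_mem _ he.2 (S.rep k)
    obtain rfl : k = k' := S.hinj k k' (h'.out⁻¹ * h.out) he.1 (by
      have := hn.conj_mem _ h1 ((φ h'.out)⁻¹ * φ h.out)⁻¹
      have h3 := hn.conj_mem _ this ((φ h'.out)⁻¹ * φ h.out)
      simpa [mul_assoc] using h3)
    have h2 : h.out⁻¹ * h'.out ∈ S.N.comap φ := by simpa [mul_assoc] using h1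
    rw [S.hZ, ← QuotientGroup.eq] at h2
    simpa using h2
  · rintro ⟨i, q⟩
    obtain ⟨p, rfl⟩ := QuotientGroup.mk_surjective q
    obtain ⟨k, r, hk, hr⟩ := S.hsurj i p
    refine ⟨((r : R ⧸ Z), k), Prod.ext hk ?_⟩
    obtain ⟨z, hz⟩ := QuotientGroup.mk_out_eq_mul Z r
    have hz' : φ z ∈ S.N := by
      have : (z : R) ∈ S.N.comap φ := S.hZ.symm ▸ z.2
      exact this
    simp only [E, QuotientGroup.eq, pt, hz]
    have := hn.conj_mem _ (S.N.mul_mem (S.N.inv_mem hz') hr) (S.rep k)⁻¹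
    simpa [mul_assoc] using this

noncomputable def act (p : P) : Equiv.Perm ((R ⧸ Z) × K) :=
  ((Equiv.ofBijective _ S.E_bij).trans ((Equiv.refl I).prodCongr (MulAction.toPerm p))).trans
    (Equiv.ofBijective _ S.E_bij).symm

lemma act_iff (p : P) (ω ω' : (R ⧸ Z) × K) : S.act p ω = ω' ↔
    S.idx ω'.2 = S.idx ω.2 ∧ (pt φ Z S.rep ω')⁻¹ * (p * pt φ Z S.rep ω) ∈ S.N := by
  simp only [act, Equiv.trans_apply, Equiv.symm_apply_eq, Equiv.ofBijective_apply, E,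
    Equiv.prodCongr_apply, Prod.map, Equiv.refl_apply, Prod.mk.injEq, MulAction.toPerm_apply]
  rw [eq_comm, eq_comm (b := ((pt φ Z S.rep ω' : P) : P ⧸ S.N)), MulAction.Quotient.smul_mk,
    QuotientGroup.eq]
  rfl

lemma act_mul (p q : P) : S.act (p * q) = S.act p * S.act q := by
  ext1 ω
  have h1 := (S.act_iff q ω _).1 rfl
  have h2 := (S.act_iff p (S.act q ω) _).1 rfl
  refine (S.act_iff _ _ _).2 ⟨h2.1.trans h1.1, ?_⟩
  simpa [mul_assoc] using S.N.mul_mem h2.2 h1.2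

noncomputable def Φ : P →* Wr ((R ⧸ Z) × K) :=
  MonoidHom.mk' (fun p => ⟨S.act p, fun ω =>
    S.σ (S.idx ω.2) * S.α ((pt φ Z S.rep (S.act p ω))⁻¹ * (p * pt φ Z S.rep ω)) +
      S.b (S.act p ω).2 - S.b ω.2⟩) fun p q => by
    refine Wr.ext (S.act_mul p q) (funext fun ω => ?_)
    have h1 := (S.act_iff q ω _).1 rfl
    have h2 := (S.act_iff p (S.act q ω) _).1 rfl
    have h3 := S.hα _ h2.2 _ h1.2
    simp only [Wr.mul_c, S.act_mul, Equiv.Perm.mul_apply, h1.1]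
    have e : (pt φ Z S.rep (S.act p (S.act q ω)))⁻¹ * (p * q * pt φ Z S.rep ω) =
      (pt φ Z S.rep (S.act p (S.act q ω)))⁻¹ * (p * pt φ Z S.rep (S.act q ω)) *
        ((pt φ Z S.rep (S.act q ω))⁻¹ * (q * pt φ Z S.rep ω)) := by simp [mul_assoc]
    rw [e, h3]; ring

lemma Φ_a (p : P) : (S.Φ p).a = S.act p := rfl
lemma Φ_c (p : P) (ω : (R ⧸ Z) × K) : (S.Φ p).c ω =
    S.σ (S.idx ω.2) * S.α ((pt φ Z S.rep (S.act p ω))⁻¹ * (p * pt φ Z S.rep ω)) +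
      S.b (S.act p ω).2 - S.b ω.2 := rfl

lemma zmem (r : R) (h : R ⧸ Z) : (r • h).out⁻¹ * (r * h.out) ∈ Z := by
  rw [← QuotientGroup.eq, QuotientGroup.out_eq']
  conv_lhs => rw [← QuotientGroup.out_eq' h]
  rfl

lemma act_φ (r : R) (h : R ⧸ Z) (k : K) : S.act (φ r) (h, k) = (r • h, k) := by
  refine (S.act_iff _ _ _).2 ⟨rfl, ?_⟩
  have h1 : (r • h).out⁻¹ * (r * h.out) ∈ S.N.comap φ := S.hZ.symm ▸ zmem r h
  have := S.fn.1.conj_mem _ h1 (S.rep k)⁻¹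
  simpa [pt, mul_assoc] using this

lemma c_φ (r : R) (h : R ⧸ Z) (k : K) : (S.Φ (φ r)).c (h, k) =
    S.σ (S.idx k) * S.α ((S.rep k)⁻¹ * φ ((r • h).out⁻¹ * (r * h.out)) * S.rep k) := by
  rw [Φ_c, act_φ]; simp [pt, mul_assoc]

lemma one_mem : φ ((1 : R) : R ⧸ Z).out ∈ S.N := by
  obtain ⟨z, hz⟩ := QuotientGroup.mk_out_eq_mul Z 1
  have : (z : R) ∈ S.N.comap φ := S.hZ.symm ▸ z.2
  rw [hz, one_mul]; exact this

lemma act_base (p : P) (k k' : K) (h1 : S.idx k' = S.idx k) (h2 : S.rep k = 1)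
    (h3 : (S.rep k')⁻¹ * p ∈ S.N) : S.act p (((1 : R) : R ⧸ Z), k) = (((1 : R) : R ⧸ Z), k') := by
  refine (S.act_iff _ _ _).2 ⟨h1, ?_⟩
  have := S.N.mul_mem (S.N.mul_mem (S.fn.1.conj_mem _ (S.N.inv_mem S.one_mem) (S.rep k')⁻¹) h3)
    S.one_mem
  simpa [pt, h2, mul_assoc] using this

end Side

variable {Q : Type*} [Group Q]

lemma glue {φ : R →* P} {ψ : R →* Q} {Z : Subgroup R} {K I J : Type*} (S : Side φ Z K I)
    (T : Side ψ Z K J)
    (h : ∀ z ∈ Z, ∀ k, S.σ (S.idx k) * S.α ((S.rep k)⁻¹ * φ z * S.rep k) =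
      T.σ (T.idx k) * T.α ((T.rep k)⁻¹ * ψ z * T.rep k)) (r : R) : S.Φ (φ r) = T.Φ (ψ r) := by
  refine Wr.ext (Equiv.ext fun ⟨x, k⟩ => ?_) (funext fun ⟨x, k⟩ => ?_)
  · rw [Side.Φ_a, Side.Φ_a, Side.act_φ, Side.act_φ]
  · rw [Side.c_φ, Side.c_φ]; exact h _ (Side.zmem r x) k

end Pool.Agent.H18.Vrc
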