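import Pool.Agent.H18.Vrc2

set_option autoImplicit false

open Subgroup

namespace Pool.Agent.H18.Vrc

universe u
variable {R P Q G : Type u} [Group R] [Group P] [Group Q] [Group G]

def RN (φ : R →* P) {N : Subgroup P} (hN : FN N) : Subgroup P where
  carrier := {p | ∃ r, (φ r)⁻¹ * p ∈ N}
  one_mem' := ⟨1, by simp⟩
  mul_mem' := by
    rintro a b ⟨r, hr⟩ ⟨s, hs⟩
    refine ⟨r * s, ?_⟩
    simpa [mul_assoc] using N.mul_mem (hN.1.conj_mem _ hr (φ s)⁻¹) hs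
  inv_mem' := by
    rintro a ⟨r, hr⟩
    refine ⟨r⁻¹, ?_⟩
    simpa [mul_assoc] using hN.1.conj_mem _ (N.inv_mem hr) (φ r)

def Cs (φ : R →* P) {N : Subgroup P} (hN : FN N) : Type u :=
  Quotient (QuotientGroup.rightRel (RN φ hN))

def Cs.mk (φ : R →* P) {N : Subgroup P} (hN : FN N) (p : P) : Cs φ hN := Quotient.mk _ p

lemma Cs.eq {φ : R →* P} {N : Subgroup P} {hN : FN N} {p q : P} :
    Cs.mk φ hN p = Cs.mk φ hN q ↔ ∃ r, (φ r)⁻¹ * (q * p⁻¹) ∈ N :=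
  Quotient.eq.trans QuotientGroup.rightRel_apply

instance (φ : R →* P) {N : Subgroup P} (hN : FN N) : Finite (Cs φ hN) := by
  have := hN.2
  have : (RN φ hN).FiniteIndex := finiteIndex_of_le (H := N) fun x hx => ⟨1, by simpa using hx⟩
  exact Finite.of_equiv _ (QuotientGroup.quotientRightRelEquivQuotientLeftRel (RN φ hN)).symm

open Classical in
noncomputable def rp {φ : R →* P} {N : Subgroup P} {hN : FN N} (x : P) (s : Cs φ hN) : P :=
  if s = Cs.mk φ hN 1 then 1 else if s = Cs.mk φ hN x then x else Quotient.out s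

lemma mk_rp {φ : R →* P} {N : Subgroup P} {hN : FN N} (x : P) (s : Cs φ hN) :
    Cs.mk φ hN (rp x s) = s := by
  unfold rp; split_ifs with h1 h2
  · exact h1.symm
  · exact h2.symm
  · exact Quotient.out_eq s

lemma rp_one {φ : R →* P} {N : Subgroup P} {hN : FN N} (x : P) : rp x (Cs.mk φ hN 1) = 1 :=
  if_pos rfl

lemma rp_self {φ : R →* P} {N : Subgroup P} {hN : FN N} {x : P}
    (h : Cs.mk φ hN x ≠ Cs.mk φ hN 1) : rp x (Cs.mk φ hN x) = x := by
  unfold rp; rw [if_neg h, if_pos rfl]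

noncomputable def mkSide {φ : R →* P} {Z : Subgroup R} {K I : Type u} {N : Subgroup P} (hN : FN N)
    (hZ : N.comap φ = Z) (e : K ≃ I × Cs φ hN) (xs : I → P) (α : P → ℤ) (hα : Adv N α)
    (σ : I → ℤ) (b : K → ℤ) : Side φ Z K I where
  N := N
  fn := hN
  hZ := hZ
  idx k := (e k).1
  rep k := rp (xs (e k).1) (e k).2
  hinj k k' r h1 h2 := by
    have := (Cs.eq (hN := hN)).2 ⟨r, h2⟩
    rw [mk_rp, mk_rp] at this
    exact e.injective (Prod.ext h1 this)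
  hsurj i p := by
    obtain ⟨r, hr⟩ := Cs.eq.1 (mk_rp (xs i) (Cs.mk φ hN p))
    exact ⟨e.symm (i, Cs.mk φ hN p), r, by simp, by simpa using hr⟩
  α := α
  hα := hα
  σ := σ
  b := b

def Good (g : G) : Prop :=
  (∃ (Ω : Type u) (_ : Finite Ω) (Φ : G →* Wr Ω) (n : ℕ) (ω : Ω),
    (Φ (g ^ n)).a ω = ω ∧ (Φ (g ^ n)).c ω ≠ 0) ∨ ∃ M, FN M ∧ ∀ x ∈ zpowers g, x ∈ M → x = 1

lemma Good.vr {g : G} (h : Good g) : IsVR (zpowers g) := by
  rcases h with ⟨Ω, _, Φ, n, ω, h1, h2⟩ | ⟨M, ⟨_, _⟩, h⟩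
  · exact upgrade Φ g n ω h1 h2
  · exact vr_of_normal h

lemma Good.swap {a b : G} (h : Good (a * b)) : Good (b * a) := by
  have e : ∀ n : ℤ, (MulAut.conj a) ((b * a) ^ n) = (a * b) ^ n := fun n => by
    rw [map_zpow]; simp [mul_assoc]
  rcases h with ⟨Ω, _, Φ, n, ω, h1, h2⟩ | ⟨M, hM, h⟩
  · have e' := e n
    rw [zpow_natCast, zpow_natCast] at e'
    refine Or.inl ⟨Ω, inferInstance, Φ.comp (MulAut.conj a).toMonoidHom, n, ω, ?_, ?_⟩
    · show (Φ ((MulAut.conj a) _)).a ω = ω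
      rwa [e']
    · show (Φ ((MulAut.conj a) _)).c ω ≠ 0
      rwa [e']
  · refine Or.inr ⟨M, hM, ?_⟩
    rintro _ ⟨n, rfl⟩ hx
    have := h _ ⟨n, (e n).symm⟩ (hM.1.conj_mem _ hx a)
    exact (MulAut.conj a).injective (this.trans (map_one _).symm)

def Lifts (φ : R →* P) (ψ : R →* Q) (i : P →* G) (j : Q →* G) : Prop :=
  ∀ (Ω : Type u) (f : P →* Wr Ω) (g : Q →* Wr Ω), (∀ r, f (φ r) = g (ψ r)) →
    ∃ Φ : G →* Wr Ω, (∀ p, Φ (i p) = f p) ∧ ∀ q, Φ (j q) = g q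

lemma Lifts.symm {φ : R →* P} {ψ : R →* Q} {i : P →* G} {j : Q →* G} (h : Lifts φ ψ i j) :
    Lifts ψ φ j i := fun Ω f g hfg => by
  obtain ⟨Φ, h1, h2⟩ := h Ω g f fun r => (hfg r).symm
  exact ⟨Φ, h2, h1⟩

lemma adv_zero (N : Subgroup P) : Adv N 0 := fun _ _ _ _ => by simp

lemma finZ {φ : R →* P} {N : Subgroup P} (hN : FN N) {Z : Subgroup R} (h : N.comap φ = Z) :
    Finite (R ⧸ Z) := by
  have := hN.1; have := hN.2
  have : Z.FiniteIndex := fi_of_hom (K := ⊤)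
    (((QuotientGroup.mk' N).comp φ).comp (Subgroup.subtype ⊤)) fun x hx => by
      rw [← h]; exact (QuotientGroup.eq_one_iff (φ x)).1 hx
  infer_instance

lemma elliptic (hP : VRC P) (hQ : VRC Q) {φ : R →* P} {ψ : R →* Q}
    (hφ : Function.Injective φ) (hψ : Function.Injective ψ) (ρ0 : R) [(zpowers ρ0).FiniteIndex]
    {i : P →* G} {j : Q →* G} (hL : Lifts φ ψ i j) (p : P) : Good (i p) := by
  by_cases hp : IsOfFinOrder p
  · have : Finite (zpowers p) := finite_zpowers.2 hp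
    obtain ⟨M0, hM0, -, h0⟩ := hP.kill (zpowers p).subtype Subtype.val_injective FN.top
    obtain ⟨M, N, ρ, hM, hN, h1, -, h2, h3, -⟩ := compat hP hQ φ ψ hφ hψ ρ0 hM0 FN.top
    have := finZ hM h2
    let S := mkSide hM h2 (Equiv.prodComm (Cs φ hM) (Cs ψ hN)) 1 0 (adv_zero _) 0 0
    let T := mkSide hN h3 (Equiv.refl (Cs φ hM × Cs ψ hN)) 1 0 (adv_zero _) 0 0
    obtain ⟨Φ, hΦ, -⟩ := hL _ S.Φ T.Φ (glue S T fun z _ k => by simp [S, T, mkSide])
    refine Or.inr ⟨(Wr.aHom.comp Φ).ker, ⟨inferInstance, inferInstance⟩, ?_⟩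
    rintro _ ⟨n, rfl⟩ hx
    have h4 : (Φ (i p ^ n)).a = 1 := hx
    rw [← map_zpow, hΦ, Side.Φ_a] at h4
    have h5 := ((S.act_iff (p ^ n) (((1 : R) : R ⧸ zpowers ρ), Cs.mk φ hM 1, Cs.mk ψ hN 1) _).1
      (by rw [h4])).2
    have h6 : p ^ n ∈ M := by
      have := hM.1.conj_mem _ h5 (pt φ (zpowers ρ) S.rep
        (((1 : R) : R ⧸ zpowers ρ), Cs.mk φ hM 1, Cs.mk ψ hN 1))
      simpa [mul_assoc] using this
    have h7 : (⟨p ^ n, zpow_mem_zpowers _ _⟩ : zpowers p) ∈ M0.comap (zpowers p).subtype := h1 h6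
    rw [h0, zpowers_one_eq_bot, mem_bot] at h7
    show i p ^ n = 1
    rw [← map_zpow, show p ^ n = 1 from congrArg Subtype.val h7, map_one]
  obtain ⟨K, hfi, hpK, α, hα, hα1⟩ := hP.adv hp
  obtain ⟨M, N, ρ, hM, hN, h1, -, h2, h3, h4⟩ := compat hP hQ φ ψ hφ hψ ρ0 (FN.core K) FN.top
  have := finZ hM h2
  have hMK : M ≤ K := h1.trans (normalCore_le K)
  obtain ⟨β, hβ, σ, τ, hσ, hm⟩ : ∃ β, Adv N β ∧ ∃ (σ : Cs ψ hN → ℤ) (τ : Cs φ hM → ℤ),
      σ (Cs.mk ψ hN 1) ≠ 0 ∧ ∀ z ∈ zpowers ρ, ∀ s t,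
        σ t * α ((rp 1 s)⁻¹ * φ z * rp 1 s) = τ s * β ((rp 1 t)⁻¹ * ψ z * rp 1 t) := by
    rcases h4 with rfl | ⟨β, hβ, h4⟩
    · refine ⟨0, adv_zero _, 1, 0, one_ne_zero, fun z hz s t => ?_⟩
      rw [zpowers_one_eq_bot, mem_bot] at hz
      simp [hz, hα.one]
    · refine ⟨β, hβ, fun t => β ((rp 1 t)⁻¹ * ψ ρ * rp 1 t), fun s => α ((rp 1 s)⁻¹ * φ ρ * rp 1 s),
        by simpa [rp_one] using h4, ?_⟩
      rintro _ ⟨n, rfl⟩ s t
      have e1 : φ ρ ∈ M := (show ρ ∈ M.comap φ from h2 ▸ mem_zpowers ρ)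
      have e2 : ψ ρ ∈ N := (show ρ ∈ N.comap ψ from h3 ▸ mem_zpowers ρ)
      have e3 := hα.zpow (hMK (hM.1.conj_mem _ e1 (rp 1 s)⁻¹)) n
      have e4 := hβ.zpow (hN.1.conj_mem _ e2 (rp 1 t)⁻¹) n
      simp only [conj_zpow] at e3 e4
      simp only [inv_inv] at e3 e4
      simp only [map_zpow, e3, e4]; ring
  let S := mkSide hM h2 (Equiv.prodComm (Cs φ hM) (Cs ψ hN)) 1 α (hα.mono hMK) σ 0
  let T := mkSide hN h3 (Equiv.refl (Cs φ hM × Cs ψ hN)) 1 β hβ τ 0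
  obtain ⟨Φ, hΦ, -⟩ := hL _ S.Φ T.Φ (glue S T fun z hz k => hm z hz k.1 k.2)
  obtain ⟨n, hn, -, hn'⟩ := exists_pow_mem_of_index_ne_zero hM.2.index_ne_zero p
  have h5 := S.act_base (p ^ n) (Cs.mk φ hM 1, Cs.mk ψ hN 1) _ rfl (rp_one _)
    (by show (rp 1 (Cs.mk φ hM 1))⁻¹ * _ ∈ M; simpa [rp_one] using hn')
  refine Or.inl ⟨_, inferInstance, Φ, n, (((1 : R) : R ⧸ zpowers ρ), Cs.mk φ hM 1, Cs.mk ψ hN 1),
    by rw [← map_pow, hΦ, Side.Φ_a, h5], ?_⟩
  rw [← map_pow, hΦ, Side.Φ_c, h5, ← mul_assoc]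
  have h6 : pt φ (zpowers ρ) S.rep (((1 : R) : R ⧸ zpowers ρ), Cs.mk φ hM 1, Cs.mk ψ hN 1) ∈ K := by
    show _ * rp 1 (Cs.mk φ hM 1) ∈ K
    rw [rp_one, mul_one]; exact hMK S.one_mem
  show σ (Cs.mk ψ hN 1) * α _ + 0 - 0 ≠ 0
  rw [hα.conj (hMK hn') h6, hα.pow hpK, hα1]
  simp [hσ, hn.ne']

lemma hyperbolic (hP : VRC P) (hQ : VRC Q) {φ : R →* P} {ψ : R →* Q}
    (hφ : Function.Injective φ) (hψ : Function.Injective ψ) (ρ0 : R) [(zpowers ρ0).FiniteIndex]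
    {i : P →* G} {j : Q →* G} (hL : Lifts φ ψ i j) (k : ℕ) (hk : 0 < k) (x : ℕ → P) (y : ℕ → Q)
    (hx : ∀ t < k, x t ∉ φ.range) (hy : ∀ t < k, y t ∉ ψ.range) :
    Good ((List.range k).map fun t => i (x t) * j (y t)).prod := by
  classical
  obtain ⟨M0, hM0, hM1⟩ := FN.fin (ι := Fin k) (fun t (N : Subgroup P) => ∀ r, (φ r)⁻¹ * x t ∉ N)
    (fun _ _ _ hle h r h' => h r (hle h')) fun t => hP.sepR φ ρ0 (hx t t.2)
  obtain ⟨N0, hN0, hN1⟩ := FN.fin (ι := Fin k) (fun t (N : Subgroup Q) => ∀ r, (ψ r)⁻¹ * y t ∉ N)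
    (fun _ _ _ hle h r h' => h r (hle h')) fun t => hQ.sepR ψ ρ0 (hy t t.2)
  obtain ⟨M, N, ρ, hM, hN, h1, h1', h2, h3, -⟩ := compat hP hQ φ ψ hφ hψ ρ0 hM0 hN0
  have := finZ hM h2
  have hx' : ∀ t : Fin k, Cs.mk φ hM (x t) ≠ Cs.mk φ hM 1 := fun t h => by
    obtain ⟨r, hr⟩ := Cs.eq.1 h.symm
    exact hM1 t r (h1 (by simpa using hr))
  have hy' : ∀ t : Fin k, Cs.mk ψ hN (y t) ≠ Cs.mk ψ hN 1 := fun t h => by
    obtain ⟨r, hr⟩ := Cs.eq.1 h.symm
    exact hN1 t r (h1' (by simpa using hr))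
  let K := (Fin k × Cs φ hM) × Cs ψ hN
  let nxt : Fin k → Fin k := fun t => ⟨(t + 1) % k, Nat.mod_lt _ hk⟩
  have hnxt : Function.Injective nxt := fun a b h => by
    have h' : a.1 + 1 ≡ b.1 + 1 [MOD k] := congrArg Fin.val h
    exact Fin.ext ((Nat.ModEq.add_right_cancel' 1 h').eq_of_lt_of_lt a.2 b.2)
  let C : Fin k → K := fun t => ((t, Cs.mk φ hM 1), Cs.mk ψ hN 1)
  let D : Fin k → K := fun t => ((t, Cs.mk φ hM (x t)), Cs.mk ψ hN 1)
  let B : Fin k → K := fun t => ((t, Cs.mk φ hM 1), Cs.mk ψ hN (y t))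
  obtain ⟨π, hπ⟩ := Equiv.Perm.exists_extending_pair (Sum.elim C (D ∘ nxt)) (Sum.elim B C)
    (Function.Injective.sumElim (fun a b h => congrArg (·.1.1) h)
      (fun a b h => hnxt (congrArg (·.1.1) h)) fun a b h => hx' _ (congrArg (·.1.2) h).symm)
    (Function.Injective.sumElim (fun a b h => congrArg (·.1.1) h)
      (fun a b h => congrArg (·.1.1) h) fun a b h => hy' _ (congrArg (·.2) h))
  have hπ1 : ∀ t, π (C t) = B t := fun t => hπ (Sum.inl t)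
  have hπ2 : ∀ t, π (D (nxt t)) = C t := fun t => hπ (Sum.inr t)
  let eP : K ≃ (Fin k × Cs ψ hN) × Cs φ hM :=
    ⟨fun a => ((a.1.1, a.2), a.1.2), fun a => ((a.1.1, a.2), a.1.2), fun _ => rfl, fun _ => rfl⟩
  let b : K → ℤ := fun a => if a.1.2 = Cs.mk φ hM 1 then 1 else 0
  let S := mkSide hM h2 eP (fun a => x a.1) 0 (adv_zero _) 0 0
  let T := mkSide hN h3 π (fun a => y a.1) 0 (adv_zero _) 0 b
  obtain ⟨Φ, hΦ, hΦ'⟩ := hL _ S.Φ T.Φ (glue S T fun z _ k => by simp [S, T, mkSide])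
  let o : R ⧸ zpowers ρ := (1 : R)
  have step : ∀ t : Fin k, (Φ (i (x t) * j (y t))).a (o, D (nxt t)) = (o, D t) ∧
      (Φ (i (x t) * j (y t))).c (o, D (nxt t)) = 1 := fun t => by
    have e1 : T.act (y t) (o, D (nxt t)) = (o, C t) := by
      refine T.act_base _ _ _ ?_ ?_ ?_
      · show (π _).1 = (π _).1
        rw [hπ1, hπ2]
      · show rp (y (π _).1.1) (π _).2 = 1
        rw [hπ2]; exact rp_one _
      · show (rp (y (π _).1.1) (π _).2)⁻¹ * _ ∈ N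
        rw [hπ1]
        show (rp (y t) (Cs.mk ψ hN (y t)))⁻¹ * _ ∈ N
        rw [rp_self (hy' t)]; simp
    have e2 : S.act (x t) (o, C t) = (o, D t) := by
      refine S.act_base _ _ _ rfl (rp_one _) ?_
      show (rp (x t) (Cs.mk φ hM (x t)))⁻¹ * _ ∈ M
      rw [rp_self (hx' t)]; simp
    rw [map_mul, hΦ, hΦ', Wr.mul_a, Wr.mul_c, Equiv.Perm.mul_apply, Side.Φ_a, Side.Φ_a, e1, e2,
      Side.Φ_c, Side.Φ_c, e1]
    refine ⟨rfl, ?_⟩
    show (0 : ℤ) * _ + 0 - 0 + (0 * _ + b (C t) - b (D (nxt t))) = 1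
    simp [b, C, D, hx']
  let D' : ℕ → (R ⧸ zpowers ρ) × K := fun t => (o, D ⟨t % k, Nat.mod_lt _ hk⟩)
  have main : ∀ n ≤ k, (Φ ((List.range n).map fun t => i (x t) * j (y t)).prod).a (D' n) = D' 0 ∧
      (Φ ((List.range n).map fun t => i (x t) * j (y t)).prod).c (D' n) = n := by
    intro n hn
    induction n with
    | zero => simp
    | succ n ih =>
      obtain ⟨i1, i2⟩ := ih (by omega)
      obtain ⟨s1, s2⟩ := step ⟨n, by omega⟩
      have e : D' n = (o, D ⟨n, by omega⟩) := by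
        simp only [D', Nat.mod_eq_of_lt (show n < k by omega)]
      rw [List.prod_range_succ, map_mul, Wr.mul_a, Wr.mul_c, Equiv.Perm.mul_apply]
      change (Φ (i (x n) * j (y n))).a (D' (n + 1)) = _ at s1
      change (Φ (i (x n) * j (y n))).c (D' (n + 1)) = _ at s2
      rw [s1, s2, ← e, i1, i2]
      exact ⟨rfl, by push_cast; ring⟩
  obtain ⟨m1, m2⟩ := main k le_rfl
  have e : D' k = D' 0 := by simp only [D', Nat.mod_self, Nat.zero_mod]
  rw [e] at m1 m2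
  refine Or.inl ⟨_, inferInstance, Φ, 1, D' 0, by rwa [pow_one], ?_⟩
  rw [pow_one, m2]; omega

lemma good_list (hP : VRC P) (hQ : VRC Q) {φ : R →* P} {ψ : R →* Q}
    (hφ : Function.Injective φ) (hψ : Function.Injective ψ) (ρ0 : R) [(zpowers ρ0).FiniteIndex]
    {i : P →* G} {j : Q →* G} (hL : Lifts φ ψ i j) (hc : ∀ r, i (φ r) = j (ψ r)) (k : ℕ) :
    ∀ l : List (P × Q), l.length = k → Good (l.map fun a => i a.1 * j a.2).prod := by
  induction k with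
  | zero =>
    intro l hl
    rw [List.length_eq_zero_iff.1 hl]
    simpa using elliptic hP hQ hφ hψ ρ0 hL 1
  | succ k ih =>
    intro l hl
    by_cases h1 : ∃ a ∈ l, a.2 ∈ ψ.range
    · obtain ⟨⟨p, q⟩, ha, r, rfl⟩ := h1
      obtain ⟨l1, l2, rfl⟩ := List.append_of_mem ha
      rw [List.map_append, List.prod_append]
      apply Good.swap
      rw [List.map_cons, List.prod_cons, mul_assoc, ← List.prod_append, ← List.map_append]
      rcases hm : l2 ++ l1 with _ | ⟨⟨p', q'⟩, m⟩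
      · simpa [← hc] using elliptic hP hQ hφ hψ ρ0 hL (p * φ r)
      · have := ih ((p * φ r * p', q') :: m) (by
          have := congrArg List.length hm
          simp at this hl ⊢; omega)
        simpa [← hc, mul_assoc] using this
    by_cases h2 : ∃ a ∈ l, a.1 ∈ φ.range
    · obtain ⟨⟨p, q⟩, ha, r, rfl⟩ := h2
      obtain ⟨l1, l2, rfl⟩ := List.append_of_mem ha
      rw [List.map_append, List.prod_append]
      apply Good.swap
      rw [List.map_cons, List.prod_cons, mul_assoc, ← List.prod_append, ← List.map_append]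
      rcases List.eq_nil_or_concat (l2 ++ l1) with hm | ⟨m, ⟨p', q'⟩, hm⟩
      · simpa [hm, hc] using elliptic hQ hP hψ hφ ρ0 hL.symm (ψ r * q)
      · have := ih ((p', q' * ψ r * q) :: m) (by
          have := congrArg List.length hm
          simp at this hl ⊢; omega)
        rw [hm, List.concat_eq_append, List.map_append, List.prod_append, ← mul_assoc]
        apply Good.swap
        simpa [hc, mul_assoc] using this
    push Not at h1 h2
    have := hyperbolic hP hQ hφ hψ ρ0 hL l.length (by omega) (fun t => (l.getD t 1).1)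
      (fun t => (l.getD t 1).2)
      (fun t ht => h2 _ (by rw [List.getD_eq_getElem _ _ ht]; exact List.getElem_mem ht))
      (fun t ht => h1 _ (by rw [List.getD_eq_getElem _ _ ht]; exact List.getElem_mem ht))
    convert this using 2
    refine List.ext_getElem (by simp) fun t h1 h2 => ?_
    simp only [List.length_map] at h1
    simp [List.getElem?_eq_getElem h1]

open Monoid in
theorem main (hP : VRC P) (hQ : VRC Q) {φ : R →* P} {ψ : R →* Q}
    (hφ : Function.Injective φ) (hψ : Function.Injective ψ) (ρ0 : R) [(zpowers ρ0).FiniteIndex] :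
    VRC (Coprod P Q ⧸ normalClosure
      (Set.range fun r => (Coprod.inl (φ r) : Coprod P Q) * (Coprod.inr (ψ r))⁻¹)) := by
  set N := normalClosure
      (Set.range fun r => (Coprod.inl (φ r) : Coprod P Q) * (Coprod.inr (ψ r))⁻¹) with hN
  let i : P →* Coprod P Q ⧸ N := (QuotientGroup.mk' N).comp Coprod.inl
  let j : Q →* Coprod P Q ⧸ N := (QuotientGroup.mk' N).comp Coprod.inr
  have hc : ∀ r, i (φ r) = j (ψ r) := fun r => by
    rw [← mul_inv_eq_one]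
    exact (QuotientGroup.eq_one_iff _).2 (subset_normalClosure ⟨r, rfl⟩)
  have hL : Lifts φ ψ i j := fun Ω f g h => by
    refine ⟨QuotientGroup.lift N (Coprod.lift f g) ?_, fun p => rfl, fun q => rfl⟩
    refine normalClosure_le_normal (N := (Coprod.lift f g).ker) ?_
    rintro _ ⟨r, rfl⟩
    simp [h]
  intro g
  obtain ⟨l, rfl⟩ : ∃ l : List (P × Q), (l.map fun a => i a.1 * j a.2).prod = g := by
    obtain ⟨w, rfl⟩ := QuotientGroup.mk'_surjective N g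
    induction w using Coprod.induction_on with
    | inl p => exact ⟨[(p, 1)], by simp [i]⟩
    | inr q => exact ⟨[(1, q)], by simp [j]⟩
    | mul a b ha hb =>
      obtain ⟨l1, h1⟩ := ha
      obtain ⟨l2, h2⟩ := hb
      exact ⟨l1 ++ l2, by rw [List.map_append, List.prod_append, h1, h2, map_mul]⟩
  exact (good_list hP hQ hφ hψ ρ0 hL hc _ l rfl).vr

end Pool.Agent.H18.Vrc
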