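import Pool.Agent.H18.WolfDefs

namespace Pool.Agent.H18.Wolf

theorem g0 :
    231139368315689 ≤ seg 1 0 2 13 ∧
    341556261451470 ≤ seg 5 0 9 125 ∧
    28954329979519 ≤ seg 517 1 8 176 ∧
    25218151715605 ≤ seg 1029 2 8 249 ∧
    22511557917875 ≤ seg 2053 3 8 351 ∧
    20282950134535 ≤ seg 4101 4 8 496 ∧
    18631826197424 ≤ seg 8197 5 8 702 ∧
    16972560476393 ≤ seg 16389 6 8 992 ∧
    15373478375114 ≤ seg 32773 7 8 1403 ∧
    14173490301267 ≤ seg 65541 8 8 1984 ∧
    7725890960020 ≤ seg 131077 9 7 2429 ∧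
    5312130666254 ≤ seg 196613 9 7 2805 ∧
    3940532350277 ≤ seg 262149 10 6 3136 ∧
    3120281568881 ≤ seg 327685 10 6 3435 ∧
    2618757622428 ≤ seg 393221 10 6 3710 ∧
    2246333546947 ≤ seg 458757 10 6 3966 ∧
    1947731223266 ≤ seg 524293 11 5 4207 ∧
    1729346390301 ≤ seg 589829 11 5 4435 ∧
    1552624217070 ≤ seg 655365 11 5 4651 ∧
    1381580819820 ≤ seg 720901 11 5 4858 ∧
    1272010501252 ≤ seg 786437 11 5 5056 ∧
    1171948068948 ≤ seg 851973 11 5 5247 ∧
    1083651146939 ≤ seg 917509 11 5 5431 ∧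
    998248248809 ≤ seg 983045 11 5 5609 ∧
    935972161995 ≤ seg 1048581 12 4 5782 ∧
    870199796165 ≤ seg 1114117 12 4 5949 ∧
    813709293550 ≤ seg 1179653 12 4 6112 ∧
    781261579635 ≤ seg 1245189 12 4 6271 ∧
    731602953641 ≤ seg 1310725 12 4 6426 ∧
    692232376800 ≤ seg 1376261 12 4 6577 ∧
    665559436338 ≤ seg 1441797 12 4 6725 ∧
    637579824034 ≤ seg 1507333 12 4 6870 ∧
    602195931866 ≤ seg 1572869 12 4 7011 ∧
    580917345257 ≤ seg 1638405 12 4 7150 ∧
    555139556848 ≤ seg 1703941 12 4 7286 ∧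
    523744858111 ≤ seg 1769477 12 4 7420 ∧
    512563136653 ≤ seg 1835013 12 4 7551 ∧
    493767600642 ≤ seg 1900549 12 4 7681 ∧
    477131656243 ≤ seg 1966085 12 4 7807 ∧
    459153722721 ≤ seg 2031621 12 4 7932 ∧
    436473589726 ≤ seg 2097157 13 3 8055 ∧
    430793880193 ≤ seg 2162693 13 3 8176 ∧
    407468255242 ≤ seg 2228229 13 3 8296 ∧
    397196828450 ≤ seg 2293765 13 3 8414 ∧
    395783615546 ≤ seg 2359301 13 3 8530 ∧
    377020875111 ≤ seg 2424837 13 3 8644 ∧
    369487384285 ≤ seg 2490373 13 3 8757 ∧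
    353109724383 ≤ seg 2555909 13 3 8869 ∧
    347048979731 ≤ seg 2621445 13 3 8979 ∧
    337089680182 ≤ seg 2686981 13 3 9088 :=
  ⟨by decide +kernel,
   by decide +kernel,
   by decide +kernel,
   by decide +kernel,
   by decide +kernel,
   by decide +kernel,
   by decide +kernel,
   by decide +kernel,
   by decide +kernel,
   by decide +kernel,
   by decide +kernel,
   by decide +kernel,
   by decide +kernel,
   by decide +kernel,
   by decide +kernel,
   by decide +kernel,
   by decide +kernel,
   by decide +kernel,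
   by decide +kernel,
   by decide +kernel,
   by decide +kernel,
   by decide +kernel,
   by decide +kernel,
   by decide +kernel,
   by decide +kernel,
   by decide +kernel,
   by decide +kernel,
   by decide +kernel,
   by decide +kernel,
   by decide +kernel,
   by decide +kernel,
   by decide +kernel,
   by decide +kernel,
   by decide +kernel,
   by decide +kernel,
   by decide +kernel,
   by decide +kernel,
   by decide +kernel,
   by decide +kernel,
   by decide +kernel,
   by decide +kernel,
   by decide +kernel,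
   by decide +kernel,
   by decide +kernel,
   by decide +kernel,
   by decide +kernel,
   by decide +kernel,
   by decide +kernel,
   by decide +kernel,
   by decide +kernel⟩

end Pool.Agent.H18.Wolf
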