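import Pool.Agent.H18.WolfDefs

namespace Pool.Agent.H18.Wolf

theorem g1 :
    328869521074 ≤ seg 2752517 13 3 9195 ∧
    323541431025 ≤ seg 2818053 13 3 9301 ∧
    312668410028 ≤ seg 2883589 13 3 9407 ∧
    301552979817 ≤ seg 2949125 13 3 9510 ∧
    303315399399 ≤ seg 3014661 13 3 9613 ∧
    290940463656 ≤ seg 3080197 13 3 9715 ∧
    284700389280 ≤ seg 3145733 13 3 9816 ∧
    274073737453 ≤ seg 3211269 13 3 9915 ∧
    270578376294 ≤ seg 3276805 13 3 10014 ∧
    266406891508 ≤ seg 3342341 13 3 10112 ∧
    260245898861 ≤ seg 3407877 13 3 10208 ∧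
    254459768742 ≤ seg 3473413 13 3 10304 ∧
    252131323794 ≤ seg 3538949 13 3 10399 ∧
    245615120776 ≤ seg 3604485 13 3 10493 ∧
    239560489044 ≤ seg 3670021 13 3 10587 ∧
    236413496929 ≤ seg 3735557 13 3 10679 ∧
    229225560658 ≤ seg 3801093 13 3 10771 ∧
    228927931762 ≤ seg 3866629 13 3 10862 ∧
    223797684815 ≤ seg 3932165 13 3 10952 ∧
    216975917706 ≤ seg 3997701 13 3 11041 ∧
    215121093549 ≤ seg 4063237 13 3 11130 ∧
    213475748330 ≤ seg 4128773 13 3 11218 ∧
    209140114081 ≤ seg 4194309 14 2 11305 ∧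
    202944206817 ≤ seg 4259845 14 2 11392 ∧
    200732850323 ≤ seg 4325381 14 2 11478 ∧
    196489766775 ≤ seg 4390917 14 2 11563 ∧
    194028835297 ≤ seg 4456453 14 2 11648 ∧
    191940352160 ≤ seg 4521989 14 2 11732 ∧
    187396569743 ≤ seg 4587525 14 2 11815 ∧
    185143015503 ≤ seg 4653061 14 2 11898 ∧
    184517302335 ≤ seg 4718597 14 2 11981 ∧
    179815113397 ≤ seg 4784133 14 2 12062 ∧
    178482368776 ≤ seg 4849669 14 2 12144 ∧
    173211424201 ≤ seg 4915205 14 2 12224 ∧
    169982587243 ≤ seg 4980741 14 2 12304 ∧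
    168184272100 ≤ seg 5046277 14 2 12384 ∧
    168673396441 ≤ seg 5111813 14 2 12463 ∧
    164781803552 ≤ seg 5177349 14 2 12542 ∧
    160691001410 ≤ seg 5242885 14 2 12620 ∧
    160289832211 ≤ seg 5308421 14 2 12698 ∧
    158799544675 ≤ seg 5373957 14 2 12775 :=
  ⟨by decide +kernel,
   by decide +kernel,
   by decide +kernel,
   by decide +kernel,
   by decide +kernel,
   by decide +kernel,
   by decide +kernel,
   by decide +kernel,
   by decide +kernel,
   by decide +kernel,
   by decide +kernel,
   by decide +kernel,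
   by decide +kernel,
   by decide +kernel,
   by decide +kernel,
   by decide +kernel,
   by decide +kernel,
   by decide +kernel,
   by decide +kernel,
   by decide +kernel,
   by decide +kernel,
   by decide +kernel,
   by decide +kernel,
   by decide +kernel,
   by decide +kernel,
   by decide +kernel,
   by decide +kernel,
   by decide +kernel,
   by decide +kernel,
   by decide +kernel,
   by decide +kernel,
   by decide +kernel,
   by decide +kernel,
   by decide +kernel,
   by decide +kernel,
   by decide +kernel,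
   by decide +kernel,
   by decide +kernel,
   by decide +kernel,
   by decide +kernel,
   by decide +kernel⟩

end Pool.Agent.H18.Wolf
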