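import Pool.Agent.H18.WolfDefs

namespace Pool.Agent.H18.Wolf

theorem g2 :
    156136088319 ≤ seg 5439493 14 2 12852 ∧
    155893894177 ≤ seg 5505029 14 2 12928 ∧
    154182449463 ≤ seg 5570565 14 2 13004 ∧
    150243218763 ≤ seg 5636101 14 2 13079 ∧
    148845622468 ≤ seg 5701637 14 2 13154 ∧
    146698114868 ≤ seg 5767173 14 2 13229 ∧
    145975092400 ≤ seg 5832709 14 2 13303 ∧
    145062963273 ≤ seg 5898245 14 2 13376 ∧
    140379481474 ≤ seg 5963781 14 2 13450 ∧
    139043510852 ≤ seg 6029317 14 2 13523 ∧
    136564244730 ≤ seg 6094853 14 2 13595 ∧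
    136814048294 ≤ seg 6160389 14 2 13667 ∧
    134588932552 ≤ seg 6225925 14 2 13739 ∧
    131898191180 ≤ seg 6291461 14 2 13810 ∧
    130363961363 ≤ seg 6356997 14 2 13881 ∧
    130104646393 ≤ seg 6422533 14 2 13952 ∧
    127518190470 ≤ seg 6488069 14 2 14022 ∧
    128587461382 ≤ seg 6553605 14 2 14092 ∧
    126742674097 ≤ seg 6619141 14 2 14162 ∧
    125193189067 ≤ seg 6684677 14 2 14231 ∧
    124485679727 ≤ seg 6750213 14 2 14300 ∧
    119785742417 ≤ seg 6815749 14 2 14368 ∧
    120732833600 ≤ seg 6881285 14 2 14437 ∧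
    120726578634 ≤ seg 6946821 14 2 14505 ∧
    118649387714 ≤ seg 7012357 14 2 14572 ∧
    117413207254 ≤ seg 7077893 14 2 14640 ∧
    116410822849 ≤ seg 7143429 14 2 14707 ∧
    114362390493 ≤ seg 7208965 14 2 14773 ∧
    114215216937 ≤ seg 7274501 14 2 14840 ∧
    112205333574 ≤ seg 7340037 14 2 14906 ∧
    110962055365 ≤ seg 7405573 14 2 14972 ∧
    109519035273 ≤ seg 7471109 14 2 15037 ∧
    109525275526 ≤ seg 7536645 14 2 15102 ∧
    108340556505 ≤ seg 7602181 14 2 15167 ∧
    109400909142 ≤ seg 7667717 14 2 15232 ∧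
    105529214231 ≤ seg 7733253 14 2 15296 ∧
    104807902626 ≤ seg 7798789 14 2 15361 ∧
    104516373581 ≤ seg 7864325 14 2 15424 ∧
    103103366758 ≤ seg 7929861 14 2 15488 :=
  ⟨by decide +kernel,
   by decide +kernel,
   by decide +kernel,
   by decide +kernel,
   by decide +kernel,
   by decide +kernel,
   by decide +kernel,
   by decide +kernel,
   by decide +kernel,
   by decide +kernel,
   by decide +kernel,
   by decide +kernel,
   by decide +kernel,
   by decide +kernel,
   by decide +kernel,
   by decide +kernel,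
   by decide +kernel,
   by decide +kernel,
   by decide +kernel,
   by decide +kernel,
   by decide +kernel,
   by decide +kernel,
   by decide +kernel,
   by decide +kernel,
   by decide +kernel,
   by decide +kernel,
   by decide +kernel,
   by decide +kernel,
   by decide +kernel,
   by decide +kernel,
   by decide +kernel,
   by decide +kernel,
   by decide +kernel,
   by decide +kernel,
   by decide +kernel,
   by decide +kernel,
   by decide +kernel,
   by decide +kernel,
   by decide +kernel⟩

end Pool.Agent.H18.Wolf
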