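import Pool.Agent.H18.WolfDefs

namespace Pool.Agent.H18.Wolf

theorem g3 :
    102023782157 ≤ seg 7995397 14 2 15551 ∧
    101220163832 ≤ seg 8060933 14 2 15614 ∧
    101891291568 ≤ seg 8126469 14 2 15677 ∧
    100675766541 ≤ seg 8192005 14 2 15740 ∧
    99401279677 ≤ seg 8257541 14 2 15802 ∧
    98669965830 ≤ seg 8323077 14 2 15864 ∧
    96487115340 ≤ seg 8388613 15 1 15926 ∧
    95846675659 ≤ seg 8454149 15 1 15988 ∧
    95922177898 ≤ seg 8519685 15 1 16049 ∧
    95056325728 ≤ seg 8585221 15 1 16110 ∧
    94437577814 ≤ seg 8650757 15 1 16171 ∧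
    92887057221 ≤ seg 8716293 15 1 16232 ∧
    92048491196 ≤ seg 8781829 15 1 16292 ∧
    91588444668 ≤ seg 8847365 15 1 16352 ∧
    91666909535 ≤ seg 8912901 15 1 16412 ∧
    90573138620 ≤ seg 8978437 15 1 16472 ∧
    88609698480 ≤ seg 9043973 15 1 16532 ∧
    89184114912 ≤ seg 9109509 15 1 16591 ∧
    88631505136 ≤ seg 9175045 15 1 16650 ∧
    86672140286 ≤ seg 9240581 15 1 16709 ∧
    87706985320 ≤ seg 9306117 15 1 16768 ∧
    85534602906 ≤ seg 9371653 15 1 16827 ∧
    85497616870 ≤ seg 9437189 15 1 16885 ∧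
    85939068409 ≤ seg 9502725 15 1 16943 ∧
    84778821898 ≤ seg 9568261 15 1 17001 ∧
    82999351820 ≤ seg 9633797 15 1 17059 ∧
    82496576070 ≤ seg 9699333 15 1 17116 ∧
    82507757717 ≤ seg 9764869 15 1 17174 ∧
    81365009534 ≤ seg 9830405 15 1 17231 ∧
    81822479856 ≤ seg 9895941 15 1 17288 ∧
    82053247129 ≤ seg 9961477 15 1 17344 ∧
    80786840593 ≤ seg 10027013 15 1 17401 ∧
    78869646008 ≤ seg 10092549 15 1 17457 ∧
    79474439584 ≤ seg 10158085 15 1 17514 ∧
    78615870079 ≤ seg 10223621 15 1 17570 ∧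
    77104471515 ≤ seg 10289157 15 1 17626 ∧
    77688507782 ≤ seg 10354693 15 1 17681 :=
  ⟨by decide +kernel,
   by decide +kernel,
   by decide +kernel,
   by decide +kernel,
   by decide +kernel,
   by decide +kernel,
   by decide +kernel,
   by decide +kernel,
   by decide +kernel,
   by decide +kernel,
   by decide +kernel,
   by decide +kernel,
   by decide +kernel,
   by decide +kernel,
   by decide +kernel,
   by decide +kernel,
   by decide +kernel,
   by decide +kernel,
   by decide +kernel,
   by decide +kernel,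
   by decide +kernel,
   by decide +kernel,
   by decide +kernel,
   by decide +kernel,
   by decide +kernel,
   by decide +kernel,
   by decide +kernel,
   by decide +kernel,
   by decide +kernel,
   by decide +kernel,
   by decide +kernel,
   by decide +kernel,
   by decide +kernel,
   by decide +kernel,
   by decide +kernel,
   by decide +kernel,
   by decide +kernel⟩

end Pool.Agent.H18.Wolf
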