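import Pool.Agent.H18.WolfCount
import Pool.Agent.H18.WolfG0
import Pool.Agent.H18.WolfG1
import Pool.Agent.H18.WolfG2
import Pool.Agent.H18.WolfG3

namespace Pool.Agent.H18.Wolf

theorem l0 : LB 5 309100387805943 :=
  lb_step lb_one
    g0.1
    (by decide +kernel)
theorem l1 : LB 517 650656649257413 :=
  lb_step l0
    g0.2.1
    (by decide +kernel)
theorem l2 : LB 1029 679610979236932 :=
  lb_step l1
    g0.2.2.1
    (by decide +kernel)
theorem l3 : LB 2053 704829130952537 :=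
  lb_step l2
    g0.2.2.2.1
    (by decide +kernel)
theorem l4 : LB 4101 727340688870412 :=
  lb_step l3
    g0.2.2.2.2.1
    (by decide +kernel)
theorem l5 : LB 8197 747623639004947 :=
  lb_step l4
    g0.2.2.2.2.2.1
    (by decide +kernel)
theorem l6 : LB 16389 766255465202371 :=
  lb_step l5
    g0.2.2.2.2.2.2.1
    (by decide +kernel)
theorem l7 : LB 32773 783228025678764 :=
  lb_step l6
    g0.2.2.2.2.2.2.2.1
    (by decide +kernel)
theorem l8 : LB 65541 798601504053878 :=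
  lb_step l7
    g0.2.2.2.2.2.2.2.2.1
    (by decide +kernel)
theorem l9 : LB 131077 812774994355145 :=
  lb_step l8
    g0.2.2.2.2.2.2.2.2.2.1
    (by decide +kernel)
theorem l10 : LB 196613 820500885315165 :=
  lb_step l9
    g0.2.2.2.2.2.2.2.2.2.2.1
    (by decide +kernel)
theorem l11 : LB 262149 825813015981419 :=
  lb_step l10
    g0.2.2.2.2.2.2.2.2.2.2.2.1
    (by decide +kernel)
theorem l12 : LB 327685 829753548331696 :=
  lb_step l11
    g0.2.2.2.2.2.2.2.2.2.2.2.2.1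
    (by decide +kernel)
theorem l13 : LB 393221 832873829900577 :=
  lb_step l12
    g0.2.2.2.2.2.2.2.2.2.2.2.2.2.1
    (by decide +kernel)
theorem l14 : LB 458757 835492587523005 :=
  lb_step l13
    g0.2.2.2.2.2.2.2.2.2.2.2.2.2.2.1
    (by decide +kernel)
theorem l15 : LB 524293 837738921069952 :=
  lb_step l14
    g0.2.2.2.2.2.2.2.2.2.2.2.2.2.2.2.1
    (by decide +kernel)
theorem l16 : LB 589829 839686652293218 :=
  lb_step l15
    g0.2.2.2.2.2.2.2.2.2.2.2.2.2.2.2.2.1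
    (by decide +kernel)
theorem l17 : LB 655365 841415998683519 :=
  lb_step l16
    g0.2.2.2.2.2.2.2.2.2.2.2.2.2.2.2.2.2.1
    (by decide +kernel)
theorem l18 : LB 720901 842968622900589 :=
  lb_step l17
    g0.2.2.2.2.2.2.2.2.2.2.2.2.2.2.2.2.2.2.1
    (by decide +kernel)
theorem l19 : LB 786437 844350203720409 :=
  lb_step l18
    g0.2.2.2.2.2.2.2.2.2.2.2.2.2.2.2.2.2.2.2.1
    (by decide +kernel)
theorem l20 : LB 851973 845622214221661 :=
  lb_step l19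
    g0.2.2.2.2.2.2.2.2.2.2.2.2.2.2.2.2.2.2.2.2.1
    (by decide +kernel)
theorem l21 : LB 917509 846794162290609 :=
  lb_step l20
    g0.2.2.2.2.2.2.2.2.2.2.2.2.2.2.2.2.2.2.2.2.2.1
    (by decide +kernel)
theorem l22 : LB 983045 847877813437548 :=
  lb_step l21
    g0.2.2.2.2.2.2.2.2.2.2.2.2.2.2.2.2.2.2.2.2.2.2.1
    (by decide +kernel)
theorem l23 : LB 1048581 848876061686357 :=
  lb_step l22
    g0.2.2.2.2.2.2.2.2.2.2.2.2.2.2.2.2.2.2.2.2.2.2.2.1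
    (by decide +kernel)
theorem l24 : LB 1114117 849812033848352 :=
  lb_step l23
    g0.2.2.2.2.2.2.2.2.2.2.2.2.2.2.2.2.2.2.2.2.2.2.2.2.1
    (by decide +kernel)
theorem l25 : LB 1179653 850682233644517 :=
  lb_step l24
    g0.2.2.2.2.2.2.2.2.2.2.2.2.2.2.2.2.2.2.2.2.2.2.2.2.2.1
    (by decide +kernel)
theorem l26 : LB 1245189 851495942938067 :=
  lb_step l25
    g0.2.2.2.2.2.2.2.2.2.2.2.2.2.2.2.2.2.2.2.2.2.2.2.2.2.2.1
    (by decide +kernel)
theorem l27 : LB 1310725 852277204517702 :=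
  lb_step l26
    g0.2.2.2.2.2.2.2.2.2.2.2.2.2.2.2.2.2.2.2.2.2.2.2.2.2.2.2.1
    (by decide +kernel)
theorem l28 : LB 1376261 853008807471343 :=
  lb_step l27
    g0.2.2.2.2.2.2.2.2.2.2.2.2.2.2.2.2.2.2.2.2.2.2.2.2.2.2.2.2.1
    (by decide +kernel)
theorem l29 : LB 1441797 853701039848143 :=
  lb_step l28
    g0.2.2.2.2.2.2.2.2.2.2.2.2.2.2.2.2.2.2.2.2.2.2.2.2.2.2.2.2.2.1
    (by decide +kernel)
theorem l30 : LB 1507333 854366599284481 :=
  lb_step l29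
    g0.2.2.2.2.2.2.2.2.2.2.2.2.2.2.2.2.2.2.2.2.2.2.2.2.2.2.2.2.2.2.1
    (by decide +kernel)
theorem l31 : LB 1572869 855004179108515 :=
  lb_step l30
    g0.2.2.2.2.2.2.2.2.2.2.2.2.2.2.2.2.2.2.2.2.2.2.2.2.2.2.2.2.2.2.2.1
    (by decide +kernel)
theorem l32 : LB 1638405 855606375040381 :=
  lb_step l31
    g0.2.2.2.2.2.2.2.2.2.2.2.2.2.2.2.2.2.2.2.2.2.2.2.2.2.2.2.2.2.2.2.2.1
    (by decide +kernel)
theorem l33 : LB 1703941 856187292385638 :=
  lb_step l32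
    g0.2.2.2.2.2.2.2.2.2.2.2.2.2.2.2.2.2.2.2.2.2.2.2.2.2.2.2.2.2.2.2.2.2.1
    (by decide +kernel)
theorem l34 : LB 1769477 856742431942486 :=
  lb_step l33
    g0.2.2.2.2.2.2.2.2.2.2.2.2.2.2.2.2.2.2.2.2.2.2.2.2.2.2.2.2.2.2.2.2.2.2.1
    (by decide +kernel)
theorem l35 : LB 1835013 857266176800597 :=
  lb_step l34
    g0.2.2.2.2.2.2.2.2.2.2.2.2.2.2.2.2.2.2.2.2.2.2.2.2.2.2.2.2.2.2.2.2.2.2.2.1
    (by decide +kernel)
theorem l36 : LB 1900549 857778739937250 :=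
  lb_step l35
    g0.2.2.2.2.2.2.2.2.2.2.2.2.2.2.2.2.2.2.2.2.2.2.2.2.2.2.2.2.2.2.2.2.2.2.2.2.1
    (by decide +kernel)
theorem l37 : LB 1966085 858272507537892 :=
  lb_step l36
    g0.2.2.2.2.2.2.2.2.2.2.2.2.2.2.2.2.2.2.2.2.2.2.2.2.2.2.2.2.2.2.2.2.2.2.2.2.2.1
    (by decide +kernel)
theorem l38 : LB 2031621 858749639194135 :=
  lb_step l37
    g0.2.2.2.2.2.2.2.2.2.2.2.2.2.2.2.2.2.2.2.2.2.2.2.2.2.2.2.2.2.2.2.2.2.2.2.2.2.2.1
    (by decide +kernel)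
theorem l39 : LB 2097157 859208792916856 :=
  lb_step l38
    g0.2.2.2.2.2.2.2.2.2.2.2.2.2.2.2.2.2.2.2.2.2.2.2.2.2.2.2.2.2.2.2.2.2.2.2.2.2.2.2.1
    (by decide +kernel)
theorem l40 : LB 2162693 859645266506582 :=
  lb_step l39
    g0.2.2.2.2.2.2.2.2.2.2.2.2.2.2.2.2.2.2.2.2.2.2.2.2.2.2.2.2.2.2.2.2.2.2.2.2.2.2.2.2.1
    (by decide +kernel)
theorem l41 : LB 2228229 860076060386775 :=
  lb_step l40
    g0.2.2.2.2.2.2.2.2.2.2.2.2.2.2.2.2.2.2.2.2.2.2.2.2.2.2.2.2.2.2.2.2.2.2.2.2.2.2.2.2.2.1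
    (by decide +kernel)
theorem l42 : LB 2293765 860483528642017 :=
  lb_step l41
    g0.2.2.2.2.2.2.2.2.2.2.2.2.2.2.2.2.2.2.2.2.2.2.2.2.2.2.2.2.2.2.2.2.2.2.2.2.2.2.2.2.2.2.1
    (by decide +kernel)
theorem l43 : LB 2359301 860880725470467 :=
  lb_step l42
    g0.2.2.2.2.2.2.2.2.2.2.2.2.2.2.2.2.2.2.2.2.2.2.2.2.2.2.2.2.2.2.2.2.2.2.2.2.2.2.2.2.2.2.2.1
    (by decide +kernel)
theorem l44 : LB 2424837 861276509086013 :=
  lb_step l43
    g0.2.2.2.2.2.2.2.2.2.2.2.2.2.2.2.2.2.2.2.2.2.2.2.2.2.2.2.2.2.2.2.2.2.2.2.2.2.2.2.2.2.2.2.2.1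
    (by decide +kernel)
theorem l45 : LB 2490373 861653529961124 :=
  lb_step l44
    g0.2.2.2.2.2.2.2.2.2.2.2.2.2.2.2.2.2.2.2.2.2.2.2.2.2.2.2.2.2.2.2.2.2.2.2.2.2.2.2.2.2.2.2.2.2.1
    (by decide +kernel)
theorem l46 : LB 2555909 862023017345409 :=
  lb_step l45
    g0.2.2.2.2.2.2.2.2.2.2.2.2.2.2.2.2.2.2.2.2.2.2.2.2.2.2.2.2.2.2.2.2.2.2.2.2.2.2.2.2.2.2.2.2.2.2.1
    (by decide +kernel)
theorem l47 : LB 2621445 862376127069792 :=
  lb_step l46
    g0.2.2.2.2.2.2.2.2.2.2.2.2.2.2.2.2.2.2.2.2.2.2.2.2.2.2.2.2.2.2.2.2.2.2.2.2.2.2.2.2.2.2.2.2.2.2.2.1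
    (by decide +kernel)
theorem l48 : LB 2686981 862723176049523 :=
  lb_step l47
    g0.2.2.2.2.2.2.2.2.2.2.2.2.2.2.2.2.2.2.2.2.2.2.2.2.2.2.2.2.2.2.2.2.2.2.2.2.2.2.2.2.2.2.2.2.2.2.2.2.1
    (by decide +kernel)
theorem l49 : LB 2752517 863060265729705 :=
  lb_step l48
    g0.2.2.2.2.2.2.2.2.2.2.2.2.2.2.2.2.2.2.2.2.2.2.2.2.2.2.2.2.2.2.2.2.2.2.2.2.2.2.2.2.2.2.2.2.2.2.2.2.2
    (by decide +kernel)
theorem l50 : LB 2818053 863389135250779 :=
  lb_step l49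
    g1.1
    (by decide +kernel)
theorem l51 : LB 2883589 863712676681804 :=
  lb_step l50
    g1.2.1
    (by decide +kernel)
theorem l52 : LB 2949125 864025345091832 :=
  lb_step l51
    g1.2.2.1
    (by decide +kernel)
theorem l53 : LB 3014661 864326898071649 :=
  lb_step l52
    g1.2.2.2.1
    (by decide +kernel)
theorem l54 : LB 3080197 864630213471048 :=
  lb_step l53
    g1.2.2.2.2.1
    (by decide +kernel)
theorem l55 : LB 3145733 864921153934704 :=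
  lb_step l54
    g1.2.2.2.2.2.1
    (by decide +kernel)
theorem l56 : LB 3211269 865205854323984 :=
  lb_step l55
    g1.2.2.2.2.2.2.1
    (by decide +kernel)
theorem l57 : LB 3276805 865479928061437 :=
  lb_step l56
    g1.2.2.2.2.2.2.2.1
    (by decide +kernel)
theorem l58 : LB 3342341 865750506437731 :=
  lb_step l57
    g1.2.2.2.2.2.2.2.2.1
    (by decide +kernel)
theorem l59 : LB 3407877 866016913329239 :=
  lb_step l58
    g1.2.2.2.2.2.2.2.2.2.1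
    (by decide +kernel)
theorem l60 : LB 3473413 866277159228100 :=
  lb_step l59
    g1.2.2.2.2.2.2.2.2.2.2.1
    (by decide +kernel)
theorem l61 : LB 3538949 866531618996842 :=
  lb_step l60
    g1.2.2.2.2.2.2.2.2.2.2.2.1
    (by decide +kernel)
theorem l62 : LB 3604485 866783750320636 :=
  lb_step l61
    g1.2.2.2.2.2.2.2.2.2.2.2.2.1
    (by decide +kernel)
theorem l63 : LB 3670021 867029365441412 :=
  lb_step l62
    g1.2.2.2.2.2.2.2.2.2.2.2.2.2.1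
    (by decide +kernel)
theorem l64 : LB 3735557 867268925930456 :=
  lb_step l63
    g1.2.2.2.2.2.2.2.2.2.2.2.2.2.2.1
    (by decide +kernel)
theorem l65 : LB 3801093 867505339427385 :=
  lb_step l64
    g1.2.2.2.2.2.2.2.2.2.2.2.2.2.2.2.1
    (by decide +kernel)
theorem l66 : LB 3866629 867734564988043 :=
  lb_step l65
    g1.2.2.2.2.2.2.2.2.2.2.2.2.2.2.2.2.1
    (by decide +kernel)
theorem l67 : LB 3932165 867963492919805 :=
  lb_step l66
    g1.2.2.2.2.2.2.2.2.2.2.2.2.2.2.2.2.2.1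
    (by decide +kernel)
theorem l68 : LB 3997701 868187290604620 :=
  lb_step l67
    g1.2.2.2.2.2.2.2.2.2.2.2.2.2.2.2.2.2.2.1
    (by decide +kernel)
theorem l69 : LB 4063237 868404266522326 :=
  lb_step l68
    g1.2.2.2.2.2.2.2.2.2.2.2.2.2.2.2.2.2.2.2.1
    (by decide +kernel)
theorem l70 : LB 4128773 868619387615875 :=
  lb_step l69
    g1.2.2.2.2.2.2.2.2.2.2.2.2.2.2.2.2.2.2.2.2.1
    (by decide +kernel)
theorem l71 : LB 4194309 868832863364205 :=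
  lb_step l70
    g1.2.2.2.2.2.2.2.2.2.2.2.2.2.2.2.2.2.2.2.2.2.1
    (by decide +kernel)
theorem l72 : LB 4259845 869042003478286 :=
  lb_step l71
    g1.2.2.2.2.2.2.2.2.2.2.2.2.2.2.2.2.2.2.2.2.2.2.1
    (by decide +kernel)
theorem l73 : LB 4325381 869244947685103 :=
  lb_step l72
    g1.2.2.2.2.2.2.2.2.2.2.2.2.2.2.2.2.2.2.2.2.2.2.2.1
    (by decide +kernel)
theorem l74 : LB 4390917 869445680535426 :=
  lb_step l73
    g1.2.2.2.2.2.2.2.2.2.2.2.2.2.2.2.2.2.2.2.2.2.2.2.2.1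
    (by decide +kernel)
theorem l75 : LB 4456453 869642170302201 :=
  lb_step l74
    g1.2.2.2.2.2.2.2.2.2.2.2.2.2.2.2.2.2.2.2.2.2.2.2.2.2.1
    (by decide +kernel)
theorem l76 : LB 4521989 869836199137498 :=
  lb_step l75
    g1.2.2.2.2.2.2.2.2.2.2.2.2.2.2.2.2.2.2.2.2.2.2.2.2.2.2.1
    (by decide +kernel)
theorem l77 : LB 4587525 870028139489658 :=
  lb_step l76
    g1.2.2.2.2.2.2.2.2.2.2.2.2.2.2.2.2.2.2.2.2.2.2.2.2.2.2.2.1
    (by decide +kernel)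
theorem l78 : LB 4653061 870215536059401 :=
  lb_step l77
    g1.2.2.2.2.2.2.2.2.2.2.2.2.2.2.2.2.2.2.2.2.2.2.2.2.2.2.2.2.1
    (by decide +kernel)
theorem l79 : LB 4718597 870400679074904 :=
  lb_step l78
    g1.2.2.2.2.2.2.2.2.2.2.2.2.2.2.2.2.2.2.2.2.2.2.2.2.2.2.2.2.2.1
    (by decide +kernel)
theorem l80 : LB 4784133 870585196377239 :=
  lb_step l79
    g1.2.2.2.2.2.2.2.2.2.2.2.2.2.2.2.2.2.2.2.2.2.2.2.2.2.2.2.2.2.2.1
    (by decide +kernel)
theorem l81 : LB 4849669 870765011490636 :=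
  lb_step l80
    g1.2.2.2.2.2.2.2.2.2.2.2.2.2.2.2.2.2.2.2.2.2.2.2.2.2.2.2.2.2.2.2.1
    (by decide +kernel)
theorem l82 : LB 4915205 870943493859412 :=
  lb_step l81
    g1.2.2.2.2.2.2.2.2.2.2.2.2.2.2.2.2.2.2.2.2.2.2.2.2.2.2.2.2.2.2.2.2.1
    (by decide +kernel)
theorem l83 : LB 4980741 871116705283613 :=
  lb_step l82
    g1.2.2.2.2.2.2.2.2.2.2.2.2.2.2.2.2.2.2.2.2.2.2.2.2.2.2.2.2.2.2.2.2.2.1
    (by decide +kernel)
theorem l84 : LB 5046277 871286687870856 :=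
  lb_step l83
    g1.2.2.2.2.2.2.2.2.2.2.2.2.2.2.2.2.2.2.2.2.2.2.2.2.2.2.2.2.2.2.2.2.2.2.1
    (by decide +kernel)
theorem l85 : LB 5111813 871454872142956 :=
  lb_step l84
    g1.2.2.2.2.2.2.2.2.2.2.2.2.2.2.2.2.2.2.2.2.2.2.2.2.2.2.2.2.2.2.2.2.2.2.2.1
    (by decide +kernel)
theorem l86 : LB 5177349 871623545539397 :=
  lb_step l85
    g1.2.2.2.2.2.2.2.2.2.2.2.2.2.2.2.2.2.2.2.2.2.2.2.2.2.2.2.2.2.2.2.2.2.2.2.2.1
    (by decide +kernel)
theorem l87 : LB 5242885 871788327342949 :=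
  lb_step l86
    g1.2.2.2.2.2.2.2.2.2.2.2.2.2.2.2.2.2.2.2.2.2.2.2.2.2.2.2.2.2.2.2.2.2.2.2.2.2.1
    (by decide +kernel)
theorem l88 : LB 5308421 871949018344359 :=
  lb_step l87
    g1.2.2.2.2.2.2.2.2.2.2.2.2.2.2.2.2.2.2.2.2.2.2.2.2.2.2.2.2.2.2.2.2.2.2.2.2.2.2.1
    (by decide +kernel)
theorem l89 : LB 5373957 872109308176570 :=
  lb_step l88
    g1.2.2.2.2.2.2.2.2.2.2.2.2.2.2.2.2.2.2.2.2.2.2.2.2.2.2.2.2.2.2.2.2.2.2.2.2.2.2.2.1
    (by decide +kernel)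
theorem l90 : LB 5439493 872268107721245 :=
  lb_step l89
    g1.2.2.2.2.2.2.2.2.2.2.2.2.2.2.2.2.2.2.2.2.2.2.2.2.2.2.2.2.2.2.2.2.2.2.2.2.2.2.2.2
    (by decide +kernel)
theorem l91 : LB 5505029 872424243809564 :=
  lb_step l90
    g2.1
    (by decide +kernel)
theorem l92 : LB 5570565 872580137703741 :=
  lb_step l91
    g2.2.1
    (by decide +kernel)
theorem l93 : LB 5636101 872734320153204 :=
  lb_step l92
    g2.2.2.1
    (by decide +kernel)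
theorem l94 : LB 5701637 872884563371967 :=
  lb_step l93
    g2.2.2.2.1
    (by decide +kernel)
theorem l95 : LB 5767173 873033408994435 :=
  lb_step l94
    g2.2.2.2.2.1
    (by decide +kernel)
theorem l96 : LB 5832709 873180107109303 :=
  lb_step l95
    g2.2.2.2.2.2.1
    (by decide +kernel)
theorem l97 : LB 5898245 873326082201703 :=
  lb_step l96
    g2.2.2.2.2.2.2.1
    (by decide +kernel)
theorem l98 : LB 5963781 873471145164976 :=
  lb_step l97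
    g2.2.2.2.2.2.2.2.1
    (by decide +kernel)
theorem l99 : LB 6029317 873611524646450 :=
  lb_step l98
    g2.2.2.2.2.2.2.2.2.1
    (by decide +kernel)
theorem l100 : LB 6094853 873750568157302 :=
  lb_step l99
    g2.2.2.2.2.2.2.2.2.2.1
    (by decide +kernel)
theorem l101 : LB 6160389 873887132402032 :=
  lb_step l100
    g2.2.2.2.2.2.2.2.2.2.2.1
    (by decide +kernel)
theorem l102 : LB 6225925 874023946450326 :=
  lb_step l101
    g2.2.2.2.2.2.2.2.2.2.2.2.1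
    (by decide +kernel)
theorem l103 : LB 6291461 874158535382878 :=
  lb_step l102
    g2.2.2.2.2.2.2.2.2.2.2.2.2.1
    (by decide +kernel)
theorem l104 : LB 6356997 874290433574058 :=
  lb_step l103
    g2.2.2.2.2.2.2.2.2.2.2.2.2.2.1
    (by decide +kernel)
theorem l105 : LB 6422533 874420797535421 :=
  lb_step l104
    g2.2.2.2.2.2.2.2.2.2.2.2.2.2.2.1
    (by decide +kernel)
theorem l106 : LB 6488069 874550902181814 :=
  lb_step l105
    g2.2.2.2.2.2.2.2.2.2.2.2.2.2.2.2.1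
    (by decide +kernel)
theorem l107 : LB 6553605 874678420372284 :=
  lb_step l106
    g2.2.2.2.2.2.2.2.2.2.2.2.2.2.2.2.2.1
    (by decide +kernel)
theorem l108 : LB 6619141 874807007833666 :=
  lb_step l107
    g2.2.2.2.2.2.2.2.2.2.2.2.2.2.2.2.2.2.1
    (by decide +kernel)
theorem l109 : LB 6684677 874933750507763 :=
  lb_step l108
    g2.2.2.2.2.2.2.2.2.2.2.2.2.2.2.2.2.2.2.1
    (by decide +kernel)
theorem l110 : LB 6750213 875058943696830 :=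
  lb_step l109
    g2.2.2.2.2.2.2.2.2.2.2.2.2.2.2.2.2.2.2.2.1
    (by decide +kernel)
theorem l111 : LB 6815749 875183429376557 :=
  lb_step l110
    g2.2.2.2.2.2.2.2.2.2.2.2.2.2.2.2.2.2.2.2.2.1
    (by decide +kernel)
theorem l112 : LB 6881285 875303215118974 :=
  lb_step l111
    g2.2.2.2.2.2.2.2.2.2.2.2.2.2.2.2.2.2.2.2.2.2.1
    (by decide +kernel)
theorem l113 : LB 6946821 875423947952574 :=
  lb_step l112
    g2.2.2.2.2.2.2.2.2.2.2.2.2.2.2.2.2.2.2.2.2.2.2.1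
    (by decide +kernel)
theorem l114 : LB 7012357 875544674531208 :=
  lb_step l113
    g2.2.2.2.2.2.2.2.2.2.2.2.2.2.2.2.2.2.2.2.2.2.2.2.1
    (by decide +kernel)
theorem l115 : LB 7077893 875663323918922 :=
  lb_step l114
    g2.2.2.2.2.2.2.2.2.2.2.2.2.2.2.2.2.2.2.2.2.2.2.2.2.1
    (by decide +kernel)
theorem l116 : LB 7143429 875780737126176 :=
  lb_step l115
    g2.2.2.2.2.2.2.2.2.2.2.2.2.2.2.2.2.2.2.2.2.2.2.2.2.2.1
    (by decide +kernel)
theorem l117 : LB 7208965 875897147949025 :=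
  lb_step l116
    g2.2.2.2.2.2.2.2.2.2.2.2.2.2.2.2.2.2.2.2.2.2.2.2.2.2.2.1
    (by decide +kernel)
theorem l118 : LB 7274501 876011510339518 :=
  lb_step l117
    g2.2.2.2.2.2.2.2.2.2.2.2.2.2.2.2.2.2.2.2.2.2.2.2.2.2.2.2.1
    (by decide +kernel)
theorem l119 : LB 7340037 876125725556455 :=
  lb_step l118
    g2.2.2.2.2.2.2.2.2.2.2.2.2.2.2.2.2.2.2.2.2.2.2.2.2.2.2.2.2.1
    (by decide +kernel)
theorem l120 : LB 7405573 876237930890029 :=
  lb_step l119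
    g2.2.2.2.2.2.2.2.2.2.2.2.2.2.2.2.2.2.2.2.2.2.2.2.2.2.2.2.2.2.1
    (by decide +kernel)
theorem l121 : LB 7471109 876348892945394 :=
  lb_step l120
    g2.2.2.2.2.2.2.2.2.2.2.2.2.2.2.2.2.2.2.2.2.2.2.2.2.2.2.2.2.2.2.1
    (by decide +kernel)
theorem l122 : LB 7536645 876458411980667 :=
  lb_step l121
    g2.2.2.2.2.2.2.2.2.2.2.2.2.2.2.2.2.2.2.2.2.2.2.2.2.2.2.2.2.2.2.2.1
    (by decide +kernel)
theorem l123 : LB 7602181 876567937256193 :=
  lb_step l122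
    g2.2.2.2.2.2.2.2.2.2.2.2.2.2.2.2.2.2.2.2.2.2.2.2.2.2.2.2.2.2.2.2.2.1
    (by decide +kernel)
theorem l124 : LB 7667717 876676277812698 :=
  lb_step l123
    g2.2.2.2.2.2.2.2.2.2.2.2.2.2.2.2.2.2.2.2.2.2.2.2.2.2.2.2.2.2.2.2.2.2.1
    (by decide +kernel)
theorem l125 : LB 7733253 876785678721840 :=
  lb_step l124
    g2.2.2.2.2.2.2.2.2.2.2.2.2.2.2.2.2.2.2.2.2.2.2.2.2.2.2.2.2.2.2.2.2.2.2.1
    (by decide +kernel)
theorem l126 : LB 7798789 876891207936071 :=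
  lb_step l125
    g2.2.2.2.2.2.2.2.2.2.2.2.2.2.2.2.2.2.2.2.2.2.2.2.2.2.2.2.2.2.2.2.2.2.2.2.1
    (by decide +kernel)
theorem l127 : LB 7864325 876996015838697 :=
  lb_step l126
    g2.2.2.2.2.2.2.2.2.2.2.2.2.2.2.2.2.2.2.2.2.2.2.2.2.2.2.2.2.2.2.2.2.2.2.2.2.1
    (by decide +kernel)
theorem l128 : LB 7929861 877100532212278 :=
  lb_step l127
    g2.2.2.2.2.2.2.2.2.2.2.2.2.2.2.2.2.2.2.2.2.2.2.2.2.2.2.2.2.2.2.2.2.2.2.2.2.2.1
    (by decide +kernel)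
theorem l129 : LB 7995397 877203635579036 :=
  lb_step l128
    g2.2.2.2.2.2.2.2.2.2.2.2.2.2.2.2.2.2.2.2.2.2.2.2.2.2.2.2.2.2.2.2.2.2.2.2.2.2.2
    (by decide +kernel)
theorem l130 : LB 8060933 877305659361193 :=
  lb_step l129
    g3.1
    (by decide +kernel)
theorem l131 : LB 8126469 877406879525025 :=
  lb_step l130
    g3.2.1
    (by decide +kernel)
theorem l132 : LB 8192005 877508770816593 :=
  lb_step l131
    g3.2.2.1
    (by decide +kernel)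
theorem l133 : LB 8257541 877609446583134 :=
  lb_step l132
    g3.2.2.2.1
    (by decide +kernel)
theorem l134 : LB 8323077 877708847862811 :=
  lb_step l133
    g3.2.2.2.2.1
    (by decide +kernel)
theorem l135 : LB 8388613 877807517828641 :=
  lb_step l134
    g3.2.2.2.2.2.1
    (by decide +kernel)
theorem l136 : LB 8454149 877904004943981 :=
  lb_step l135
    g3.2.2.2.2.2.2.1
    (by decide +kernel)
theorem l137 : LB 8519685 877999851619640 :=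
  lb_step l136
    g3.2.2.2.2.2.2.2.1
    (by decide +kernel)
theorem l138 : LB 8585221 878095773797538 :=
  lb_step l137
    g3.2.2.2.2.2.2.2.2.1
    (by decide +kernel)
theorem l139 : LB 8650757 878190830123266 :=
  lb_step l138
    g3.2.2.2.2.2.2.2.2.2.1
    (by decide +kernel)
theorem l140 : LB 8716293 878285267701080 :=
  lb_step l139
    g3.2.2.2.2.2.2.2.2.2.2.1
    (by decide +kernel)
theorem l141 : LB 8781829 878378154758301 :=
  lb_step l140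
    g3.2.2.2.2.2.2.2.2.2.2.2.1
    (by decide +kernel)
theorem l142 : LB 8847365 878470203249497 :=
  lb_step l141
    g3.2.2.2.2.2.2.2.2.2.2.2.2.1
    (by decide +kernel)
theorem l143 : LB 8912901 878561791694165 :=
  lb_step l142
    g3.2.2.2.2.2.2.2.2.2.2.2.2.2.1
    (by decide +kernel)
theorem l144 : LB 8978437 878653458603700 :=
  lb_step l143
    g3.2.2.2.2.2.2.2.2.2.2.2.2.2.2.1
    (by decide +kernel)
theorem l145 : LB 9043973 878744031742320 :=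
  lb_step l144
    g3.2.2.2.2.2.2.2.2.2.2.2.2.2.2.2.1
    (by decide +kernel)
theorem l146 : LB 9109509 878832641440800 :=
  lb_step l145
    g3.2.2.2.2.2.2.2.2.2.2.2.2.2.2.2.2.1
    (by decide +kernel)
theorem l147 : LB 9175045 878921825555712 :=
  lb_step l146
    g3.2.2.2.2.2.2.2.2.2.2.2.2.2.2.2.2.2.1
    (by decide +kernel)
theorem l148 : LB 9240581 879010457060848 :=
  lb_step l147
    g3.2.2.2.2.2.2.2.2.2.2.2.2.2.2.2.2.2.2.1
    (by decide +kernel)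
theorem l149 : LB 9306117 879097129201134 :=
  lb_step l148
    g3.2.2.2.2.2.2.2.2.2.2.2.2.2.2.2.2.2.2.2.1
    (by decide +kernel)
theorem l150 : LB 9371653 879184836186454 :=
  lb_step l149
    g3.2.2.2.2.2.2.2.2.2.2.2.2.2.2.2.2.2.2.2.2.1
    (by decide +kernel)
theorem l151 : LB 9437189 879270370789360 :=
  lb_step l150
    g3.2.2.2.2.2.2.2.2.2.2.2.2.2.2.2.2.2.2.2.2.2.1
    (by decide +kernel)
theorem l152 : LB 9502725 879355868406230 :=
  lb_step l151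
    g3.2.2.2.2.2.2.2.2.2.2.2.2.2.2.2.2.2.2.2.2.2.2.1
    (by decide +kernel)
theorem l153 : LB 9568261 879441807474639 :=
  lb_step l152
    g3.2.2.2.2.2.2.2.2.2.2.2.2.2.2.2.2.2.2.2.2.2.2.2.1
    (by decide +kernel)
theorem l154 : LB 9633797 879526586296537 :=
  lb_step l153
    g3.2.2.2.2.2.2.2.2.2.2.2.2.2.2.2.2.2.2.2.2.2.2.2.2.1
    (by decide +kernel)
theorem l155 : LB 9699333 879609585648357 :=
  lb_step l154
    g3.2.2.2.2.2.2.2.2.2.2.2.2.2.2.2.2.2.2.2.2.2.2.2.2.2.1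
    (by decide +kernel)
theorem l156 : LB 9764869 879692082224427 :=
  lb_step l155
    g3.2.2.2.2.2.2.2.2.2.2.2.2.2.2.2.2.2.2.2.2.2.2.2.2.2.2.1
    (by decide +kernel)
theorem l157 : LB 9830405 879774589982144 :=
  lb_step l156
    g3.2.2.2.2.2.2.2.2.2.2.2.2.2.2.2.2.2.2.2.2.2.2.2.2.2.2.2.1
    (by decide +kernel)
theorem l158 : LB 9895941 879855954991678 :=
  lb_step l157
    g3.2.2.2.2.2.2.2.2.2.2.2.2.2.2.2.2.2.2.2.2.2.2.2.2.2.2.2.2.1
    (by decide +kernel)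
theorem l159 : LB 9961477 879937777471534 :=
  lb_step l158
    g3.2.2.2.2.2.2.2.2.2.2.2.2.2.2.2.2.2.2.2.2.2.2.2.2.2.2.2.2.2.1
    (by decide +kernel)
theorem l160 : LB 10027013 880019830718663 :=
  lb_step l159
    g3.2.2.2.2.2.2.2.2.2.2.2.2.2.2.2.2.2.2.2.2.2.2.2.2.2.2.2.2.2.2.1
    (by decide +kernel)
theorem l161 : LB 10092549 880100617559256 :=
  lb_step l160
    g3.2.2.2.2.2.2.2.2.2.2.2.2.2.2.2.2.2.2.2.2.2.2.2.2.2.2.2.2.2.2.2.1
    (by decide +kernel)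
theorem l162 : LB 10158085 880179487205264 :=
  lb_step l161
    g3.2.2.2.2.2.2.2.2.2.2.2.2.2.2.2.2.2.2.2.2.2.2.2.2.2.2.2.2.2.2.2.2.1
    (by decide +kernel)
theorem l163 : LB 10223621 880258961644848 :=
  lb_step l162
    g3.2.2.2.2.2.2.2.2.2.2.2.2.2.2.2.2.2.2.2.2.2.2.2.2.2.2.2.2.2.2.2.2.2.1
    (by decide +kernel)
theorem l164 : LB 10289157 880337577514927 :=
  lb_step l163
    g3.2.2.2.2.2.2.2.2.2.2.2.2.2.2.2.2.2.2.2.2.2.2.2.2.2.2.2.2.2.2.2.2.2.2.1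
    (by decide +kernel)
theorem l165 : LB 10354693 880414681986442 :=
  lb_step l164
    g3.2.2.2.2.2.2.2.2.2.2.2.2.2.2.2.2.2.2.2.2.2.2.2.2.2.2.2.2.2.2.2.2.2.2.2.1
    (by decide +kernel)
theorem l166 : LB 10420229 880492370494224 :=
  lb_step l165
    g3.2.2.2.2.2.2.2.2.2.2.2.2.2.2.2.2.2.2.2.2.2.2.2.2.2.2.2.2.2.2.2.2.2.2.2.2
    (by decide +kernel)

end Pool.Agent.H18.Wolf
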