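import Pool.Agent.H18.WolfSieve

namespace Pool.Agent.H18.Wolf

open Finset

def cnt (P : List ℕ) (i : ℕ) : ℕ := List.rec 0 (fun x _ ih => (x.testBit i).toNat + 2 * ih) P

lemma cnt_cons (x : ℕ) (P : List ℕ) (i : ℕ) :
    cnt (x :: P) i = (x.testBit i).toNat + 2 * cnt P i := rfl

lemma cnt_nil (i : ℕ) : cnt [] i = 0 := rfl

lemma tot_eq (P : List ℕ) : tot P = cnt P 0 := by
  induction P with
  | nil => rfl
  | cons x P ih =>
    rw [cnt_cons, ← ih, Nat.testBit_zero]
    show x % 2 + 2 * tot P = _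
    rcases Nat.mod_two_eq_zero_or_one x with h | h <;> simp [h]

lemma fadd_cons (l x : ℕ) (P : List ℕ) (c : ℕ) : fadd l (x :: P) c =
    ((x % 2 ^ l ^^^ x >>> l) ^^^ c) ::
      fadd l P ((x % 2 ^ l &&& x >>> l) ||| (c &&& (x % 2 ^ l ^^^ x >>> l))) := rfl

lemma fadd_spec {l i : ℕ} (hi : i < l) (P : List ℕ) : ∀ c, cnt (fadd l P c) i =
    cnt P i + cnt P (l + i) + (c.testBit i).toNat := by
  induction P with
  | nil => intro c; show (c.testBit i).toNat + 2 * 0 = 0 + 0 + _; omega
  | cons x P ih =>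
    intro c
    rw [fadd_cons, cnt_cons, ih, cnt_cons, cnt_cons]
    simp only [Nat.testBit_xor, Nat.testBit_or, Nat.testBit_and, Nat.testBit_mod_two_pow,
      Nat.testBit_shiftRight, hi, decide_true, Bool.true_and]
    cases x.testBit i <;> cases x.testBit (l + i) <;> cases c.testBit i <;> simp <;> omega

lemma pcnt_spec (k : ℕ) : ∀ P, pcnt k P = ∑ i ∈ range (2 ^ k), cnt P i := by
  induction k with
  | zero => intro P; simp [pcnt, tot_eq]
  | succ k ih =>
    intro P
    show pcnt k (fadd (2 ^ k) P 0) = _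
    rw [ih, pow_succ, mul_two, Finset.sum_range_add, ← Finset.sum_add_distrib]
    apply Finset.sum_congr rfl
    intro i hi
    rw [fadd_spec (mem_range.mp hi)]
    simp

noncomputable def w (n : ℕ) : ℝ := 1 / (n : ℝ) + 1 / ((n : ℝ) + 6)

lemma wt_le {n m : ℕ} (hn : 0 < n) (h : n ≤ m) : (wt m : ℝ) ≤ S * w n := by
  unfold wt w
  have h1 : ((S / m : ℕ) : ℝ) ≤ S / m := Nat.cast_div_le
  have h2 : ((S / (m + 6) : ℕ) : ℝ) ≤ S / ((m + 6 : ℕ) : ℝ) := Nat.cast_div_le
  have hn' : (0 : ℝ) < n := by exact_mod_cast hn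
  have h' : (n : ℝ) ≤ m := by exact_mod_cast h
  have hS : (0 : ℝ) ≤ S := by positivity
  have h3 : (S : ℝ) / m ≤ S / n := div_le_div_of_nonneg_left hS hn' h'
  have h4 : (S : ℝ) / ((m + 6 : ℕ) : ℝ) ≤ S / (n + 6) := by
    push_cast
    exact div_le_div_of_nonneg_left hS (by positivity) (by linarith)
  push_cast at h2 h4 ⊢
  rw [mul_add, mul_one_div, mul_one_div]
  linarith

lemma wsum_succ (k0 r k x J : ℕ) : wsum k0 r (k + 1) x J =
    wsum k0 r k (x % 2 ^ 2 ^ (k0 + k)) J + wsum k0 r k (x >>> 2 ^ (k0 + k)) (J + 2 ^ (k0 + k)) :=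
  rfl

lemma wsum_spec {k0 r : ℕ} (hr : 0 < r) (k : ℕ) : ∀ x J, (wsum k0 r k x J : ℝ) ≤
    S * ∑ i ∈ range (2 ^ (k0 + k)), ((x.testBit i).toNat : ℝ) * w (30 * (J + i) + r) := by
  induction k with
  | zero =>
    intro x J
    show ((pcnt k0 [x] * wt (30 * (J + 2 ^ k0 - 1) + r) : ℕ) : ℝ) ≤ _
    rw [pcnt_spec, Finset.sum_mul, Finset.mul_sum, add_zero]
    push_cast
    apply Finset.sum_le_sum
    intro i hi
    rw [mem_range] at hi
    rw [cnt_cons, cnt_nil, mul_zero, add_zero, mul_left_comm]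
    exact mul_le_mul_of_nonneg_left (wt_le (by omega) (by omega)) (by positivity)
  | succ k ih =>
    intro x J
    rw [wsum_succ, ← add_assoc, pow_succ, mul_two, Finset.sum_range_add, mul_add]
    push_cast
    apply add_le_add
    · refine (ih _ _).trans (le_of_eq ?_)
      congr 1
      apply Finset.sum_congr rfl
      intro i hi
      rw [Nat.testBit_mod_two_pow]
      simp [mem_range.mp hi]
    · refine (ih _ _).trans (le_of_eq ?_)
      congr 1
      apply Finset.sum_congr rfl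
      intro i _
      rw [Nat.testBit_shiftRight, add_assoc]

/-- `p` and `p + h` are consecutive primes -/
def GapPair (h p : ℕ) : Prop := p.Prime ∧ (p + h).Prime ∧ ∀ q, p < q → q < p + h → ¬ q.Prime

open Classical in
/-- the contribution of `p` to the generalized Brun constant of gap `h` -/
noncomputable def term (h p : ℕ) : ℝ := if GapPair h p then 1 / (p : ℝ) + 1 / ((p : ℝ) + h) else 0

lemma term_nonneg (h p : ℕ) : 0 ≤ term h p := by
  unfold term
  split_ifs <;> positivity

lemma pat_bit {x y z i : ℕ} (h : (pat x y z).testBit i = true) :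
    x.testBit i = false ∧ y.testBit i = false ∧ z.testBit i = true := by
  unfold pat at h
  simp only [Nat.testBit_xor, Nat.testBit_or] at h
  revert h
  cases x.testBit i <;> cases y.testBit i <;> cases z.testBit i <;> simp

lemma le_term {b : Bool} {p : ℕ} (h : b = true → GapPair 6 p) : (b.toNat : ℝ) * w p ≤ term 6 p := by
  cases b
  · simpa using term_nonneg 6 p
  · unfold term w
    rw [if_pos (h rfl)]
    simp

lemma prime_mod {q : ℕ} (hq : q.Prime) (h : 5 < q) : q % 2 ≠ 0 ∧ q % 3 ≠ 0 ∧ q % 5 ≠ 0 := by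
  refine ⟨fun h1 => ?_, fun h1 => ?_, fun h1 => ?_⟩ <;>
  · have := (Nat.dvd_prime hq).mp (Nat.dvd_of_mod_eq_zero h1)
    omega

noncomputable def A (j : ℕ) : ℝ := ∑ s ∈ range 30, term 6 (30 * j + s)

lemma A_ge (j : ℕ) : term 6 (30 * j + 1) + term 6 (30 * j + 7) + term 6 (30 * j + 11) +
    term 6 (30 * j + 13) + term 6 (30 * j + 17) + term 6 (30 * j + 23) ≤ A j := by
  have h : ({1, 7, 11, 13, 17, 23} : Finset ℕ) ⊆ range 30 := by decide
  have := Finset.sum_le_sum_of_subset_of_nonneg (f := fun s => term 6 (30 * j + s)) h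
    (fun s _ _ => term_nonneg _ _)
  unfold A
  refine le_trans (le_of_eq ?_) this
  rw [Finset.sum_insert (by decide), Finset.sum_insert (by decide), Finset.sum_insert (by decide),
    Finset.sum_insert (by decide), Finset.sum_insert (by decide), Finset.sum_singleton]
  ring

lemma gp {B L D i r m z : ℕ} (hr : r + 6 < 30) (hr1 : Nat.gcd r 30 = 1)
    (hr2 : Nat.gcd (r + 6) 30 = 1) (hL : L ≤ 2 ^ 32) (hB : 1 ≤ B)
    (hD' : 30 * (B + L) ≤ (D + 1) ^ 2) (hD1 : D < 17800) (hi : i < L)
    (hz : z.testBit i = true → ¬ (30 * (B + i) + m).Prime)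
    (hm : ∀ s, r < s → s < r + 6 → s % 2 = 0 ∨ s % 3 = 0 ∨ s % 5 = 0 ∨ s = m)
    (h : (pat (cls B L D r) (cls B L D (r + 6)) z).testBit i = true) :
    GapPair 6 (30 * (B + i) + r) := by
  obtain ⟨h1, h2, h3⟩ := pat_bit h
  refine ⟨cls_prime (by omega) hr1 hL hB hD' hD1 hi h1, ?_, ?_⟩
  · rw [add_assoc]; exact cls_prime hr hr2 hL hB hD' hD1 hi h2
  · intro q hq1 hq2 hq
    have h4 := prime_mod hq (by omega)
    have h5 := hm (q - 30 * (B + i)) (by omega) (by omega)
    have h6 : q = 30 * (B + i) + m := by omega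
    exact hz h3 (h6 ▸ hq)

lemma seg_le {B k0 k D : ℕ} (hK : k0 + k ≤ 32) (hD : D < 30 * B)
    (hD' : 30 * (B + 2 ^ (k0 + k)) ≤ (D + 1) ^ 2) (hD1 : D < 17800) :
    (seg B k0 k D : ℝ) ≤ S * ∑ i ∈ range (2 ^ (k0 + k)), A (B + i) := by
  have hL : 2 ^ (k0 + k) ≤ 2 ^ 32 := Nat.pow_le_pow_right (by norm_num) hK
  have hB : 1 ≤ B := by omega
  unfold seg seg'
  push_cast
  refine (add_le_add (add_le_add (add_le_add (add_le_add (add_le_add
    (wsum_spec (by norm_num) _ _ _) (wsum_spec (by norm_num) _ _ _))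
    (wsum_spec (by norm_num) _ _ _)) (wsum_spec (by norm_num) _ _ _))
    (wsum_spec (by norm_num) _ _ _)) (wsum_spec (by norm_num) _ _ _)).trans ?_
  simp only [← mul_add, ← Finset.sum_add_distrib]
  apply mul_le_mul_of_nonneg_left _ (by positivity)
  apply Finset.sum_le_sum
  intro i hi
  rw [mem_range] at hi
  refine le_trans ?_ (A_ge (B + i))
  have h0 : ¬ (30 * (B + i) + 0).Prime := fun h => by
    have := prime_mod h (by omega); omega
  refine add_le_add (add_le_add (add_le_add (add_le_add (add_le_add (le_term ?_) (le_term ?_))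
    (le_term ?_)) (le_term ?_)) (le_term ?_)) (le_term ?_)
  · exact gp (m := 0) (by norm_num) (by norm_num) (by norm_num) hL hB hD' hD1 hi (fun _ => h0)
      (by intro s h1 h2; interval_cases s <;> omega)
  · exact gp (m := 11) (by norm_num) (by norm_num) (by norm_num) hL hB hD' hD1 hi
      (cls_comp (by norm_num) hL hD) (by intro s h1 h2; interval_cases s <;> omega)
  · exact gp (m := 13) (by norm_num) (by norm_num) (by norm_num) hL hB hD' hD1 hi
      (cls_comp (by norm_num) hL hD) (by intro s h1 h2; interval_cases s <;> omega)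
  · exact gp (m := 17) (by norm_num) (by norm_num) (by norm_num) hL hB hD' hD1 hi
      (cls_comp (by norm_num) hL hD) (by intro s h1 h2; interval_cases s <;> omega)
  · exact gp (m := 19) (by norm_num) (by norm_num) (by norm_num) hL hB hD' hD1 hi
      (cls_comp (by norm_num) hL hD) (by intro s h1 h2; interval_cases s <;> omega)
  · exact gp (m := 0) (by norm_num) (by norm_num) (by norm_num) hL hB hD' hD1 hi (fun _ => h0)
      (by intro s h1 h2; interval_cases s <;> omega)

/-- the lower bound `x / S` for the partial sum over `p < 30 * J` -/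
def LB (J x : ℕ) : Prop := (x : ℝ) ≤ S * ∑ j ∈ range J, A j

lemma lb_step {B k0 k D x t B' x' : ℕ} (h : LB B x) (ht : t ≤ seg B k0 k D)
    (hc : k0 + k ≤ 32 ∧ D < 30 * B ∧ 30 * (B + 2 ^ (k0 + k)) ≤ (D + 1) ^ 2 ∧ D < 17800 ∧
      B' = B + 2 ^ (k0 + k) ∧ x' = x + t) : LB B' x' := by
  obtain ⟨h1, h2, h3, h3', rfl, rfl⟩ := hc
  unfold LB at *
  have h4 := seg_le h1 h2 h3 h3'
  have h5 : (t : ℝ) ≤ seg B k0 k D := by exact_mod_cast ht
  rw [Finset.sum_range_add, mul_add]
  push_cast
  linarith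

lemma lb_one : LB 1 77961019490254 := by
  unfold LB
  have h1 := A_ge 0
  have h2 : term 6 (30 * 0 + 23) = 1 / 23 + 1 / 29 := by
    unfold term
    rw [if_pos]
    · norm_num
    · refine ⟨by norm_num, by norm_num, ?_⟩
      intro q h1 h2
      have : 23 < q := h1
      have : q < 29 := h2
      interval_cases q <;> norm_num
  have := term_nonneg 6 (30 * 0 + 1)
  have := term_nonneg 6 (30 * 0 + 7)
  have := term_nonneg 6 (30 * 0 + 11)
  have := term_nonneg 6 (30 * 0 + 13)
  have := term_nonneg 6 (30 * 0 + 17)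
  rw [Finset.sum_range_one]
  unfold S
  push_cast
  linarith

lemma sum_A (J : ℕ) : ∑ j ∈ range J, A j = ∑ p ∈ range (30 * J), term 6 p := by
  induction J with
  | zero => simp
  | succ J ih => rw [Finset.sum_range_succ, ih, mul_add, mul_one, Finset.sum_range_add]; rfl

end Pool.Agent.H18.Wolf
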