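import Pool.Agent.H18.WolfDefs

namespace Pool.Agent.H18.Wolf

def MI (p m s : ℕ) : Prop := ∀ i, m.testBit i = true ↔ (p ∣ i ∧ i < s)

lemma mi_step {p m s t : ℕ} (h : MI p m s) (ht : p ∣ t) (hts : t ≤ s) :
    MI p (m ||| (m <<< t)) (s + t) := by
  intro i
  rw [Nat.testBit_or, Nat.testBit_shiftLeft, Bool.or_eq_true, Bool.and_eq_true, h, h,
    decide_eq_true_iff]
  constructor
  · rintro (⟨h1, h2⟩ | ⟨h1, h2, h3⟩)
    · exact ⟨h1, by omega⟩
    · refine ⟨?_, by omega⟩
      have := dvd_add h2 ht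
      rwa [Nat.sub_add_cancel h1] at this
  · rintro ⟨h1, h2⟩
    by_cases h3 : i < s
    · exact Or.inl ⟨h1, h3⟩
    · exact Or.inr ⟨by omega, Nat.dvd_sub h1 ht, by omega⟩

lemma mgo_succ (p L f m s : ℕ) : mgo p L (f + 1) m s = bif Nat.ble L s then m else
      bif Nat.ble (s + s) L then mgo p L f (m ||| (m <<< s)) (s + s)
      else m ||| (m <<< (((L - s - 1) / p + 1) * p)) := by
  show (Bool.rec (Bool.rec _ _ (Nat.ble (s + s) L)) _ (Nat.ble L s) : ℕ) = _
  cases Nat.ble L s <;> cases Nat.ble (s + s) L <;> rfl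

lemma mgo_spec {p L : ℕ} (hp : 0 < p) (f : ℕ) : ∀ m s, MI p m s → p ∣ s → L ≤ s * 2 ^ f →
    ∃ s', L ≤ s' ∧ MI p (mgo p L f m s) s' := by
  induction f with
  | zero => intro m s h _ hL; exact ⟨s, by simpa using hL, h⟩
  | succ f ih =>
    intro m s h hs hL
    rw [mgo_succ]
    by_cases h1 : L ≤ s
    · rw [Nat.ble_eq.mpr h1]
      exact ⟨s, h1, h⟩
    · rw [Bool.eq_false_iff.mpr (fun h => h1 (Nat.ble_eq.mp h))]
      by_cases h2 : s + s ≤ L
      · rw [Nat.ble_eq.mpr h2]
        refine ih _ _ (mi_step h hs le_rfl) (dvd_add hs hs) ?_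
        rw [pow_succ] at hL; nlinarith
      · rw [Bool.eq_false_iff.mpr (fun h => h2 (Nat.ble_eq.mp h))]
        have h3 := Nat.div_add_mod (L - s - 1) p
        have h4 := Nat.mod_lt (L - s - 1) hp
        refine ⟨_, ?_, mi_step h (Dvd.intro_left _ rfl) ?_⟩
        · rw [add_mul, one_mul, mul_comm]; omega
        · obtain ⟨c, rfl⟩ := hs
          rw [mul_comm]
          apply Nat.mul_le_mul_left
          have : (L - p * c - 1) / p < c := Nat.div_lt_of_lt_mul (by omega)
          omega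

lemma mkm_spec {p L : ℕ} (hp : 0 < p) (hL : L ≤ 2 ^ 32) : ∃ s, L ≤ s ∧ MI p (mkm p L) s := by
  apply mgo_spec hp 32 1 p _ dvd_rfl (by nlinarith)
  intro i
  rw [Nat.testBit_one_eq_true_iff_self_eq_zero]
  constructor
  · rintro rfl; exact ⟨dvd_zero _, hp⟩
  · rintro ⟨h1, h2⟩; exact Nat.eq_zero_of_dvd_of_lt h1 h2

lemma inv30 : ∀ x < 30, ∀ r < 30, Nat.gcd x 30 = 1 → x * (x ^ 7 * r % 30) % 30 = r := by
  decide +kernel

lemma off_eq (B r d : ℕ) : off B r d = (d - B % d + d * (d ^ 7 * r % 30) / 30) % d := rfl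

lemma off_dvd {B r d : ℕ} (hd : Nat.gcd d 30 = 1) (hd0 : 0 < d) (hr : r < 30) :
    d ∣ 30 * (B + off B r d) + r := by
  have h1 : d * (d ^ 7 * r % 30) % 30 = r := by
    have h2 := inv30 (d % 30) (Nat.mod_lt _ (by norm_num)) r hr
      (by rw [← Nat.gcd_rec, Nat.gcd_comm]; exact hd)
    have h3 : (d % 30) ^ 7 * r % 30 = d ^ 7 * r % 30 :=
      ((Nat.mod_modEq d 30).pow 7).mul_right r
    rw [h3, Nat.mod_mul_mod] at h2
    exact h2
  set t := d ^ 7 * r % 30
  have h4 := Nat.div_add_mod (d * t) 30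
  rw [h1] at h4
  have h5 : B + off B r d ≡ d * t / 30 [MOD d] := by
    have h6 : B + off B r d ≡ B % d + (d - B % d + d * t / 30) [MOD d] :=
      (Nat.mod_modEq B d).symm.add (Nat.mod_modEq _ d)
    have h7 : B % d + (d - B % d + d * t / 30) = d + d * t / 30 := by
      have := Nat.mod_lt B hd0
      omega
    rw [h7] at h6
    refine h6.trans ?_
    unfold Nat.ModEq
    rw [Nat.add_mod_left]
  have h8 : 30 * (B + off B r d) + r ≡ 30 * (d * t / 30) + r [MOD d] :=
    (h5.mul_left 30).add_right r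
  rw [h4] at h8
  exact (h8.dvd_iff dvd_rfl).mpr (Dvd.intro t rfl)

lemma bit_sound {B L r d i : ℕ} (hd : Nat.gcd d 30 = 1) (hd0 : 0 < d) (hr : r < 30)
    (hL : L ≤ 2 ^ 32) (h : (mkm d L <<< off B r d).testBit i = true) : d ∣ 30 * (B + i) + r := by
  obtain ⟨s, -, hs⟩ := mkm_spec hd0 hL
  rw [Nat.testBit_shiftLeft, Bool.and_eq_true, hs, decide_eq_true_iff] at h
  obtain ⟨h1, h2, -⟩ := h
  have h3 : 30 * (B + i) + r = 30 * (B + off B r d) + r + 30 * (i - off B r d) := by omega
  rw [h3]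
  exact dvd_add (off_dvd hd hd0 hr) (h2.mul_left _)

lemma bit_complete {B L r d i : ℕ} (hd : Nat.gcd d 30 = 1) (hd0 : 0 < d) (hr : r < 30)
    (hL : L ≤ 2 ^ 32) (hi : i < L) (h : d ∣ 30 * (B + i) + r) :
    (mkm d L <<< off B r d).testBit i = true := by
  obtain ⟨s, hs1, hs⟩ := mkm_spec hd0 hL
  rw [Nat.testBit_shiftLeft, Bool.and_eq_true, hs, decide_eq_true_iff]
  have h1 := off_dvd (B := B) hd hd0 hr
  have h2 : off B r d < d := Nat.mod_lt _ hd0
  have hc : d.Coprime 30 := hd
  by_cases h3 : off B r d ≤ i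
  · refine ⟨h3, ?_, by omega⟩
    have h4 : 30 * (B + i) + r = 30 * (B + off B r d) + r + 30 * (i - off B r d) := by omega
    rw [h4] at h
    exact hc.dvd_of_dvd_mul_left ((Nat.dvd_add_right h1).mp h)
  · exfalso
    have h4 : 30 * (B + off B r d) + r = 30 * (B + i) + r + 30 * (off B r d - i) := by omega
    rw [h4] at h1
    have := Nat.le_of_dvd (by omega) (hc.dvd_of_dvd_mul_left ((Nat.dvd_add_right h).mp h1))
    omega

lemma frc_eq (a : ℕ) (f : ℕ → ℕ) : frc a f = f a := by
  unfold frc; cases Nat.beq a 0 <;> rfl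

lemma cgo_cons (B L D r d acc : ℕ) (l : List ℕ) : cgo B L D r (d :: l) acc =
    bif Nat.ble d D then cgo B L D r l (acc ||| (mkm d L <<< off B r d)) else acc := by
  show (Bool.rec _ (frc _ _) (Nat.ble d D) : ℕ) = _
  rw [frc_eq]
  cases Nat.ble d D <;> rfl

lemma cgo_sound (B L D r i : ℕ) (l : List ℕ) : ∀ acc, (cgo B L D r l acc).testBit i = true →
    (acc.testBit i = true ∨ ∃ d ∈ l, d ≤ D ∧ (mkm d L <<< off B r d).testBit i = true) := by
  induction l with
  | nil => intro acc h; exact Or.inl h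
  | cons n l ih =>
    intro acc h
    rw [cgo_cons] at h
    cases hg : Nat.ble n D
    · rw [hg, cond_false] at h; exact Or.inl h
    · rw [hg, cond_true] at h
      rcases ih _ h with h | ⟨d, h1, h2⟩
      · rw [Nat.testBit_or, Bool.or_eq_true] at h
        rcases h with h | h
        · exact Or.inl h
        · exact Or.inr ⟨n, List.mem_cons_self, Nat.ble_eq.mp hg, h⟩
      · exact Or.inr ⟨d, List.mem_cons_of_mem _ h1, h2⟩

lemma cgo_complete (B L D r i : ℕ) (l : List ℕ) (hl : l.Pairwise (· < ·)) : ∀ acc,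
    (acc.testBit i = true ∨ ∃ d ∈ l, d ≤ D ∧ (mkm d L <<< off B r d).testBit i = true) →
    (cgo B L D r l acc).testBit i = true := by
  induction l with
  | nil =>
    rintro acc (h | ⟨d, h, -⟩)
    · exact h
    · simp at h
  | cons n l ih =>
    intro acc h
    rw [List.pairwise_cons] at hl
    rw [cgo_cons]
    cases hg : Nat.ble n D
    · rw [cond_false]
      have hn : ¬ n ≤ D := fun h => by rw [Nat.ble_eq.mpr h] at hg; exact absurd hg (by simp)
      rcases h with h | ⟨d, h1, h2, -⟩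
      · exact h
      · rcases List.mem_cons.mp h1 with rfl | h1
        · exact absurd h2 hn
        · have := hl.1 d h1
          omega
    · rw [cond_true]
      apply ih hl.2
      rw [Nat.testBit_or, Bool.or_eq_true]
      rcases h with h | ⟨d, h1, h2, h3⟩
      · exact Or.inl (Or.inl h)
      · rcases List.mem_cons.mp h1 with rfl | h1
        · exact Or.inl (Or.inr h3)
        · exact Or.inr ⟨d, h1, h2, h3⟩

lemma pl_eq : pl0 = (List.range 17800).filter good := by decide +kernel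

lemma good_imp {d : ℕ} (h : good d = true) : 7 ≤ d ∧ Nat.gcd d 30 = 1 := by
  unfold good at h
  simp only [Bool.and_eq_true, Nat.ble_eq, Nat.beq_eq] at h
  exact ⟨h.1, h.2.1⟩

lemma good_of_prime {d : ℕ} (hp : d.Prime) (h : Nat.gcd d 30 = 1) : good d = true := by
  unfold good
  simp only [Bool.and_eq_true, Bool.or_eq_true, Nat.ble_eq, Nat.beq_eq]
  refine ⟨?_, h, ?_⟩
  · by_contra hc
    have := hp.two_le
    have : d ≤ 6 := by omega
    interval_cases d <;> simp_all
  · by_cases h1 : d ≤ 150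
    · exact Or.inl h1
    · refine Or.inr ((Nat.Prime.coprime_iff_not_dvd hp).mpr ?_)
      unfold fac
      rw [hp.dvd_factorial]
      exact h1

lemma cls_comp {B L D r i : ℕ} (hr : r < 30) (hL : L ≤ 2 ^ 32) (hD : D < 30 * B)
    (h : (cls B L D r).testBit i = true) : ¬ (30 * (B + i) + r).Prime := by
  unfold cls at h
  rcases cgo_sound _ _ _ _ _ _ _ h with h | ⟨d, h1, h2, h3⟩
  · simp at h
  · rw [pl_eq, List.mem_filter] at h1
    obtain ⟨h4, h5⟩ := good_imp h1.2
    intro hp
    have := (Nat.dvd_prime hp).mp (bit_sound h5 (by omega) hr hL h3)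
    omega

lemma cls_prime {B L D r i : ℕ} (hr : r < 30) (hr' : Nat.gcd r 30 = 1) (hL : L ≤ 2 ^ 32)
    (hB : 1 ≤ B) (hD : 30 * (B + L) ≤ (D + 1) ^ 2) (hD1 : D < 17800) (hi : i < L)
    (h : (cls B L D r).testBit i = false) : (30 * (B + i) + r).Prime := by
  by_contra hp
  have h1 := Nat.minFac_sq_le_self (by omega) hp
  have h2 := Nat.minFac_prime (n := 30 * (B + i) + r) (by omega)
  have h3 := Nat.minFac_dvd (30 * (B + i) + r)
  set d := (30 * (B + i) + r).minFac
  have h4 : d < D + 1 := by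
    by_contra hc
    have : (D + 1) ^ 2 ≤ d ^ 2 := Nat.pow_le_pow_left (by omega) 2
    omega
  have h5 : Nat.gcd d 30 = 1 := by
    have h6 : Nat.Coprime (30 * (B + i) + r) 30 := by
      rw [Nat.coprime_mul_left_add_left]; exact hr'
    exact Nat.Coprime.coprime_dvd_left h3 h6
  have : (cls B L D r).testBit i = true := by
    unfold cls
    apply cgo_complete
    · rw [pl_eq]; exact List.pairwise_lt_range.filter _
    · refine Or.inr ⟨d, ?_, by omega, bit_complete h5 h2.pos hr hL hi h3⟩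
      rw [pl_eq, List.mem_filter, List.mem_range]
      exact ⟨by omega, good_of_prime h2 h5⟩
  rw [h] at this
  exact absurd this (by simp)

end Pool.Agent.H18.Wolf
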