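import Mathlib

set_option autoImplicit false

namespace Pool.Agent.H18.Wstar

open Finset

lemma par (p1 p2 p3 e1 e2 e3 : ℝ) (hp : ¬ (p1 = 0 ∧ p2 = 0 ∧ p3 = 0))
    (h1 : p2 * e3 - p3 * e2 = 0) (h2 : p3 * e1 - p1 * e3 = 0) (h3 : p1 * e2 - p2 * e1 = 0) :
    ∃ t : ℝ, e1 = t * p1 ∧ e2 = t * p2 ∧ e3 = t * p3 := by
  by_cases a1 : p1 = 0
  · by_cases a2 : p2 = 0
    · have a3 : p3 ≠ 0 := fun h => hp ⟨a1, a2, h⟩
      refine ⟨e3 / p3, ?_, ?_, ?_⟩ <;> field_simp <;> linarith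
    · refine ⟨e2 / p2, ?_, ?_, ?_⟩ <;> field_simp <;> linarith
  · refine ⟨e1 / p1, ?_, ?_, ?_⟩ <;> field_simp <;> linarith

lemma plane (p1 p2 p3 d1 d2 d3 e1 e2 e3 : ℝ) (hp : ¬ (p1 = 0 ∧ p2 = 0 ∧ p3 = 0))
    (hdet : e1 * (p2 * d3 - p3 * d2) + e2 * (p3 * d1 - p1 * d3) + e3 * (p1 * d2 - p2 * d1) = 0)
    (hle : |p2 * e3 - p3 * e2| + |p3 * e1 - p1 * e3| + |p1 * e2 - p2 * e1|
      ≤ |p2 * d3 - p3 * d2| + |p3 * d1 - p1 * d3| + |p1 * d2 - p2 * d1|) :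
    ∃ t s : ℝ, |s| ≤ 1 ∧ e1 = t * p1 + s * d1 ∧ e2 = t * p2 + s * d2 ∧ e3 = t * p3 + s * d3 ∧
      (p2 * d3 - p3 * d2 = 0 ∧ p3 * d1 - p1 * d3 = 0 ∧ p1 * d2 - p2 * d1 = 0 → s = 0) := by
  by_cases hn : p2 * d3 - p3 * d2 = 0 ∧ p3 * d1 - p1 * d3 = 0 ∧ p1 * d2 - p2 * d1 = 0
  · rw [hn.1, hn.2.1, hn.2.2, abs_zero] at hle
    have a1 := abs_nonneg (p2 * e3 - p3 * e2)
    have a2 := abs_nonneg (p3 * e1 - p1 * e3)
    have a3 := abs_nonneg (p1 * e2 - p2 * e1)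
    obtain ⟨t, h1, h2, h3⟩ := par p1 p2 p3 e1 e2 e3 hp (abs_eq_zero.1 (by linarith))
      (abs_eq_zero.1 (by linarith)) (abs_eq_zero.1 (by linarith))
    exact ⟨t, 0, by simp, by linarith, by linarith, by linarith, fun _ => rfl⟩
  · obtain ⟨s, h1, h2, h3⟩ := par _ _ _ (p2 * e3 - p3 * e2) (p3 * e1 - p1 * e3) (p1 * e2 - p2 * e1)
      hn (by linear_combination p1 * hdet) (by linear_combination p2 * hdet)
      (by linear_combination p3 * hdet)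
    obtain ⟨t, g1, g2, g3⟩ := par p1 p2 p3 (e1 - s * d1) (e2 - s * d2) (e3 - s * d3) hp
      (by linear_combination h1) (by linear_combination h2) (by linear_combination h3)
    refine ⟨t, s, ?_, by linarith, by linarith, by linarith, fun h => (hn h).elim⟩
    rw [h1, h2, h3, abs_mul, abs_mul, abs_mul] at hle
    have hpos : 0 < |p2 * d3 - p3 * d2| + |p3 * d1 - p1 * d3| + |p1 * d2 - p2 * d1| := by
      by_contra hc
      have a1 := abs_nonneg (p2 * d3 - p3 * d2)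
      have a2 := abs_nonneg (p3 * d1 - p1 * d3)
      have a3 := abs_nonneg (p1 * d2 - p2 * d1)
      exact hn ⟨abs_eq_zero.1 (by linarith), abs_eq_zero.1 (by linarith),
        abs_eq_zero.1 (by linarith)⟩
    nlinarith

abbrev V3 := ℤ × ℤ × ℤ

def fu (z : ℝ) (P : V3) : ℝ := P.1 * z ^ 2 + P.2.1 * z + P.2.2
def fv (z : ℝ) (P : V3) : ℝ := 2 * P.1 * z + P.2.1
def fw (P : V3) : ℝ := P.1

lemma zero_of (z : ℝ) (P : V3) (h : fu z P = 0 ∧ fv z P = 0 ∧ fw P = 0) : P = 0 := by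
  obtain ⟨a, b, c⟩ := P
  simp only [fu, fv, fw] at h
  obtain ⟨h1, h2, h3⟩ := h
  rw [h3] at h1 h2
  have hb : (b : ℝ) = 0 := by linarith
  rw [hb] at h1
  have hc : (c : ℝ) = 0 := by linarith
  simp only [Prod.mk_eq_zero]
  exact ⟨by exact_mod_cast h3, by exact_mod_cast hb, by exact_mod_cast hc⟩

lemma rnd (t1 t2 t3 x1 x2 x3 A : ℝ) (h1 : |x1| ≤ A) (h2 : |x2| ≤ A) (h3 : |x3| ≤ A) :
    |(round t1 * x1 + round t2 * x2 + round t3 * x3) - (t1 * x1 + t2 * x2 + t3 * x3)|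
      ≤ 3 / 2 * A := by
  have e : (round t1 * x1 + round t2 * x2 + round t3 * x3) - (t1 * x1 + t2 * x2 + t3 * x3)
      = -((t1 - round t1) * x1 + (t2 - round t2) * x2 + (t3 - round t3) * x3) := by ring
  have b : ∀ t x : ℝ, |x| ≤ A → |(t - round t) * x| ≤ 1 / 2 * A := fun t x hx => by
    rw [abs_mul]
    exact mul_le_mul (abs_sub_round t) hx (abs_nonneg _) (by norm_num)
  rw [e, abs_neg]
  have := abs_add_three ((t1 - round t1) * x1) ((t2 - round t2) * x2) ((t3 - round t3) * x3)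
  linarith [b t1 x1 h1, b t2 x2 h2, b t3 x3 h3]

lemma caseA (z U T V : ℝ) (hU : 0 < U) (hV0 : 0 ≤ V) (hVT : 9 * V < 2 * T)
    (hV : ∀ P : V3, P ≠ 0 → |fu z P| ≤ 3 * U → |fv z P| ≤ 3 * T → |fw P| ≤ 3 * T →
      |fv z P| ≤ 3 * V)
    (P Q R : V3) (hP : |fu z P| ≤ U ∧ |fv z P| ≤ V ∧ |fw P| ≤ T)
    (hQ : |fu z Q| ≤ U ∧ |fv z Q| ≤ V ∧ |fw Q| ≤ T)
    (hR : |fu z R| ≤ U ∧ |fv z R| ≤ V ∧ |fw R| ≤ T) :
    fu z R * (fv z P * fw Q - fw P * fv z Q) + fv z R * (fw P * fu z Q - fu z P * fw Q)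
      + fw R * (fu z P * fv z Q - fv z P * fu z Q) = 0 := by
  by_contra hd
  set D := fu z R * (fv z P * fw Q - fw P * fv z Q) + fv z R * (fw P * fu z Q - fu z P * fw Q)
      + fw R * (fu z P * fv z Q - fv z P * fu z Q) with hD
  set t1 := T * (fw Q * fu z R - fu z Q * fw R) / D with ht1
  set t2 := T * (fw R * fu z P - fu z R * fw P) / D with ht2
  set t3 := T * (fw P * fu z Q - fu z P * fw Q) / D with ht3
  have e1 : t1 * fu z P + t2 * fu z Q + t3 * fu z R = 0 := by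
    rw [ht1, ht2, ht3]; field_simp; ring
  have e2 : t1 * fv z P + t2 * fv z Q + t3 * fv z R = T := by
    rw [ht1, ht2, ht3]; field_simp; rw [hD]; ring
  have e3 : t1 * fw P + t2 * fw Q + t3 * fw R = 0 := by
    rw [ht1, ht2, ht3]; field_simp; ring
  set X : V3 := round t1 • P + round t2 • Q + round t3 • R with hX
  have g1 : fu z X = round t1 * fu z P + round t2 * fu z Q + round t3 * fu z R := by
    simp [hX, fu]; ring
  have g2 : fv z X = round t1 * fv z P + round t2 * fv z Q + round t3 * fv z R := by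
    simp [hX, fv]; ring
  have g3 : fw X = round t1 * fw P + round t2 * fw Q + round t3 * fw R := by
    simp [hX, fw]
  have b1 := rnd t1 t2 t3 _ _ _ U hP.1 hQ.1 hR.1
  have b2 := rnd t1 t2 t3 _ _ _ V hP.2.1 hQ.2.1 hR.2.1
  have b3 := rnd t1 t2 t3 _ _ _ T hP.2.2 hQ.2.2 hR.2.2
  rw [← g1, e1, sub_zero] at b1
  rw [← g2, e2, abs_le] at b2
  rw [← g3, e3, sub_zero] at b3
  have hX0 : X ≠ 0 := by
    intro h
    have : fv z X = 0 := by simp [h, fv]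
    linarith [b2.1]
  have := hV X hX0 (by linarith) (by rw [abs_le]; constructor <;> linarith [b2.1, b2.2])
    (by linarith)
  linarith [b2.1, (abs_le.1 this).2]

lemma den_sq (y0 y1 y2 : ℤ) (h0 : y0 ≠ 0) (h : y0 * y2 = y1 ^ 2) :
    (((y1 : ℚ) / y0).den : ℤ) ^ 2 ≤ |y0| := by
  set r : ℚ := (y1 : ℚ) / y0 with hr
  have h0' : (y0 : ℚ) ≠ 0 := by exact_mod_cast h0
  have e1 : y1 * r.den = y0 * r.num := by
    have : (y1 : ℚ) * r.den = y0 * r.num := by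
      rw [← Rat.mul_den_eq_num r, hr]; field_simp
    exact_mod_cast this
  have e2 : y0 * r.num ^ 2 = (r.den : ℤ) ^ 2 * y2 := by
    apply mul_left_cancel₀ h0
    linear_combination (-(y1 * r.den) - y0 * r.num) * e1 - (r.den : ℤ) ^ 2 * h
  have e3 : IsCoprime ((r.den : ℤ) ^ 2) (r.num ^ 2) := (Rat.isCoprime_num_den r).symm.pow
  have e4 : (r.den : ℤ) ^ 2 ∣ y0 := e3.dvd_of_dvd_mul_right ⟨y2, e2⟩
  exact Int.le_of_dvd (abs_pos.2 h0) ((dvd_abs _ _).2 e4)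

lemma caseB2 (z U T V M : ℝ) (hU : 0 < U) (hT : 0 < T) (hV2 : 2 ≤ V) (hUT : U * T ≤ 1 / 16)
    (hVT : 9 * V < 2 * T) (hM : 36 ≤ M) (c4 : 5184 * (V ^ 2 * (U * T) + (U * T) ^ 2) < M ^ 2)
    (hQ : ∀ r : ℚ, |z - r| ≤ 1 → (r.den : ℝ) ≤ T → U * T ≤ V * (r.den * |z - r|))
    (y0 y1 y2 : ℤ) (hy : ¬ ((y0 : ℝ) = 0 ∧ (y1 : ℝ) - z * y0 = 0 ∧ (y2 : ℝ) - 2 * z * y1 + z ^ 2 * y0 = 0))
    (b0 : |(y0 : ℝ)| ≤ 72 * (V * T) / M) (b1 : |(y1 : ℝ) - z * y0| ≤ 72 * (U * T) / M)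
    (b2 : |(y2 : ℝ) - 2 * z * y1 + z ^ 2 * y0| ≤ 72 * (U * V) / M) :
    ∃ p q : ℤ, 0 < q ∧ (q : ℝ) ≤ 72 * T / M ∧ |z - p / q| ≤ 72 * (U * T) / M := by
  have hM0 : 0 < M := by linarith
  have hD : y0 * y2 = y1 ^ 2 := by
    have e : ((y0 * y2 - y1 ^ 2 : ℤ) : ℝ) = y0 * ((y2 : ℝ) - 2 * z * y1 + z ^ 2 * y0)
        - ((y1 : ℝ) - z * y0) ^ 2 := by push_cast; ring
    have a1 : |(y0 : ℝ) * ((y2 : ℝ) - 2 * z * y1 + z ^ 2 * y0)|
        ≤ 72 * (V * T) / M * (72 * (U * V) / M) := by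
      rw [abs_mul]; gcongr
    have a2 : |((y1 : ℝ) - z * y0) ^ 2| ≤ (72 * (U * T) / M) ^ 2 := by
      rw [abs_pow]; gcongr
    have a3 : 72 * (V * T) / M * (72 * (U * V) / M) + (72 * (U * T) / M) ^ 2 < 1 := by
      have : 72 * (V * T) / M * (72 * (U * V) / M) + (72 * (U * T) / M) ^ 2
          = 5184 * (V ^ 2 * (U * T) + (U * T) ^ 2) / M ^ 2 := by field_simp; ring
      rw [this, div_lt_one (by positivity)]
      exact c4
    have a4 : |((y0 * y2 - y1 ^ 2 : ℤ) : ℝ)| < 1 := by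
      rw [e]
      exact (abs_sub _ _).trans_lt (by linarith)
    have a5 : |y0 * y2 - y1 ^ 2| < 1 := by exact_mod_cast a4
    have := Int.abs_lt_one_iff.1 a5
    omega
  have hs : 72 * (U * T) / M ≤ 1 / 8 := by rw [div_le_iff₀ hM0]; linarith
  have h0 : y0 ≠ 0 := by
    intro h0
    subst h0
    have h1 : y1 = 0 := by simpa using hD.symm
    subst h1
    have : 72 * (U * V) / M ≤ 72 * (U * T) / M := by gcongr; linarith
    have a1 : |(y2 : ℝ)| < 1 := by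
      simp only [Int.cast_zero, mul_zero, sub_zero, add_zero] at b2
      linarith
    have a2 : |y2| < 1 := by exact_mod_cast a1
    have a3 := Int.abs_lt_one_iff.1 a2
    subst a3
    simp at hy
  have hq := den_sq y0 y1 y2 h0 hD
  set r : ℚ := (y1 : ℚ) / y0 with hr
  have h0' : (y0 : ℝ) ≠ 0 := by exact_mod_cast h0
  have hq' : (r.den : ℝ) ^ 2 ≤ |(y0 : ℝ)| := by exact_mod_cast hq
  have hq1 : (1 : ℝ) ≤ r.den := by exact_mod_cast r.pos
  have e : |(y1 : ℝ) - z * y0| = |(y0 : ℝ)| * |z - r| := by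
    rw [← abs_mul, ← abs_neg]
    congr 1
    rw [hr]; push_cast; field_simp; ring
  have a0 := abs_nonneg (z - r)
  have a1 : (r.den : ℝ) ^ 2 * |z - r| ≤ 72 * (U * T) / M := by
    rw [e] at b1
    exact (mul_le_mul_of_nonneg_right hq' a0).trans b1
  have a2 : |z - r| ≤ 72 * (U * T) / M := by
    have : 1 * |z - r| ≤ (r.den : ℝ) ^ 2 * |z - r| := by gcongr; nlinarith
    linarith
  have a3 : (r.den : ℝ) ≤ T := by
    refine le_of_pow_le_pow_left₀ two_ne_zero hT.le ?_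
    refine hq'.trans (b0.trans ?_)
    rw [div_le_iff₀ hM0]
    nlinarith [mul_pos hT hT]
  have a4 := hQ r (by linarith) a3
  refine ⟨r.num, r.den, by exact_mod_cast r.pos, ?_, ?_⟩
  · have a5 : (r.den : ℝ) * (U * T) ≤ (72 * V / M) * (U * T) := by
      calc (r.den : ℝ) * (U * T) ≤ r.den * (V * (r.den * |z - r|)) := by gcongr
        _ = V * ((r.den : ℝ) ^ 2 * |z - r|) := by ring
        _ ≤ V * (72 * (U * T) / M) := by gcongr
        _ = _ := by ring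
    have a6 := le_of_mul_le_mul_right a5 (by positivity)
    have : 72 * V / M ≤ 72 * T / M := by gcongr; linarith
    push_cast
    linarith
  · rw [Rat.cast_def] at a2
    push_cast
    exact a2

lemma caseB1 (z U T V M l : ℝ) (hU : 0 < U) (hT : 0 < T) (hV2 : 2 ≤ V) (hUT : U * T ≤ 1 / 16)
    (hVT : 9 * V < 2 * T) (hM : 36 ≤ M) (c3 : 2592 * V ≤ M ^ 2) (hl0 : 0 ≤ l) (hl1 : l ≤ 1)
    (hl : l * M ≤ 36) (P : V3) (hP : P ≠ 0) (h1 : |fu z P| ≤ l * U) (h3 : |fw P| ≤ l * T)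
    (h2 : fv z P ^ 2 ≤ 4 * |fu z P| * |fw P| ∨ |fv z P| ≤ l ^ 2 * V / 3) :
    ∃ p q : ℤ, 0 < q ∧ (q : ℝ) ≤ 72 * T / M ∧ (z - p / q) ^ 2 ≤ 36 * U / M := by
  have hM0 : 0 < M := by linarith
  have a1 : |fu z P| * |fw P| ≤ 1 / 16 := by
    calc |fu z P| * |fw P| ≤ (l * U) * (l * T) := by gcongr
      _ = l ^ 2 * (U * T) := by ring
      _ ≤ 1 ^ 2 * (1 / 16) := by gcongr
      _ = _ := by norm_num
  have a2 : fv z P ^ 2 ≤ 1 / 4 := by
    rcases h2 with h | h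
    · linarith
    · have b1 : l ^ 2 * V ≤ 1 / 2 := by
        have b2 : (l * M) ^ 2 ≤ 36 ^ 2 := by gcongr
        have b3 : l ^ 2 * (2592 * V) ≤ l ^ 2 * M ^ 2 := by gcongr
        nlinarith
      have : |fv z P| ≤ 1 / 2 := by linarith
      rw [← sq_abs]
      nlinarith [abs_nonneg (fv z P)]
  have hU1 : U < 1 := by nlinarith
  have hlU : l * U ≤ 36 * U / M := by rw [le_div_iff₀ hM0]; nlinarith
  have hlT : l * T ≤ 36 * T / M := by rw [le_div_iff₀ hM0]; nlinarith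
  obtain ⟨a, b, c⟩ := P
  have hD : b ^ 2 = 4 * a * c := by
    have e : ((b ^ 2 - 4 * a * c : ℤ) : ℝ)
        = fv z (a, b, c) ^ 2 - 4 * (fu z (a, b, c) * fw (a, b, c)) := by
      simp only [fu, fv, fw]; push_cast; ring
    have a3 : |fu z (a, b, c) * fw (a, b, c)| ≤ 1 / 16 := by rwa [abs_mul]
    have a4 : |((b ^ 2 - 4 * a * c : ℤ) : ℝ)| < 1 := by
      rw [e, abs_lt]
      constructor <;> nlinarith [abs_le.1 a3, sq_nonneg (fv z (a, b, c))]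
    have a5 : |b ^ 2 - 4 * a * c| < 1 := by exact_mod_cast a4
    have := Int.abs_lt_one_iff.1 a5
    omega
  have ha : a ≠ 0 := by
    intro ha
    subst ha
    have hb : b = 0 := by simpa using hD
    subst hb
    have a3 : |(c : ℝ)| < 1 := by
      simp only [fu, Int.cast_zero, zero_mul, zero_add] at h1
      nlinarith
    have a4 : |c| < 1 := by exact_mod_cast a3
    exact hP (by rw [Int.abs_lt_one_iff.1 a4]; rfl)
  have ha' : (a : ℝ) ≠ 0 := by exact_mod_cast ha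
  have ha1 : (1 : ℝ) ≤ |(a : ℝ)| := by exact_mod_cast Int.one_le_abs ha
  have hD' : (b : ℝ) ^ 2 = 4 * a * c := by exact_mod_cast hD
  have e : fu z (a, b, c) = a * (z - -b / (2 * a)) ^ 2 := by
    simp only [fu]
    field_simp
    linear_combination (-1) * hD'
  have a6 : (z - -b / (2 * a)) ^ 2 ≤ 36 * U / M := by
    rw [e, abs_mul, abs_sq] at h1
    nlinarith [sq_nonneg (z - -b / (2 * a))]
  simp only [fw] at h3
  have e72 : 72 * T / M = 2 * (36 * T / M) := by ring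
  rcases lt_or_gt_of_ne ha with h | h
  · refine ⟨b, -2 * a, by omega, ?_, ?_⟩
    · push_cast; linarith [neg_abs_le (a : ℝ)]
    · convert a6 using 3
      push_cast; field_simp
  · refine ⟨-b, 2 * a, by omega, ?_, ?_⟩
    · push_cast; linarith [le_abs_self (a : ℝ)]
    · convert a6 using 3
      push_cast; field_simp

lemma fu_sub (z : ℝ) (P Q : V3) : fu z (P - Q) = fu z P - fu z Q := by simp [fu]; ring
lemma fv_sub (z : ℝ) (P Q : V3) : fv z (P - Q) = fv z P - fv z Q := by simp [fv]; ring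
lemma fw_sub (P Q : V3) : fw (P - Q) = fw P - fw Q := by simp [fw]

lemma crossb (x y x' y' l A B L s : ℝ) (hL : 0 < L) (hs : |s| * L ≤ 1) (h1 : |x| ≤ l * A)
    (h2 : |y| ≤ l * B) (h3 : |x'| ≤ A) (h4 : |y'| ≤ B) :
    |s * (x * y' - y * x')| ≤ 2 * l * (A * B) / L := by
  rw [le_div_iff₀ hL, abs_mul]
  have hA : 0 ≤ A := (abs_nonneg _).trans h3
  have hB : 0 ≤ B := (abs_nonneg _).trans h4
  have a1 : |x * y'| ≤ l * A * B := by rw [abs_mul]; gcongr; exact (abs_nonneg _).trans h1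
  have a2 : |y * x'| ≤ l * B * A := by rw [abs_mul]; gcongr; exact (abs_nonneg _).trans h2
  have a3 := abs_sub (x * y') (y * x')
  have a4 := abs_nonneg (x * y' - y * x')
  nlinarith

theorem core (z U T V M : ℝ) (S : Finset V3) (hU : 0 < U) (hT : 0 < T) (hV2 : 2 ≤ V)
    (hUT : U * T ≤ 1 / 16) (hVT : 9 * V < 2 * T) (hM : 36 ≤ M) (hMS : M < S.card)
    (c3 : 2592 * V ≤ M ^ 2) (c4 : 5184 * (V ^ 2 * (U * T) + (U * T) ^ 2) < M ^ 2)
    (hS : ∀ s ∈ S, ∀ s' ∈ S, |fu z (s - s')| ≤ U ∧ |fv z (s - s')| ≤ T ∧ |fw (s - s')| ≤ T)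
    (hV : ∀ P : V3, P ≠ 0 → ∀ l : ℝ, 0 ≤ l → l ≤ 3 → |fu z P| ≤ l * U → |fv z P| ≤ l * T →
      |fw P| ≤ l * T → fv z P ^ 2 ≤ 4 * |fu z P| * |fw P| ∨ |fv z P| ≤ l ^ 2 * V / 3)
    (hQ : ∀ r : ℚ, |z - r| ≤ 1 → (r.den : ℝ) ≤ T → U * T ≤ V * (r.den * |z - r|)) :
    ∃ p q : ℤ, 0 < q ∧ (q : ℝ) ≤ 72 * T / M ∧
      ((z - p / q) ^ 2 ≤ 36 * U / M ∨ |z - p / q| ≤ 72 * (U * T) / M) := by
  classical
  have hV' : ∀ P : V3, ∀ l : ℝ, 0 ≤ l → l ≤ 3 → |fu z P| ≤ l * U → |fv z P| ≤ l * T →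
      |fw P| ≤ l * T → |fv z P| ≤ l * V := by
    intro P l l0 l3 h1 h2 h3
    by_cases hP : P = 0
    · have : fv z P = 0 := by simp [hP, fv]
      rw [this, abs_zero]; positivity
    rcases hV P hP l l0 l3 h1 h2 h3 with h | h
    · refine le_of_pow_le_pow_left₀ two_ne_zero (by positivity) ?_
      rw [sq_abs]
      calc fv z P ^ 2 ≤ 4 * (l * U) * (l * T) := h.trans (by gcongr)
        _ = l ^ 2 * (4 * (U * T)) := by ring
        _ ≤ l ^ 2 * V ^ 2 := by gcongr; nlinarith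
        _ = _ := by ring
    · have : l * (l * V) ≤ 3 * (l * V) := by gcongr
      nlinarith
  have hS' : ∀ s ∈ S, ∀ s' ∈ S, |fu z (s - s')| ≤ U ∧ |fv z (s - s')| ≤ V ∧ |fw (s - s')| ≤ T := by
    intro s hs s' hs'
    obtain ⟨h1, h2, h3⟩ := hS s hs s' hs'
    refine ⟨h1, ?_, h3⟩
    simpa using hV' (s - s') 1 zero_le_one (by norm_num) (by simpa) (by simpa) (by simpa)
  set N : V3 → ℝ := fun P => max (|fu z P| / U) (max (|fv z P| / T) (|fw P| / T)) with hN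
  have hNle : ∀ P l, N P ≤ l ↔ |fu z P| ≤ l * U ∧ |fv z P| ≤ l * T ∧ |fw P| ≤ l * T := by
    intro P l
    simp only [hN, max_le_iff, div_le_iff₀ hU, div_le_iff₀ hT]
  have hc1 : 1 < S.card := by
    have : (1 : ℝ) < S.card := by linarith
    exact_mod_cast this
  obtain ⟨s0, hs0, s1, hs1, h01⟩ := one_lt_card.1 hc1
  obtain ⟨x, hx, hmin⟩ := exists_min_image ((S ×ˢ S).filter (fun x => x.1 ≠ x.2))
    (fun x => N (x.1 - x.2)) ⟨(s0, s1), by simp [hs0, hs1, h01]⟩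
  obtain ⟨hx1, hx2⟩ := mem_filter.1 hx
  obtain ⟨hx3, hx4⟩ := mem_product.1 hx1
  set p := x.1 - x.2 with hp
  set l := N p with hl
  have hp0 : p ≠ 0 := sub_ne_zero.2 hx2
  have hp0' : ¬ (fu z p = 0 ∧ fv z p = 0 ∧ fw p = 0) := fun h => hp0 (zero_of z p h)
  obtain ⟨p1, p2, p3⟩ := (hNle p l).1 le_rfl
  have hl1 : l ≤ 1 := (hNle p 1).2 (by simpa using hS _ hx3 _ hx4)
  have hl0 : 0 < l := by
    by_contra hc
    obtain ⟨a1, a2, a3⟩ := (hNle p 0).1 (not_lt.1 hc)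
    exact hp0' ⟨by simpa using a1, by simpa using a2, by simpa using a3⟩
  by_cases hlM : l * M ≤ 36
  · obtain ⟨a, b, h1, h2, h3⟩ := caseB1 z U T V M l hU hT hV2 hUT hVT hM c3 hl0.le hl1 hlM p hp0
      p1 p3 (hV p hp0 l hl0.le (by linarith) p1 p2 p3)
    exact ⟨a, b, h1, h2, Or.inl h3⟩
  push Not at hlM
  have p2' := hV' p l hl0.le (by linarith) p1 p2 p3
  obtain ⟨sd, hsd, hmax⟩ := exists_max_image S (fun s =>
    |fv z p * fw (s - s0) - fw p * fv z (s - s0)| + |fw p * fu z (s - s0) - fu z p * fw (s - s0)|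
      + |fu z p * fv z (s - s0) - fv z p * fu z (s - s0)|) ⟨s0, hs0⟩
  set d := sd - s0 with hd
  obtain ⟨d1, d2, d3⟩ := hS' _ hsd _ hs0
  have hpl : ∀ s : V3, ∃ t σ : ℝ, s ∈ S → |σ| ≤ 1 ∧ fu z (s - s0) = t * fu z p + σ * fu z d ∧
      fv z (s - s0) = t * fv z p + σ * fv z d ∧ fw (s - s0) = t * fw p + σ * fw d ∧
      (fv z p * fw d - fw p * fv z d = 0 ∧ fw p * fu z d - fu z p * fw d = 0 ∧
        fu z p * fv z d - fv z p * fu z d = 0 → σ = 0) := by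
    intro s
    by_cases hs : s ∈ S
    · obtain ⟨t, σ, h⟩ := plane _ _ _ _ _ _ _ _ _ hp0' (caseA z U T V hU (by linarith) hVT
        (fun P _ a1 a2 a3 => hV' P 3 (by norm_num) le_rfl a1 a2 a3) p d (s - s0)
        (hS' _ hx3 _ hx4) (hS' _ hsd _ hs0) (hS' _ hs _ hs0)) (hmax s hs)
      exact ⟨t, σ, fun _ => h⟩
    · exact ⟨0, 0, fun h => (hs h).elim⟩
  choose τ σ hτ using hpl
  have hscale : ∀ (t : ℝ) (e : V3), fu z e = t * fu z p → fv z e = t * fv z p → fw e = t * fw p →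
      N e ≤ |t| * l := by
    intro t e a1 a2 a3
    rw [hNle, a1, a2, a3, abs_mul, abs_mul, abs_mul, mul_assoc, mul_assoc]
    refine ⟨?_, ?_, ?_⟩ <;> gcongr
  have hτb : ∀ s ∈ S, |τ s| ≤ 2 / l := by
    intro s hs
    obtain ⟨a0, a1, a2, a3, -⟩ := hτ s hs
    obtain ⟨e1, e2, e3⟩ := hS _ hs _ hs0
    obtain ⟨f1, f2, f3⟩ := hS _ hsd _ hs0
    have g : ∀ a b c A : ℝ, c = τ s * a + σ s * b → |c| ≤ A → |b| ≤ A → |τ s| * |a| ≤ 2 * A := by
      intro a b c A h hc hb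
      have : |σ s * b| ≤ 1 * A := by rw [abs_mul]; gcongr
      have h2 := abs_sub c (σ s * b)
      rw [← abs_mul, show τ s * a = c - σ s * b by linarith]
      linarith
    by_cases h0 : |τ s| = 0
    · rw [h0]; positivity
    have h0' : 0 < |τ s| := lt_of_le_of_ne (abs_nonneg _) (Ne.symm h0)
    have : l ≤ 2 / |τ s| := by
      rw [hl, hNle, div_mul_eq_mul_div, div_mul_eq_mul_div, le_div_iff₀ h0', le_div_iff₀ h0',
        le_div_iff₀ h0']
      exact ⟨by linarith [g _ _ _ _ a1 e1 f1], by linarith [g _ _ _ _ a2 e2 f2],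
        by linarith [g _ _ _ _ a3 e3 f3]⟩
    rw [le_div_iff₀ h0'] at this
    rw [le_div_iff₀ hl0]; linarith
  set L := ⌊l * M / 18⌋₊ with hL
  set K := ⌊2 / l⌋₊ with hK
  have L1 : (L : ℝ) ≤ l * M / 18 := Nat.floor_le (by positivity)
  have L2 : l * M / 18 < L + 1 := Nat.lt_floor_add_one _
  have L3 : (1 : ℝ) < L := by linarith
  have K1 : (K : ℝ) ≤ 2 / l := Nat.floor_le (by positivity)
  have K2 : 2 / l < K + 1 := Nat.lt_floor_add_one _
  obtain ⟨s, hs, s', hs', hne, hss⟩ := exists_ne_map_eq_of_card_lt_of_maps_to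
    (s := S) (t := Icc (-(L : ℤ)) L ×ˢ Icc (-(K : ℤ) - 1) K) (by
      have e : ((Icc (-(L : ℤ)) L ×ˢ Icc (-(K : ℤ) - 1) K).card : ℝ) = (2 * L + 1) * (2 * K + 2) := by
        rw [card_product, Int.card_Icc, Int.card_Icc,
          show ((L : ℤ) + 1 - -L).toNat = 2 * L + 1 by omega,
          show ((K : ℤ) + 1 - (-K - 1)).toNat = 2 * K + 2 by omega]
        push_cast; ring
      have a1 : (2 : ℝ) ≤ 2 / l := by rw [le_div_iff₀ hl0]; linarith
      have a2 : ((2 : ℝ) * L + 1) * (2 * K + 2) ≤ (3 * (l * M / 18)) * (3 * (2 / l)) := by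
        gcongr <;> linarith
      have a3 : (3 * (l * M / 18)) * (3 * (2 / l)) = M := by field_simp; ring
      have : ((Icc (-(L : ℤ)) L ×ˢ Icc (-(K : ℤ) - 1) K).card : ℝ) < S.card := by linarith
      exact_mod_cast this)
    (f := fun s => (⌊σ s * L⌋, ⌊τ s⌋)) (fun s hs => by
      obtain ⟨a1, a2⟩ := abs_le.1 (hτ s hs).1
      obtain ⟨b1, b2⟩ := abs_le.1 (hτb s hs)
      simp only [coe_product, coe_Icc, Set.mem_prod, Set.mem_Icc, Int.le_floor, Int.floor_le_iff]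
      push_cast
      refine ⟨⟨?_, ?_⟩, ?_, ?_⟩ <;> nlinarith)
  obtain ⟨q1, q2⟩ := Prod.mk.inj hss
  have r1 := Int.abs_sub_lt_one_of_floor_eq_floor q1
  have r2 := Int.abs_sub_lt_one_of_floor_eq_floor q2
  obtain ⟨-, a1, a2, a3, a4⟩ := hτ s hs
  obtain ⟨-, b1, b2, b3, b4⟩ := hτ s' hs'
  set e := s - s' with he
  have ee : e = (s - s0) - (s' - s0) := by rw [he]; abel
  have e1 : fu z e = (τ s - τ s') * fu z p + (σ s - σ s') * fu z d := by
    rw [ee, fu_sub, a1, b1]; ring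
  have e2 : fv z e = (τ s - τ s') * fv z p + (σ s - σ s') * fv z d := by
    rw [ee, fv_sub, a2, b2]; ring
  have e3 : fw e = (τ s - τ s') * fw p + (σ s - σ s') * fw d := by
    rw [ee, fw_sub, a3, b3]; ring
  have hσ : σ s - σ s' ≠ 0 := by
    intro h
    rw [h, zero_mul, add_zero] at e1 e2 e3
    have c1 := hscale _ e e1 e2 e3
    have c2 : l ≤ N e := hmin (s, s') (by simp [hs, hs', hne])
    nlinarith
  have hσL : |σ s - σ s'| * L ≤ 1 := by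
    rw [← sub_mul, abs_mul, Nat.abs_cast] at r1
    exact r1.le
  have y0 : ((p.1 * e.2.1 - p.2.1 * e.1 : ℤ) : ℝ)
      = (σ s - σ s') * (fw p * fv z d - fv z p * fw d) := by
    have : ((p.1 * e.2.1 - p.2.1 * e.1 : ℤ) : ℝ) = fw p * fv z e - fv z p * fw e := by
      simp only [fv, fw]; push_cast; ring
    rw [this, e2, e3]; ring
  have y1 : ((p.2.2 * e.1 - p.1 * e.2.2 : ℤ) : ℝ) - z * ((p.1 * e.2.1 - p.2.1 * e.1 : ℤ) : ℝ)
      = (σ s - σ s') * (fu z p * fw d - fw p * fu z d) := by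
    have : ((p.2.2 * e.1 - p.1 * e.2.2 : ℤ) : ℝ) - z * ((p.1 * e.2.1 - p.2.1 * e.1 : ℤ) : ℝ)
        = fu z p * fw e - fw p * fu z e := by
      simp only [fu, fw]; push_cast; ring
    rw [this, e1, e3]; ring
  have y2 : ((p.2.1 * e.2.2 - p.2.2 * e.2.1 : ℤ) : ℝ) - 2 * z * ((p.2.2 * e.1 - p.1 * e.2.2 : ℤ) : ℝ)
      + z ^ 2 * ((p.1 * e.2.1 - p.2.1 * e.1 : ℤ) : ℝ)
      = (σ s - σ s') * (fv z p * fu z d - fu z p * fv z d) := by
    have : ((p.2.1 * e.2.2 - p.2.2 * e.2.1 : ℤ) : ℝ)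
        - 2 * z * ((p.2.2 * e.1 - p.1 * e.2.2 : ℤ) : ℝ)
        + z ^ 2 * ((p.1 * e.2.1 - p.2.1 * e.1 : ℤ) : ℝ) = fv z p * fu z e - fu z p * fv z e := by
      simp only [fu, fv]; push_cast; ring
    rw [this, e1, e2]; ring
  have hfin : ∀ A : ℝ, 0 ≤ A → 2 * l * A / L ≤ 72 * A / M := by
    intro A hA
    rw [div_le_div_iff₀ (by linarith) (by linarith)]
    have : l * M ≤ 36 * L := by linarith
    nlinarith
  obtain ⟨a, b, h1, h2, h3⟩ := caseB2 z U T V M hU hT hV2 hUT hVT hM c4 hQ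
    (p.1 * e.2.1 - p.2.1 * e.1) (p.2.2 * e.1 - p.1 * e.2.2) (p.2.1 * e.2.2 - p.2.2 * e.2.1)
    (by
      rw [y2, y1, y0]
      rintro ⟨c1, c2, c3⟩
      have g1 := (mul_eq_zero.1 c1).resolve_left hσ
      have g2 := (mul_eq_zero.1 c2).resolve_left hσ
      have g3 := (mul_eq_zero.1 c3).resolve_left hσ
      apply hσ
      rw [a4 ⟨by linarith, by linarith, by linarith⟩, b4 ⟨by linarith, by linarith, by linarith⟩,
        sub_zero])
    (by
      rw [y0, mul_comm V T]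
      exact (crossb _ _ _ _ l T V L _ (by linarith) hσL p3 p2' d3 d2).trans (hfin _ (by positivity)))
    (by
      rw [y1]
      exact (crossb _ _ _ _ l U T L _ (by linarith) hσL p1 p3 d1 d3).trans (hfin _ (by positivity)))
    (by
      rw [y2, mul_comm U V]
      exact (crossb _ _ _ _ l V U L _ (by linarith) hσL p2' p1 d2 d1).trans (hfin _ (by positivity)))
  exact ⟨a, b, h1, h2, Or.inr h3⟩

end Pool.Agent.H18.Wstar
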